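import Pool.Agent.P.MP_c2aaf5_co.DefP

/-! The local statements `L1`, `L2`, `L3`. -/

set_option linter.unusedSectionVars false

namespace Pool.Agent.P.MP_c2aaf5_co

open MvPolynomial Finset

namespace PL123Aux

variable {P Λ Y : Type} [Fintype P] [DecidableEq P] [Fintype Λ] [DecidableEq Λ] [CommRing Y]
  {y : P → Y} {p q o : P} {N : Finset P} {L E : Finset Λ} {k : ℕ} {f0 f : Λ → P} {e0 e : P →₀ ℕ}

/-- two labels in the same piece -/
def Sim (p q : P) (L : Finset Λ) (f0 : Λ → P) (e0 : P →₀ ℕ) (f : Λ → P) (e : P →₀ ℕ) : Prop :=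
  (∀ s ∈ L, cl p q (f s) = cl p q (f0 s)) ∧ ((zs e).erase p).erase q = ((zs e0).erase p).erase q

theorem rep_iff : rep p q L f = rep p q L f0 ↔ ∀ s ∈ L, cl p q (f s) = cl p q (f0 s) :=
  ⟨fun h s hs => by simpa [rep, hs] using congrFun h s,
    fun h => funext fun s => by by_cases hs : s ∈ L <;> simp [rep, hs, h s]⟩

theorem mem_zs {j : P} : j ∈ zs e ↔ e j = 0 := by simp [zs]

theorem mem_Ts {j : P} :
    j ∈ Ts N o E (zs e, f) ↔ j ∈ N ∧ e j = 0 ∧ j ≠ o ∧ ∀ s ∈ E, f s ≠ j := by simp [Ts, zs]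

theorem mem_Yo : (zs e, f) ∈ Yo N L o E ↔ All N L f ∧ e o = 0 ∧ ∀ s ∈ E, f s ≠ o := by
  simp [Yo, zs]

theorem cl_eq_q {r : P} : cl p q r = q ↔ r = p ∨ r = q := by
  unfold cl; split_ifs with h <;> simp [h]

theorem cl_pass {r r' j : P} (h : cl p q r = cl p q r') (h1 : j ≠ p) (h2 : j ≠ q) (h3 : r' = j) :
    r = j := by
  subst h3
  unfold cl at h
  rw [if_neg h1] at h
  split_ifs at h with h4
  · exact absurd h.symm h2
  · exact h

theorem Sim.symm (h : Sim p q L f0 e0 f e) : Sim p q L f e f0 e0 :=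
  ⟨fun s hs => (h.1 s hs).symm, h.2.symm⟩

theorem Sim.zero (h : Sim p q L f0 e0 f e) {j : P} (h1 : j ≠ p) (h2 : j ≠ q) (h3 : e0 j = 0) :
    e j = 0 := by
  have : j ∈ ((zs e0).erase p).erase q := by simp [mem_zs, h1, h2, h3]
  rw [← h.2] at this
  simpa [mem_zs, h1, h2] using this

theorem Sim.all (h : Sim p q L f0 e0 f e) (hp : p ∈ N) (hq : q ∈ N) (h0 : All N L f0) :
    All N L f := fun s hs => by
  by_cases h1 : f s = p
  · exact h1 ▸ hp
  by_cases h2 : f s = q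
  · exact h2 ▸ hq
  rw [← cl_pass (h.1 s hs).symm h1 h2 rfl]
  exact h0 s hs

theorem Sim.yo (h : Sim p q L f0 e0 f e) (hp : p ∈ N) (hq : q ∈ N) (hE : E ⊆ L) (h1 : o ≠ p)
    (h2 : o ≠ q) (h0 : (zs e0, f0) ∈ Yo N L o E) : (zs e, f) ∈ Yo N L o E := by
  rw [mem_Yo] at h0 ⊢
  exact ⟨h.all hp hq h0.1, h.zero h1 h2 h0.2.1,
    fun s hs h3 => h0.2.2 s hs (cl_pass (h.1 s (hE hs)).symm h1 h2 h3)⟩

/-- the passive part of `Ts` -/
def DD (N : Finset P) (p q o : P) (E : Finset Λ) (f : Λ → P) (e : P →₀ ℕ) : Finset P :=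
  ((Ts N o E (zs e, f)).erase p).erase q

theorem Sim.dd (h : Sim p q L f0 e0 f e) (hE : E ⊆ L) : DD N p q o E f e = DD N p q o E f0 e0 := by
  have key : ∀ {f0 f : Λ → P} {e0 e : P →₀ ℕ}, Sim p q L f0 e0 f e →
      DD N p q o E f0 e0 ⊆ DD N p q o E f e := fun h j hj => by
    simp only [DD, mem_erase, mem_Ts] at hj ⊢
    obtain ⟨a1, a2, a3, a4, a5, a6⟩ := hj
    exact ⟨a1, a2, a3, h.zero a2 a1 a4, a5,
      fun s hs h3 => a6 s hs (cl_pass (h.1 s (hE hs)).symm a2 a1 h3)⟩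
  exact Subset.antisymm (key h.symm) (key h)

theorem prod_two {M : Type} [CommMonoid M] (hpq : p ≠ q) (S : Finset P) (F : P → M) :
    ∏ j ∈ S, F j = (∏ j ∈ (S.erase p).erase q, F j) * (if p ∈ S then F p else 1) *
      (if q ∈ S then F q else 1) := by
  have h : ∀ (S : Finset P) (r : P), ∏ j ∈ S, F j =
      (∏ j ∈ S.erase r, F j) * (if r ∈ S then F r else 1) := fun S r => by
    split_ifs with h
    · exact (prod_erase_mul S F h).symm
    · rw [erase_eq_of_notMem h, mul_one]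
  rw [h S p, h (S.erase p) q, mul_right_comm]
  simp [hpq.symm]

theorem Sim.card (h : Sim p q L f0 e0 f e) (hpq : p ≠ q) (hE : E ⊆ L) (N : Finset P) (o : P) :
    (Ts N o E (zs e, f)).card = (DD N p q o E f0 e0).card +
      (if p ∈ Ts N o E (zs e, f) then 1 else 0) + (if q ∈ Ts N o E (zs e, f) then 1 else 0) := by
  have := prod_two hpq (Ts N o E (zs e, f)) fun _ => 2
  rw [← h.dd hE]
  refine Nat.pow_right_injective le_rfl ?_
  simp only [prod_const] at this
  simp only [this, pow_add, DD]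
  split_ifs <;> rfl

theorem Sim.phi (h : Sim p q L f0 e0 f e) (hpq : p ≠ q) (hE : E ⊆ L) (y : P → Y) (N : Finset P)
    (o : P) : phi y N o E (zs e, f) = (∏ j ∈ DD N p q o E f0 e0, (y o - y j)) *
      (if p ∈ Ts N o E (zs e, f) then y o - y p else 1) *
      (if q ∈ Ts N o E (zs e, f) then y o - y q else 1) := by
  rw [← h.dd hE]; exact prod_two hpq _ _

theorem coeff_X0 {r : P} (h : e r = 0) (g : MvPolynomial P Y) : coeff e (X r * g) = 0 := by
  rw [coeff_X_mul', if_neg (by simp [h])]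

theorem coeff_keep (c : (P →₀ ℕ) → Prop) [DecidablePred c] (g : MvPolynomial P Y) :
    coeff e (keep c g) = if c e then coeff e g else 0 := by
  simp only [keep, coeff_sum, coeff_monomial, sum_ite_eq', mem_filter, mem_support_iff]
  by_cases h : c e <;> by_cases h' : coeff e g = 0 <;> simp [h, h']

theorem coeff_sm (c : Y) (v : Am P Λ Y) :
    coeff e (((C c : MvPolynomial P Y) • v) f) = c * coeff e (v f) := by
  rw [Pi.smul_apply, smul_eq_mul, coeff_C_mul]

theorem coeff_split {n n1 n2 : Am P Λ Y} (h : n = (X p - X q : MvPolynomial P Y) • n1 +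
    (C (y p - y q) : MvPolynomial P Y) • n2) (he : e p = 0) :
    coeff e (n f) = (y p - y q) * coeff e (n2 f) - coeff e (X q * n1 f) := by
  rw [h, Pi.add_apply, coeff_add, coeff_sm, Pi.smul_apply, smul_eq_mul, sub_mul, coeff_sub,
    coeff_X0 he]
  ring

variable (Q : QApi Λ y p q)
include Q

theorem mul0 {v w : Am P Λ Y} (hv : v ∈ Qk y p q L 0) (hw : w ∈ Qk y p q L k) :
    v * w ∈ Qk y p q L k := by simpa using Q.mul L 0 k v w hv hw

theorem ind (c : (Λ → P) → Prop) [DecidablePred c]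
    (hc : ∀ f f', (∀ s ∈ L, cl p q (f s) = cl p q (f' s)) → c f → c f') {v : Am P Λ Y}
    (hv : v ∈ Qk y p q L k) : (fun f => if c f then v f else 0) ∈ Qk y p q L k := by
  have := mul0 Q (Q.cls L 0 (fun f => if c f then 1 else 0) (fun f f' h => by
    simp only [show c f ↔ c f' from ⟨hc f f' h, hc f' f fun s hs => (h s hs).symm⟩])
    fun f => by simp) hv
  convert this using 1
  funext f
  simp

theorem cut {v : Am P Λ Y} (hv : v ∈ Qk y p q L k) (f0 : Λ → P) (e0 : P →₀ ℕ) :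
    ∃ v' ∈ Qk y p q L k, ∀ f e, (Sim p q L f0 e0 f e → coeff e (v' f) = coeff e (v f)) ∧
      (¬ Sim p q L f0 e0 f e → coeff e (v' f) = 0) := by
  refine ⟨_, ind Q (fun f => ∀ s ∈ L, cl p q (f s) = cl p q (f0 s))
    (fun f f' h h' s hs => (h s hs).symm.trans (h' s hs))
    (Q.prj_mem L k v (((zs e0).erase p).erase q) hv), fun f e => ⟨fun h => ?_, fun h => ?_⟩⟩
  · simp only [if_pos h.1, prj, coeff_keep, if_pos h.2]
  · by_cases h1 : ∀ s ∈ L, cl p q (f s) = cl p q (f0 s)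
    · simp only [if_pos h1, prj, coeff_keep, if_neg fun h2 => h ⟨h1, h2⟩]
    · simp only [if_neg h1, coeff_zero]

theorem ldel {v : Am P Λ Y} (hv : v ∈ Qk y p q L 0)
    (h : ∀ f e, Sim p q L f0 e0 f e → e p = 0 → e q = 0 → coeff e (v f) = 0) :
    ∃ w ∈ Qk y p q L 0, ∀ f e, Sim p q L f0 e0 f e →
      (e p = 0 → coeff e (w f) = (y p - y q) * coeff e (v f)) ∧ (e q = 0 → coeff e (w f) = 0) := by
  obtain ⟨v', h1, h2⟩ := cut Q hv f0 e0
  obtain ⟨v1, a1, v2, -, a3⟩ := Q.lxx L 0 v' h1 fun f e hp hq => by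
    by_cases hs : Sim p q L f0 e0 f e
    · rw [(h2 f e).1 hs, h f e hs hp hq]
    · exact (h2 f e).2 hs
  refine ⟨-((X q : MvPolynomial P Y) • v1), neg_mem (Submodule.smul_mem _ _ a1),
    fun f e hs => ⟨fun hp => ?_, fun hq => ?_⟩⟩
  · rw [← (h2 f e).1 hs, ← coeff_sm, a3]
    simp only [Pi.neg_apply, Pi.add_apply, Pi.smul_apply, smul_eq_mul, sub_mul, mul_assoc, coeff_add,
      coeff_sub, coeff_neg, coeff_X0 hp, zero_sub, add_zero]
  · simp only [Pi.neg_apply, Pi.smul_apply, smul_eq_mul, coeff_neg, coeff_X0 hq, neg_zero]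

theorem divq {v : Am P Λ Y} (hv : v ∈ Qk y p q L 0)
    (h : ∀ f e, Sim p q L f0 e0 f e → e q = 0 → coeff e (v f) = 0) :
    ∃ w ∈ Qk y p q L 0, ∀ f e, Sim p q L f0 e0 f e → coeff e (v f) = coeff e (X q * w f) := by
  obtain ⟨v', h1, h2⟩ := cut Q hv f0 e0
  obtain ⟨w, a1, a2⟩ := Q.divx L 0 v' q h1 fun f e hq => by
    by_cases hs : Sim p q L f0 e0 f e
    · rw [(h2 f e).1 hs, h f e hs hq]
    · exact (h2 f e).2 hs
  exact ⟨w, a1, fun f e hs => by rw [← (h2 f e).1 hs, a2]; rfl⟩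

theorem cst1 (L : Finset Λ) {c : MvPolynomial P Y} (hc : c ∈ nn y p q) :
    (fun _ => c) ∈ Qk y p q L 1 := Q.cls L 1 _ (fun _ _ _ => rfl) fun _ => by simpa using hc

theorem es1 {n : Am P Λ Y} (hn : n ∈ Qk y p q L 1) {s : Λ} (hs : s ∈ L) (r : P) :
    (fun f => if f s = r then n f else 0) ∈ Qk y p q L 0 := by
  obtain ⟨n1, h1, n2, h2, rfl⟩ := Q.split L 0 n hn
  have := add_mem
    (mul0 Q (Q.es L 0 _ s r hs (cst1 Q _ (Ideal.subset_span (Set.mem_insert _ _)))) h1)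
    (mul0 Q (Q.es L 0 _ s r hs (cst1 Q _ (Ideal.subset_span (Set.mem_insert_of_mem _ rfl)))) h2)
  convert this using 1
  funext f
  by_cases h : f s = r <;> simp [h]

theorem hh (hp : p ∈ N) (hq : q ∈ N) (hE : E ⊆ L) (h1 : o ≠ p) (h2 : o ≠ q) {v : Am P Λ Y}
    (hv : v ∈ Qk y p q L 0) (h : ∀ f e, Sim p q L f0 e0 f e → p ∈ Ts N o E (zs e, f) →
      q ∈ Ts N o E (zs e, f) → coeff e (v f) = 0) :
    ∃ w ∈ Qk y p q L 0, ∀ f e, Sim p q L f0 e0 f e →
      (p ∈ Ts N o E (zs e, f) → coeff e (w f) = (y p - y q) * coeff e (v f)) ∧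
      (q ∈ Ts N o E (zs e, f) → coeff e (w f) = 0) := by
  by_cases hU : ∃ s ∈ E, cl p q (f0 s) = q
  · obtain ⟨s, hs, hU⟩ := hU
    refine ⟨_, es1 Q (mul0 Q hv (cst1 Q L (Ideal.subset_span (Set.mem_insert_of_mem _ rfl)))) (hE hs) q,
      fun f e h => ⟨fun a => ?_, fun a => ?_⟩⟩
    · have := (cl_eq_q.1 ((h.1 s (hE hs)).trans hU)).resolve_left ((mem_Ts.1 a).2.2.2 s hs)
      simp only [if_pos this, Pi.mul_apply]
      rw [mul_comm, coeff_C_mul]
    · simp only [if_neg ((mem_Ts.1 a).2.2.2 s hs), coeff_zero]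
  · have hf : ∀ f e, Sim p q L f0 e0 f e → ∀ s ∈ E, f s ≠ p ∧ f s ≠ q := fun f e h s hs =>
      not_or.1 fun a => hU ⟨s, hs, (h.1 s (hE hs)).symm.trans (cl_eq_q.2 a)⟩
    obtain ⟨w, a1, a2⟩ := ldel Q hv fun f e hs b1 b2 => h f e hs
      (mem_Ts.2 ⟨hp, b1, h1.symm, fun s a => (hf f e hs s a).1⟩)
      (mem_Ts.2 ⟨hq, b2, h2.symm, fun s a => (hf f e hs s a).2⟩)
    exact ⟨w, a1, fun f e hs => ⟨fun a => (a2 f e hs).1 (mem_Ts.1 a).2.1,
      fun a => (a2 f e hs).2 (mem_Ts.1 a).2.1⟩⟩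

theorem glue2 (R : (Λ → P) → (P →₀ ℕ) → Y → Y → Prop)
    (h : ∀ f0 e0, ∃ d1 ∈ Qk y p q L 0, ∃ d2 ∈ Qk y p q L 0, ∀ f e, Sim p q L f0 e0 f e →
      R f e (coeff e (X q * d1 f)) (coeff e (d2 f))) :
    ∃ d1 ∈ Qk y p q L 0, ∃ d2 ∈ Qk y p q L 0, ∀ f e,
      R f e (coeff e (X q * d1 f)) (coeff e (d2 f)) := by
  have : ∀ (f1 : Λ → P) (T : Finset P), ∃ d1 ∈ Qk y p q L 0, ∃ d2 ∈ Qk y p q L 0, ∀ f e,
      rep p q L f = f1 → ((zs e).erase p).erase q = T →
      R f e (coeff e (X q * d1 f)) (coeff e (d2 f)) := fun f1 T => by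
    by_cases hx : ∃ f0 e0, rep p q L f0 = f1 ∧ ((zs e0).erase p).erase q = T
    · obtain ⟨f0, e0, rfl, rfl⟩ := hx
      obtain ⟨d1, a1, d2, a2, a3⟩ := h f0 e0
      exact ⟨d1, a1, d2, a2, fun f e b1 b2 => a3 f e ⟨rep_iff.1 b1, b2⟩⟩
    · exact ⟨0, zero_mem _, 0, zero_mem _, fun f e b1 b2 => (hx ⟨f, e, b1, b2⟩).elim⟩
  choose g1 a1 g2 a2 a3 using this
  obtain ⟨d1, b1, b2⟩ := Q.glue L 0 g1 a1
  obtain ⟨d2, b3, b4⟩ := Q.glue L 0 g2 a2
  refine ⟨d1, b1, d2, b3, fun f e => ?_⟩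
  have e1 : ((zs (e - Finsupp.single q 1)).erase p).erase q = ((zs e).erase p).erase q := by
    ext j
    simp only [mem_erase, mem_zs, Finsupp.tsub_apply]
    exact and_congr_right fun hj => by rw [Finsupp.single_eq_of_ne hj, tsub_zero]
  have := a3 _ _ f e rfl rfl
  rwa [coeff_X_mul', ← b4, ← e1, ← b2, ← coeff_X_mul'] at this

theorem glue1 (R : (Λ → P) → (P →₀ ℕ) → Y → Prop)
    (h : ∀ f0 e0, ∃ d ∈ Qk y p q L 0, ∀ f e, Sim p q L f0 e0 f e → R f e (coeff e (d f))) :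
    ∃ d ∈ Qk y p q L 0, ∀ f e, R f e (coeff e (d f)) := by
  obtain ⟨-, -, d, h1, h2⟩ := glue2 Q (L := L) (fun f e _ b => R f e b) fun f0 e0 => by
    obtain ⟨d, h1, h2⟩ := h f0 e0
    exact ⟨0, zero_mem _, d, h1, h2⟩
  exact ⟨d, h1, h2⟩

omit Q

/-- the points paired with `o` in the multiplier -/
def SS (N : Finset P) (p q o : P) : Finset P := N.filter fun j => j ≠ o ∧ ¬(o = p ∧ j = q)

theorem gg_mem (ho : o ∈ N) (h2 : o ≠ q) : ∏ j ∈ SS N p q o, (y o - y j) ∈ Mult y N p q :=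
  prod_mem fun j hj => by
    simp only [SS, mem_filter] at hj
    exact Submonoid.subset_closure ⟨o, ho, j, hj.1, hj.2.1.symm, hj.2.2, fun h => h2 h.1, rfl⟩

theorem dd_sub : DD N p q o E f e ⊆ ((SS N p q o).erase p).erase q := fun j hj => by
  simp only [DD, SS, mem_erase, mem_Ts, mem_filter] at hj ⊢
  exact ⟨hj.1, hj.2.1, hj.2.2.1, hj.2.2.2.2.1, fun h => hj.1 h.2⟩

theorem gg_dvd (y : P → Y) (f : Λ → P) (e : P →₀ ℕ) : ∃ K, ∏ j ∈ SS N p q o, (y o - y j) =
    (∏ j ∈ DD N p q o E f e, (y o - y j)) * K :=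
  prod_dvd_prod_of_subset _ _ _ (dd_sub.trans ((erase_subset _ _).trans (erase_subset _ _)))

theorem gg_dvd2 (hpq : p ≠ q) (hp : p ∈ N) (hq : q ∈ N) (h1 : o ≠ p) (h2 : o ≠ q) (y : P → Y)
    (f : Λ → P) (e : P →₀ ℕ) : ∃ K, ∏ j ∈ SS N p q o, (y o - y j) =
    (∏ j ∈ DD N p q o E f e, (y o - y j)) * K * (y o - y p) * (y o - y q) := by
  obtain ⟨K, hK⟩ := prod_dvd_prod_of_subset _ _ (fun j => y o - y j)
    (dd_sub (N := N) (p := p) (q := q) (o := o) (E := E) (f := f) (e := e))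
  exact ⟨K, by rw [prod_two hpq, hK, if_pos (by simp [SS, hp, h1, h1.symm]),
    if_pos (by simp [SS, hq, h1, h2.symm])]⟩

end PL123Aux

open PL123Aux

theorem l2 : S_L2 := by
  intro P Λ Y _ _ _ _ _ _ y N p q _ hpq hp hq Q L E o c _ h2 hE g hg hv
  replace hg := Q.rr L g hg
  obtain ⟨w, a1, a2⟩ := glue1 Q (L := L) (fun f e a => (zs e, f) ∈ Yo N L o E →
      (c + 1 ≤ (Ts N o E (zs e, f)).card → a = 0) ∧ ((Ts N o E (zs e, f)).card = c →
        a = phi y N o E (zs e, f) * coeff e (g f))) fun f0 e0 => by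
    by_cases hA : All N L f0
    swap
    · exact ⟨0, zero_mem _, fun f e hs hY => (hA (hs.symm.all hp hq hY.1)).elim⟩
    by_cases hc : o ≠ p ∧ c = (DD N p q o E f0 e0).card + 1
    · obtain ⟨h, b1, b2⟩ := hh Q (f0 := f0) (e0 := e0) hp hq hE hc.1 h2 hg fun f e hs c1 c2 =>
        hv f e ⟨hs.all hp hq hA, by rw [hs.card hpq hE, if_pos c1, if_pos c2, hc.2]⟩
      refine ⟨(C (∏ j ∈ DD N p q o E f0 e0, (y o - y j)) : MvPolynomial P Y) •
        ((C (y o - y q) : MvPolynomial P Y) • g - h),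
        Submodule.smul_mem _ _ (sub_mem (Submodule.smul_mem _ _ hg) b1), fun f e hs hY => ?_⟩
      have c1 := hs.card hpq hE N o
      rw [coeff_sm, Pi.sub_apply, coeff_sub, coeff_sm, hs.phi hpq hE]
      refine ⟨fun c2 => ?_, fun c2 => ?_⟩
      · rw [hv f e ⟨hY.1, c2⟩, (b2 f e hs).2 (by by_contra c3; split_ifs at c1 <;> omega)]
        simp
      · split_ifs at c1 ⊢ with c3 c4 c4
        · omega
        · rw [(b2 f e hs).1 c3]; ring
        · rw [(b2 f e hs).2 c4]; ring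
        · omega
    · refine ⟨(C ((∏ j ∈ DD N p q o E f0 e0, (y o - y j)) * if c = (DD N p q o E f0 e0).card then 1
        else if o = p then y o - y q else (y o - y p) * (y o - y q)) : MvPolynomial P Y) • g,
        Submodule.smul_mem _ _ hg, fun f e hs hY => ?_⟩
      have c1 := hs.card hpq hE N o
      rw [coeff_sm, hs.phi hpq hE]
      refine ⟨fun c2 => by rw [hv f e ⟨hY.1, c2⟩, mul_zero], fun c2 => ?_⟩
      have c3 : o = p → p ∉ Ts N o E (zs e, f) := fun h a => (mem_Ts.1 a).2.2.1 h.symm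
      rw [not_and_or, not_not] at hc
      congr 1
      split_ifs at c1 ⊢ <;> first
        | ring1 | omega | tauto | exact absurd (by omega) (hc.resolve_left ‹_›)
  obtain ⟨G, b1, u, b2, b3⟩ := Q.clear N L w hp hq a1
  refine ⟨G, b1, u, b2, fun f e h => ?_, fun f e h h' => ?_⟩
  · rw [← b3 f h.1.1, coeff_C_mul, (a2 f e h.1).1 h.2.2, mul_zero]
  · rw [← b3 f h.1, coeff_C_mul, (a2 f e h).2 h']

theorem l1 : S_L1 := by
  intro P Λ Y _ _ _ _ _ _ y N p q hy hpq hp hq Q L E t o c ho h2 hE ht v hv v1 v2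
  replace hv := Q.rr _ v hv
  have htE : t ∉ E := fun h => ht (hE h)
  have up : ∀ (f : Λ → P) r, ∀ s ∈ L, Function.update f t r s = f s := fun f r s hs =>
    Function.update_of_ne (fun h : s = t => ht (h ▸ hs)) _ _
  have yo : ∀ {f : Λ → P} {e : P →₀ ℕ} (r), r ∈ N → (zs e, f) ∈ Yo N L o E →
      (zs e, Function.update f t r) ∈ Yo N (insert t L) o E := fun {f e} r hr h => by
    rw [mem_Yo] at h ⊢
    refine ⟨fun s hs => ?_, h.2.1, fun s hs => by rw [up f r s (hE hs)]; exact h.2.2 s hs⟩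
    rcases mem_insert.1 hs with rfl | hs
    · simpa using hr
    · rw [up f r s hs]; exact h.1 s hs
  have w0 := Q.sub _ _ v t o hv
  rw [erase_insert ht] at w0
  set w : Am P Λ Y := fun f => v (Function.update f t o) with hw
  have w1 : ∀ f e, (zs e, f) ∈ Yo N L o E → c + 1 ≤ (Ts N o E (zs e, f)).card →
      coeff e (w f) = 0 := fun f e h h' => by
    have := yo o ho h
    refine v2 _ e ⟨⟨this, Function.update_self _ _ _⟩, this.1, h'.trans_eq ?_⟩
    congr 1
    ext j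
    simp only [mem_Ts]
    exact and_congr_right fun _ => and_congr_right fun _ => and_congr_right fun _ =>
      forall₂_congr fun s hs => by rw [up f o s (hE hs)]
  obtain ⟨g, a1, a2⟩ := glue1 Q (L := L) (fun f e a => All N L f →
      (c + 1 ≤ (Ts N o E (zs e, f)).card → a = 0) ∧ ((zs e, f) ∈ Yo N L o E →
        (Ts N o E (zs e, f)).card = c → (∏ j ∈ SS N p q o, (y o - y j)) * coeff e (w f) =
          phi y N o E (zs e, f) * a)) fun f0 e0 => by
    by_cases hA : All N L f0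
    swap
    · exact ⟨0, zero_mem _, fun f e hs hY => (hA (hs.symm.all hp hq hY)).elim⟩
    by_cases h1 : o = p
    · subst h1
      obtain ⟨K, hK⟩ := gg_dvd (N := N) (p := o) (q := q) (o := o) (E := E) y f0 e0
      have n0 := Q.dq _ _ v t (mem_insert_self t L) hv
      rw [erase_insert ht] at n0
      obtain ⟨n1, b1, n2, b2, b3⟩ := Q.split L 0 _ n0
      have wn : ∀ f e, (zs e, f) ∈ Yo N L o E → coeff e (w f) = coeff e (Dq o q t v f) :=
        fun f e h => by
          have := yo q hq h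
          rw [Dq, coeff_sub, v1 _ e ⟨this.1, this.2.1, fun s hs => ?_⟩, sub_zero]
          rcases mem_insert.1 hs with rfl | hs
          · simpa using h2.symm
          · exact this.2.2 s hs
      have c0 : ∀ f e, o ∉ Ts N o E (zs e, f) := fun f e a => (mem_Ts.1 a).2.2.1 rfl
      by_cases hc : c = (DD N o q o E f0 e0).card
      · by_cases hU : ∃ s ∈ E, cl o q (f0 s) = q
        · obtain ⟨s, hs, hU⟩ := hU
          refine ⟨(C K : MvPolynomial P Y) • _, Submodule.smul_mem _ _ (es1 Q n0 (hE hs) q),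
            fun f e h _ => ?_⟩
          have c1 := h.card hpq hE N o
          rw [if_neg (c0 f e)] at c1
          rw [coeff_sm, h.phi hpq hE, if_neg (c0 f e)]
          refine ⟨fun c2 => ?_, fun hY c2 => ?_⟩
          · have c3 : q ∈ Ts N o E (zs e, f) := by by_contra c3; rw [if_neg c3] at c1; omega
            simp only [if_neg ((mem_Ts.1 c3).2.2.2 s hs), coeff_zero, mul_zero]
          · have c3 : q ∉ Ts N o E (zs e, f) := fun c3 => by rw [if_pos c3] at c1; omega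
            have := (cl_eq_q.1 ((h.1 s (hE hs)).trans hU)).resolve_left ((mem_Yo.1 hY).2.2 s hs)
            simp only [if_pos this, if_neg c3, hK, wn f e hY]
            ring
        · have hf : ∀ f e, Sim o q L f0 e0 f e → ∀ s ∈ E, f s ≠ o ∧ f s ≠ q := fun f e h s hs =>
            not_or.1 fun a => hU ⟨s, hs, (h.1 s (hE hs)).symm.trans (cl_eq_q.2 a)⟩
          obtain ⟨h, d1, d2⟩ := ldel Q (f0 := f0) (e0 := e0) b2 fun f e hs e1 e2 => by
            have hY := mem_Yo.2 ⟨hs.all hp hq hA, e1, fun s a => (hf f e hs s a).1⟩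
            have := w1 f e hY (by
              rw [hs.card hpq hE, if_neg (c0 f e),
                if_pos (mem_Ts.2 ⟨hq, e2, h2.symm, fun s a => (hf f e hs s a).2⟩), hc])
            rw [wn f e hY, coeff_split b3 e1, coeff_X0 e2, sub_zero] at this
            exact (mul_eq_zero.1 this).resolve_left (sub_ne_zero.2 fun a => hpq (hy a))
          refine ⟨(C K : MvPolynomial P Y) • (h - (X q : MvPolynomial P Y) • n1),
            Submodule.smul_mem _ _ (sub_mem d1 (Submodule.smul_mem _ _ b1)), fun f e hs _ => ?_⟩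
          have c1 := hs.card hpq hE N o
          rw [if_neg (c0 f e)] at c1
          rw [coeff_sm, hs.phi hpq hE, if_neg (c0 f e), Pi.sub_apply, coeff_sub, Pi.smul_apply,
            smul_eq_mul]
          refine ⟨fun c2 => ?_, fun hY c2 => ?_⟩
          · have c3 : q ∈ Ts N o E (zs e, f) := by by_contra c3; rw [if_neg c3] at c1; omega
            rw [(d2 f e hs).2 (mem_Ts.1 c3).2.1, coeff_X0 (mem_Ts.1 c3).2.1]
            simp
          · have c3 : q ∉ Ts N o E (zs e, f) := fun c3 => by rw [if_pos c3] at c1; omega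
            rw [if_neg c3, hK, wn f e hY, coeff_split b3 (mem_Yo.1 hY).2.1,
              (d2 f e hs).1 (mem_Yo.1 hY).2.1]
            ring
      · by_cases hc' : c = (DD N o q o E f0 e0).card + 1
        · refine ⟨(C K : MvPolynomial P Y) • n2, Submodule.smul_mem _ _ b2, fun f e hs _ => ?_⟩
          have c1 := hs.card hpq hE N o
          rw [if_neg (c0 f e)] at c1
          rw [coeff_sm, hs.phi hpq hE, if_neg (c0 f e)]
          refine ⟨fun c2 => by split_ifs at c1 <;> omega, fun hY c2 => ?_⟩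
          have c3 : q ∈ Ts N o E (zs e, f) := by by_contra c3; rw [if_neg c3] at c1; omega
          rw [if_pos c3, hK, wn f e hY, coeff_split b3 (mem_Yo.1 hY).2.1, coeff_X0 (mem_Ts.1 c3).2.1]
          ring
        · refine ⟨0, zero_mem _, fun f e hs _ => ⟨fun _ => rfl, fun _ c2 => ?_⟩⟩
          have c1 := hs.card hpq hE N o
          rw [if_neg (c0 f e)] at c1
          split_ifs at c1 <;> omega
    by_cases hY : (zs e0, f0) ∈ Yo N L o E
    swap
    · exact ⟨0, zero_mem _, fun f e hs _ => ⟨fun _ => rfl,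
        fun h => (hY (hs.symm.yo hp hq hE h1 h2 h)).elim⟩⟩
    obtain ⟨K, hK⟩ := gg_dvd2 (E := E) hpq hp hq h1 h2 y f0 e0
    by_cases hc : c = (DD N p q o E f0 e0).card + 1
    · obtain ⟨h, b1, b2⟩ := hh Q (f0 := f0) (e0 := e0) hp hq hE h1 h2 w0 fun f e hs c1 c2 =>
        w1 f e (hs.yo hp hq hE h1 h2 hY) (by rw [hs.card hpq hE, if_pos c1, if_pos c2, hc])
      refine ⟨(C K : MvPolynomial P Y) • ((C (y o - y p) : MvPolynomial P Y) • w + h),
        Submodule.smul_mem _ _ (add_mem (Submodule.smul_mem _ _ w0) b1), fun f e hs _ => ?_⟩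
      have c1 := hs.card hpq hE N o
      rw [coeff_sm, Pi.add_apply, coeff_add, coeff_sm, hs.phi hpq hE, hK]
      refine ⟨fun c2 => ?_, fun _ c2 => ?_⟩
      · rw [w1 f e (hs.yo hp hq hE h1 h2 hY) c2,
          (b2 f e hs).2 (by by_contra c3; split_ifs at c1 <;> omega)]
        simp
      · split_ifs at c1 ⊢ with c3 c4 c4
        · omega
        · rw [(b2 f e hs).1 c3]; ring
        · rw [(b2 f e hs).2 c4]; ring
        · omega
    · refine ⟨(C (K * if c = (DD N p q o E f0 e0).card then (y o - y p) * (y o - y q) else 1) :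
        MvPolynomial P Y) • w, Submodule.smul_mem _ _ w0, fun f e hs _ => ?_⟩
      have c1 := hs.card hpq hE N o
      rw [coeff_sm, hs.phi hpq hE, hK]
      refine ⟨fun c2 => by rw [w1 f e (hs.yo hp hq hE h1 h2 hY) c2, mul_zero], fun _ c2 => ?_⟩
      split_ifs at c1 ⊢ <;> first | ring1 | omega
  obtain ⟨G, b1, u, b2, b3⟩ := Q.clear N L g hp hq a1
  refine ⟨G * _, mul_mem b1 (gg_mem ho h2), u, b2, fun f e h => ?_, fun f e h h' h'' => ?_⟩
  · rw [← b3 f h.1, coeff_C_mul, (a2 f e h.1).1 h.2, mul_zero]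
  · have hA : All N L f := fun s hs => h.1 s (mem_insert_of_mem hs)
    have := (a2 f e hA).2 ⟨hA, h.2⟩ h''
    rw [hw, ← h'] at this
    simp only [Function.update_eq_self] at this
    rw [← b3 f hA, coeff_C_mul, mul_assoc, ← h', this]
    ring

theorem l3 : S_L3 := by
  intro P Λ Y _ _ _ _ _ _ y N p q _ hpq hp hq Q L0 E t o c ho h2 hE0 _ g hg g0 w hw w1 w2
  have sub : L0 ⊆ insert t L0 := subset_insert t L0
  have ht := mem_insert_self t L0
  generalize insert t L0 = L at sub ht ⊢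
  have hE := hE0.trans sub
  replace hg := Q.mono _ _ _ _ sub le_rfl (Q.rr _ g hg)
  replace hw := Q.mono _ _ _ _ sub le_rfl (Q.rr _ w hw)
  have al : ∀ {f : Λ → P}, All N L f → All N L0 f := fun h s hs => h s (sub hs)
  replace g0 : ∀ f e, All N L f → c + 1 ≤ (Ts N o E (zs e, f)).card → coeff e (g f) = 0 :=
    fun f e h h' => g0 f e ⟨al h, h'⟩
  replace w1 : ∀ f e, (zs e, f) ∈ Yo N L o E → c + 1 ≤ (Ts N o E (zs e, f)).card →
      coeff e (w f) = 0 := fun f e h h' => w1 f e ⟨⟨al h.1, h.2⟩, al h.1, h'⟩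
  replace w2 : ∀ f e, (zs e, f) ∈ Yo N L o E → (Ts N o E (zs e, f)).card = c →
      coeff e (w f) = phi y N o E (zs e, f) * coeff e (g f) := fun f e h => w2 f e ⟨al h.1, h.2⟩
  obtain ⟨G, hG⟩ : ∃ G, G = ∏ j ∈ SS N p q o, (y o - y j) := ⟨_, rfl⟩
  obtain ⟨d1, a1, d2, a2, a3⟩ := glue2 Q (L := L) (fun f e a b => (zs e, f) ∈ Yo N L o E →
      f t ≠ o → c ≤ (Ts N o E (zs e, f)).card → G * coeff e (w f) =
        (if f t = q ∧ o = p then a else 0) + (y (f t) - y o) * b) fun f0 e0 => by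
    by_cases hA : All N L f0
    swap
    · exact ⟨0, zero_mem _, 0, zero_mem _, fun f e hs hY => (hA (hs.symm.all hp hq hY.1)).elim⟩
    by_cases hr : cl p q (f0 t) = q
    swap
    · obtain ⟨r1, r2⟩ := not_or.1 (cl_eq_q.not.1 hr)
      have hf : ∀ f e, Sim p q L f0 e0 f e → f t = f0 t := fun f e hs =>
        cl_pass (hs.1 t ht) r1 r2 rfl
      by_cases r3 : f0 t = o
      · exact ⟨0, zero_mem _, 0, zero_mem _, fun f e hs _ h => (h ((hf f e hs).trans r3)).elim⟩
      obtain ⟨K, hK⟩ := dvd_prod_of_mem (fun j => y o - y j)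
        (show f0 t ∈ SS N p q o from mem_filter.2 ⟨hA t ht, r3, fun h => r2 h.2⟩)
      refine ⟨0, zero_mem _, (C (-K) : MvPolynomial P Y) • w, Submodule.smul_mem _ _ hw,
        fun f e hs _ _ _ => ?_⟩
      rw [hf f e hs, if_neg fun h => r2 h.1, coeff_sm, hG, hK]
      ring
    by_cases h1 : o = p
    swap
    · obtain ⟨K, hK⟩ := gg_dvd2 (E := E) hpq hp hq h1 h2 y f0 e0
      have b1 : bv y t ∈ Qk y p q L 0 :=
        Q.rr _ _ (Algebra.subset_adjoin (Or.inr ⟨t, ht, rfl⟩))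
      refine ⟨0, zero_mem _, (C ((∏ j ∈ DD N p q o E f0 e0, (y o - y j)) * K) : MvPolynomial P Y) •
        ((C (y p + y q - y o) : MvPolynomial P Y) • w - bv y t * w), Submodule.smul_mem _ _
        (sub_mem (Submodule.smul_mem _ _ hw) (mul0 Q b1 hw)), fun f e hs _ _ _ => ?_⟩
      rw [if_neg fun h => h1 h.2, coeff_sm, Pi.sub_apply, coeff_sub, coeff_sm, Pi.mul_apply, bv,
        coeff_C_mul, hG, hK]
      rcases cl_eq_q.1 ((hs.1 t ht).trans hr) with h | h <;> rw [h] <;> ring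
    subst h1
    have c0 : ∀ f e, o ∉ Ts N o E (zs e, f) := fun f e a => (mem_Ts.1 a).2.2.1 rfl
    have hf : ∀ f e, Sim o q L f0 e0 f e → f t ≠ o → f t = q := fun f e hs h =>
      (cl_eq_q.1 ((hs.1 t ht).trans hr)).resolve_left h
    by_cases hc : c = (DD N o q o E f0 e0).card
    · let E' := E.filter fun s => cl o q (f0 s) = q
      have b1 := Q.mono _ _ _ _ sdiff_subset le_rfl (Q.msub L E' 0 g o hg)
      obtain ⟨n1, b2, n2, b3, b4⟩ :=
        Q.split L 0 _ (Q.mono _ _ _ _ sdiff_subset le_rfl (Q.mdq L E' 0 g hg))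
      obtain ⟨g', b5, b6⟩ := divq Q (f0 := f0) (e0 := e0) b1 fun f e hs e1 => by
        have hs' : Sim o q L f0 e0 (mv E' o f) e := ⟨fun s a => by
          unfold mv
          split_ifs with h
          · rw [(mem_filter.1 h).2, cl_eq_q.2 (Or.inl rfl)]
          · exact hs.1 s a, hs.2⟩
        refine g0 _ e (hs'.all hp hq hA) ?_
        rw [hs'.card hpq hE, if_neg (c0 _ e), if_pos (mem_Ts.2 ⟨hq, e1, h2.symm, fun s a => ?_⟩), hc]
        unfold mv
        split_ifs with h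
        · exact hpq
        · exact fun b => h (mem_filter.2 ⟨a, (hs.1 s (hE a)).symm.trans (cl_eq_q.2 (Or.inr b))⟩)
      refine ⟨(C (G * ∏ j ∈ DD N o q o E f0 e0, (y o - y j)) : MvPolynomial P Y) • (g' + n1),
        Submodule.smul_mem _ _ (add_mem b5 b2),
        (C (G * ∏ j ∈ DD N o q o E f0 e0, (y o - y j)) : MvPolynomial P Y) • n2,
        Submodule.smul_mem _ _ b3, fun f e hs hY h _ => ?_⟩
      have c1 := hs.card hpq hE N o
      rw [if_neg (c0 f e)] at c1
      have c2 : coeff e (w f) = (∏ j ∈ DD N o q o E f0 e0, (y o - y j)) * coeff e (g f) := by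
        split_ifs at c1 with c3
        · rw [w1 f e hY (by omega), g0 f e hY.1 (by omega), mul_zero]
        · rw [w2 f e hY (by omega), hs.phi hpq hE, if_neg (c0 f e), if_neg c3, mul_one, mul_one]
      have c3 : mv E' q f = f := funext fun s => by
        unfold mv
        split_ifs with a
        · obtain ⟨a, a'⟩ := mem_filter.1 a
          exact ((cl_eq_q.1 ((hs.1 s (hE a)).trans a')).resolve_left ((mem_Yo.1 hY).2.2 s a)).symm
        · rfl
      have c4 := coeff_split (f := f) b4 (mem_Yo.1 hY).2.1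
      simp only [c3, coeff_sub, b6 f e hs] at c4
      rw [if_pos ⟨hf f e hs h, rfl⟩, hf f e hs h, coeff_sm, Pi.smul_apply, smul_eq_mul,
        mul_left_comm (X q), coeff_C_mul, Pi.add_apply, mul_add, coeff_add, c2]
      linear_combination (-(G * ∏ j ∈ DD N o q o E f0 e0, (y o - y j))) * c4
    by_cases hc' : c = (DD N o q o E f0 e0).card + 1
    · refine ⟨0, zero_mem _,
        (C (-(G * ∏ j ∈ DD N o q o E f0 e0, (y o - y j))) : MvPolynomial P Y) • g,
        Submodule.smul_mem _ _ hg, fun f e hs hY h c2 => ?_⟩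
      have c1 := hs.card hpq hE N o
      rw [if_neg (c0 f e)] at c1
      have c3 : q ∈ Ts N o E (zs e, f) := by by_contra c3; rw [if_neg c3] at c1; omega
      rw [if_pos c3] at c1
      rw [w2 f e hY (by omega), hs.phi hpq hE, if_neg (c0 f e), if_pos c3, hf f e hs h, coeff_sm]
      simp only [Pi.zero_apply, mul_zero, coeff_zero, ite_self]
      ring
    · refine ⟨0, zero_mem _, 0, zero_mem _, fun f e hs hY h c2 => ?_⟩
      have c1 := hs.card hpq hE N o
      rw [if_neg (c0 f e)] at c1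
      rw [w1 f e hY (by split_ifs at c1 <;> omega)]
      simp
  obtain ⟨G1, b1, u1, b2, b3⟩ := Q.clear N L _ hp hq (ind Q (fun f => cl p q (f t) = q ∧ o = p)
    (fun f f' h h' => ⟨(h t ht).symm.trans h'.1, h'.2⟩) a1)
  obtain ⟨G2, b4, u2, b5, b6⟩ := Q.clear N L _ hp hq a2
  refine ⟨G1 * G2 * G, mul_mem (mul_mem b1 b4) (hG ▸ gg_mem ho h2), (C G2 : MvPolynomial P Y) • u1,
    Subalgebra.smul_mem _ b2 _, (C G1 : MvPolynomial P Y) • u2, Subalgebra.smul_mem _ b5 _,
    fun f e h => ?_⟩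
  obtain ⟨⟨hA, e1, e2⟩, -, e3⟩ := h
  have e4 := e2 t (mem_insert_self t E)
  have e5 := a3 f e ⟨hA, e1, fun s hs => e2 s (mem_insert_of_mem hs)⟩ e4 e3
  have e6 : coeff e (X (f t) * if cl p q (f t) = q ∧ o = p then d1 f else 0) =
      if f t = q ∧ o = p then coeff e (X q * d1 f) else 0 := by
    by_cases h : f t = q ∧ o = p
    · rw [if_pos h, if_pos ⟨cl_eq_q.2 (Or.inr h.1), h.2⟩, h.1]
    · rw [if_neg h, if_neg fun a => h ⟨(cl_eq_q.1 a.1).resolve_left (a.2 ▸ e4), a.2⟩]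
      simp
  simp only [Pi.sub_apply, Pi.mul_apply, Pi.smul_apply, smul_eq_mul, av, bt, ← b3 f hA, ← b6 f hA,
    mul_left_comm (X (f t) : MvPolynomial P Y), coeff_sub, coeff_C_mul, e6]
  linear_combination G1 * G2 * e5

end Pool.Agent.P.MP_c2aaf5_co
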