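import Pool.Agent.P.MP_c2aaf5_co.DefP

/-! Local polygraph package P5: the statement `L4`. -/

set_option linter.unusedSectionVars false

namespace Pool.Agent.P.MP_c2aaf5_co

open MvPolynomial Finset

noncomputable section

namespace PL4Aux

variable {P Λ Y : Type} [Fintype P] [DecidableEq P] [Fintype Λ] [DecidableEq Λ] [CommRing Y]

theorem coeff_keep (c : (P →₀ ℕ) → Prop) [DecidablePred c] (g : MvPolynomial P Y) (e : P →₀ ℕ) :
    coeff e (keep c g) = if c e then coeff e g else 0 := by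
  rw [keep, coeff_sum]
  simp only [coeff_monomial]
  rw [Finset.sum_ite_eq' (g.support.filter c) e]
  by_cases h : c e <;> by_cases h' : coeff e g = 0 <;> simp [h, h']

theorem coeff_X_mul_zero {e : P →₀ ℕ} {r : P} (h : e r = 0) (g : MvPolynomial P Y) :
    coeff e (X r * g) = 0 := by
  rw [coeff_X_mul', if_neg (by simpa using h)]

theorem decomp0 (y : P → Y) (L : Finset Λ) (t : Λ) (v : Am P Λ Y) (hv : v ∈ RR y (insert t L)) :
    ∃ (Φ : Polynomial (RR y L)) (w : Am P Λ Y),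
      v = Polynomial.aeval (bv y t) Φ + av Y t * w := by
  induction hv using Algebra.adjoin_induction with
  | mem x hx =>
    rcases hx with ⟨s, hs, rfl⟩ | ⟨s, hs, rfl⟩
    · rcases mem_insert.1 (mem_coe.1 hs) with rfl | hs
      · exact ⟨0, 1, by simp⟩
      · exact ⟨Polynomial.C ⟨av Y s, Algebra.subset_adjoin (Or.inl ⟨s, hs, rfl⟩)⟩, 0, by
          rw [Polynomial.aeval_C, mul_zero, add_zero]; rfl⟩
    · rcases mem_insert.1 (mem_coe.1 hs) with rfl | hs
      · exact ⟨Polynomial.X, 0, by simp⟩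
      · exact ⟨Polynomial.C ⟨bv y s, Algebra.subset_adjoin (Or.inr ⟨s, hs, rfl⟩)⟩, 0, by
          rw [Polynomial.aeval_C, mul_zero, add_zero]; rfl⟩
  | algebraMap r =>
    exact ⟨Polynomial.C ⟨_, (RR y L).algebraMap_mem r⟩, 0, by
      rw [Polynomial.aeval_C, mul_zero, add_zero]; rfl⟩
  | add x x' _ _ h h' =>
    obtain ⟨Φ, w, rfl⟩ := h
    obtain ⟨Φ', w', rfl⟩ := h'
    exact ⟨Φ + Φ', w + w', by rw [map_add]; ring⟩
  | mul x x' _ _ h h' =>
    obtain ⟨Φ, w, rfl⟩ := h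
    obtain ⟨Φ', w', rfl⟩ := h'
    exact ⟨Φ * Φ', w * Polynomial.aeval (bv y t) Φ' + Polynomial.aeval (bv y t) Φ * w' +
      av Y t * w * w', by rw [map_mul]; ring⟩

theorem decomp (y : P → Y) (L : Finset Λ) (t : Λ) (v : Am P Λ Y) (hv : v ∈ RR y (insert t L)) :
    ∃ (n : ℕ) (c : ℕ → Am P Λ Y), (∀ i, c i ∈ RR y L) ∧ ∀ f (e : P →₀ ℕ), e (f t) = 0 →
      coeff e (v f) = ∑ i ∈ range n, coeff e (c i f) * y (f t) ^ i := by
  obtain ⟨Φ, w, rfl⟩ := decomp0 y L t v hv
  refine ⟨Φ.natDegree + 1, fun i => Φ.coeff i, fun i => (Φ.coeff i).2, fun f e he => ?_⟩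
  rw [Pi.add_apply, coeff_add, Pi.mul_apply, av, coeff_X_mul_zero he, add_zero,
    Polynomial.aeval_eq_sum_range, Finset.sum_apply, coeff_sum]
  refine sum_congr rfl fun i _ => ?_
  have : (Φ.coeff i • bv y t ^ i) f = C (y (f t) ^ i) * (Φ.coeff i : Am P Λ Y) f := by
    rw [Algebra.smul_def, Pi.mul_apply, Pi.pow_apply, bv, map_pow, mul_comm]
    rfl
  rw [this, coeff_C_mul, mul_comm]

/-- coefficients of the remainders of the powers of the variable -/
def rr (y : P → Y) (D : Finset P) (i i' : ℕ) : Y :=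
  ((Polynomial.X ^ i' : Polynomial Y) %ₘ Lagrange.nodal D y).coeff i

theorem rr_sum (y : P → Y) (D : Finset P) (n : ℕ) (c : ℕ → Y) (i : ℕ) :
    ∑ i' ∈ range n, rr y D i i' * c i' =
      ((∑ i' ∈ range n, c i' • Polynomial.X ^ i' : Polynomial Y) %ₘ Lagrange.nodal D y).coeff i := by
  have := map_sum (Polynomial.modByMonicHom (Lagrange.nodal D y))
    (fun i' => (c i' • Polynomial.X ^ i' : Polynomial Y)) (range n)
  simp only [Polynomial.modByMonicHom_apply] at this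
  rw [this, Polynomial.finsetSum_coeff]
  refine sum_congr rfl fun i' _ => ?_
  rw [Polynomial.smul_modByMonic, Polynomial.coeff_smul, smul_eq_mul, mul_comm, rr]

theorem eval_rem (y : P → Y) {D : Finset P} (n : ℕ) (c : ℕ → Y) {j : P} (hj : j ∈ D) :
    ((∑ i' ∈ range n, c i' • Polynomial.X ^ i' : Polynomial Y) %ₘ Lagrange.nodal D y).eval (y j) =
      ∑ i' ∈ range n, c i' * y j ^ i' := by
  rw [Polynomial.modByMonic_eq_sub_mul_div, Polynomial.eval_sub, Polynomial.eval_mul,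
    Lagrange.eval_nodal_at_node hj, zero_mul, sub_zero, Polynomial.eval_finsetSum]
  simp

theorem R1 [IsDomain Y] {y : P → Y} (hy : Function.Injective y) {D : Finset P} {n : ℕ} {c : ℕ → Y}
    (h : ∀ j ∈ D, ∑ i' ∈ range n, c i' * y j ^ i' = 0) (i : ℕ) :
    ∑ i' ∈ range n, rr y D i i' * c i' = 0 := by
  rw [rr_sum, Polynomial.eq_zero_of_degree_lt_of_eval_index_eq_zero D hy.injOn
    (Lagrange.degree_nodal (s := D) (v := y) ▸
      Polynomial.degree_modByMonic_lt _ Lagrange.nodal_monic)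
    (fun j hj => (eval_rem y n c hj).trans (h j hj)), Polynomial.coeff_zero]

theorem R2 [IsDomain Y] (y : P → Y) {D : Finset P} (n : ℕ) (c : ℕ → Y) {j : P} (hj : j ∈ D) :
    ∑ i ∈ range D.card, (∑ i' ∈ range n, rr y D i i' * c i') * y j ^ i =
      ∑ i' ∈ range n, c i' * y j ^ i' := by
  simp only [rr_sum]
  rw [← eval_rem y n c hj, Polynomial.eval_eq_sum_range']
  have h1 : D.card ≠ 0 := card_ne_zero_of_mem hj
  have h2 := Polynomial.degree_modByMonic_lt
    (∑ i' ∈ range n, c i' • Polynomial.X ^ i' : Polynomial Y) (Lagrange.nodal_monic (s := D) (v := y))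
  rw [Lagrange.degree_nodal] at h2
  by_cases h0 : ((∑ i' ∈ range n, c i' • Polynomial.X ^ i' : Polynomial Y) %ₘ
      Lagrange.nodal D y) = 0
  · rw [h0, Polynomial.natDegree_zero]
    omega
  · exact (Polynomial.natDegree_lt_iff_degree_lt h0).2 h2

theorem R3 (y : P → Y) {D : Finset P} {p q : P} (hp : p ∉ D) (hq : q ∉ D) (i i' : ℕ) :
    ∃ r, rr y (insert p D) i i' = rr y (insert q D) i i' + (y p - y q) * r := by
  have h1 : Ideal.Quotient.mk (Ideal.span {y p - y q}) (y p) =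
      Ideal.Quotient.mk (Ideal.span {y p - y q}) (y q) :=
    Ideal.Quotient.eq.2 (Ideal.mem_span_singleton_self _)
  have h2 : Ideal.Quotient.mk (Ideal.span {y p - y q}) (rr y (insert p D) i i') =
      Ideal.Quotient.mk (Ideal.span {y p - y q}) (rr y (insert q D) i i') := by
    rw [rr, rr, ← Polynomial.coeff_map, ← Polynomial.coeff_map,
      Polynomial.map_modByMonic _ Lagrange.nodal_monic,
      Polynomial.map_modByMonic _ Lagrange.nodal_monic,
      Lagrange.nodal_insert_eq_nodal hp, Lagrange.nodal_insert_eq_nodal hq]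
    simp only [Polynomial.map_mul, Polynomial.map_sub, Polynomial.map_X, Polynomial.map_C, h1]
  obtain ⟨r, hr⟩ := Ideal.mem_span_singleton.1 (Ideal.Quotient.eq.1 h2)
  exact ⟨r, by rw [← hr]; ring⟩

/-- combination of the coefficients -/
def cmb (n : ℕ) (c : ℕ → Am P Λ Y) (r : ℕ → Y) : Am P Λ Y :=
  ∑ i' ∈ range n, (C (r i') : MvPolynomial P Y) • c i'

theorem coeff_cmb (n : ℕ) (c : ℕ → Am P Λ Y) (r : ℕ → Y) (f : Λ → P) (e : P →₀ ℕ) :
    coeff e (cmb n c r f) = ∑ i' ∈ range n, r i' * coeff e (c i' f) := by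
  rw [cmb, Finset.sum_apply, coeff_sum]
  refine sum_congr rfl fun i _ => ?_
  rw [Pi.smul_apply, smul_eq_mul, coeff_C_mul]

theorem cmb_mem {y : P → Y} {p q : P} {L : Finset Λ} (n : ℕ) {c : ℕ → Am P Λ Y}
    (hc : ∀ i, c i ∈ Qk y p q L 0) (r : ℕ → Y) : cmb n c r ∈ Qk y p q L 0 :=
  Submodule.sum_mem _ fun i _ => Submodule.smul_mem _ _ (hc i)

/-- the points of `N` in the zero set -/
def Z (N : Finset P) (e : P →₀ ℕ) : Finset P := N.filter (· ∈ zs e)

theorem mem_zs {e : P →₀ ℕ} {j : P} : j ∈ zs e ↔ e j = 0 := by simp [zs]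

theorem mem_Z {N : Finset P} {e : P →₀ ℕ} {j : P} : j ∈ Z N e ↔ j ∈ N ∧ e j = 0 := by
  simp [Z, zs]

/-- the required property at one label -/
def Ok (y : P → Y) (N : Finset P) (o : P) (m n : ℕ) (c g : ℕ → Am P Λ Y) (f : Λ → P)
    (e : P →₀ ℕ) : Prop :=
  (m + 1 ≤ (Z N e).card → ∀ i, coeff e (g i f) = 0) ∧
    ((Z N e).card = m → ∀ j ∈ (Z N e).erase o,
      ∑ i ∈ range (m - 1), coeff e (g i f) * y j ^ i = ∑ i' ∈ range n, coeff e (c i' f) * y j ^ i')

theorem ok_of [IsDomain Y] {y : P → Y} (hy : Function.Injective y) {N : Finset P} {o : P}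
    {m n : ℕ} {c g : ℕ → Am P Λ Y} {f : Λ → P} {e : P →₀ ℕ} {W : Finset P} (ho : o ∈ Z N e)
    (H : m + 1 ≤ (Z N e).card → ∀ j ∈ (Z N e).erase o,
      ∑ i' ∈ range n, coeff e (c i' f) * y j ^ i' = 0)
    (hW : m ≤ (Z N e).card → W ⊆ Z N e ∧ m ≤ W.card ∧
      ∀ i, coeff e (g i f) = coeff e (cmb n c (rr y (W.erase o) i) f)) :
    Ok y N o m n c g f e := by
  refine ⟨fun h i => ?_, fun h j hj => ?_⟩
  · obtain ⟨h1, -, h3⟩ := hW (by omega)
    rw [h3, coeff_cmb]
    exact R1 hy (fun j hj => H h j (erase_subset_erase _ h1 hj)) i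
  · obtain ⟨h1, h2, h3⟩ := hW h.ge
    have h4 : W = Z N e := eq_of_subset_of_card_le h1 (by omega)
    subst h4
    simp only [h3, coeff_cmb]
    rw [← h, ← card_erase_of_mem ho]
    exact R2 y n _ hj

theorem piece [IsDomain Y] {y : P → Y} (hy : Function.Injective y) {N : Finset P} {p q o : P}
    (hpq : p ≠ q) (hp : p ∈ N) (hq : q ∈ N) (Q : QApi Λ y p q) (hoq : o ≠ q) {L : Finset Λ}
    (m n : ℕ) {c : ℕ → Am P Λ Y} (hc : ∀ i, c i ∈ Qk y p q L 0) (T' : Finset P) :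
    ∃ g : ℕ → Am P Λ Y, (∀ i, g i ∈ Qk y p q L 0) ∧ ∀ f e, ((zs e).erase p).erase q = T' →
      o ∈ Z N e → (m + 1 ≤ (Z N e).card → ∀ j ∈ (Z N e).erase o,
        ∑ i' ∈ range n, coeff e (c i' f) * y j ^ i' = 0) → Ok y N o m n c g f e := by
  set Z0 := ((N.filter (· ∈ T')).erase p).erase q with hZ0
  have hp0 : p ∉ Z0 := by simp [hZ0]
  have hq0 : q ∉ Z0 := by simp [hZ0]
  have hmem : ∀ e : P →₀ ℕ, ((zs e).erase p).erase q = T' → ∀ j,
      j ∈ Z N e ↔ j ∈ Z0 ∨ (j = p ∧ e p = 0) ∨ (j = q ∧ e q = 0) := by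
    rintro e rfl j
    simp only [hZ0, mem_Z, mem_erase, mem_filter, mem_zs]
    by_cases h1 : j = p
    · subst h1
      simp [hp, hpq]
    · by_cases h2 : j = q
      · subst h2
        simp [hq, h1]
      · simp [h1, h2]
  have gen : ∀ W : Finset P, (∀ e : P →₀ ℕ, ((zs e).erase p).erase q = T' → o ∈ Z N e →
      m ≤ (Z N e).card → W ⊆ Z N e ∧ m ≤ W.card) →
      ∃ g : ℕ → Am P Λ Y, (∀ i, g i ∈ Qk y p q L 0) ∧ ∀ f e, ((zs e).erase p).erase q = T' →
      o ∈ Z N e → (m + 1 ≤ (Z N e).card → ∀ j ∈ (Z N e).erase o,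
        ∑ i' ∈ range n, coeff e (c i' f) * y j ^ i' = 0) → Ok y N o m n c g f e :=
    fun W hW => ⟨fun i => cmb n c (rr y (W.erase o) i), fun i => cmb_mem n hc _,
      fun f e he ho H => ok_of hy ho H fun h =>
        ⟨(hW e he ho h).1, (hW e he ho h).2, fun _ => rfl⟩⟩
  have cp : (insert p Z0).card = Z0.card + 1 := card_insert_of_notMem hp0
  have cq : (insert q Z0).card = Z0.card + 1 := card_insert_of_notMem hq0
  by_cases h1 : m ≤ Z0.card
  · exact gen Z0 fun e he _ _ => ⟨fun j hj => (hmem e he j).2 (Or.inl hj), h1⟩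
  by_cases h2 : Z0.card + 2 ≤ m
  · refine gen (insert p (insert q Z0)) fun e he _ h => ?_
    have h3 : Z N e ⊆ insert p (insert q Z0) := fun j hj => by
      have := (hmem e he j).1 hj
      simp only [mem_insert]
      tauto
    have h4 : (insert p (insert q Z0)).card ≤ Z0.card + 2 := (card_insert_le _ _).trans (by omega)
    exact ⟨(eq_of_subset_of_card_le h3 (by omega)).ge, h.trans (card_le_card h3)⟩
  by_cases h3 : o = p
  · refine gen (insert p Z0) fun e he ho _ => ⟨fun j hj => ?_, by omega⟩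
    rcases mem_insert.1 hj with rfl | hj
    · exact h3 ▸ ho
    · exact (hmem e he j).2 (Or.inl hj)
  have hp1 : p ∉ Z0.erase o := fun h => hp0 (mem_of_mem_erase h)
  have hq1 : q ∉ Z0.erase o := fun h => hq0 (mem_of_mem_erase h)
  choose r hr using R3 y hp1 hq1
  have h4 : ∀ i, (cmb n c (r i) - fun f => prz p q (cmb n c (r i) f)) ∈ Qk y p q L 0 := fun i =>
    Submodule.sub_mem _ (cmb_mem n hc _) (Q.prz_mem L 0 _ (cmb_mem n hc _))
  have h5 : ∀ i f (e : P →₀ ℕ), coeff e ((cmb n c (r i) - fun f => prz p q (cmb n c (r i) f)) f) =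
      if e p = 0 ∧ e q = 0 then 0 else coeff e (cmb n c (r i) f) := by
    intro i f e
    rw [Pi.sub_apply, coeff_sub, prz, coeff_keep]
    split_ifs <;> simp
  choose v1 hv1 v2 _ hv using fun i => Q.lxx L 0 _ (h4 i) fun f e a b => by
    rw [h5, if_pos ⟨a, b⟩]
  refine ⟨fun i => cmb n c (rr y ((insert q Z0).erase o) i) - (X q : MvPolynomial P Y) • v1 i,
    fun i => Submodule.sub_mem _ (cmb_mem n hc _) (Submodule.smul_mem _ _ (hv1 i)),
    fun f e he ho H => ?_⟩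
  by_cases h6 : e q = 0
  · refine ok_of hy (W := insert q Z0) ho H fun _ => ⟨fun j hj => ?_, by omega, fun i => ?_⟩
    · rcases mem_insert.1 hj with rfl | hj
      · exact (hmem e he _).2 (Or.inr (Or.inr ⟨rfl, h6⟩))
      · exact (hmem e he j).2 (Or.inl hj)
    · rw [Pi.sub_apply, coeff_sub, Pi.smul_apply, smul_eq_mul, coeff_X_mul_zero h6, sub_zero]
  · refine ok_of hy (W := insert p Z0) ho H fun h => ?_
    have h7 : Z N e ⊆ insert p Z0 := fun j hj => by
      have := (hmem e he j).1 hj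
      simp only [mem_insert]
      tauto
    have h8 : Z N e = insert p Z0 := eq_of_subset_of_card_le h7 (by omega)
    have h9 : e p = 0 := (mem_Z.1 (h8 ▸ mem_insert_self p Z0)).2
    refine ⟨h8.ge, by omega, fun i => ?_⟩
    have h10 := congrArg (coeff e) (congrFun (hv i) f)
    rw [Pi.smul_apply, smul_eq_mul, coeff_C_mul, h5, if_neg (fun h => h6 h.2), Pi.add_apply,
      Pi.smul_apply, Pi.smul_apply, smul_eq_mul, smul_eq_mul, coeff_add, mul_assoc,
      coeff_X_mul_zero h9, add_zero, sub_mul (X p), coeff_sub, coeff_X_mul_zero h9, zero_sub] at h10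
    rw [Pi.sub_apply, coeff_sub, Pi.smul_apply, smul_eq_mul, sub_eq_add_neg, ← h10,
      erase_insert_of_ne (Ne.symm hoq), erase_insert_of_ne (Ne.symm h3)]
    simp only [coeff_cmb, hr, mul_sum, ← sum_add_distrib]
    exact sum_congr rfl fun _ _ => by ring

theorem clear_fin {y : P → Y} {N : Finset P} {p q : P} (hp : p ∈ N) (hq : q ∈ N)
    (Q : QApi Λ y p q) {L : Finset Λ} {g : ℕ → Am P Λ Y} (hg : ∀ i, g i ∈ Qk y p q L 0) (k : ℕ) :
    ∃ G ∈ Mult y N p q, ∀ i < k, ∃ u ∈ RR y L, ∀ f, All N L f → C G * g i f = u f := by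
  induction k with
  | zero => exact ⟨1, one_mem _, fun i hi => absurd hi (Nat.not_lt_zero i)⟩
  | succ k ih =>
    obtain ⟨G, hG, h⟩ := ih
    obtain ⟨G', hG', u', hu', h'⟩ := Q.clear N L _ hp hq (hg k)
    refine ⟨G * G', mul_mem hG hG', fun i hi => ?_⟩
    rcases Nat.lt_succ_iff_lt_or_eq.1 hi with hi | rfl
    · obtain ⟨u, hu, h⟩ := h i hi
      refine ⟨(C G' : MvPolynomial P Y) • u, Subalgebra.smul_mem _ hu _, fun f hf => ?_⟩
      rw [Pi.smul_apply, smul_eq_mul, ← h f hf, map_mul]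
      ring
    · refine ⟨(C G : MvPolynomial P Y) • u', Subalgebra.smul_mem _ hu' _, fun f hf => ?_⟩
      rw [Pi.smul_apply, smul_eq_mul, ← h' f hf, map_mul, mul_assoc]

end PL4Aux

open PL4Aux in
theorem l4 : S_L4 := by
  intro P Λ Y _ _ _ _ _ _ y N p q hy hpq hp hq Q L t o m V ho hoq ht hV _ hM v hv h0
  obtain ⟨n, c, hc, hd⟩ := decomp y L t v hv
  have hc' : ∀ i, c i ∈ Qk y p q L 0 := fun i => Q.rr L _ (hc i)
  have H : ∀ f e, (zs e, f) ∈ V → m + 1 ≤ (Z N e).card → ∀ j ∈ (Z N e).erase o,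
      ∑ i' ∈ range n, coeff e (c i' f) * y j ^ i' = 0 := by
    intro f e hf hm j hj
    obtain ⟨f', h1, h3⟩ : ∃ f' : Λ → P, (∀ s ∈ L, f s = f' s) ∧ f' t = j :=
      ⟨Function.update f t j, fun s hs =>
        (Function.update_of_ne (ne_of_mem_of_not_mem hs ht) _ _).symm, Function.update_self ..⟩
    subst h3
    have h2 := mem_Z.1 (mem_of_mem_erase hj)
    have h4 := h0 f' e ⟨⟨hM _ _ _ h1 hf, h2.1, mem_zs.2 h2.2, ne_of_mem_erase hj⟩, hm⟩
    rw [hd _ e h2.2] at h4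
    rw [← h4]
    exact sum_congr rfl fun i _ => by rw [(hc' i).1 _ _ h1]
  choose g0 hg0 hok using piece hy hpq hp hq Q hoq m n hc'
  choose g1 hg1 e1 using fun i => Q.glue L 0 (fun _ T' => g0 T' i) fun _ T' => hg0 T' i
  have hok1 : ∀ f e, (zs e, f) ∈ V → Ok y N o m n c g1 f e := by
    intro f e hf
    have := hok _ f e rfl (mem_Z.2 ⟨ho, mem_zs.1 (hV _ hf).2⟩) (H f e hf)
    simpa only [Ok, e1] using this
  obtain ⟨G, hG, hu⟩ := clear_fin hp hq Q hg1 (m - 1)
  choose! u hu hu' using hu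
  refine ⟨G, hG, fun i => if i < m - 1 then u i else 0, fun i => ?_, fun f e hf => ?_⟩
  · beta_reduce
    split_ifs with hi
    · refine ⟨hu i hi, fun f e hf => ?_⟩
      rw [← hu' i hi f (hV _ hf.1).1, coeff_C_mul, (hok1 f e hf.1).1 hf.2, mul_zero]
    · exact ⟨zero_mem _, fun f e _ => by simp⟩
  · obtain ⟨⟨h1, h2, h3, h4⟩, h5⟩ := hf
    have h6 : coeff e ((∑ i ∈ range (m - 1), bv y t ^ i * if i < m - 1 then u i else 0) f) =
        G * ∑ i ∈ range (m - 1), coeff e (g1 i f) * y (f t) ^ i := by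
      rw [Finset.sum_apply, coeff_sum, mul_sum]
      refine sum_congr rfl fun i hi => ?_
      rw [if_pos (mem_range.1 hi), Pi.mul_apply, Pi.pow_apply, bv, ← map_pow, coeff_C_mul,
        ← hu' i (mem_range.1 hi) f (hV _ h1).1, coeff_C_mul]
      ring
    rw [Pi.sub_apply, coeff_sub, h6, Pi.smul_apply, smul_eq_mul, coeff_C_mul, ← mul_sub]
    refine mul_eq_zero_of_right _ (sub_eq_zero.2 ?_)
    have h7 : f t ∈ (Z N e).erase o := mem_erase.2 ⟨h4, mem_Z.2 ⟨h2, mem_zs.1 h3⟩⟩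
    rw [hd f e (mem_zs.1 h3)]
    rcases Nat.eq_or_lt_of_le (show m ≤ (Z N e).card from h5) with h8 | h8
    · exact ((hok1 f e h1).2 h8.symm _ h7).symm
    · rw [H f e h1 h8 _ h7]
      simp [(hok1 f e h1).1 h8]

end

end Pool.Agent.P.MP_c2aaf5_co
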