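import Pool.Agent.P.MP_c2aaf5_co.DefP

/-! Local polygraph statements `L5` and `L6`. -/

set_option linter.unusedSectionVars false

namespace Pool.Agent.P.MP_c2aaf5_co

open MvPolynomial Finset

noncomputable section

namespace PL56Aux

variable {P Λ Y : Type} [Fintype P] [DecidableEq P] [Fintype Λ] [DecidableEq Λ] [CommRing Y]
  [IsDomain Y] {y : P → Y} {p q : P} {N : Finset P} {L : Finset Λ}

theorem coeff_X0 {r : P} {e : P →₀ ℕ} (h : e r = 0) (g : MvPolynomial P Y) :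
    coeff e (X r * g) = 0 := by
  rw [coeff_X_mul', if_neg (by simpa using h)]

theorem mem_zs {r : P} {e : P →₀ ℕ} : r ∈ zs e ↔ e r = 0 := by simp [zs]

theorem smul_mem_succ (Q : QApi Λ y p q) {k : ℕ} {v : Am P Λ Y} (hv : v ∈ Qk y p q L k)
    {c : MvPolynomial P Y} (hc : c ∈ nn y p q) : c • v ∈ Qk y p q L (k + 1) := by
  have h := Q.mul L 1 k (fun _ => c) v (Q.cls L 1 _ (fun _ _ _ => rfl) fun _ => by rwa [pow_one]) hv
  rw [add_comm] at h
  exact h

theorem z_mem : (X p - X q : MvPolynomial P Y) ∈ nn y p q := Ideal.subset_span (by simp)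

theorem del_mem : (C (y p - y q) : MvPolynomial P Y) ∈ nn y p q := Ideal.subset_span (by simp)

/-- splitting of an element without monomials free of `x_p, x_q` -/
theorem sp (Q : QApi Λ y p q) (hy : y p ≠ y q) {k : ℕ} {v : Am P Λ Y}
    (hv : v ∈ Qk y p q L (k + 1)) (h : ∀ f (e : P →₀ ℕ), e p = 0 → e q = 0 → coeff e (v f) = 0) :
    ∃ v1 ∈ Qk y p q L k, ∃ v2 ∈ Qk y p q L k, ∀ f,
      v f = (X p - X q) * v1 f + X p * C (y p - y q) * v2 f := by
  obtain ⟨a, ha, b, hb, e1⟩ := Q.split L k v hv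
  obtain ⟨c, hc, d, hd, e2⟩ := Q.lxx L k b hb fun f e h1 h2 => by
    have h3 := h f e h1 h2
    rw [e1] at h3
    simp only [Pi.add_apply, Pi.smul_apply, smul_eq_mul, sub_mul, coeff_add, coeff_sub,
      coeff_X0 h1, coeff_X0 h2, coeff_C_mul, sub_zero, zero_add] at h3
    exact (mul_eq_zero.1 ((sub_mul _ _ _).trans h3)).resolve_left (sub_ne_zero.2 hy)
  refine ⟨a + c, add_mem ha hc, d, hd, fun f => ?_⟩
  have h1 := congrFun e1 f
  have h2 := congrFun e2 f
  simp only [Pi.add_apply, Pi.smul_apply, smul_eq_mul] at h1 h2 ⊢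
  rw [h1, h2]; ring

theorem two (Q : QApi Λ y p q) (hpq : p ≠ q) {t : Λ} (ht : t ∈ L) {a m : Am P Λ Y}
    (ha : a ∈ Qk y p q (L.erase t) 0) (hm : m ∈ Qk y p q (L.erase t) 1) :
    ∃ d ∈ Qk y p q L 0, ∀ f, (f t = p → d f = a f + m f) ∧ (f t = q → d f = a f) :=
  ⟨a + fun f => if f t = p then m f else 0,
    add_mem (Q.mono _ _ 0 0 (erase_subset _ _) le_rfl ha) (Q.es L 0 m t p ht hm),
    fun f => ⟨fun h => by simp [h], fun h => by simp [h, hpq.symm]⟩⟩

theorem caseA (Q : QApi Λ y p q) (hpq : p ≠ q) {t : Λ} (ht : t ∈ L) {D : Am P Λ Y}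
    (hD : D ∈ Qk y p q L 0)
    (h : ∀ f (e : P →₀ ℕ), f t = p ∨ f t = q → e (f t) = 0 → coeff e (D f) = 0) :
    ∃ d ∈ Qk y p q L 0, ∀ f, f t = p ∨ f t = q → D f = X (f t) * d f := by
  obtain ⟨u, hu, e1⟩ := Q.divx _ 0 _ q (Q.sub L 0 D t q hD) fun f e he =>
    h _ e (Or.inr (by simp)) (by simpa using he)
  have e1' : ∀ f, D (Function.update f t q) = X q * u f := congrFun e1
  obtain ⟨m, hm, e2⟩ := Q.divx _ 1 _ p
    (sub_mem (Q.dq L 0 D t ht hD) (smul_mem_succ Q hu z_mem)) fun f e he => by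
      have := h (Function.update f t p) e (Or.inl (by simp)) (by simpa using he)
      simp only [Pi.sub_apply, Pi.smul_apply, smul_eq_mul, Dq, e1', sub_mul, coeff_sub, this,
        coeff_X0 he]
      ring
  obtain ⟨d, hd, e3⟩ := two Q hpq ht hu hm
  refine ⟨d, hd, fun f hf => ?_⟩
  rcases hf with hf | hf
  · have h2 := congrFun e2 f
    simp only [Pi.sub_apply, Pi.smul_apply, smul_eq_mul, Dq, e1'] at h2
    rw [← hf, Function.update_eq_self, hf] at h2
    rw [(e3 f).1 hf, hf]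
    linear_combination h2
  · rw [(e3 f).2 hf, hf, ← e1', ← hf, Function.update_eq_self]

theorem mv_eq {F : Finset Λ} {r : P} {f : Λ → P} (h : ∀ s ∈ F, f s = r) : mv F r f = f := by
  funext s
  unfold mv
  split_ifs with hs
  · exact (h s hs).symm
  · rfl

theorem mv_mem {F : Finset Λ} (r : P) (f : Λ → P) {s : Λ} (h : s ∈ F) : mv F r f s = r := if_pos h

theorem mv_not {F : Finset Λ} (r : P) (f : Λ → P) {s : Λ} (h : s ∉ F) : mv F r f s = f s :=
  if_neg h

theorem caseB (Q : QApi Λ y p q) {F : Finset Λ} {D : Am P Λ Y} (hD : D ∈ Qk y p q L 0)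
    (h : ∀ f (e : P →₀ ℕ), (∀ s ∈ F, f s = q) → e p = 0 → e q = 0 → coeff e (D f) = 0) :
    ∃ d ∈ Qk y p q L 0, ∀ f (e : P →₀ ℕ), (∀ s ∈ F, f s = q) → e p = 0 →
      coeff e (C (y q - y p) * D f - X q * d f) = 0 := by
  obtain ⟨a, ha, b, -, e1⟩ := Q.lxx _ 0 _ (Q.msub L F 0 D q hD) fun f e h1 h2 =>
    h _ e (fun s hs => mv_mem q f hs) h1 h2
  refine ⟨a, Q.mono _ _ 0 0 sdiff_subset le_rfl ha, fun f e h1 h2 => ?_⟩
  have h3 := congrFun e1 f
  simp only [Pi.add_apply, Pi.smul_apply, smul_eq_mul, mv_eq h1] at h3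
  have : C (y q - y p) * D f - X q * a f = X p * (-a f - C (y p - y q) * b f) := by
    rw [← neg_sub (y p), C_neg]
    linear_combination -h3
  rw [this, coeff_X0 h2]

theorem caseC (Q : QApi Λ y p q) (hpq : p ≠ q) (hy : y p ≠ y q) {t : Λ} (ht : t ∈ L)
    {F : Finset Λ} (htF : t ∉ F) {D : Am P Λ Y} (hD : D ∈ Qk y p q L 0)
    (h1 : ∀ f (e : P →₀ ℕ), (∀ s ∈ F, f s = q) → e p = 0 → f t = p ∨ f t = q → e (f t) = 0 →
      coeff e (D f) = 0)
    (h2 : ∀ f (e : P →₀ ℕ), (∀ s ∈ F, f s = p) → e q = 0 → f t = p ∨ f t = q → e (f t) = 0 →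
      coeff e (D f) = 0) :
    ∃ d ∈ Qk y p q L 0, ∀ f (e : P →₀ ℕ), f t = p ∨ f t = q →
      ((∀ s ∈ F, f s = q) ∧ e p = 0) ∨ ((∀ s ∈ F, f s = p) ∧ e q = 0) →
      coeff e (D f - X (f t) * d f) = 0 := by
  have htL : t ∈ L \ F := mem_sdiff.2 ⟨ht, htF⟩
  have k1 : ∀ (a b : P) f, mv F a (Function.update f t b) t = b := fun a b f => by
    rw [mv_not _ _ htF, Function.update_self]
  have qp : ∀ f (e : P →₀ ℕ), e p = 0 → coeff e (D (mv F q (Function.update f t p))) = 0 :=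
    fun f e he => h1 _ e (fun s hs => mv_mem _ _ hs) he (Or.inl (k1 _ _ _)) (by rwa [k1])
  have pq : ∀ f (e : P →₀ ℕ), e q = 0 → coeff e (D (mv F p (Function.update f t q))) = 0 :=
    fun f e he => h2 _ e (fun s hs => mv_mem _ _ hs) he (Or.inr (k1 _ _ _)) (by rwa [k1])
  have qq : ∀ f (e : P →₀ ℕ), e p = 0 → e q = 0 →
      coeff e (D (mv F q (Function.update f t q))) = 0 :=
    fun f e he he' => h1 _ e (fun s hs => mv_mem _ _ hs) he (Or.inr (k1 _ _ _)) (by rwa [k1])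
  have pp : ∀ f (e : P →₀ ℕ), e p = 0 → e q = 0 →
      coeff e (D (mv F p (Function.update f t p))) = 0 :=
    fun f e he he' => h2 _ e (fun s hs => mv_mem _ _ hs) he' (Or.inl (k1 _ _ _)) (by rwa [k1])
  obtain ⟨k, hk, k5, hk5, e1⟩ := sp Q hy (Q.dq _ 0 _ t htL (Q.msub L F 0 D q hD))
    fun f e a b => by simp only [Dq, coeff_sub, qp f e a, qq f e a b, sub_zero]
  obtain ⟨v1, hv1, v2, hv2, e2⟩ := sp Q hy (Q.dq _ 1 _ t htL (Q.mdq L F 0 D hD))
    fun f e a b => by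
      simp only [Dq, coeff_sub, qp f e a, qq f e a b, pp f e a b, pq f e b, sub_zero]
  have hs : (L \ F).erase t ⊆ L.erase t := erase_subset_erase _ sdiff_subset
  obtain ⟨d, hd, e3⟩ := two Q hpq ht (Q.mono _ _ 0 0 hs le_rfl hk)
    (Q.mono _ _ 1 1 hs le_rfl (add_mem (add_mem hv1 (Submodule.smul_mem _ (C (y p - y q)) hv2))
      (smul_mem_succ Q hk5 del_mem)))
  refine ⟨d, hd, fun f e hf hc => ?_⟩
  have e1' := e1 f
  have e2' := e2 f
  simp only [Dq] at e1' e2'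
  rcases hf with hf | hf <;> rcases hc with ⟨a, b⟩ | ⟨a, b⟩
  · rw [coeff_sub, h1 f e a b (Or.inl hf) (by rwa [hf]), hf, coeff_X0 b, sub_zero]
  · have e4 : mv F p (Function.update f t p) = f := by
      rw [← hf, Function.update_eq_self, hf, mv_eq a]
    rw [e4] at e2'
    have : D f - X (f t) * d f = D (mv F p (Function.update f t q)) + X q * (-v1 f - k f) := by
      rw [(e3 f).1 hf, hf]
      simp only [Pi.add_apply, Pi.smul_apply, smul_eq_mul]
      linear_combination e1' + e2'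
    rw [this, coeff_add, pq f e b, coeff_X0 b, add_zero]
  · have e4 : mv F q (Function.update f t q) = f := by
      rw [← hf, Function.update_eq_self, hf, mv_eq a]
    rw [e4] at e1'
    have : D f - X (f t) * d f = D (mv F q (Function.update f t p)) +
        X p * (-k f - C (y p - y q) * k5 f) := by
      rw [(e3 f).2 hf, hf]
      linear_combination -e1'
    rw [this, coeff_add, qp f e b, coeff_X0 b, add_zero]
  · rw [coeff_sub, h2 f e a b (Or.inr hf) (by rwa [hf]), hf, coeff_X0 b, sub_zero]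

/-! ### pieces -/

/-- the passive part of the zero set -/
def tp (p q : P) (e : P →₀ ℕ) : Finset P := ((zs e).erase p).erase q

theorem mem_tp {e : P →₀ ℕ} {r : P} : r ∈ tp p q e ↔ r ≠ q ∧ r ≠ p ∧ e r = 0 := by
  simp [tp, zs]

theorem cl_q {r : P} : cl p q r = q ↔ r = p ∨ r = q := by
  unfold cl; split_ifs with h <;> simp [h]

theorem cl_pas {r j : P} (h1 : j ≠ p) (h2 : j ≠ q) : cl p q r = j ↔ r = j := by
  unfold cl; split_ifs with h
  · exact ⟨fun e => (h2 e.symm).elim, fun e => (h1 (e.symm.trans h)).elim⟩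
  · rfl

theorem rep_mem {f : Λ → P} {s : Λ} (h : s ∈ L) : rep p q L f s = cl p q (f s) := if_pos h

theorem all_rep (hp : p ∈ N) (hq : q ∈ N) {f f' : Λ → P} (e : rep p q L f = rep p q L f')
    (h : All N L f') : All N L f := fun s hs => by
  have h1 := congrFun e s
  rw [rep_mem hs, rep_mem hs] at h1
  by_cases a : f s = p
  · rwa [a]
  by_cases b : f s = q
  · rwa [b]
  rw [(cl_pas a b).2 rfl, eq_comm, cl_pas a b] at h1
  exact h1 ▸ h s hs

theorem ne_rep {f f' : Λ → P} (e : rep p q L f = rep p q L f') {j : P} (h1 : j ≠ p) (h2 : j ≠ q)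
    {s : Λ} (hs : s ∈ L) (h : f' s ≠ j) : f s ≠ j := fun a => h (by
  have h3 := congrFun e s
  rwa [rep_mem hs, rep_mem hs, (cl_pas h1 h2).2 a, eq_comm, cl_pas h1 h2] at h3)

theorem cut (Q : QApi Λ y p q) {d : Am P Λ Y} (hd : d ∈ Qk y p q L 0)
    (c : (Λ → P) → Finset P → Prop) : ∃ D ∈ Qk y p q L 0, ∀ f e,
      (c (rep p q L f) (tp p q e) → coeff e (D f) = coeff e (d f)) ∧
      (¬ c (rep p q L f) (tp p q e) → coeff e (D f) = 0) := by
  classical
  obtain ⟨D, hD, h⟩ := Q.glue L 0 (fun f T => if c f T then d else 0) fun f T => by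
    split_ifs
    exacts [hd, zero_mem _]
  exact ⟨D, hD, fun f e => ⟨fun a => by
    rw [h]; exact congrArg (fun v : Am P Λ Y => coeff e (v f)) (if_pos a),
    fun a => by rw [h]; exact congrArg (fun v : Am P Λ Y => coeff e (v f)) (if_neg a)⟩⟩

theorem pas (Q : QApi Λ y p q) {d : Am P Λ Y} (hd : d ∈ Qk y p q L 0) {r : P} (h1 : r ≠ p)
    (h2 : r ≠ q) : ∃ g ∈ Qk y p q L 0, ∀ f (e : P →₀ ℕ), (e r = 0 → coeff e (d f) = 0) →
      coeff e (d f - X r * g f) = 0 := by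
  obtain ⟨D, hD, h⟩ := cut Q hd fun _ T => r ∉ T
  obtain ⟨g, hg, e1⟩ := Q.divx L 0 D r hD fun f e he =>
    (h f e).2 (not_not.2 (mem_tp.2 ⟨h2, h1, he⟩))
  refine ⟨g, hg, fun f e he => ?_⟩
  have e2 : D f = X r * g f := congrFun e1 f
  by_cases a : e r = 0
  · rw [coeff_sub, he a, coeff_X0 a, sub_zero]
  · rw [coeff_sub, ← e2, (h f e).1 fun b => a (mem_tp.1 b).2.2, sub_self]

theorem main_glue (Q : QApi Λ y p q) (hp : p ∈ N) (hq : q ∈ N) {t : Λ} (ht : t ∈ L)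
    (w : Am P Λ Y) (S : Set (Lab P Λ)) (hS : ∀ a ∈ S, All N L a.2)
    (h1 : ∀ r, r ≠ p → r ≠ q → ∃ g ∈ Qk y p q L 0, ∀ f e, (zs e, f) ∈ S → f t = r →
      coeff e (w f - X r * g f) = 0)
    (h2 : ∀ f1 e1, (zs e1, f1) ∈ S → f1 t = p ∨ f1 t = q → ∃ g ∈ Qk y p q L 0, ∀ f e,
      (zs e, f) ∈ S → rep p q L f = rep p q L f1 → tp p q e = tp p q e1 →
      coeff e (w f - X (f t) * g f) = 0) :
    ∃ G ∈ Mult y N p q, ∃ d ∈ RR y L, Van S ((C G : MvPolynomial P Y) • w - av Y t * d) := by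
  classical
  have h1' : ∀ r, ∃ g ∈ Qk y p q L 0, r ≠ p → r ≠ q → ∀ f e, (zs e, f) ∈ S → f t = r →
      coeff e (w f - X r * g f) = 0 := fun r => by
    by_cases a : r ≠ p ∧ r ≠ q
    · obtain ⟨g, hg, h⟩ := h1 r a.1 a.2
      exact ⟨g, hg, fun _ _ => h⟩
    · exact ⟨0, zero_mem _, fun b c => (a ⟨b, c⟩).elim⟩
  have h2' : ∀ f0 T, ∃ g ∈ Qk y p q L 0, ∀ f e, (zs e, f) ∈ S → f t = p ∨ f t = q →
      rep p q L f = f0 → tp p q e = T → coeff e (w f - X (f t) * g f) = 0 := fun f0 T => by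
    by_cases a : ∃ f1 e1, (zs e1, f1) ∈ S ∧ (f1 t = p ∨ f1 t = q) ∧ rep p q L f1 = f0 ∧
      tp p q e1 = T
    · obtain ⟨f1, e1, a1, a2, rfl, rfl⟩ := a
      obtain ⟨g, hg, h⟩ := h2 f1 e1 a1 a2
      exact ⟨g, hg, fun f e b _ => h f e b⟩
    · exact ⟨0, zero_mem _, fun f e b1 b2 b3 b4 => (a ⟨f, e, b1, b2, b3, b4⟩).elim⟩
  choose gp hgp h3 using h1'
  choose ga hga h4 using h2'
  obtain ⟨v, hv, h5⟩ := Q.glue L 0 (fun f0 T => if f0 t = q then ga f0 T else gp (f0 t))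
    fun f T => by
      split_ifs
      exacts [hga _ _, hgp _]
  obtain ⟨G, hG, u, hu, h6⟩ := Q.clear N L v hp hq hv
  refine ⟨G, hG, u, hu, fun f e he => ?_⟩
  have e1 : ((C G : MvPolynomial P Y) • w - av Y t * u : Am P Λ Y) f =
      C G * (w f - X (f t) * v f) := by
    simp only [Pi.sub_apply, Pi.smul_apply, Pi.mul_apply, smul_eq_mul, av, ← h6 f (hS _ he)]
    ring
  rw [e1, coeff_C_mul]
  refine mul_eq_zero_of_right _ ?_
  by_cases a : f t = p ∨ f t = q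
  · rw [← h4 _ _ f e he a rfl rfl, coeff_sub, coeff_sub, coeff_X_mul', coeff_X_mul', h5,
      if_pos (show rep p q L f t = q by rwa [rep_mem ht, cl_q])]
    have : ((zs (e - Finsupp.single (f t) 1)).erase p).erase q = tp p q e := by
      ext r
      change r ∈ tp p q _ ↔ _
      rw [mem_tp, mem_tp]
      refine and_congr_right fun b => and_congr_right fun c => ?_
      rw [Finsupp.tsub_apply, Finsupp.single_eq_of_ne (by rcases a with a | a <;> rwa [a]),
        tsub_zero]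
    rw [this]
  · rw [not_or] at a
    have b : rep p q L f t = f t := by rw [rep_mem ht, cl_pas a.1 a.2]
    have : v f = gp (f t) f := by
      ext e'
      rw [h5, b, if_neg a.2]
    rw [this]
    exact h3 _ a.1 a.2 f e he rfl

theorem card_Ts (hpq : p ≠ q) (o : P) (E : Finset Λ) (a : Lab P Λ) : (Ts N o E a).card =
    (((Ts N o E a).erase p).erase q).card + (if p ∈ Ts N o E a then 1 else 0) +
      if q ∈ Ts N o E a then 1 else 0 := by
  generalize Ts N o E a = A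
  have k : ∀ (B : Finset P) r, B.card = (B.erase r).card + if r ∈ B then 1 else 0 := fun B r => by
    split_ifs with h
    · exact (card_erase_add_one h).symm
    · rw [erase_eq_of_notMem h, add_zero]
  rw [k A p, k (A.erase p) q]
  simp only [mem_erase, ne_eq, hpq.symm, not_false_eq_true, true_and]
  ring

theorem mem_Ts {o j : P} {E : Finset Λ} {e : P →₀ ℕ} {f : Λ → P} :
    j ∈ Ts N o E (zs e, f) ↔ j ∈ N ∧ e j = 0 ∧ j ≠ o ∧ ∀ s ∈ E, f s ≠ j := by
  simp [Ts, zs]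

theorem Ts_eq {o : P} {E : Finset Λ} (hE : E ⊆ L) {e e' : P →₀ ℕ} {f f' : Λ → P}
    (h : rep p q L f = rep p q L f') (h' : tp p q e = tp p q e') :
    ((Ts N o E (zs e, f)).erase p).erase q = ((Ts N o E (zs e', f')).erase p).erase q := by
  ext j
  simp only [mem_erase, mem_Ts]
  refine and_congr_right fun a => and_congr_right fun b => and_congr_right fun _ => ?_
  have h1 : e j = 0 ↔ e' j = 0 := by
    have := Finset.ext_iff.1 h' j
    simpa only [mem_tp, a, b, ne_eq, not_false_eq_true, true_and] using this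
  rw [h1]
  exact and_congr_right fun _ => and_congr_right fun _ => forall₂_congr fun s hs =>
    ⟨ne_rep h.symm b a (hE hs), ne_rep h b a (hE hs)⟩

theorem yo_pas (hp : p ∈ N) (hq : q ∈ N) {o : P} (h1 : o ≠ p) (h2 : o ≠ q) {E : Finset Λ}
    (hE : E ⊆ L) {e e' : P →₀ ℕ} {f f' : Λ → P} (h : rep p q L f = rep p q L f')
    (h' : tp p q e = tp p q e') (a : (zs e', f') ∈ Yo N L o E) : (zs e, f) ∈ Yo N L o E :=
  ⟨all_rep hp hq h a.1,
    mem_zs.2 (mem_tp.1 (h' ▸ mem_tp.2 ⟨h2, h1, mem_zs.1 a.2.1⟩ : o ∈ tp p q e)).2.2,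
    fun s hs => ne_rep h h1 h2 (hE hs) (a.2.2 s hs)⟩

theorem act_rep {f f' : Λ → P} (h : rep p q L f = rep p q L f') {s : Λ} (hs : s ∈ L)
    (a : f' s = p ∨ f' s = q) : f s = p ∨ f s = q := by
  have := congrFun h s
  rwa [rep_mem hs, rep_mem hs, cl_q.2 a, cl_q] at this

/-- the active indices of `E` -/
def act (p q : P) (E : Finset Λ) (f : Λ → P) : Finset Λ := E.filter fun s => f s = p ∨ f s = q

theorem all_q (hpq : p ≠ q) {E : Finset Λ} (hE : E ⊆ L) {f f' : Λ → P}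
    (h : rep p q L f = rep p q L f') : (∀ s ∈ E, f s ≠ p) ↔ ∀ s ∈ act p q E f', f s = q :=
  ⟨fun a s hs => (act_rep h (hE (mem_filter.1 hs).1) (mem_filter.1 hs).2).resolve_left
    (a s (mem_filter.1 hs).1), fun a s hs b =>
      hpq (b.symm.trans (a s (mem_filter.2 ⟨hs, act_rep h.symm (hE hs) (Or.inl b)⟩)))⟩

theorem all_p (hpq : p ≠ q) {E : Finset Λ} (hE : E ⊆ L) {f f' : Λ → P}
    (h : rep p q L f = rep p q L f') : (∀ s ∈ E, f s ≠ q) ↔ ∀ s ∈ act p q E f', f s = p :=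
  ⟨fun a s hs => (act_rep h (hE (mem_filter.1 hs).1) (mem_filter.1 hs).2).resolve_right
    (a s (mem_filter.1 hs).1), fun a s hs b =>
      hpq ((a s (mem_filter.2 ⟨hs, act_rep h.symm (hE hs) (Or.inr b)⟩)).symm.trans b)⟩

theorem bt_mem {t : Λ} (ht : t ∈ L) (o : P) : bt y t o ∈ RR y L := by
  have h : bt y t o = bv y t - algebraMap (MvPolynomial P Y) (Am P Λ Y) (C (y o)) := by
    funext f; simp [bt, bv]
  rw [h]
  exact sub_mem (Algebra.subset_adjoin (Or.inr ⟨t, ht, rfl⟩)) (Subalgebra.algebraMap_mem _ _)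

theorem coeff_bt {t : Λ} {o r : P} {d g : Am P Λ Y} {f : Λ → P} {e : P →₀ ℕ}
    (h : coeff e (d f - X r * g f) = 0) :
    coeff e ((bt y t o * d) f - X r * (bt y t o * g) f) = 0 := by
  have : (bt y t o * d) f - X r * (bt y t o * g) f = C (y (f t) - y o) * (d f - X r * g f) := by
    simp only [Pi.mul_apply, bt]; ring
  rw [this, coeff_C_mul, h, mul_zero]

theorem piece (Q : QApi Λ y p q) {d : Am P Λ Y} (hd : d ∈ Qk y p q L 0) (f1 : Λ → P)
    (e1 : P →₀ ℕ) : ∃ D ∈ Qk y p q L 0,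
      (∀ f e, rep p q L f = rep p q L f1 → tp p q e = tp p q e1 → coeff e (D f) = coeff e (d f)) ∧
      ∀ f e, (rep p q L f = rep p q L f1 → tp p q e = tp p q e1 → coeff e (d f) = 0) →
        coeff e (D f) = 0 := by
  obtain ⟨D, hD, h⟩ := cut Q hd fun f0 T => f0 = rep p q L f1 ∧ T = tp p q e1
  refine ⟨D, hD, fun f e a b => (h f e).1 ⟨a, b⟩, fun f e a => ?_⟩
  by_cases b : rep p q L f = rep p q L f1 ∧ tp p q e = tp p q e1
  · rw [(h f e).1 b, a b.1 b.2]
  · exact (h f e).2 b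

theorem l5_act (Q : QApi Λ y p q) (hpq : p ≠ q) (hy : y p ≠ y q) (hp : p ∈ N) (hq : q ∈ N)
    {E : Finset Λ} {t : Λ} {o : P} {c : ℕ} (hoq : o ≠ q) (hE : E ⊆ L) (ht : t ∈ L) (htE : t ∉ E)
    {d : Am P Λ Y} (hd : d ∈ Qk y p q L 0)
    (hv : Van (Yo N L o (insert t E) ∩ Ge N L o E c ∩ Hit t) d) {f1 : Λ → P} {e1 : P →₀ ℕ}
    (a1 : (zs e1, f1) ∈ Yo N L o (insert t E) ∩ Ge N L o E c) (a2 : f1 t = p ∨ f1 t = q) :
    ∃ g ∈ Qk y p q L 0, ∀ f e, (zs e, f) ∈ Yo N L o (insert t E) ∩ Ge N L o E c →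
      rep p q L f = rep p q L f1 → tp p q e = tp p q e1 →
      coeff e ((bt y t o * d) f - X (f t) * g f) = 0 := by
  obtain ⟨D, hD, k1, k2⟩ := piece Q hd f1 e1
  have hb := Q.rr L _ (bt_mem (y := y) ht o)
  have hE' : insert t E ⊆ L := insert_subset ht hE
  obtain ⟨K, hK⟩ : ∃ K, ∀ f e, rep p q L f = rep p q L f1 → tp p q e = tp p q e1 →
      (Ts N o E (zs e, f)).card = K + (if p ∈ Ts N o E (zs e, f) then 1 else 0) +
        if q ∈ Ts N o E (zs e, f) then 1 else 0 :=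
    ⟨_, fun f e a b => by rw [card_Ts hpq, Ts_eq hE a b]⟩
  have hit : ∀ f e, (zs e, f) ∈ Yo N L o (insert t E) → c ≤ (Ts N o E (zs e, f)).card →
      e (f t) = 0 → coeff e (d f) = 0 := fun f e a b h => hv f e ⟨⟨a, a.1, b⟩, mem_zs.2 h⟩
  have zero : (∀ f e, (zs e, f) ∈ Yo N L o (insert t E) ∩ Ge N L o E c →
      rep p q L f = rep p q L f1 → tp p q e = tp p q e1 → e (f t) = 0) →
      ∃ g ∈ Qk y p q L 0, ∀ f e, (zs e, f) ∈ Yo N L o (insert t E) ∩ Ge N L o E c →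
      rep p q L f = rep p q L f1 → tp p q e = tp p q e1 →
      coeff e ((bt y t o * d) f - X (f t) * g f) = 0 := fun h =>
    ⟨0, zero_mem _, fun f e a b b' => by
      simp only [Pi.mul_apply, bt, Pi.zero_apply, mul_zero, sub_zero, coeff_C_mul,
        hit f e a.1 a.2.2 (h f e a b b')]⟩
  have fin : ∀ g ∈ Qk y p q L 0, (∀ f e, (zs e, f) ∈ Yo N L o (insert t E) ∩ Ge N L o E c →
      rep p q L f = rep p q L f1 → tp p q e = tp p q e1 → coeff e (D f - X (f t) * g f) = 0) →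
      ∃ g ∈ Qk y p q L 0, ∀ f e, (zs e, f) ∈ Yo N L o (insert t E) ∩ Ge N L o E c →
      rep p q L f = rep p q L f1 → tp p q e = tp p q e1 →
      coeff e ((bt y t o * d) f - X (f t) * g f) = 0 := fun g hg h =>
    ⟨bt y t o * g, Q.mul L 0 0 _ _ hb hg, fun f e a b b' => coeff_bt (by
      rw [coeff_sub, ← k1 f e b b', ← coeff_sub, h f e a b b'])⟩
  by_cases hop : o = p
  · subst hop
    have htq : ∀ f e, (zs e, f) ∈ Yo N L o (insert t E) → rep o q L f = rep o q L f1 → f t = q :=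
      fun f e a b => (act_rep b ht a2).resolve_left (a.2.2 t (mem_insert_self _ _))
    by_cases hc : c ≤ K
    · obtain ⟨g, hg, h⟩ := caseB Q (F := act o q (insert t E) f1) hD fun f e a b b' =>
        k2 f e fun r r' => by
          have a' : (zs e, f) ∈ Yo N L o (insert t E) :=
            ⟨all_rep hp hq r a1.1.1, mem_zs.2 b, (all_q hpq hE' r).2 a⟩
          exact hit f e a' (by rw [hK f e r r']; omega) (by rwa [htq f e a' r])
      refine ⟨g, hg, fun f e a r r' => ?_⟩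
      have := h f e ((all_q hpq hE' r).1 a.1.2.2) (mem_zs.1 a.1.2.1)
      rw [coeff_sub, coeff_C_mul, k1 f e r r'] at this
      rw [Pi.mul_apply, bt, htq f e a.1 r, coeff_sub, coeff_C_mul, this]
    · refine zero fun f e a r r' => ?_
      have h1 : c ≤ (Ts N o E (zs e, f)).card := a.2.2
      rw [hK f e r r', if_neg fun h => (mem_Ts.1 h).2.2.1 rfl] at h1
      rw [htq f e a.1 r]
      by_contra h
      rw [if_neg fun h' => h (mem_Ts.1 h').2.1] at h1
      omega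
  · have yo : ∀ f e, rep p q L f = rep p q L f1 → tp p q e = tp p q e1 →
        (zs e, f) ∈ Yo N L o (insert t E) := fun f e r r' => yo_pas hp hq hop hoq hE' r r' a1.1
    rcases lt_trichotomy c (K + 1) with hc | hc | hc
    · obtain ⟨g, hg, h⟩ := caseA Q hpq ht hD fun f e _ b => k2 f e fun r r' =>
        hit f e (yo f e r r') (by rw [hK f e r r']; omega) b
      exact fin g hg fun f e _ r _ => by rw [← h f (act_rep r ht a2), sub_self, coeff_zero]
    · obtain ⟨g, hg, h⟩ := caseC Q hpq hy ht (F := act p q E f1)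
        (fun h => htE (mem_filter.1 h).1) hD
        (fun f e a b _ b' => k2 f e fun r r' => hit f e (yo f e r r') (by
          rw [hK f e r r', if_pos (mem_Ts.2 ⟨hp, b, Ne.symm hop, (all_q hpq hE r).2 a⟩)]
          omega) b')
        fun f e a b _ b' => k2 f e fun r r' => hit f e (yo f e r r') (by
          rw [hK f e r r', if_pos (mem_Ts.2 ⟨hq, b, Ne.symm hoq, (all_p hpq hE r).2 a⟩)]
          omega) b'
      refine fin g hg fun f e a r r' => h f e (act_rep r ht a2) ?_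
      have h1 : c ≤ (Ts N o E (zs e, f)).card := a.2.2
      rw [hK f e r r'] at h1
      by_cases b : p ∈ Ts N o E (zs e, f)
      · exact Or.inl ⟨(all_q hpq hE r).1 (mem_Ts.1 b).2.2.2, (mem_Ts.1 b).2.1⟩
      by_cases b' : q ∈ Ts N o E (zs e, f)
      · exact Or.inr ⟨(all_p hpq hE r).1 (mem_Ts.1 b').2.2.2, (mem_Ts.1 b').2.1⟩
      rw [if_neg b, if_neg b'] at h1
      omega
    · refine zero fun f e a r r' => ?_
      have h1 : c ≤ (Ts N o E (zs e, f)).card := a.2.2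
      rw [hK f e r r'] at h1
      split_ifs at h1 with b b'
      · rcases act_rep r ht a2 with h | h <;> rw [h]
        exacts [(mem_Ts.1 b).2.1, (mem_Ts.1 b').2.1]
      all_goals omega

theorem l6_act (Q : QApi Λ y p q) (hpq : p ≠ q) (hp : p ∈ N) (hq : q ∈ N) {t : Λ} {o : P}
    (hoq : o ≠ q) (ht : t ∈ L) {d : Am P Λ Y} (hd : d ∈ Qk y p q L 0)
    (hv : Van (Yo N L o L ∩ Hit t) d) {f1 : Λ → P} {e1 : P →₀ ℕ}
    (a1 : (zs e1, f1) ∈ Yo N L o L) (a2 : f1 t = p ∨ f1 t = q) :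
    ∃ g ∈ Qk y p q L 0, ∀ f e, (zs e, f) ∈ Yo N L o L →
      rep p q L f = rep p q L f1 → tp p q e = tp p q e1 → coeff e (d f - X (f t) * g f) = 0 := by
  by_cases hop : o = p
  · subst hop
    refine ⟨fun _ => divMonomial (d f1) (Finsupp.single q 1),
      Q.cls L 0 _ (fun _ _ _ => rfl) fun _ => by simp, fun f e a r _ => ?_⟩
    have htq : f t = q := (act_rep r ht a2).resolve_left (a.2.2 t ht)
    have e2 : d f1 = d f := hd.1 _ _ fun s hs => by
      have := congrFun r s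
      rw [rep_mem hs, rep_mem hs, cl, cl, if_neg (a.2.2 s hs), if_neg (a1.2.2 s hs)] at this
      exact this.symm
    rw [coeff_sub, coeff_X_mul', e2, htq]
    split_ifs with h
    · rw [coeff_divMonomial, add_tsub_cancel_of_le (Finsupp.single_le_iff.2
        (Nat.one_le_iff_ne_zero.2 (Finsupp.mem_support_iff.1 h))), sub_self]
    · rw [hv f e ⟨a, mem_zs.2 (show e (f t) = 0 by rw [htq]; simpa using h)⟩, sub_zero]
  · obtain ⟨D, hD, k1, k2⟩ := piece Q hd f1 e1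
    obtain ⟨g, hg, h⟩ := caseA Q hpq ht hD fun f e _ b => k2 f e fun r r' =>
      hv f e ⟨yo_pas hp hq hop hoq subset_rfl r r' a1, mem_zs.2 b⟩
    exact ⟨g, hg, fun f e _ r r' => by
      rw [coeff_sub, ← k1 f e r r', h f (act_rep r ht a2), sub_self]⟩

theorem l6_cls (Q : QApi Λ y p q) (hp : p ∈ N) (hq : q ∈ N) {E : Finset Λ} {o : P}
    (hoq : o ≠ q) (hE : E ⊆ L) {u : Am P Λ Y} (hu : u ∈ Qk y p q L 0) (hv : Van (Yo N L o E) u)
    (f0 : Λ → P) : ∃ g ∈ Qk y p q L 0, ∀ f, All N L f → (∀ s ∈ E, f s ≠ o) →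
      rep p q L f = f0 → u f = X o * g f := by
  by_cases h0 : ∃ f1, All N L f1 ∧ rep p q L f1 = f0
  swap
  · exact ⟨0, zero_mem _, fun f a _ b => (h0 ⟨f, a, b⟩).elim⟩
  obtain ⟨f1, a1, a2⟩ := h0
  obtain ⟨D, hD, h⟩ := cut Q hu fun f _ => f = f0
  obtain ⟨g, hg, e1⟩ := Q.divx _ 0 _ o (Q.msub L (E.filter fun s => f0 s = cl p q o) 0 D q hD)
    fun f e he => by
      set f' := mv (E.filter fun s => f0 s = cl p q o) q f with hf'
      by_cases r : rep p q L f' = f0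
      · rw [(h f' e).1 r]
        refine hv f' e ⟨all_rep hp hq (r.trans a2.symm) a1, mem_zs.2 he, fun s hs b => ?_⟩
        have hs' : s ∈ E.filter fun s => f0 s = cl p q o :=
          mem_filter.2 ⟨hs, by rw [← r, rep_mem (hE hs)]; exact congrArg _ b⟩
        exact hoq (b.symm.trans (mv_mem q f hs'))
      · exact (h f' e).2 r
  refine ⟨g, Q.mono _ _ 0 0 sdiff_subset le_rfl hg, fun f a b r => ?_⟩
  have e2 : mv (E.filter fun s => f0 s = cl p q o) q f = f := mv_eq fun s hs => by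
    obtain ⟨h1, h2⟩ := mem_filter.1 hs
    rw [← r, rep_mem (hE h1)] at h2
    by_cases hop : o = p
    · rw [hop, (cl_q (p := p) (q := q)).2 (Or.inl rfl), cl_q] at h2
      exact h2.resolve_left (hop ▸ b s h1)
    · rw [(cl_pas hop hoq).2 rfl, cl_pas hop hoq] at h2
      exact (b s h1 h2).elim
  have e3 := congrFun e1 f
  simp only [e2, Pi.smul_apply, smul_eq_mul] at e3
  rw [← e3]
  ext e
  exact ((h f e).1 r).symm

end PL56Aux

open PL56Aux

theorem l5 : S_L5 := by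
  intro P Λ Y _ _ _ _ _ _ y N p q hy hpq hp hq Q L E t o c _ hoq hE ht htE d hd hv
  have hd' := Q.rr L d hd
  refine main_glue Q hp hq ht _ _ (fun a ha => ha.1.1) (fun r h1 h2 => ?_) fun f1 e1 a1 a2 =>
    l5_act Q hpq (hy.ne hpq) hp hq hoq hE ht htE hd' hv a1 a2
  obtain ⟨g, hg, h⟩ := pas Q hd' h1 h2
  exact ⟨bt y t o * g, Q.mul L 0 0 _ _ (Q.rr L _ (bt_mem ht o)) hg, fun f e he hf =>
    coeff_bt (h f e fun h0 => hv f e ⟨he, mem_zs.2 (show e (f t) = 0 by rwa [hf])⟩)⟩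

theorem l6 : S_L6 := by
  intro P Λ Y _ _ _ _ _ _ y N p q _ hpq hp hq Q
  refine ⟨fun L t o _ hoq ht d hd hv => ?_, fun L E o hoq hE u hu hv => ?_⟩
  · have hd' := Q.rr L d hd
    refine main_glue Q hp hq ht _ _ (fun a ha => ha.1) (fun r h1 h2 => ?_) fun f1 e1 a1 a2 =>
      l6_act Q hpq hp hq hoq ht hd' hv a1 a2
    obtain ⟨g, hg, h⟩ := pas Q hd' h1 h2
    exact ⟨g, hg, fun f e he hf => h f e fun h0 => hv f e ⟨he, mem_zs.2 (show e (f t) = 0 by rwa [hf])⟩⟩
  · choose g hg h using l6_cls Q hp hq hoq hE (Q.rr L u hu) hv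
    obtain ⟨v, hv', h5⟩ := Q.glue L 0 (fun f0 _ => g f0) fun f _ => hg f
    obtain ⟨G, hG, r, hr, h6⟩ := Q.clear N L v hp hq hv'
    refine ⟨G, hG, r, hr, fun f a b => ?_⟩
    have : v f = g (rep p q L f) f := MvPolynomial.ext _ _ (h5 f)
    rw [← h6 f a, this, h _ f a b rfl]
    ring

end

end Pool.Agent.P.MP_c2aaf5_co
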