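import Pool.Agent.P.MP_c2aaf5_co.DefP

/-! The local distributivity statement `LD`. -/

set_option linter.unusedSectionVars false

namespace Pool.Agent.P.MP_c2aaf5_co

open MvPolynomial Finset

noncomputable section

namespace PLDAux

variable {P Λ Y : Type} [Fintype P] [DecidableEq P] [Fintype Λ] [DecidableEq Λ] [CommRing Y]

theorem coeff_keep (c : (P →₀ ℕ) → Prop) [DecidablePred c] (g : MvPolynomial P Y) (e : P →₀ ℕ) :
    coeff e (keep c g) = if c e then coeff e g else 0 := by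
  classical
  rw [keep, coeff_sum]
  simp only [coeff_monomial]
  rw [Finset.sum_ite_eq']
  by_cases h : c e
  · by_cases h2 : e ∈ g.support
    · simp [h, h2]
    · rw [if_neg (fun h3 => h2 (Finset.mem_filter.1 h3).1), if_pos h, notMem_support_iff.1 h2]
  · simp [h]

theorem mem_zs {e : P →₀ ℕ} {r : P} : r ∈ zs e ↔ e r = 0 := by simp [zs]

theorem coeff_X_mul_zero {e : P →₀ ℕ} {r : P} (h : e r = 0) (g : MvPolynomial P Y) :
    coeff e (X r * g) = 0 := by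
  classical
  rw [coeff_X_mul', if_neg]
  simp [h]

/-- `f` avoids `j` before time `k` -/
def No (L : Finset Λ) (rl : Λ → ℕ) (j : P) (f : Λ → P) (k : ℕ) : Prop :=
  ∀ s ∈ L, rl s < k → f s ≠ j

theorem No.total (L : Finset Λ) (rl : Λ → ℕ) (j : P) (f f' : Λ → P) :
    (∀ k, No L rl j f k → No L rl j f' k) ∨ ∀ k, No L rl j f' k → No L rl j f k := by
  by_contra h
  push Not at h
  obtain ⟨⟨k, h1, h2⟩, k', h3, h4⟩ := h
  rcases le_total k k' with hk | hk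
  · exact h2 fun s hs hl => h3 s hs (lt_of_lt_of_le hl hk)
  · exact h4 fun s hs hl => h1 s hs (lt_of_lt_of_le hl hk)

/-- the labels of one piece -/
def Pc (p q : P) (L : Finset Λ) (f0 : Λ → P) (T' : Finset P) : Set (Lab P Λ) :=
  {a | rep p q L a.2 = f0 ∧ (a.1.erase p).erase q = T'}

theorem cl_of_rep {p q : P} {L : Finset Λ} {f f0 : Λ → P} (h : rep p q L f = f0) {s : Λ}
    (hs : s ∈ L) : cl p q (f s) = f0 s := by
  rw [← h, rep, if_pos hs]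

theorem cl_eq_q {p q r : P} : cl p q r = q ↔ r = p ∨ r = q := by
  unfold cl
  split_ifs with h <;> simp [h]

theorem cl_eq {p q r j : P} (hq : j ≠ q) (hp : j ≠ p) : cl p q r = j ↔ r = j := by
  unfold cl
  split_ifs with h
  · subst h
    exact ⟨fun h => absurd h.symm hq, fun h => absurd h.symm hp⟩
  · rfl

theorem ind_le {A B C D A' B' C' D' R R' : Prop} [Decidable (A ∧ R ∧ B)] [Decidable (C ∧ R' ∧ D)]
    [Decidable (A' ∧ R ∧ B')] [Decidable (C' ∧ R' ∧ D')] (h1 : A → B → A' ∧ B')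
    (h2 : C → D → (A' ∧ B') ∨ (C' ∧ D')) (h3 : A → B → C → D → C' ∧ D') (h4 : R' → R) :
    ((if A ∧ R ∧ B then 1 else 0) + if C ∧ R' ∧ D then 1 else 0 : ℕ) ≤
      (if A' ∧ R ∧ B' then 1 else 0) + if C' ∧ R' ∧ D' then 1 else 0 := by
  split_ifs <;> first | omega | (exfalso; tauto)

theorem up_of {N : Finset P} {L : Finset Λ} {rk : P → ℕ} {rl : Λ → ℕ} {p q : P} (hpq : p ≠ q)
    (hp : p ∈ N) (hq : q ∈ N) (hrk : rk p < rk q) {S : Set (Lab P Λ)} (hS : Up N L rk rl S)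
    {f0 : Λ → P} {T' : Finset P} {a b : Lab P Λ} (ha : a ∈ Pc p q L f0 T') (hb : b ∈ Pc p q L f0 T')
    (haS : a ∈ S)
    (h1 : ∀ k, p ∈ a.1 → No L rl p a.2 k → p ∈ b.1 ∧ No L rl p b.2 k)
    (h2 : ∀ k, q ∈ a.1 → No L rl q a.2 k →
      (p ∈ b.1 ∧ No L rl p b.2 k) ∨ (q ∈ b.1 ∧ No L rl q b.2 k))
    (h3 : ∀ k, p ∈ a.1 → No L rl p a.2 k → q ∈ a.1 → No L rl q a.2 k →
      q ∈ b.1 ∧ No L rl q b.2 k) : b ∈ S := by
  classical
  have hT : ∀ j, j ≠ p → j ≠ q → (j ∈ a.1 ↔ j ∈ b.1) := by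
    intro j j1 j2
    have := Finset.ext_iff.1 (ha.2.trans hb.2.symm) j
    simpa [j1, j2] using this
  have hf : ∀ j, j ≠ p → j ≠ q → ∀ s ∈ L, (a.2 s = j ↔ b.2 s = j) := by
    intro j j1 j2 s hs
    rw [← cl_eq j2 j1, cl_of_rep ha.1 hs, ← cl_of_rep hb.1 hs, cl_eq j2 j1]
  refine hS.2 a haS b ?_ ⟨fun r k => ?_, fun j hj hN => ?_⟩
  · intro s hs
    by_cases e1 : b.2 s = p
    · rwa [e1]
    by_cases e2 : b.2 s = q
    · rwa [e2]
    rw [← (hf _ e1 e2 s hs).2 rfl]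
    exact hS.1 a haS s hs
  · have hq' : q ∈ N.erase p := Finset.mem_erase.2 ⟨hpq.symm, hq⟩
    unfold rho
    rw [Finset.card_filter, Finset.card_filter, ← Finset.add_sum_erase _ _ hp,
      ← Finset.add_sum_erase _ _ hp, ← Finset.add_sum_erase _ _ hq',
      ← Finset.add_sum_erase _ _ hq', ← add_assoc, ← add_assoc]
    refine add_le_add ?_ (le_of_eq (Finset.sum_congr rfl fun j hj => ?_))
    · exact ind_le (h1 k) (h2 k) (h3 k) fun h => lt_trans hrk h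
    · have j2 := (Finset.mem_erase.1 hj).1
      have j1 := (Finset.mem_erase.1 (Finset.mem_erase.1 hj).2).1
      refine if_congr (and_congr (hT j j1 j2) (and_congr Iff.rfl ?_)) rfl rfl
      exact forall_congr' fun s => forall_congr' fun hs => forall_congr' fun _ =>
        not_congr (hf j j1 j2 s hs)
  · exact (hT j (fun h => hN (h ▸ hp)) fun h => hN (h ▸ hq)).1 hj

/-- the order structure of a set of labels on two chains -/
structure Str (L : Finset Λ) (rl : Λ → ℕ) (p q : P) (cI cJ S : Set (Lab P Λ)) : Prop where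
  ii : ∀ a ∈ cI, ∀ b ∈ cI, a ∈ S → (∀ k, No L rl p a.2 k → No L rl p b.2 k) → b ∈ S
  jj : ∀ a ∈ cJ, ∀ b ∈ cJ, a ∈ S → (∀ k, No L rl q a.2 k → No L rl q b.2 k) → b ∈ S
  ji : ∀ a ∈ cJ, a ∈ S → ∃ b ∈ cI, b ∈ S ∧ ∀ s, a.2 s = q → b.2 s = p

theorem van_mono {A B : Set (Lab P Λ)} (h : A ⊆ B) {v : Am P Λ Y} (hv : Van B v) : Van A v :=
  fun f e ha => hv f e (h ha)

/-- the crossed case -/
theorem cross {L U : Finset Λ} {rl : Λ → ℕ} {p q : P} {cI cJ S S' : Set (Lab P Λ)}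
    (Q : Submodule (MvPolynomial P Y) (Am P Λ Y)) {u : Am P Λ Y} (hu : u ∈ Q)
    (hS' : Str L rl p q cI cJ S') (hU : ∀ a ∈ cI, ∀ s ∈ L, a.2 s = p → s ∈ U)
    (alg : ∀ E ⊆ U, (∀ s ∈ U, (∀ b ∈ cI, b.2 s ≠ p) → s ∈ E) →
      Van (cI ∩ {a | ∀ s ∈ E, a.2 s ≠ p}) u →
      ∃ r ∈ Q, Van cI r ∧ Van (cJ ∩ {a | ∀ s ∈ E, a.2 s ≠ q}) (u - r))
    (hv : Van (S ∩ S') u) (h1 : cI ∩ S' ⊆ S) (h2 : cJ ∩ S ⊆ S') :
    ∃ g ∈ Q, Van ((cI ∪ cJ) ∩ S) (u - g) ∧ Van ((cI ∪ cJ) ∩ S') g := by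
  classical
  by_cases hne : (cI ∩ S').Nonempty
  swap
  · refine ⟨u, hu, fun f e _ => by simp, fun f e ha => ?_⟩
    rcases ha.1 with h | h
    · exact absurd ⟨_, h, ha.2⟩ hne
    · obtain ⟨b, b1, b2, -⟩ := hS'.ji _ h ha.2
      exact absurd ⟨_, b1, b2⟩ hne
  set E := U.filter fun s => ∀ b ∈ cI ∩ S', b.2 s ≠ p with hE
  have c1 : cI ∩ {a | ∀ s ∈ E, a.2 s ≠ p} ⊆ S' := by
    rintro a ⟨aI, aE⟩
    by_cases hex : (L.filter fun s => a.2 s = p).Nonempty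
    · obtain ⟨s0, hs0, hmin⟩ := Finset.exists_min_image _ rl hex
      obtain ⟨s1, s2⟩ := Finset.mem_filter.1 hs0
      have : ¬ ∀ b ∈ cI ∩ S', b.2 s0 ≠ p := fun h =>
        aE s0 (Finset.mem_filter.2 ⟨hU a aI s0 s1 s2, h⟩) s2
      push Not at this
      obtain ⟨b, hb, hbp⟩ := this
      refine hS'.ii b hb.1 a aI hb.2 fun k hk s hs hl hsp => ?_
      exact hk s0 s1 (lt_of_le_of_lt (hmin s (Finset.mem_filter.2 ⟨hs, hsp⟩)) hl) hbp
    · obtain ⟨b, hb⟩ := hne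
      exact hS'.ii b hb.1 a aI hb.2 fun k _ s hs _ hsp => hex ⟨s, Finset.mem_filter.2 ⟨hs, hsp⟩⟩
  have c2 : cJ ∩ S' ⊆ cJ ∩ {a | ∀ s ∈ E, a.2 s ≠ q} := by
    rintro a ⟨aJ, aS⟩
    obtain ⟨b, b1, b2, b3⟩ := hS'.ji a aJ aS
    exact ⟨aJ, fun s hs hq => (Finset.mem_filter.1 hs).2 b ⟨b1, b2⟩ (b3 s hq)⟩
  obtain ⟨r, rQ, r1, r2⟩ := alg E (Finset.filter_subset _ _)
    (fun s hs h => Finset.mem_filter.2 ⟨hs, fun b hb => h b hb.1⟩)
    (van_mono (fun a ha => Set.mem_inter (h1 ⟨ha.1, c1 ha⟩) (c1 ha)) hv)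
  refine ⟨u - r, Q.sub_mem hu rQ, fun f e ha => ?_, fun f e ha => ?_⟩
  · rw [sub_sub_cancel]
    rcases ha.1 with h | h
    · exact r1 f e h
    · have e1 := r2 f e (c2 ⟨h, h2 ⟨h, ha.2⟩⟩)
      have e2 := hv f e ⟨ha.2, h2 ⟨h, ha.2⟩⟩
      rw [Pi.sub_apply, coeff_sub, e2] at e1
      simpa using e1
  · rcases ha.1 with h | h
    · rw [Pi.sub_apply, coeff_sub, r1 f e h, hv f e ⟨h1 ⟨h, ha.2⟩, ha.2⟩, sub_zero]
    · exact r2 f e (c2 ⟨h, ha.2⟩)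

theorem nested {L : Finset Λ} {rl : Λ → ℕ} {j : P} {c S S' : Set (Lab P Λ)}
    (h : ∀ a ∈ c, ∀ b ∈ c, a ∈ S → (∀ k, No L rl j a.2 k → No L rl j b.2 k) → b ∈ S)
    (h' : ∀ a ∈ c, ∀ b ∈ c, a ∈ S' → (∀ k, No L rl j a.2 k → No L rl j b.2 k) → b ∈ S') :
    c ∩ S ⊆ S' ∨ c ∩ S' ⊆ S := by
  by_contra hc
  rw [not_or, Set.not_subset, Set.not_subset] at hc
  obtain ⟨⟨a, a1, a2⟩, b, b1, b2⟩ := hc
  rcases No.total L rl j a.2 b.2 with e | e
  · exact b2 (h a a1.1 b b1.1 a1.2 e)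
  · exact a2 (h' b b1.1 a a1.1 b1.2 e)

theorem comb {L U : Finset Λ} {rl : Λ → ℕ} {p q : P} {cI cJ S S' : Set (Lab P Λ)}
    (Q : Submodule (MvPolynomial P Y) (Am P Λ Y)) {u : Am P Λ Y} (hu : u ∈ Q)
    (hS : Str L rl p q cI cJ S) (hS' : Str L rl p q cI cJ S')
    (hU : ∀ a ∈ cI, ∀ s ∈ L, a.2 s = p → s ∈ U)
    (alg : ∀ E ⊆ U, (∀ s ∈ U, (∀ b ∈ cI, b.2 s ≠ p) → s ∈ E) →
      Van (cI ∩ {a | ∀ s ∈ E, a.2 s ≠ p}) u →
      ∃ r ∈ Q, Van cI r ∧ Van (cJ ∩ {a | ∀ s ∈ E, a.2 s ≠ q}) (u - r))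
    (hv : Van (S ∩ S') u) :
    ∃ g ∈ Q, Van ((cI ∪ cJ) ∩ S) (u - g) ∧ Van ((cI ∪ cJ) ∩ S') g := by
  rcases nested hS.ii hS'.ii with i | i <;> rcases nested hS.jj hS'.jj with j | j
  · refine ⟨0, Q.zero_mem, fun f e ha => ?_, fun f e _ => by simp⟩
    rw [sub_zero]
    exact hv f e ⟨ha.2, ha.1.elim (fun h => i ⟨h, ha.2⟩) fun h => j ⟨h, ha.2⟩⟩
  · obtain ⟨g, gQ, g1, g2⟩ := cross Q hu hS hU alg (S := S') (by rwa [Set.inter_comm]) i j
    exact ⟨u - g, Q.sub_mem hu gQ, by rwa [sub_sub_cancel], g1⟩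
  · exact cross Q hu hS' hU alg hv i j
  · refine ⟨u, hu, fun f e _ => by simp, fun f e ha => ?_⟩
    exact hv f e ⟨ha.1.elim (fun h => i ⟨h, ha.2⟩) fun h => j ⟨h, ha.2⟩, ha.2⟩

open Classical in
/-- cut an element to a piece -/
def cut (p q : P) (L : Finset Λ) (f0 : Λ → P) (T' : Finset P) (u : Am P Λ Y) : Am P Λ Y :=
  fun f => if rep p q L f = f0 then prj p q T' (u f) else 0

theorem cut_mem {y : P → Y} {p q : P} (Q : QApi Λ y p q) {L : Finset Λ} (f0 : Λ → P)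
    (T' : Finset P) {u : Am P Λ Y} (hu : u ∈ Qk y p q L 0) : cut p q L f0 T' u ∈ Qk y p q L 0 := by
  classical
  have h1 : (fun f => if rep p q L f = f0 then 1 else 0 : Am P Λ Y) ∈ Qk y p q L 0 := by
    refine Q.cls L 0 _ (fun f f' h => ?_) fun f => by simp
    have : rep p q L f = rep p q L f' := by
      funext s
      unfold rep
      split_ifs with hs
      exacts [h s hs, rfl]
    rw [this]
  have h2 := Q.mul L 0 0 _ _ h1 (Q.prj_mem L 0 u T' hu)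
  have e : cut p q L f0 T' u = (fun f => if rep p q L f = f0 then 1 else 0 : Am P Λ Y) *
      fun f => prj p q T' (u f) := by
    funext f
    simp only [cut, Pi.mul_apply]
    split_ifs <;> simp
  rw [e]
  exact h2

theorem coeff_cut_of {p q : P} {L : Finset Λ} {f0 : Λ → P} {T' : Finset P} (u : Am P Λ Y)
    {f : Λ → P} {e : P →₀ ℕ} (h : (zs e, f) ∈ Pc p q L f0 T') :
    coeff e (cut p q L f0 T' u f) = coeff e (u f) := by
  rw [cut, if_pos h.1, prj, coeff_keep, if_pos h.2]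

theorem coeff_cut_not {p q : P} {L : Finset Λ} {f0 : Λ → P} {T' : Finset P} (u : Am P Λ Y)
    {f : Λ → P} {e : P →₀ ℕ} (h : (zs e, f) ∉ Pc p q L f0 T') :
    coeff e (cut p q L f0 T' u f) = 0 := by
  rw [cut]
  split_ifs with h1
  · rw [prj, coeff_keep, if_neg fun h2 => h ⟨h1, h2⟩]
  · rfl

theorem mv_eq {p q : P} {L E : Finset Λ} {f0 f : Λ → P} (h : rep p q L f = f0)
    (hE : E ⊆ L.filter fun s => f0 s = q) (hf : ∀ s ∈ E, f s ≠ q) : mv E p f = f := by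
  funext s
  unfold mv
  split_ifs with hs
  · obtain ⟨s1, s2⟩ := Finset.mem_filter.1 (hE hs)
    rw [← cl_of_rep h s1, cl_eq_q] at s2
    exact (s2.resolve_right (hf s hs)).symm
  · rfl

theorem algA [IsDomain Y] {y : P → Y} {p q : P} (hy : y p ≠ y q) (Q : QApi Λ y p q)
    {L : Finset Λ} (E : Finset Λ) {v : Am P Λ Y} (hv : v ∈ Qk y p q L 0)
    (h1 : ∀ f (e : P →₀ ℕ), e p = 0 → coeff e (v (mv E q f)) = 0)
    (h2 : ∀ f (e : P →₀ ℕ), e p = 0 → e q = 0 → coeff e (v f) = 0) :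
    ∃ r ∈ Qk y p q L 0, (∀ f (e : P →₀ ℕ), e p = 0 → coeff e (r f) = 0) ∧
      ∀ f (e : P →₀ ℕ), e q = 0 → coeff e (r f) = coeff e (v (mv E p f)) := by
  obtain ⟨r0, r0Q, e0⟩ := Q.divx (L \ E) 0 _ p (Q.msub L E 0 v q hv) h1
  obtain ⟨k1, k1Q, k2, k2Q, e1⟩ := Q.split (L \ E) 0 _ (Q.mdq L E 0 v hv)
  have hk2 : ∀ f (e : P →₀ ℕ), e p = 0 → e q = 0 → coeff e (k2 f) = 0 := by
    intro f e ep eq
    have := congrArg (coeff e) (congrFun e1 f)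
    simp only [Pi.add_apply, Pi.smul_apply, smul_eq_mul, sub_mul, coeff_sub, coeff_add,
      coeff_X_mul_zero ep, coeff_X_mul_zero eq, h2 _ e ep eq, coeff_C_mul] at this
    have h3 : (y p - y q) * coeff e (k2 f) = 0 := by linear_combination -this
    exact (mul_eq_zero.1 h3).resolve_left (sub_ne_zero.2 hy)
  obtain ⟨v1, v1Q, v2, v2Q, e2⟩ := Q.lxx (L \ E) 0 k2 k2Q hk2
  refine ⟨(X p : MvPolynomial P Y) • (r0 + k1 + v1 + (C (y p - y q) : MvPolynomial P Y) • v2),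
    Q.mono _ _ _ _ Finset.sdiff_subset le_rfl (Submodule.smul_mem _ _ (Submodule.add_mem _
      (Submodule.add_mem _ (Submodule.add_mem _ r0Q k1Q) v1Q) (Submodule.smul_mem _ _ v2Q))),
    fun f e ep => coeff_X_mul_zero ep _, fun f e eq => ?_⟩
  have a0 := congrFun e0 f
  have a1 := congrFun e1 f
  have a2 := congrFun e2 f
  simp only [Pi.add_apply, Pi.smul_apply, smul_eq_mul] at a0 a1 a2 ⊢
  have : X p * (r0 f + k1 f + v1 f + C (y p - y q) * v2 f) =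
      v (mv E p f) + X q * (k1 f + v1 f) := by
    linear_combination -a0 - a1 - a2
  rw [this, coeff_add, coeff_X_mul_zero eq, add_zero]

theorem rep_swap (p q : P) (L : Finset Λ) (f : Λ → P) :
    rep p q L (fun s => Equiv.swap p q (f s)) = rep p q L f := by
  funext s
  simp only [rep]
  split_ifs
  · by_cases h1 : f s = p
    · rw [h1, Equiv.swap_apply_left, cl_eq_q.2 (Or.inl rfl), cl_eq_q.2 (Or.inr rfl)]
    by_cases h2 : f s = q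
    · rw [h2, Equiv.swap_apply_right, cl_eq_q.2 (Or.inl rfl), cl_eq_q.2 (Or.inr rfl)]
    rw [Equiv.swap_apply_of_ne_of_ne h1 h2]
  · rfl

theorem no_swap {L : Finset Λ} {rl : Λ → ℕ} {p q : P} {f : Λ → P} {k : ℕ} (h : No L rl q f k) :
    No L rl p (fun s => Equiv.swap p q (f s)) k := by
  intro s hs hl e
  refine h s hs hl ?_
  rwa [Equiv.swap_apply_eq_iff, Equiv.swap_apply_left] at e

theorem no_swap' {L : Finset Λ} {rl : Λ → ℕ} {p q : P} {f : Λ → P} {k : ℕ} (h : No L rl p f k) :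
    No L rl q (fun s => Equiv.swap p q (f s)) k := by
  intro s hs hl e
  refine h s hs hl ?_
  rwa [Equiv.swap_apply_eq_iff, Equiv.swap_apply_right] at e

theorem mem_U {p q : P} {L : Finset Λ} {f0 f : Λ → P} (h : rep p q L f = f0) {s : Λ} (hs : s ∈ L)
    (e : f s = p ∨ f s = q) : s ∈ L.filter fun s => f0 s = q :=
  Finset.mem_filter.2 ⟨hs, by rw [← cl_of_rep h hs]; exact cl_eq_q.2 e⟩

section piece
variable [IsDomain Y] {y : P → Y} {N : Finset P} {p q : P} (hy : y p ≠ y q) (hpq : p ≠ q)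
  (hp : p ∈ N) (hq : q ∈ N) (Q : QApi Λ y p q) {L : Finset Λ} {rk : P → ℕ} {rl : Λ → ℕ}
  (hrk : rk p < rk q) {S S' : Set (Lab P Λ)} (hS : Up N L rk rl S) (hS' : Up N L rk rl S')
  {u : Am P Λ Y} (hu : u ∈ Qk y p q L 0) (hv : Van (S ∩ S') u) (f0 : Λ → P) (T' : Finset P)

include hpq hp hq hrk hS in
theorem strA : Str L rl p q {a | a ∈ Pc p q L f0 T' ∧ p ∈ a.1 ∧ q ∉ a.1}
    {a | a ∈ Pc p q L f0 T' ∧ q ∈ a.1 ∧ p ∉ a.1} S where
  ii a ha b hb aS h := up_of hpq hp hq hrk hS ha.1 hb.1 aS (fun k _ hk => ⟨hb.2.1, h k hk⟩)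
    (fun _ h1 => absurd h1 ha.2.2) fun _ _ _ h1 => absurd h1 ha.2.2
  jj a ha b hb aS h := up_of hpq hp hq hrk hS ha.1 hb.1 aS (fun _ h1 => absurd h1 ha.2.2)
    (fun k _ hk => Or.inr ⟨hb.2.1, h k hk⟩) fun _ h1 => absurd h1 ha.2.2
  ji a ha aS := by
    have hb : ((insert p (a.1.erase q), fun s => Equiv.swap p q (a.2 s)) : Lab P Λ) ∈
        Pc p q L f0 T' := by
      refine ⟨(rep_swap p q L a.2).trans ha.1.1, Eq.trans ?_ ha.1.2⟩
      ext j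
      simp only [Finset.mem_erase, Finset.mem_insert]
      tauto
    refine ⟨_, ⟨hb, Finset.mem_insert_self _ _, by simp [hpq.symm]⟩, ?_, fun s hs => by simp [hs]⟩
    exact up_of hpq hp hq hrk hS ha.1 hb aS (fun _ h1 => absurd h1 ha.2.2)
      (fun k _ hk => Or.inl ⟨Finset.mem_insert_self _ _, no_swap hk⟩) fun _ h1 => absurd h1 ha.2.2

include hy hpq hp hq Q hrk hS hS' hu hv in
theorem pieceA : ∃ g ∈ Qk y p q L 0,
    Van ({a | a ∈ Pc p q L f0 T' ∧ ¬ (p ∈ a.1 ∧ q ∈ a.1)} ∩ S) (u - g) ∧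
    Van ({a | a ∈ Pc p q L f0 T' ∧ ¬ (p ∈ a.1 ∧ q ∈ a.1)} ∩ S') g := by
  have key : ∀ S, Up N L rk rl S → (∃ a ∈ S, a ∈ Pc p q L f0 T' ∧ p ∉ a.1 ∧ q ∉ a.1) →
      Pc p q L f0 T' ⊆ S := by
    rintro S hS ⟨a, aS, a1, a2, a3⟩ b hb
    exact up_of hpq hp hq hrk hS a1 hb aS (fun _ h => absurd h a2) (fun _ h => absurd h a3)
      fun _ h => absurd h a2
  by_cases o1 : ∃ a ∈ S, a ∈ Pc p q L f0 T' ∧ p ∉ a.1 ∧ q ∉ a.1
  · exact ⟨u, hu, fun f e _ => by simp, fun f e ha => hv f e ⟨key S hS o1 ha.1.1, ha.2⟩⟩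
  by_cases o2 : ∃ a ∈ S', a ∈ Pc p q L f0 T' ∧ p ∉ a.1 ∧ q ∉ a.1
  · refine ⟨0, Submodule.zero_mem _, fun f e ha => ?_, fun f e _ => by simp⟩
    rw [sub_zero]
    exact hv f e ⟨ha.2, key S' hS' o2 ha.1.1⟩
  obtain ⟨g, gQ, g1, g2⟩ := comb (U := L.filter fun s => f0 s = q) (Qk y p q L 0) hu
    (strA hpq hp hq hrk hS f0 T') (strA hpq hp hq hrk hS' f0 T')
    (fun a ha s hs e => mem_U ha.1.1 hs (Or.inl e)) (by
      intro E hE _ hvan
      have c := cut_mem Q f0 T' hu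
      have cf : ∀ f (e : P →₀ ℕ), coeff e ((cut p q L f0 T' u -
          fun f => prz p q (cut p q L f0 T' u f)) f) =
          if e p = 0 ∧ e q = 0 then 0 else coeff e (cut p q L f0 T' u f) := by
        intro f e
        rw [Pi.sub_apply, coeff_sub, prz, coeff_keep]
        split_ifs <;> simp
      obtain ⟨r, rQ, r1, r2⟩ := algA hy Q E (Submodule.sub_mem _ c (Q.prz_mem L 0 _ c))
        (fun f e ep => by
          rw [cf]
          split_ifs with h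
          · rfl
          by_cases hm : (zs e, mv E q f) ∈ Pc p q L f0 T'
          · rw [coeff_cut_of u hm]
            refine hvan _ e ⟨⟨hm, mem_zs.2 ep, fun h' => h ⟨ep, mem_zs.1 h'⟩⟩, fun s hs => ?_⟩
            simp [mv, hs, hpq.symm]
          · exact coeff_cut_not u hm)
        (fun f e ep eq => by rw [cf, if_pos ⟨ep, eq⟩])
      refine ⟨r, rQ, fun f e ha => r1 f e (mem_zs.1 ha.2.1), fun f e ha => ?_⟩
      rw [Pi.sub_apply, coeff_sub, r2 f e (mem_zs.1 ha.1.2.1), mv_eq ha.1.1.1 hE ha.2, cf,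
        if_neg fun h => ha.1.2.2 (mem_zs.2 h.1), coeff_cut_of u ha.1.1, sub_self]) hv
  refine ⟨g, gQ, van_mono (fun a ha => Set.mem_inter ?_ ha.2) g1,
    van_mono (fun a ha => Set.mem_inter ?_ ha.2) g2⟩
  · have h1 : ¬ (p ∉ a.1 ∧ q ∉ a.1) := fun h => o1 ⟨a, ha.2, ha.1.1, h⟩
    have h2 := ha.1.2
    have h3 := ha.1.1
    simp only [Set.mem_union, Set.mem_ofPred_eq]
    tauto
  · have h1 : ¬ (p ∉ a.1 ∧ q ∉ a.1) := fun h => o2 ⟨a, ha.2, ha.1.1, h⟩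
    have h2 := ha.1.2
    have h3 := ha.1.1
    simp only [Set.mem_union, Set.mem_ofPred_eq]
    tauto

include hpq hp hq hrk hS in
theorem strB {s0 : Λ} (hs0 : s0 ∈ L) (hmin : ∀ s ∈ L.filter fun s => f0 s = q, rl s0 ≤ rl s) :
    Str L rl p q {a | a ∈ Pc p q L f0 T' ∧ p ∈ a.1 ∧ q ∈ a.1 ∧ a.2 s0 = q}
    {a | a ∈ Pc p q L f0 T' ∧ p ∈ a.1 ∧ q ∈ a.1 ∧ a.2 s0 = p} S := by
  have early : ∀ (j j' : P) (f : Λ → P) (b : Lab P Λ) (k : ℕ), f s0 = j → No L rl j f k →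
      b ∈ Pc p q L f0 T' → (j' = p ∨ j' = q) → No L rl j' b.2 k := by
    intro j j' f b k e h hb hj s hs hl e'
    exact h s0 hs0 (lt_of_le_of_lt (hmin s (mem_U hb.1 hs (e' ▸ hj))) hl) e
  refine ⟨fun a ha b hb aS h => ?_, fun a ha b hb aS h => ?_, fun a ha aS => ?_⟩
  · exact up_of hpq hp hq hrk hS ha.1 hb.1 aS (fun k _ hk => ⟨hb.2.1, h k hk⟩)
      (fun k _ hk => Or.inr ⟨hb.2.2.1, early q q _ b k ha.2.2.2 hk hb.1 (Or.inr rfl)⟩)
      fun k _ _ _ hk => ⟨hb.2.2.1, early q q _ b k ha.2.2.2 hk hb.1 (Or.inr rfl)⟩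
  · exact up_of hpq hp hq hrk hS ha.1 hb.1 aS
      (fun k _ hk => ⟨hb.2.1, early p p _ b k ha.2.2.2 hk hb.1 (Or.inl rfl)⟩)
      (fun k _ hk => Or.inr ⟨hb.2.2.1, h k hk⟩) fun k _ _ _ hk => ⟨hb.2.2.1, h k hk⟩
  · have hb : ((a.1, fun s => Equiv.swap p q (a.2 s)) : Lab P Λ) ∈ Pc p q L f0 T' :=
      ⟨(rep_swap p q L a.2).trans ha.1.1, ha.1.2⟩
    refine ⟨_, ⟨hb, ha.2.1, ha.2.2.1, by simp [ha.2.2.2]⟩, ?_, fun s hs => by simp [hs]⟩
    exact up_of hpq hp hq hrk hS ha.1 hb aS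
      (fun k _ hk => ⟨ha.2.1, early p p _ _ k ha.2.2.2 hk hb (Or.inl rfl)⟩)
      (fun k _ hk => Or.inl ⟨ha.2.1, no_swap hk⟩) fun k _ hk _ _ => ⟨ha.2.2.1, no_swap' hk⟩

include hpq hp hq Q hrk hS hS' hu hv in
theorem pieceB : ∃ g ∈ Qk y p q L 0,
    Van ({a | a ∈ Pc p q L f0 T' ∧ p ∈ a.1 ∧ q ∈ a.1} ∩ S) (u - g) ∧
    Van ({a | a ∈ Pc p q L f0 T' ∧ p ∈ a.1 ∧ q ∈ a.1} ∩ S') g := by
  by_cases hU : (L.filter fun s => f0 s = q).Nonempty
  swap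
  · have key : ∀ a ∈ S, a ∈ Pc p q L f0 T' → ∀ b ∈ Pc p q L f0 T', p ∈ b.1 → q ∈ b.1 → b ∈ S := by
      intro a aS ha b hb b1 b2
      have n : ∀ j k, (j = p ∨ j = q) → No L rl j b.2 k := fun j k hj s hs _ e =>
        hU ⟨s, mem_U hb.1 hs (e ▸ hj)⟩
      exact up_of hpq hp hq hrk hS ha hb aS (fun k _ _ => ⟨b1, n p k (Or.inl rfl)⟩)
        (fun k _ _ => Or.inl ⟨b1, n p k (Or.inl rfl)⟩) fun k _ _ _ _ => ⟨b2, n q k (Or.inr rfl)⟩
    by_cases o1 : ∃ a ∈ S, a ∈ Pc p q L f0 T'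
    · obtain ⟨a, a1, a2⟩ := o1
      exact ⟨u, hu, fun f e _ => by simp,
        fun f e ha => hv f e ⟨key a a1 a2 _ ha.1.1 ha.1.2.1 ha.1.2.2, ha.2⟩⟩
    · exact ⟨0, Submodule.zero_mem _, fun f e ha => absurd ⟨_, ha.2, ha.1.1⟩ o1,
        fun f e _ => by simp⟩
  obtain ⟨s0, hs0, hmin⟩ := Finset.exists_min_image _ rl hU
  have hL := (Finset.mem_filter.1 hs0).1
  obtain ⟨g, gQ, g1, g2⟩ := comb (U := L.filter fun s => f0 s = q) (Qk y p q L 0) hu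
    (strB hpq hp hq hrk hS f0 T' hL hmin) (strB hpq hp hq hrk hS' f0 T' hL hmin)
    (fun a ha s hs e => mem_U ha.1.1 hs (Or.inl e)) (by
      intro E hE hin hvan
      have h0 : s0 ∈ E := hin s0 hs0 fun b hb e => hpq (e.symm.trans hb.2.2.2)
      have c := Q.prz_mem L 0 _ (cut_mem Q f0 T' hu)
      have z : ∀ f, prz p q (cut p q L f0 T' u (mv E q f)) = 0 := by
        intro f
        ext e
        rw [prz, coeff_keep, coeff_zero]
        split_ifs with h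
        · by_cases hm : (zs e, mv E q f) ∈ Pc p q L f0 T'
          · rw [coeff_cut_of u hm]
            refine hvan _ e ⟨⟨hm, mem_zs.2 h.1, mem_zs.2 h.2, by simp [mv, h0]⟩, fun s hs => ?_⟩
            simp [mv, hs, hpq.symm]
          · exact coeff_cut_not u hm
        · rfl
      have d := Q.mono (L \ E) (L.erase s0) 1 1 (fun s hs => Finset.mem_erase.2
        ⟨fun e => (Finset.mem_sdiff.1 hs).2 (e ▸ h0), (Finset.mem_sdiff.1 hs).1⟩) le_rfl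
        (Q.mdq L E 0 _ c)
      refine ⟨_, Q.es L 0 _ s0 p hL d, fun f e ha => ?_, fun f e ha => ?_⟩
      · have : f s0 ≠ p := fun e => hpq (e.symm.trans ha.2.2.2)
        simp only [if_neg this, coeff_zero]
      · have : f s0 = p := ha.1.2.2.2
        simp only [Pi.sub_apply, if_pos this, z, sub_zero]
        rw [coeff_sub, mv_eq ha.1.1.1 hE ha.2, prz, coeff_keep,
          if_pos ⟨mem_zs.1 ha.1.2.1, mem_zs.1 ha.1.2.2.1⟩, coeff_cut_of u ha.1.1, sub_self]) hv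
  have sub : ∀ a : Lab P Λ, a ∈ Pc p q L f0 T' ∧ p ∈ a.1 ∧ q ∈ a.1 →
      a ∈ {a : Lab P Λ | a ∈ Pc p q L f0 T' ∧ p ∈ a.1 ∧ q ∈ a.1 ∧ a.2 s0 = q} ∪
        {a | a ∈ Pc p q L f0 T' ∧ p ∈ a.1 ∧ q ∈ a.1 ∧ a.2 s0 = p} := by
    intro a ha
    have := (Finset.mem_filter.1 hs0).2
    rw [← cl_of_rep ha.1.1 hL, cl_eq_q] at this
    rcases this with h | h
    · exact Or.inr ⟨ha.1, ha.2.1, ha.2.2, h⟩
    · exact Or.inl ⟨ha.1, ha.2.1, ha.2.2, h⟩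
  exact ⟨g, gQ, van_mono (fun a ha => Set.mem_inter (sub a ha.1) ha.2) g1,
    van_mono (fun a ha => Set.mem_inter (sub a ha.1) ha.2) g2⟩

include hy hpq hp hq Q hrk hS hS' hu hv in
theorem piece : ∃ g ∈ Qk y p q L 0,
    Van (Pc p q L f0 T' ∩ S) (u - g) ∧ Van (Pc p q L f0 T' ∩ S') g := by
  obtain ⟨a, aQ, a1, a2⟩ := pieceA hy hpq hp hq Q hrk hS hS' hu hv f0 T'
  obtain ⟨b, bQ, b1, b2⟩ := pieceB hpq hp hq Q hrk hS hS' hu hv f0 T'
  have cf : ∀ f (e : P →₀ ℕ), coeff e ((a - (fun f => prz p q (a f)) + fun f => prz p q (b f)) f) =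
      if p ∈ zs e ∧ q ∈ zs e then coeff e (b f) else coeff e (a f) := by
    intro f e
    simp only [Pi.add_apply, Pi.sub_apply, coeff_add, coeff_sub, prz, coeff_keep, mem_zs]
    split_ifs <;> simp
  refine ⟨a - (fun f => prz p q (a f)) + fun f => prz p q (b f), Submodule.add_mem _
    (Submodule.sub_mem _ aQ (Q.prz_mem L 0 _ aQ)) (Q.prz_mem L 0 _ bQ), fun f e h => ?_,
    fun f e h => ?_⟩
  · rw [Pi.sub_apply, coeff_sub, cf]
    split_ifs with hb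
    · simpa using b1 f e ⟨⟨h.1, hb⟩, h.2⟩
    · simpa using a1 f e ⟨⟨h.1, hb⟩, h.2⟩
  · rw [cf]
    split_ifs with hb
    · exact b2 f e ⟨⟨h.1, hb⟩, h.2⟩
    · exact a2 f e ⟨⟨h.1, hb⟩, h.2⟩

end piece

end PLDAux

theorem ld : S_LD := by
  intro P Λ Y _ _ _ _ _ _ y N p q hy hpq hp hq Q L rk rl _ hrk S S' hS hS' u hu hv
  choose g gQ g1 g2 using fun f0 T' => PLDAux.piece (fun h => hpq (hy h)) hpq hp hq Q hrk hS hS'
    (Q.rr L u hu) hv f0 T'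
  obtain ⟨v, vQ, hvc⟩ := Q.glue L 0 g gQ
  obtain ⟨G, hG, u1, hu1, hc⟩ := Q.clear N L v hp hq vQ
  refine ⟨G, hG, u1, hu1, fun f e ha => ?_, fun f e ha => ?_⟩
  · have h1 := g1 (rep p q L f) (((zs e).erase p).erase q) f e ⟨⟨rfl, rfl⟩, ha⟩
    rw [Pi.sub_apply, coeff_sub, ← hvc] at h1
    rw [Pi.sub_apply, Pi.smul_apply, smul_eq_mul, ← hc f (hS.1 _ ha), coeff_sub, coeff_C_mul,
      coeff_C_mul, ← mul_sub, h1, mul_zero]
  · rw [← hc f (hS'.1 _ ha), coeff_C_mul, hvc,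
      g2 (rep p q L f) (((zs e).erase p).erase q) f e ⟨⟨rfl, rfl⟩, ha⟩, mul_zero]

end

end Pool.Agent.P.MP_c2aaf5_co
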