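import Pool.Agent.P.MP_c2aaf5_co.Car

/-! Koszul and linear algebra packages: definitions and statements. -/

set_option linter.unusedSectionVars false

namespace Pool.Agent.P.MP_c2aaf5_co

open Finset

section
variable {σ : Type} [LinearOrder σ] {X : Type} [AddCommGroup X] {K : Type} [CommRing K] [Module K X]

/-- `c • A` -/
def Sc (c : K) (A : AddSubgroup X) : AddSubgroup X := A.map (DistribSMul.toAddMonoidHom X c)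

/-- `∑ s ∈ U, z s • A` -/
def Sm (U : Finset σ) (z : σ → K) (A : AddSubgroup X) : AddSubgroup X := ⨆ s ∈ U, Sc (z s) A

/-- exactness of the wedge complex -/
def Hw (U : Finset σ) (ξ : σ → K) (A0 A1 B1 B2 : AddSubgroup X) : Prop :=
  (∀ φ : Finset σ → X, Val U 0 A1 φ → In B2 (wd U ξ φ) → In B1 φ) ∧
  ∀ (p : ℕ) (φ : Finset σ → X), Val U (p + 1) A1 φ → In B2 (wd U ξ φ) →
    ∃ ψ : Finset σ → X, Val U p A0 ψ ∧ In B1 (φ - wd U ξ ψ)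

/-- alternating functions on tuples -/
def Alt {p : ℕ} (Ψ : (Fin p → σ) → X) : Prop :=
  (∀ (τ : Equiv.Perm (Fin p)) i, Ψ (i ∘ τ) = (Equiv.Perm.sign τ : ℤ) • Ψ i) ∧
    ∀ i, ¬Function.Injective i → Ψ i = 0

/-- wedge on tuples -/
def tw {p : ℕ} (ξ : σ → K) (Ψ : (Fin p → σ) → X) (i : Fin (p + 1) → σ) : X :=
  ∑ k : Fin (p + 1), ((-1 : ℤ) ^ (k : ℕ)) • ξ (i k) • Ψ (fun r => i (k.succAbove r))

/-- contraction on tuples -/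
def td [Fintype σ] {p : ℕ} (ξ : σ → K) (Ψ : (Fin (p + 1) → σ) → X) (i : Fin p → σ) : X :=
  ∑ s, ξ s • Ψ (Fin.cons s i)

end

/-- shape of the Koszul packages -/
def KPkg (F : ∀ {σ : Type} [LinearOrder σ] {K : Type} [CommRing K] (X : Type) [AddCommGroup X]
    [Module K X], Finset σ → (σ → K) → Prop) : Prop :=
  ∀ (σ K X : Type) [LinearOrder σ] [CommRing K] [AddCommGroup X] [Module K X] (U : Finset σ)
    (ξ : σ → K), F X U ξ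

def S_Ext : Prop := KPkg fun X _ _ U ξ => ∀ A A' B : ℕ → AddSubgroup X,
  (∀ j, B j ≤ A' j) → (∀ j, A' j ≤ A j) → Stab U ξ A → Reg0 U ξ A A' → Reg0 U ξ A' B → Reg0 U ξ A B

def S_Tors : Prop := KPkg fun X _ _ U ξ => ∀ A Z B : ℕ → AddSubgroup X,
  (∀ j, Z j ≤ A j) → Stab U ξ Z → Reg0 U ξ A B → (∃ e, ∀ j, e ≤ j → Z j ≤ B j) →
  ∀ j, Z (j + 1) ≤ B (j + 1)

def S_KFext : Prop := KPkg fun X _ _ U ξ => ∀ A A' B : AddSubgroup X,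
  B ≤ A' → A' ≤ A → Stab0 U ξ A → KF U ξ A A' → KF U ξ A' B → KF U ξ A B

def S_KFker : Prop := KPkg fun X _ _ U ξ => ∀ A A' B : AddSubgroup X,
  B ≤ A' → A' ≤ A → Stab0 U ξ A → Stab0 U ξ A' → KF U ξ A B → KF U ξ A A' → KF U ξ A' B

def S_KFcor : Prop := KPkg fun {_} _ {K} _ X _ _ U ξ => ∀ (X' : Type) [AddCommGroup X'] [Module K X']
  (A B : AddSubgroup X) (A' B' : AddSubgroup X') (Γ : AddSubgroup (X × X')), Stab0 U ξ Γ →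
  (∀ g ∈ Γ, g.1 ∈ A ∧ g.2 ∈ A' ∧ (g.1 ∈ B ↔ g.2 ∈ B')) → (∀ a ∈ A, ∃ a', (a, a') ∈ Γ) →
  (∀ a' ∈ A', ∃ a, (a, a') ∈ Γ) → KF U ξ A B → KF U ξ A' B'

/-- regular families have exact Koszul complexes -/
def S_KReg : Prop := KPkg fun X _ _ U ξ => ∀ A B : AddSubgroup X,
  B ≤ A → Stab0 U ξ A → Stab0 U ξ B →
  (∀ U' ⊆ U, ∀ t ∈ U, t ∉ U' → ∀ g ∈ A, ξ t • g ∈ B ⊔ Sm U' ξ A → g ∈ B ⊔ Sm U' ξ A) →
  KF U ξ A B

def S_Star : Prop := KPkg fun X _ _ U ξ => ∀ A0 A1 B1 B2 : AddSubgroup X,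
  (∀ p, Hv U ξ p A0 A1 B1 B2) ↔ Hw U ξ A0 A1 B1 B2

def S_StepZ : Prop := KPkg fun {_} _ {K} _ X _ _ U ξ => ∀ (A B : ℕ → AddSubgroup X) (z : K),
  (∀ j, B j ≤ A j) → Stab U ξ A → Stab U ξ B → (∀ j, ∀ v ∈ A j, z • v ∈ A j) →
  (∀ j, ∀ v ∈ B j, z • v ∈ B j) → Reg0 U ξ A B →
  (∃ e, ∀ j, e ≤ j → ∀ v ∈ A j, z • v ∈ B j → v ∈ B j) →
  Reg0 U ξ A (fun j => B j ⊔ Sc z (A j)) ∧ Reg0 U ξ (fun j => B j ⊔ Sc z (A j)) B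

def S_StepPhi : Prop := KPkg fun {σ} _ {K} _ X _ _ U ξ => ∀ (A B : ℕ → AddSubgroup X) (φ : σ → K),
  (∀ j, B j ≤ A j) → Stab U ξ A → Stab U ξ B → (∀ j, Stab0 U φ (A j)) → (∀ j, Stab0 U φ (B j)) →
  ∑ s ∈ U, φ s * ξ s = 0 → Reg0 U ξ A B →
  (∃ e, ∀ j, e ≤ j → ∀ (i : ℕ) (ψ : Finset σ → X), Val U (i + 1) (A (j + 1)) ψ →
    (∃ χ, In (A j) χ ∧ In (B (j + 1)) (dd U φ ψ - wd U ξ χ)) →
    ∃ ω χ', Val U (i + 2) (A (j + 1)) ω ∧ In (A j) χ' ∧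
      In (B (j + 1)) (ψ - dd U φ ω - wd U ξ χ')) →
  Reg0 U ξ A (fun j => B j ⊔ Sm U φ (A j)) ∧ Reg0 U ξ (fun j => B j ⊔ Sm U φ (A j)) B

/-- removing superfluous variables -/
def S_Remove : Prop := ∀ (σ τ K X : Type) [LinearOrder σ] [Fintype σ] [LinearOrder τ] [Fintype τ]
  [CommRing K] [AddCommGroup X] [Module K X] (e : τ ↪o σ) (ξ : σ → K) (m : σ → τ → K)
  (A0 A1 B1 B2 : AddSubgroup X) (p : ℕ), (∀ v, v ∉ Set.range e → ξ v = ∑ t, m v t * ξ (e t)) →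
  (∀ v t, ∀ g ∈ A0, m v t • g ∈ A0) → (∀ v t, ∀ g ∈ B1, m v t • g ∈ B1) →
  Hv univ ξ p A0 A1 B1 B2 → Hv univ (ξ ∘ e) p A0 A1 B1 B2

def S_TupW : Prop := ∀ (σ K X : Type) [LinearOrder σ] [Fintype σ] [CommRing K] [AddCommGroup X]
  [Module K X] (ξ : σ → K) (A0 A1 : AddSubgroup X), (∀ v ∈ A1, (∀ s, ξ s • v = 0) → v = 0) →
  (∀ (p : ℕ) (Ψ : (Fin (p + 1) → σ) → X), Alt Ψ → (∀ i, Ψ i ∈ A1) → (∀ i, tw ξ Ψ i = 0) →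
    ∃ Φ : (Fin p → σ) → X, Alt Φ ∧ (∀ i, Φ i ∈ A0) ∧ ∀ i, Ψ i = tw ξ Φ i) →
  Hw univ ξ A0 A1 ⊥ ⊥

def S_TupD : Prop := ∀ (σ K X : Type) [LinearOrder σ] [Fintype σ] [CommRing K] [AddCommGroup X]
  [Module K X] (ξ : σ → K) (A : AddSubgroup X), KF univ ξ A ⊥ →
  ∀ (p : ℕ) (Ψ : (Fin (p + 1) → σ) → X), Alt Ψ → (∀ i, Ψ i ∈ A) → (∀ i, td ξ Ψ i = 0) →
    ∃ Φ : (Fin (p + 2) → σ) → X, Alt Φ ∧ (∀ i, Φ i ∈ A) ∧ ∀ i, Ψ i = td ξ Φ i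

/-! ### linear algebra of a system of symmetric forms -/

section
variable {τ : Type} [LinearOrder τ] [Fintype τ] {W : Type} [AddCommGroup W] [Module ℂ W]

/-- linear syzygies of the system of forms `β` -/
def Cyc (β : τ → W →ₗ[ℂ] W →ₗ[ℂ] ℂ) (φ : Finset τ → W) : Prop :=
  ∀ s t I, β t (an s φ I) + β s (an t φ I) = 0

/-- common kernel of the forms -/
def Kall (β : τ → W →ₗ[ℂ] W →ₗ[ℂ] ℂ) : Submodule ℂ W := ⨅ t, LinearMap.ker (β t)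

/-- exactness at the coordinate points -/
def ExAt (β : τ → W →ₗ[ℂ] W →ₗ[ℂ] ℂ) : Prop :=
  (∀ s w, β s w = 0 → ∃ ψ, Val univ 1 ⊤ ψ ∧ Cyc β ψ ∧ ψ {s} - w ∈ Kall β) ∧
  ∀ s p (φ : Finset τ → W), Val univ (p + 1) ⊤ φ → Cyc β φ → (∀ I, an s φ I ∈ Kall β) →
    ∃ ψ, Val univ (p + 2) ⊤ ψ ∧ Cyc β ψ ∧ ∀ I, an s ψ I - φ I ∈ Kall β

/-- the two statements that give the science fiction recursion -/
def SFc (β : τ → W →ₗ[ℂ] W →ₗ[ℂ] ℂ) : Prop :=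
  (∀ s i w, β s w = 0 → ∃ w', β i w = β s w') ∧
  ∀ (S : Finset τ) i w, i ∉ S → (∀ s ∈ S, ∃ w', β i w = β s w') →
    ∃ w'', (∀ s ∈ S, β s w'' = 0) ∧ β i w'' = β i w

/-- free generators of the exterior module -/
def Gens (β : τ → W →ₗ[ℂ] W →ₗ[ℂ] ℂ) {N : ℕ} (p : Fin N → ℕ) (φ : Fin N → Finset τ → W) : Prop :=
  (∀ i, Val univ (p i) ⊤ (φ i) ∧ Cyc β (φ i)) ∧
  (∀ w, ∃ c : Fin N → Finset τ → ℂ, w - ∑ i, ∑ I, c i I • φ i I ∈ Kall β) ∧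
  ∀ ζ : Fin N → τ → Finset τ → ℂ, (∀ i s I, ζ i s I ≠ 0 → I.card = p i ∧ ∀ t ∈ I, s < t) →
    ∑ i, ∑ s, ∑ I, ζ i s I • β s (φ i I) = 0 → ζ = 0

end

/-- a family of exact anticommuting operators of distinct weights generates a free module -/
def S_Free : Prop := ∀ (τ V : Type) [LinearOrder τ] [Fintype τ] [AddCommGroup V] [Module ℂ V]
  [FiniteDimensional ℂ V] (e : τ → V →ₗ[ℂ] V) (h : V →ₗ[ℂ] V) (d : τ → ℂ), Function.Injective d →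
  (∀ s t v, e s (e t v) = -e t (e s v)) → (∀ s v, h (e s v) = e s (h v) + d s • e s v) →
  (∀ s v, e s v = 0 → ∃ w, e s w = v) →
  (∀ (S : Finset τ) i v, i ∉ S → (∀ s ∈ S, e s v = 0) → e i v = 0 →
    ∃ w, (∀ s ∈ S, e s w = 0) ∧ e i w = v) ∧
  ∀ U : Submodule ℂ V, Disjoint U (⨆ s, LinearMap.range (e s)) → ∀ u : Finset τ → V,
    (∀ J, u J ∈ U) → ∑ J : Finset τ, (J.sort (· ≤ ·)).foldr (fun s v => e s v) (u J) = 0 → u = 0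

def S_LA : Prop := ∀ (τ W : Type) [LinearOrder τ] [Fintype τ] [AddCommGroup W] [Module ℂ W]
  (β : τ → W →ₗ[ℂ] W →ₗ[ℂ] ℂ) (h : W →ₗ[ℂ] W) (d : τ → ℂ), Function.Injective d →
  (∀ s f g, β s f g = β s g f) → (∀ s f g, β s (h f) g + β s f (h g) = d s * β s f g) →
  FiniteDimensional ℂ (W ⧸ Kall β) → ExAt β →
  SFc β ∧ ∃ (N : ℕ) (p : Fin N → ℕ) (φ : Fin N → Finset τ → W), Gens β p φ

end Pool.Agent.P.MP_c2aaf5_co
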