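import Pool.Agent.P.MP_c2aaf5_co.DefP
import Pool.Agent.P.MP_c2aaf5_co.DefK

/-! Package P1: the ideals `nn ^ a` and the base ring. -/

set_option linter.unusedSectionVars false

namespace Pool.Agent.P.MP_c2aaf5_co

open MvPolynomial Finset

namespace PNAux

variable {P Y : Type} [DecidableEq P] [CommRing Y]

/-- identify `p` with `q` -/
theorem sub_rename_mem (p q : P) (g : MvPolynomial P Y) :
    (X p - X q : MvPolynomial P Y) ∣ g - rename (cl p q) g := by
  induction g using MvPolynomial.induction_on with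
  | C a => simp
  | add g h hg hh =>
    rw [map_add, add_sub_add_comm]
    exact dvd_add hg hh
  | mul_X g i hg =>
    have h : (X p - X q : MvPolynomial P Y) ∣ X i - X (cl p q i) := by
      unfold cl
      split_ifs with h
      · rw [h]
      · simp
    rw [map_mul, rename_X]
    have e : g * X i - rename (cl p q) g * X (cl p q i) =
        (g - rename (cl p q) g) * X i + rename (cl p q) g * (X i - X (cl p q i)) := by ring
    rw [e]
    exact dvd_add (hg.mul_right _) (h.mul_left _)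

theorem rename_z (p q : P) : rename (cl p q) (X p - X q : MvPolynomial P Y) = 0 := by
  simp [cl]

theorem dvd_of_rename (p q : P) {g : MvPolynomial P Y} (h : rename (cl p q) g = 0) :
    (X p - X q : MvPolynomial P Y) ∣ g := by
  simpa [h] using sub_rename_mem p q g

theorem z_ne [Nontrivial Y] {p q : P} (h : p ≠ q) : (X p - X q : MvPolynomial P Y) ≠ 0 :=
  fun e => h (X_injective (sub_eq_zero.1 e))

section

variable [Fintype P] {y : P → Y} {p q : P}

theorem z_mem : (X p - X q : MvPolynomial P Y) ∈ nn y p q := Ideal.subset_span (by simp)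

theorem d_mem : (C (y p - y q) : MvPolynomial P Y) ∈ nn y p q := Ideal.subset_span (by simp)

theorem mul_mem_succ {a : ℕ} {c g : MvPolynomial P Y} (hc : c ∈ nn y p q) (hg : g ∈ nn y p q ^ a) :
    c * g ∈ nn y p q ^ (a + 1) := by
  rw [pow_succ']
  exact Ideal.mul_mem_mul hc hg

theorem dpow_mem (a : ℕ) (g : MvPolynomial P Y) : C (y p - y q) ^ a * g ∈ nn y p q ^ a :=
  Ideal.mul_mem_right _ _ (Ideal.pow_mem_pow d_mem a)

theorem decomp (a : ℕ) : ∀ g ∈ nn y p q ^ (a + 1), ∃ g1 ∈ nn y p q ^ a, ∃ g2,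
    g = (X p - X q) * g1 + C (y p - y q) ^ (a + 1) * g2 := by
  have step : ∀ (a : ℕ) (g : MvPolynomial P Y), g ∈ nn y p q ^ (a + 1) →
      ∃ g1 ∈ nn y p q ^ a, ∃ g2 ∈ nn y p q ^ a, g = (X p - X q) * g1 + C (y p - y q) * g2 := by
    intro a g hg
    rw [pow_succ'] at hg
    refine Submodule.mul_induction_on hg (fun m hm k hk => ?_) ?_
    · obtain ⟨u, v, rfl⟩ := Ideal.mem_span_pair.1 hm
      exact ⟨u * k, Ideal.mul_mem_left _ _ hk, v * k, Ideal.mul_mem_left _ _ hk, by ring⟩
    · rintro _ _ ⟨g1, h1, g2, h2, rfl⟩ ⟨k1, h3, k2, h4, rfl⟩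
      exact ⟨g1 + k1, Ideal.add_mem _ h1 h3, g2 + k2, Ideal.add_mem _ h2 h4, by ring⟩
  induction a with
  | zero =>
    intro g hg
    obtain ⟨g1, h1, g2, -, rfl⟩ := step 0 g hg
    exact ⟨g1, h1, g2, by ring⟩
  | succ a ih =>
    intro g hg
    obtain ⟨g1, h1, g2, h2, rfl⟩ := step _ g hg
    obtain ⟨k1, h3, k2, rfl⟩ := ih g2 h2
    exact ⟨g1 + C (y p - y q) * k1, Ideal.add_mem _ h1 (mul_mem_succ d_mem h3), k2, by ring⟩

theorem decomp' (a : ℕ) (g : MvPolynomial P Y) (hg : g ∈ nn y p q ^ a) :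
    ∃ g1 g2, C (y p - y q) * g1 ∈ nn y p q ^ a ∧
      g = (X p - X q) * g1 + C (y p - y q) ^ a * g2 := by
  cases a with
  | zero => exact ⟨0, g, by simp, by simp⟩
  | succ a =>
    obtain ⟨g1, h1, g2, e⟩ := decomp a g hg
    exact ⟨g1, g2, mul_mem_succ d_mem h1, e⟩

theorem divx [IsDomain Y] (hpq : p ≠ q) (hy : y p ≠ y q) (r : P) (a : ℕ) :
    ∀ g : MvPolynomial P Y, X r * g ∈ nn y p q ^ a → g ∈ nn y p q ^ a := by
  have hd : (C (y p - y q) : MvPolynomial P Y) ≠ 0 := by
    rw [Ne, C_eq_zero]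
    exact sub_ne_zero.2 hy
  induction a with
  | zero => simp
  | succ a ih =>
    intro g hg
    obtain ⟨g1, h1, g2, e⟩ := decomp a _ hg
    have e1 := congrArg (rename (cl p q)) e
    rw [map_mul, map_add, map_mul, map_mul, rename_z, zero_mul, zero_add, rename_X, map_pow,
      rename_C, ← map_pow] at e1
    obtain ⟨h, eh⟩ : C ((y p - y q) ^ (a + 1)) ∣ rename (cl p q) g := by
      rw [C_dvd_iff_dvd_coeff]
      intro m
      rw [← coeff_X_mul m (cl p q r), e1, coeff_C_mul]
      exact dvd_mul_right _ _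
    obtain ⟨k, ek⟩ := sub_rename_mem p q g
    rw [eh, map_pow] at ek
    have e2 : (X p - X q) * (X r * k - g1) = C (y p - y q) ^ (a + 1) * (g2 - X r * h) := by
      linear_combination e - X r * ek
    have e3 := congrArg (rename (cl p q)) e2
    rw [map_mul, rename_z, zero_mul, map_mul, map_pow, rename_C] at e3
    obtain ⟨m, em⟩ := dvd_of_rename p q
      ((mul_eq_zero.1 e3.symm).resolve_left (pow_ne_zero _ hd))
    rw [em, mul_left_comm] at e2
    have e4 := mul_left_cancel₀ (z_ne hpq) e2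
    have hk : k ∈ nn y p q ^ a := by
      refine ih k ?_
      rw [eq_add_of_sub_eq e4, pow_succ, mul_assoc]
      exact Ideal.add_mem _ (dpow_mem _ _) h1
    rw [eq_add_of_sub_eq ek]
    exact Ideal.add_mem _ (mul_mem_succ z_mem hk) (dpow_mem _ _)

theorem coeff_z_mul {e : P →₀ ℕ} (h1 : e p = 0) (h2 : e q = 0) (g : MvPolynomial P Y) :
    coeff e ((X p - X q) * g) = 0 := by
  simp [sub_mul, coeff_X_mul', h1, h2]

theorem lxx [IsDomain Y] (hy : y p ≠ y q) (a : ℕ) (g : MvPolynomial P Y) (hg : g ∈ nn y p q ^ a)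
    (h0 : ∀ e : P →₀ ℕ, e p = 0 → e q = 0 → coeff e g = 0) :
    ∃ g1 ∈ nn y p q ^ a, ∃ g2 ∈ nn y p q ^ a,
      C (y p - y q) * g = (X p - X q) * g1 + X p * C (y p - y q) * g2 := by
  obtain ⟨g1, g2, h1, e⟩ := decomp' a g hg
  have h2 : g2 ∈ Ideal.span (X '' ({p, q} : Set P) : Set (MvPolynomial P Y)) := by
    rw [mem_ideal_span_X_image]
    intro m hm
    by_contra hn
    push Not at hn
    have k := h0 m (hn p (by simp)) (hn q (by simp))
    rw [e, coeff_add, coeff_z_mul (hn p (by simp)) (hn q (by simp)), zero_add, ← map_pow,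
      coeff_C_mul] at k
    exact mem_support_iff.1 hm
      ((mul_eq_zero.1 k).resolve_left (pow_ne_zero _ (sub_ne_zero.2 hy)))
  rw [Set.image_pair] at h2
  obtain ⟨u, v, rfl⟩ := Ideal.mem_span_pair.1 h2
  refine ⟨C (y p - y q) * g1 - C (y p - y q) ^ a * (C (y p - y q) * v),
    Ideal.sub_mem _ h1 (dpow_mem _ _), C (y p - y q) ^ a * (u + v), dpow_mem _ _, ?_⟩
  rw [e]
  ring

theorem coeff_keep (c : (P →₀ ℕ) → Prop) [DecidablePred c] (g : MvPolynomial P Y) (e : P →₀ ℕ) :
    coeff e (keep c g) = if c e then coeff e g else 0 := by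
  rw [keep, coeff_sum]
  simp only [coeff_monomial, sum_ite_eq', mem_filter, mem_support_iff]
  by_cases h : c e <;> by_cases h' : coeff e g = 0 <;> simp [h, h']

theorem keep_add (c : (P →₀ ℕ) → Prop) [DecidablePred c] (g h : MvPolynomial P Y) :
    keep c (g + h) = keep c g + keep c h := by
  ext e
  simp only [coeff_keep, coeff_add]
  split_ifs <;> simp

theorem keep_sub (c : (P →₀ ℕ) → Prop) [DecidablePred c] (g h : MvPolynomial P Y) :
    keep c (g - h) = keep c g - keep c h := by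
  ext e
  simp only [coeff_keep, coeff_sub]
  split_ifs <;> simp

theorem keep_C_mul (c : (P →₀ ℕ) → Prop) [DecidablePred c] (d : Y) (g : MvPolynomial P Y) :
    keep c (C d * g) = C d * keep c g := by
  ext e
  simp only [coeff_keep, coeff_C_mul]
  split_ifs <;> simp

theorem keep_X_mul (c : (P →₀ ℕ) → Prop) [DecidablePred c] (r : P)
    (h : ∀ e, c (e - Finsupp.single r 1) ↔ c e) (g : MvPolynomial P Y) :
    keep c (X r * g) = X r * keep c g := by
  ext e
  simp only [coeff_keep, coeff_X_mul', h]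
  split_ifs <;> rfl

theorem prj_mem (T' : Finset P) (a : ℕ) :
    ∀ g ∈ nn y p q ^ a, prj p q T' g ∈ nn y p q ^ a := by
  have h : ∀ r, r = p ∨ r = q → ∀ e : P →₀ ℕ,
      ((zs (e - Finsupp.single r 1)).erase p).erase q = T' ↔ ((zs e).erase p).erase q = T' := by
    intro r hr e
    have : ((zs (e - Finsupp.single r 1)).erase p).erase q = ((zs e).erase p).erase q := by
      ext i
      simp only [zs, mem_erase, mem_filter, mem_univ, true_and, Finsupp.tsub_apply]
      refine and_congr_right fun h1 => and_congr_right fun h2 => ?_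
      rw [Finsupp.single_eq_of_ne (by rcases hr with rfl | rfl <;> assumption), Nat.sub_zero]
    rw [this]
  induction a with
  | zero => simp
  | succ a ih =>
    intro g hg
    obtain ⟨g1, h1, g2, rfl⟩ := decomp a g hg
    rw [prj, keep_add, sub_mul, keep_sub, keep_X_mul _ p (h p (Or.inl rfl)),
      keep_X_mul _ q (h q (Or.inr rfl)), ← sub_mul, ← map_pow, keep_C_mul, map_pow]
    exact Ideal.add_mem _ (mul_mem_succ z_mem (ih g1 h1)) (dpow_mem _ _)

theorem prz_mem (a : ℕ) (g : MvPolynomial P Y) (hg : g ∈ nn y p q ^ a) :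
    prz p q g ∈ nn y p q ^ a := by
  obtain ⟨g1, g2, -, rfl⟩ := decomp' a g hg
  have : keep (fun e : P →₀ ℕ => e p = 0 ∧ e q = 0) ((X p - X q) * g1) = 0 := by
    ext e
    rw [coeff_keep]
    split_ifs with h
    · exact coeff_z_mul h.1 h.2 _
    · rfl
  rw [prz, keep_add, this, zero_add, ← map_pow, keep_C_mul, map_pow]
  exact dpow_mem _ _

end

theorem rename_mult_ne [IsDomain Y] {r s : P} {N : Finset P} {G : MvPolynomial P Y}
    (hG : G ∈ Mult (X : P → MvPolynomial P Y) N r s) : rename (cl r s) G ≠ 0 := by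
  induction hG using Submonoid.closure_induction with
  | one => simp
  | mul a b _ _ ha hb =>
    rw [map_mul]
    exact mul_ne_zero ha hb
  | mem g hg =>
    obtain ⟨i, -, j, -, h1, h2, h3, rfl⟩ := hg
    rw [map_sub, rename_X, rename_X]
    refine z_ne ?_
    unfold cl
    split_ifs with k1 k2 k2
    · exact fun _ => h1 (k1.trans k2.symm)
    · exact fun k => h2 ⟨k1, k.symm⟩
    · exact fun k => h3 ⟨k, k2⟩
    · exact h1

theorem base_X [Fintype P] [IsDomain Y] : Base (X : P → MvPolynomial P Y) where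
  inj := X_injective
  amb D hD := by
    induction hD using Submonoid.closure_induction_left with
    | one => exact fun a _ => one_dvd a
    | mul_left d hd D _ ih =>
      obtain ⟨r, s, hrs, rfl⟩ := hd
      intro a ha
      obtain ⟨G, hG, k, hk⟩ := ha r s
      have e := congrArg (rename (cl r s)) hk
      rw [map_mul, map_mul, map_mul, rename_z, zero_mul, zero_mul] at e
      obtain ⟨a', rfl⟩ := dvd_of_rename r s
        ((mul_eq_zero.1 e).resolve_left (rename_mult_ne hG))
      refine mul_dvd_mul_left _ (ih a' fun p q => ?_)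
      obtain ⟨G', hG', h⟩ := ha p q
      rw [mul_left_comm] at h
      exact ⟨G', hG', (mul_dvd_mul_iff_left (z_ne hrs)).1 h⟩

theorem mem_Sm {σ K : Type} [LinearOrder σ] [CommRing K] (U : Finset σ) (ξ : σ → K) (g : K) :
    g ∈ Sm U ξ (⊤ : AddSubgroup K) ↔ g ∈ Ideal.span (ξ '' (U : Set σ)) := by
  constructor
  · intro h
    have : Sm U ξ (⊤ : AddSubgroup K) ≤ (Ideal.span (ξ '' (U : Set σ))).toAddSubgroup := by
      refine iSup₂_le fun s hs => ?_
      rintro _ ⟨v, -, rfl⟩
      exact Ideal.mul_mem_right v _ (Ideal.subset_span ⟨s, hs, rfl⟩)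
    exact this h
  · intro h
    obtain ⟨c, rfl⟩ := (Submodule.mem_span_image_finset_iff_exists_fun K).1 h
    refine AddSubgroup.sum_mem _ fun s _ => ?_
    have : Sc (ξ s) (⊤ : AddSubgroup K) ≤ Sm U ξ ⊤ :=
      le_iSup₂ (f := fun s (_ : s ∈ U) => Sc (ξ s) (⊤ : AddSubgroup K)) s.1 s.2
    exact this ⟨c s, trivial, mul_comm _ _⟩

end PNAux

theorem nApi : S_N := fun _ _ _ _ _ _ _ _ _ hpq hy =>
  ⟨fun r a => PNAux.divx hpq hy r a, PNAux.lxx hy, PNAux.prj_mem, PNAux.prz_mem⟩

theorem base (hK : S_KReg) : S_Base := by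
  intro n
  refine ⟨PNAux.base_X, hK _ _ _ _ _ ⊤ ⊥ bot_le (fun _ _ _ _ => trivial) ?_ ?_⟩
  · intro s _ v hv
    rw [AddSubgroup.mem_bot] at hv ⊢
    rw [hv, smul_zero]
  · intro U _ t _ ht g _ hg
    rw [bot_sup_eq, PNAux.mem_Sm, mem_ideal_span_X_image] at hg ⊢
    intro m hm
    obtain ⟨i, hi, h⟩ := hg (Finsupp.single t 1 + m) (by
      rw [mem_support_iff, smul_eq_mul, coeff_X_mul]
      exact mem_support_iff.1 hm)
    refine ⟨i, hi, ?_⟩
    rwa [Finsupp.add_apply, Finsupp.single_eq_of_ne (by rintro rfl; exact ht hi), zero_add] at h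

end Pool.Agent.P.MP_c2aaf5_co
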