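import Pool.Agent.P.MP_c2aaf5_co.DefP

/-! Package P2: the interface of the local model. -/

set_option linter.unusedSectionVars false

namespace Pool.Agent.P.MP_c2aaf5_co

open MvPolynomial Finset

noncomputable section

namespace PQAux

variable {P Λ Y : Type} [Fintype P] [DecidableEq P] [Fintype Λ] [DecidableEq Λ] [CommRing Y]
  {y : P → Y} {p q : P}

/-- substitution of one index -/
def upd (s : Λ) (r : P) (v : Am P Λ Y) : Am P Λ Y := fun f => v (Function.update f s r)

theorem mem_Qk {L : Finset Λ} {k : ℕ} {v : Am P Λ Y} : v ∈ Qk y p q L k ↔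
    Meas L v ∧ ∀ l : List Λ, l.Nodup → (∀ s ∈ l, s ∈ L) → ∀ f,
      l.foldr (Dq p q) v f ∈ nn y p q ^ (l.length + k) := Iff.rfl

theorem Dq_comm (s t : Λ) (v : Am P Λ Y) : Dq p q s (Dq p q t v) = Dq p q t (Dq p q s v) := by
  by_cases h : s = t
  · rw [h]
  · funext f
    simp only [Dq]
    rw [Function.update_comm h p p f, Function.update_comm h p q f, Function.update_comm h q p f,
      Function.update_comm h q q f]
    ring

theorem D_erase {s : Λ} {l : List Λ} (h : s ∈ l) (v : Am P Λ Y) :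
    l.foldr (Dq p q) v = (l.erase s).foldr (Dq p q) (Dq p q s v) := by
  haveI : LeftCommutative (Dq p q : Λ → Am P Λ Y → Am P Λ Y) := ⟨fun a b v => Dq_comm a b v⟩
  have hp : l.Perm (l.erase s ++ [s]) :=
    (List.perm_cons_erase h).trans (List.perm_append_singleton s _).symm
  rw [hp.foldr_eq, List.foldr_append]
  rfl

theorem D_zero (l : List Λ) : l.foldr (Dq p q) (0 : Am P Λ Y) = 0 := by
  have := foldr_Dq_smul p q l (0 : MvPolynomial P Y) (0 : Am P Λ Y)
  rwa [zero_smul, zero_smul] at this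

theorem D_upd {s : Λ} (r : P) {l : List Λ} (h : s ∉ l) (v : Am P Λ Y) :
    l.foldr (Dq p q) (upd s r v) = upd s r (l.foldr (Dq p q) v) := by
  induction l with
  | nil => rfl
  | cons t l ih =>
    have h1 : s ≠ t := fun e => h (by simp [e])
    have h2 : s ∉ l := fun e => h (by simp [e])
    funext f
    simp only [List.foldr_cons, ih h2, Dq, upd]
    rw [Function.update_comm h1.symm, Function.update_comm h1.symm]

theorem D_map (φ : MvPolynomial P Y → MvPolynomial P Y) (hφ : ∀ a b, φ (a - b) = φ a - φ b)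
    (l : List Λ) (v : Am P Λ Y) :
    l.foldr (Dq p q) (fun f => φ (v f)) = fun f => φ (l.foldr (Dq p q) v f) := by
  induction l with
  | nil => rfl
  | cons t l ih => funext f; simp only [List.foldr_cons, ih, Dq, hφ]

theorem meas_upd {L : Finset Λ} {v : Am P Λ Y} (h : Meas L v) (s : Λ) (r : P) :
    Meas (L.erase s) (upd s r v) := by
  intro f f' hf
  apply h
  intro t ht
  by_cases e : t = s
  · subst e; simp
  · simp [e, hf t (mem_erase.mpr ⟨e, ht⟩)]

theorem meas_Dq {L : Finset Λ} {v : Am P Λ Y} (h : Meas L v) (s : Λ) :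
    Meas (L.erase s) (Dq p q s v) := by
  intro f f' hf
  have h1 := meas_upd h s p f f' hf
  have h2 := meas_upd h s q f f' hf
  simp only [upd] at h1 h2
  simp only [Dq, h1, h2]

theorem upd_eq {L : Finset Λ} {v : Am P Λ Y} (h : Meas L v) {s : Λ} (hs : s ∉ L) (f : Λ → P)
    (r : P) : v (Function.update f s r) = v f := by
  apply h
  intro t ht
  have : t ≠ s := fun e => hs (e ▸ ht)
  simp [this]

theorem val {L : Finset Λ} {k : ℕ} {v : Am P Λ Y} (h : v ∈ Qk y p q L k) (f : Λ → P) :
    v f ∈ nn y p q ^ k := by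
  simpa using h.2 [] List.nodup_nil (by simp) f

theorem sub {L : Finset Λ} {k : ℕ} {v : Am P Λ Y} (h : v ∈ Qk y p q L k) (s : Λ) (r : P) :
    upd s r v ∈ Qk y p q (L.erase s) k := by
  refine ⟨meas_upd h.1 s r, fun l hl hL f => ?_⟩
  have hs : s ∉ l := fun e => by simpa using hL s e
  rw [D_upd r hs]
  exact h.2 l hl (fun t ht => mem_of_mem_erase (hL t ht)) _

theorem dq {L : Finset Λ} {k : ℕ} {v : Am P Λ Y} (h : v ∈ Qk y p q L k) (s : Λ) :
    Dq p q s v ∈ Qk y p q (L.erase s) (k + 1) := by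
  by_cases hsL : s ∈ L
  · refine ⟨meas_Dq h.1 s, fun l hl hL f => ?_⟩
    have hs : s ∉ l := fun e => by simpa using hL s e
    have := h.2 (l ++ [s]) (by
      rw [List.nodup_append]
      refine ⟨hl, List.nodup_singleton s, ?_⟩
      intro a ha b hb e
      rw [List.mem_singleton] at hb
      exact hs (hb ▸ e ▸ ha)) (by
      intro t ht
      rcases List.mem_append.mp ht with h1 | h1
      · exact mem_of_mem_erase (hL t h1)
      · rw [List.mem_singleton] at h1; exact h1 ▸ hsL) f
    rw [List.foldr_append] at this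
    have e : (l ++ [s]).length + k = l.length + (k + 1) := by simp; omega
    rw [e] at this
    exact this
  · have : Dq p q s v = 0 := by
      funext f; simp [Dq, upd_eq h.1 hsL]
    rw [this]; exact Submodule.zero_mem _

theorem asm {L : Finset Λ} {k : ℕ} {v : Am P Λ Y} {s : Λ} (hm : Meas L v)
    (h1 : ∀ r, upd s r v ∈ Qk y p q (L.erase s) k)
    (h2 : Dq p q s v ∈ Qk y p q (L.erase s) (k + 1)) : v ∈ Qk y p q L k := by
  refine ⟨hm, fun l hl hL f => ?_⟩
  by_cases hs : s ∈ l
  · rw [D_erase hs]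
    have := h2.2 (l.erase s) (hl.erase s) (fun t ht => by
      rw [hl.mem_erase_iff] at ht
      exact mem_erase.mpr ⟨ht.1, hL t ht.2⟩) f
    have e : (l.erase s).length + (k + 1) = l.length + k := by
      have := List.length_erase_add_one hs
      omega
    rwa [e] at this
  · have := (h1 (f s)).2 l hl (fun t ht => mem_erase.mpr ⟨fun e => hs (e ▸ ht), hL t ht⟩) f
    rw [D_upd _ hs] at this
    simpa [upd] using this

theorem mono {L L' : Finset Λ} {k k' : ℕ} (hL : L ⊆ L') (hk : k' ≤ k) {v : Am P Λ Y}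
    (h : v ∈ Qk y p q L k) : v ∈ Qk y p q L' k' := by
  refine ⟨fun f f' hf => h.1 f f' fun s hs => hf s (hL hs), fun l hl _ f => ?_⟩
  by_cases hall : ∀ s ∈ l, s ∈ L
  · exact Ideal.pow_le_pow_right (by omega) (h.2 l hl hall f)
  · push Not at hall
    obtain ⟨s, hs, hsL⟩ := hall
    have : Dq p q s v = 0 := by
      funext f; simp [Dq, upd_eq h.1 hsL]
    rw [D_erase hs, this, D_zero]
    exact Ideal.zero_mem _

theorem cls {L : Finset Λ} {k : ℕ} {v : Am P Λ Y}
    (h1 : ∀ f f', (∀ s ∈ L, cl p q (f s) = cl p q (f' s)) → v f = v f')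
    (h2 : ∀ f, v f ∈ nn y p q ^ k) : v ∈ Qk y p q L k := by
  refine ⟨fun f f' hf => h1 f f' fun s hs => by rw [hf s hs], fun l _ _ f => ?_⟩
  cases l with
  | nil => simpa using h2 f
  | cons s l =>
    have : Dq p q s v = 0 := by
      funext f
      simp only [Dq, Pi.zero_apply]
      rw [h1 (Function.update f s p) (Function.update f s q), sub_self]
      intro t _
      by_cases e : t = s
      · subst e; simp [cl]
      · simp [e]
    rw [D_erase (List.mem_cons_self), this, D_zero]
    exact Ideal.zero_mem _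

theorem const {L : Finset Λ} {k : ℕ} {c : MvPolynomial P Y} (h : c ∈ nn y p q ^ k) :
    (fun _ => c : Am P Λ Y) ∈ Qk y p q L k := cls (fun _ _ _ => rfl) fun _ => h

theorem mul (L : Finset Λ) : ∀ (k k' : ℕ) (v w : Am P Λ Y), v ∈ Qk y p q L k →
    w ∈ Qk y p q L k' → v * w ∈ Qk y p q L (k + k') := by
  induction L using Finset.induction_on with
  | empty =>
    intro k k' v w hv hw
    refine cls (fun f f' _ => ?_) fun f => ?_
    · simp only [Pi.mul_apply]
      rw [hv.1 f f' (by simp), hw.1 f f' (by simp)]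
    · rw [pow_add]; exact Ideal.mul_mem_mul (val hv f) (val hw f)
  | insert s L hs ih =>
    intro k k' v w hv hw
    have e : (insert s L).erase s = L := erase_insert hs
    refine asm (s := s) (fun f f' hf => ?_) (fun r => ?_) ?_
    · simp only [Pi.mul_apply]
      rw [hv.1 f f' hf, hw.1 f f' hf]
    · rw [e]
      exact ih k k' (upd s r v) (upd s r w) (e ▸ sub hv s r) (e ▸ sub hw s r)
    · rw [e]
      have : Dq p q s (v * w) = Dq p q s v * upd s p w + upd s q v * Dq p q s w := by
        funext f; simp only [Dq, upd, Pi.mul_apply, Pi.add_apply]; ring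
      rw [this]
      refine Submodule.add_mem _ ?_ ?_
      · have := ih _ _ _ _ (e ▸ dq hv s) (e ▸ sub hw s p)
        rwa [show k + 1 + k' = k + k' + 1 by omega] at this
      · exact ih k (k' + 1) _ _ (e ▸ sub hv s q) (e ▸ dq hw s)

theorem single {L : Finset Λ} {s : Λ} (hs : s ∈ L) (g : P → MvPolynomial P Y)
    (hg : g p - g q ∈ nn y p q) : (fun f => g (f s) : Am P Λ Y) ∈ Qk y p q L 0 := by
  refine asm (s := s) (fun f f' hf => by simp [hf s hs]) (fun r => ?_) ?_
  · have : upd s r (fun f => g (f s) : Am P Λ Y) = fun _ => g r := by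
      funext f; simp [upd]
    rw [this]; exact const (by simp)
  · have : Dq p q s (fun f => g (f s) : Am P Λ Y) = fun _ => g p - g q := by
      funext f; simp [Dq]
    rw [this]; exact const (by simpa using hg)

theorem rr {L : Finset Λ} {v : Am P Λ Y} (h : v ∈ RR y L) : v ∈ Qk y p q L 0 := by
  induction h using Algebra.adjoin_induction with
  | mem x hx =>
    rcases hx with ⟨s, hs, rfl⟩ | ⟨s, hs, rfl⟩
    · exact single hs (fun r => X r) (Ideal.subset_span (by simp))
    · exact single hs (fun r => C (y r)) (Ideal.subset_span (by simp))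
  | algebraMap c => exact const (c := c) (by simp)
  | add a b _ _ ha hb => exact Submodule.add_mem _ ha hb
  | mul a b _ _ ha hb => exact mul L 0 0 a b ha hb

theorem es {L : Finset Λ} {k : ℕ} {v : Am P Λ Y} {s : Λ} (r : P) (hs : s ∈ L)
    (h : v ∈ Qk y p q (L.erase s) (k + 1)) :
    (fun f => if f s = r then v f else 0 : Am P Λ Y) ∈ Qk y p q L k := by
  have hu : ∀ f r', v (Function.update f s r') = v f := upd_eq h.1 (notMem_erase s L)
  have key : ∀ r', upd s r' (fun f => if f s = r then v f else 0 : Am P Λ Y)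
      ∈ Qk y p q (L.erase s) (k + 1) := by
    intro r'
    by_cases e : r' = r
    · have : upd s r' (fun f => if f s = r then v f else 0 : Am P Λ Y) = v := by
        funext f; simp [upd, e, hu]
      rw [this]; exact h
    · have : upd s r' (fun f => if f s = r then v f else 0 : Am P Λ Y) = 0 := by
        funext f; simp [upd, e]
      rw [this]; exact Submodule.zero_mem _
  refine asm (s := s) (fun f f' hf => ?_) (fun r' => mono Subset.rfl (by omega) (key r'))
    (Submodule.sub_mem _ (key p) (key q))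
  simp only [hf s hs]
  rw [h.1 f f' fun t ht => hf t (mem_of_mem_erase ht)]

theorem mv_insert (E : Finset Λ) (s : Λ) (r : P) (f : Λ → P) :
    mv (insert s E) r f = mv E r (Function.update f s r) := by
  funext t
  by_cases e : t = s
  · subst e; simp [mv]
  · simp [mv, e]

theorem msub {L : Finset Λ} (E : Finset Λ) {k : ℕ} {v : Am P Λ Y} (r : P) (h : v ∈ Qk y p q L k) :
    (fun f => v (mv E r f) : Am P Λ Y) ∈ Qk y p q (L \ E) k := by
  induction E using Finset.induction_on with
  | empty =>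
    have : (fun f => v (mv ∅ r f) : Am P Λ Y) = v := by
      funext f; congr 1
    rw [this, sdiff_empty]; exact h
  | insert s E _ ih =>
    rw [sdiff_insert]
    simp only [mv_insert]
    exact sub ih s r

theorem mdq {L : Finset Λ} (E : Finset Λ) {k : ℕ} {v : Am P Λ Y} (h : v ∈ Qk y p q L k) :
    (fun f => v (mv E p f) - v (mv E q f) : Am P Λ Y) ∈ Qk y p q (L \ E) (k + 1) := by
  induction E using Finset.induction_on with
  | empty =>
    have : (fun f => v (mv ∅ p f) - v (mv ∅ q f) : Am P Λ Y) = 0 := by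
      funext f
      have : mv ∅ p f = mv ∅ q f := by funext t; simp [mv]
      simp [this]
    rw [this]; exact Submodule.zero_mem _
  | insert s E _ ih =>
    rw [sdiff_insert]
    have : (fun f => v (mv (insert s E) p f) - v (mv (insert s E) q f) : Am P Λ Y)
        = Dq p q s (fun f => v (mv E p f)) + upd s q (fun f => v (mv E p f) - v (mv E q f)) := by
      funext f; simp only [mv_insert, Dq, upd, Pi.add_apply]; ring
    rw [this]
    exact Submodule.add_mem _ (dq (msub E p h) s) (sub ih s q)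

theorem asm2 (hpq : p ≠ q) {L : Finset Λ} {s : Λ} (hs : s ∉ L) {k : ℕ} (u : P → Am P Λ Y)
    (hu : ∀ r, u r ∈ Qk y p q L k) (n : Am P Λ Y) (hn : n ∈ Qk y p q L (k + 1)) :
    (fun f => if f s = p then u q f + n f else u (f s) f : Am P Λ Y)
      ∈ Qk y p q (insert s L) k := by
  have e : (insert s L).erase s = L := erase_insert hs
  have h1 : ∀ r f r', u r (Function.update f s r') = u r f := fun r => upd_eq (hu r).1 hs
  have h2 : ∀ f r', n (Function.update f s r') = n f := upd_eq hn.1 hs
  refine asm (s := s) (fun f f' hf => ?_) (fun r => ?_) ?_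
  · have a : ∀ t ∈ L, f t = f' t := fun t ht => hf t (mem_insert_of_mem ht)
    simp only [hf s (mem_insert_self s L)]
    rw [(hu q).1 f f' a, hn.1 f f' a, (hu (f' s)).1 f f' a]
  · rw [e]
    by_cases hr : r = p
    · have : upd s r (fun f => if f s = p then u q f + n f else u (f s) f : Am P Λ Y)
          = u q + n := by
        funext f; simp [upd, hr, h1, h2]
      rw [this]; exact Submodule.add_mem _ (hu q) (mono Subset.rfl (by omega) hn)
    · have : upd s r (fun f => if f s = p then u q f + n f else u (f s) f : Am P Λ Y) = u r := by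
        funext f; simp [upd, hr, h1]
      rw [this]; exact hu r
  · rw [e]
    have : Dq p q s (fun f => if f s = p then u q f + n f else u (f s) f : Am P Λ Y) = n := by
      funext f; simp [Dq, hpq.symm, h1, h2]
    rw [this]; exact hn

theorem lin (hpq : p ≠ q) (a b c : MvPolynomial P Y) (j : ℕ) (M : MvPolynomial P Y → Prop)
    (hM : ∀ g h, M g → M h → M (g - h))
    (base : ∀ k g, g ∈ nn y p q ^ (k + j) → M g → ∃ g1 ∈ nn y p q ^ k, ∃ g2 ∈ nn y p q ^ k,
      a * g = b * g1 + c * g2) (L : Finset Λ) :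
    ∀ (k : ℕ) (v : Am P Λ Y), v ∈ Qk y p q L (k + j) → (∀ f, M (v f)) →
      ∃ v1 ∈ Qk y p q L k, ∃ v2 ∈ Qk y p q L k, a • v = b • v1 + c • v2 := by
  induction L using Finset.induction_on with
  | empty =>
    intro k v hv hMv
    obtain ⟨g1, h1, g2, h2, e⟩ := base k _ (val hv fun _ => p) (hMv _)
    refine ⟨_, const h1, _, const h2, ?_⟩
    funext f
    simp only [Pi.smul_apply, Pi.add_apply, smul_eq_mul]
    rw [hv.1 f (fun _ => p) (by simp), e]
  | insert s L hs ih =>
    intro k v hv hMv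
    have e : (insert s L).erase s = L := erase_insert hs
    have hu := fun r => ih k (upd s r v) (e ▸ sub hv s r) fun f => hMv _
    choose u1 hu1 u2 hu2 hu using hu
    obtain ⟨n1, hn1, n2, hn2, hn⟩ := ih (k + 1) (Dq p q s v)
      (by have := dq hv s; rwa [e, show k + j + 1 = k + 1 + j by omega] at this)
      fun f => hM _ _ (hMv _) (hMv _)
    refine ⟨_, asm2 hpq hs u1 hu1 n1 hn1, _, asm2 hpq hs u2 hu2 n2 hn2, ?_⟩
    funext f
    have a1 := congrFun (hu q) f
    have a2 := congrFun (hu (f s)) f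
    have a3 := congrFun hn f
    simp only [Pi.smul_apply, Pi.add_apply, smul_eq_mul, upd, Dq, Function.update_eq_self]
      at a1 a2 a3 ⊢
    by_cases hf : f s = p
    · simp only [hf, if_true]
      have : Function.update f s p = f := by rw [← hf, Function.update_eq_self]
      rw [this] at a3
      linear_combination a1 + a3
    · simp only [hf, if_false]
      exact a2

theorem split_smul {M : Type} [AddCommGroup M] [Module (MvPolynomial P Y) M]
    (N : Submodule (MvPolynomial P Y) M) {x : M} (hx : x ∈ nn y p q • N) :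
    ∃ w1 ∈ N, ∃ w2 ∈ N, x = (X p - X q : MvPolynomial P Y) • w1
      + (C (y p - y q) : MvPolynomial P Y) • w2 := by
  refine Submodule.smul_induction_on hx ?_ ?_
  · intro a ha m hm
    obtain ⟨c1, c2, rfl⟩ := Ideal.mem_span_pair.mp ha
    refine ⟨c1 • m, N.smul_mem _ hm, c2 • m, N.smul_mem _ hm, ?_⟩
    rw [add_smul, smul_smul, smul_smul, mul_comm c1, mul_comm c2]
  · rintro _ _ ⟨a1, h1, a2, h2, rfl⟩ ⟨b1, h3, b2, h4, rfl⟩
    refine ⟨a1 + b1, N.add_mem h1 h3, a2 + b2, N.add_mem h2 h4, ?_⟩
    rw [smul_add, smul_add]; abel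

theorem coeff_keep (c : (P →₀ ℕ) → Prop) [DecidablePred c] (g : MvPolynomial P Y) (e : P →₀ ℕ) :
    coeff e (keep c g) = if c e then coeff e g else 0 := by
  unfold keep
  rw [coeff_sum]
  simp only [coeff_monomial]
  rw [Finset.sum_ite_eq' ]
  by_cases h1 : c e
  · by_cases h2 : coeff e g = 0 <;> simp [h1, h2]
  · simp [h1]

theorem keep_sub (c : (P →₀ ℕ) → Prop) [DecidablePred c] (g h : MvPolynomial P Y) :
    keep c (g - h) = keep c g - keep c h := by
  ext e
  simp only [coeff_keep, coeff_sub]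
  split_ifs <;> simp

theorem map_mem (φ : MvPolynomial P Y → MvPolynomial P Y) (hφ : ∀ a b, φ (a - b) = φ a - φ b)
    (hn : ∀ (a : ℕ) g, g ∈ nn y p q ^ a → φ g ∈ nn y p q ^ a) {L : Finset Λ} {k : ℕ}
    {v : Am P Λ Y} (h : v ∈ Qk y p q L k) : (fun f => φ (v f) : Am P Λ Y) ∈ Qk y p q L k := by
  refine ⟨fun f f' hf => by simp only [h.1 f f' hf], fun l hl hL f => ?_⟩
  rw [D_map φ hφ]
  exact hn _ _ (h.2 l hl hL f)

theorem divX_ex (r : P) (g : MvPolynomial P Y) (h : ∀ e : P →₀ ℕ, e r = 0 → coeff e g = 0) :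
    ∃ g', g = X r * g' := by
  refine ⟨g.divMonomial (Finsupp.single r 1), ?_⟩
  have h1 := divMonomial_add_modMonomial_single g r
  have h2 : g.modMonomial (Finsupp.single r 1) = 0 := by
    ext e
    by_cases hle : Finsupp.single r 1 ≤ e
    · rw [coeff_modMonomial_of_le _ hle]; simp
    · rw [coeff_modMonomial_of_not_le _ hle, h e]
      · simp
      · rw [Finsupp.single_le_iff] at hle; omega
  rw [h2, add_zero] at h1
  exact h1.symm

theorem glue (hN : NApi y p q) (L : Finset Λ) (k : ℕ) (g : (Λ → P) → Finset P → Am P Λ Y)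
    (hg : ∀ f T', g f T' ∈ Qk y p q L k) : ∃ v ∈ Qk y p q L k, ∀ f e,
      coeff e (v f) = coeff e (g (rep p q L f) (((zs e).erase p).erase q) f) := by
  refine ⟨∑ T' : Finset P, ∑ f0 : Λ → P,
    (fun f => if rep p q L f = f0 then 1 else 0 : Am P Λ Y) * fun f => prj p q T' (g f0 T' f),
    Submodule.sum_mem _ fun T' _ => Submodule.sum_mem _ fun f0 _ => ?_, fun f e => ?_⟩
  · have := mul L 0 k (fun f => if rep p q L f = f0 then 1 else 0 : Am P Λ Y) _
      (cls (fun f f' hf => by
        have : rep p q L f = rep p q L f' := by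
          funext s
          by_cases hs : s ∈ L
          · simp [rep, hs, hf s hs]
          · simp [rep, hs]
        simp only [this]) fun f => by simp)
      (map_mem (prj p q T') (keep_sub _) (hN.prj_mem T') (hg f0 T'))
    rwa [zero_add] at this
  · simp only [Finset.sum_apply, Pi.mul_apply, ite_mul, one_mul, zero_mul, Finset.sum_ite_eq,
      mem_univ, if_true, coeff_sum, prj, coeff_keep]

/-- `nn ^ k` times the polygraph ring -/
def TT (y : P → Y) (p q : P) (L : Finset Λ) (k : ℕ) : Submodule (MvPolynomial P Y) (Am P Λ Y) :=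
  nn y p q ^ k • Subalgebra.toSubmodule (RR y L)

theorem TT_mul {L L' : Finset Λ} (hL : L ⊆ L') {k : ℕ} {a u : Am P Λ Y} (ha : a ∈ RR y L')
    (hu : u ∈ TT y p q L k) : a * u ∈ TT y p q L' k := by
  have hR : RR y L ≤ RR y L' := Algebra.adjoin_mono (Set.union_subset_union
    (Set.image_mono (coe_subset.mpr hL)) (Set.image_mono (coe_subset.mpr hL)))
  refine Submodule.smul_induction_on hu ?_ ?_
  · intro c hc m hm
    rw [mul_smul_comm]
    exact Submodule.smul_mem_smul hc ((RR y L').mul_mem ha (hR hm))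
  · intro b c hb hc
    rw [mul_add]; exact Submodule.add_mem _ hb hc

/-- membership up to a multiplier -/
def Cl (y : P → Y) (N : Finset P) (p q : P) (L : Finset Λ) (k : ℕ) (v : Am P Λ Y) : Prop :=
  ∃ G ∈ Mult y N p q, ∃ u ∈ TT y p q L k, ∀ f, All N L f → C G * v f = u f

theorem Cl_add {N : Finset P} {L : Finset Λ} {k : ℕ} {v w : Am P Λ Y} (hv : Cl y N p q L k v)
    (hw : Cl y N p q L k w) : Cl y N p q L k (v + w) := by
  obtain ⟨G, hG, u, hu, e⟩ := hv
  obtain ⟨G', hG', u', hu', e'⟩ := hw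
  refine ⟨G * G', Submonoid.mul_mem _ hG hG', (C G' : MvPolynomial P Y) • u
    + (C G : MvPolynomial P Y) • u', Submodule.add_mem _ (Submodule.smul_mem _ _ hu)
    (Submodule.smul_mem _ _ hu'), fun f hf => ?_⟩
  simp only [Pi.add_apply, Pi.smul_apply, smul_eq_mul, ← e f hf, ← e' f hf, map_mul]
  ring

theorem Cl_sum {N : Finset P} {L : Finset Λ} {k : ℕ} (S : Finset P) (v : P → Am P Λ Y)
    (hv : ∀ r ∈ S, Cl y N p q L k (v r)) : Cl y N p q L k (∑ r ∈ S, v r) := by
  refine Finset.sum_induction v _ (fun a b => Cl_add) ⟨1, Submonoid.one_mem _, 0,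
    Submodule.zero_mem _, fun f _ => by simp⟩ hv

theorem gen_mem {N : Finset P} {r s : P} (hr : r ∈ N) (hs : s ∈ N) (hrs : r ≠ s)
    (h1 : ¬(r = p ∧ s = q)) (h2 : ¬(r = q ∧ s = p)) : y r - y s ∈ Mult y N p q :=
  Submonoid.subset_closure ⟨r, hr, s, hs, hrs, h1, h2, rfl⟩

theorem av_mem {L : Finset Λ} {s : Λ} (hs : s ∈ L) : av Y s ∈ RR y L :=
  Algebra.subset_adjoin (Or.inl ⟨s, hs, rfl⟩)

theorem bv_mem {L : Finset Λ} {s : Λ} (hs : s ∈ L) : bv y s ∈ RR y L :=
  Algebra.subset_adjoin (Or.inr ⟨s, hs, rfl⟩)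

theorem cst_mem (L : Finset Λ) (c : MvPolynomial P Y) : (fun _ => c : Am P Λ Y) ∈ RR y L :=
  (RR y L).algebraMap_mem c

theorem idem1 {N : Finset P} {L : Finset Λ} {s : Λ} (hs : s ∈ L) {r : P} (hr : r ∈ N)
    (hp : r ≠ p) (hq : r ≠ q) : ∃ g ∈ Mult y N p q, ∃ ε ∈ RR y L, ∀ f : Λ → P, f s ∈ N →
      ε f = if f s = r then C g else 0 := by
  refine ⟨∏ r' ∈ N.erase r, (y r - y r'), Submonoid.prod_mem _ fun r' hr' => ?_,
    ∏ r' ∈ N.erase r, (bv y s - fun _ => C (y r')),
    Subalgebra.prod_mem _ fun r' _ => Subalgebra.sub_mem _ (bv_mem hs) (cst_mem L _),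
    fun f hf => ?_⟩
  · exact gen_mem hr (mem_of_mem_erase hr') (ne_of_mem_erase hr').symm (fun h => hp h.1)
      fun h => hq h.1
  · rw [Finset.prod_apply]
    split_ifs with h
    · simp [bv, h, map_prod]
    · exact Finset.prod_eq_zero (mem_erase.mpr ⟨h, hf⟩) (by simp [bv])

theorem idem2 {N : Finset P} {L : Finset Λ} {s : Λ} (hs : s ∈ L) (hp : p ∈ N) (hq : q ∈ N) :
    ∃ g ∈ Mult y N p q, ∃ ε ∈ RR y L, ∀ f : Λ → P, f s ∈ N →
      ε f = if f s = p ∨ f s = q then C g else 0 := by
  refine ⟨∏ r ∈ (N.erase p).erase q, ((y p - y r) * (y q - y r)),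
    Submonoid.prod_mem _ fun r hr => ?_,
    ∏ r ∈ (N.erase p).erase q, ((bv y s - fun _ => C (y r))
      * ((fun _ => C (y p + y q - y r)) - bv y s)),
    Subalgebra.prod_mem _ fun r _ => Subalgebra.mul_mem _
      (Subalgebra.sub_mem _ (bv_mem hs) (cst_mem L _))
      (Subalgebra.sub_mem _ (cst_mem L _) (bv_mem hs)), fun f hf => ?_⟩
  · have h1 : r ≠ q := ne_of_mem_erase hr
    have h2 : r ≠ p := ne_of_mem_erase (mem_of_mem_erase hr)
    have h3 : r ∈ N := mem_of_mem_erase (mem_of_mem_erase hr)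
    exact Submonoid.mul_mem _ (gen_mem hp h3 h2.symm (fun h => h1 h.2) fun h => h2 h.2)
      (gen_mem hq h3 h1.symm (fun h => h1 h.2) fun h => h2 h.2)
  · rw [Finset.prod_apply]
    split_ifs with h
    · rw [map_prod]
      refine Finset.prod_congr rfl fun r _ => ?_
      rcases h with h | h
      · simp only [bv, h, Pi.mul_apply, Pi.sub_apply, map_mul, map_sub, map_add]; ring
      · simp only [bv, h, Pi.mul_apply, Pi.sub_apply, map_mul, map_sub, map_add]; ring
    · push Not at h
      exact Finset.prod_eq_zero (mem_erase.mpr ⟨h.2, mem_erase.mpr ⟨h.1, hf⟩⟩) (by simp [bv])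

theorem clear (hpq : p ≠ q) {N : Finset P} (hp : p ∈ N) (hq : q ∈ N) (L : Finset Λ) :
    ∀ (k : ℕ) (v : Am P Λ Y), v ∈ Qk y p q L k → Cl y N p q L k v := by
  induction L using Finset.induction_on with
  | empty =>
    intro k v hv
    refine ⟨1, Submonoid.one_mem _, v (fun _ => p) • (1 : Am P Λ Y),
      Submodule.smul_mem_smul (val hv _) (RR y ∅).one_mem, fun f _ => ?_⟩
    simp [hv.1 f (fun _ => p) (by simp)]
  | insert s L hs ih =>
    intro k v hv
    have e : (insert s L).erase s = L := erase_insert hs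
    have hsL := mem_insert_self s L
    have hsub := subset_insert s L
    have hall : ∀ f, All N (insert s L) f → All N L f := fun f hf t ht => hf t (hsub ht)
    have c1 : ∀ r ∈ (N.erase p).erase q, Cl y N p q (insert s L) k
        (fun f => if f s = r then upd s r v f else 0) := by
      intro r hr
      obtain ⟨G, hG, u, hu, eu⟩ := ih k _ (e ▸ sub hv s r)
      obtain ⟨g, hg, ε, hε, eε⟩ := idem1 (y := y) (p := p) (q := q) hsL
        (mem_of_mem_erase (mem_of_mem_erase hr)) (ne_of_mem_erase (mem_of_mem_erase hr))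
        (ne_of_mem_erase hr)
      refine ⟨g * G, Submonoid.mul_mem _ hg hG, ε * u, TT_mul hsub hε hu, fun f hf => ?_⟩
      rw [Pi.mul_apply, eε f (hf s hsL), ← eu f (hall f hf)]
      dsimp only
      split_ifs <;> simp [mul_assoc]
    obtain ⟨g, hg, ε, hε, eε⟩ := idem2 (y := y) hsL hp hq
    have c2 : Cl y N p q (insert s L) k
        (fun f => if f s = p ∨ f s = q then upd s q v f else 0) := by
      obtain ⟨G, hG, u, hu, eu⟩ := ih k _ (e ▸ sub hv s q)
      refine ⟨g * G, Submonoid.mul_mem _ hg hG, ε * u, TT_mul hsub hε hu, fun f hf => ?_⟩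
      rw [Pi.mul_apply, eε f (hf s hsL), ← eu f (hall f hf)]
      dsimp only
      split_ifs <;> simp [mul_assoc]
    have c3 : Cl y N p q (insert s L) k (fun f => if f s = p then Dq p q s v f else 0) := by
      obtain ⟨G, hG, u, hu, eu⟩ := ih (k + 1) _ (e ▸ dq hv s)
      have hu' : u ∈ nn y p q • TT y p q L k := by
        unfold TT at hu ⊢
        rwa [pow_succ', Submodule.mul_smul] at hu
      obtain ⟨w1, h1, w2, h2, ew⟩ := split_smul _ hu'
      refine ⟨g * G, Submonoid.mul_mem _ hg hG,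
        (ε * (av Y s - fun _ => X q)) * w1 + (ε * (bv y s - fun _ => C (y q))) * w2,
        Submodule.add_mem _
          (TT_mul hsub (Subalgebra.mul_mem _ hε (Subalgebra.sub_mem _ (av_mem hsL) (cst_mem _ _))) h1)
          (TT_mul hsub (Subalgebra.mul_mem _ hε (Subalgebra.sub_mem _ (bv_mem hsL) (cst_mem _ _))) h2),
        fun f hf => ?_⟩
      have a1 := eu f (hall f hf)
      rw [ew] at a1
      simp only [Pi.add_apply, Pi.mul_apply, Pi.sub_apply, Pi.smul_apply, smul_eq_mul, av, bv,
        eε f (hf s hsL), map_sub, map_mul] at a1 ⊢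
      by_cases hfp : f s = p
      · simp only [hfp, true_or, if_true]
        linear_combination C g * a1
      · by_cases hfq : f s = q
        · simp [hfq, hpq.symm]
        · simp [hfp, hfq]
    obtain ⟨G, hG, u, hu, eu⟩ := Cl_add (Cl_add (Cl_sum _ _ c1) c2) c3
    refine ⟨G, hG, u, hu, fun f hf => ?_⟩
    rw [← eu f hf]
    congr 1
    simp only [Pi.add_apply, Finset.sum_apply, Finset.sum_ite_eq, upd, Dq]
    have hfs := hf s hsL
    have hv' : v f = v (Function.update f s (f s)) := by rw [Function.update_eq_self]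
    by_cases hfp : f s = p
    · rw [hv']; simp [hfp]
    · by_cases hfq : f s = q
      · rw [hv']; simp [hfq, hpq.symm]
      · simp [hfp, hfq, hfs]

end PQAux

open PQAux in
theorem qApi : S_Q := by
  intro P Λ Y _ _ _ _ _ _ y p q hpq hN
  refine ⟨fun L k v s r h => sub h s r, fun L k v s _ h => dq h s,
    fun L k v s _ hm h1 h2 => asm hm h1 h2, fun L L' k k' hL hk v h => mono hL hk h,
    fun L => mul L, fun L v h => rr h, fun L k v h1 h2 => cls h1 h2,
    fun L k v s r hs h => es r hs h, fun L E k v r h => msub E r h, fun L E k v h => mdq E h,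
    fun L k v h => ?_,
    fun L k v T' h => map_mem (prj p q T') (keep_sub _) (hN.prj_mem T') h,
    fun L k v h => map_mem (prz p q) (keep_sub _) hN.prz_mem h,
    fun L k v r h h0 => ?_, fun L k v h h0 => ?_, glue hN, fun N L v hp hq h => ?_⟩
  · obtain ⟨v1, h1, v2, h2, e⟩ := lin hpq 1 (X p - X q) (C (y p - y q)) 1 (fun _ => True)
      (fun _ _ _ _ => trivial) (fun k g hg _ => by
        rw [pow_succ', ← smul_eq_mul] at hg
        obtain ⟨w1, h1, w2, h2, e⟩ := split_smul _ hg
        exact ⟨w1, h1, w2, h2, by rw [one_mul]; exact e⟩) L k v h (fun _ => trivial)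
    exact ⟨v1, h1, v2, h2, by rw [← e, one_smul]⟩
  · obtain ⟨v1, h1, v2, h2, e⟩ := lin hpq 1 (X r) 0 0
      (fun g => ∀ e : P →₀ ℕ, e r = 0 → coeff e g = 0)
      (fun g g' a b e he => by simp [a e he, b e he]) (fun k g hg hM => by
        obtain ⟨g', rfl⟩ := divX_ex r g hM
        exact ⟨g', hN.divx r _ _ hg, 0, Ideal.zero_mem _, by simp⟩) L k v h h0
    exact ⟨v1, h1, by rw [one_smul, zero_smul, add_zero] at e; exact e⟩
  · exact lin hpq (C (y p - y q)) (X p - X q) (X p * C (y p - y q)) 0
      (fun g => ∀ e : P →₀ ℕ, e p = 0 → e q = 0 → coeff e g = 0)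
      (fun g g' a b e he he' => by simp [a e he he', b e he he'])
      (fun k g hg hM => hN.lxx k g hg hM) L k v h h0
  · obtain ⟨G, hG, u, hu, e⟩ := clear hpq hp hq L 0 v h
    refine ⟨G, hG, u, ?_, e⟩
    unfold TT at hu
    rwa [pow_zero, Ideal.one_eq_top, Submodule.top_smul] at hu

end

end Pool.Agent.P.MP_c2aaf5_co
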