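import Pool.Agent.P.MP_c2aaf5_co.KLes
import Pool.Agent.P.MP_c2aaf5_co.PN
import Pool.Agent.P.MP_c2aaf5_co.PQ
import Pool.Agent.P.MP_c2aaf5_co.PLD
import Pool.Agent.P.MP_c2aaf5_co.PL123
import Pool.Agent.P.MP_c2aaf5_co.PL4
import Pool.Agent.P.MP_c2aaf5_co.PL56

/-! Assembly of the local polygraph statements. -/

namespace Pool.Agent.P.MP_c2aaf5_co

open MvPolynomial Finset

theorem pgc (h : S_PGX) : S_PGC := by
  intro m Λ _ _
  have hB := (base kreg (m + 1)).1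
  have hL : LocAll Λ (X : Fin (m + 1) → MvPolynomial (Fin (m + 1)) ℂ) := by
    intro N p q hpq hp hq
    have hQ := qApi _ Λ _ _ p q hpq (nApi _ _ _ p q hpq fun e => hpq (hB.inj e))
    exact ⟨ld _ Λ _ _ N p q hB.inj hpq hp hq hQ, l1 _ Λ _ _ N p q hB.inj hpq hp hq hQ,
      l2 _ Λ _ _ N p q hB.inj hpq hp hq hQ, l3 _ Λ _ _ N p q hB.inj hpq hp hq hQ,
      l4 _ Λ _ _ N p q hB.inj hpq hp hq hQ, l5 _ Λ _ _ N p q hB.inj hpq hp hq hQ,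
      l6 _ Λ _ _ N p q hB.inj hpq hp hq hQ⟩
  exact ⟨hL, h _ Λ _ _ hB hL⟩

end Pool.Agent.P.MP_c2aaf5_co
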