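import Pool.Agent.P.MP_c2aaf5_co.PSet

/-! Multiplying the ideal by a block of alternants. -/

set_option linter.unusedSectionVars false

namespace Pool.Agent.P.MP_c2aaf5_co

open MvPolynomial Finset

noncomputable section

namespace PBlkAux

variable {n k : ℕ} {Λ : Type} [Fintype Λ] [DecidableEq Λ]

/-- the ideal generated by the alternants in the points `c i` -/
def Jc (c : Fin k → Fin n) : Ideal (Pyx n) :=
  Ideal.span (Set.range fun h : Fin k → ℕ × ℕ => (Matrix.of fun i j => xy (c i) (h j)).det)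

/-- the sign of `g` relative to `c` -/
def sgn (c g : Fin k → Fin n) : Pyx n := (Matrix.of fun i j => if g j = c i then 1 else 0).det

/-- extension to a skew function of `k` more indices -/
def ext (c : Fin k → Fin n) (v : (Λ → Fin n) → Pyx n) : (Λ ⊕ Fin k → Fin n) → Pyx n :=
  fun F => sgn c (fun j => F (Sum.inr j)) * v fun s => F (Sum.inl s)

/-- alternation in the extra indices -/
def alt (c : Fin k → Fin n) :
    ((Λ ⊕ Fin k → Fin n) → Pyx n) →ₗ[Pyx n] ((Λ → Fin n) → Pyx n) where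
  toFun w f := ∑ σ : Equiv.Perm (Fin k),
    ((Equiv.Perm.sign σ : ℤ) : Pyx n) * w (Sum.elim f fun j => c (σ j))
  map_add' w w' := by
    funext f
    simp only [Pi.add_apply, mul_add, sum_add_distrib]
  map_smul' a w := by
    funext f
    simp only [Pi.smul_apply, smul_eq_mul, RingHom.id_apply, mul_sum]
    exact sum_congr rfl fun σ _ => by ring

theorem alt_apply (c : Fin k → Fin n) (w : (Λ ⊕ Fin k → Fin n) → Pyx n) (f : Λ → Fin n) :
    alt c w f = ∑ σ : Equiv.Perm (Fin k),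
      ((Equiv.Perm.sign σ : ℤ) : Pyx n) * w (Sum.elim f fun j => c (σ j)) := rfl

theorem sgn_perm {c : Fin k → Fin n} (hc : Function.Injective c) (σ : Equiv.Perm (Fin k)) :
    sgn c (fun j => c (σ j)) = ((Equiv.Perm.sign σ : ℤ) : Pyx n) := by
  have h : (Matrix.of fun i j => if c (σ j) = c i then (1 : Pyx n) else 0) =
      (1 : Matrix (Fin k) (Fin k) (Pyx n)).submatrix id σ := by
    ext1 i j
    simp only [Matrix.of_apply, Matrix.submatrix_apply, id, Matrix.one_apply, hc.eq_iff, eq_comm]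
  rw [sgn, h, Matrix.det_permute', Matrix.det_one, mul_one]

theorem alt_ext {c : Fin k → Fin n} (hc : Function.Injective c) (v : (Λ → Fin n) → Pyx n)
    (f : Λ → Fin n) : alt c (ext c v) f = (k.factorial : Pyx n) * v f := by
  have h : ∀ σ : Equiv.Perm (Fin k), ((Equiv.Perm.sign σ : ℤ) : Pyx n) *
      ext c v (Sum.elim f fun j => c (σ j)) = v f := fun σ => by
    simp only [ext, Sum.elim_inl, Sum.elim_inr]
    rw [sgn_perm hc, ← mul_assoc, ← Int.cast_mul, ← Units.val_mul, Int.units_mul_self]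
    simp
  rw [alt_apply, sum_congr rfl fun σ _ => h σ, sum_const, card_univ, Fintype.card_perm,
    Fintype.card_fin, nsmul_eq_mul]

theorem alt_mem (c : Fin k → Fin n) {I : Ideal (Pyx n)} {w : (Λ ⊕ Fin k → Fin n) → Pyx n}
    (hw : w ∈ TI (Λ ⊕ Fin k) I) : alt c w ∈ TI Λ (I * Jc c) := by
  have h : TI (Λ ⊕ Fin k) I ≤ (TI Λ (I * Jc c)).comap (alt c) := by
    refine Submodule.span_le.2 ?_
    rintro _ ⟨b, hb, h, rfl⟩
    refine Submodule.subset_span ⟨b * (Matrix.of fun i j => xy (c i) (h (Sum.inr j))).det,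
      Ideal.mul_mem_mul hb (Ideal.subset_span ⟨fun j => h (Sum.inr j), rfl⟩),
      fun s => h (Sum.inl s), ?_⟩
    funext f
    rw [alt_apply, Matrix.det_apply', mul_sum, sum_mul]
    refine sum_congr rfl fun σ _ => ?_
    simp only [Fintype.prod_sum_type, Sum.elim_inl, Sum.elim_inr, Matrix.of_apply]
    ring
  exact h hw

theorem sgn_mul_det {c : Fin k → Fin n} (hc : Function.Injective c) {g : Fin k → Fin n}
    (hg : ∀ j, g j ∈ Set.range c) (h : Fin k → ℕ × ℕ) :
    sgn c g * (Matrix.of fun i j => xy (c i) (h j)).det = ∑ σ : Equiv.Perm (Fin k),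
      ((Equiv.Perm.sign σ : ℤ) : Pyx n) * ∏ j, xy (g j) (h (σ j)) := by
  have h1 : (Matrix.of fun i j => xy (c i) (h j)).transpose *
      (Matrix.of fun i j => if g j = c i then (1 : Pyx n) else 0) =
      Matrix.of fun l j => xy (g j) (h l) := by
    ext1 l j
    obtain ⟨i, hi⟩ := hg j
    simp only [Matrix.mul_apply, Matrix.transpose_apply, Matrix.of_apply, ← hi, hc.eq_iff]
    simp
  rw [sgn, mul_comm, ← Matrix.det_transpose, ← Matrix.det_mul, h1, Matrix.det_apply']
  rfl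

/-- the functions whose extension agrees with an element of `TI _ I` on the maps into the block -/
def Pext (Λ : Type) [Fintype Λ] (c : Fin k → Fin n) (I : Ideal (Pyx n)) :
    Submodule (Pyx n) ((Λ → Fin n) → Pyx n) where
  carrier := {u | ∃ u' ∈ TI (Λ ⊕ Fin k) I, ∀ F, (∀ j, F (Sum.inr j) ∈ Set.range c) →
    ext c u F = u' F}
  add_mem' := by
    rintro u v ⟨u', h1, h2⟩ ⟨v', h3, h4⟩
    refine ⟨u' + v', Submodule.add_mem _ h1 h3, fun F hF => ?_⟩
    rw [Pi.add_apply, ← h2 F hF, ← h4 F hF]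
    simp only [ext, Pi.add_apply, mul_add]
  zero_mem' := ⟨0, Submodule.zero_mem _, fun F _ => by simp [ext]⟩
  smul_mem' := by
    rintro a u ⟨u', h1, h2⟩
    refine ⟨a • u', Submodule.smul_mem _ a h1, fun F hF => ?_⟩
    rw [Pi.smul_apply, ← h2 F hF]
    simp only [ext, Pi.smul_apply, smul_eq_mul]
    ring

/-- a monomial function -/
def mon (h : Λ → ℕ × ℕ) : (Λ → Fin n) → Pyx n := fun f => ∏ s, xy (f s) (h s)

theorem smul_mon_mem {I : Ideal (Pyx n)} {b : Pyx n} (hb : b ∈ I) (h : Λ → ℕ × ℕ) :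
    b • mon h ∈ TI Λ I := Submodule.subset_span ⟨b, hb, h, rfl⟩

theorem mon_elim (h : Λ → ℕ × ℕ) (h' : Fin k → ℕ × ℕ) (F : Λ ⊕ Fin k → Fin n) :
    mon (Sum.elim h h') F = mon h (fun s => F (Sum.inl s)) * ∏ j, xy (F (Sum.inr j)) (h' j) := by
  simp only [mon, Fintype.prod_sum_type, Sum.elim_inl, Sum.elim_inr]

theorem det_mem_Pext {c : Fin k → Fin n} (hc : Function.Injective c) {I : Ideal (Pyx n)}
    {r : Pyx n} (hr : r ∈ I) (h : Λ → ℕ × ℕ) (h' : Fin k → ℕ × ℕ) :
    (Matrix.of fun i j => xy (c i) (h' j)).det • r • mon h ∈ Pext Λ c I := by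
  refine ⟨∑ σ : Equiv.Perm (Fin k), ((Equiv.Perm.sign σ : ℤ) : Pyx n) •
    r • mon (Sum.elim h fun j => h' (σ j)),
    Submodule.sum_mem _ fun σ _ => Submodule.smul_mem _ _ (smul_mon_mem hr _), fun F hF => ?_⟩
  rw [Finset.sum_apply, ext, Pi.smul_apply, Pi.smul_apply, smul_eq_mul, smul_eq_mul, ← mul_assoc,
    sgn_mul_det hc hF, sum_mul]
  refine sum_congr rfl fun σ _ => ?_
  rw [Pi.smul_apply, Pi.smul_apply, smul_eq_mul, smul_eq_mul, mon_elim]
  ring

theorem le_Pext {c : Fin k → Fin n} (hc : Function.Injective c) (I : Ideal (Pyx n)) :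
    TI Λ (I * Jc c) ≤ Pext Λ c I := by
  refine Submodule.span_le.2 ?_
  rintro _ ⟨b, hb, h, rfl⟩
  change b • mon h ∈ Pext Λ c I
  refine Submodule.mul_induction_on hb (fun r hr s hs => ?_) fun x y hx hy => ?_
  · rw [mul_comm, mul_smul]
    induction hs using Submodule.span_induction with
    | mem x hx =>
      obtain ⟨h', rfl⟩ := hx
      exact det_mem_Pext hc hr h h'
    | zero =>
      rw [zero_smul]
      exact Submodule.zero_mem _
    | add x y _ _ hx hy =>
      rw [add_smul]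
      exact Submodule.add_mem _ hx hy
    | smul a x _ hx =>
      rw [smul_eq_mul, mul_smul]
      exact Submodule.smul_mem _ _ hx
  · rw [add_smul]
    exact Submodule.add_mem _ hx hy

theorem goodI_mul {m : ℕ} {c : Fin k → Fin (m + 1)} (hc : Function.Injective c)
    (E2 : Finset (Fin k)) (h1 : ∀ g : Fin k → Fin (m + 1), (∀ j ∈ E2, g j ≠ 0) →
      ∀ j, g j ∈ Set.range c) (h2 : ∀ j ∈ E2, ∀ i, c i ≠ 0) {I : Ideal (Pyx (m + 1))}
    (hI : GoodI I) : GoodI (I * Jc c) := by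
  intro Λ _ _ E v hv
  obtain ⟨w, hw, hw'⟩ := hI (Λ ⊕ Fin k) (E.disjSum E2) (ext c v) fun p q => by
    obtain ⟨G, hG, u, hu, hu'⟩ := hv p q
    obtain ⟨u', h3, h4⟩ := le_Pext hc I hu
    refine ⟨G, hG, u', h3, fun F hF => ?_⟩
    rw [← h4 F (h1 _ fun j hj => hF _ (inr_mem_disjSum.2 hj))]
    simp only [ext]
    rw [← hu' _ fun s hs => hF _ (inl_mem_disjSum.2 hs)]
    ring
  refine ⟨(C (C ((k.factorial : ℂ)⁻¹)) : Pyx (m + 1)) • alt c w,
    Submodule.smul_mem _ _ (alt_mem c hw), fun f hf => ?_⟩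
  have h3 : alt c w f = alt c (ext c v) f := by
    rw [alt_apply, alt_apply]
    refine sum_congr rfl fun σ _ => ?_
    rw [hw']
    rintro (s | j) hs
    · exact hf s (inl_mem_disjSum.1 hs)
    · exact h2 j (inr_mem_disjSum.1 hs) _
  have h4 : (k.factorial : ℂ) ≠ 0 := Nat.cast_ne_zero.2 k.factorial_ne_zero
  have h5 : (k.factorial : Pyx (m + 1)) = C (C (k.factorial : ℂ)) := by simp
  rw [Pi.smul_apply, h3, alt_ext hc, smul_eq_mul, ← mul_assoc, h5, ← map_mul, ← map_mul,
    inv_mul_cancel₀ h4]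
  simp

end PBlkAux

theorem blk : S_Blk := fun m _ hI =>
  ⟨PBlkAux.goodI_mul (c := id) Function.injective_id ∅ (fun g _ j => ⟨g j, rfl⟩)
      (fun _ hj => absurd hj (notMem_empty _)) hI,
    PBlkAux.goodI_mul (c := (Fin.succ : Fin m → Fin (m + 1))) (Fin.succ_injective m) univ
      (fun _ hg j => Fin.exists_succ_eq.2 (hg j (mem_univ j))) (fun _ _ i => Fin.succ_ne_zero i) hI⟩

end

end Pool.Agent.P.MP_c2aaf5_co
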