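import Pool.Agent.P.MP_c2aaf5_co.PSet

/-! Step C of the global polygraph theorem, and the case of the unit ideal. -/

set_option linter.unusedSectionVars false

namespace Pool.Agent.P.MP_c2aaf5_co

open MvPolynomial Finset

noncomputable section

namespace PCAux

variable {P Λ Y : Type} [Fintype P] [DecidableEq P] [Fintype Λ] [DecidableEq Λ] [CommRing Y]
  {y : P → Y} {L : Finset Λ}

/-- induction on the degree in `x` along a family of label sets stable under the shifts -/
theorem deg_ind (F : Set (Lab P Λ) → Prop)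
    (hF : ∀ S, F S → ∃ o : P, Good y (S ∩ {a | o ∈ a.1}) (RR y L) ∧ F (sh (fun _ => o) S) ∧
      ∀ u ∈ RR y L, Van (S ∩ {a | o ∈ a.1}) u → ∀ p q, ∃ G ∈ Mult y univ p q, ∃ d ∈ RR y L,
        Van S ((C G : MvPolynomial P Y) • u - xk Y (fun _ => o) * d))
    (S : Set (Lab P Λ)) (hS : F S) : Good y S (RR y L) := by
  have key : ∀ D : ℕ, ∀ S, F S → ∀ v : Am P Λ Y, Loc y S (RR y L) v →
      (∀ f (e : P →₀ ℕ), D ≤ e.degree → coeff e (v f) = 0) → ∃ u ∈ RR y L, Van S (v - u) := by
    intro D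
    induction D with
    | zero =>
      intro S _ v _ h
      exact ⟨0, zero_mem _, fun f e _ => by simpa using h f e (Nat.zero_le _)⟩
    | succ D ih =>
      intro S hS v hv h
      obtain ⟨o, h1, h2, h3⟩ := hF S hS
      obtain ⟨u0, a1, a2⟩ := h1 v (hv.mono Set.inter_subset_left)
      have b1 : trc0 (D + 1) u0 ∈ RR y L := trc0_mem a1 _
      have b2 : Van (S ∩ {a | o ∈ a.1}) (v - trc0 (D + 1) u0) := van_sub_iff.2 fun f e a => by
        rw [coeff_trc0]
        split_ifs with c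
        · exact van_sub_iff.1 a2 f e a
        · exact h f e (not_lt.1 c)
      have b3 : ∀ f (e : P →₀ ℕ), D + 1 ≤ e.degree → coeff e ((v - trc0 (D + 1) u0) f) = 0 := by
        intro f e c
        rw [Pi.sub_apply, coeff_sub, coeff_trc0, if_neg (not_lt.2 c), h f e c, sub_zero]
      have b4 : Loc y S (RR y L) (v - trc0 (D + 1) u0) := hv.sub b1
      obtain ⟨d0, c1, c2⟩ := exists_div_xk (fun _ => o) (V := S) b2
      have c3 : Loc y (sh (fun _ => o) S) (RR y L) d0 := fun p q => by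
        obtain ⟨G, g1, u, g2, g3⟩ := b4 p q
        have g4 : Van (S ∩ {a | o ∈ a.1}) u := by
          convert (b2.smulC G).sub (g3.mono Set.inter_subset_left) using 1; abel
        obtain ⟨G', g5, d, g6, g7⟩ := h3 u g2 g4 p q
        refine ⟨G' * G, mul_mem g5 g1, d, g6, van_of_xk_mul _ ?_⟩
        convert (g7.add (g3.smulC G')).sub (c1.smulC (G' * G)) using 1
        rw [map_mul]
        simp only [smul_sub, mul_sub, mul_smul_comm, mul_smul]
        abel
      obtain ⟨d, e1, e2⟩ := ih _ h2 d0 c3 fun f e c => by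
        rw [c2]; refine b3 f _ ?_
        rw [map_add, Finsupp.degree_single]; omega
      refine ⟨trc0 (D + 1) u0 + xk Y (fun _ => o) * d,
        add_mem b1 (mul_mem (const_mem (X o)) e1), ?_⟩
      convert c1.add (van_xk_mul _ e2) using 1
      rw [mul_sub]; abel
  intro v hv
  obtain ⟨D, hD⟩ := exists_deg_bound v
  exact key D S hS v hv hD

theorem exists_rl (E : Finset Λ) :
    ∃ (rl : Λ → ℕ) (k : ℕ), Function.Injective rl ∧ Ek univ rl k = E := by
  let e := Fintype.equivFin Λ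
  refine ⟨fun s => if s ∈ E then e s else e s + Fintype.card Λ, Fintype.card Λ, fun a b h => ?_, ?_⟩
  · have ha := (e a).2
    have hb := (e b).2
    apply e.injective; apply Fin.ext
    simp only at h
    split_ifs at h <;> omega
  · ext s
    have hs := (e s).2
    simp only [mem_Ek, mem_univ, true_and]
    split_ifs with h
    · simp [h, hs]
    · simp [h]

theorem gen_mem {n : ℕ} (b : Pyx n) (h : Λ → ℕ × ℕ) :
    (fun f : Λ → Fin n => b * ∏ s, xy (f s) (h s)) ∈ TI Λ (⊤ : Ideal (Pyx n)) :=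
  Submodule.subset_span ⟨b, trivial, h, rfl⟩

theorem xy_add {n : ℕ} (i : Fin n) (a b : ℕ × ℕ) : xy i (a + b) = xy i a * xy i b := by
  simp only [xy, Prod.fst_add, Prod.snd_add, pow_add, map_mul]; ring

theorem xy_zero {n : ℕ} (i : Fin n) : xy i 0 = 1 := by simp [xy]

theorem prod_single {n : ℕ} (f : Λ → Fin n) (s : Λ) (a : ℕ × ℕ) :
    ∏ t, xy (f t) (Pi.single (M := fun _ => ℕ × ℕ) s a t) = xy (f s) a := by
  rw [prod_eq_single s]
  · simp
  · intro t _ ht; rw [Pi.single_eq_of_ne ht, xy_zero]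
  · simp

theorem TI_mul {n : ℕ} {u w : (Λ → Fin n) → Pyx n} (hu : u ∈ TI Λ (⊤ : Ideal (Pyx n)))
    (hw : w ∈ TI Λ (⊤ : Ideal (Pyx n))) : u * w ∈ TI Λ (⊤ : Ideal (Pyx n)) := by
  induction hu using Submodule.span_induction with
  | mem a ha =>
    obtain ⟨b, -, h, rfl⟩ := ha
    induction hw using Submodule.span_induction with
    | mem c hc =>
      obtain ⟨b', -, h', rfl⟩ := hc
      convert gen_mem (b * b') (h + h') using 1
      funext f
      simp only [Pi.mul_apply, Pi.add_apply, xy_add, prod_mul_distrib]; ring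
    | zero => rw [mul_zero]; exact zero_mem _
    | add c d _ _ h1 h2 => rw [mul_add]; exact add_mem h1 h2
    | smul r c _ h1 => rw [mul_smul_comm]; exact Submodule.smul_mem _ _ h1
  | zero => rw [zero_mul]; exact zero_mem _
  | add c d _ _ h1 h2 => rw [add_mul]; exact add_mem h1 h2
  | smul r c _ h1 => rw [smul_mul_assoc]; exact Submodule.smul_mem _ _ h1

theorem mem_TI_iff {n : ℕ} (u : (Λ → Fin n) → Pyx n) :
    u ∈ TI Λ (⊤ : Ideal (Pyx n)) ↔ u ∈ RR (X : Fin n → MvPolynomial (Fin n) ℂ) (univ : Finset Λ) := by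
  constructor
  · intro hu
    induction hu using Submodule.span_induction with
    | mem a ha =>
      obtain ⟨b, -, h, rfl⟩ := ha
      have : (fun f : Λ → Fin n => b * ∏ s, xy (f s) (h s)) = (fun _ => b) *
          ∏ s, (av (MvPolynomial (Fin n) ℂ) s ^ (h s).1 *
            bv (X : Fin n → MvPolynomial (Fin n) ℂ) s ^ (h s).2) := by
        funext f
        simp [av, bv, xy, Finset.prod_apply]
      rw [this]
      exact mul_mem (const_mem b) (prod_mem fun s _ =>
        mul_mem (pow_mem (av_mem (mem_univ s)) _) (pow_mem (bv_mem (mem_univ s)) _))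
    | zero => exact zero_mem _
    | add c d _ _ h1 h2 => exact add_mem h1 h2
    | smul r c _ h1 => exact Subalgebra.smul_mem _ h1 _
  · intro hu
    refine RR_induction (p := fun u => u ∈ TI Λ (⊤ : Ideal (Pyx n))) hu (fun s _ => ?_)
      (fun s _ => ?_) (fun g => ?_) (fun a b _ _ h1 h2 => add_mem h1 h2)
      fun a b _ _ h1 h2 => TI_mul h1 h2
    · convert gen_mem 1 (Pi.single s (1, 0)) using 1
      funext f; rw [prod_single]; simp [av, xy]
    · convert gen_mem 1 (Pi.single s (0, 1)) using 1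
      funext f; rw [prod_single]; simp [bv, xy]
    · convert gen_mem g (0 : Λ → ℕ × ℕ) using 1
      funext f; simp [xy_zero]

theorem van_Zo {o : P} {E : Finset Λ} {v : Am P Λ Y} :
    Van (Zo o E) v ↔ ∀ f, (∀ s ∈ E, f s ≠ o) → v f = 0 :=
  ⟨fun h f hf => MvPolynomial.ext _ _ fun e => by rw [coeff_zero]; exact h f e hf,
    fun h f e a => by rw [h f a, coeff_zero]⟩

end PCAux

open PCAux

theorem cstep : S_C := by
  intro P Λ Y _ _ _ _ _ _ y N L _ hL hN hsl rk rl hr hl S hS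
  refine deg_ind (fun S => ∃ rk, Function.Injective rk ∧ Up N L rk rl S) ?_ S ⟨rk, hr, hS⟩
  rintro S ⟨rk, hr, hS⟩
  obtain ⟨o, ho⟩ := exists_first (card_pos.1 (by omega) : N.Nonempty) rk
  have e : S ∩ {a | o ∈ a.1} = S ∩ Yo N L o ∅ := by
    ext a
    exact and_congr_right fun ha => ⟨fun h => ⟨hS.1 a ha, h, by simp⟩, fun h => h.2.1⟩
  refine ⟨o, ?_, ⟨rot rk o, rot_inj hr o, up_sh ho.1 hS⟩, fun u hu h p q => ?_⟩
  · have := hsl o rk rl hr hl ho 0 (Nat.zero_le _) S hS
    rwa [Ek_zero, ← e] at this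
  · exact loc_div_xo hL hN hr hl ho hS hu (e ▸ h) p q

theorem g0 : S_PGC → S_G0 := by
  intro hP m Λ _ _ E v hv
  rcases Nat.eq_zero_or_pos m with rfl | hm
  · obtain ⟨G, hG, u, hu, h⟩ := hv 0 0
    have h1 : G = 1 := by
      refine Submonoid.mem_bot.1 (Submonoid.closure_le.2 ?_ hG)
      rintro g ⟨r, -, s, -, h, -⟩
      exact absurd (Subsingleton.elim (α := Fin 1) r s) h
    exact ⟨u, hu, fun f hf => by simpa [h1] using h f hf⟩
  obtain ⟨hL, hG, -⟩ := hP m Λ
  obtain ⟨rl, k, hl, hk⟩ := exists_rl E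
  have ho : First (univ : Finset (Fin (m + 1))) Fin.val 0 := ⟨mem_univ _, fun j _ => Nat.zero_le _⟩
  have hN : 2 ≤ (univ : Finset (Fin (m + 1))).card := by simp; omega
  have e : (Zo 0 E : Set (Lab (Fin (m + 1)) Λ)) ∩ {a | 0 ∈ a.1} = Yo univ univ 0 E := by
    ext a
    exact ⟨fun h => ⟨fun _ _ => mem_univ _, h.2, h.1⟩, fun h => ⟨h.2.2, h.2.1⟩⟩
  have key : Good (X : Fin (m + 1) → MvPolynomial (Fin (m + 1)) ℂ) (Zo 0 E)
      (RR (X : Fin (m + 1) → MvPolynomial (Fin (m + 1)) ℂ) (univ : Finset Λ)) := by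
    refine deg_ind (fun S => S = Zo 0 E) ?_ _ rfl
    rintro S rfl
    refine ⟨0, ?_, rfl, fun u hu h p q => ?_⟩
    · rw [e, ← hk]
      exact hG univ univ Fin.val rl Fin.val_injective hl _ (up_Yo Fin.val_injective ho k)
    · obtain ⟨p', q', a1, a2, a3, a4, a5⟩ := exists_pair
        (X : Fin (m + 1) → MvPolynomial (Fin (m + 1)) ℂ) hN Fin.val_injective p q
      obtain ⟨G, g1, r, g2, g3⟩ := (hL univ p' q' a1 a2 a3).2.2.2.2.2.2.2 univ E 0 (ho.ne a2 a4)
        (subset_univ _) u hu (e ▸ h)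
      refine ⟨G, a5 g1, r, g2, van_Zo.2 fun f hf => ?_⟩
      have := g3 f (fun _ _ => mem_univ _) hf
      simp only [Pi.sub_apply, Pi.smul_apply, smul_eq_mul, Pi.mul_apply, xk, this, sub_self]
  obtain ⟨u, hu, h⟩ := key v fun p q => by
    obtain ⟨G, g1, u, g2, g3⟩ := hv p q
    refine ⟨G, g1, u, (mem_TI_iff u).1 g2, van_Zo.2 fun f hf => ?_⟩
    simp only [Pi.sub_apply, Pi.smul_apply, smul_eq_mul, g3 f hf, sub_self]
  exact ⟨u, (mem_TI_iff u).2 hu, fun f hf => sub_eq_zero.1 (van_Zo.1 h f hf)⟩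

end

end Pool.Agent.P.MP_c2aaf5_co
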