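import Pool.Agent.P.MP_c2aaf5_co.PSet

/-! Structure of the strata `f t ∈ T`. -/

set_option linter.unusedSectionVars false

namespace Pool.Agent.P.MP_c2aaf5_co

open MvPolynomial Finset

noncomputable section

namespace PESAux

variable {P Λ Y : Type} [Fintype P] [DecidableEq P] [Fintype Λ] [DecidableEq Λ] [CommRing Y]
  [IsDomain Y] {y : P → Y} {N : Finset P} {L : Finset Λ} {rk : P → ℕ} {rl : Λ → ℕ}

theorem vdm (hy : Function.Injective y) (J : Finset P) {n : ℕ} (hn : n ≤ J.card) (c : ℕ → Y)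
    (h : ∀ j ∈ J, ∑ i ∈ range n, y j ^ i * c i = 0) {i : ℕ} (hi : i < n) : c i = 0 := by
  classical
  have h1 : (∑ i ∈ range n, Polynomial.monomial i (c i)) = 0 := by
    refine Polynomial.eq_zero_of_degree_lt_of_eval_finset_eq_zero (J.image y) ?_ fun x hx => ?_
    · rw [card_image_of_injective _ hy]
      refine (Polynomial.degree_sum_le _ _).trans_lt ?_
      refine (Finset.sup_lt_iff (WithBot.bot_lt_coe _)).2 fun k hk => ?_
      refine (Polynomial.degree_monomial_le _ _).trans_lt ?_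
      exact_mod_cast (mem_range.1 hk).trans_le hn
    · obtain ⟨j, hj, rfl⟩ := mem_image.1 hx
      rw [Polynomial.eval_finsetSum, ← h j hj]
      exact sum_congr rfl fun k _ => by rw [Polynomial.eval_monomial, mul_comm]
  have h2 := congrArg (fun p => Polynomial.coeff p i) h1
  simpa [Polynomial.finsetSum_coeff, Polynomial.coeff_monomial, hi] using h2

theorem coef_zero (hy : Function.Injective y) {t : Λ} (ht : t ∉ L) {X : Set (Lab P Λ)}
    (hX : MeasS L X) (o : P) (m : ℕ) {g : ℕ → Am P Λ Y} (hg : ∀ i, Meas L (g i))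
    (h : Van (Ee N o t X ∩ Cm N m) (∑ i ∈ range (m - 1), bv y t ^ i * g i)) {i : ℕ}
    (hi : i < m - 1) : Van (X ∩ Cm N m) (g i) := fun f e a => by
  refine vdm hy ((N.filter (· ∈ zs e)).erase o)
    ((Nat.sub_le_sub_right a.2 1).trans pred_card_le_card_erase) (fun i => coeff e (g i f))
    (fun j hj => ?_) hi
  have hf : ∀ s ∈ L, f s = Function.update f t j s := fun s hs => by
    rw [Function.update_of_ne (fun e : s = t => ht (e ▸ hs))]
  obtain ⟨h1, h2⟩ := mem_erase.1 hj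
  obtain ⟨h3, h4⟩ := mem_filter.1 h2
  have h5 := h (Function.update f t j) e ⟨⟨hX _ _ _ hf a.1, by simpa using h3, by simpa using h4,
    by simpa using h1⟩, a.2⟩
  rw [Finset.sum_apply, coeff_sum] at h5
  rw [← h5]
  refine sum_congr rfl fun k _ => ?_
  rw [coeff_bv_pow_mul, Function.update_self, hg k f _ hf]

theorem step (hB : Base y) (hL : LocAll Λ y) (hN : 2 ≤ N.card) (hPG : PG y N L) {o : P} {t : Λ}
    (ht : t ∉ L) (hr : Function.Injective rk) (hl : Function.Injective rl) (ho : First N rk o)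
    {V W : Set (Lab P Λ)} (hV : Up N L rk rl V) (hW : Up N L rk rl W) (hoV : ∀ a ∈ V, o ∈ a.1)
    (m : ℕ) {v : Am P Λ Y} (h1 : Loc y (Ee N o t V) (RR y (insert t L)) v)
    (h2 : Van (Ee N o t V ∩ W) v) (h3 : Van (Ee N o t V ∩ Cm N (m + 1)) v) :
    ∃ v' ∈ IdV y L (insert t L) W, Van (Ee N o t V ∩ Cm N m) (v - v') := by
  have hU := hV.inter_Cm m
  have hsub : Ee N o t V ∩ Cm N m ⊆ V ∩ Cm N m := fun a ha => ⟨ha.1.1, ha.2⟩
  have loc : ∀ p q, ∃ G ∈ Mult y univ p q, ∃ g : ℕ → Am P Λ Y, (∀ i, g i ∈ RR y L) ∧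
      Van (Ee N o t V ∩ Cm N m)
        ((C G : MvPolynomial P Y) • v - ∑ i ∈ range (m - 1), bv y t ^ i * g i) := fun p q => by
    obtain ⟨G1, a1, u, a2, a3⟩ := h1 p q
    obtain ⟨p', q', b1, b2, b3, b4, b5⟩ := exists_pair y hN hr p q
    have a4 : Van (Ee N o t V ∩ Cm N (m + 1)) u := by
      convert (h3.smulC G1).sub (a3.mono Set.inter_subset_left) using 1
      abel
    obtain ⟨G2, c1, g, c2, c3⟩ := (hL N p' q' b1 b2 b3).2.2.2.2.1 L t o m V ho.1 (ho.ne b2 b4) ht
      (fun a ha => ⟨hV.1 a ha, hoV a ha⟩) hV.tup hV.meas u a2 a4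
    refine ⟨G2 * G1, mul_mem (b5 c1) a1, g, fun i => (c2 i).1, ?_⟩
    convert ((a3.mono Set.inter_subset_left).smulC G2).add c3 using 1
    rw [smul_sub, smul_smul, ← map_mul]
    abel
  choose G hG g hg hv using loc
  have hG0 : G o o ≠ 0 := mult_ne_zero hB.inj (hG o o)
  have cmp : ∀ p q i, i < m - 1 → Van (V ∩ Cm N m)
      ((C (G o o) : MvPolynomial P Y) • g p q i - (C (G p q) : MvPolynomial P Y) • g o o i) := by
    intro p q i hi
    refine coef_zero hB.inj ht hV.meas o m (g := fun i =>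
      (C (G o o) : MvPolynomial P Y) • g p q i - (C (G p q) : MvPolynomial P Y) • g o o i)
      (fun i => RR_meas (sub_mem (Subalgebra.smul_mem _ (hg p q i) _)
        (Subalgebra.smul_mem _ (hg o o i) _))) ?_ hi
    convert ((hv o o).smulC (G p q)).sub ((hv p q).smulC (G o o)) using 1
    simp only [mul_sub, sum_sub_distrib, mul_smul_comm, ← smul_sum, smul_sub]
    rw [smul_comm (C (G p q) : MvPolynomial P Y) (C (G o o) : MvPolynomial P Y) v]
    abel
  have glob : ∀ i, ∃ h ∈ RR y L, i < m - 1 →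
      Van (V ∩ Cm N m) (g o o i - (C (G o o) : MvPolynomial P Y) • h) := fun i => by
    by_cases hi : i < m - 1
    swap
    · exact ⟨0, zero_mem _, fun h => absurd h hi⟩
    have key : ∀ p q f e, (zs e, f) ∈ V ∩ Cm N m →
        G p q * coeff e (g o o i f) = G o o * coeff e (g p q i f) := fun p q f e a => by
      have := van_sub_iff.1 (cmp p q i hi) f e a
      rw [coeff_C_smul, coeff_C_smul] at this
      exact this.symm
    obtain ⟨γ, c1, -⟩ := divLab (v := g o o i) hB (fun _ => G o o) (V ∩ Cm N m)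
      (fun _ _ => mult_le_multA y _ _ _ (hG o o)) fun p q => ⟨G p q, hG p q, g p q i, key p q⟩
    obtain ⟨h, c2, c3⟩ := hPG rk rl hr hl _ hU γ fun p q => ⟨G p q, hG p q, g p q i, hg p q i,
      van_sub_iff.2 fun f e a => by
        apply mul_left_cancel₀ hG0
        rw [coeff_C_smul, ← key p q f e a, c1 f e a]
        ring⟩
    refine ⟨h, c2, fun _ => van_sub_iff.2 fun f e a => ?_⟩
    rw [coeff_C_smul, c1 f e a, van_sub_iff.1 c3 f e a]
  choose h hh hh' using glob
  have e1 : Van (Ee N o t V ∩ Cm N m) (v - ∑ i ∈ range (m - 1), bv y t ^ i * h i) := by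
    refine Van.of_smulC hG0 ?_
    have := Van.sum (range (m - 1)) fun i hi =>
      ((hh' i (mem_range.1 hi)).mul_left hU.tup (bv y t ^ i)).mono hsub
    convert (hv o o).add this using 1
    simp only [mul_sub, sum_sub_distrib, mul_smul_comm, ← smul_sum, smul_sub]
    abel
  have e2 : ∀ i, ∃ u ∈ RR y L, Van W u ∧ (i < m - 1 → Van (V ∩ Cm N m) (h i - u)) := fun i => by
    by_cases hi : i < m - 1
    swap
    · exact ⟨0, zero_mem _, van_zero _, fun h => absurd h hi⟩
    have c1 : Van ((V ∩ W) ∩ Cm N m) (h i) := by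
      refine coef_zero hB.inj ht (hV.inter hW).meas o m (fun i => RR_meas (hh i)) ?_ hi
      have c2 : Van (Ee N o t (V ∩ W) ∩ Cm N m) v :=
        h2.mono fun a ha => ⟨⟨ha.1.1.1, ha.1.2⟩, ha.1.1.2⟩
      have c3 := e1.mono (S' := Ee N o t (V ∩ W) ∩ Cm N m) fun a ha => ⟨⟨ha.1.1.1, ha.1.2⟩, ha.2⟩
      convert c2.sub c3 using 1
      abel
    obtain ⟨u, d1, d2, d3⟩ := dist hL hN hr hl hU hW (hPG rk rl hr hl _ (hU.union hW)) (hh i)
      (c1.mono fun a ha => ⟨⟨ha.1.1, ha.2⟩, ha.1.2⟩)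
    exact ⟨u, d1, d3, fun _ => d2⟩
  choose u hu hu1 hu2 using e2
  refine ⟨∑ i ∈ range (m - 1), bv y t ^ i * u i, Submodule.sum_mem _ fun i _ =>
    Submodule.subset_span ⟨u i, hu i, hu1 i, _, pow_mem (bv_mem (mem_insert_self _ _)) i, rfl⟩, ?_⟩
  have := Van.sum (range (m - 1)) fun i hi =>
    ((hu2 i (mem_range.1 hi)).mul_left hU.tup (bv y t ^ i)).mono hsub
  convert e1.add this using 1
  simp only [mul_sub, sum_sub_distrib]
  abel

end PESAux

theorem es : S_ES := by
  intro P Λ Y _ _ _ _ _ _ y N L hB hL hN hPG o t ht rk rl hr hl ho V W hV hW hoV v h1 h2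
  have key : ∀ d m, N.card + 1 ≤ m + d →
      ∃ v' ∈ IdV y L (insert t L) W, Van (Ee N o t V ∩ Cm N m) (v - v') := by
    intro d
    induction d with
    | zero =>
      refine fun m hm => ⟨0, zero_mem _, fun f e a => ?_⟩
      have h3 : m ≤ N.card := le_trans a.2 (card_filter_le _ _)
      omega
    | succ d ih =>
      intro m hm
      obtain ⟨v1, a1, a2⟩ := ih (m + 1) (by omega)
      obtain ⟨v2, b1, b2⟩ := PESAux.step hB hL hN hPG ht hr hl ho hV hW hoV m
        (h1.sub (IdV_le (subset_insert _ _) a1))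
        (h2.sub ((IdV_van hW.tup a1).mono Set.inter_subset_right)) a2
      exact ⟨v1 + v2, add_mem a1 b1, by rwa [← sub_sub]⟩
  obtain ⟨v', a1, a2⟩ := key (N.card + 1) 0 (by omega)
  exact ⟨v', a1, a2.mono fun a ha => ⟨ha, Nat.zero_le _⟩⟩

end

end Pool.Agent.P.MP_c2aaf5_co
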