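import Pool.Agent.P.MP_c2aaf5_co.PSet

/-! The top stratum of an element supported on `f t = o`. -/

set_option linter.unusedSectionVars false

namespace Pool.Agent.P.MP_c2aaf5_co

open MvPolynomial Finset

noncomputable section

namespace PGSAux

variable {P Λ Y : Type} [Fintype P] [DecidableEq P] [Fintype Λ] [DecidableEq Λ] [CommRing Y]
  {S : Set (Lab P Λ)} {v : Am P Λ Y} {y : P → Y} {N : Finset P} {L : Finset Λ}
  {rk : P → ℕ} {rl : Λ → ℕ}

theorem loc (hL : LocAll Λ y) (hN : 2 ≤ N.card) (hr : Function.Injective rk)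
    (hl : Function.Injective rl) {o : P} (ho : First N rk o) {k : ℕ} {t : Λ} (hn : Next L rl k t)
    {c : ℕ} (hS : Up N (insert t L) rk rl S)
    (hv : Loc y (S ∩ Yo N (insert t L) o (Ek L rl k)) (RR y (insert t L)) v)
    (h1 : Van (S ∩ Yo N (insert t L) o (insert t (Ek L rl k))) v)
    (h2 : Van (S ∩ Yo N (insert t L) o (Ek L rl k) ∩ At t o ∩
      Ge N (insert t L) o (Ek L rl k) (c + 1)) v) (p q : P) :
    ∃ G ∈ Mult y univ p q, ∃ g ∈ RR y L, Van (Ge N L o (Ek L rl k) (c + 1)) g ∧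
      ∀ f e, (zs e, f) ∈ Zc N L o (Ek L rl k) t c S →
        G * coeff e (v f) = phi y N o (Ek L rl k) (zs e, f) * coeff e (g f) := by
  obtain ⟨G0, hG0, u, hu, e0⟩ := hv p q
  obtain ⟨p', q', a1, a2, a3, a4, a5⟩ := exists_pair y hN hr p q
  have uE : Up N (insert t L) rk rl (Yo N (insert t L) o (Ek L rl k)) := by
    have := up_Yo (L := insert t L) (rl := rl) hr ho k
    rwa [hn.Ek] at this
  have u1 : Up N (insert t L) rk rl (Yo N (insert t L) o (insert t (Ek L rl k))) := by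
    have := up_Yo (L := insert t L) (rl := rl) hr ho (rl t + 1)
    rwa [hn.Ek_succ' hl] at this
  have u2 : Up N (insert t L) rk rl (Yo N (insert t L) o (Ek L rl k) ∩
      Ge N (insert t L) o (Ek L rl k) (c + 1)) := by
    have := up_YoGe (L := insert t L) (rl := rl) hr ho (le_refl k) (c + 1)
    rwa [hn.Ek] at this
  have hvW : Van ((S ∩ Yo N (insert t L) o (Ek L rl k)) ∩
      (Yo N (insert t L) o (insert t (Ek L rl k)) ∪ (Yo N (insert t L) o (Ek L rl k) ∩
        Ge N (insert t L) o (Ek L rl k) (c + 1)))) v := by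
    rintro f e ⟨a, b | b⟩
    · exact h1 f e ⟨a.1, b⟩
    · by_cases h : f t = o
      · exact h2 f e ⟨⟨a, h⟩, b.2⟩
      · refine h1 f e ⟨a.1, a.2.1, a.2.2.1, fun s hs => ?_⟩
        rcases mem_insert.1 hs with rfl | hs
        · exact h
        · exact a.2.2.2 s hs
  have huW : Van ((S ∩ Yo N (insert t L) o (Ek L rl k)) ∩
      (Yo N (insert t L) o (insert t (Ek L rl k)) ∪ (Yo N (insert t L) o (Ek L rl k) ∩
        Ge N (insert t L) o (Ek L rl k) (c + 1)))) u := fun f e a => by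
    rw [← van_sub_iff.1 e0 f e a.1, coeff_C_smul, hvW f e a, mul_zero]
  obtain ⟨G1, hG1, w, hw, e1, e2⟩ := (hL N p' q' a1 a2 a3).1 (insert t L) rk rl hl a4 _ _
    (hS.inter uE) (u1.union u2) u hu huW
  obtain ⟨G2, hG2, g, hg, e3, e4⟩ := (hL N p' q' a1 a2 a3).2.1 L (Ek L rl k) t o c ho.1
    (ho.ne a2 a4) (Ek_subset _ _ _) hn.1 w hw (van_union.1 e2).1
    ((van_union.1 e2).2.mono fun a ha => ⟨ha.1.1, ha.2⟩)
  refine ⟨G2 * G1 * G0, mul_mem (a5 (mul_mem hG2 hG1)) hG0, g, hg, e3, fun f e a => ?_⟩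
  have b0 := van_sub_iff.1 e0 f e a.1
  have b1 := van_sub_iff.1 e1 f e a.1
  rw [coeff_C_smul] at b0 b1
  rw [← e4 f e a.1.2 a.2.1 a.2.2, ← b1, ← b0]; ring

end PGSAux

theorem gs : S_GS := by
  intro P Λ Y _ _ _ _ _ _ y N L hB hL hN o rk rl k t hr hl ho hn hPG c S hS v hv h1 h2
  have hloc := PGSAux.loc hL hN hr hl ho hn hS hv h1 h2
  obtain ⟨v', e1, e2⟩ := divLab (v := v) hB (phi y N o (Ek L rl k)) (Zc N L o (Ek L rl k) t c S)
    (fun a _ => phi_mem_multA y N o _ a) fun p q => by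
      obtain ⟨G, hG, g, -, -, h⟩ := hloc p q
      exact ⟨G, hG, g, h⟩
  obtain ⟨U, hU, s1, s2, s3⟩ := exists_gs_set ho.1 hn hS c
  have hf : ∀ f : Λ → P, ∀ s ∈ L, f s = Function.update f t o s := fun f s hs => by
    rw [Function.update_of_ne (fun e : s = t => hn.1 (e ▸ hs))]
  have z : Van (Ge N L o (Ek L rl k) (c + 1)) (sb t o v') := fun f e a => by
    refine e2 _ e fun b => ?_
    have h3 := b.2.2
    rw [← Ts_congr o _ fun s hs => hf f s (Ek_subset _ _ _ hs)] at h3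
    have h4 := a.2
    omega
  obtain ⟨g, hg, e3⟩ := hPG (rot rk o) rl (rot_inj hr o) hl U hU (sb t o v') fun p q => by
    obtain ⟨G, hG, g, hg, b1, b2⟩ := hloc p q
    refine ⟨G, hG, g, hg, van_sub_iff.2 fun f e a => ?_⟩
    rw [coeff_C_smul]
    rcases s3 _ _ a with b | b
    · rw [z f e b, b1 f e b, mul_zero]
    · have b3 := b2 _ e b
      rw [e1 _ e b, ← RR_meas hg f _ (hf f)] at b3
      refine mul_left_cancel₀ (multA_ne_zero hB.inj (phi_mem_multA y N o (Ek L rl k)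
        (zs e, Function.update f t o))) ?_
      rw [← b3, sb]; ring
  refine ⟨g, hg, fun f e a => ?_, fun f e a b d => ?_⟩
  · rw [← van_sub_iff.1 e3 f e (s1 a)]; exact z f e a
  · have m : (zs e, f) ∈ Zc N L o (Ek L rl k) t c S := ⟨a, b, d⟩
    rw [e1 f e m, ← van_sub_iff.1 e3 f e (s2 m), sb_apply_of_eq v' b]

end

end Pool.Agent.P.MP_c2aaf5_co
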