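import Pool.Agent.P.MP_c2aaf5_co.PSet
import Pool.Agent.P.MP_c2aaf5_co.DefK

/-! Package B12: Koszul exactness in `y` for the powers of the ideal of alternants. -/

namespace Pool.Agent.P.MP_c2aaf5_co

open MvPolynomial Finset

noncomputable section

namespace PKFJAux

variable {n : ℕ} {Λ : Type} [Fintype Λ] [DecidableEq Λ]

theorem mem_TI_top (v : (Λ → Fin n) → Pyx n) :
    v ∈ TI Λ (⊤ : Ideal (Pyx n)) ↔ v ∈ RR (X : Fin n → MvPolynomial (Fin n) ℂ) univ := by
  constructor
  · intro hv
    induction hv using Submodule.span_induction with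
    | mem x hx =>
      obtain ⟨b, -, h, rfl⟩ := hx
      have e : (fun f : Λ → Fin n => b * ∏ s, xy (f s) (h s)) = (fun _ => b) *
          ∏ s, (av (MvPolynomial (Fin n) ℂ) s ^ (h s).1 * bv X s ^ (h s).2) := by
        funext f
        simp [xy, av, bv]
      rw [e]
      exact mul_mem (const_mem b) (prod_mem fun s _ =>
        mul_mem (pow_mem (av_mem (mem_univ s)) _) (pow_mem (bv_mem (mem_univ s)) _))
    | zero => exact zero_mem _
    | add a b _ _ h1 h2 => exact add_mem h1 h2
    | smul c a _ h1 => exact Subalgebra.smul_mem _ h1 _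
  · intro hv
    have gen : ∀ (b : Pyx n) (h : Λ → ℕ × ℕ),
        (fun f : Λ → Fin n => b * ∏ s, xy (f s) (h s)) ∈ TI Λ (⊤ : Ideal (Pyx n)) :=
      fun b h => Submodule.subset_span ⟨b, trivial, h, rfl⟩
    have one : ∀ (s : Λ) (p : ℕ × ℕ),
        (fun f : Λ → Fin n => xy (f s) p) ∈ TI Λ (⊤ : Ideal (Pyx n)) := fun s p => by
      convert gen 1 (Pi.single s p) using 2 with f
      rw [one_mul, Finset.prod_eq_single s (fun t _ ht => by simp [ht, xy]) (by simp)]
      simp
    refine RR_induction (p := fun v => v ∈ TI Λ (⊤ : Ideal (Pyx n))) hv (fun s _ => ?_)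
      (fun s _ => ?_) (fun g => ?_) (fun a b _ _ h1 h2 => add_mem h1 h2) fun a b _ _ h1 h2 => ?_
    · convert one s (1, 0) using 2 with f
      simp [av, xy]
    · convert one s (0, 1) using 2 with f
      simp [bv, xy]
    · convert gen g 0 using 2 with f
      simp [xy]
    · refine Submodule.span_induction₂ (p := fun a b _ _ => a * b ∈ TI Λ (⊤ : Ideal (Pyx n)))
        ?_ (fun _ _ => by rw [zero_mul]; exact zero_mem _)
        (fun _ _ => by rw [mul_zero]; exact zero_mem _)
        (fun _ _ _ _ _ _ h3 h4 => by rw [add_mul]; exact add_mem h3 h4)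
        (fun _ _ _ _ _ _ h3 h4 => by rw [mul_add]; exact add_mem h3 h4)
        (fun _ _ _ _ _ h3 => by rw [smul_mul_assoc]; exact Submodule.smul_mem _ _ h3)
        (fun _ _ _ _ _ h3 => by rw [mul_smul_comm]; exact Submodule.smul_mem _ _ h3) h1 h2
      rintro _ _ ⟨c, -, h, rfl⟩ ⟨c', -, h', rfl⟩
      convert gen (c * c') (h + h') using 2 with f
      simp only [Pi.mul_apply, xy, Pi.add_apply, Prod.fst_add, Prod.snd_add, pow_add, map_mul,
        Finset.prod_mul_distrib]
      ring

theorem mem_TI_empty (I : Ideal (Pyx n)) (v : (Empty → Fin n) → Pyx n) :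
    v ∈ TI Empty I ↔ ∀ f, v f ∈ I := by
  constructor
  · intro hv
    induction hv using Submodule.span_induction with
    | mem x hx =>
      obtain ⟨b, hb, h, rfl⟩ := hx
      intro f
      exact I.mul_mem_right _ hb
    | zero => exact fun _ => zero_mem _
    | add a b _ _ h1 h2 => exact fun f => add_mem (h1 f) (h2 f)
    | smul c a _ h1 => exact fun f => I.mul_mem_left _ (h1 f)
  · intro hv
    refine Submodule.subset_span ⟨v default, hv _, default, funext fun f => ?_⟩
    rw [Subsingleton.elim f default]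
    simp

theorem dd_eval {σ ι K : Type} [LinearOrder σ] [CommRing K] (U : Finset σ) (ξ : σ → K)
    (φ : Finset σ → ι → K) (I : Finset σ) (f : ι) :
    dd U ξ φ I f = dd U ξ (fun J => φ J f) I := by
  simp only [dd_def, Finset.sum_apply, Pi.smul_apply, an_apply]
  refine Finset.sum_congr rfl fun s _ => ?_
  split_ifs <;> simp

theorem kf_of_kfi {I : Ideal (Pyx n)} (h : KFI I) :
    KF univ (fun r : Fin n => (C (X r) : Pyx n)) I.toAddSubgroup ⊥ := by
  intro p φ hφ hd
  obtain ⟨ψ, h1, h2⟩ := h Empty p (fun J _ => φ J)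
    (fun J => ⟨(mem_TI_empty I _).2 fun _ => (hφ J).1, fun hJ => funext fun _ => (hφ J).2 hJ⟩)
    fun J => AddSubgroup.mem_bot.2 (funext fun f => by
      rw [dd_eval]; exact AddSubgroup.mem_bot.1 (hd J))
  refine ⟨fun J => ψ J default, fun J => ⟨(mem_TI_empty I _).1 (h1 J).1 _, fun hJ => ?_⟩,
    fun J => ?_⟩
  · simp only [(h1 J).2 hJ, Pi.zero_apply]
  · have := congrFun (AddSubgroup.mem_bot.1 (h2 J)) default
    rw [Pi.sub_apply, Pi.sub_apply, dd_eval] at this
    exact AddSubgroup.mem_bot.2 this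

end PKFJAux

open PKFJAux in
theorem kfj : S_PGC → S_Base → S_KG → S_BlkK → S_KFJ := by
  intro hP hB hK hBl m k
  refine kf_of_kfi ?_
  induction k with
  | succ k ih => rw [pow_succ]; exact hBl _ _ ih
  | zero =>
    intro Λ _ _
    have h := hK (Fin (m + 1)) Λ _ X (hB _).1 (hP m Λ).1 (hP m Λ).2 (hB _).2 univ univ Fin.val
      (fun s => (Fintype.equivFin Λ s : ℕ)) Fin.val_injective
      (Fin.val_injective.comp (Fintype.equivFin Λ).injective) _ up_all
    have e1 : VanG (MvPolynomial (Fin (m + 1)) ℂ)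
        {a : Lab (Fin (m + 1)) Λ | All univ univ a.2} = ⊥ := by
      refine eq_bot_iff.2 fun v hv => AddSubgroup.mem_bot.2 (funext fun f => ?_)
      exact MvPolynomial.ext _ _ fun e => hv f e fun s _ => mem_univ _
    have e2 : (TI Λ (JJ (m + 1) ^ 0)).toAddSubgroup =
        (RR (X : Fin (m + 1) → MvPolynomial (Fin (m + 1)) ℂ) univ).toSubring.toAddSubgroup := by
      rw [pow_zero, Ideal.one_eq_top]
      ext v
      exact mem_TI_top v
    rw [KG, e1, sup_bot_eq] at h
    rw [e2]
    exact h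

end

end Pool.Agent.P.MP_c2aaf5_co
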