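import Pool.Agent.P.MP_c2aaf5_co.PSet
import Pool.Agent.P.MP_c2aaf5_co.DefK

/-! Package B8: Koszul exactness in the variables `y` for all label sets of the family. -/

set_option linter.unusedSectionVars false

namespace Pool.Agent.P.MP_c2aaf5_co

open MvPolynomial Finset

noncomputable section

namespace PKGAux

section general
variable {σ : Type} [LinearOrder σ] {X X' : Type} [AddCommGroup X] [AddCommGroup X']
  {K K' : Type} [CommRing K] [Module K X] [CommRing K'] [Module K' X']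

theorem dd_map (g : X →+ X') {U : Finset σ} {ξ : σ → K} {ξ' : σ → K'}
    (h : ∀ s v, g (ξ s • v) = ξ' s • g v) (φ : Finset σ → X) (I : Finset σ) :
    dd U ξ' (fun J => g (φ J)) I = g (dd U ξ φ I) := by
  rw [dd_def, dd_def, Finset.sum_apply, Finset.sum_apply, map_sum]
  refine sum_congr rfl fun s _ => ?_
  rw [Pi.smul_apply, Pi.smul_apply, h, an_apply, an_apply]
  split_ifs <;> simp

theorem val_split {U : Finset σ} {p : ℕ} {A B : AddSubgroup X} {ψ : Finset σ → X}
    (h : Val U p (A ⊔ B) ψ) : ∃ χ, Val U p A χ ∧ In B (ψ - χ) := by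
  have h1 : ∀ I, ∃ a ∈ A, ψ I - a ∈ B ∧ (ψ I = 0 → a = 0) := fun I => by
    by_cases h0 : ψ I = 0
    · exact ⟨0, zero_mem _, by simp [h0], fun _ => rfl⟩
    · obtain ⟨a, ha, b, hb, e⟩ := AddSubgroup.mem_sup.1 (h I).1
      exact ⟨a, ha, by rw [← e, add_sub_cancel_left]; exact hb, fun h => absurd h h0⟩
  choose χ c1 c2 c3 using h1
  exact ⟨χ, fun I => ⟨c1 I, fun hI => c3 I ((h I).2 hI)⟩, c2⟩

theorem stab_sup {U : Finset σ} {ξ : σ → K} {A B : AddSubgroup X} (hA : Stab0 U ξ A)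
    (hB : Stab0 U ξ B) : Stab0 U ξ (A ⊔ B) := fun s hs v hv => by
  obtain ⟨a, ha, b, hb, rfl⟩ := AddSubgroup.mem_sup.1 hv
  rw [smul_add]
  exact AddSubgroup.add_mem_sup (hA s hs a ha) (hB s hs b hb)

theorem kf_of_le {U : Finset σ} {ξ : σ → K} {A B : AddSubgroup X} (h : A ≤ B) : KF U ξ A B :=
  fun _ φ hφ _ => ⟨0, val_zero _ _ _, fun I => by simpa using h (hφ I).1⟩

end general

variable {P Λ Y : Type} [Fintype P] [DecidableEq P] [LinearOrder P] [Fintype Λ] [DecidableEq Λ]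
  [CommRing Y] {y : P → Y} {N : Finset P} {L : Finset Λ} {rk : P → ℕ} {rl : Λ → ℕ}
  {S : Set (Lab P Λ)}

/-- a coefficient as an additive map -/
def cf (f : Λ → P) (e : P →₀ ℕ) : Am P Λ Y →+ Y :=
  AddMonoidHom.mk' (fun v => coeff e (v f)) fun v w => by simp

theorem cf_dd (f : Λ → P) (e : P →₀ ℕ) (φ : Finset P → Am P Λ Y) (I : Finset P) :
    coeff e (dd univ (fun r => (C (y r) : MvPolynomial P Y)) φ I f) =
      dd univ y (fun J => coeff e (φ J f)) I :=
  (dd_map (cf f e) (ξ := fun r => (C (y r) : MvPolynomial P Y)) (ξ' := y)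
    (fun s v => coeff_C_smul (y s) v f e) φ I).symm

theorem stab_van (S : Set (Lab P Λ)) :
    Stab0 univ (fun r => (C (y r) : MvPolynomial P Y)) (VanG Y S) :=
  fun r _ _ hv => Van.smulC hv (y r)

/-- at most one point -/
theorem small (hK : KF univ y (⊤ : AddSubgroup Y) ⊥) (hN : N.card ≤ 1) (hS : Up N L rk rl S) :
    KG y S L := by
  classical
  rcases S.eq_empty_or_nonempty with rfl | ⟨a0, h0⟩
  · exact kf_of_le fun v _ => van_empty v
  have hf : ∀ T f, (T, f) ∈ S → ∀ s ∈ L, f s = a0.2 s := fun T f a s hs =>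
    card_le_one.1 hN _ (hS.1 _ a s hs) _ (hS.1 _ h0 s hs)
  intro p φ hφ hd
  have h1 : ∀ e : P →₀ ℕ, ∃ ψ : Finset P → Y, Val univ (p + 1 + 1) ⊤ ψ ∧
      ((zs e, a0.2) ∈ S → ∀ I, coeff e (φ I a0.2) = dd univ y ψ I) ∧
      ((∀ I, coeff e (φ I a0.2) = 0) → ψ = 0) := fun e => by
    by_cases c : (zs e, a0.2) ∈ S ∧ ¬∀ I, coeff e (φ I a0.2) = 0
    · obtain ⟨ψ, p1, p2⟩ := hK p (fun I => coeff e (φ I a0.2))
        (fun I => ⟨trivial, fun hI => by simp [(hφ I).2 hI]⟩)
        (fun I => by rw [← cf_dd]; exact hd I _ _ c.1)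
      exact ⟨ψ, p1, fun _ I => sub_eq_zero.1 (p2 I), fun h => absurd h c.2⟩
    · refine ⟨0, val_zero _ _ _, fun a I => ?_, fun _ => rfl⟩
      rw [map_zero]
      exact not_not.1 (fun h => c ⟨a, h⟩) I
  choose ψ p1 p2 p3 using h1
  have h2 : ∀ I, ∃ g : MvPolynomial P Y, ∀ e, coeff e g = ψ e I := fun I => by
    obtain ⟨w, hw⟩ := exists_am (Λ := Λ) (fun _ e => ψ e I) fun _ =>
      (univ.biUnion fun J => (φ J a0.2).support).finite_toSet.subset fun e he => by
        by_contra hn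
        refine he (congrFun (p3 e fun J => ?_) I)
        by_contra h3
        exact hn (mem_coe.2 (mem_biUnion.2 ⟨J, mem_univ _, mem_support_iff.2 h3⟩))
    exact ⟨w a0.2, hw _⟩
  choose g hg using h2
  refine ⟨fun I _ => g I, fun I => ⟨AddSubgroup.mem_sup_left (const_mem (g I)), fun hI => ?_⟩,
    fun I f e a => ?_⟩
  · funext f; ext e
    rw [hg, (p1 e I).2 hI]; rfl
  · have a' : (zs e, a0.2) ∈ S := hS.meas _ _ _ (hf _ _ a) a
    rw [Pi.sub_apply, Pi.sub_apply, coeff_sub, cf_dd]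
    simp only [hg]
    rw [← p2 e a' I, sub_eq_zero]
    obtain ⟨r, hr, b, hb, e1⟩ := AddSubgroup.mem_sup.1 (hφ I).1
    rw [← e1, Pi.add_apply, Pi.add_apply, coeff_add, coeff_add, hb f e a, hb _ e a',
      RR_meas hr f _ (hf _ _ a)]

/-- the elements of `RR` of degree below `D` -/
def RD (y : P → Y) (L : Finset Λ) (D : ℕ) : AddSubgroup (Am P Λ Y) where
  carrier := {u | u ∈ RR y L ∧ ∀ f (e : P →₀ ℕ), D ≤ e.degree → coeff e (u f) = 0}
  add_mem' h h' := ⟨add_mem h.1 h'.1, fun f e a => by simp [h.2 f e a, h'.2 f e a]⟩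
  zero_mem' := ⟨zero_mem _, fun f e _ => by simp⟩
  neg_mem' h := ⟨neg_mem h.1, fun f e a => by simp [h.2 f e a]⟩

theorem stab_RD (D : ℕ) : Stab0 univ (fun r => (C (y r) : MvPolynomial P Y)) (RD y L D) :=
  fun r _ v hv => ⟨Subalgebra.smul_mem _ hv.1 _, fun f e a => by
    rw [coeff_C_smul, hv.2 f e a, mul_zero]⟩

theorem trc0_RD {v : Am P Λ Y} (hv : v ∈ RR y L) (D : ℕ) : trc0 D v ∈ RD y L D :=
  ⟨trc0_mem hv D, fun f e a => by rw [coeff_trc0, if_neg (not_lt.2 a)]⟩

theorem RD_le (D : ℕ) {S' : Set (Lab P Λ)} (h : S' ⊆ S) :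
    RD y L D ⊔ VanG Y S ≤ (RR y L).toSubring.toAddSubgroup ⊔ VanG Y S' :=
  sup_le_sup (fun _ hv => hv.1) fun _ hv => Van.mono hv h

theorem coeff_high {D : ℕ} {v : Am P Λ Y} (hv : v ∈ RD y L D ⊔ VanG Y S) {f : Λ → P} {e : P →₀ ℕ}
    (a : (zs e, f) ∈ S) (h : D ≤ e.degree) : coeff e (v f) = 0 := by
  obtain ⟨r, hr, b, hb, rfl⟩ := AddSubgroup.mem_sup.1 hv
  rw [Pi.add_apply, coeff_add, hr.2 f e h, hb f e a, add_zero]

/-- truncation of the statement for a subset -/
theorem kf_trunc (D : ℕ) {S' : Set (Lab P Λ)} (h : S' ⊆ S) (hK : KG y S' L) :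
    KF univ (fun r => (C (y r) : MvPolynomial P Y)) (RD y L D ⊔ VanG Y S)
      ((RD y L D ⊔ VanG Y S) ⊓ VanG Y S') := by
  intro p φ hφ hd
  obtain ⟨ψ, p1, p2⟩ := hK p φ (hφ.mono (RD_le D h)) fun I => (hd I).2
  obtain ⟨χ, c1, c2⟩ := val_split p1
  have v1 : Val univ (p + 1 + 1) (RD y L D ⊔ VanG Y S) fun I => trc0 D (χ I) := fun I =>
    ⟨AddSubgroup.mem_sup_left (trc0_RD (c1 I).1 D), fun hI => by
      funext f; ext e
      rw [coeff_trc0, (c1 I).2 hI]; simp⟩
  refine ⟨_, v1, fun I => ⟨AddSubgroup.sub_mem _ (hφ I).1 (v1.in.dd (stab_sup (stab_RD D) (stab_van S)) I),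
    fun f e a => ?_⟩⟩
  rw [Pi.sub_apply, Pi.sub_apply, coeff_sub, cf_dd]
  simp only [coeff_trc0]
  split_ifs with hD
  · have h1 := (p2 I).add (c2.dd (stab_van (y := y) S') I) f e a
    rw [map_sub, Pi.sub_apply, Pi.sub_apply, sub_add_sub_cancel, Pi.sub_apply, coeff_sub,
      cf_dd] at h1
    exact h1
  · rw [coeff_high (hφ I).1 (h a) (not_lt.1 hD)]
    exact (zero_sub _).trans (neg_eq_zero.2 (congrFun (map_zero (dd univ y)) I))

/-- division by `x_o` -/
theorem kf_div [IsDomain Y] (hc : S_KFcor) (hL : LocAll Λ y) (hP : PG y N L) (hN : 2 ≤ N.card)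
    (hr : Function.Injective rk) (hl : Function.Injective rl) {o : P} (ho : First N rk o)
    (hS : Up N L rk rl S) (D : ℕ)
    (hK : KF univ (fun r => (C (y r) : MvPolynomial P Y))
      (RD y L D ⊔ VanG Y (sh (fun _ => o) S)) (VanG Y (sh (fun _ => o) S))) :
    KF univ (fun r => (C (y r) : MvPolynomial P Y))
      ((RD y L (D + 1) ⊔ VanG Y S) ⊓ VanG Y (S ∩ Yo N L o ∅)) (VanG Y S) := by
  refine hc P (MvPolynomial P Y) (Am P Λ Y) univ _ (Am P Λ Y) _ _ _ _
    (((RD y L D ⊔ VanG Y (sh (fun _ => o) S)).prod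
      ((RD y L (D + 1) ⊔ VanG Y S) ⊓ VanG Y (S ∩ Yo N L o ∅))) ⊓
      (VanG Y S).comap (AddMonoidHom.snd _ _ -
        (AddMonoidHom.mulLeft (xk Y fun _ => o)).comp (AddMonoidHom.fst _ _)))
    ?_ ?_ ?_ ?_ hK
  · rintro r hr ⟨g, v⟩ ⟨⟨h1, h2, h3⟩, h4⟩
    refine ⟨⟨stab_sup (stab_RD D) (stab_van _) r hr g h1,
      stab_sup (stab_RD _) (stab_van _) r hr v h2, stab_van _ r hr v h3⟩, ?_⟩
    have h5 : Van S (v - xk Y (fun _ => o) * g) := h4
    change Van S ((C (y r) : MvPolynomial P Y) • v -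
      xk Y (fun _ => o) * (C (y r) : MvPolynomial P Y) • g)
    rw [mul_smul_comm, ← smul_sub]
    exact h5.smulC _
  · rintro ⟨g, v⟩ ⟨⟨h1, h2⟩, h4⟩
    have h5 : Van S (v - xk Y (fun _ => o) * g) := h4
    refine ⟨h1, h2, fun h => ?_, fun h => van_of_xk_mul _ ?_⟩
    · have := h5.add (van_xk_mul _ h)
      rwa [sub_add_cancel] at this
    · have := Van.sub h h5
      rwa [sub_sub_cancel] at this
  · intro g hg
    refine ⟨xk Y (fun _ => o) * g, ⟨hg, ?_, fun f e a => ?_⟩, ?_⟩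
    · obtain ⟨r, hr, b, hb, rfl⟩ := AddSubgroup.mem_sup.1 hg
      change xk Y (fun _ => o) * (r + b) ∈ _
      rw [mul_add]
      refine AddSubgroup.add_mem_sup ⟨mul_mem (const_mem (X o)) hr.1, fun f e a => ?_⟩
        (van_xk_mul _ hb)
      by_cases h0 : e o = 0
      · exact coeff_xk_mul_zero _ r f e h0
      · obtain ⟨e', rfl⟩ := exists_eq_add_single h0
        rw [map_add, Finsupp.degree_single] at a
        exact (coeff_xk_mul (fun _ => o) r f e').trans (hr.2 f e' (by omega))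
    · exact coeff_xk_mul_zero _ g f e (mem_zs.1 a.2.2.1)
    · change Van S (xk Y (fun _ => o) * g - xk Y (fun _ => o) * g)
      rw [sub_self]; exact van_zero _
  · rintro v ⟨h1, h2⟩
    obtain ⟨r, hr', b, hb, rfl⟩ := AddSubgroup.mem_sup.1 h1
    have h3 : Van (S ∩ Yo N L o ∅) r := by
      have := Van.sub h2 (Van.mono hb Set.inter_subset_left)
      rwa [add_sub_cancel_right] at this
    obtain ⟨d, hd, h4⟩ := divX (fun _ => o) (hP _ rl (rot_inj hr o) hl _ (up_sh ho.1 hS))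
      (h3.mono fun a ha => ⟨ha.1, hS.1 a ha.1, ha.2, by simp⟩)
      (loc_div_xo hL hN hr hl ho hS hr'.1 h3)
    refine ⟨trc0 D d, ⟨AddSubgroup.mem_sup_left (trc0_RD hd D), h1, h2⟩, ?_⟩
    change Van S (r + b - xk Y (fun _ => o) * trc0 D d)
    rw [add_sub_right_comm]
    refine Van.add (van_sub_iff.2 fun f e a => ?_) hb
    have h5 := van_sub_iff.1 h4 f e a
    by_cases h0 : e o = 0
    · rw [h5, coeff_xk_mul_zero _ _ f e h0, coeff_xk_mul_zero _ _ f e h0]
    · obtain ⟨e', rfl⟩ := exists_eq_add_single h0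
      rw [coeff_xk_mul (fun _ => o), coeff_trc0]
      split_ifs with hD
      · rw [h5, coeff_xk_mul (fun _ => o)]
      · exact hr'.2 f _ (by rw [map_add, Finsupp.degree_single]; omega)

/-- step C -/
theorem stepC [IsDomain Y] (he : S_KFext) (hc : S_KFcor) (hL : LocAll Λ y) (hP : PG y N L)
    (hN : 2 ≤ N.card) (hl : Function.Injective rl)
    (h0 : ∀ (rk : P → ℕ) o S, Function.Injective rk → First N rk o → Up N L rk rl S →
      KG y (S ∩ Yo N L o ∅) L) (hr : Function.Injective rk) (hS : Up N L rk rl S) : KG y S L := by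
  have key : ∀ D (rk : P → ℕ) S, Function.Injective rk → Up N L rk rl S →
      KF univ (fun r => (C (y r) : MvPolynomial P Y)) (RD y L D ⊔ VanG Y S) (VanG Y S) := by
    intro D
    induction D with
    | zero => exact fun rk S _ _ => kf_of_le fun v hv f e a => coeff_high hv a (Nat.zero_le _)
    | succ D ih =>
      intro rk S hr hS
      obtain ⟨o, ho⟩ := exists_first (card_pos.1 (by omega) : N.Nonempty) rk
      exact he P (MvPolynomial P Y) (Am P Λ Y) univ _ _ _ _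
        (le_inf le_sup_right fun v hv => Van.mono hv Set.inter_subset_left) inf_le_left
        (stab_sup (stab_RD _) (stab_van _))
        (kf_trunc (D + 1) Set.inter_subset_left (h0 rk o S hr ho hS))
        (kf_div hc hL hP hN hr hl ho hS D (ih _ _ (rot_inj hr o) (up_sh ho.1 hS)))
  intro p φ hφ hd
  obtain ⟨χ, c1, c2⟩ := val_split hφ
  choose D hD using fun I => exists_deg_bound (χ I)
  obtain ⟨ψ, p1, p2⟩ := key (univ.sup D) rk S hr hS p φ (hφ.of_in fun I => by
    have := AddSubgroup.add_mem_sup (show χ I ∈ RD y L (univ.sup D) from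
      ⟨(c1 I).1, fun f e a => hD I f e ((le_sup (mem_univ I)).trans a)⟩) (c2 I)
    rwa [Pi.sub_apply, add_sub_cancel] at this) hd
  exact ⟨ψ, p1.mono (RD_le _ subset_rfl), p2⟩

end PKGAux

open PKGAux in
theorem kg : S_KFext → S_KFcor → S_KGB → S_KG := by
  intro he hc hb P Λ Y _ _ _ _ _ _ _ y hB hL hX hK N
  induction N using Finset.strongInduction with
  | H N ihN =>
  intro L
  induction L using Finset.strongInduction with
  | H L ihL =>
  intro rk rl hr hl S hS
  by_cases hN : N.card ≤ 1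
  · exact small hK hN hS
  have hN2 : 2 ≤ N.card := by omega
  have key : ∀ (rk : P → ℕ) o S, Function.Injective rk → First N rk o → Up N L rk rl S →
      ∀ m k, L.card - (Ek L rl k).card ≤ m → KG y (S ∩ Yo N L o (Ek L rl k)) L := by
    intro rk o S hr ho hS m
    induction m with
    | zero =>
      intro k hk
      rw [eq_of_subset_of_card_le (Ek_subset L rl k) (by omega)]
      exact ihN _ (erase_ssubset ho.1) L rk rl hr hl _ (up_slice ho.1 hS)
    | succ m ih =>
      intro k hk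
      by_cases hE : Ek L rl k = L
      · exact ih k (by rw [hE]; omega)
      obtain ⟨t, ht, hn⟩ := exists_next hE
      have e1 := hn.Ek
      have e2 := hn.Ek_succ' hl
      rw [insert_erase ht] at e1 e2
      have h1 := ih (rl t + 1) (by
        rw [e2, card_insert_of_notMem hn.notMem_Ek, ← e1]; omega)
      have h2 := hb P Λ Y y hB hL hX N (L.erase t) o rk rl k t hN2 hr hl ho hn
        (fun rk' S' hr' hS' => ihL _ (erase_ssubset ht) rk' rl hr' hl S' hS') S
      rw [insert_erase ht, ← e2, ← e1] at h2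
      exact h2 hS h1
  refine stepC he hc hL (hX.1 N L) hN2 hl (fun rk o S hr ho hS => ?_) hr hS
  have := key rk o S hr ho hS _ 0 le_rfl
  rwa [Ek_zero] at this

end

end Pool.Agent.P.MP_c2aaf5_co
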