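import Pool.Agent.P.MP_c2aaf5_co.PSet
import Pool.Agent.P.MP_c2aaf5_co.DefK

/-! Second pass of the polygraph induction: the slice step for Koszul exactness. -/

set_option linter.unusedSectionVars false

namespace Pool.Agent.P.MP_c2aaf5_co

open MvPolynomial Finset

noncomputable section

namespace PKGBAux

section gen
variable {σ K X : Type} [LinearOrder σ] [CommRing K] [AddCommGroup X] [Module K X]
  {U : Finset σ} {ξ : σ → K} {A B : AddSubgroup X}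

theorem stab_sup (hA : Stab0 U ξ A) (hB : Stab0 U ξ B) : Stab0 U ξ (A ⊔ B) := by
  intro s hs v hv
  obtain ⟨a, ha, b, hb, rfl⟩ := AddSubgroup.mem_sup.1 hv
  rw [smul_add]
  exact AddSubgroup.add_mem_sup (hA s hs a ha) (hB s hs b hb)

theorem stab_inf (hA : Stab0 U ξ A) (hB : Stab0 U ξ B) : Stab0 U ξ (A ⊓ B) :=
  fun s hs v hv => ⟨hA s hs v hv.1, hB s hs v hv.2⟩

theorem kf_of_le (h : A ≤ B) : KF U ξ A B := fun _ φ hφ _ =>
  ⟨0, val_zero _ _ _, fun I => by simpa using h (hφ I).1⟩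

/-- passing from `(R ⊔ B) / B` to `(R ⊔ B') / ((R ⊔ B') ⊓ B)` for `B' ≤ B` -/
theorem kf_inf (hc : S_KFcor) {R B' : AddSubgroup X} (hR : Stab0 U ξ R) (hB : Stab0 U ξ B)
    (hB' : Stab0 U ξ B') (hle : B' ≤ B) (h : KF U ξ (R ⊔ B) B) :
    KF U ξ (R ⊔ B') ((R ⊔ B') ⊓ B) := by
  let Γ : AddSubgroup (X × X) :=
    { carrier := {g | g.1 ∈ R ⊔ B ∧ g.2 ∈ R ⊔ B' ∧ g.1 - g.2 ∈ B}
      add_mem' := by
        rintro a b ⟨a1, a2, a3⟩ ⟨b1, b2, b3⟩
        refine ⟨add_mem a1 b1, add_mem a2 b2, ?_⟩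
        have : (a + b).1 - (a + b).2 = (a.1 - a.2) + (b.1 - b.2) := by
          simp only [Prod.fst_add, Prod.snd_add]; abel
        rw [this]; exact add_mem a3 b3
      zero_mem' := ⟨zero_mem _, zero_mem _, by simp⟩
      neg_mem' := by
        rintro a ⟨a1, a2, a3⟩
        refine ⟨neg_mem a1, neg_mem a2, ?_⟩
        have : (-a).1 - (-a).2 = -(a.1 - a.2) := by
          simp only [Prod.fst_neg, Prod.snd_neg]; abel
        rw [this]; exact neg_mem a3 }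
  refine hc σ K X U ξ X (R ⊔ B) B (R ⊔ B') ((R ⊔ B') ⊓ B) Γ ?_ ?_ ?_ ?_ h
  · rintro s hs g ⟨g1, g2, g3⟩
    refine ⟨stab_sup hR hB s hs _ g1, stab_sup hR hB' s hs _ g2, ?_⟩
    have : (ξ s • g).1 - (ξ s • g).2 = ξ s • (g.1 - g.2) := by
      simp only [Prod.smul_fst, Prod.smul_snd, smul_sub]
    rw [this]; exact hB s hs _ g3
  · rintro g ⟨g1, g2, g3⟩
    refine ⟨g1, g2, fun h1 => ⟨g2, ?_⟩, fun h1 => ?_⟩
    · have := sub_mem h1 g3
      rwa [sub_sub_cancel] at this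
    · have := add_mem g3 h1.2
      rwa [sub_add_cancel] at this
  · intro a ha
    obtain ⟨r, hr, b, hb, rfl⟩ := AddSubgroup.mem_sup.1 ha
    exact ⟨r, ha, AddSubgroup.mem_sup_left hr, by simpa using hb⟩
  · intro a ha
    exact ⟨a, sup_le_sup_left hle R ha, ha, by simp⟩

end gen

variable {P Λ Y : Type} [Fintype P] [DecidableEq P] [LinearOrder P] [Fintype Λ] [DecidableEq Λ]
  [CommRing Y] {y : P → Y} {N : Finset P} {L : Finset Λ} {rk : P → ℕ} {rl : Λ → ℕ}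
  {S S' : Set (Lab P Λ)}

/-- the polygraph ring as a subgroup -/
abbrev RG (y : P → Y) (L : Finset Λ) : AddSubgroup (Am P Λ Y) := (RR y L).toSubring.toAddSubgroup

theorem mem_vanG {v : Am P Λ Y} : v ∈ VanG Y S ↔ Van S v := Iff.rfl

theorem mem_RG {v : Am P Λ Y} : v ∈ RG y L ↔ v ∈ RR y L := Iff.rfl

theorem stab_van (y : P → Y) (S : Set (Lab P Λ)) :
    Stab0 univ (fun r => (C (y r) : MvPolynomial P Y)) (VanG Y S) :=
  fun r _ _ hv => Van.smulC hv (y r)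

theorem stab_RG (y : P → Y) (L : Finset Λ) :
    Stab0 univ (fun r => (C (y r) : MvPolynomial P Y)) (RG y L) :=
  fun _ _ _ hv => (RR y L).smul_mem hv _

theorem vanG_anti (h : S' ⊆ S) : VanG Y S ≤ VanG Y S' := fun _ hv => Van.mono hv h

theorem mem_sup_van {v : Am P Λ Y} (h : v ∈ RG y L ⊔ VanG Y S) : ∃ r ∈ RR y L, Van S (v - r) := by
  obtain ⟨r, hr, b, hb, rfl⟩ := AddSubgroup.mem_sup.1 h
  exact ⟨r, hr, by rw [add_sub_cancel_left]; exact hb⟩

/-- the filtration of the slice step -/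
def Ac (y : P → Y) (N : Finset P) (L : Finset Λ) (o : P) (E : Finset Λ) (t : Λ)
    (S : Set (Lab P Λ)) (c : ℕ) : AddSubgroup (Am P Λ Y) :=
  ((RG y (insert t L) ⊔ VanG Y (S ∩ Yo N (insert t L) o E)) ⊓
    VanG Y (S ∩ Yo N (insert t L) o (insert t E))) ⊓
    VanG Y (S ∩ Yo N (insert t L) o E ∩ At t o ∩ Ge N (insert t L) o E c)

variable {o : P} {E : Finset Λ} {t : Λ} {c : ℕ}

theorem mem_Ac {v : Am P Λ Y} : v ∈ Ac y N L o E t S c ↔
    v ∈ RG y (insert t L) ⊔ VanG Y (S ∩ Yo N (insert t L) o E) ∧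
    Van (S ∩ Yo N (insert t L) o (insert t E)) v ∧
    Van (S ∩ Yo N (insert t L) o E ∩ At t o ∩ Ge N (insert t L) o E c) v := and_assoc

theorem stab_Ac : Stab0 univ (fun r => (C (y r) : MvPolynomial P Y)) (Ac y N L o E t S c) :=
  stab_inf (stab_inf (stab_sup (stab_RG _ _) (stab_van _ _)) (stab_van _ _)) (stab_van _ _)

theorem yo_sub : S ∩ Yo N (insert t L) o (insert t E) ⊆ S ∩ Yo N (insert t L) o E :=
  fun _ h => ⟨h.1, h.2.1, h.2.2.1, fun s hs => h.2.2.2 s (mem_insert_of_mem hs)⟩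

theorem van_le_Ac : VanG Y (S ∩ Yo N (insert t L) o E) ≤ Ac y N L o E t S c := fun _ hv =>
  mem_Ac.2 ⟨AddSubgroup.mem_sup_right hv, Van.mono hv yo_sub, Van.mono hv fun _ h => h.1.1⟩

theorem Ac_le_succ : Ac y N L o E t S c ≤ Ac y N L o E t S (c + 1) := fun _ hv =>
  mem_Ac.2 ⟨(mem_Ac.1 hv).1, (mem_Ac.1 hv).2.1,
    (mem_Ac.1 hv).2.2.mono fun _ h => ⟨h.1, h.2.1, Nat.le_of_succ_le h.2.2⟩⟩

theorem Ac_zero : Ac y N L o E t S 0 ≤ VanG Y (S ∩ Yo N (insert t L) o E) := by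
  intro v hv f e a
  by_cases h : f t = o
  · exact (mem_Ac.1 hv).2.2 f e ⟨⟨a, h⟩, a.2.1, Nat.zero_le _⟩
  · refine (mem_Ac.1 hv).2.1 f e ⟨a.1, a.2.1, a.2.2.1, fun s hs => ?_⟩
    rcases mem_insert.1 hs with rfl | hs
    · exact h
    · exact a.2.2.2 s hs

theorem Ac_top : Ac y N L o E t S (N.card + 1) =
    (RG y (insert t L) ⊔ VanG Y (S ∩ Yo N (insert t L) o E)) ⊓
      VanG Y (S ∩ Yo N (insert t L) o (insert t E)) := by
  refine inf_eq_left.2 fun v _ f e a => ?_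
  have h1 : (Ts N o E (zs e, f)).card ≤ N.card := card_le_card (filter_subset _ _)
  have h2 : N.card + 1 ≤ (Ts N o E (zs e, f)).card := a.2.2
  omega

/-- one step of the filtration -/
theorem kf_step [IsDomain Y] (hk : S_KFker) (hc : S_KFcor) (hy : Function.Injective y)
    (hr : Function.Injective rk) (ho : o ∈ N) {k : ℕ} (hn : Next L rl k t)
    (hQ : QS y N L o (Ek L rl k) t) (hG : GS y N L o rk rl k t)
    (hK : ∀ (rk' : P → ℕ) S', Function.Injective rk' → Up N L rk' rl S' → KG y S' L)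
    (hS : Up N (insert t L) rk rl S) (c : ℕ) :
    KF univ (fun r => (C (y r) : MvPolynomial P Y)) (Ac y N L o (Ek L rl k) t S (c + 1))
      (Ac y N L o (Ek L rl k) t S c) := by
  obtain ⟨U, hU, hGe, hZ, hcov⟩ := exists_gs_set ho hn hS c
  set E := Ek L rl k with hE
  have k1 : KG y U L := hK _ U (rot_inj hr o) hU
  have k2 : KG y (Ge N L o E (c + 1)) L := hK _ _ (rot_inj hr o) (up_Ge_rot o k (c + 1))
  have k3 := kf_inf hc (stab_RG y L) (stab_van y _) (stab_van y U) (vanG_anti hGe) k2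
  have s1 := stab_sup (stab_RG y L) (stab_van y U)
  have s2 := stab_inf s1 (stab_van y (Ge N L o E (c + 1)))
  have k4 := hk P (MvPolynomial P Y) (Am P Λ Y) univ _ _ _ _
    (le_inf le_sup_right (vanG_anti hGe)) inf_le_left s1 s2 k1 k3
  let Γ : AddSubgroup (Am P Λ Y × Am P Λ Y) :=
    { carrier := {g | g.1 ∈ (RG y L ⊔ VanG Y U) ⊓ VanG Y (Ge N L o E (c + 1)) ∧
        g.2 ∈ Ac y N L o E t S (c + 1) ∧ ∀ f e, (zs e, f) ∈ Zc N L o E t c S →
          coeff e (g.2 f) = phi y N o E (zs e, f) * coeff e (g.1 f)}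
      add_mem' := by
        rintro a b ⟨a1, a2, a3⟩ ⟨b1, b2, b3⟩
        refine ⟨add_mem a1 b1, add_mem a2 b2, fun f e h => ?_⟩
        simp only [Prod.fst_add, Prod.snd_add, Pi.add_apply, coeff_add, a3 f e h, b3 f e h, mul_add]
      zero_mem' := ⟨zero_mem _, zero_mem _, fun f e _ => by simp⟩
      neg_mem' := by
        rintro a ⟨a1, a2, a3⟩
        refine ⟨neg_mem a1, neg_mem a2, fun f e h => ?_⟩
        simp only [Prod.fst_neg, Prod.snd_neg, Pi.neg_apply, coeff_neg, a3 f e h, mul_neg] }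
  refine hc P (MvPolynomial P Y) (Am P Λ Y) univ _ (Am P Λ Y) _ _ _ _ Γ ?_ ?_ ?_ ?_ k4
  · rintro s hs g ⟨g1, g2, g3⟩
    refine ⟨s2 s hs _ g1, stab_Ac s hs _ g2, fun f e h => ?_⟩
    simp only [Prod.smul_fst, Prod.smul_snd, coeff_C_smul, g3 f e h]
    ring
  · rintro g ⟨g1, g2, g3⟩
    refine ⟨g1, g2, fun h1 => mem_Ac.2 ⟨(mem_Ac.1 g2).1, (mem_Ac.1 g2).2.1, fun f e a => ?_⟩,
      fun h1 => ?_⟩
    · by_cases h2 : (Ts N o E (zs e, f)).card = c
      · have hz : (zs e, f) ∈ Zc N L o E t c S := ⟨a.1.1, a.1.2, h2⟩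
        rw [g3 f e hz, h1 f e (hZ hz), mul_zero]
      · have h3 : c ≤ (Ts N o E (zs e, f)).card := a.2.2
        exact (mem_Ac.1 g2).2.2 f e ⟨a.1, a.2.1, show c + 1 ≤ _ by omega⟩
    · obtain ⟨r, hr', hb⟩ := mem_sup_van g1.1
      have hb' := van_sub_iff.1 hb
      have z1 : Van (Zc N L o E t c S) r := fun f e a => by
        have h2 := (mem_Ac.1 h1).2.2 f e ⟨⟨a.1, a.2.1⟩, a.1.2.1, a.2.2.ge⟩
        rw [g3 f e a] at h2
        rw [← hb' f e (hZ a)]
        exact (mul_eq_zero.1 h2).resolve_left (multA_ne_zero hy (phi_mem_multA y N o E _))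
      intro f e a
      rw [hb' f e a]
      rcases hcov _ _ a with h2 | h2
      · rw [← hb' f e a]; exact g1.2 f e h2
      · rw [RR_meas hr' f (Function.update f t o) fun s hs => by
          rw [Function.update_of_ne (fun e : s = t => hn.1 (e ▸ hs))]]
        exact z1 _ e h2
  · intro g hg
    obtain ⟨r, hr', hb⟩ := mem_sup_van hg.1
    have hb' := van_sub_iff.1 hb
    obtain ⟨u, u1, u2, u3, u4⟩ := hQ c r hr' fun f e a => by
      rw [← hb' f e (hGe a)]; exact hg.2 f e a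
    refine ⟨u, hg, mem_Ac.2 ⟨AddSubgroup.mem_sup_left u1, u2.mono fun _ h => h.2,
      u3.mono fun _ h => ⟨⟨h.1.1.2, h.1.2⟩, h.2⟩⟩, fun f e a => ?_⟩
    rw [u4 f e a.1.2 a.2.1 a.2.2, hb' f e (hZ a)]
  · intro v hv
    obtain ⟨v1, v2, v3⟩ := mem_Ac.1 hv
    obtain ⟨r, hr', hb⟩ := mem_sup_van v1
    obtain ⟨g, g1, g2, g3⟩ := hG c S hS v (Loc.of_mem hr' hb) v2 v3
    exact ⟨g, ⟨AddSubgroup.mem_sup_left g1, g2⟩, hv, fun f e a => g3 f e a.1 a.2.1 a.2.2⟩

end PKGBAux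

open PKGBAux in
theorem kgb : S_KFext → S_KFker → S_KFcor → S_KGB := by
  intro he hk hc P Λ Y _ _ _ _ _ _ _ y hB _ hP N L o rk rl k t hN hr hl ho hn hK S hS h1
  obtain ⟨hQ, hG⟩ := hP.2 N L o rk rl k t hN hr hl ho hn
  have key : ∀ c, KF univ (fun r => (C (y r) : MvPolynomial P Y)) (Ac y N L o (Ek L rl k) t S c)
      (VanG Y (S ∩ Yo N (insert t L) o (Ek L rl k))) := by
    intro c
    induction c with
    | zero => exact kf_of_le Ac_zero
    | succ c ih =>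
      exact he P (MvPolynomial P Y) (Am P Λ Y) univ _ _ _ _ van_le_Ac Ac_le_succ stab_Ac
        (kf_step hk hc hB.inj hr ho.1 hn hQ hG hK hS c) ih
  have k1 := kf_inf hc (stab_RG y (insert t L)) (stab_van y _) (stab_van y _) (vanG_anti yo_sub) h1
  rw [← Ac_top] at k1
  refine he P (MvPolynomial P Y) (Am P Λ Y) univ _ _ _ _ van_le_Ac ?_
    (stab_sup (stab_RG _ _) (stab_van _ _)) k1 (key _)
  exact fun _ hv => (mem_Ac.1 hv).1

end

end Pool.Agent.P.MP_c2aaf5_co
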