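import Pool.Agent.P.MP_c2aaf5_co.PSet

/-! The linear step: trading an alternant in the nonzero points for an alternant in all points. -/

set_option linter.unusedSectionVars false

namespace Pool.Agent.P.MP_c2aaf5_co

open MvPolynomial Finset

noncomputable section

namespace PLinAux

variable {n : ℕ}

theorem xy_add (i : Fin n) (h h' : ℕ × ℕ) : xy i (h + h') = xy i h * xy i h' := by
  simp only [xy, Prod.fst_add, Prod.snd_add, pow_add, map_mul]
  ring

/-- polynomial functions of one point -/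
def FS (n : ℕ) : Submodule (Pyx n) (Fin n → Pyx n) :=
  Submodule.span _ (Set.range fun (h : ℕ × ℕ) (i : Fin n) => xy i h)

theorem xy_mem (h : ℕ × ℕ) : (fun i : Fin n => xy i h) ∈ FS n := Submodule.subset_span ⟨h, rfl⟩

theorem one_mem_FS : (1 : Fin n → Pyx n) ∈ FS n := by
  convert xy_mem (n := n) (0, 0) using 1
  funext i
  simp [xy]

theorem x_mem : (fun i : Fin n => (X i : Pyx n)) ∈ FS n := by
  convert xy_mem (n := n) (1, 0) using 2 with i
  simp [xy]

theorem y_mem : (fun i : Fin n => (C (X i) : Pyx n)) ∈ FS n := by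
  convert xy_mem (n := n) (0, 1) using 2 with i
  simp [xy]

theorem const_mem (c : Pyx n) : (fun _ : Fin n => c) ∈ FS n := by
  convert (FS n).smul_mem c one_mem_FS using 1
  funext i
  simp

theorem mul_mem_FS {u v : Fin n → Pyx n} (hu : u ∈ FS n) (hv : v ∈ FS n) : u * v ∈ FS n := by
  induction hu using Submodule.span_induction with
  | mem x hx =>
    obtain ⟨h, rfl⟩ := hx
    induction hv using Submodule.span_induction with
    | mem x hx =>
      obtain ⟨h', rfl⟩ := hx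
      convert xy_mem (n := n) (h + h') using 1
      funext i
      exact (xy_add i h h').symm
    | zero => rw [mul_zero]; exact zero_mem _
    | add a b _ _ h1 h2 => rw [mul_add]; exact add_mem h1 h2
    | smul c a _ h1 => rw [mul_smul_comm]; exact Submodule.smul_mem _ _ h1
  | zero => rw [zero_mul]; exact zero_mem _
  | add a b _ _ h1 h2 => rw [add_mul]; exact add_mem h1 h2
  | smul c a _ h1 => rw [smul_mul_assoc]; exact Submodule.smul_mem _ _ h1

theorem prod_mem_FS (T : Finset (Fin n)) :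
    (fun i : Fin n => (C (∏ r ∈ T, (X i - X r)) : Pyx n)) ∈ FS n := by
  induction T using Finset.induction_on with
  | empty => simpa using const_mem (n := n) 1
  | insert r T hr ih =>
    convert mul_mem_FS (sub_mem y_mem (const_mem (C (X r)))) ih using 1
    funext i
    simp only [prod_insert hr, map_mul, map_sub, Pi.mul_apply, Pi.sub_apply]

theorem exists_sum {ι : Type} (F : ι → Fin n → Pyx n) (hF : ∀ j, F j ∈ FS n) :
    ∃ c : ι → (ℕ × ℕ) →₀ Pyx n, ∀ j i, F j i = ∑ h ∈ (c j).support, c j h * xy i h := by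
  choose c hc using fun j => Finsupp.mem_span_range_iff_exists_finsupp.1 (hF j)
  refine ⟨c, fun j i => ?_⟩
  rw [← hc j, Finsupp.sum, Finset.sum_apply]
  rfl

/-- alternants in the points `e i` -/
def JE {k : ℕ} (e : Fin k → Fin n) : Ideal (Pyx n) :=
  Ideal.span (Set.range fun h : Fin k → ℕ × ℕ => (Matrix.of fun i j => xy (e i) (h j)).det)

theorem det_mem {k : ℕ} (e : Fin k → Fin n) (F : Fin k → Fin n → Pyx n) (hF : ∀ j, F j ∈ FS n) :
    (Matrix.of fun j i => F j (e i)).det ∈ JE e := by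
  obtain ⟨c, hc⟩ := exists_sum F hF
  have h1 : (Matrix.of fun j i => F j (e i)).det = Matrix.detRowAlternating
      fun j => ∑ h ∈ (c j).support, c j h • fun i => xy (e i) h := by
    rw [Matrix.det]
    congr 1
    funext j i
    rw [Matrix.of_apply, hc, Finset.sum_apply]
    rfl
  rw [h1, ← AlternatingMap.coe_multilinearMap, MultilinearMap.map_sum_finset]
  refine sum_mem fun r _ => ?_
  rw [MultilinearMap.map_smul_univ]
  refine Ideal.mul_mem_left _ _ (Ideal.subset_span ⟨r, ?_⟩)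
  exact (Matrix.det_transpose _).symm

theorem xy_sub_mem (a b : Fin n) (h : ℕ × ℕ) :
    xy a h - xy b h ∈ nn (X : Fin n → MvPolynomial (Fin n) ℂ) a b := by
  have h1 : Ideal.Quotient.mk (nn (X : Fin n → MvPolynomial (Fin n) ℂ) a b) (X a) =
      Ideal.Quotient.mk _ (X b) := Ideal.Quotient.eq.2 (Ideal.subset_span (Or.inl rfl))
  have h2 : Ideal.Quotient.mk (nn (X : Fin n → MvPolynomial (Fin n) ℂ) a b) (C (X a) : Pyx n) =
      Ideal.Quotient.mk (nn (X : Fin n → MvPolynomial (Fin n) ℂ) a b) (C (X b) : Pyx n) := by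
    rw [Ideal.Quotient.eq, ← map_sub]
    exact Ideal.subset_span (Or.inr rfl)
  rw [← Ideal.Quotient.eq]
  simp only [xy, map_mul, map_pow, h1, h2]

theorem JE_le {k : ℕ} (e : Fin k → Fin n) {a b : Fin k} (hab : a ≠ b) :
    JE e ≤ nn (X : Fin n → MvPolynomial (Fin n) ℂ) (e a) (e b) := by
  rw [JE, Ideal.span_le]
  rintro _ ⟨h, rfl⟩
  rw [SetLike.mem_coe, ← Ideal.Quotient.eq_zero_iff_mem]
  refine (RingHom.map_det (Ideal.Quotient.mk (nn (X : Fin n → MvPolynomial (Fin n) ℂ) (e a) (e b)))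
    (Matrix.of fun i j => xy (e i) (h j))).trans
    (Matrix.det_zero_of_row_eq hab (funext fun j => ?_))
  exact Ideal.Quotient.eq.2 (xy_sub_mem _ _ _)

theorem sub_mem_mult {a b r s : Fin n} (h : r ≠ s) (h1 : ¬(r = a ∧ s = b)) (h2 : ¬(r = b ∧ s = a)) :
    X r - X s ∈ Mult (X : Fin n → MvPolynomial (Fin n) ℂ) univ a b :=
  Submonoid.subset_closure ⟨r, mem_univ _, s, mem_univ _, h, h1, h2, rfl⟩

theorem exists_mul_mem (a b : Fin n) :
    ∃ G ∈ Mult (X : Fin n → MvPolynomial (Fin n) ℂ) univ a b,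
      ∀ w ∈ FS n, a = b ∨ w a = 0 → C G * w b ∈ JJ n := by
  let T : Fin n → Finset (Fin n) := fun j =>
    univ.filter fun r => j ≠ r ∧ ¬(j = a ∧ r = b) ∧ ¬(j = b ∧ r = a)
  refine ⟨∏ j, ∏ r ∈ T j, (X j - X r), prod_mem fun j _ => prod_mem fun r hr => ?_,
    fun w hw ha => ?_⟩
  · obtain ⟨-, h1, h2, h3⟩ := mem_filter.1 hr
    exact sub_mem_mult h1 h2 h3
  let F : Fin n → Fin n → Pyx n := fun j i =>
    C (∏ r ∈ T j, (X i - X r)) * if j = b then w i else 1
  have hF : ∀ j, F j ∈ FS n := fun j => by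
    refine mul_mem_FS (prod_mem_FS (T j)) (v := fun i => if j = b then w i else 1) ?_
    split_ifs
    exacts [hw, one_mem_FS]
  have h0 : ∀ j i, j ≠ i → ¬(j = a ∧ i = b) → F j i = 0 := fun j i h1 h2 => by
    by_cases h3 : j = b ∧ i = a
    · rcases ha with ha | ha
      · exact absurd (h3.1.trans (h3.2.trans ha).symm) h1
      · simp only [F, if_pos h3.1, h3.2, ha, mul_zero]
    · have h4 : ∏ r ∈ T j, (X i - X r : MvPolynomial (Fin n) ℂ) = 0 :=
        prod_eq_zero (i := i) (mem_filter.2 ⟨mem_univ _, h1, h2, h3⟩) (sub_self _)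
      simp only [F, h4, map_zero, zero_mul]
  have h1 : (Matrix.of fun j i => F j i).det = ∏ j, F j j := by
    rcases le_total a b with h | h
    · exact Matrix.det_of_isUpperTriangular fun j i hij => h0 j i (ne_of_gt hij)
        fun e => absurd h (not_le.2 (e.1 ▸ e.2 ▸ hij))
    · exact Matrix.det_of_isLowerTriangular _ fun j i hij => h0 j i (ne_of_lt hij)
        fun e => absurd h (not_le.2 (e.1 ▸ e.2 ▸ hij))
  have h2 := det_mem id F hF
  change (Matrix.of fun j i => F j i).det ∈ JJ n at h2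
  rw [h1] at h2
  simpa only [F, prod_mul_distrib, prod_ite_eq', mem_univ, if_true, map_prod] using h2

theorem exists_span_mul_le (a b : Fin n) :
    ∃ G ∈ Mult (X : Fin n → MvPolynomial (Fin n) ℂ) univ a b, (a = b → C G ∈ JJ n) ∧
      Ideal.span {C G} * nn (X : Fin n → MvPolynomial (Fin n) ℂ) a b ≤ JJ n := by
  obtain ⟨G, hG, h⟩ := exists_mul_mem a b
  refine ⟨G, hG, fun e => by simpa using h 1 one_mem_FS (Or.inl e), ?_⟩
  rw [nn, Ideal.span_mul_span', Ideal.span_le]
  rintro _ ⟨_, rfl, _, rfl | rfl, rfl⟩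
  · have := h _ (sub_mem (const_mem (X a)) x_mem) (Or.inr (sub_self _))
    rw [Pi.sub_apply] at this
    exact this
  · have := h _ (sub_mem (const_mem (C (X a))) y_mem) (Or.inr (sub_self _))
    rw [Pi.sub_apply, ← map_sub] at this
    exact this

variable {Λ : Type} [Fintype Λ] [DecidableEq Λ] {I I' : Ideal (Pyx n)}

theorem prod_mem_TI {b : Pyx n} (hb : b ∈ I) (F : Λ → Fin n → Pyx n) (hF : ∀ s, F s ∈ FS n) :
    (fun f : Λ → Fin n => b * ∏ s, F s (f s)) ∈ TI Λ I := by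
  obtain ⟨c, hc⟩ := exists_sum F hF
  have h1 : (fun f : Λ → Fin n => b * ∏ s, F s (f s)) =
      ∑ r ∈ Fintype.piFinset fun s => (c s).support,
        (∏ s, c s (r s)) • fun f : Λ → Fin n => b * ∏ s, xy (f s) (r s) := by
    funext f
    simp only [hc, Finset.prod_univ_sum, Finset.sum_apply, Pi.smul_apply, smul_eq_mul, mul_sum,
      prod_mul_distrib]
    exact sum_congr rfl fun r _ => by ring
  rw [h1]
  exact sum_mem fun r _ => Submodule.smul_mem _ _ (Submodule.subset_span ⟨b, hb, r, rfl⟩)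

theorem smul_mem_TI {g : Pyx n} (hg : ∀ b ∈ I, g * b ∈ I') {v : (Λ → Fin n) → Pyx n}
    (hv : v ∈ TI Λ I) : g • v ∈ TI Λ I' := by
  induction hv using Submodule.span_induction with
  | mem x hx =>
    obtain ⟨b, hb, h, rfl⟩ := hx
    exact Submodule.subset_span ⟨g * b, hg b hb, h, funext fun f => (mul_assoc _ _ _).symm⟩
  | zero => rw [smul_zero]; exact zero_mem _
  | add a b _ _ h1 h2 => rw [smul_add]; exact add_mem h1 h2
  | smul c a _ h1 => rw [smul_comm]; exact Submodule.smul_mem _ _ h1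

theorem cons_mem_TI {p : ℕ} (c : Fin n) {Ψ : (Fin (p + 1) → Fin n) → Pyx n}
    (h : Ψ ∈ TI (Fin (p + 1)) I) : (fun f => Ψ (Fin.cons c f)) ∈ TI (Fin p) I := by
  induction h using Submodule.span_induction with
  | mem x hx =>
    obtain ⟨b, hb, h, rfl⟩ := hx
    refine Submodule.subset_span ⟨b * xy c (h 0), I.mul_mem_right _ hb, fun s => h s.succ, ?_⟩
    funext f
    simp only [Fin.prod_univ_succ, Fin.cons_zero, Fin.cons_succ, mul_assoc]
  | zero => exact zero_mem _
  | add a b _ _ h1 h2 => exact add_mem h1 h2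
  | smul c a _ h1 => exact Submodule.smul_mem _ c h1

theorem cons_sub_mem {p : ℕ} {c s : Fin n} {N : Ideal (Pyx n)} (hN : ∀ h, xy c h - xy s h ∈ N)
    {Ψ : (Fin (p + 1) → Fin n) → Pyx n} (h : Ψ ∈ TI (Fin (p + 1)) I) (f : Fin p → Fin n) :
    Ψ (Fin.cons c f) - Ψ (Fin.cons s f) ∈ I * N := by
  induction h using Submodule.span_induction with
  | mem x hx =>
    obtain ⟨b, hb, h, rfl⟩ := hx
    have := Ideal.mul_mem_right (∏ r : Fin p, xy (f r) (h r.succ)) _
      (Ideal.mul_mem_mul hb (hN (h 0)))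
    convert this using 1
    simp only [Fin.prod_univ_succ, Fin.cons_zero, Fin.cons_succ]
    ring
  | zero => simp
  | add a b _ _ h1 h2 =>
    convert add_mem h1 h2 using 1
    simp only [Pi.add_apply]
    ring
  | smul c a _ h1 =>
    convert Ideal.mul_mem_left _ c h1 using 1
    simp only [Pi.smul_apply, smul_eq_mul]
    ring

variable {m : ℕ} {a b : Fin (m + 1)}

theorem exists_ind (hab : a = 0 ∨ b = 0) :
    ∃ D ∈ Mult (X : Fin (m + 1) → MvPolynomial (Fin (m + 1)) ℂ) univ a b,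
      ∃ E : Fin (m + 1) → Fin (m + 1) → Pyx (m + 1), (∀ t, E t ∈ FS (m + 1)) ∧
        ∀ t i, t ≠ 0 → i ≠ 0 → E t i = if i = t then C D else 0 := by
  let U : Finset (Fin (m + 1)) := univ.erase 0
  let δ : Fin (m + 1) → MvPolynomial (Fin (m + 1)) ℂ := fun t => ∏ c ∈ U.erase t, (X t - X c)
  refine ⟨∏ t ∈ U, δ t, prod_mem fun t ht => prod_mem fun c hc => ?_,
    fun t => (fun _ => C (∏ t' ∈ U.erase t, δ t')) * fun i => C (∏ c ∈ U.erase t, (X i - X c)),
    fun t => mul_mem_FS (const_mem _) (prod_mem_FS _), fun t i ht hi => ?_⟩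
  · have h1 : t ≠ 0 := (mem_erase.1 ht).1
    have h2 : c ≠ 0 := (mem_erase.1 (mem_erase.1 hc).2).1
    refine sub_mem_mult (mem_erase.1 hc).1.symm ?_ ?_
    · rintro ⟨rfl, rfl⟩
      exact hab.elim h1 h2
    · rintro ⟨rfl, rfl⟩
      exact hab.elim h2 h1
  · beta_reduce
    rw [Pi.mul_apply, ← map_mul]
    split_ifs with h
    · subst h
      exact congrArg C (prod_erase_mul U δ (mem_erase.2 ⟨ht, mem_univ _⟩))
    · rw [prod_eq_zero (s := U.erase t) (f := fun c => X i - X c) (i := i)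
        (mem_erase.2 ⟨h, mem_erase.2 ⟨hi, mem_univ _⟩⟩) (sub_self _), mul_zero, map_zero]

theorem exists_mem_JJ' (hab : a = 0 ∨ b = 0) :
    ∃ V ∈ Mult (X : Fin (m + 1) → MvPolynomial (Fin (m + 1)) ℂ) univ a b, C V ∈ JJ' m := by
  obtain ⟨D, hD, E, hE, h⟩ := exists_ind hab
  refine ⟨D ^ m, pow_mem hD m, ?_⟩
  have h1 := det_mem Fin.succ (fun j => E j.succ) fun j => hE _
  have h2 : (Matrix.of fun j i : Fin m => E j.succ i.succ) = Matrix.diagonal fun _ => C D := by
    ext1 j i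
    rw [Matrix.of_apply, h _ _ (Fin.succ_ne_zero _) (Fin.succ_ne_zero _), Matrix.diagonal_apply]
    exact if_congr (Fin.succ_inj.trans eq_comm) rfl rfl
  rw [h2, Matrix.det_diagonal, prod_const, card_univ, Fintype.card_fin] at h1
  rw [map_pow]
  exact h1

theorem exists_interp (hab : a = 0 ∨ b = 0) {I : Ideal (Pyx (m + 1))}
    (c : (Λ → Fin (m + 1)) → Pyx (m + 1)) (hc : ∀ f, (∀ s, f s ≠ 0) → c f ∈ I) :
    ∃ G ∈ Mult (X : Fin (m + 1) → MvPolynomial (Fin (m + 1)) ℂ) univ a b, ∃ u ∈ TI Λ I,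
      ∀ f, (∀ s, f s ≠ 0) → C G * c f = u f := by
  obtain ⟨D, hD, E, hE, h⟩ := exists_ind hab
  refine ⟨D ^ Fintype.card Λ, pow_mem hD _,
    ∑ g ∈ univ.filter fun g : Λ → Fin (m + 1) => ∀ s, g s ≠ 0,
      fun f => c g * ∏ s, E (g s) (f s),
    sum_mem fun g hg => prod_mem_TI (hc g (mem_filter.1 hg).2) (fun s => E (g s)) fun s => hE _,
    fun f hf => ?_⟩
  rw [Finset.sum_apply, sum_eq_single_of_mem f (mem_filter.2 ⟨mem_univ _, hf⟩)]
  · rw [prod_congr rfl fun s _ => (h _ _ (hf s) (hf s)).trans (if_pos rfl), prod_const, card_univ,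
      map_pow, mul_comm]
  · intro g hg hne
    obtain ⟨s, hs⟩ := Function.ne_iff.1 hne
    rw [prod_eq_zero (mem_univ s), mul_zero]
    rw [h _ _ ((mem_filter.1 hg).2 s) (hf s), if_neg hs.symm]

theorem good (h0 : S_G0) (hB : S_Blk) (m j k : ℕ) : GoodI (JJ' m ^ j * JJ (m + 1) ^ k) := by
  induction k with
  | zero =>
    rw [pow_zero, mul_one]
    induction j with
    | zero =>
      rw [pow_zero, Ideal.one_eq_top]
      exact h0 m
    | succ j ih =>
      rw [pow_succ]
      exact (hB m _ ih).2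
  | succ k ih =>
    rw [pow_succ, ← mul_assoc]
    exact (hB m _ ih).1

end PLinAux

open PLinAux

theorem lin : S_G0 → S_Blk → S_Lin := by
  intro h0 hB m p j k Ψ hΨ hz
  suffices H : ∀ a b, ∃ G ∈ Mult (X : Fin (m + 1) → MvPolynomial (Fin (m + 1)) ℂ) univ a b,
      ∃ u ∈ TI (Fin p) (JJ' m ^ j * JJ (m + 1) ^ (k + 1)),
        ∀ f, (∀ s, f s ≠ 0) → C G * Ψ (Fin.cons 0 f) = u f by
    obtain ⟨u, hu, h⟩ := good h0 hB m j (k + 1) (Fin p) univ (fun f => Ψ (Fin.cons 0 f))
      fun a b => by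
        obtain ⟨G, hG, u, hu, h⟩ := H a b
        exact ⟨G, hG, u, hu, fun f hf => h f fun s => hf s (mem_univ s)⟩
    exact ⟨u, hu, fun i hi => (h i fun s _ => hi s).symm⟩
  intro a b
  obtain ⟨G, hG, h1, h2⟩ := exists_span_mul_le a b
  by_cases hc : a ≠ b ∧ (a = 0 ∨ b = 0)
  · obtain ⟨hab, hab0⟩ := hc
    obtain ⟨s, hs, hN⟩ : ∃ s : Fin (m + 1), s ≠ 0 ∧ ∀ h, xy 0 h - xy s h ∈
        nn (X : Fin (m + 1) → MvPolynomial (Fin (m + 1)) ℂ) a b := by
      rcases hab0 with rfl | rfl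
      · exact ⟨b, hab.symm, xy_sub_mem 0 b⟩
      · exact ⟨a, hab, fun h => neg_sub (xy a h) (xy 0 h) ▸ neg_mem (xy_sub_mem a 0 h)⟩
    obtain ⟨V, hV, hV'⟩ := exists_mem_JJ' hab0
    have hJ : JJ (m + 1) ≤ nn (X : Fin (m + 1) → MvPolynomial (Fin (m + 1)) ℂ) a b :=
      JE_le id hab
    have key : ∀ f : Fin p → Fin (m + 1), (∀ s, f s ≠ 0) →
        C V ^ j * (C G ^ (k + 1) * Ψ (Fin.cons 0 f)) ∈ JJ' m ^ j * JJ (m + 1) ^ (k + 1) := by
      intro f hf
      have h3 := cons_sub_mem hN hΨ f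
      rw [hz (Fin.cons s f) (fun r => Fin.cases hs hf r), sub_zero] at h3
      have h6 : JJ' m ^ (j + 1) * JJ (m + 1) ^ k ≤
          nn (X : Fin (m + 1) → MvPolynomial (Fin (m + 1)) ℂ) a b ^ k :=
        Ideal.mul_le_right.trans (Ideal.pow_right_mono hJ k)
      have h4 := Ideal.mul_mono_left h6 h3
      rw [← pow_succ] at h4
      have h5 := Ideal.mul_mem_mul
        (Ideal.pow_mem_pow (Ideal.mem_span_singleton_self (C G : Pyx (m + 1))) (k + 1)) h4
      rw [← mul_pow] at h5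
      exact Ideal.mul_mem_mul (Ideal.pow_mem_pow hV' j) (Ideal.pow_right_mono h2 (k + 1) h5)
    obtain ⟨G', hG', u, hu, h⟩ := exists_interp hab0 _ key
    refine ⟨G' * (V ^ j * G ^ (k + 1)), mul_mem hG' (mul_mem (pow_mem hV _) (pow_mem hG _)), u, hu,
      fun f hf => ?_⟩
    rw [← h f hf]
    simp only [map_mul, map_pow, mul_assoc]
  · have h3 : Ideal.span {C G} * JJ' m ≤ JJ (m + 1) := by
      by_cases hab : a = b
      · exact Ideal.mul_le_left.trans ((Ideal.span_singleton_le_iff_mem _).2 (h1 hab))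
      · obtain ⟨a', rfl⟩ := Fin.exists_succ_eq.2 fun h : a = 0 => hc ⟨hab, Or.inl h⟩
        obtain ⟨b', rfl⟩ := Fin.exists_succ_eq.2 fun h : b = 0 => hc ⟨hab, Or.inr h⟩
        exact (Ideal.mul_mono_right (JE_le Fin.succ fun h => hab (congrArg _ h))).trans h2
    refine ⟨G, hG, _, smul_mem_TI (g := C G) (fun w hw => ?_) (cons_mem_TI 0 hΨ),
      fun f _ => by rw [Pi.smul_apply, smul_eq_mul]⟩
    have h4 := Ideal.mul_mem_mul (Ideal.mem_span_singleton_self (C G)) hw
    have h5 : Ideal.span {C G} * (JJ' m ^ (j + 1) * JJ (m + 1) ^ k) =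
        JJ' m ^ j * (JJ (m + 1) ^ k * (Ideal.span {C G} * JJ' m)) := by ring
    rw [h5] at h4
    rw [pow_succ]
    exact Ideal.mul_mono_right (Ideal.mul_mono_right h3) h4

end

end Pool.Agent.P.MP_c2aaf5_co
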