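import Pool.Agent.P.MP_c2aaf5_co.PSet

/-! The polygraph theorem from the structure packages. -/

set_option linter.unusedSectionVars false

namespace Pool.Agent.P.MP_c2aaf5_co

open MvPolynomial Finset

noncomputable section

namespace PPGAux

variable {P Λ Y : Type} [Fintype P] [DecidableEq P] [Fintype Λ] [DecidableEq Λ] [CommRing Y]
  [IsDomain Y] {y : P → Y} {N : Finset P} {L : Finset Λ} {rk : P → ℕ} {rl : Λ → ℕ}

/-- at most one point -/
theorem pg_small [Nonempty P] (hB : Base y) (hN : N.card ≤ 1) (L : Finset Λ) : PG y N L := by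
  intro rk rl _ _ S hS v hv
  rcases S.eq_empty_or_nonempty with rfl | ⟨a0, h0⟩
  · exact ⟨0, zero_mem _, van_empty _⟩
  obtain ⟨p⟩ := ‹Nonempty P›
  obtain ⟨G, hG, u, hu, h⟩ := hv p p
  refine ⟨fun _ => v a0.2, const_mem _, van_sub_iff.2 fun f e a => ?_⟩
  have hf : ∀ s ∈ L, f s = a0.2 s := fun s hs =>
    card_le_one.1 hN _ (hS.1 _ a s hs) _ (hS.1 _ h0 s hs)
  have a' : (zs e, a0.2) ∈ S := hS.meas _ _ _ hf a
  have e1 := van_sub_iff.1 h f e a
  have e2 := van_sub_iff.1 h a0.2 e a'
  rw [coeff_C_smul] at e1 e2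
  refine mul_left_cancel₀ (mult_ne_zero hB.inj hG) ?_
  rw [e1, e2, RR_meas hu f a0.2 hf]

/-- one slice from the next one -/
theorem step {o : P} {t : Λ} {k : ℕ} (hr : Function.Injective rk) (hl : Function.Injective rl)
    (ho : First N rk o) (hn : Next L rl k t)
    (hsl : Slice y N (insert t L) o ((Ek L rl k).card + 1)) (hq : QS y N L o (Ek L rl k) t)
    (hg : GS y N L o rk rl k t) {S : Set (Lab P Λ)} (hS : Up N (insert t L) rk rl S) :
    Good y (S ∩ Yo N (insert t L) o (Ek L rl k)) (RR y (insert t L)) := by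
  intro v hv
  have hsub : Yo N (insert t L) o (insert t (Ek L rl k)) ⊆ Yo N (insert t L) o (Ek L rl k) :=
    fun a ha => ⟨ha.1, ha.2.1, fun s hs => ha.2.2 s (mem_insert_of_mem hs)⟩
  have h1 := hsl rk rl hr hl ho (rl t + 1)
    (by rw [hn.Ek_succ' hl, card_insert_of_notMem hn.notMem_Ek]) S hS
  rw [hn.Ek_succ' hl] at h1
  obtain ⟨u0, hu0, h0⟩ := h1 v (hv.mono (Set.inter_subset_inter_right _ hsub))
  have key : ∀ d c, N.card + 1 ≤ c + d → ∃ u ∈ RR y (insert t L),
      Van (S ∩ Yo N (insert t L) o (insert t (Ek L rl k))) (v - u) ∧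
      Van (S ∩ Yo N (insert t L) o (Ek L rl k) ∩ At t o ∩ Ge N (insert t L) o (Ek L rl k) c)
        (v - u) := by
    intro d
    induction d with
    | zero =>
      intro c hc
      refine ⟨u0, hu0, h0, fun f e a => ?_⟩
      have b1 : (Ts N o (Ek L rl k) (zs e, f)).card ≤ N.card := card_le_card (filter_subset _ _)
      have b2 : c ≤ (Ts N o (Ek L rl k) (zs e, f)).card := a.2.2
      omega
    | succ d ih =>
      intro c hc
      obtain ⟨u, hu, a1, a2⟩ := ih (c + 1) (by omega)
      obtain ⟨g, b1, b2, b3⟩ := hg c S hS (v - u) (hv.sub hu) a1 a2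
      obtain ⟨u', c1, c2, c3, c4⟩ := hq c g b1 b2
      have e0 : v - (u + u') = (v - u) - u' := by abel
      refine ⟨u + u', add_mem hu c1, ?_, ?_⟩
      · rw [e0]; exact a1.sub (c2.mono Set.inter_subset_right)
      · rw [e0]
        refine van_sub_iff.2 fun f e a => ?_
        have b4 : c ≤ (Ts N o (Ek L rl k) (zs e, f)).card := a.2.2
        rcases b4.eq_or_lt with b5 | b5
        · rw [b3 f e a.1.1 a.1.2 b5.symm, c4 f e a.1.1.2 a.1.2 b5.symm]
        · rw [a2 f e ⟨a.1, a.2.1, b5⟩, c3 f e ⟨⟨a.1.1.2, a.1.2⟩, a.2.1, b5⟩]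
  obtain ⟨u, hu, a1, a2⟩ := key (N.card + 1) 0 (by omega)
  refine ⟨u, hu, fun f e a => ?_⟩
  by_cases b : f t = o
  · exact a2 f e ⟨⟨a, b⟩, a.2.1, Nat.zero_le _⟩
  · refine a1 f e ⟨a.1, a.2.1, a.2.2.1, fun s hs => ?_⟩
    rcases mem_insert.1 hs with rfl | hs
    · exact b
    · exact a.2.2.2 s hs

/-- the structure statements at a next index -/
theorem qsgs (hES : S_ES) (hXS : S_XS) (hQS : S_QS) (hGS : S_GS) (hB : Base y) (hL : LocAll Λ y)
    (hN : 2 ≤ N.card) {o : P} {t : Λ} {k : ℕ} (hr : Function.Injective rk)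
    (hl : Function.Injective rl) (ho : First N rk o) (hn : Next L rl k t)
    (hP : ∀ s ∈ insert t L, PG y N ((insert t L).erase s))
    (hsl : Slice y N (insert t L) o ((Ek L rl k).card + 1)) :
    QS y N L o (Ek L rl k) t ∧ GS y N L o rk rl k t := by
  have h0 : PG y N L := by
    have := hP t (mem_insert_self _ _)
    rwa [erase_insert hn.1] at this
  have hE : ∀ s ∈ insert t L, ES y N ((insert t L).erase s) o s := fun s hs =>
    hES P Λ Y y N _ hB hL hN (hP s hs) o s (notMem_erase _ _)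
  have hX : XS y N (insert t L) o (Ek L rl k) t :=
    hXS P Λ Y y N (insert t L) hB hL hN o rk rl k t L hr hl ho rfl hn hP hE hsl
  exact ⟨hQS P Λ Y y N L hB hL hN o rk rl k t hr hl ho hn h0
    (hES P Λ Y y N L hB hL hN h0 o t hn.1) hsl hX,
    hGS P Λ Y y N L hB hL hN o rk rl k t hr hl ho hn h0⟩

/-- all slices of a level from the smaller levels -/
theorem slices (hES : S_ES) (hXS : S_XS) (hQS : S_QS) (hGS : S_GS) (hB : Base y)
    (hL : LocAll Λ y) (hN : 2 ≤ N.card) (h1 : ∀ o ∈ N, PG y (N.erase o) L)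
    (h2 : ∀ s ∈ L, PG y N (L.erase s)) (o : P) : Slice y N L o 0 := by
  have last : ∀ (rk : P → ℕ) (rl : Λ → ℕ), Function.Injective rk → Function.Injective rl →
      First N rk o → ∀ k, Ek L rl k = L → ∀ S, Up N L rk rl S →
      Good y (S ∩ Yo N L o (Ek L rl k)) (RR y L) := by
    intro rk rl hr hl ho k e S hS
    rw [e]
    exact h1 o ho.1 rk rl hr hl _ (up_slice ho.1 hS)
  have key : ∀ d j, L.card ≤ j + d → Slice y N L o j := by
    intro d
    induction d with
    | zero =>
      intro j hj rk rl hr hl ho k hk S hS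
      exact last rk rl hr hl ho k (eq_of_subset_of_card_le (Ek_subset _ _ _) (by omega)) S hS
    | succ d ih =>
      intro j hj rk rl hr hl ho k hk S hS
      by_cases e : Ek L rl k = L
      · exact last rk rl hr hl ho k e S hS
      obtain ⟨t, ht, hn⟩ := exists_next e
      have e1 : insert t (L.erase t) = L := insert_erase ht
      have e2 : Ek L rl k = Ek (L.erase t) rl k := by rw [← hn.Ek, e1]
      have hsl : Slice y N (insert t (L.erase t)) o ((Ek (L.erase t) rl k).card + 1) := by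
        rw [e1, ← e2]
        exact fun rk' rl' hr' hl' ho' k' hk' => ih (j + 1) (by omega) rk' rl' hr' hl' ho' k'
          (by omega)
      obtain ⟨hq, hg⟩ := qsgs hES hXS hQS hGS hB hL hN hr hl ho hn (by rwa [e1]) hsl
      have := step hr hl ho hn hsl hq hg (S := S) (by rwa [e1])
      rwa [e1, ← e2] at this
  exact key L.card 0 (by omega)

theorem pg_all [Nonempty P] (hES : S_ES) (hXS : S_XS) (hQS : S_QS) (hGS : S_GS) (hC : S_C)
    (hB : Base y) (hL : LocAll Λ y) (N : Finset P) (L : Finset Λ) : PG y N L := by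
  induction N using Finset.strongInduction generalizing L with
  | H N ihN =>
    induction L using Finset.strongInduction with
    | H L ihL =>
      by_cases hN : N.card ≤ 1
      · exact pg_small hB hN L
      have hN2 : 2 ≤ N.card := by omega
      exact hC P Λ Y y N L hB hL hN2 (slices hES hXS hQS hGS hB hL hN2
        (fun o ho => ihN _ (erase_ssubset ho) L) fun s hs => ihL _ (erase_ssubset hs))

end PPGAux

theorem pgx : S_ES → S_XS → S_QS → S_GS → S_C → S_PGX := by
  intro hES hXS hQS hGS hC P Λ Y _ _ _ _ _ _ _ y hB hL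
  have h := PPGAux.pg_all hES hXS hQS hGS hC hB hL
  refine ⟨h, fun N L o rk rl k t hN hr hl ho hn => ?_⟩
  exact PPGAux.qsgs hES hXS hQS hGS hB hL hN hr hl ho hn (fun s _ => h _ _)
    fun rk' rl' hr' hl' ho' k' _ S hS => h N _ rk' rl' hr' hl' _ (hS.inter (up_Yo hr' ho' k'))

end

end Pool.Agent.P.MP_c2aaf5_co
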