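import Pool.Agent.P.MP_c2aaf5_co.PSet

/-! Construction of the elements supported on the labels with `f t = o`. -/

set_option linter.unusedSectionVars false

namespace Pool.Agent.P.MP_c2aaf5_co

open MvPolynomial Finset

noncomputable section

namespace PQSAux

variable {P Λ Y : Type} [Fintype P] [DecidableEq P] [Fintype Λ] [DecidableEq Λ] [CommRing Y]
  {y : P → Y} {N : Finset P} {L E : Finset Λ} {rk : P → ℕ} {rl : Λ → ℕ} {o : P} {t : Λ} {c : ℕ}

theorem hit_eq : Yo N (insert t L) o (insert t E) ∩ Ge N (insert t L) o E c ∩ Hit t =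
    Ee N o t (Yo N L o E ∩ Ge N L o E c) := by
  ext a
  simp only [Yo, Ge, Hit, Ee, All, Set.mem_inter_iff, Set.mem_ofPred_eq, forall_mem_insert]
  tauto

/-- step (i): a global element with prescribed top stratum -/
theorem exists_w (hL : LocAll Λ y) (hN : 2 ≤ N.card) (hr : Function.Injective rk)
    (ho : First N rk o) (hE : E ⊆ L) (hG : Good y (Yo N L o E ∩ Ge N L o E c) (RR y L))
    {g : Am P Λ Y} (hg : g ∈ RR y L) (hgv : Van (Ge N L o E (c + 1)) g) :
    ∃ w ∈ RR y L, Van (Yo N L o E ∩ Ge N L o E (c + 1)) w ∧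
      ∀ f e, (zs e, f) ∈ Yo N L o E → (Ts N o E (zs e, f)).card = c →
        coeff e (w f) = phi y N o E (zs e, f) * coeff e (g f) := by
  classical
  obtain ⟨w0, hw0⟩ := exists_am' (fun f e => if (Ts N o E (zs e, f)).card = c then
    phi y N o E (zs e, f) * coeff e (g f) else 0) g fun f e h => by simp [h]
  have hloc : Loc y (Yo N L o E ∩ Ge N L o E c) (RR y L) w0 := by
    intro p q
    obtain ⟨p', q', hne, hp, hq, hlt, hM⟩ := exists_pair y hN hr p q
    obtain ⟨G, hG, w, hw, h1, h2⟩ :=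
      (hL N p' q' hne hp hq).2.2.1 L E o c ho.1 (ho.ne hp hlt) hE g hg hgv
    refine ⟨G, hM hG, w, hw, van_sub_iff.2 fun f e ha => ?_⟩
    rw [coeff_C_smul, hw0]
    split_ifs with h
    · exact (h2 f e ha.1 h).symm
    · have h3 : c ≤ (Ts N o E (zs e, f)).card := ha.2.2
      rw [mul_zero, h1 f e ⟨ha.1, ha.1.1, by omega⟩]
  obtain ⟨w, hw, h⟩ := hG w0 hloc
  rw [van_sub_iff] at h
  refine ⟨w, hw, fun f e ha => ?_, fun f e ha hc => ?_⟩
  · have h3 : c + 1 ≤ (Ts N o E (zs e, f)).card := ha.2.2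
    rw [← h f e ⟨ha.1, ha.1.1, by omega⟩, hw0, if_neg (by omega)]
  · rw [← h f e ⟨ha, ha.1, hc.ge⟩, hw0, if_pos hc]

theorem coeff_at (w d1 d2 : Am P Λ Y) {f : Λ → P} {e : P →₀ ℕ} (h : e (f t) = 0) :
    coeff e ((w - av Y t * d1 - bt y t o * d2 : Am P Λ Y) f) =
      coeff e (w f) - (y (f t) - y o) * coeff e (d2 f) := by
  rw [Pi.sub_apply, Pi.sub_apply, coeff_sub, coeff_sub, coeff_bt_mul, av_eq_xk,
    coeff_xk_mul_zero (fun f => f t) d1 f e h, sub_zero]

end PQSAux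

open PQSAux in
theorem qs : S_QS := by
  intro P Λ Y _ _ _ _ _ _ y N L hB hL hN o rk rl k t hr hl ho hn hPG hES hSl hXS c g hg hgv
  have hEL : Ek L rl k ⊆ L := Ek_subset L rl k
  have hupV := up_YoGe (N := N) (L := L) (rl := rl) hr ho (le_refl k) c
  obtain ⟨w, hw, hw1, hw2⟩ := exists_w hL hN hr ho hEL (hPG rk rl hr hl _ hupV) hg hgv
  have hsh : Good y (sh (fun f => f t) (Yo N (insert t L) o (insert t (Ek L rl k)) ∩
      Ge N (insert t L) o (Ek L rl k) c)) (RR y (insert t L)) := by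
    have h1 := hSl rk rl hr hl ho (rl t + 1)
      (by rw [hn.Ek_succ' hl, card_insert_of_notMem hn.notMem_Ek]) _
      (up_YoGe (N := N) (L := insert t L) (rl := rl) hr ho (le_refl (rl t + 1)) c)
    rw [hn.Ek_succ' hl, Set.inter_eq_left.2 Set.inter_subset_left] at h1
    rw [sh_inter, sh_Yo, sh_Ge, insert_idem]
    exact h1
  have htE := hn.notMem_Ek
  have htL : t ∉ L := hn.1
  generalize Ek L rl k = E at *
  set V := Yo N L o E ∩ Ge N L o E c with hV
  set U := Yo N (insert t L) o (insert t E) ∩ Ge N (insert t L) o E c with hU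
  have hUE : U ∩ Hit t = Ee N o t V := hit_eq
  have hEU : ∀ f e, (zs e, f) ∈ Ee N o t V → (zs e, f) ∈ U ∧ e (f t) = 0 ∧ f t ≠ o :=
    fun f e ha => ⟨(hUE ▸ ha : _ ∈ U ∩ Hit t).1, mem_zs.1 ha.2.2.1, ha.2.2.2⟩
  have hloc3 : ∀ p q, ∃ p' q', p' ≠ q' ∧ p' ∈ N ∧ q' ∈ N ∧ o ≠ q' ∧
      Mult y N p' q' ≤ Mult y univ p q ∧ ∃ G ∈ Mult y N p' q', ∃ d1 ∈ RR y (insert t L),
      ∃ d2 ∈ RR y (insert t L),
      Van U ((C G : MvPolynomial P Y) • w - av Y t * d1 - bt y t o * d2) ∧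
      ∀ f e, (zs e, f) ∈ Ee N o t V → G * coeff e (w f) = (y (f t) - y o) * coeff e (d2 f) := by
    intro p q
    obtain ⟨p', q', hne, hp, hq, hlt, hM⟩ := exists_pair y hN hr p q
    obtain ⟨G, hG, d1, hd1, d2, hd2, h⟩ := (hL N p' q' hne hp hq).2.2.2.1 L E t o c ho.1
      (ho.ne hp hlt) hEL htL g hg hgv w hw hw1 hw2
    refine ⟨p', q', hne, hp, hq, ho.ne hp hlt, hM, G, hG, d1, hd1, d2, hd2, h, fun f e ha => ?_⟩
    have h1 := h f e (hEU f e ha).1
    rw [coeff_at _ _ _ (hEU f e ha).2.1, coeff_C_smul] at h1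
    exact sub_eq_zero.1 h1
  obtain ⟨v', hv', -⟩ := divLab (v := w) hB (fun a => y (a.2 t) - y o) (Ee N o t V)
    (fun a ha => sub_mem_multA y ha.2.2.2) fun p q => by
      obtain ⟨p', q', -, -, -, -, hM, G, hG, d1, -, d2, -, -, h⟩ := hloc3 p q
      exact ⟨G, hM hG, d2, h⟩
  have hkey : ∀ (G : Y) (d2 : Am P Λ Y), (∀ f e, (zs e, f) ∈ Ee N o t V →
      G * coeff e (w f) = (y (f t) - y o) * coeff e (d2 f)) →
      ∀ f e, (zs e, f) ∈ Ee N o t V → G * coeff e (v' f) = coeff e (d2 f) := by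
    intro G d2 h f e ha
    have h0 : y (f t) - y o ≠ 0 := multA_ne_zero hB.inj (sub_mem_multA y (hEU f e ha).2.2)
    refine mul_left_cancel₀ h0 ?_
    rw [← h f e ha, hv' f e ha]; ring
  have hlocv : Loc y (Ee N o t V) (RR y (insert t L)) v' := by
    intro p q
    obtain ⟨p', q', -, -, -, -, hM, G, hG, d1, -, d2, hd2, -, h⟩ := hloc3 p q
    refine ⟨G, hM hG, d2, hd2, van_sub_iff.2 fun f e ha => ?_⟩
    rw [coeff_C_smul]; exact hkey G d2 h f e ha
  obtain ⟨e2, he2, hve⟩ := hES rk rl hr hl ho V ∅ hupV up_empty (fun a ha => ha.1.2.1) v' hlocv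
    (by rw [Set.inter_empty]; exact van_empty _)
  have he2' : e2 ∈ RR y (insert t L) := IdV_le (subset_insert t L) he2
  rw [van_sub_iff] at hve
  obtain ⟨e1, he1, hu0⟩ := divX (v := w - bt y t o * e2) (fun f => f t) hsh
    (by
      change Van (U ∩ Hit t) _
      rw [hUE]
      refine van_sub_iff.2 fun f e ha => ?_
      rw [coeff_bt_mul, hv' f e ha, hve f e ha])
    (fun p q => by
      obtain ⟨p', q', hne, hp, hq, hoq, hM, G, hG, d1, hd1, d2, hd2, h1, h⟩ := hloc3 p q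
      obtain ⟨G', hG', d', hd', h2⟩ := (hL N p' q' hne hp hq).2.2.2.2.2.1 (insert t L) E t o c
        ho.1 hoq (hEL.trans (subset_insert t L)) (mem_insert_self t L) htE
        (d2 - (C G : MvPolynomial P Y) • e2)
        (Subalgebra.sub_mem _ hd2 (Subalgebra.smul_mem _ he2' _))
        (by
          change Van (U ∩ Hit t) _
          rw [hUE]
          refine van_sub_iff.2 fun f e ha => ?_
          rw [coeff_C_smul, ← hve f e ha, hkey G d2 h f e ha])
      refine ⟨G' * G, hM (Submonoid.mul_mem _ hG' hG), (C G' : MvPolynomial P Y) • d1 + d',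
        Subalgebra.add_mem _ (Subalgebra.smul_mem _ hd1 _) hd', ?_⟩
      have h3 := (h1.smulC G').add h2
      convert h3 using 1
      rw [← av_eq_xk]
      funext f
      simp only [Pi.sub_apply, Pi.add_apply, Pi.smul_apply, Pi.mul_apply, smul_eq_mul, map_mul]
      ring)
  have hwm : w ∈ RR y (insert t L) := RR_mono (subset_insert t L) hw
  have e0 : w - bt y t o * e2 - xk Y (fun f => f t) * e1 = w - av Y t * e1 - bt y t o * e2 := by
    rw [← av_eq_xk]; ring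
  rw [e0] at hu0
  obtain ⟨u1, hu1, h1, h2⟩ := hXS c (w - av Y t * e1 - bt y t o * e2)
    (Subalgebra.sub_mem _ (Subalgebra.sub_mem _ hwm
      (Subalgebra.mul_mem _ (av_mem (mem_insert_self t L)) he1))
      (Subalgebra.mul_mem _ (bt_mem (mem_insert_self t L) o) he2')) hu0
  rw [van_sub_iff] at h2
  have h3 : ∀ f e, (zs e, f) ∈ Yo N (insert t L) o E → f t = o →
      c ≤ (Ts N o E (zs e, f)).card → coeff e (u1 f) = coeff e (w f) := by
    intro f e ha hf hc
    have h4 : e (f t) = 0 := by rw [hf]; exact mem_zs.1 ha.2.1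
    rw [← h2 f e ⟨ha, ha.1, hc⟩, coeff_at _ _ _ h4, hf, sub_self, zero_mul, sub_zero]
  have h5 : ∀ a, a ∈ Yo N (insert t L) o E → a ∈ Yo N L o E := fun a ha =>
    ⟨ha.1.mono (subset_insert t L), ha.2⟩
  refine ⟨u1, hu1, h1, fun f e ha => ?_, fun f e ha hf hc => ?_⟩
  · have h6 : c + 1 ≤ (Ts N o E (zs e, f)).card := ha.2.2
    rw [h3 f e ha.1.1 ha.1.2 (by omega)]
    exact hw1 f e ⟨h5 _ ha.1.1, (h5 _ ha.1.1).1, h6⟩
  · rw [h3 f e ha hf hc.ge]
    exact hw2 f e (h5 _ ha) hc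

end

end Pool.Agent.P.MP_c2aaf5_co
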