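import Pool.Agent.P.MP_c2aaf5_co.PSet

/-! Extension from the slice `insert t E` to the slice `E`. -/

set_option linter.unusedSectionVars false

namespace Pool.Agent.P.MP_c2aaf5_co

open MvPolynomial Finset

noncomputable section

namespace PXSAux

variable {P Λ Y : Type} [Fintype P] [DecidableEq P] [Fintype Λ] [DecidableEq Λ] [CommRing Y]
  {y : P → Y} {N : Finset P} {L : Finset Λ} {rk : P → ℕ} {rl : Λ → ℕ} {o : P} {t : Λ}

theorem Ek_frt' (t : Λ) (k : ℕ) :
    Ek (insert t L) (frt rl t) (k + 1) = insert t (Ek L rl k) := by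
  ext s
  by_cases e : s = t
  · subst e; simp [mem_Ek, frt]
  · simp [mem_Ek, frt, e]

theorem Ek_mono {k k' : ℕ} (h : k ≤ k') : Ek L rl k ⊆ Ek L rl k' := fun _ hs =>
  mem_Ek.2 ⟨(mem_Ek.1 hs).1, (mem_Ek.1 hs).2.trans_le h⟩

theorem Yo_anti {E E' : Finset Λ} (h : E ⊆ E') : Yo N L o E' ⊆ Yo N L o E := fun _ ha =>
  ⟨ha.1, ha.2.1, fun s hs => ha.2.2 s (h hs)⟩

theorem Yo_lev {E : Finset Λ} : Yo N (insert t L) o E ⊆ Yo N L o E := fun _ ha =>
  ⟨ha.1.mono (subset_insert _ _), ha.2⟩

theorem W_lev {E : Finset Λ} {c : ℕ} :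
    Yo N (insert t L) o E ∩ Ge N (insert t L) o E c ⊆ Yo N L o E ∩ Ge N L o E c := fun _ ha =>
  ⟨Yo_lev ha.1, ha.1.1.mono (subset_insert _ _), ha.2.2⟩

theorem ee_eq {E : Finset Λ} :
    Ee N o t (Yo N L o E) = Yo N (insert t L) o (insert t E) ∩ Hit t := by
  ext a
  simp only [Yo, Hit, Ee, All, Set.mem_inter_iff, Set.mem_ofPred_eq, forall_mem_insert]
  tauto

/-- the slices that contain `t` early are good -/
theorem good_sh (hr : Function.Injective rk) (hl : Function.Injective rl) (ho : First N rk o)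
    (ht : t ∉ L) {k k' : ℕ} (hk : k ≤ k')
    (hsl : Slice y N (insert t L) o ((Ek L rl k).card + 1)) :
    Good y (sh (fun f => f t) (Yo N (insert t L) o (insert t (Ek L rl k')))) (RR y (insert t L)) := by
  have h := hsl rk (frt rl t) hr (frt_inj hl t) ho (k' + 1) (by
    rw [Ek_frt', card_insert_of_notMem fun h => ht (Ek_subset _ _ _ h)]
    exact Nat.succ_le_succ (card_le_card (Ek_mono hk))) _ up_all
  rw [Ek_frt', Set.inter_eq_right.2 fun a ha => ha.1] at h
  rwa [sh_Yo, insert_idem]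

/-- a multiple of `a_t` can be corrected so that it vanishes on `W` -/
theorem fin (hL : LocAll Λ y) (hN : 2 ≤ N.card) (hr : Function.Injective rk)
    (hl : Function.Injective rl) (ho : First N rk o) (ht : t ∉ L) {k k' : ℕ} (hk : k ≤ k')
    (hsl : Slice y N (insert t L) o ((Ek L rl k).card + 1)) (c : ℕ) {d : Am P Λ Y}
    (hd : d ∈ RR y (insert t L))
    (h : Van (Yo N (insert t L) o (insert t (Ek L rl k')) ∩
      (Yo N (insert t L) o (Ek L rl k) ∩ Ge N (insert t L) o (Ek L rl k) c)) (av Y t * d)) :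
    ∃ e ∈ RR y (insert t L), Van (Yo N (insert t L) o (insert t (Ek L rl k'))) (av Y t * (d - e)) ∧
      Van (Yo N (insert t L) o (Ek L rl k) ∩ Ge N (insert t L) o (Ek L rl k) c) (av Y t * e) := by
  have h1 := van_of_xk_mul (fun f => f t) h
  rw [sh_inter, sh_inter, sh_Yo, sh_Yo, sh_Ge, insert_idem] at h1
  have hS := up_Yo (N := N) (L := insert t L) (rl := frt rl t) hr ho (k' + 1)
  have hS' := up_YoGe (N := N) (L := insert t L) (rl := frt rl t) hr ho (le_refl (k + 1)) c
  rw [Ek_frt'] at hS hS'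
  obtain ⟨e, he, h2, h3⟩ := dist_slice (k := k + 1) hL hN hr (frt_inj hl t) ho hsl
    (by rw [Ek_frt', card_insert_of_notMem fun h => ht (Ek_subset _ _ _ h)]) hS hS'
    (by rw [Ek_frt']; exact Yo_anti (insert_subset_insert _ (Ek_mono hk)))
    (by rw [Ek_frt']; exact Set.inter_subset_left) hd h1
  refine ⟨e, he, h2.mul_left (tup_Yo _ _) _, van_xk_mul (fun f => f t) ?_⟩
  rwa [sh_inter, sh_Yo, sh_Ge]

/-- the last slice -/
theorem base [IsDomain Y] (hL : LocAll Λ y) (hN : 2 ≤ N.card) (hr : Function.Injective rk)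
    (hl : Function.Injective rl) (ho : First N rk o) (ht : t ∉ L) (k : ℕ) (hES : ES y N L o t)
    (hsl : Slice y N (insert t L) o ((Ek L rl k).card + 1)) (c : ℕ) {u : Am P Λ Y}
    (hu : u ∈ RR y (insert t L))
    (h : Van (Yo N (insert t L) o (insert t L) ∩
      (Yo N (insert t L) o (Ek L rl k) ∩ Ge N (insert t L) o (Ek L rl k) c)) u) :
    ∃ w ∈ RR y (insert t L),
      Van (Yo N (insert t L) o (Ek L rl k) ∩ Ge N (insert t L) o (Ek L rl k) c) w ∧
      Van (Yo N (insert t L) o (insert t L)) (u - w) := by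
  have htop : Ek L rl (max k (univ.sup rl + 1)) = L :=
    Subset.antisymm (Ek_subset _ _ _) (by
      conv_lhs => rw [← Ek_top L rl]
      exact Ek_mono (le_max_right _ _))
  have hV := up_Yo (N := N) (L := L) (rl := rl) hr ho (max k (univ.sup rl + 1))
  rw [htop] at hV
  have hW := up_YoGe (N := N) (L := L) (rl := rl) hr ho (le_refl k) c
  obtain ⟨v, hv, h1⟩ := hES rk rl hr hl ho _ _ hV hW (fun a ha => ha.2.1) u
    (Loc.of_mem hu (by rw [sub_self]; exact van_zero _)) (by
      rw [ee_eq]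
      exact h.mono fun a ha => ⟨ha.1.1, ⟨ha.1.1.1, ha.2.1.2⟩, ha.1.1.1, ha.2.2.2⟩)
  rw [ee_eq] at h1
  have hv1 : v ∈ RR y (insert t L) := IdV_le (subset_insert _ _) hv
  have hv2 := (IdV_van hW.tup hv).mono (W_lev (t := t))
  have hG := good_sh hr hl ho ht (le_max_left k (univ.sup rl + 1)) hsl
  rw [htop] at hG
  obtain ⟨d, hd, h2⟩ := divX (v := u - v) (fun f => f t) hG h1 fun p q => by
    obtain ⟨p', q', hne, hp, hq, hlt, hM⟩ := exists_pair y hN hr p q
    obtain ⟨G, hG, d', hd', h3⟩ := (hL N p' q' hne hp hq).2.2.2.2.2.2.1 (insert t L) t o ho.1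
      (ho.ne hp hlt) (mem_insert_self _ _) (u - v) (sub_mem hu hv1) h1
    exact ⟨G, hM hG, d', hd', h3⟩
  rw [← av_eq_xk] at h2
  have h3 := fin hL hN hr hl ho ht (le_max_left k (univ.sup rl + 1)) hsl c hd
  rw [htop] at h3
  obtain ⟨e, he, h4, h5⟩ := h3 (by
    convert (h.sub (hv2.mono Set.inter_subset_right)).sub (h2.mono Set.inter_subset_left) using 1
    ring)
  refine ⟨v + av Y t * e, add_mem hv1 (mul_mem (av_mem (mem_insert_self _ _)) he), hv2.add h5, ?_⟩
  convert h2.add h4 using 1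
  ring

/-- removal of one index from the slice -/
theorem step [IsDomain Y] (hB : Base y) (hL : LocAll Λ y) (hN : 2 ≤ N.card)
    (hr : Function.Injective rk) (hl : Function.Injective rl) (ho : First N rk o) (ht : t ∉ L)
    {k k' : ℕ} (hk : k ≤ k') (hPG : PG y N L) (hES : ES y N L o t)
    (hsl : Slice y N (insert t L) o ((Ek L rl k).card + 1)) (c : ℕ) {u : Am P Λ Y}
    (hu : u ∈ RR y (insert t L))
    (h : Van (Yo N (insert t L) o (Ek L rl k') ∩
      (Yo N (insert t L) o (Ek L rl k) ∩ Ge N (insert t L) o (Ek L rl k) c)) u)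
    (h0 : Van (Yo N (insert t L) o (insert t (Ek L rl k'))) u) :
    ∃ w ∈ RR y (insert t L),
      Van (Yo N (insert t L) o (Ek L rl k) ∩ Ge N (insert t L) o (Ek L rl k) c) w ∧
      Van (Yo N (insert t L) o (Ek L rl k')) (u - w) := by
  have hV := up_Yo (N := N) (L := L) (rl := rl) hr ho k'
  have hW := up_YoGe (N := N) (L := L) (rl := rl) hr ho (le_refl k) c
  have hG := good_sh hr hl ho ht hk hsl
  have hfin := fun d => fin (d := d) hL hN hr hl ho ht hk hsl c
  have hE' : Ek L rl k' ⊆ L := Ek_subset _ _ _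
  have hE : Ek L rl k ⊆ L := Ek_subset _ _ _
  generalize Ek L rl k' = E' at *
  generalize Ek L rl k = E at *
  have hs : Van (Yo N L o E' ∩ (Yo N L o E ∩ Ge N L o E c)) (sb t o u) := fun f e a => by
    have hf : ∀ s ∈ L, f s = Function.update f t o s := fun s hs => by
      rw [Function.update_of_ne (fun e : s = t => ht (e ▸ hs))]
    have h8 : All N (insert t L) (Function.update f t o) := fun s hs => by
      rcases mem_insert.1 hs with rfl | hs
      · simpa using ho.1
      · rw [← hf s hs]; exact a.1.1 s hs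
    refine h _ e ⟨⟨h8, a.1.2.1, fun s hs => ?_⟩, ⟨h8, a.1.2.1, fun s hs => ?_⟩, h8, ?_⟩
    · show Function.update f t o s ≠ o
      rw [← hf s (hE' hs)]; exact a.1.2.2 s hs
    · show Function.update f t o s ≠ o
      rw [← hf s (hE hs)]; exact a.2.1.2.2 s hs
    · rw [← Ts_congr o _ fun s hs => hf s (hE hs)]; exact a.2.2.2
  obtain ⟨w', hw', a1, a2⟩ := dist hL hN hr hl hV hW (hPG rk rl hr hl _ (hV.union hW))
    (sb_mem o hu) hs
  obtain ⟨d1, hd1, d2, hd2, hdec⟩ := RR_decomp o hu
  have hsub : Yo N (insert t L) o (insert t E') ⊆ Yo N L o E' :=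
    (Yo_anti (subset_insert _ _)).trans Yo_lev
  have hxo : Van (Yo N (insert t L) o (insert t E')) (xk Y (fun _ => o) * d1) := fun f e a =>
    coeff_xk_mul_zero (fun _ => o) d1 f e (mem_zs.1 a.2.1)
  have a3 : Van (Yo N (insert t L) o (insert t E')) (w' + av Y t * d1 + bt y t o * d2) := by
    convert (h0.sub (a1.mono hsub)).add hxo using 1
    have : (fun _ => X o : Am P Λ Y) = xk Y fun _ => o := rfl
    rw [this] at hdec
    linear_combination -hdec
  have a4 : Van (Ee N o t (Yo N L o E') ∩ (Yo N L o E ∩ Ge N L o E c)) d2 := by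
    rw [ee_eq]
    have b1 : Van (Yo N (insert t L) o (insert t E') ∩ Hit t ∩ (Yo N L o E ∩ Ge N L o E c))
        (bt y t o * d2) := by
      convert ((a3.mono (Set.inter_subset_left.trans Set.inter_subset_left)).sub
        (a2.mono Set.inter_subset_right)).sub
        (van_av_mul (Set.inter_subset_left.trans Set.inter_subset_right) d1) using 1
      ring
    intro f e a
    have b2 := b1 f e a
    rw [coeff_bt_mul] at b2
    exact (mul_eq_zero.1 b2).resolve_left
      (sub_ne_zero.2 fun h => a.1.1.2.2 t (mem_insert_self _ _) (hB.inj h))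
  obtain ⟨e2, he2, a5⟩ := hES rk rl hr hl ho _ _ hV hW (fun a ha => ha.2.1) d2
    (Loc.of_mem hd2 (by rw [sub_self]; exact van_zero _)) a4
  rw [ee_eq] at a5
  have he2' : e2 ∈ RR y (insert t L) := IdV_le (subset_insert _ _) he2
  have hWt : TUp (Yo N (insert t L) o E ∩ Ge N (insert t L) o E c) :=
    (tup_Yo _ _).inter (tup_Ge _ _ _)
  have a6 := ((IdV_van hW.tup he2).mono (W_lev (t := t))).mul_left hWt (bt y t o)
  obtain ⟨d3, hd3, a7⟩ := divX (v := bt y t o * (d2 - e2)) (fun f => f t) hG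
    (a5.mul_left ((tup_Yo _ _).inter (tup_Hit t)) _) fun p q => by
      obtain ⟨p', q', hne, hp, hq, hlt, hM⟩ := exists_pair y hN hr p q
      obtain ⟨G, hG, d', hd', h3⟩ := (hL N p' q' hne hp hq).2.2.2.2.2.1 (insert t L) E' t o 0 ho.1
        (ho.ne hp hlt) (hE'.trans (subset_insert _ _)) (mem_insert_self _ _) (fun h => ht (hE' h))
        (d2 - e2) (sub_mem hd2 he2') (a5.mono fun a ha => ⟨ha.1.1, ha.2⟩)
      exact ⟨G, hM hG, d', hd', h3.mono fun a ha => ⟨ha, ha.1, Nat.zero_le _⟩⟩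
  rw [← av_eq_xk] at a7
  have a8 : Van (Yo N (insert t L) o (insert t E')) (w' + bt y t o * e2 + av Y t * (d1 + d3)) := by
    convert a3.sub a7 using 1
    ring
  have a9 := a2.mono (W_lev (t := t))
  obtain ⟨e1, he1, b1, b2⟩ := hfin (d1 + d3) (add_mem hd1 hd3) (by
    convert ((a8.mono Set.inter_subset_left).sub (a9.mono Set.inter_subset_right)).sub
      (a6.mono Set.inter_subset_right) using 1
    ring)
  refine ⟨w' + bt y t o * e2 + av Y t * e1, add_mem (add_mem (RR_mono (subset_insert _ _) hw')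
    (mul_mem (bt_mem (mem_insert_self _ _) o) he2')) (mul_mem (av_mem (mem_insert_self _ _)) he1),
    (a9.add a6).add b2, fun f e a => ?_⟩
  by_cases hf : f t = o
  · have c1 := van_sub_iff.1 a1 f e (Yo_lev a)
    rw [sb_apply_of_eq u hf] at c1
    have c2 : coeff e ((av Y t * e1 : Am P Λ Y) f) = 0 :=
      coeff_xk_mul_zero (fun f => f t) e1 f e (by rw [hf]; exact mem_zs.1 a.2.1)
    rw [Pi.sub_apply, Pi.add_apply, Pi.add_apply, coeff_sub, coeff_add, coeff_add, c1, c2,
      coeff_bt_mul, hf]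
    ring
  · have c1 : Van (Yo N (insert t L) o (insert t E')) (u - (w' + bt y t o * e2 + av Y t * e1)) := by
      convert (h0.sub a8).add b1 using 1
      ring
    exact c1 f e ⟨a.1, a.2.1, fun s hs => (mem_insert.1 hs).elim (fun h => h ▸ hf) (a.2.2 s)⟩

end PXSAux

open PXSAux in
theorem xs : S_XS := by
  intro P Λ Y _ _ _ _ _ _ y N L hB hL hN o rk rl k t L0 hr hl ho hL0 hn hPG hES hsl c
  have hE0 : Ek L rl k = Ek L0 rl k := hL0 ▸ hn.Ek
  have hE1 : Ek L rl (rl t + 1) = insert t (Ek L0 rl k) := hL0 ▸ hn.Ek_succ' hl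
  have key : ∀ d k', rl t < k' → univ.sup rl + 1 ≤ k' + d → ∀ u ∈ RR y L,
      Van (Yo N L o (Ek L rl k') ∩ (Yo N L o (Ek L0 rl k) ∩ Ge N L o (Ek L0 rl k) c)) u →
      ∃ w ∈ RR y L, Van (Yo N L o (Ek L0 rl k) ∩ Ge N L o (Ek L0 rl k) c) w ∧
        Van (Yo N L o (Ek L rl k')) (u - w) := by
    intro d
    induction d with
    | zero =>
      intro k' _ hk u hu h
      have htop : Ek L rl k' = L := Subset.antisymm (Ek_subset _ _ _) (by
        conv_lhs => rw [← Ek_top L rl]
        exact Ek_mono hk)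
      rw [htop] at h ⊢
      have h1 := hES t (hL0 ▸ mem_insert_self _ _)
      subst hL0
      rw [erase_insert hn.1] at h1
      exact base hL hN hr hl ho hn.1 k h1 hsl c hu h
    | succ d ih =>
      intro k' hk1 hk2 u hu h
      obtain ⟨w1, hw1, a1, a2⟩ := ih (k' + 1) (by omega) (by omega) u hu
        (h.mono (Set.inter_subset_inter_left _ (Yo_anti (Ek_mono (Nat.le_succ _)))))
      by_cases hx : ∃ s ∈ L, rl s = k'
      · obtain ⟨s, hs, rfl⟩ := hx
        have hks : k ≤ rl s := by have := hn.2.1; omega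
        have e0 : insert s (L.erase s) = L := insert_erase hs
        have e1 : ∀ j, j ≤ rl s → Ek (L.erase s) rl j = Ek L rl j := fun j hj => by
          ext r
          simp only [mem_Ek, mem_erase]
          exact ⟨fun h => ⟨h.1.2, h.2⟩, fun h => ⟨⟨fun e => by subst e; omega, h.1⟩, h.2⟩⟩
        have e2 : Ek L rl (rl s + 1) = insert s (Ek L rl (rl s)) := by
          ext r
          simp only [mem_Ek, mem_insert]
          constructor
          · rintro ⟨h1, h2⟩
            by_cases e : rl r = rl s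
            · exact Or.inl (hl e)
            · exact Or.inr ⟨h1, by omega⟩
          · rintro (rfl | ⟨h1, h2⟩)
            · exact ⟨hs, by omega⟩
            · exact ⟨h1, by omega⟩
        have h2 := step (u := u - w1) hB hL hN hr hl ho (notMem_erase s L) hks (hPG s hs) (hES s hs)
          (by rwa [e0, e1 k hks, hE0]) c
        rw [e0, e1 k hks, e1 _ le_rfl, hE0, ← e2] at h2
        obtain ⟨w, hw, b1, b2⟩ := h2 (sub_mem hu hw1) (h.sub (a1.mono Set.inter_subset_right)) a2
        exact ⟨w1 + w, add_mem hw1 hw, a1.add b1, by rwa [← sub_sub]⟩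
      · have e2 : Ek L rl (k' + 1) = Ek L rl k' := by
          ext r
          simp only [mem_Ek]
          refine and_congr_right fun hr => ⟨fun h => ?_, fun h => by omega⟩
          have : rl r ≠ k' := fun e => hx ⟨r, hr, e⟩
          omega
        exact ⟨w1, hw1, a1, e2 ▸ a2⟩
  intro u hu h
  obtain ⟨w, hw, h1, h2⟩ := key (univ.sup rl + 1) (rl t + 1) (by omega) (by omega) u hu
    (by rw [hE1]; exact h.mono fun a ha => ⟨ha.1, ha.2.2⟩)
  rw [hE1] at h2
  exact ⟨u - w, sub_mem hu hw, h2, by rwa [sub_sub_cancel]⟩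

end

end Pool.Agent.P.MP_c2aaf5_co
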