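import Pool.Agent.P.MP_c2aaf5_co.AsmM
import Pool.Agent.P.MP_c2aaf5_co.AsmL
import Pool.Agent.P.MP_c2aaf5_co.PES
import Pool.Agent.P.MP_c2aaf5_co.PXS
import Pool.Agent.P.MP_c2aaf5_co.PQS
import Pool.Agent.P.MP_c2aaf5_co.PGS
import Pool.Agent.P.MP_c2aaf5_co.PC
import Pool.Agent.P.MP_c2aaf5_co.PPG
import Pool.Agent.P.MP_c2aaf5_co.PKGB
import Pool.Agent.P.MP_c2aaf5_co.PKG
import Pool.Agent.P.MP_c2aaf5_co.PBlk
import Pool.Agent.P.MP_c2aaf5_co.PBlkK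
import Pool.Agent.P.MP_c2aaf5_co.PLin
import Pool.Agent.P.MP_c2aaf5_co.PKFJ

/-! The final statement. -/

namespace Pool.Agent.P.MP_c2aaf5_co

theorem final : Final :=
  have h := pgc (pgx es xs qs gs cstep)
  final_of (lin (g0 h) blk) (kfj h (base kreg) (kg kfext kfcor (kgb kfext kfker kfcor)) blkK)

end Pool.Agent.P.MP_c2aaf5_co
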