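import Pool.Agent.P.MP_c2aaf5_co.DefG

/-! A graded module that vanishes at every point of the fibre vanishes in large degree. -/

set_option linter.unusedSectionVars false

namespace Pool.Agent.P.MP_c2aaf5_co

open Polynomial

noncomputable section

namespace DBddAux

theorem scale {τ A : Type} [Fintype τ] [CommRing A] (f : ℂ →+* A) (q : τ → A) (w : A)
    {G : MvPolynomial τ ℂ} {N : ℕ} (hG : G.IsHomogeneous N) :
    MvPolynomial.eval₂ f (fun t => w * q t) G = w ^ N * MvPolynomial.eval₂ f q G := by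
  rw [MvPolynomial.eval₂_eq', MvPolynomial.eval₂_eq', Finset.mul_sum]
  refine Finset.sum_congr rfl fun d hd => ?_
  have h : ∑ i, d i = N := by
    rw [← hG (MvPolynomial.mem_support_iff.mp hd), ← Finsupp.degree_eq_sum,
      Finsupp.degree_eq_weight_one]
    rfl
  simp only [mul_pow, Finset.prod_mul_distrib, Finset.prod_pow_eq_pow_sum, h]
  ring

theorem unif {S M α : Type} [CommRing S] [AddCommGroup M] [Module S M] (x : S) (N : Submodule S M)
    (s : Finset α) (f : α → M) (h : ∀ a ∈ s, ∃ k : ℕ, x ^ k • f a ∈ N) :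
    ∃ k : ℕ, ∀ a ∈ s, x ^ k • f a ∈ N := by
  choose! k hk using h
  refine ⟨s.sup k, fun a ha => ?_⟩
  obtain ⟨l, hl⟩ := Nat.exists_eq_add_of_le' (Finset.le_sup (f := k) ha)
  rw [hl, pow_add, mul_smul]
  exact N.smul_mem _ (hk a ha)

variable {K τ ι : Type} [Field K] [Algebra ℂ K] [Fintype τ] [Fintype ι] (ξ : τ → K)
  (R : Subalgebra ℂ K)

/-- the Rees algebra -/
def SS : Subalgebra R K[X] := Algebra.adjoin R (Set.range fun t => monomial 1 (ξ t))

/-- its generators -/
def xt (t : τ) : SS ξ R := ⟨monomial 1 (ξ t), Algebra.subset_adjoin ⟨t, rfl⟩⟩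

/-- evaluation of complex polynomials -/
def psi : MvPolynomial τ ℂ →+* SS ξ R :=
  MvPolynomial.eval₂Hom ((algebraMap R (SS ξ R)).comp (algebraMap ℂ R)) (xt ξ R)

theorem psi_hom {G : MvPolynomial τ ℂ} {N : ℕ} (hG : G.IsHomogeneous N) :
    (psi ξ R G : K[X]) = monomial N (MvPolynomial.aeval ξ G) := by
  have h1 : (psi ξ R G : K[X]) =
      MvPolynomial.eval₂ (C.comp (algebraMap ℂ K)) (fun t => X * C (ξ t)) G := by
    change (SS ξ R).val.toRingHom (MvPolynomial.eval₂ _ _ G) = _
    rw [MvPolynomial.eval₂_comp_left]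
    congr 1
    funext t
    exact (by rw [← C_mul_X_eq_monomial, mul_comm] : monomial 1 (ξ t) = X * C (ξ t))
  rw [h1, scale _ _ _ hG, ← C_mul_X_pow_eq_monomial, mul_comm, MvPolynomial.aeval_def,
    MvPolynomial.eval₂_comp_left]
  rfl

variable {R}

/-- the component of degree `j` -/
def co (j : ℕ) (p : ι → K[X]) : ι → K := fun i => (p i).coeff j

/-- a vector placed in degree `j` -/
def mo (j : ℕ) (v : ι → K) : ι → K[X] := fun i => monomial j (v i)

/-- stable families -/
def St (Y : ℕ → Submodule R (ι → K)) : Prop := ∀ j t, ∀ v ∈ Y j, ξ t • v ∈ Y (j + 1)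

/-- the graded module of a stable family -/
def gr (Y : ℕ → Submodule R (ι → K)) (hY : St ξ Y) : Submodule (SS ξ R) (ι → K[X]) where
  carrier := {p | ∀ j, co j p ∈ Y j}
  zero_mem' j := (Y j).zero_mem
  add_mem' {p q} hp hq j := by
    have : co j (p + q) = co j p + co j q := funext fun i => coeff_add _ _ _
    rw [this]
    exact (Y j).add_mem (hp j) (hq j)
  smul_mem' s p hp := by
    obtain ⟨s, hs⟩ := s
    change ∀ j, co j (s • p) ∈ Y j
    induction hs using Algebra.adjoin_induction generalizing p with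
    | mem x hx =>
      obtain ⟨t, rfl⟩ := hx
      rintro (_ | j)
      · have : co 0 (monomial 1 (ξ t) • p) = 0 := funext fun i => by simp [co]
        exact this ▸ (Y 0).zero_mem
      · have : co (j + 1) (monomial 1 (ξ t) • p) = ξ t • co j p :=
          funext fun i => coeff_monomial_mul _ _ _ _
        exact this ▸ hY j t _ (hp j)
    | algebraMap r =>
      intro j
      have : co j (algebraMap R K[X] r • p) = r • co j p := funext fun i => coeff_C_mul _
      exact this ▸ (Y j).smul_mem r (hp j)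
    | add x y _ _ hx hy =>
      intro j
      have : co j ((x + y) • p) = co j (x • p) + co j (y • p) := funext fun i => by
        simp [co, add_mul]
      exact this ▸ (Y j).add_mem (hx p hp j) (hy p hp j)
    | mul x y _ _ hx hy =>
      rw [mul_smul]
      exact hx _ (hy p hp)

variable {ξ}

theorem mem_gr {Y : ℕ → Submodule R (ι → K)} {hY : St ξ Y} {p : ι → K[X]} :
    p ∈ gr ξ Y hY ↔ ∀ j, co j p ∈ Y j := Iff.rfl

theorem co_mo (j k : ℕ) (v : ι → K) : co k (mo j v) = if j = k then v else 0 := by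
  funext i
  simp only [co, mo, coeff_monomial]
  split_ifs <;> rfl

theorem mo_mem {Y : ℕ → Submodule R (ι → K)} {hY : St ξ Y} {j : ℕ} {v : ι → K} :
    mo j v ∈ gr ξ Y hY ↔ v ∈ Y j := by
  refine ⟨fun h => by simpa [co_mo] using h j, fun h k => ?_⟩
  rw [co_mo]
  split_ifs with e
  · exact e ▸ h
  · exact (Y k).zero_mem

theorem exists_deg (p : ι → K[X]) : ∃ D, ∀ j, D ≤ j → co j p = 0 :=
  ⟨Finset.univ.sup (fun i => (p i).natDegree) + 1, fun _ hj => funext fun i =>
    coeff_eq_zero_of_natDegree_lt (lt_of_le_of_lt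
      (Finset.le_sup (f := fun i => (p i).natDegree) (Finset.mem_univ i)) hj)⟩

theorem exists_sum (p : ι → K[X]) : ∃ D, p = ∑ j ∈ Finset.range D, mo j (co j p) := by
  obtain ⟨D, hD⟩ := exists_deg p
  refine ⟨D, funext fun i => Polynomial.ext fun k => ?_⟩
  simp only [Finset.sum_apply, finsetSum_coeff, mo, coeff_monomial, Finset.sum_ite_eq',
    Finset.mem_range]
  split_ifs with h
  · rfl
  · exact congrFun (hD k (not_lt.mp h)) i

theorem smul_mo {G : MvPolynomial τ ℂ} {N : ℕ} (hG : G.IsHomogeneous N) (j : ℕ) (v : ι → K) :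
    psi ξ R G • mo j v = mo (j + N) (MvPolynomial.aeval ξ G • v) := by
  funext i
  change (psi ξ R G : K[X]) * monomial j (v i) = monomial (j + N) (_ * v i)
  rw [psi_hom ξ R hG, monomial_mul_monomial, add_comm]

theorem xt_mo (t : τ) (j : ℕ) (v : ι → K) : xt ξ R t • mo j v = mo (j + 1) (ξ t • v) := by
  funext i
  change monomial 1 (ξ t) * monomial j (v i) = monomial (j + 1) (_ * v i)
  rw [monomial_mul_monomial, add_comm]

theorem pow_smul_mem {Y : ℕ → Submodule R (ι → K)} (hY : St ξ Y) (N : ℕ) :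
    ∀ u ∈ Vx ξ ^ N, ∀ j, ∀ v ∈ Y j, u • v ∈ Y (j + N) := by
  have hc : ∀ (c : ℂ) (u : K) (v : ι → K), (c • u) • v = algebraMap ℂ R c • u • v := fun c u v => by
    rw [smul_assoc, algebraMap_smul]
  induction N with
  | zero =>
    intro u hu j v hv
    rw [pow_zero, Submodule.mem_one] at hu
    obtain ⟨c, rfl⟩ := hu
    rw [Algebra.algebraMap_eq_smul_one, hc, one_smul]
    exact (Y j).smul_mem _ hv
  | succ N ih =>
    intro u hu j v hv
    rw [pow_succ'] at hu
    refine Submodule.mul_induction_on hu (fun a ha b hb => ?_) fun a b ha hb => ?_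
    · rw [mul_smul]
      have h1 := ih b hb j v hv
      induction ha using Submodule.span_induction with
      | mem x hx =>
        obtain ⟨t, rfl⟩ := hx
        exact hY _ t _ h1
      | zero => simp
      | add x y _ _ hx hy => rw [add_smul]; exact add_mem hx hy
      | smul c x _ hx => rw [hc]; exact Submodule.smul_mem _ _ hx
    · rw [add_smul]
      exact add_mem ha hb

theorem noeth [IsNoetherianRing R] : IsNoetherianRing (SS ξ R) :=
  isNoetherianRing_of_fg (Subalgebra.fg_def.mpr ⟨_, Set.finite_range _, rfl⟩)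

theorem mono_mem {P : Subalgebra ℂ K} {P0 : Finset K} (h : Subalgebra.toSubmodule P ≤ Id R P0)
    (j : ℕ) : ∀ c ∈ MM ξ P j, monomial j c ∈ Submodule.span (SS ξ R) (C '' (P0 : Set K)) := by
  set W := Submodule.span (SS ξ R) (C '' (P0 : Set K))
  have hc : ∀ (j : ℕ) (r : R) (x : K), monomial j x ∈ W → monomial j (r * x) ∈ W := by
    intro j r x hx
    have := W.smul_of_tower_mem r hx
    rwa [← LinearMap.map_smul_of_tower] at this
  induction j with
  | zero =>
    intro c hc'
    rw [MM, pow_zero, one_mul] at hc'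
    refine Submodule.mul_induction_on (h hc') (fun r hr b hb => hc 0 ⟨r, hr⟩ b ?_)
      fun a b ha hb => by rw [map_add]; exact add_mem ha hb
    induction hb using Submodule.span_induction with
    | mem x hx => exact Submodule.subset_span ⟨x, hx, rfl⟩
    | zero => simp
    | add x y _ _ hx hy => rw [map_add]; exact add_mem hx hy
    | smul c x _ hx => rw [Algebra.smul_def]; exact hc 0 (algebraMap ℂ R c) x hx
  | succ j ih =>
    intro c hc'
    rw [MM, pow_succ', mul_assoc] at hc'
    refine Submodule.mul_induction_on hc' (fun a ha b hb => ?_)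
      fun a b ha hb => by rw [map_add]; exact add_mem ha hb
    induction ha using Submodule.span_induction with
    | mem x hx =>
      obtain ⟨t, rfl⟩ := hx
      have := W.smul_mem (xt ξ R t) (ih b hb)
      rwa [show xt ξ R t • monomial j b = monomial 1 (ξ t) * monomial j b from rfl,
        monomial_mul_monomial, add_comm] at this
    | zero => simp
    | add x y _ _ hx hy => rw [add_mul, map_add]; exact add_mem hx hy
    | smul c x _ hx => rw [smul_mul_assoc, Algebra.smul_def]; exact hc _ (algebraMap ℂ R c) _ hx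

theorem gr_fg [IsNoetherianRing R] {P : Subalgebra ℂ K} {P0 : Finset K}
    (h : Subalgebra.toSubmodule P ≤ Id R P0) {Z : ℕ → Submodule R (ι → K)} (hZ : St ξ Z)
    (hM : ∀ j, ∀ v ∈ Z j, ∀ i, v i ∈ MM ξ P j) : (gr ξ Z hZ).FG := by
  have := noeth (ξ := ξ) (R := R)
  refine Submodule.FG.of_le (Submodule.fg_pi fun _ : ι =>
    Submodule.fg_span (R := SS ξ R) ((P0.finite_toSet).image C)) fun p hp i _ => ?_
  rw [(p i).as_sum_support]
  exact Submodule.sum_mem _ fun j _ => mono_mem h j _ (hM j _ (hp j) i)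

theorem piece_fg [IsNoetherianRing R] {P : Subalgebra ℂ K} {P0 : Finset K}
    (h : Subalgebra.toSubmodule P ≤ Id R P0) {j : ℕ} {Z : Submodule R (ι → K)}
    (hM : ∀ v ∈ Z, ∀ i, v i ∈ MM ξ P j) : Z.FG := by
  have h1 : (Submodule.span R (Set.range ξ) ^ j * Submodule.span R (P0 : Set K)).FG :=
    ((Submodule.fg_span (Set.finite_range ξ)).pow j).mul (Submodule.fg_span P0.finite_toSet)
  refine Submodule.FG.of_le (Submodule.fg_pi fun _ : ι => h1) fun v hv i _ => ?_
  have h2 : ∀ n : ℕ, ∀ u ∈ Vx ξ ^ n, u ∈ Submodule.span R (Set.range ξ) ^ n := fun n => by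
    induction n with
    | zero =>
      intro u hu
      rw [pow_zero, Submodule.mem_one] at hu ⊢
      obtain ⟨c, rfl⟩ := hu
      exact ⟨algebraMap ℂ R c, rfl⟩
    | succ n ih =>
      intro u hu
      rw [pow_succ] at hu ⊢
      exact Submodule.mul_induction_on hu (fun a ha b hb => Submodule.mul_mem_mul (ih a ha)
        (Submodule.span_le_restrictScalars ℂ R _ hb)) fun a b => add_mem
  refine Submodule.mul_induction_on (hM v hv i) (fun a ha b hb =>
    Submodule.mul_mem_mul (h2 j a ha) ?_) fun a b => add_mem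
  exact Submodule.mul_induction_on (h hb) (fun r hr c hc => Submodule.smul_mem _ (⟨r, hr⟩ : R)
    (Submodule.span_le_restrictScalars ℂ R _ hc)) fun a b => add_mem

theorem gen_deg {Z : ℕ → Submodule R (ι → K)} (hZ : St ξ Z) (hfg : (gr ξ Z hZ).FG) :
    ∃ D, ∀ j, D ≤ j → Z (j + 1) ≤ Submodule.span R {w | ∃ t, ∃ v ∈ Z j, w = ξ t • v} := by
  obtain ⟨G, hG⟩ := hfg
  choose d hd using exists_deg (K := K) (ι := ι)
  let W : ℕ → Submodule R (ι → K) := fun j =>
    if j ≤ G.sup d then Z j else Submodule.span R {w | ∃ t, ∃ v ∈ Z (j - 1), w = ξ t • v}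
  have h1 : ∀ j, W j ≤ Z j := fun j => by
    simp only [W]
    split_ifs with h
    · exact le_rfl
    · rw [Submodule.span_le]
      rintro _ ⟨t, v, hv, rfl⟩
      have := hZ _ t v hv
      rwa [show j - 1 + 1 = j by omega] at this
  have h2 : St ξ W := fun j t v hv => by
    simp only [W]
    split_ifs with h
    · exact hZ j t v (h1 j hv)
    · exact Submodule.subset_span ⟨t, v, h1 j hv, rfl⟩
  have h3 : gr ξ Z hZ ≤ gr ξ W h2 := by
    rw [← hG, Submodule.span_le]
    intro g hg j
    simp only [W]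
    split_ifs with h
    · exact (hG ▸ Submodule.subset_span hg : g ∈ gr ξ Z hZ) j
    · rw [hd g j ((Finset.le_sup (f := d) hg).trans (not_le.mp h).le)]
      exact zero_mem _
  refine ⟨G.sup d, fun j hj v hv => ?_⟩
  have h4 : v ∈ W (j + 1) := mo_mem.mp (h3 (mo_mem.mpr hv))
  simpa [W, show ¬j + 1 ≤ G.sup d by omega] using h4

theorem bound {Z Y : ℕ → Submodule R (ι → K)} (hZ : St ξ Z) (hY : St ξ Y) (hfg : (gr ξ Z hZ).FG)
    (hp : ∀ a : τ → ℂ, (∃ s, a s = 1) → ∀ j, ∀ v ∈ Z j, ∃ (N : ℕ) (G : MvPolynomial τ ℂ),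
      G.IsHomogeneous N ∧ MvPolynomial.eval a G ≠ 0 ∧ MvPolynomial.aeval ξ G • v ∈ Y (j + N)) :
    ∃ e, ∀ j, e ≤ j → Z j ≤ Y j := by
  have hA : ∀ t j, ∀ v ∈ Z j, ∃ k : ℕ, xt ξ R t ^ k • mo j v ∈ gr ξ Y hY := by
    intro t j v hv
    have h1 : MvPolynomial.X t ∈ (((gr ξ Y hY).colon {mo j v}).comap (psi ξ R)).radical := by
      rw [← MvPolynomial.vanishingIdeal_zeroLocus_eq_radical (K := ℂ),
        MvPolynomial.mem_vanishingIdeal_iff]
      intro a ha
      rw [MvPolynomial.aeval_X]
      by_contra h0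
      obtain ⟨N, G, hG, hne, hm⟩ := hp (fun s => a s / a t) ⟨t, div_self h0⟩ j v hv
      have h2 := ha G (by
        rw [Ideal.mem_comap, Submodule.mem_colon_singleton, smul_mo hG]
        exact mo_mem.mpr hm)
      have h3 := scale (RingHom.id ℂ) (fun s => a s / a t) (a t) hG
      simp only [mul_div_cancel₀ _ h0] at h3
      exact mul_ne_zero (pow_ne_zero N h0) hne (h3.symm.trans h2)
    obtain ⟨k, hk⟩ := h1
    rw [Ideal.mem_comap, Submodule.mem_colon_singleton, map_pow] at hk
    exact ⟨k, by simpa [psi] using hk⟩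
  have hB : Ideal.span (Set.range (xt ξ R)) ≤
      ((gr ξ Y hY).colon (gr ξ Z hZ : Set (ι → K[X]))).radical := by
    rw [Ideal.span_le]
    rintro _ ⟨t, rfl⟩
    obtain ⟨G, hG⟩ := hfg
    obtain ⟨k, hk⟩ := unif (xt ξ R t) (gr ξ Y hY) G id fun g hg => by
      have h1 : g ∈ gr ξ Z hZ := hG ▸ Submodule.subset_span hg
      obtain ⟨D, hD⟩ := exists_sum g
      obtain ⟨k, hk⟩ := unif (xt ξ R t) (gr ξ Y hY) (Finset.range D) (fun j => mo j (co j g))
        fun j _ => hA t j _ (h1 j)
      refine ⟨k, ?_⟩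
      rw [id, hD, Finset.smul_sum]
      exact Submodule.sum_mem _ hk
    refine ⟨k, Submodule.mem_colon.mpr fun p hp => ?_⟩
    rw [← hG] at hp
    induction hp using Submodule.span_induction with
    | mem x hx => exact hk x hx
    | zero => simp
    | add x y _ _ hx hy => rw [smul_add]; exact add_mem hx hy
    | smul c x _ hx => rw [smul_comm]; exact Submodule.smul_mem _ _ hx
  obtain ⟨n, hn⟩ := Ideal.exists_pow_le_of_le_radical_of_fg hB
    (Submodule.fg_span (Set.finite_range _))
  obtain ⟨D, hD⟩ := gen_deg hZ hfg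
  have hC : ∀ j, D ≤ j → ∀ n, ∀ v ∈ Z (j + n),
      mo (j + n) v ∈ Ideal.span (Set.range (xt ξ R)) ^ n • gr ξ Z hZ := by
    intro j hj n
    induction n with
    | zero => intro v hv; simpa using mo_mem.mpr hv
    | succ n ih =>
      intro v hv
      have h1 := hD (j + n) (by omega) hv
      clear hv
      induction h1 using Submodule.span_induction with
      | mem x hx =>
        obtain ⟨t, w, hw, rfl⟩ := hx
        rw [← add_assoc, ← xt_mo (R := R), pow_succ', Submodule.mul_smul]
        exact Submodule.smul_mem_smul (Ideal.subset_span ⟨t, rfl⟩) (ih w hw)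
      | zero =>
        have : mo (j + (n + 1)) (0 : ι → K) = 0 := funext fun i => map_zero _
        exact this ▸ zero_mem _
      | add x y _ _ hx hy =>
        have : mo (j + (n + 1)) (x + y) = mo (j + (n + 1)) x + mo (j + (n + 1)) y :=
          funext fun i => map_add _ _ _
        exact this ▸ add_mem hx hy
      | smul c x _ hx =>
        have : mo (j + (n + 1)) (c • x) = c • mo (j + (n + 1)) x :=
          funext fun i => LinearMap.map_smul_of_tower (monomial (j + (n + 1))) c (x i)
        exact this ▸ Submodule.smul_of_tower_mem _ _ hx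
  refine ⟨D + n, fun j hj v hv => ?_⟩
  obtain ⟨l, rfl⟩ : ∃ l, j = l + n := ⟨j - n, by omega⟩
  exact mo_mem.mp (Submodule.smul_le.mpr (fun s hs p hp => Submodule.mem_colon.mp (hn hs) p hp)
    (hC l (by omega) n v hv))

/-- an additive subgroup stable under `R` -/
def sub (A : AddSubgroup (ι → K)) (h : ∀ r ∈ R, ∀ v ∈ A, r • v ∈ A) : Submodule R (ι → K) where
  carrier := A
  zero_mem' := A.zero_mem
  add_mem' := A.add_mem
  smul_mem' r v hv := h r r.2 v hv

/-- the maximal ideal -/
def mI {M : Submodule ℂ K} (h : LocD R M) : Ideal R where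
  carrier := {r | (r : K) ∈ M}
  zero_mem' := M.zero_mem
  add_mem' := M.add_mem
  smul_mem' a _ hr := h.mul a a.2 _ hr

theorem mI_le {M : Submodule ℂ K} (h : LocD R M) : mI h ≤ Ideal.jacobson ⊥ := fun x hx => by
  rw [Ideal.mem_jacobson_bot]
  intro y
  have h1 : ((x * y + 1 : R) : K) ∉ M := fun h2 => h.one (by
    have := M.sub_mem h2 ((mI h).mul_mem_right y hx)
    simpa using this)
  have h0 : ((x * y + 1 : R) : K) ≠ 0 := fun e => h1 (e ▸ M.zero_mem)
  exact IsUnit.of_mul_eq_one ⟨_, h.inv _ (x * y + 1).2 h1⟩ (Subtype.ext (mul_inv_cancel₀ h0))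

end DBddAux

open DBddAux

theorem bdd : S_Bdd := by
  intro K τ ι _ _ _ _ ξ R mR P Z B hc hM hZR hBR hZ hB hp
  have := hc.noeth
  obtain ⟨P0, hP0⟩ := hc.fin
  have hZ' : St ξ fun j => sub (Z j) (hZR j) := hZ
  have hY : St ξ fun j => sub (B j) (hBR j) ⊔ mI hc.loc • sub (Z j) (hZR j) := by
    intro j t v hv
    obtain ⟨b, hb, w, hw, rfl⟩ := Submodule.mem_sup.mp hv
    rw [smul_add]
    refine Submodule.add_mem_sup (hB j t b hb) ?_
    refine Submodule.smul_induction_on hw (fun r hr u hu => ?_) fun x y hx hy => ?_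
    · rw [smul_comm]
      exact Submodule.smul_mem_smul hr (hZ j t u hu)
    · rw [smul_add]
      exact add_mem hx hy
  obtain ⟨e, he⟩ := bound hZ' hY (gr_fg hP0 hZ' hM) fun a ha j v hv => by
    obtain ⟨N, g, ⟨G, hG, hne, hm⟩, hg⟩ := hp a ha j v hv
    refine ⟨N, G, hG, hne, ?_⟩
    have e : MvPolynomial.aeval ξ G • v = g • v - (g - MvPolynomial.aeval ξ G) • v := by
      rw [sub_smul, sub_sub_cancel]
    rw [e]
    refine sub_mem (Submodule.mem_sup_left hg) (Submodule.mem_sup_right ?_)
    refine Submodule.mul_induction_on hm (fun r hr u hu => ?_) fun x y hx hy => ?_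
    · rw [mul_smul]
      exact Submodule.smul_mem_smul (r := (⟨r, hc.loc.le r hr⟩ : R)) hr
        (pow_smul_mem hZ' N u hu j v hv)
    · rw [add_smul]
      exact add_mem hx hy
  exact ⟨e, fun j hj => Submodule.le_of_le_smul_of_le_jacobson_bot
    (piece_fg (Z := sub (Z j) (hZR j)) hP0 (hM j)) (mI_le hc.loc) (he j hj)⟩

end

end Pool.Agent.P.MP_c2aaf5_co
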