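import Pool.Agent.P.MP_c2aaf5_co.DefG

/-! Package D4: cutting the fibre out of the blow-up keeps regularity zero. -/

set_option linter.unusedSectionVars false

namespace Pool.Agent.P.MP_c2aaf5_co

open MvPolynomial Finset

noncomputable section

namespace DCutAux

variable {K : Type} [Field K] [Algebra ℂ K] {τ : Type} [Fintype τ] [LinearOrder τ]

theorem xi_mem (ξ : τ → K) (t : τ) : ξ t ∈ Vx ξ := Submodule.subset_span ⟨t, rfl⟩

theorem sub_mul_le (P : Subalgebra ℂ K) :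
    Subalgebra.toSubmodule P * Subalgebra.toSubmodule P ≤ Subalgebra.toSubmodule P :=
  Submodule.mul_le.2 fun _ ha _ hb => P.mul_mem ha hb

theorem MM_zero (ξ : τ → K) (P : Subalgebra ℂ K) : MM ξ P 0 = Subalgebra.toSubmodule P := by
  simp [MM]

theorem pow_MM {ξ : τ → K} {P : Subalgebra ℂ K} {N j : ℕ} {c v : K} (hc : c ∈ Vx ξ ^ N)
    (hv : v ∈ MM ξ P j) : c * v ∈ MM ξ P (N + j) := by
  unfold MM at *
  rw [pow_add, mul_assoc]
  exact Submodule.mul_mem_mul hc hv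

theorem xi_MM {ξ : τ → K} {P : Subalgebra ℂ K} {j : ℕ} {v : K} (t : τ) (hv : v ∈ MM ξ P j) :
    ξ t * v ∈ MM ξ P (j + 1) := by
  rw [add_comm]; exact pow_MM (by rw [pow_one]; exact xi_mem ξ t) hv

theorem P_MM {ξ : τ → K} {P : Subalgebra ℂ K} {j : ℕ} {c v : K} (hc : c ∈ P) (hv : v ∈ MM ξ P j) :
    c * v ∈ MM ξ P j := by
  have h : Subalgebra.toSubmodule P * MM ξ P j ≤ MM ξ P j := by
    unfold MM
    rw [mul_left_comm]
    exact mul_le_mul_right (sub_mul_le P) _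
  exact h (Submodule.mul_mem_mul hc hv)

/-- multiplication by `c` is compatible with products of submodules -/
theorem mul_lift {J A A' : Submodule ℂ K} {c : K} (h : ∀ v ∈ A, c * v ∈ A') {v : K}
    (hv : v ∈ J * A) : c * v ∈ J * A' := by
  refine Submodule.mul_induction_on hv (fun m hm w hw => ?_) fun a b ha hb => ?_
  · rw [mul_left_comm]; exact Submodule.mul_mem_mul hm (h w hw)
  · rw [mul_add]; exact add_mem ha hb

theorem aeval_mem (ξ : τ → K) {N : ℕ} {G : MvPolynomial τ ℂ} (hG : G.IsHomogeneous N) :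
    aeval ξ G ∈ Vx ξ ^ N := by
  have h1 : Vx ξ = Submodule.map (aeval ξ : MvPolynomial τ ℂ →ₐ[ℂ] K).toLinearMap
      (homogeneousSubmodule τ ℂ 1) := by
    simp [homogeneousSubmodule_one_eq_span_X, Submodule.map_span, ← Set.range_comp,
      Function.comp_def, Vx]
  rw [h1, ← Submodule.map_pow, homogeneousSubmodule_one_pow]
  exact ⟨G, hG, rfl⟩

section un
variable {ξ : τ → K} {R : Subalgebra ℂ K} {mR : Submodule ℂ K} {a : τ → ℂ}

theorem un_one : Un mR ξ a 0 1 := ⟨1, isHomogeneous_one _ _, by simp, by simp⟩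

theorem un_xi {s : τ} (h : a s = 1) : Un mR ξ a 1 (ξ s) :=
  ⟨X s, isHomogeneous_X _ _, by simp [h], by simp⟩

theorem un_mem (hR : LocD R mR) {N : ℕ} {g : K} (h : Un mR ξ a N g) :
    g ∈ Vx ξ ^ N * Subalgebra.toSubmodule R := by
  obtain ⟨G, hG, -, hg⟩ := h
  have h1 : aeval ξ G ∈ Vx ξ ^ N * Subalgebra.toSubmodule R := by
    simpa using Submodule.mul_mem_mul (aeval_mem ξ hG)
      (show (1 : K) ∈ Subalgebra.toSubmodule R from R.one_mem)
  have h2 : mR * Vx ξ ^ N ≤ Vx ξ ^ N * Subalgebra.toSubmodule R := by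
    rw [mul_comm]; exact mul_le_mul_right (fun g hg => hR.le g hg) _
  simpa using add_mem (h2 hg) h1

theorem R_m (hR : LocD R mR) : Subalgebra.toSubmodule R * mR ≤ mR :=
  Submodule.mul_le.2 fun a ha g hg => hR.mul a ha g hg

theorem un_mul (hR : LocD R mR) {N N' : ℕ} {g g' : K} (h : Un mR ξ a N g) (h' : Un mR ξ a N' g') :
    Un mR ξ a (N + N') (g * g') := by
  have hm := un_mem hR h
  obtain ⟨G, hG, hG0, hg⟩ := h
  obtain ⟨G', hG', hG0', hg'⟩ := h'
  refine ⟨G * G', hG.mul hG', by rw [map_mul]; exact mul_ne_zero hG0 hG0', ?_⟩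
  have e : g * g' - aeval ξ (G * G') = g * (g' - aeval ξ G') + (g - aeval ξ G) * aeval ξ G' := by
    rw [map_mul]; ring
  rw [e]
  refine add_mem ?_ ?_
  · have h1 := Submodule.mul_mem_mul hm hg'
    have h2 : Vx ξ ^ N * Subalgebra.toSubmodule R * (mR * Vx ξ ^ N') ≤ mR * Vx ξ ^ (N + N') := by
      calc _ = (Subalgebra.toSubmodule R * mR) * Vx ξ ^ (N + N') := by ring
        _ ≤ _ := mul_le_mul_left (R_m hR) _
    exact h2 h1
  · rw [pow_add, ← mul_assoc]
    exact Submodule.mul_mem_mul hg (aeval_mem ξ hG')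

variable {P : Subalgebra ℂ K}

theorem un_MM (hP : R ≤ P) {N j : ℕ} {c v : K}
    (hc : c ∈ Vx ξ ^ N * Subalgebra.toSubmodule R) (hv : v ∈ MM ξ P j) : c * v ∈ MM ξ P (N + j) := by
  refine Submodule.mul_induction_on hc (fun m hm w hw => ?_) fun a b ha hb => ?_
  · rw [mul_assoc]; exact pow_MM hm (P_MM (hP hw) hv)
  · rw [add_mul]; exact add_mem ha hb

theorem un_B (hP : R ≤ P) (J : Submodule ℂ K) {N j : ℕ} {c v : K}
    (hc : c ∈ Vx ξ ^ N * Subalgebra.toSubmodule R) (hv : v ∈ J * MM ξ P j) :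
    c * v ∈ J * MM ξ P (N + j) := mul_lift (fun _ hw => un_MM hP hc hw) hv

/-- elements that land in the family `A` after multiplication by a unit form -/
def Dn (hR : LocD R mR) (a : τ → ℂ) (A : ℕ → Submodule ℂ K)
    (hA : ∀ N j c v, c ∈ Vx ξ ^ N * Subalgebra.toSubmodule R → v ∈ A j → c * v ∈ A (N + j)) :
    Submodule ℂ K where
  carrier := {v | ∃ N g, Un mR ξ a N g ∧ g * v ∈ A N}
  zero_mem' := ⟨0, 1, un_one, by simp⟩
  add_mem' := by
    rintro v w ⟨N, g, hg, hv⟩ ⟨N', g', hg', hw⟩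
    refine ⟨N + N', g * g', un_mul hR hg hg', ?_⟩
    have h1 := hA _ _ _ _ (un_mem hR hg') hv
    have h2 := hA _ _ _ _ (un_mem hR hg) hw
    rw [add_comm] at h1
    convert add_mem h1 h2 using 1
    ring
  smul_mem' := by
    rintro c v ⟨N, g, hg, hv⟩
    exact ⟨N, g, hg, by rw [mul_smul_comm]; exact Submodule.smul_mem _ c hv⟩

theorem common (hR : LocD R mR) {ι : Type} (S : Finset ι) (A : ι → ℕ → Submodule ℂ K) (v : ι → K)
    (hA : ∀ i N j c v, c ∈ Vx ξ ^ N * Subalgebra.toSubmodule R → v ∈ A i j → c * v ∈ A i (N + j))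
    (hv : ∀ i, ∃ N g, Un mR ξ a N g ∧ g * v i ∈ A i N) :
    ∃ N g, Un mR ξ a N g ∧ ∀ i ∈ S, g * v i ∈ A i N := by
  classical
  induction S using Finset.induction_on with
  | empty => exact ⟨0, 1, un_one, by simp⟩
  | insert i S _ ih =>
    obtain ⟨N, g, hg, h⟩ := ih
    obtain ⟨N', g', hg', h'⟩ := hv i
    refine ⟨N + N', g * g', un_mul hR hg hg', fun k hk => ?_⟩
    rcases mem_insert.1 hk with rfl | hk
    · rw [mul_assoc]; exact hA _ _ _ _ _ (un_mem hR hg) h'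
    · rw [add_comm, mul_comm g, mul_assoc]; exact hA _ _ _ _ _ (un_mem hR hg') (h k hk)

end un

section span

theorem id_mul {O : Subalgebra ℂ K} {S : Set K} {r c : K} (hr : r ∈ O) (hc : c ∈ Id O S) :
    r * c ∈ Id O S := by
  have h : Subalgebra.toSubmodule O * Id O S ≤ Id O S := by
    unfold Id
    rw [← mul_assoc]
    exact mul_le_mul_left (sub_mul_le O) _
  exact h (Submodule.mul_mem_mul hr hc)

theorem mem_id {O : Subalgebra ℂ K} {S : Set K} {c : K} (hc : c ∈ S) : c ∈ Id O S := by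
  simpa [Id] using Submodule.mul_mem_mul (show (1 : K) ∈ Subalgebra.toSubmodule O from O.one_mem)
    (Submodule.subset_span (R := ℂ) hc)

theorem sp_le {S : Set K} {A : Submodule ℂ K} {T : AddSubgroup K}
    (h : ∀ x ∈ S, ∀ v ∈ A, x * v ∈ T) : (Submodule.span ℂ S * A).toAddSubgroup ≤ T := by
  intro u hu
  refine Submodule.mul_induction_on (show u ∈ Submodule.span ℂ S * A from hu)
    (fun x hx => ?_) fun a b ha hb => add_mem ha hb
  induction hx using Submodule.span_induction with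
  | mem x hx => exact h x hx
  | zero => simp
  | add a b _ _ ha hb => intro v hv; rw [add_mul]; exact add_mem (ha v hv) (hb v hv)
  | smul c a _ ha =>
    intro v hv
    rw [smul_mul_assoc, ← mul_smul_comm]
    exact ha _ (A.smul_mem c hv)

theorem id_le {O : Subalgebra ℂ K} {S : Set K} {T : AddSubgroup K}
    (h : ∀ x ∈ S, ∀ r ∈ O, x * r ∈ T) {v : K} (hv : v ∈ Id O S) : v ∈ T := by
  unfold Id at hv
  rw [mul_comm] at hv
  exact sp_le h hv

theorem mem_sp {S : Set K} {A : Submodule ℂ K} {x v : K} (hx : x ∈ S) (hv : v ∈ A) :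
    x * v ∈ Submodule.span ℂ S * A := Submodule.mul_mem_mul (Submodule.subset_span hx) hv

theorem id_sp {O : Subalgebra ℂ K} {S : Set K} {A : Submodule ℂ K} (hA : ∀ r ∈ O, ∀ v ∈ A, r * v ∈ A)
    {c v : K} (hc : c ∈ Id O S) (hv : v ∈ A) : c * v ∈ Submodule.span ℂ S * A := by
  refine id_le (T := (Submodule.span ℂ S * A).toAddSubgroup.comap (AddMonoidHom.mulRight v))
    (fun x hx r hr => ?_) hc
  change x * r * v ∈ Submodule.span ℂ S * A
  rw [mul_assoc]
  exact mem_sp hx (hA r hr v hv)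

theorem mem_Sm {U : Finset τ} {η : τ → K} {A : AddSubgroup K} {t : τ} (ht : t ∈ U) {v : K}
    (hv : v ∈ A) : η t * v ∈ Sm U η A :=
  (le_iSup₂ (f := fun t (_ : t ∈ U) => Sc (η t) A) t ht) ⟨v, hv, rfl⟩

theorem sp_Sm (S : Set K) (U : Finset τ) (η : τ → K) (A : Submodule ℂ K) :
    (Submodule.span ℂ S * A).toAddSubgroup ⊔ Sm U η A.toAddSubgroup =
      (Submodule.span ℂ (S ∪ η '' U) * A).toAddSubgroup := by
  refine le_antisymm (sup_le (sp_le fun x hx v hv => mem_sp (Or.inl hx) hv)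
    (iSup₂_le fun t ht => ?_)) (sp_le ?_)
  · rintro _ ⟨v, hv, rfl⟩
    exact mem_sp (Or.inr ⟨t, ht, rfl⟩) hv
  · rintro x (hx | ⟨t, ht, rfl⟩) v hv
    · exact AddSubgroup.mem_sup_left (mem_sp hx hv)
    · exact AddSubgroup.mem_sup_right (mem_Sm ht hv)

theorem sp_Sc (S : Set K) (z : K) (A : Submodule ℂ K) :
    (Submodule.span ℂ S * A).toAddSubgroup ⊔ Sc z A.toAddSubgroup =
      (Submodule.span ℂ (S ∪ {z}) * A).toAddSubgroup := by
  refine le_antisymm (sup_le (sp_le fun x hx v hv => mem_sp (Or.inl hx) hv) ?_) (sp_le ?_)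
  · rintro _ ⟨v, hv, rfl⟩
    exact mem_sp (Or.inr rfl) hv
  · rintro x (hx | rfl) v hv
    · exact AddSubgroup.mem_sup_left (mem_sp hx hv)
    · exact AddSubgroup.mem_sup_right ⟨v, hv, rfl⟩

end span

section point
variable {ξ : τ → K} {R : Subalgebra ℂ K} {mR : Submodule ℂ K} {P : Subalgebra ℂ K}
  {s : τ} {a : τ → ℂ} {O : Subalgebra ℂ K} {M : Submodule ℂ K}

theorem eta_O (hp : Pt R mR ξ s a O M) (t : τ) : ξ t / ξ s ∈ O := by
  simpa using add_mem (hp.loc.le _ (hp.eta t)) (O.algebraMap_mem (a t))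

theorem V_div (hp : Pt R mR ξ s a O M) {v : K} (hv : v ∈ Vx ξ) : (ξ s)⁻¹ * v ∈ O := by
  induction hv using Submodule.span_induction with
  | mem x hx => obtain ⟨t, rfl⟩ := hx; rw [← div_eq_inv_mul]; exact eta_O hp t
  | zero => simp
  | add a b _ _ ha hb => rw [mul_add]; exact add_mem ha hb
  | smul c a _ ha => rw [mul_smul_comm]; exact O.smul_mem ha c

theorem pow_div (hp : Pt R mR ξ s a O M) (j : ℕ) : ∀ v ∈ Vx ξ ^ j, (ξ s ^ j)⁻¹ * v ∈ O := by
  induction j with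
  | zero =>
    intro v hv
    rw [pow_zero, Submodule.mem_one] at hv
    obtain ⟨c, rfl⟩ := hv
    simp
  | succ j ih =>
    intro v hv
    rw [pow_succ] at hv
    refine Submodule.mul_induction_on hv (fun c hc u hu => ?_) fun a b ha hb => ?_
    · rw [pow_succ, mul_inv, mul_mul_mul_comm]
      exact O.mul_mem (ih c hc) (V_div hp hu)
    · rw [mul_add]; exact add_mem ha hb

/-- the module at the point -/
def AO (O P : Subalgebra ℂ K) : Submodule ℂ K := Subalgebra.toSubmodule O * Subalgebra.toSubmodule P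

theorem O_AO {r v : K} (hr : r ∈ O) (hv : v ∈ AO O P) : r * v ∈ AO O P := by
  have h : Subalgebra.toSubmodule O * AO O P ≤ AO O P := by
    unfold AO
    rw [← mul_assoc]
    exact mul_le_mul_left (sub_mul_le O) _
  exact h (Submodule.mul_mem_mul hr hv)

theorem P_AO {v : K} (hv : v ∈ P) : v ∈ AO O P := by
  simpa [AO] using Submodule.mul_mem_mul (show (1 : K) ∈ Subalgebra.toSubmodule O from O.one_mem)
    (show v ∈ Subalgebra.toSubmodule P from hv)

theorem MM_div (hp : Pt R mR ξ s a O M) {j : ℕ} {v : K} (hv : v ∈ MM ξ P j) :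
    (ξ s ^ j)⁻¹ * v ∈ AO O P := by
  refine Submodule.mul_induction_on hv (fun c hc u hu => ?_) fun a b ha hb => ?_
  · rw [← mul_assoc]; exact Submodule.mul_mem_mul (pow_div hp j c hc) hu
  · rw [mul_add]; exact add_mem ha hb

theorem B_div (hp : Pt R mR ξ s a O M) (J : Submodule ℂ K) {j : ℕ} {v : K}
    (hv : v ∈ J * MM ξ P j) : (ξ s ^ j)⁻¹ * v ∈ J * AO O P :=
  mul_lift (fun _ hw => MM_div hp hw) hv

theorem AO_clear (hC : Core ξ R mR P) (hp : Pt R mR ξ s a O M) :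
    ∀ v ∈ AO O P, ∃ n g, Un mR ξ a n g ∧ g * v ∈ MM ξ P n := by
  have : AO O P ≤ Dn hC.loc a (MM ξ P) fun _ _ _ _ => un_MM hC.le := by
    refine Submodule.mul_le.2 fun r hr v hv => ?_
    obtain ⟨n, g, hg, h⟩ := hp.den r hr
    exact ⟨n, g, hg, by rw [← mul_assoc]; exact un_MM (j := 0) hC.le h (by rwa [MM_zero])⟩
  exact this

theorem BO_clear (hC : Core ξ R mR P) (hp : Pt R mR ξ s a O M) (J : Submodule ℂ K) :
    ∀ v ∈ J * AO O P, ∃ n g, Un mR ξ a n g ∧ g * v ∈ J * MM ξ P n := by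
  have : J * AO O P ≤ Dn hC.loc a (fun n => J * MM ξ P n) fun _ _ _ _ => un_B hC.le J := by
    refine Submodule.mul_le.2 fun r hr v hv => ?_
    obtain ⟨n, g, hg, h⟩ := AO_clear hC hp v hv
    exact ⟨n, g, hg, by rw [mul_left_comm]; exact Submodule.mul_mem_mul hr h⟩
  exact this

/-- combinations of the basis with coefficients in `J` -/
def Cb {n : ℕ} (f : Fin n → K) (J : AddSubgroup K) : AddSubgroup K where
  carrier := {v | ∃ κ : Fin n → K, (∀ b, κ b ∈ J) ∧ v = ∑ b, κ b * f b}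
  zero_mem' := ⟨0, fun _ => J.zero_mem, by simp⟩
  add_mem' := by
    rintro _ _ ⟨κ, h, rfl⟩ ⟨κ', h', rfl⟩
    exact ⟨κ + κ', fun b => J.add_mem (h b) (h' b), by simp [add_mul, sum_add_distrib]⟩
  neg_mem' := by
    rintro _ ⟨κ, h, rfl⟩
    exact ⟨-κ, fun b => J.neg_mem (h b), by simp⟩

theorem Cb_mul {n : ℕ} {f : Fin n → K} {J J' : AddSubgroup K} {c v : K} (h : ∀ r ∈ J, c * r ∈ J')
    (hv : v ∈ Cb f J) : c * v ∈ Cb f J' := by
  obtain ⟨κ, hκ, rfl⟩ := hv
  exact ⟨fun b => c * κ b, fun b => h _ (hκ b), by simp [mul_sum, mul_assoc]⟩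

/-- regularity passes from the local ring to the free module -/
theorem reg_free (hf : FreeAt O P) {ι : Type} {F : ι → K} (hr : RegFam O F) (hF : ∀ i, F i ∈ O)
    {I : Set ι} {i : ι} (hi : i ∉ I) {T : Set K} (h1 : F '' I ⊆ T) (h2 : ∀ x ∈ T, x ∈ Id O (F '' I))
    {g : K} (hg : g ∈ AO O P) (h : F i * g ∈ Submodule.span ℂ T * AO O P) :
    g ∈ Submodule.span ℂ T * AO O P := by
  classical
  obtain ⟨n, f, f1, f2, f3⟩ := hf
  have hA : ∀ v ∈ AO O P, v ∈ Cb f (Subalgebra.toSubmodule O).toAddSubgroup := by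
    intro v hv
    refine Submodule.mul_induction_on hv (fun r hr u hu => ?_) fun a b ha hb => add_mem ha hb
    refine Cb_mul (J := (Subalgebra.toSubmodule O).toAddSubgroup) (fun r' hr' => O.mul_mem hr hr')
      (id_le ?_ (f2 hu))
    rintro _ ⟨b, rfl⟩ r' hr'
    refine ⟨Pi.single b r', fun b' => ?_, ?_⟩
    · by_cases e : b' = b
      · subst e; simpa using hr'
      · simp [Pi.single_eq_of_ne e]
    · rw [sum_eq_single_of_mem b (mem_univ b) fun b' _ e => by simp [Pi.single_eq_of_ne e]]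
      simp [mul_comm]
  have hB : (Submodule.span ℂ T * AO O P).toAddSubgroup ≤ Cb f (Id O (F '' I)).toAddSubgroup :=
    sp_le fun x hx v hv => Cb_mul (fun r hr => by rw [mul_comm]; exact id_mul hr (h2 x hx)) (hA v hv)
  have hO : ∀ v ∈ Id O (F '' I), v ∈ O := fun v hv =>
    id_le (T := (Subalgebra.toSubmodule O).toAddSubgroup)
      (by rintro _ ⟨k, -, rfl⟩ r hr; exact O.mul_mem (hF k) hr) hv
  obtain ⟨κ, k1, rfl⟩ := hA g hg
  obtain ⟨κ', k2, k3⟩ := hB h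
  have e := f3 (fun b => F i * κ b - κ' b) (fun b => O.sub_mem (O.mul_mem (hF i) (k1 b)) (hO _ (k2 b)))
    (by simp only [sub_mul, sum_sub_distrib, ← k3, mul_sum, mul_assoc, sub_self])
  refine Submodule.sum_mem _ fun b _ => ?_
  have h3 : κ b ∈ Id O (F '' I) := hr I i hi _ (k1 b) (by
    rw [sub_eq_zero.1 (congrFun e b)]; exact k2 b)
  exact mul_le_mul_left (Submodule.span_mono h1) _
    (id_sp (fun r hr v hv => O_AO hr hv) h3 (P_AO (f1 b)))

end point

section gens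
variable {ξ : τ → K} {R : Subalgebra ℂ K} {mR : Submodule ℂ K} {P : Subalgebra ℂ K}
  {s : τ} {a : τ → ℂ} {O : Subalgebra ℂ K} {M : Submodule ℂ K} {N : ℕ} {φ : Option τ → τ → K}
  {z : Fin N → K}

/-- the generators that have been used so far -/
def gs (φ : Option τ → τ → K) (z : Fin N → K) (W : Finset (Option τ)) (Z : Finset (Fin N)) :
    Set K := {x | (∃ w ∈ W, ∃ t, x = φ w t) ∨ ∃ i ∈ Z, x = z i}

/-- the corresponding local parameters -/
def Ix (s : τ) (W : Finset (Option τ)) (Z : Finset (Fin N)) (w0 : Option τ) (U : Finset τ) :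
    Set ((Option τ × {t // t ≠ s}) ⊕ Fin N ⊕ {t // t ≠ s}) :=
  {i | (∃ w t, i = Sum.inl (w, t) ∧ (w ∈ W ∨ w = w0 ∧ t.1 ∈ U)) ∨ ∃ k ∈ Z, i = Sum.inr (Sum.inl k)}

theorem gs_mem (hG : GenD ξ R mR φ z) {W : Finset (Option τ)} {Z : Finset (Fin N)} {x : K}
    (hx : x ∈ gs φ z W Z) : x ∈ mR := by
  rcases hx with ⟨w, -, t, rfl⟩ | ⟨i, -, rfl⟩
  exacts [hG.mφ w t, hG.mz i]

theorem fam_O (hG : GenD ξ R mR φ z) (hp : Pt R mR ξ s a O M) (i) : fam φ z ξ s a i ∈ O := by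
  rcases i with ⟨w, t⟩ | i | t
  exacts [hp.loc.le _ (hp.mle (hG.mφ w t)), hp.loc.le _ (hp.mle (hG.mz i)), hp.loc.le _ (hp.eta t)]

theorem fam_sub (W : Finset (Option τ)) (Z : Finset (Fin N)) (w0 : Option τ) (U : Finset τ) :
    fam φ z ξ s a '' Ix s W Z w0 U ⊆ gs φ z W Z ∪ φ w0 '' U := by
  rintro _ ⟨_, ⟨w, t, rfl, h | ⟨rfl, h⟩⟩ | ⟨k, hk, rfl⟩, rfl⟩
  · exact Or.inl (Or.inl ⟨w, h, t, rfl⟩)
  · exact Or.inr ⟨t, h, rfl⟩
  · exact Or.inl (Or.inr ⟨k, hk, rfl⟩)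

theorem gs_id (hG : GenD ξ R mR φ z) (hp : Pt R mR ξ s a O M) (h0 : ξ s ≠ 0)
    (W : Finset (Option τ)) (Z : Finset (Fin N)) (w0 : Option τ) {U : Finset τ} (hU : s ∉ U) :
    ∀ x ∈ gs φ z W Z ∪ φ w0 '' U, x ∈ Id O (fam φ z ξ s a '' Ix s W Z w0 U) := by
  rintro x ((⟨w, hw, t, rfl⟩ | ⟨i, hi, rfl⟩) | ⟨t, ht, rfl⟩)
  · have h1 : ∀ t, t ≠ s → φ w t ∈ Id O (fam φ z ξ s a '' Ix s W Z w0 U) := fun t ht =>
      mem_id ⟨Sum.inl (w, ⟨t, ht⟩), Or.inl ⟨w, ⟨t, ht⟩, rfl, Or.inl hw⟩, rfl⟩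
    by_cases ht : t = s
    · subst ht
      have h2 := hG.rel w
      rw [← add_sum_erase _ _ (mem_univ t)] at h2
      have e : φ w t = -∑ u ∈ univ.erase t, ξ u / ξ t * φ w u := by
        apply mul_right_cancel₀ h0
        rw [neg_mul, sum_mul, eq_neg_iff_add_eq_zero, ← h2]
        congr 1
        exact sum_congr rfl fun u _ => by field_simp
      rw [e]
      exact neg_mem (Submodule.sum_mem _ fun u hu =>
        id_mul (eta_O hp u) (h1 u (ne_of_mem_erase hu)))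
    · exact h1 t ht
  · exact mem_id ⟨Sum.inr (Sum.inl i), Or.inr ⟨i, hi, rfl⟩, rfl⟩
  · have hts : t ≠ s := by rintro rfl; exact hU ht
    exact mem_id ⟨Sum.inl (w0, ⟨t, hts⟩), Or.inl ⟨w0, ⟨t, hts⟩, rfl, Or.inr ⟨rfl, ht⟩⟩, rfl⟩

theorem reg_z (hG : GenD ξ R mR φ z) (hp : Pt R mR ξ s a O M) (h0 : ξ s ≠ 0) (hf : FreeAt O P)
    (hr : RegFam O (fam φ z ξ s a)) (W : Finset (Option τ)) {Z : Finset (Fin N)} {i : Fin N}
    (hi : i ∉ Z) {g : K} (hg : g ∈ AO O P) (h : z i * g ∈ Submodule.span ℂ (gs φ z W Z) * AO O P) :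
    g ∈ Submodule.span ℂ (gs φ z W Z) * AO O P := by
  have h1 := fam_sub (φ := φ) (z := z) (ξ := ξ) (s := s) (a := a) W Z none ∅
  have h2 := gs_id hG hp h0 W Z none (notMem_empty s)
  simp only [coe_empty, Set.image_empty, Set.union_empty] at h1 h2
  refine reg_free hf hr (fam_O hG hp) (i := Sum.inr (Sum.inl i)) ?_ h1 h2 hg h
  rintro (⟨w, t, e, -⟩ | ⟨k, hk, e⟩)
  · cases e
  · cases e; exact hi hk

theorem kf_point (hK : S_KReg) (hG : GenD ξ R mR φ z) (hp : Pt R mR ξ s a O M) (h0 : ξ s ≠ 0)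
    (hf : FreeAt O P) (hr : RegFam O (fam φ z ξ s a)) {W : Finset (Option τ)} (Z : Finset (Fin N))
    {w : Option τ} (hw : w ∉ W) :
    KF (univ.erase s) (φ w) (AO O P).toAddSubgroup
      (Submodule.span ℂ (gs φ z W Z) * AO O P).toAddSubgroup := by
  have hm : ∀ x ∈ mR, x ∈ O := fun x hx => hp.loc.le _ (hp.mle hx)
  refine hK τ K K (univ.erase s) (φ w) _ _
    (sp_le fun x hx v hv => O_AO (hm _ (gs_mem hG hx)) hv)
    (fun t _ v hv => O_AO (hm _ (hG.mφ w t)) hv)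
    (fun t _ v hv => mul_lift (fun u hu => O_AO (hm _ (hG.mφ w t)) hu) hv)
    fun U hU t ht htU g hg h => ?_
  have hs : s ∉ U := fun hs => by simpa using hU hs
  rw [sp_Sm] at h ⊢
  refine reg_free hf hr (fam_O hG hp) (i := Sum.inl (w, ⟨t, ne_of_mem_erase ht⟩)) ?_
    (fam_sub W Z w U) (gs_id hG hp h0 W Z w hs) hg h
  rintro (⟨w', t', e, h' | ⟨-, h'⟩⟩ | ⟨k, hk, e⟩)
  · cases e; exact hw h'
  · cases e; exact htU h'
  · cases e

theorem val_erase {p : ℕ} {A : AddSubgroup K} {F : Finset τ → K} (h : Val univ p A F)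
    (ha : an s F = 0) : Val (univ.erase s) p A F := by
  refine fun I => ⟨(h I).1, fun hI => ?_⟩
  by_cases hs : s ∈ I
  · have := an_cr_self s F
    rw [ha, map_zero, add_zero] at this
    rw [← this, an_apply, if_pos hs]
  · exact (h I).2 fun hh => hI ⟨fun t ht => mem_erase.2 ⟨fun e => hs (e ▸ ht), mem_univ t⟩, hh.2⟩

theorem val_of_erase {p : ℕ} {A : AddSubgroup K} {F : Finset τ → K}
    (h : Val (univ.erase s) p A F) : Val univ p A F ∧ an s F = 0 := by
  refine ⟨fun I => ⟨(h I).1, fun hI => (h I).2 fun hh => hI ⟨subset_univ _, hh.2⟩⟩, ?_⟩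
  funext I
  rw [an_apply]
  split_ifs with hs
  · rfl
  · rw [(h _).2 fun hh => by simpa using hh.1 (mem_insert_self s I), smul_zero]; rfl

theorem dd_erase (η : τ → K) {F : Finset τ → K} (ha : an s F = 0) :
    dd (univ.erase s) η F = dd univ η F := by
  rw [dd_def, dd_def, ← add_sum_erase _ _ (mem_univ s), ha, smul_zero, zero_add]

theorem val_smul {U : Finset τ} {p : ℕ} {A A' : AddSubgroup K} {F : Finset τ → K} {c : K}
    (h : Val U p A F) (hc : ∀ I, c * F I ∈ A') : Val U p A' (c • F) :=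
  fun I => ⟨hc I, fun hI => by simp [(h I).2 hI]⟩

/-- the shifted module -/
def MP (ξ : τ → K) (P : Subalgebra ℂ K) : ℕ → Submodule ℂ K
  | 0 => ⊥
  | j + 1 => MM ξ P j

theorem P_MP {j : ℕ} {c v : K} (hc : c ∈ P) (hv : v ∈ MP ξ P j) : c * v ∈ MP ξ P j := by
  rcases j with _ | j
  · rw [(Submodule.mem_bot ℂ).1 hv, mul_zero]; exact zero_mem _
  · exact P_MM hc hv

theorem xi_MP {j : ℕ} {v : K} (t : τ) (hv : v ∈ MP ξ P j) : ξ t * v ∈ MP ξ P (j + 1) := by
  rcases j with _ | j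
  · rw [(Submodule.mem_bot ℂ).1 hv, mul_zero]; exact zero_mem _
  · exact xi_MM t hv

/-- the cycles -/
def Zc (ξ : τ → K) (P : Subalgebra ℂ K) (J : Submodule ℂ K) (η : τ → K) (i j : ℕ) :
    AddSubgroup (Finset τ → K) where
  carrier := {ψ | Val univ (i + 1) (MM ξ P j).toAddSubgroup ψ ∧
    In (J * MM ξ P (j + 1)).toAddSubgroup (wd univ ξ (dd univ η ψ))}
  zero_mem' := ⟨val_zero _ _ _, fun I => by simp⟩
  add_mem' := by
    rintro v w ⟨h1, h2⟩ ⟨h1', h2'⟩
    exact ⟨h1.add h1', fun I => by rw [map_add, map_add]; exact add_mem (h2 I) (h2' I)⟩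
  neg_mem' := by
    rintro v ⟨h1, h2⟩
    exact ⟨by simpa using (val_zero _ _ _).sub h1, fun I => by
      rw [map_neg, map_neg]; exact neg_mem (h2 I)⟩

/-- the boundaries -/
def Bc (ξ : τ → K) (P : Subalgebra ℂ K) (J : Submodule ℂ K) (η : τ → K) (i j : ℕ) :
    AddSubgroup (Finset τ → K) where
  carrier := {ψ | ∃ ω χ, Val univ (i + 2) (MM ξ P j).toAddSubgroup ω ∧
    In (MP ξ P j).toAddSubgroup χ ∧
    In (J * MM ξ P j).toAddSubgroup (ψ - dd univ η ω - wd univ ξ χ)}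
  zero_mem' := ⟨0, 0, val_zero _ _ _, fun I => zero_mem _, fun I => by simp⟩
  add_mem' := by
    rintro v w ⟨ω, χ, h1, h2, h3⟩ ⟨ω', χ', h1', h2', h3'⟩
    refine ⟨ω + ω', χ + χ', h1.add h1', fun I => add_mem (h2 I) (h2' I), fun I => ?_⟩
    convert add_mem (h3 I) (h3' I) using 1
    simp only [map_add, Pi.add_apply, Pi.sub_apply]; ring
  neg_mem' := by
    rintro v ⟨ω, χ, h1, h2, h3⟩
    refine ⟨-ω, -χ, by simpa using (val_zero _ _ _).sub h1, fun I => neg_mem (h2 I), fun I => ?_⟩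
    convert neg_mem (h3 I) using 1
    simp only [map_neg, Pi.neg_apply, Pi.sub_apply]; ring

theorem Zc_mul {J : Submodule ℂ K} {η : τ → K} {i j j' : ℕ} {c : K}
    (h : ∀ v ∈ MM ξ P j, c * v ∈ MM ξ P j') (h' : ∀ v ∈ MM ξ P (j + 1), c * v ∈ MM ξ P (j' + 1))
    {ψ : Finset τ → K} (hψ : ψ ∈ Zc ξ P J η i j) : c • ψ ∈ Zc ξ P J η i j' :=
  ⟨val_smul hψ.1 fun I => h _ (hψ.1 I).1, fun I => by
    rw [dd_smul, wd_smul]; exact mul_lift h' (hψ.2 I)⟩

theorem Bc_mul {J : Submodule ℂ K} {η : τ → K} {i j j' : ℕ} {c : K}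
    (h : ∀ v ∈ MM ξ P j, c * v ∈ MM ξ P j') (h' : ∀ v ∈ MP ξ P j, c * v ∈ MP ξ P j')
    {ψ : Finset τ → K} (hψ : ψ ∈ Bc ξ P J η i j) : c • ψ ∈ Bc ξ P J η i j' := by
  obtain ⟨ω, χ, h1, h2, h3⟩ := hψ
  refine ⟨c • ω, c • χ, val_smul h1 fun I => h _ (h1 I).1, fun I => h' _ (h2 I), fun I => ?_⟩
  rw [dd_smul, wd_smul, ← smul_sub, ← smul_sub]
  exact mul_lift h (h3 I)

/-- the local step for a column of relations -/
theorem loc_phi (hC : Core ξ R mR P) (hp : Pt R mR ξ s a O M) {J : Submodule ℂ K} {η : τ → K}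
    (hη : ∑ t, η t * ξ t = 0)
    (hK : KF (univ.erase s) η (AO O P).toAddSubgroup (J * AO O P).toAddSubgroup) {i j : ℕ}
    {ψ : Finset τ → K} (hψ : ψ ∈ Zc ξ P J η i j) :
    ∃ n g, Un mR ξ a n g ∧ g • ψ ∈ Bc ξ P J η i (j + n) := by
  have h0 := hC.ne s
  have hc : ξ s ^ (j + 1) ∈ Vx ξ ^ (j + 1) := Submodule.pow_mem_pow _ (xi_mem ξ s) _
  have v1 : Val univ (i + 1) (MM ξ P (j + 1)).toAddSubgroup (an s (wd univ ξ ψ)) :=
    (hψ.1.wd fun t _ v hv => xi_MM t hv).an s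
  have v2 : Val univ (i + 1) (AO O P).toAddSubgroup ((ξ s ^ (j + 1))⁻¹ • an s (wd univ ξ ψ)) :=
    val_smul v1 fun I => MM_div hp (v1 I).1
  have a2 : an s ((ξ s ^ (j + 1))⁻¹ • an s (wd univ ξ ψ)) = 0 := by
    rw [an_smul, an_an_self, smul_zero]
  have e1 : dd univ η (an s (wd univ ξ ψ)) = an s (wd univ ξ (dd univ η ψ)) := by
    have := dd_wd univ ξ η ψ
    rw [hη, zero_smul, add_comm, add_eq_zero_iff_eq_neg] at this
    rw [this, map_neg, an_dd, neg_neg]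
  obtain ⟨ω, o1, o2⟩ := hK i _ (val_erase v2 a2) (by
    rw [dd_erase η a2, dd_smul, e1]
    exact fun I => B_div hp J (hψ.2.an s I))
  obtain ⟨o3, o4⟩ := val_of_erase o1
  rw [dd_erase η o4] at o2
  obtain ⟨n, g, hg, h⟩ := common (a := a) hC.loc (univ : Finset (Finset τ ⊕ Finset τ))
    (Sum.elim (fun _ => MM ξ P) fun _ n => J * MM ξ P n)
    (Sum.elim ω ((ξ s ^ (j + 1))⁻¹ • an s (wd univ ξ ψ) - dd univ η ω))
    (by rintro (I | I) _ _ _ _; exacts [un_MM hC.le, un_B hC.le J])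
    (by rintro (I | I); exacts [AO_clear hC hp _ (o1 I).1, BO_clear hC hp J _ (o2 I)])
  have hn : j + (n + 1) = j + 1 + n := by ring
  refine ⟨n + 1, g * ξ s, un_mul hC.loc hg (un_xi hp.one), (ξ s ^ (j + 1) * g) • ω, g • an s ψ,
    val_smul o3 fun I => ?_, fun I => ?_, fun I => ?_⟩
  · rw [hn, mul_assoc]
    exact pow_MM hc (h (Sum.inl I) (mem_univ _))
  · have := un_MM hC.le (un_mem hC.loc hg) (hψ.1.in.an s I)
    rw [add_comm] at this
    exact this
  · have e2 := an_wd univ ξ s ψ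
    rw [if_pos (mem_univ s)] at e2
    have e3 : (g * ξ s) • ψ - dd univ η ((ξ s ^ (j + 1) * g) • ω) - wd univ ξ (g • an s ψ) =
        ξ s ^ (j + 1) • g • ((ξ s ^ (j + 1))⁻¹ • an s (wd univ ξ ψ) - dd univ η ω) := by
      rw [mul_smul g, ← e2, dd_smul, wd_smul, smul_sub, smul_sub, smul_comm g (ξ s ^ (j + 1))⁻¹,
        smul_inv_smul₀ (pow_ne_zero _ h0), mul_smul, smul_add]
      abel
    rw [e3, hn]
    exact mul_lift (fun v hv => pow_MM hc hv) (h (Sum.inr I) (mem_univ _))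

/-- the invariant of the induction -/
def Ivt (ξ : τ → K) (P : Subalgebra ℂ K) (J : Submodule ℂ K) : Prop :=
  Reg0 univ ξ (fun j => (MM ξ P j).toAddSubgroup) (fun j => (J * MM ξ P j).toAddSubgroup) ∧
  Reg0 univ ξ (fun j => (J * MM ξ P j).toAddSubgroup) (fun _ => ⊥)

theorem stab_B (J : Submodule ℂ K) : Stab univ ξ fun j => (J * MM ξ P j).toAddSubgroup :=
  fun _ t _ _ hv => mul_lift (fun _ hu => xi_MM t hu) hv

theorem inv_step (hE : S_Ext) {J J' : Submodule ℂ K} (hJ : J ≤ J') (h : Ivt ξ P J)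
    (h' : Reg0 univ ξ (fun j => (MM ξ P j).toAddSubgroup) (fun j => (J' * MM ξ P j).toAddSubgroup) ∧
      Reg0 univ ξ (fun j => (J' * MM ξ P j).toAddSubgroup) fun j => (J * MM ξ P j).toAddSubgroup) :
    Ivt ξ P J' :=
  ⟨h'.1, hE τ K K univ ξ _ (fun j => (J * MM ξ P j).toAddSubgroup) _ (fun _ => bot_le)
    (fun _ _ hv => mul_le_mul_left hJ _ hv) (stab_B J') h'.2 h.2⟩

theorem B_le (hC : Core ξ R mR P) (hG : GenD ξ R mR φ z) (W : Finset (Option τ))
    (Z : Finset (Fin N)) (j : ℕ) :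
    (Submodule.span ℂ (gs φ z W Z) * MM ξ P j).toAddSubgroup ≤ (MM ξ P j).toAddSubgroup :=
  sp_le fun _ hx _ hv => P_MM (hC.le (hC.loc.le _ (gs_mem hG hx))) hv

variable (hC : Core ξ R mR P) (hG : GenD ξ R mR φ z)
  (hP : ∀ s a, a s = 1 → (∃ N, Un mR ξ a N 0) ∨
    ∃ O M, Pt R mR ξ s a O M ∧ FreeAt O P ∧ RegFam O (fam φ z ξ s a))
include hC hG hP

theorem step_phi (hS : S_StepPhi) (hE : S_Ext) (hK : S_KReg) (hB : S_Bdd) {W : Finset (Option τ)}
    {Z : Finset (Fin N)} {w : Option τ} (hw : w ∉ W)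
    (h : Ivt ξ P (Submodule.span ℂ (gs φ z W Z))) :
    Ivt ξ P (Submodule.span ℂ (gs φ z (insert w W) Z)) := by
  have hm : ∀ t, φ w t ∈ P := fun t => hC.le (hC.loc.le _ (hG.mφ w t))
  have e : gs φ z (insert w W) Z = gs φ z W Z ∪ φ w '' (univ : Finset τ) := by
    ext x
    constructor
    · rintro (⟨w', hw', t, rfl⟩ | hx)
      · rcases mem_insert.1 hw' with rfl | hw'
        · exact Or.inr ⟨t, by simp, rfl⟩
        · exact Or.inl (Or.inl ⟨w', hw', t, rfl⟩)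
      · exact Or.inl (Or.inr hx)
    · rintro ((⟨w', hw', t, rfl⟩ | hx) | ⟨t, -, rfl⟩)
      · exact Or.inl ⟨w', mem_insert_of_mem hw', t, rfl⟩
      · exact Or.inr hx
      · exact Or.inl ⟨w, mem_insert_self _ _, t, rfl⟩
  have hb : ∀ i, ∃ e, ∀ j, e ≤ j → Zc ξ P (Submodule.span ℂ (gs φ z W Z)) (φ w) i j ≤
      Bc ξ P (Submodule.span ℂ (gs φ z W Z)) (φ w) i j := fun i => by
    refine hB K τ (Finset τ) ξ R mR P _ _ hC (fun j v hv I => (hv.1 I).1)
      (fun j r hr v hv => Zc_mul (fun _ => P_MM (hC.le hr)) (fun _ => P_MM (hC.le hr)) hv)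
      (fun j r hr v hv => Bc_mul (fun _ => P_MM (hC.le hr)) (fun _ => P_MP (hC.le hr)) hv)
      (fun j t v hv => Zc_mul (fun _ => xi_MM t) (fun _ => xi_MM t) hv)
      (fun j t v hv => Bc_mul (fun _ => xi_MM t) (fun _ => xi_MP t) hv) ?_
    rintro a ⟨s, hs⟩ j v hv
    rcases hP s a hs with ⟨n, hn⟩ | ⟨O, M, hp, hf, hr⟩
    · exact ⟨n, 0, hn, by rw [zero_smul]; exact zero_mem _⟩
    · exact loc_phi hC hp (hG.rel w) (kf_point hK hG hp (hC.ne s) hf hr Z hw) hv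
  choose ee he using hb
  have h' := hS τ K K univ ξ _ _ (φ w) (B_le hC hG W Z) (fun j t _ v hv => xi_MM t hv) (stab_B _)
    (fun j t _ v hv => P_MM (hm t) hv) (fun j t _ v hv => mul_lift (fun u hu => P_MM (hm t) hu) hv)
    (hG.rel w) h.1 ⟨(range (Fintype.card τ)).sup ee, fun j hj i ψ hψ ⟨χ, _, h2⟩ => by
      by_cases hi : i < Fintype.card τ
      · refine he i (j + 1) (((le_sup (mem_range.2 hi)).trans hj).trans (Nat.le_succ j)) ⟨hψ, ?_⟩
        have := h2.wd (U := univ) (ξ := ξ) (stab_B (ξ := ξ) (P := P) _ (j + 1))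
        rwa [map_sub, wd_wd, sub_zero] at this
      · have : ψ = 0 := funext fun I => (hψ I).2 fun hh => by
          have := card_le_univ I
          omega
        subst this
        exact ⟨0, 0, val_zero _ _ _, fun I => zero_mem _, fun I => by simp⟩⟩
  simp only [sp_Sm] at h'
  rw [e]
  exact inv_step hE (Submodule.span_mono Set.subset_union_left) h h'

theorem step_z (hS : S_StepZ) (hE : S_Ext) (hB : S_Bdd) {W : Finset (Option τ)}
    {Z : Finset (Fin N)} {i : Fin N} (hi : i ∉ Z)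
    (h : Ivt ξ P (Submodule.span ℂ (gs φ z W Z))) :
    Ivt ξ P (Submodule.span ℂ (gs φ z W (insert i Z))) := by
  have hm : z i ∈ P := hC.le (hC.loc.le _ (hG.mz i))
  have e : gs φ z W (insert i Z) = gs φ z W Z ∪ {z i} := by
    ext x
    constructor
    · rintro (hx | ⟨k, hk, rfl⟩)
      · exact Or.inl (Or.inl hx)
      · rcases mem_insert.1 hk with rfl | hk
        · exact Or.inr rfl
        · exact Or.inl (Or.inr ⟨k, hk, rfl⟩)
    · rintro ((hx | ⟨k, hk, rfl⟩) | rfl)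
      · exact Or.inl hx
      · exact Or.inr ⟨k, mem_insert_of_mem hk, rfl⟩
      · exact Or.inr ⟨i, mem_insert_self _ _, rfl⟩
  let J := Submodule.span ℂ (gs φ z W Z)
  let ev : (Unit → K) →+ K := Pi.evalAddMonoidHom (fun _ => K) ()
  obtain ⟨ee, he⟩ := hB K τ Unit ξ R mR P
    (fun j => ((MM ξ P j).toAddSubgroup ⊓
      (J * MM ξ P j).toAddSubgroup.comap (AddMonoidHom.mulLeft (z i))).comap ev)
    (fun j => (J * MM ξ P j).toAddSubgroup.comap ev) hC (fun j v hv _ => hv.1)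
    (fun j r hr v hv => ⟨P_MM (hC.le hr) hv.1, by
      change z i * (r * v ()) ∈ J * MM ξ P j
      rw [mul_left_comm]
      exact mul_lift (fun _ => P_MM (hC.le hr)) hv.2⟩)
    (fun j r hr v hv => mul_lift (fun _ => P_MM (hC.le hr)) hv)
    (fun j t v hv => ⟨xi_MM t hv.1, by
      change z i * (ξ t * v ()) ∈ J * MM ξ P (j + 1)
      rw [mul_left_comm]
      exact mul_lift (fun _ => xi_MM t) hv.2⟩)
    (fun j t v hv => mul_lift (fun _ => xi_MM t) hv) (by
      rintro a ⟨s, hs⟩ j v ⟨v1, v2⟩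
      rcases hP s a hs with ⟨n, hn⟩ | ⟨O, M, hp, hf, hr⟩
      · exact ⟨n, 0, hn, by rw [zero_smul]; exact zero_mem _⟩
      · have h1 := reg_z hG hp (hC.ne s) hf hr W hi (MM_div hp v1) (by
          rw [mul_left_comm]; exact B_div hp _ v2)
        obtain ⟨n, g, hg, h2⟩ := BO_clear hC hp _ _ h1
        refine ⟨n, g, hg, ?_⟩
        have h3 := mul_lift (fun u hu => pow_MM (Submodule.pow_mem_pow _ (xi_mem ξ s) j) hu) h2
        rw [mul_left_comm, mul_inv_cancel_left₀ (pow_ne_zero _ (hC.ne s))] at h3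
        exact h3)
  have h' := hS τ K K univ ξ _ _ (z i) (B_le hC hG W Z) (fun j t _ v hv => xi_MM t hv) (stab_B _)
    (fun j v hv => P_MM hm hv) (fun j v hv => mul_lift (fun u hu => P_MM hm hu) hv) h.1
    ⟨ee, fun j hj v hv h2 => he j hj (x := fun _ => v) ⟨hv, h2⟩⟩
  simp only [sp_Sc] at h'
  rw [e]
  exact inv_step hE (Submodule.span_mono Set.subset_union_left) h h'

end gens

end DCutAux

open DCutAux in
theorem cut : S_StepZ → S_StepPhi → S_Ext → S_KReg → S_Bdd → S_Cut := by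
  intro hZ hΦ hE hK hB K τ _ _ _ _ ξ R mR P N φ z hC hG hP h0
  have h1 : ∀ W, Ivt ξ P (Submodule.span ℂ (gs φ z W ∅)) := fun W => by
    induction W using Finset.induction_on with
    | empty =>
      have e : gs φ z ∅ ∅ = ∅ := by simp [gs]
      rw [e, Submodule.span_empty]
      simp only [Ivt, Submodule.bot_mul, Submodule.bot_toAddSubgroup]
      exact ⟨h0, fun p j F hF _ => ⟨0, val_zero _ _ _, by simpa using hF.in⟩⟩
    | insert w W hw ih => exact step_phi hC hG hP hΦ hE hK hB hw ih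
  have h2 : ∀ Z, Ivt ξ P (Submodule.span ℂ (gs φ z univ Z)) := fun Z => by
    induction Z using Finset.induction_on with
    | empty => exact h1 _
    | insert i Z hi ih => exact step_z hC hG hP hZ hE hB hi ih
  have e : ∀ j, Submodule.span ℂ (gs φ z univ univ) * MM ξ P j = mR * MM ξ P j := fun j => by
    refine le_antisymm (mul_le_mul_left (Submodule.span_le.2 fun x hx => gs_mem hG hx) _)
      (Submodule.mul_le.2 fun c hc v hv => ?_)
    refine mul_le_mul_left (Submodule.span_mono ?_) _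
      (id_sp (fun r hr v hv => P_MM (hC.le hr) hv) (hG.gen hc) hv)
    rintro _ (⟨⟨w, t⟩, rfl⟩ | ⟨i, rfl⟩)
    · exact Or.inl ⟨w, mem_univ _, t, rfl⟩
    · exact Or.inr ⟨i, mem_univ _, rfl⟩
  have h3 := h2 univ
  simp only [Ivt, e] at h3
  exact h3

end

end Pool.Agent.P.MP_c2aaf5_co
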