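import Pool.Agent.P.MP_c2aaf5_co.DefG

/-! Package D6: exactness at the coordinate points and the lifts. -/

set_option linter.unusedSectionVars false

namespace Pool.Agent.P.MP_c2aaf5_co

open MvPolynomial Finset

noncomputable section

namespace DFormsAux

variable {K : Type} [Field K] [Algebra ℂ K] {τ : Type} [Fintype τ] [LinearOrder τ]

/-- scalars that commute with `am` -/
def Ln (am : K →ₗ[ℂ] K) : Subalgebra ℂ K where
  carrier := {c | ∀ v, am (c * v) = c * am v}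
  mul_mem' := by
    intro a b ha hb v
    rw [mul_assoc, ha, hb, mul_assoc]
  add_mem' := by
    intro a b ha hb v
    rw [add_mul, map_add, ha, hb, add_mul]
  algebraMap_mem' := by
    intro r v
    rw [← Algebra.smul_def, ← Algebra.smul_def, map_smul]

theorem mem_Ln {am : K →ₗ[ℂ] K} {c : K} : c ∈ Ln am ↔ ∀ v, am (c * v) = c * am v := Iff.rfl

theorem Ln_cancel {am : K →ₗ[ℂ] K} {g r : K} (hg : g ∈ Ln am) (h0 : g ≠ 0) (h : g * r ∈ Ln am) :
    r ∈ Ln am := by
  intro v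
  apply mul_left_cancel₀ h0
  rw [← hg, ← mul_assoc, h, mul_assoc]

theorem xi_mem (ξ : τ → K) (t : τ) : ξ t ∈ Vx ξ := Submodule.subset_span ⟨t, rfl⟩

theorem sub_mul_le (P : Subalgebra ℂ K) :
    Subalgebra.toSubmodule P * Subalgebra.toSubmodule P ≤ Subalgebra.toSubmodule P :=
  Submodule.mul_le.2 fun _ ha _ hb => P.mul_mem ha hb

theorem pow_le_sub {V : Submodule ℂ K} {L : Subalgebra ℂ K} (h : V ≤ Subalgebra.toSubmodule L)
    (n : ℕ) : V ^ n ≤ Subalgebra.toSubmodule L := by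
  induction n with
  | zero => rw [pow_zero, Submodule.one_le]; exact L.one_mem
  | succ n ih => rw [pow_succ]; exact Submodule.mul_le.2 fun _ ha _ hb => L.mul_mem (ih ha) (h hb)

theorem MM_zero (ξ : τ → K) (P : Subalgebra ℂ K) : MM ξ P 0 = Subalgebra.toSubmodule P := by
  simp [MM]

theorem pow_MM {ξ : τ → K} {P : Subalgebra ℂ K} {N j : ℕ} {c v : K} (hc : c ∈ Vx ξ ^ N)
    (hv : v ∈ MM ξ P j) : c * v ∈ MM ξ P (N + j) := by
  unfold MM at *
  rw [pow_add, mul_assoc]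
  exact Submodule.mul_mem_mul hc hv

theorem pow_B {ξ : τ → K} {P : Subalgebra ℂ K} {mR : Submodule ℂ K} {N j : ℕ} {c v : K}
    (hc : c ∈ Vx ξ ^ N) (hv : v ∈ mR * MM ξ P j) : c * v ∈ mR * MM ξ P (N + j) := by
  unfold MM at *
  rw [pow_add, mul_assoc, mul_left_comm]
  exact Submodule.mul_mem_mul hc hv

theorem xi_MM {ξ : τ → K} {P : Subalgebra ℂ K} {j : ℕ} {v : K} (t : τ) (hv : v ∈ MM ξ P j) :
    ξ t * v ∈ MM ξ P (j + 1) := by
  rw [add_comm]; exact pow_MM (by rw [pow_one]; exact xi_mem ξ t) hv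

theorem xi_B {ξ : τ → K} {P : Subalgebra ℂ K} {mR : Submodule ℂ K} {j : ℕ} {v : K} (t : τ)
    (hv : v ∈ mR * MM ξ P j) : ξ t * v ∈ mR * MM ξ P (j + 1) := by
  rw [add_comm]; exact pow_B (by rw [pow_one]; exact xi_mem ξ t) hv

theorem P_MM {ξ : τ → K} {P : Subalgebra ℂ K} {j : ℕ} {c v : K} (hc : c ∈ P) (hv : v ∈ MM ξ P j) :
    c * v ∈ MM ξ P j := by
  have h : Subalgebra.toSubmodule P * MM ξ P j ≤ MM ξ P j := by
    unfold MM
    rw [mul_left_comm]
    exact mul_le_mul_right (sub_mul_le P) _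
  exact h (Submodule.mul_mem_mul hc hv)

theorem P_B {ξ : τ → K} {P : Subalgebra ℂ K} {mR : Submodule ℂ K} {j : ℕ} {c v : K} (hc : c ∈ P)
    (hv : v ∈ mR * MM ξ P j) : c * v ∈ mR * MM ξ P j := by
  refine Submodule.mul_induction_on hv (fun m hm w hw => ?_) fun a b ha hb => ?_
  · rw [mul_left_comm]; exact Submodule.mul_mem_mul hm (P_MM hc hw)
  · rw [mul_add]; exact add_mem ha hb

theorem aeval_mem (ξ : τ → K) {N : ℕ} {G : MvPolynomial τ ℂ} (hG : G.IsHomogeneous N) :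
    aeval ξ G ∈ Vx ξ ^ N := by
  have h1 : Vx ξ = Submodule.map (aeval ξ : MvPolynomial τ ℂ →ₐ[ℂ] K).toLinearMap
      (homogeneousSubmodule τ ℂ 1) := by
    simp [homogeneousSubmodule_one_eq_span_X, Submodule.map_span, ← Set.range_comp,
      Function.comp_def, Vx]
  rw [h1, ← Submodule.map_pow, homogeneousSubmodule_one_pow]
  exact ⟨G, hG, rfl⟩

/-- the span of the `ξ t`, `t ≠ s` -/
def Vo (ξ : τ → K) (s : τ) : Submodule ℂ K := Submodule.span ℂ (ξ '' {t | t ≠ s})

theorem aeval_sub (ξ : τ → K) (s : τ) (N : ℕ) : ∀ G : MvPolynomial τ ℂ, G.IsHomogeneous N →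
    ξ s * (aeval ξ G - eval (Pi.single s 1) G • ξ s ^ N) ∈ Vo ξ s * Vx ξ ^ N := by
  induction N with
  | zero =>
    intro G hG
    rw [← totalDegree_zero_iff_isHomogeneous, totalDegree_eq_zero_iff_eq_C] at hG
    rw [hG]
    simp [Algebra.smul_def]
  | succ N ih =>
    intro G hG
    have hG' : G ∈ homogeneousSubmodule τ ℂ N * homogeneousSubmodule τ ℂ 1 := by
      rw [← homogeneousSubmodule_one_pow ℂ N, ← pow_succ, homogeneousSubmodule_one_pow]; exact hG
    clear hG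
    refine Submodule.mul_induction_on hG' (fun G1 h1 x hx => ?_) fun a b ha hb => ?_
    · rw [homogeneousSubmodule_one_eq_span_X] at hx
      induction hx using Submodule.span_induction with
      | mem x hx =>
        obtain ⟨t, rfl⟩ := hx
        by_cases ht : t = s
        · subst ht
          have e : ξ t * (aeval ξ (G1 * X t) - eval (Pi.single t 1) (G1 * X t) • ξ t ^ (N + 1)) =
              (ξ t * (aeval ξ G1 - eval (Pi.single t 1) G1 • ξ t ^ N)) * ξ t := by
            simp [Algebra.smul_def]; ring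
          rw [e, pow_succ, ← mul_assoc]
          exact Submodule.mul_mem_mul (ih G1 h1) (xi_mem ξ t)
        · have e : ξ s * (aeval ξ (G1 * X t) - eval (Pi.single s 1) (G1 * X t) • ξ s ^ (N + 1)) =
              ξ t * (aeval ξ G1 * ξ s) := by
            simp [Pi.single_eq_of_ne ht]; ring
          rw [e, pow_succ]
          exact Submodule.mul_mem_mul (Submodule.subset_span ⟨t, ht, rfl⟩)
            (Submodule.mul_mem_mul (aeval_mem ξ h1) (xi_mem ξ s))
      | zero => simp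
      | add a b _ _ ha hb =>
        have := add_mem ha hb
        convert this using 1
        simp only [mul_add, map_add, add_smul]; ring
      | smul c a _ ha =>
        have := Submodule.smul_mem _ c ha
        convert this using 1
        rw [mul_smul_comm, map_smul, smul_eval, mul_smul, ← smul_sub, mul_smul_comm]
    · have := add_mem ha hb
      convert this using 1
      simp only [map_add, add_smul]; ring

section un
variable {ξ : τ → K} {R : Subalgebra ℂ K} {mR : Submodule ℂ K} {a : τ → ℂ}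

theorem un_one : Un mR ξ a 0 1 := ⟨1, isHomogeneous_one _ _, by simp, by simp⟩

theorem un_mem (hR : LocD R mR) {N : ℕ} {g : K} (h : Un mR ξ a N g) :
    g ∈ Vx ξ ^ N * Subalgebra.toSubmodule R := by
  obtain ⟨G, hG, -, hg⟩ := h
  have h1 : aeval ξ G ∈ Vx ξ ^ N * Subalgebra.toSubmodule R := by
    simpa using Submodule.mul_mem_mul (aeval_mem ξ hG) (show (1 : K) ∈ Subalgebra.toSubmodule R from R.one_mem)
  have h2 : mR * Vx ξ ^ N ≤ Vx ξ ^ N * Subalgebra.toSubmodule R := by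
    rw [mul_comm]; exact mul_le_mul_right (fun g hg => hR.le g hg) _
  simpa using add_mem (h2 hg) h1

theorem R_m (hR : LocD R mR) : Subalgebra.toSubmodule R * mR ≤ mR :=
  Submodule.mul_le.2 fun a ha g hg => hR.mul a ha g hg

theorem un_mul (hR : LocD R mR) {N N' : ℕ} {g g' : K} (h : Un mR ξ a N g) (h' : Un mR ξ a N' g') :
    Un mR ξ a (N + N') (g * g') := by
  have hm := un_mem hR h
  obtain ⟨G, hG, hG0, hg⟩ := h
  obtain ⟨G', hG', hG0', hg'⟩ := h'
  refine ⟨G * G', hG.mul hG', by rw [map_mul]; exact mul_ne_zero hG0 hG0', ?_⟩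
  have e : g * g' - aeval ξ (G * G') = g * (g' - aeval ξ G') + (g - aeval ξ G) * aeval ξ G' := by
    rw [map_mul]; ring
  rw [e]
  refine add_mem ?_ ?_
  · have h1 := Submodule.mul_mem_mul hm hg'
    have h2 : Vx ξ ^ N * Subalgebra.toSubmodule R * (mR * Vx ξ ^ N') ≤ mR * Vx ξ ^ (N + N') := by
      calc _ = (Subalgebra.toSubmodule R * mR) * Vx ξ ^ (N + N') := by ring
        _ ≤ _ := mul_le_mul_left (R_m hR) _
    exact h2 h1
  · rw [pow_add, ← mul_assoc]
    exact Submodule.mul_mem_mul hg (aeval_mem ξ hG')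

variable {P : Subalgebra ℂ K}

theorem un_MM (hP : R ≤ P) {N j : ℕ} {c v : K}
    (hc : c ∈ Vx ξ ^ N * Subalgebra.toSubmodule R) (hv : v ∈ MM ξ P j) : c * v ∈ MM ξ P (N + j) := by
  refine Submodule.mul_induction_on hc (fun m hm w hw => ?_) fun a b ha hb => ?_
  · rw [mul_assoc]; exact pow_MM hm (P_MM (hP hw) hv)
  · rw [add_mul]; exact add_mem ha hb

theorem un_B (hP : R ≤ P) {N j : ℕ} {c v : K}
    (hc : c ∈ Vx ξ ^ N * Subalgebra.toSubmodule R) (hv : v ∈ mR * MM ξ P j) :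
    c * v ∈ mR * MM ξ P (N + j) := by
  refine Submodule.mul_induction_on hc (fun m hm w hw => ?_) fun a b ha hb => ?_
  · rw [mul_assoc]; exact pow_B hm (P_B (hP hw) hv)
  · rw [add_mul]; exact add_mem ha hb

/-- elements that land in the family `A` after multiplication by a unit form -/
def Dn (hR : LocD R mR) (a : τ → ℂ) (A : ℕ → Submodule ℂ K)
    (hA : ∀ N j c v, c ∈ Vx ξ ^ N * Subalgebra.toSubmodule R → v ∈ A j → c * v ∈ A (N + j)) :
    Submodule ℂ K where
  carrier := {v | ∃ N g, Un mR ξ a N g ∧ g * v ∈ A N}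
  zero_mem' := ⟨0, 1, un_one, by simp⟩
  add_mem' := by
    rintro v w ⟨N, g, hg, hv⟩ ⟨N', g', hg', hw⟩
    refine ⟨N + N', g * g', un_mul hR hg hg', ?_⟩
    have h1 := hA _ _ _ _ (un_mem hR hg') hv
    have h2 := hA _ _ _ _ (un_mem hR hg) hw
    rw [add_comm] at h1
    convert add_mem h1 h2 using 1
    ring
  smul_mem' := by
    rintro c v ⟨N, g, hg, hv⟩
    exact ⟨N, g, hg, by rw [mul_smul_comm]; exact Submodule.smul_mem _ c hv⟩

theorem common (hR : LocD R mR) {ι : Type} (S : Finset ι) (A : ι → ℕ → Submodule ℂ K) (v : ι → K)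
    (hA : ∀ i N j c v, c ∈ Vx ξ ^ N * Subalgebra.toSubmodule R → v ∈ A i j → c * v ∈ A i (N + j))
    (hv : ∀ i, ∃ N g, Un mR ξ a N g ∧ g * v i ∈ A i N) :
    ∃ N g, Un mR ξ a N g ∧ ∀ i ∈ S, g * v i ∈ A i N := by
  classical
  induction S using Finset.induction_on with
  | empty => exact ⟨0, 1, un_one, by simp⟩
  | insert i S _ ih =>
    obtain ⟨N, g, hg, h⟩ := ih
    obtain ⟨N', g', hg', h'⟩ := hv i
    refine ⟨N + N', g * g', un_mul hR hg hg', fun k hk => ?_⟩
    rcases mem_insert.1 hk with rfl | hk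
    · rw [mul_assoc]; exact hA _ _ _ _ _ (un_mem hR hg) h'
    · rw [add_comm, mul_comm g, mul_assoc]; exact hA _ _ _ _ _ (un_mem hR hg') (h k hk)

end un

section forms
variable {ξ : τ → K} {R : Subalgebra ℂ K} {mR : Submodule ℂ K} {P : Subalgebra ℂ K}
  {W : Type} [CommRing W] [Algebra ℂ W] {ev : W →ₐ[ℂ] K} {am : K →ₗ[ℂ] K} {β : τ → W →ₗ[ℂ] ℂ}

theorem bil_apply (l : W →ₗ[ℂ] ℂ) (f g : W) : bil l f g = l (f * g) := rfl

theorem mem_Kall {w : W} : w ∈ Kall (fun t => bil (β t)) ↔ ∀ t h, β t (w * h) = 0 := by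
  simp only [Kall, Submodule.mem_iInf, LinearMap.mem_ker, LinearMap.ext_iff, bil_apply,
    LinearMap.zero_apply]

theorem an_ev (s : τ) (φ : Finset τ → W) : an s (fun I => ev (φ I)) = fun I => ev (an s φ I) := by
  funext I
  simp only [an_apply]
  split_ifs <;> simp

theorem V_Ln (hF : Forms ξ R mR P ev am β) : Vx ξ ≤ Subalgebra.toSubmodule (Ln am) :=
  Submodule.span_le.2 (by rintro _ ⟨t, rfl⟩; exact hF.linξ t)

theorem VR_Ln (hF : Forms ξ R mR P ev am β) (N : ℕ) :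
    Vx ξ ^ N * Subalgebra.toSubmodule R ≤ Subalgebra.toSubmodule (Ln am) :=
  Submodule.mul_le.2 fun _ ha _ hb => (Ln am).mul_mem (pow_le_sub (V_Ln hF) N ha) (hF.linR _ hb)

theorem am_B (hR : LocD R mR) (hF : Forms ξ R mR P ev am β) {j : ℕ} {v : K}
    (hv : v ∈ mR * MM ξ P j) : am v ∈ mR * Vx ξ ^ (j + 1) := by
  unfold MM at hv
  rw [← mul_assoc] at hv
  refine Submodule.mul_induction_on hv (fun m hm w hw => ?_) fun a b ha hb => ?_
  · have h1 : mR * Vx ξ ^ j ≤ Vx ξ ^ j * Subalgebra.toSubmodule R := by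
      rw [mul_comm]; exact mul_le_mul_right (fun g hg => hR.le g hg) _
    rw [VR_Ln hF j (h1 hm)]
    have h2 : mR * Vx ξ ^ j * (Vx ξ * Subalgebra.toSubmodule R) ≤ mR * Vx ξ ^ (j + 1) := by
      calc _ = (Subalgebra.toSubmodule R * mR) * Vx ξ ^ (j + 1) := by ring
        _ ≤ _ := mul_le_mul_left (R_m hR) _
    exact h2 (Submodule.mul_mem_mul hm (hF.amP w hw))
  · rw [map_add]; exact add_mem ha hb

theorem kall_of (hR : LocD R mR) (hF : Forms ξ R mR P ev am β) (hS : Sat ξ mR P ev am) {w : W}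
    (hw : ev w ∈ mR * Subalgebra.toSubmodule P) : w ∈ Kall (fun t => bil (β t)) := by
  rw [mem_Kall]
  intro t h
  have h1 : ev (w * h) ∈ mR * MM ξ P 0 := by
    rw [map_mul, mul_comm (ev w)]
    exact P_B (hF.mem h) (by rwa [MM_zero])
  have h2 := am_B hR hF h1
  rw [zero_add, pow_one] at h2
  have h3 := sub_mem h2 (hF.val (w * h))
  rw [sub_sub_cancel] at h3
  exact congrFun (hS.2.1 _ h3) t

theorem dd_ev_apply (φ : Finset τ → W) (I : Finset τ) :
    dd univ ξ (fun I => ev (φ I)) I = ∑ s, ξ s * ev (an s φ I) := by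
  rw [dd_def, Finset.sum_apply]
  simp only [an_ev, Pi.smul_apply, smul_eq_mul]

theorem am_quad (hF : Forms ξ R mR P ev am β) (g : τ → W) (h : W) :
    am ((∑ s, ξ s * ev (g s)) * ev h) - ∑ s, ∑ t, β t (g s * h) • (ξ s * ξ t) ∈
      mR * Vx ξ ^ 2 := by
  rw [sum_mul, map_sum, ← sum_sub_distrib]
  refine Submodule.sum_mem _ fun s _ => ?_
  have e : am (ξ s * ev (g s) * ev h) - ∑ t, β t (g s * h) • (ξ s * ξ t) =
      (am (ev (g s * h)) - ∑ t, β t (g s * h) • ξ t) * ξ s := by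
    rw [mul_assoc, hF.linξ, ← map_mul, sub_mul, sum_mul, mul_comm]
    congr 1
    exact sum_congr rfl fun t _ => by rw [smul_mul_assoc, mul_comm (ξ t)]
  rw [e, pow_two, ← mul_assoc]
  exact Submodule.mul_mem_mul (hF.val _) (xi_mem ξ s)

theorem cyc_of (hR : LocD R mR) (hF : Forms ξ R mR P ev am β) (hS : Sat ξ mR P ev am)
    {φ : Finset τ → W} (h : ∀ I, dd univ ξ (fun I => ev (φ I)) I ∈ mR * MM ξ P 1) :
    Cyc (fun t => bil (β t)) φ := by
  intro s t I
  ext w
  have h1 := P_B (hF.mem w) (h I)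
  rw [dd_ev_apply, mul_comm (ev w)] at h1
  have h2 := sub_mem (am_B hR hF h1) (am_quad hF (fun s => an s φ I) w)
  rw [sub_sub_cancel] at h2
  exact hS.2.2 _ h2 s t

theorem of_cyc (hF : Forms ξ R mR P ev am β) (hS : Sat ξ mR P ev am)
    {φ : Finset τ → W} (h : Cyc (fun t => bil (β t)) φ) (I : Finset τ) :
    dd univ ξ (fun I => ev (φ I)) I ∈ mR * MM ξ P 1 := by
  rw [dd_ev_apply]
  refine hS.1 0 _ (Submodule.sum_mem _ fun s _ => xi_MM s (by rw [MM_zero]; exact hF.mem _))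
    fun w => ?_
  have h1 := am_quad hF (fun s => an s φ I) w
  have h2 : ∑ s, ∑ t, β t (an s φ I * w) • (ξ s * ξ t) = 0 := by
    have h3 : (2 : ℂ) • ∑ s, ∑ t, β t (an s φ I * w) • (ξ s * ξ t) = 0 := by
      rw [two_smul]
      conv_lhs => arg 2; rw [sum_comm]
      rw [← sum_add_distrib]
      refine sum_eq_zero fun s _ => ?_
      rw [← sum_add_distrib]
      refine sum_eq_zero fun t _ => ?_
      have := LinearMap.congr_fun (h s t I) w
      simp only [LinearMap.add_apply, bil_apply, LinearMap.zero_apply] at this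
      rw [mul_comm (ξ t), ← add_smul, this, zero_smul]
    exact (smul_eq_zero.1 h3).resolve_left two_ne_zero
  rwa [h2, sub_zero] at h1

theorem val_ev (hF : Forms ξ R mR P ev am β) {U : Finset τ} {p : ℕ} {φ : Finset τ → W}
    (h : Val U p ⊤ φ) : Val U p (Subalgebra.toSubmodule P).toAddSubgroup fun I => ev (φ I) :=
  fun I => ⟨hF.mem _, fun hI => by simp only [(h I).2 hI, map_zero]⟩

theorem lifts (hC : Core ξ R mR P) (hF : Forms ξ R mR P ev am β) (hS : Sat ξ mR P ev am)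
    (h2 : Reg0 univ ξ (fun j => (mR * MM ξ P j).toAddSubgroup) fun _ => ⊥) :
    Lifts ξ mR P ev β := by
  intro p φ hφ hc
  have hv := val_ev hF hφ
  rcases p with _ | q
  · refine ⟨_, hv, ?_, fun I => by simp⟩
    rw [dd_def]
    exact sum_eq_zero fun s _ => by rw [hv.an_zero, smul_zero]
  · have hd : Val univ q (mR * MM ξ P 1).toAddSubgroup (dd univ ξ fun I => ev (φ I)) :=
      (hv.dd (A' := ⊤) fun _ _ _ _ => trivial).of_in (of_cyc hF hS hc)
    obtain ⟨χ, hχ, he⟩ := h2 q 0 _ hd (by rw [dd_dd]; exact fun _ => rfl)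
    have hle : mR * MM ξ P 0 ≤ Subalgebra.toSubmodule P := by
      rw [MM_zero]
      exact Submodule.mul_le.2 fun a ha b hb => P.mul_mem (hC.le (hC.loc.le a ha)) hb
    refine ⟨_ - χ, hv.sub (hχ.mono hle), ?_, fun I => ?_⟩
    · rw [map_sub]; funext I; exact he I
    · have : -χ I ∈ mR * MM ξ P 0 := neg_mem (hχ I).1
      rw [MM_zero] at this
      rwa [Pi.sub_apply, sub_sub_cancel_left]

end forms

section point
variable {ξ : τ → K} {R : Subalgebra ℂ K} {mR : Submodule ℂ K} {P : Subalgebra ℂ K}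
  {W : Type} [CommRing W] [Algebra ℂ W] {ev : W →ₐ[ℂ] K} {am : K →ₗ[ℂ] K} {β : τ → W →ₗ[ℂ] ℂ}
  {s : τ} {O : Subalgebra ℂ K} {M : Submodule ℂ K} {N : ℕ} {φ : Option τ → τ → K} {z : Fin N → K}

theorem id_mul {S : Set K} {r c : K} (hr : r ∈ O) (hc : c ∈ Id O S) : r * c ∈ Id O S := by
  have h : Subalgebra.toSubmodule O * Id O S ≤ Id O S := by
    unfold Id
    rw [← mul_assoc]
    exact mul_le_mul_left (sub_mul_le O) _
  exact h (Submodule.mul_mem_mul hr hc)

theorem mem_id {S : Set K} {c : K} (hc : c ∈ S) : c ∈ Id O S := by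
  simpa [Id] using Submodule.mul_mem_mul (show (1 : K) ∈ Subalgebra.toSubmodule O from O.one_mem)
    (Submodule.subset_span (R := ℂ) hc)

theorem id_induction {S : Set K} {T : Submodule ℂ K} (h : ∀ r ∈ O, ∀ x ∈ S, r * x ∈ T) :
    Id O S ≤ T := by
  refine Submodule.mul_le.2 fun r hr x hx => ?_
  induction hx using Submodule.span_induction with
  | mem x hx => exact h r hr x hx
  | zero => simp
  | add a b _ _ ha hb => rw [mul_add]; exact add_mem ha hb
  | smul c a _ ha => rw [mul_smul_comm]; exact T.smul_mem c ha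

theorem O_Ln (hR : LocD R mR) (hF : Forms ξ R mR P ev am β) {a : τ → ℂ}
    (hp : Pt R mR ξ s a O M) (hne : ¬∃ N, Un mR ξ a N 0) {r : K} (hr : r ∈ O) : r ∈ Ln am := by
  obtain ⟨n, g, hg, h⟩ := hp.den r hr
  exact Ln_cancel (VR_Ln hF n (un_mem hR hg)) (by rintro rfl; exact hne ⟨n, hg⟩) (VR_Ln hF n h)

theorem eta_O {a : τ → ℂ} (hp : Pt R mR ξ s a O M) (t : τ) : ξ t / ξ s ∈ O := by
  simpa using add_mem (hp.loc.le _ (hp.eta t)) (O.algebraMap_mem (a t))

theorem V_div {a : τ → ℂ} (hp : Pt R mR ξ s a O M) {v : K} (hv : v ∈ Vx ξ) : v / ξ s ∈ O := by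
  induction hv using Submodule.span_induction with
  | mem x hx => obtain ⟨t, rfl⟩ := hx; exact eta_O hp t
  | zero => simp
  | add a b _ _ ha hb => rw [add_div]; exact add_mem ha hb
  | smul c a _ ha => rw [smul_div_assoc]; exact O.smul_mem ha c

/-- the module and the submodule at the point -/
def AO (O P : Subalgebra ℂ K) : Submodule ℂ K := Subalgebra.toSubmodule O * Subalgebra.toSubmodule P

def BO (O : Subalgebra ℂ K) (mR : Submodule ℂ K) (P : Subalgebra ℂ K) : Submodule ℂ K := mR * AO O P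

theorem O_AO {r v : K} (hr : r ∈ O) (hv : v ∈ AO O P) : r * v ∈ AO O P := by
  have h : Subalgebra.toSubmodule O * AO O P ≤ AO O P := by
    unfold AO
    rw [← mul_assoc]
    exact mul_le_mul_left (sub_mul_le O) _
  exact h (Submodule.mul_mem_mul hr hv)

theorem O_BO {r v : K} (hr : r ∈ O) (hv : v ∈ BO O mR P) : r * v ∈ BO O mR P := by
  refine Submodule.mul_induction_on hv (fun m hm w hw => ?_) fun a b ha hb => ?_
  · rw [mul_left_comm]; exact Submodule.mul_mem_mul hm (O_AO hr hw)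
  · rw [mul_add]; exact add_mem ha hb

theorem P_AO {v : K} (hv : v ∈ P) : v ∈ AO O P := by
  simpa [AO] using Submodule.mul_mem_mul (show (1 : K) ∈ Subalgebra.toSubmodule O from O.one_mem)
    (show v ∈ Subalgebra.toSubmodule P from hv)

theorem B_div {a : τ → ℂ} (hp : Pt R mR ξ s a O M) {v : K} (hv : v ∈ mR * MM ξ P 1) :
    v / ξ s ∈ BO O mR P := by
  refine Submodule.mul_induction_on hv (fun m hm w hw => ?_) fun a b ha hb => ?_
  · rw [mul_div_assoc]
    refine Submodule.mul_mem_mul hm ?_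
    unfold MM at hw
    rw [pow_one] at hw
    refine Submodule.mul_induction_on hw (fun c hc u hu => ?_) fun a b ha hb => ?_
    · rw [mul_div_right_comm]; exact Submodule.mul_mem_mul (V_div hp hc) hu
    · rw [add_div]; exact add_mem ha hb
  · rw [add_div]; exact add_mem ha hb

/-- indices of the parameters: all but the `η t` with `t ∉ U` -/
def Ix (N : ℕ) (s : τ) (U : Finset τ) : Set ((Option τ × {t // t ≠ s}) ⊕ Fin N ⊕ {t // t ≠ s}) :=
  {i | ∀ t, i = Sum.inr (Sum.inr t) → t.1 ∈ U}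

def Jd (O : Subalgebra ℂ K) (φ : Option τ → τ → K) (z : Fin N → K) (ξ : τ → K) (s : τ)
    (U : Finset τ) : Submodule ℂ K := Id O (fam φ z ξ s (Pi.single s 1) '' Ix N s U)

theorem fam_eta (t : {t // t ≠ s}) :
    fam φ z ξ s (Pi.single s 1) (Sum.inr (Sum.inr t)) = ξ t / ξ s := by
  simp [fam, Pi.single_eq_of_ne t.2]

theorem eta_J {U : Finset τ} {t : τ} (ht : t ∈ U) (hts : t ≠ s) : ξ t / ξ s ∈ Jd O φ z ξ s U :=
  mem_id ⟨Sum.inr (Sum.inr ⟨t, hts⟩), fun t' h => by cases h; exact ht, fam_eta _⟩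

theorem m_J (hG : GenD ξ R mR φ z) {a : τ → ℂ} (hp : Pt R mR ξ s a O M) (h0 : ξ s ≠ 0)
    (U : Finset τ) : mR ≤ Jd O φ z ξ s U := by
  have h1 : ∀ w t, t ≠ s → φ w t ∈ Jd O φ z ξ s U := fun w t ht =>
    mem_id ⟨Sum.inl (w, ⟨t, ht⟩), fun t' h => (by cases h), rfl⟩
  refine hG.gen.trans (id_induction fun r hr x hx => id_mul (hp.le hr) ?_)
  rcases hx with ⟨⟨w, t⟩, rfl⟩ | ⟨i, rfl⟩
  · by_cases ht : t = s
    · subst ht
      have h2 := hG.rel w
      rw [← add_sum_erase _ _ (mem_univ t)] at h2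
      have e : φ w t = -∑ u ∈ univ.erase t, ξ u / ξ t * φ w u := by
        apply mul_right_cancel₀ h0
        rw [neg_mul, sum_mul, eq_neg_iff_add_eq_zero, ← h2]
        congr 1
        exact sum_congr rfl fun u _ => by field_simp
      change φ w t ∈ _
      rw [e]
      exact neg_mem (Submodule.sum_mem _ fun u hu => id_mul (eta_O hp u) (h1 w u (ne_of_mem_erase hu)))
    · exact h1 w t ht
  · exact mem_id ⟨Sum.inr (Sum.inl i), fun t' h => (by cases h), rfl⟩

theorem mem_Sm {U : Finset τ} {η : τ → K} {A : AddSubgroup K} {t : τ} (ht : t ∈ U) {v : K}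
    (hv : v ∈ A) : η t * v ∈ Sm U η A :=
  (le_iSup₂ (f := fun t (_ : t ∈ U) => Sc (η t) A) t ht) ⟨v, hv, rfl⟩

theorem sup_le_of {U : Finset τ} {η : τ → K} {A B T : AddSubgroup K} (hB : B ≤ T)
    (h : ∀ t ∈ U, ∀ v ∈ A, η t * v ∈ T) : B ⊔ Sm U η A ≤ T :=
  sup_le hB (iSup₂_le fun t ht => by rintro _ ⟨v, hv, rfl⟩; exact h t ht v hv)

theorem J_mul (hG : GenD ξ R mR φ z) (U : Finset τ) {c : K} (hc : c ∈ Jd O φ z ξ s U) :
    ∀ v ∈ AO O P, c * v ∈ (BO O mR P).toAddSubgroup ⊔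
      Sm U (fun t => ξ t / ξ s) (AO O P).toAddSubgroup := by
  refine Submodule.mul_induction_on hc (fun r hr x hx => ?_) fun a b ha hb v hv => ?_
  · induction hx using Submodule.span_induction generalizing r with
    | mem x hx =>
      intro v hv
      rw [mul_comm r, mul_assoc]
      obtain ⟨⟨w, t⟩ | i | t, hi, rfl⟩ := hx
      · exact AddSubgroup.mem_sup_left (Submodule.mul_mem_mul (hG.mφ w t) (O_AO hr hv))
      · exact AddSubgroup.mem_sup_left (Submodule.mul_mem_mul (hG.mz i) (O_AO hr hv))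
      · rw [fam_eta]
        exact AddSubgroup.mem_sup_right (mem_Sm (η := fun t => ξ t / ξ s) (hi t rfl) (O_AO hr hv))
    | zero => simp
    | add a b _ _ ha hb =>
      intro v hv
      rw [mul_add, add_mul]; exact add_mem (ha r hr v hv) (hb r hr v hv)
    | smul c a _ ha =>
      rw [mul_smul_comm, ← smul_mul_assoc]
      exact ha _ (Submodule.smul_mem _ c hr)
  · rw [add_mul]; exact add_mem (ha v hv) (hb v hv)

/-- coordinates at the point -/
structure Crd (O P : Subalgebra ℂ K) {n : ℕ} (f : Fin n → K) (κ : Fin n → K →+ K) : Prop where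
  mem : ∀ b, f b ∈ P
  dec : ∀ v, v = ∑ b, κ b v * f b
  lin : ∀ b, ∀ r ∈ O, ∀ v, κ b (r * v) = r * κ b v
  val : ∀ b, ∀ v ∈ P, κ b v ∈ O

theorem Crd.ao {n : ℕ} {f : Fin n → K} {κ : Fin n → K →+ K} (h : Crd O P f κ) (b : Fin n) {v : K}
    (hv : v ∈ AO O P) : κ b v ∈ O := by
  refine Submodule.mul_induction_on hv (fun m hm w hw => ?_) fun a b ha hb => ?_
  · rw [h.lin b m hm]; exact O.mul_mem hm (h.val b w hw)
  · rw [map_add]; exact add_mem ha hb

theorem Crd.of_J {n : ℕ} {f : Fin n → K} {κ : Fin n → K →+ K} (h : Crd O P f κ)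
    (hG : GenD ξ R mR φ z) (U : Finset τ) {v : K} (hv : ∀ b, κ b v ∈ Jd O φ z ξ s U) :
    v ∈ (BO O mR P).toAddSubgroup ⊔ Sm U (fun t => ξ t / ξ s) (AO O P).toAddSubgroup := by
  rw [h.dec v]
  exact sum_mem fun b _ => J_mul hG U (hv b) _ (P_AO (h.mem b))

theorem Crd.to_J {n : ℕ} {f : Fin n → K} {κ : Fin n → K →+ K} (h : Crd O P f κ)
    (hG : GenD ξ R mR φ z) {a : τ → ℂ} (hp : Pt R mR ξ s a O M) (h0 : ξ s ≠ 0) {U : Finset τ}
    (hU : s ∉ U) {v : K}
    (hv : v ∈ (BO O mR P).toAddSubgroup ⊔ Sm U (fun t => ξ t / ξ s) (AO O P).toAddSubgroup)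
    (b : Fin n) : κ b v ∈ Jd O φ z ξ s U := by
  refine sup_le_of (T := (Jd O φ z ξ s U).toAddSubgroup.comap (κ b)) (fun v hv => ?_)
    (fun t ht v hv => ?_) hv
  · change κ b v ∈ Jd O φ z ξ s U
    refine Submodule.mul_induction_on hv (fun m hm w hw => ?_) fun a b ha hb => ?_
    · rw [h.lin b m (hp.loc.le m (hp.mle hm)), mul_comm]
      exact id_mul (h.ao b hw) (m_J hG hp h0 U hm)
    · rw [map_add]; exact add_mem ha hb
  · change κ b (ξ t / ξ s * v) ∈ Jd O φ z ξ s U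
    rw [h.lin b _ (eta_O hp t), mul_comm]
    exact id_mul (h.ao b hv) (eta_J ht (by rintro rfl; exact hU ht))

theorem kf_point (hK : S_KReg) {n : ℕ} {f : Fin n → K} {κ : Fin n → K →+ K} (h : Crd O P f κ)
    (hG : GenD ξ R mR φ z) (hp : Pt R mR ξ s (Pi.single s 1) O M) (h0 : ξ s ≠ 0)
    (hr : RegFam O (fam φ z ξ s (Pi.single s 1))) :
    KF (univ.erase s) (fun t => ξ t / ξ s) (AO O P).toAddSubgroup (BO O mR P).toAddSubgroup := by
  refine hK τ K K (univ.erase s) (fun t => ξ t / ξ s) _ _ ?_ (fun t _ v hv => O_AO (eta_O hp t) hv)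
    (fun t _ v hv => O_BO (eta_O hp t) hv) fun U hU t ht htU g hg hm => ?_
  · exact Submodule.mul_le.2 fun m hm v hv => O_AO (hp.loc.le m (hp.mle hm)) hv
  · have hs : s ∉ U := fun hs => by simpa using hU hs
    refine h.of_J hG U fun b => ?_
    have h1 := h.to_J hG hp h0 hs hm b
    rw [smul_eq_mul, h.lin b _ (eta_O hp t)] at h1
    refine hr (Ix N s U) (Sum.inr (Sum.inr ⟨t, ne_of_mem_erase ht⟩)) (fun hi => htU (hi _ rfl)) _
      (h.ao b hg) ?_
    rw [fam_eta]; exact h1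

theorem crd_ex (hR : LocD R mR) (hF : Forms ξ R mR P ev am β) {a : τ → ℂ} (hp : Pt R mR ξ s a O M)
    (hne : ¬∃ N, Un mR ξ a N 0) (hq : PerfAt O ev.range am (ξ s)) :
    ∃ (n : ℕ) (f : Fin n → K) (κ : Fin n → K →+ K), Crd O P f κ ∧ ∀ (J : Submodule ℂ K) (v : K),
      (∀ r ∈ O, ∀ c ∈ J, r * c ∈ J) → (∀ h, am (v * ev h) / ξ s ∈ J) → ∀ b, κ b v ∈ J := by
  obtain ⟨n, f, g, Γ, hf, hg, hΓ, hd, -⟩ := hq
  have hE : ∀ v ∈ ev.range, v ∈ P := by rintro _ ⟨w, rfl⟩; exact hF.mem w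
  refine ⟨n, f, fun b => AddMonoidHom.mk' (fun v => ∑ b', Γ b b' * (am (v * g b') / ξ s))
    (fun v w => by simp only [add_mul, map_add, add_div, mul_add, sum_add_distrib]),
    ⟨fun b => hE _ (hf b), hd, fun b r hr v => ?_, fun b v hv => ?_⟩, fun J v hJ h b => ?_⟩
  · simp only [AddMonoidHom.mk'_apply, mul_sum]
    refine sum_congr rfl fun b' _ => ?_
    rw [mul_assoc, O_Ln hR hF hp hne hr]; ring
  · simp only [AddMonoidHom.mk'_apply]
    refine O.sum_mem fun b' _ => O.mul_mem (hΓ b b') ?_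
    refine Submodule.mul_induction_on (hF.amP _ (P.mul_mem hv (hE _ (hg b'))))
      (fun c hc u hu => ?_) fun a b ha hb => ?_
    · rw [mul_div_right_comm]; exact O.mul_mem (V_div hp hc) (hp.le hu)
    · rw [add_div]; exact add_mem ha hb
  · simp only [AddMonoidHom.mk'_apply]
    refine J.sum_mem fun b' _ => hJ _ (hΓ b b') _ ?_
    obtain ⟨w, hw⟩ := hg b'
    rw [← hw]; exact h w

theorem zero_J (hF : Forms ξ R mR P ev am β) (hG : GenD ξ R mR φ z) {a : τ → ℂ}
    (hp : Pt R mR ξ s a O M) (h0 : ξ s ≠ 0) {w : W} (hw : β s w = 0) :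
    am (ev w) / ξ s ∈ Jd O φ z ξ s (univ.erase s) := by
  have e : am (ev w) / ξ s = (am (ev w) - ∑ t, β t w • ξ t) / ξ s +
      ∑ t ∈ univ.erase s, β t w • (ξ t / ξ s) := by
    rw [← add_sum_erase _ _ (mem_univ s), hw, zero_smul, zero_add, sub_div, sum_div]
    simp only [smul_div_assoc, sub_add_cancel]
  rw [e]
  refine add_mem ?_ (Submodule.sum_mem _ fun t ht =>
    Submodule.smul_mem _ _ (eta_J ht (ne_of_mem_erase ht)))
  refine Submodule.mul_induction_on (hF.val w) (fun c hc u hu => ?_) fun a b ha hb => ?_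
  · rw [mul_div_assoc, mul_comm]; exact id_mul (V_div hp hu) (m_J hG hp h0 _ hc)
  · rw [add_div]; exact add_mem ha hb

theorem val_neg {U : Finset τ} {p : ℕ} {A : AddSubgroup K} {F : Finset τ → K} (h : Val U p A F) :
    Val U p A (-F) := by simpa using (val_zero U p A).sub h

theorem an_empty {X : Type} [AddCommGroup X] (t : τ) (F : Finset τ → X) : an t F ∅ = F {t} := by
  simp [an_apply, sg]

theorem hv_zero {U : Finset τ} {η : τ → K} {A B : AddSubgroup K} {F : Finset τ → K}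
    (hF : Val U 0 A F) (h : F ∅ ∈ B ⊔ Sm U η A) : ∃ χ, Val U 1 A χ ∧ In B (F - dd U η χ) := by
  let T : AddSubgroup K :=
    { carrier := {v | ∃ χ, Val U 1 A χ ∧ v - dd U η χ ∅ ∈ B}
      zero_mem' := ⟨0, val_zero _ _ _, by simp⟩
      add_mem' := by
        rintro v w ⟨χ, h1, h2⟩ ⟨χ', h1', h2'⟩
        refine ⟨χ + χ', h1.add h1', ?_⟩
        convert add_mem h2 h2' using 1
        rw [map_add, Pi.add_apply]; ring
      neg_mem' := by
        rintro v ⟨χ, h1, h2⟩
        refine ⟨-χ, val_neg h1, ?_⟩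
        convert neg_mem h2 using 1
        rw [map_neg, Pi.neg_apply]; ring }
  obtain ⟨χ, h1, h2⟩ : F ∅ ∈ T := by
    refine sup_le_of (T := T) (fun v hv => ⟨0, val_zero _ _ _, by simpa using hv⟩)
      (fun t ht v hv => ⟨Pi.single {t} v, fun I => ?_, ?_⟩) h
    · by_cases hI : I = {t}
      · subst hI; simpa [ht] using hv
      · simp [Pi.single_eq_of_ne hI]
    · rw [dd_def, Finset.sum_apply, sum_eq_single_of_mem t ht]
      · simp [an_empty]
      · intro u _ hu
        simp [an_empty, hu]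
  refine ⟨χ, h1, fun I => ?_⟩
  by_cases hI : I = ∅
  · subst hI; exact h2
  · have hn : ¬(I ⊆ U ∧ I.card = 0) := fun hh => hI (card_eq_zero.1 hh.2)
    have h3 := ((h1.mono (A' := ⊤) le_top).dd (ξ := η) (A' := ⊤) fun _ _ _ _ => trivial) I
    rw [Pi.sub_apply, (hF I).2 hn, h3.2 hn, sub_zero]
    exact B.zero_mem

theorem val_erase {p : ℕ} {A : AddSubgroup K} {F : Finset τ → K} (h : Val univ p A F)
    (ha : an s F = 0) : Val (univ.erase s) p A F := by
  refine fun I => ⟨(h I).1, fun hI => ?_⟩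
  by_cases hs : s ∈ I
  · have := an_cr_self s F
    rw [ha, map_zero, add_zero] at this
    rw [← this, an_apply, if_pos hs]
  · exact (h I).2 fun hh => hI ⟨fun t ht => mem_erase.2 ⟨fun e => hs (e ▸ ht), mem_univ t⟩, hh.2⟩

theorem val_of_erase {p : ℕ} {A : AddSubgroup K} {F : Finset τ → K}
    (h : Val (univ.erase s) p A F) : Val univ p A F ∧ an s F = 0 := by
  refine ⟨fun I => ⟨(h I).1, fun hI => (h I).2 fun hh => hI ⟨subset_univ _, hh.2⟩⟩, ?_⟩
  funext I
  rw [an_apply]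
  split_ifs with hs
  · rfl
  · rw [(h _).2 fun hh => by simpa using hh.1 (mem_insert_self s I), smul_zero]; rfl

theorem dd_erase (h0 : ξ s ≠ 0) {F : Finset τ → K} (ha : an s F = 0) :
    dd univ ξ F = ξ s • dd (univ.erase s) (fun t => ξ t / ξ s) F := by
  rw [dd_def, dd_def, ← add_sum_erase _ _ (mem_univ s), ha, smul_zero, zero_add, smul_sum]
  refine sum_congr rfl fun t _ => ?_
  rw [smul_smul, mul_div_cancel₀ _ h0]

/-- `c • F` is a boundary of a cochain of degree `n` supported off `s` -/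
def St (ξ : τ → K) (mR : Submodule ℂ K) (P : Subalgebra ℂ K) (s : τ) (p : ℕ) (F : Finset τ → K)
    (n : ℕ) : Submodule ℂ K where
  carrier := {c | ∃ χ, Val univ (p + 1) (MM ξ P n).toAddSubgroup χ ∧ an s χ = 0 ∧
    In (mR * MM ξ P (n + 1)).toAddSubgroup (c • F - dd univ ξ χ)}
  zero_mem' := ⟨0, val_zero _ _ _, map_zero _, fun I => by simp⟩
  add_mem' := by
    rintro v w ⟨χ, h1, h2, h3⟩ ⟨χ', h1', h2', h3'⟩
    refine ⟨χ + χ', h1.add h1', by rw [map_add, h2, h2', add_zero], fun I => ?_⟩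
    convert add_mem (h3 I) (h3' I) using 1
    simp only [map_add, Pi.add_apply, Pi.sub_apply, Pi.smul_apply, smul_eq_mul]; ring
  smul_mem' := by
    rintro c v ⟨χ, h1, h2, h3⟩
    refine ⟨algebraMap ℂ K c • χ, fun I => ⟨?_, fun hI => by simp [(h1 I).2 hI]⟩,
      by rw [an_smul, h2, smul_zero], fun I => ?_⟩
    · rw [Pi.smul_apply, algebraMap_smul]; exact Submodule.smul_mem _ c (h1 I).1
    · have e : ((c • v) • F - dd univ ξ (algebraMap ℂ K c • χ)) I = c • (v • F - dd univ ξ χ) I := by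
        rw [dd_smul]
        simp only [Pi.sub_apply, Pi.smul_apply, smul_eq_mul]
        simp only [Algebra.smul_def]; ring
      rw [e]
      exact Submodule.smul_mem (mR * MM ξ P (n + 1)) c (h3 I)

theorem st_clear (hC : Core ξ R mR P) {a : τ → ℂ} (hp : Pt R mR ξ s a O M) {p : ℕ}
    {F χ : Finset τ → K} (h1 : Val (univ.erase s) (p + 1) (AO O P).toAddSubgroup χ)
    (h2 : In (BO O mR P).toAddSubgroup (F - dd (univ.erase s) (fun t => ξ t / ξ s) χ)) :
    ∃ n g, Un mR ξ a n g ∧ ξ s * g ∈ St ξ mR P s p F n := by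
  have hA : ∀ v ∈ AO O P, ∃ n g, Un mR ξ a n g ∧ g * v ∈ MM ξ P n := by
    have : AO O P ≤ Dn hC.loc a (MM ξ P) fun _ _ _ _ => un_MM hC.le := by
      refine Submodule.mul_le.2 fun r hr v hv => ?_
      obtain ⟨n, g, hg, h⟩ := hp.den r hr
      exact ⟨n, g, hg, by rw [← mul_assoc]; exact un_MM (j := 0) hC.le h (by rwa [MM_zero])⟩
    exact this
  have hB : ∀ v ∈ BO O mR P, ∃ n g, Un mR ξ a n g ∧ g * v ∈ mR * MM ξ P n := by
    have : BO O mR P ≤ Dn hC.loc a (fun n => mR * MM ξ P n) fun _ _ _ _ => un_B hC.le := by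
      refine Submodule.mul_le.2 fun r hr v hv => ?_
      obtain ⟨n, g, hg, h⟩ := hA v hv
      exact ⟨n, g, hg, by rw [mul_left_comm]; exact Submodule.mul_mem_mul hr h⟩
    exact this
  obtain ⟨n, g, hg, h⟩ := common (a := a) hC.loc (univ : Finset (Finset τ ⊕ Finset τ))
    (Sum.elim (fun _ => MM ξ P) fun _ n => mR * MM ξ P n)
    (Sum.elim χ (F - dd (univ.erase s) (fun t => ξ t / ξ s) χ))
    (by rintro (I | I) _ _ _ _; exacts [un_MM hC.le, un_B hC.le])
    (by rintro (I | I); exacts [hA _ (h1 I).1, hB _ (h2 I)])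
  obtain ⟨h3, h4⟩ := val_of_erase h1
  refine ⟨n, g, hg, g • χ, fun I => ⟨h (Sum.inl I) (mem_univ _), fun hI => by simp [(h3 I).2 hI]⟩,
    by rw [an_smul, h4, smul_zero], fun I => ?_⟩
  have e : ((ξ s * g) • F - dd univ ξ (g • χ)) I =
      ξ s * (g * (F - dd (univ.erase s) (fun t => ξ t / ξ s) χ) I) := by
    rw [dd_smul, dd_erase (hC.ne s) h4]
    simp only [Pi.sub_apply, Pi.smul_apply, smul_eq_mul]
    generalize dd (univ.erase s) (fun t => ξ t / ξ s) χ I = u
    ring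
  rw [e]
  exact xi_B s (h (Sum.inr I) (mem_univ _))

theorem st_pow {p : ℕ} {F : Finset τ → K} (hF : Val univ p (Subalgebra.toSubmodule P).toAddSubgroup F)
    (ha : an s F = 0) (hd : In (mR * MM ξ P 1).toAddSubgroup (dd univ ξ F)) {n : ℕ} {g : K}
    (hg : Un mR ξ (Pi.single s 1) n g) (h : ξ s * g ∈ St ξ mR P s p F n) :
    ξ s ^ (n + 1) ∈ St ξ mR P s p F n := by
  obtain ⟨G, hG, hu, hm⟩ := hg
  have hv : ∀ c ∈ Vx ξ ^ n, Val univ p (MM ξ P n).toAddSubgroup (c • F) := fun c hc I =>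
    ⟨pow_MM (j := 0) hc (by rw [MM_zero]; exact (hF I).1), fun hI => by simp [(hF I).2 hI]⟩
  have h1 : ξ s * (g - aeval ξ G) ∈ St ξ mR P s p F n := by
    refine ⟨0, val_zero _ _ _, map_zero _, fun I => ?_⟩
    have : (g - aeval ξ G) * F I ∈ mR * MM ξ P n := by
      unfold MM; rw [← mul_assoc]; exact Submodule.mul_mem_mul hm (hF I).1
    simpa [mul_assoc] using xi_B s this
  have h2 : Vo ξ s * Vx ξ ^ n ≤ St ξ mR P s p F n := by
    refine Submodule.mul_le.2 fun x hx c hc => ?_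
    induction hx using Submodule.span_induction with
    | mem x hx =>
      obtain ⟨t, ht, rfl⟩ := hx
      refine ⟨cr t (c • F), (hv c hc).cr (mem_univ t), ?_, ?_⟩
      · rw [an_cr (Ne.symm ht), an_smul, ha]; simp
      · have e := cr_dd univ ξ t (c • F)
        rw [if_pos (mem_univ t), smul_smul] at e
        rw [← e, add_sub_cancel_right, dd_smul]
        exact In.cr (fun I => pow_B hc (hd I)) t
    | zero => simp
    | add a b _ _ ha hb => rw [add_mul]; exact add_mem ha hb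
    | smul r a _ ha => rw [smul_mul_assoc]; exact Submodule.smul_mem _ r ha
  have h3 := sub_mem (sub_mem h h1) (h2 (aeval_sub ξ s n G hG))
  convert Submodule.smul_mem _ (eval (Pi.single s 1) G)⁻¹ h3 using 1
  have e : ξ s * g - ξ s * (g - aeval ξ G) - ξ s * (aeval ξ G - eval (Pi.single s 1) G • ξ s ^ n) =
      eval (Pi.single s 1) G • ξ s ^ (n + 1) := by
    simp only [Algebra.smul_def]; ring
  rw [e, smul_smul, inv_mul_cancel₀ hu, one_smul]

theorem in_neg {A : AddSubgroup K} {F : Finset τ → K} (h : In A F) : In A (-F) :=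
  fun I => A.neg_mem (h I)

theorem in_add {A : AddSubgroup K} {F G : Finset τ → K} (h : In A F) (h' : In A G) : In A (F + G) :=
  fun I => A.add_mem (h I) (h' I)

/-- the cochain `cr s (ξ_s ^ n F) - χ` is a cycle -/
theorem st_cyc {p : ℕ} {F : Finset τ → K}
    (hF : Val univ p (Subalgebra.toSubmodule P).toAddSubgroup F) (ha : an s F = 0)
    (hd : In (mR * MM ξ P 1).toAddSubgroup (dd univ ξ F)) {n : ℕ}
    (h : ξ s ^ (n + 1) ∈ St ξ mR P s p F n) :
    ∃ Θ, Val univ (p + 1) (MM ξ P n).toAddSubgroup Θ ∧ an s Θ = ξ s ^ n • F ∧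
      In (mR * MM ξ P (n + 1)).toAddSubgroup (dd univ ξ Θ) := by
  obtain ⟨χ, h1, h2, h3⟩ := h
  have hc : ξ s ^ n ∈ Vx ξ ^ n := Submodule.pow_mem_pow _ (xi_mem ξ s) n
  have hv : Val univ p (MM ξ P n).toAddSubgroup (ξ s ^ n • F) := fun I =>
    ⟨pow_MM (j := 0) hc (by rw [MM_zero]; exact (hF I).1), fun hI => by simp [(hF I).2 hI]⟩
  refine ⟨cr s (ξ s ^ n • F) - χ, (hv.cr (mem_univ s)).sub h1, ?_, ?_⟩
  · have := an_cr_self s (ξ s ^ n • F)
    rw [an_smul, ha, smul_zero, map_zero, add_zero] at this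
    rw [map_sub, h2, sub_zero, this]
  · have e := cr_dd univ ξ s (ξ s ^ n • F)
    rw [if_pos (mem_univ s), smul_smul, ← pow_succ'] at e
    have e2 : dd univ ξ (cr s (ξ s ^ n • F) - χ) =
        (ξ s ^ (n + 1) • F - dd univ ξ χ) + -cr s (ξ s ^ n • dd univ ξ F) := by
      rw [map_sub, ← e, dd_smul]; abel
    rw [e2]
    exact in_add h3 (in_neg (In.cr (fun I => pow_B hc (hd I)) s))

theorem st_desc {p : ℕ} {F : Finset τ → K}
    (hF : Val univ p (Subalgebra.toSubmodule P).toAddSubgroup F) (ha : an s F = 0)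
    (hd : In (mR * MM ξ P 1).toAddSubgroup (dd univ ξ F))
    (h1 : Reg0 univ ξ (fun j => (MM ξ P j).toAddSubgroup) fun j => (mR * MM ξ P j).toAddSubgroup)
    (n : ℕ) (h : ξ s ^ (n + 1) ∈ St ξ mR P s p F n) : ξ s ^ (0 + 1) ∈ St ξ mR P s p F 0 := by
  induction n with
  | zero => exact h
  | succ n ih =>
    apply ih
    obtain ⟨Θ, t1, t2, t3⟩ := st_cyc hF ha hd h
    obtain ⟨Ω, o1, o2⟩ := h1 (p + 1) n Θ t1 t3
    refine ⟨-an s Ω, val_neg (o1.an s), by rw [map_neg, an_an_self, neg_zero], ?_⟩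
    have := o2.an s
    rwa [map_sub, t2, an_dd, ← map_neg] at this

end point

section main
variable {ξ : τ → K} {R : Subalgebra ℂ K} {mR : Submodule ℂ K} {P : Subalgebra ℂ K}
  {W : Type} [CommRing W] [Algebra ℂ W] {ev : W →ₐ[ℂ] K} {am : K →ₗ[ℂ] K} {β : τ → W →ₗ[ℂ] ℂ}
  {N : ℕ} {φ : Option τ → τ → K} {z : Fin N → K}

theorem main (hK : S_KReg) (hC : Core ξ R mR P) (hG : GenD ξ R mR φ z)
    (hF : Forms ξ R mR P ev am β) (hP : Pts ξ R mR φ z ev.range am) (hS : Sat ξ mR P ev am)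
    (h1 : Reg0 univ ξ (fun j => (MM ξ P j).toAddSubgroup) fun j => (mR * MM ξ P j).toAddSubgroup)
    (s : τ) (p : ℕ) (ω : Finset τ → W) (hv : Val univ p ⊤ ω) (ha : an s ω = 0)
    (hc : Cyc (fun t => bil (β t)) ω) (h0 : p = 0 → bil (β s) (ω ∅) = 0) :
    ∃ ψ, Val univ (p + 1) ⊤ ψ ∧ Cyc (fun t => bil (β t)) ψ ∧
      ∀ I, an s ψ I - ω I ∈ Kall fun t => bil (β t) := by
  obtain ⟨O, M, hp, hq, hr⟩ := (hP.1 s (Pi.single s 1) (by simp)).resolve_left (hP.2 s)
  obtain ⟨n, f, κ, hκ, hJ⟩ := crd_ex hC.loc hF hp (hP.2 s) hq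
  have hv' := val_ev hF hv
  have ha' : an s (fun I => ev (ω I)) = 0 := by rw [an_ev, ha]; funext I; simp
  have hd : In (mR * MM ξ P 1).toAddSubgroup (dd univ ξ fun I => ev (ω I)) := of_cyc hF hS hc
  have hA : Val (univ.erase s) p (AO O P).toAddSubgroup fun I => ev (ω I) :=
    (val_erase hv' ha').mono fun v hv => P_AO hv
  obtain ⟨χ, c1, c2⟩ : ∃ χ, Val (univ.erase s) (p + 1) (AO O P).toAddSubgroup χ ∧
      In (BO O mR P).toAddSubgroup
        ((fun I => ev (ω I)) - dd (univ.erase s) (fun t => ξ t / ξ s) χ) := by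
    rcases p with _ | q
    · refine hv_zero hA (hκ.of_J hG _ (hJ _ _ (fun r hr c hc => id_mul hr hc) fun h => ?_))
      rw [← map_mul]
      exact zero_J hF hG hp (hC.ne s) (LinearMap.congr_fun (h0 rfl) h)
    · refine kf_point hK hκ hG hp (hC.ne s) hr q _ hA fun I => ?_
      have := B_div hp (hd I)
      rwa [dd_erase (hC.ne s) ha', Pi.smul_apply, smul_eq_mul, mul_div_cancel_left₀ _ (hC.ne s)]
        at this
  obtain ⟨m, g, hg, hs⟩ := st_clear hC hp c1 c2
  obtain ⟨Θ, t1, t2, t3⟩ := st_cyc hv' ha' hd (st_desc hv' ha' hd h1 m (st_pow hv' ha' hd hg hs))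
  rw [pow_zero, one_smul] at t2
  have hl : ∀ I, ∃ w, Θ I - ev w ∈ mR * MM ξ P 0 ∧ (Θ I = 0 → w = 0) := fun I => by
    by_cases hI : Θ I = 0
    · exact ⟨0, by simp [hI], fun _ => rfl⟩
    · have : Θ I ∈ MM ξ P 0 := (t1 I).1
      rw [MM_zero] at this ⊢
      obtain ⟨w, hw⟩ := hF.surj _ this
      exact ⟨w, hw, fun h => absurd h hI⟩
  choose ψ l1 l2 using hl
  have l3 : In (mR * MM ξ P 0).toAddSubgroup (Θ - fun I => ev (ψ I)) := l1
  refine ⟨ψ, fun I => ⟨trivial, fun hI => l2 I ((t1 I).2 hI)⟩, cyc_of hC.loc hF hS fun I => ?_,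
    fun I => kall_of hC.loc hF hS ?_⟩
  · have := l3.dd (U := univ) (ξ := ξ) (A' := (mR * MM ξ P 1).toAddSubgroup)
      (fun t _ v hv => xi_B t hv) I
    rw [map_sub, Pi.sub_apply] at this
    simpa using sub_mem (t3 I) this
  · have : -an s (Θ - fun I => ev (ψ I)) I ∈ mR * MM ξ P 0 := neg_mem (l3.an s I)
    rw [map_sub, t2, an_ev, MM_zero, Pi.sub_apply, neg_sub] at this
    rwa [map_sub]

end main

end DFormsAux

open DFormsAux in
theorem forms : S_KReg → S_Forms := by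
  intro hK K τ W _ _ _ _ _ _ ξ R mR P N φ z ev am β hC hG hF hP hS h1 h2
  refine ⟨⟨fun s w hw => ?_, fun s p ω hv hc ha => ?_⟩, lifts hC hF hS h2⟩
  · have hv : Val univ 0 ⊤ (Pi.single (∅ : Finset τ) w : Finset τ → W) := fun I =>
      ⟨trivial, fun hI => Pi.single_eq_of_ne (by rintro rfl; simp at hI) _⟩
    obtain ⟨ψ, p1, p2, p3⟩ := main hK hC hG hF hP hS h1 s 0 _ hv (hv.an_zero s)
      (fun a b I => by simp [hv.an_zero]) (fun _ => by simpa using hw)
    exact ⟨ψ, p1, p2, by simpa [an_empty] using p3 ∅⟩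
  · have hk : In (Kall fun t => bil (β t)).toAddSubgroup (cr s (an s ω)) :=
      In.cr (A := (Kall fun t => bil (β t)).toAddSubgroup) ha s
    have e : an s (cr s ω) = ω - cr s (an s ω) := eq_sub_of_add_eq (an_cr_self s ω)
    obtain ⟨ψ, p1, p2, p3⟩ := main hK hC hG hF hP hS h1 s (p + 1) (an s (cr s ω))
      ((hv.cr (mem_univ s)).an s) (an_an_self _ _) (fun a b I => by
        have k : ∀ a b, bil (β b) (an a (cr s (an s ω)) I) = 0 := fun a b =>
          (Submodule.mem_iInf _).1 (hk.an a I) b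
        have := hc a b I
        simp only [e, map_sub, Pi.sub_apply, k, sub_zero]
        exact this) (fun h => by omega)
    refine ⟨ψ, p1, p2, fun I => ?_⟩
    have := sub_mem (p3 I) (hk I)
    rw [e, Pi.sub_apply] at this
    convert this using 1
    abel

end

end Pool.Agent.P.MP_c2aaf5_co
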