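import Pool.Agent.P.MP_c2aaf5_co.DefG

/-! Points of the blow-up: existence, regular parameters and the Gram matrix trick. -/

set_option linter.unusedSectionVars false

namespace Pool.Agent.P.MP_c2aaf5_co

open MvPolynomial Finset

noncomputable section

namespace DPtAux

variable {K : Type} [Field K] [Algebra ℂ K]

theorem mem_Id {O : Subalgebra ℂ K} {S : Set K} {x : K} (hx : x ∈ S) : x ∈ Id O S := by
  have := Submodule.mul_mem_mul (show (1 : K) ∈ Subalgebra.toSubmodule O from O.one_mem)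
    (Submodule.subset_span (R := ℂ) hx)
  rwa [one_mul] at this

theorem mul_mem_Id {O : Subalgebra ℂ K} {S : Set K} {o x : K} (ho : o ∈ O) (hx : x ∈ Id O S) :
    o * x ∈ Id O S := by
  refine Submodule.mul_induction_on hx (fun m hm n hn => ?_) fun x y hx hy => ?_
  · rw [← mul_assoc]
    exact Submodule.mul_mem_mul (O.mul_mem ho hm) hn
  · rw [mul_add]; exact add_mem hx hy

theorem Id_le {O : Subalgebra ℂ K} {S : Set K} {T : Submodule ℂ K} (h1 : ∀ x ∈ S, x ∈ T)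
    (h2 : ∀ o ∈ O, ∀ x ∈ T, o * x ∈ T) : Id O S ≤ T :=
  Submodule.mul_le.2 fun m hm n hn => h2 m hm n (Submodule.span_le.2 h1 hn)

theorem prime {O : Subalgebra ℂ K} {M : Submodule ℂ K} (h : LocD O M) {b c : K} (hb : b ∈ O)
    (hb' : b ∉ M) (hc : c ∉ M) : b * c ∉ M := by
  intro hbc
  have b0 : b ≠ 0 := fun e => hb' (e ▸ M.zero_mem)
  have := h.mul _ (h.inv b hb hb') _ hbc
  rw [← mul_assoc, inv_mul_cancel₀ b0, one_mul] at this
  exact hc this

theorem const_not {O : Subalgebra ℂ K} {M : Submodule ℂ K} (h : LocD O M) {g : K} {c : ℂ}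
    (hc : c ≠ 0) (hg : g - algebraMap ℂ K c ∈ M) : g ∉ M := by
  intro hg'
  have h1 := M.smul_mem c⁻¹ (M.sub_mem hg' hg)
  rw [sub_sub_cancel, Algebra.smul_def, ← map_mul, inv_mul_cancel₀ hc, map_one] at h1
  exact h.one h1

variable {τ : Type} [Fintype τ]

theorem Vx_pow (ξ : τ → K) (N : ℕ) :
    Vx ξ ^ N = (homogeneousSubmodule τ ℂ N).map (aeval ξ : MvPolynomial τ ℂ →ₐ[ℂ] K).toLinearMap := by
  rw [← homogeneousSubmodule_one_pow, Submodule.map_pow]
  congr 1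
  simp [Vx, homogeneousSubmodule_one_eq_span_X, Submodule.map_span, ← Set.range_comp,
    Function.comp_def]

theorem mem_pow {ξ : τ → K} {N : ℕ} {w : K} :
    w ∈ Vx ξ ^ N ↔ ∃ G : MvPolynomial τ ℂ, G.IsHomogeneous N ∧ aeval ξ G = w := by
  rw [Vx_pow]; rfl

theorem scale (ξ : τ → K) (c : K) {N : ℕ} {G : MvPolynomial τ ℂ} (hG : G.IsHomogeneous N) :
    aeval ξ G / c ^ N = aeval (fun t => ξ t / c) G := by
  rw [aeval_def, aeval_def, eval₂_eq', eval₂_eq', Finset.sum_div]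
  refine Finset.sum_congr rfl fun d hd => ?_
  have : ∑ i, d i = N := by
    rw [← Finsupp.degree_eq_sum]
    by_contra hne
    exact (mem_support_iff.1 hd) (hG.coeff_eq_zero hne)
  simp only [div_pow]
  rw [Finset.prod_div_distrib, Finset.prod_pow_eq_pow_sum, this, mul_div_assoc]

theorem taylor {O : Subalgebra ℂ K} {J : Submodule ℂ K} (hJ : ∀ o ∈ O, ∀ x ∈ J, o * x ∈ J)
    {η : τ → K} {a : τ → ℂ} (h1 : ∀ t, η t ∈ O) (h2 : ∀ t, η t - algebraMap ℂ K (a t) ∈ J)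
    (G : MvPolynomial τ ℂ) : aeval η G ∈ O ∧ aeval η G - algebraMap ℂ K (eval a G) ∈ J := by
  induction G using MvPolynomial.induction_on with
  | C c => simp
  | add p q hp hq =>
    refine ⟨by rw [map_add]; exact O.add_mem hp.1 hq.1, ?_⟩
    convert J.add_mem hp.2 hq.2 using 1
    simp only [map_add]; ring
  | mul_X p t hp =>
    refine ⟨by rw [map_mul, aeval_X]; exact O.mul_mem hp.1 (h1 t), ?_⟩
    convert J.add_mem (hJ _ (h1 t) _ hp.2) (hJ _ (O.algebraMap_mem (eval a p)) _ (h2 t)) using 1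
    simp only [map_mul, aeval_X, eval_X]; ring

/-- dividing by a power of `c` -/
theorem div_mem {O : Subalgebra ℂ K} {J m : Submodule ℂ K} (hJ : ∀ o ∈ O, ∀ x ∈ J, o * x ∈ J)
    (hm : m ≤ J) {ξ : τ → K} {c : K} (h1 : ∀ t, ξ t / c ∈ O) {N : ℕ} {b : K}
    (hb : b ∈ m * Vx ξ ^ N) : b / c ^ N ∈ J := by
  refine Submodule.mul_induction_on hb (fun x hx w hw => ?_) fun x y hx hy => ?_
  · obtain ⟨G, hG, rfl⟩ := mem_pow.1 hw
    rw [mul_div_assoc, scale ξ c hG, mul_comm]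
    refine hJ _ ?_ _ (hm hx)
    exact (taylor (J := ⊤) (a := 0) (fun _ _ _ _ => trivial) h1 (fun _ => trivial) G).1
  · rw [add_div]; exact add_mem hx hy

/-- `g` is a form of degree `N` with value `c` at `a` -/
def Vl (mR : Submodule ℂ K) (ξ : τ → K) (a : τ → ℂ) (N : ℕ) (g : K) (c : ℂ) : Prop :=
  ∃ G : MvPolynomial τ ℂ, G.IsHomogeneous N ∧ eval a G = c ∧ g - aeval ξ G ∈ mR * Vx ξ ^ N

variable {R : Subalgebra ℂ K} {mR : Submodule ℂ K} {ξ : τ → K} {a : τ → ℂ}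

theorem mR_le (h : LocD R mR) (N : ℕ) :
    mR * Vx ξ ^ N ≤ Vx ξ ^ N * Subalgebra.toSubmodule R := by
  rw [mul_comm]
  exact mul_le_mul' le_rfl fun g hg => h.le g hg

theorem Vl.mem (h : LocD R mR) {N : ℕ} {g : K} {c : ℂ} (hg : Vl mR ξ a N g c) :
    g ∈ Vx ξ ^ N * Subalgebra.toSubmodule R := by
  obtain ⟨G, hG, -, h2⟩ := hg
  have h3 := Submodule.mul_mem_mul (mem_pow.2 ⟨G, hG, rfl⟩ : aeval ξ G ∈ Vx ξ ^ N)
    (show (1 : K) ∈ Subalgebra.toSubmodule R from R.one_mem)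
  have := add_mem (mR_le h N h2) h3
  rwa [mul_one, sub_add_cancel] at this

theorem Vl.add {N : ℕ} {g g' : K} {c c' : ℂ} (hg : Vl mR ξ a N g c) (hg' : Vl mR ξ a N g' c') :
    Vl mR ξ a N (g + g') (c + c') := by
  obtain ⟨G, hG, rfl, h2⟩ := hg
  obtain ⟨G', hG', rfl, h2'⟩ := hg'
  refine ⟨G + G', hG.add hG', map_add _ _ _, ?_⟩
  convert add_mem h2 h2' using 1
  rw [map_add]; ring

theorem Vl.mul (h : LocD R mR) {N N' : ℕ} {g g' : K} {c c' : ℂ} (hg : Vl mR ξ a N g c)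
    (hg' : Vl mR ξ a N' g' c') : Vl mR ξ a (N + N') (g * g') (c * c') := by
  have m' := hg'.mem h
  obtain ⟨G, hG, rfl, h2⟩ := hg
  obtain ⟨G', hG', rfl, h2'⟩ := hg'
  refine ⟨G * G', hG.mul hG', map_mul _ _ _, ?_⟩
  have e1 : mR * Vx ξ ^ N * (Vx ξ ^ N' * Subalgebra.toSubmodule R) ≤ mR * Vx ξ ^ (N + N') := by
    have : mR * Vx ξ ^ N * (Vx ξ ^ N' * Subalgebra.toSubmodule R) =
        (Subalgebra.toSubmodule R * mR) * Vx ξ ^ (N + N') := by rw [pow_add]; ac_rfl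
    rw [this]
    exact mul_le_mul' (Submodule.mul_le.2 fun r hr m hm => h.mul r hr m hm) le_rfl
  have e2 : Vx ξ ^ N * (mR * Vx ξ ^ N') = mR * Vx ξ ^ (N + N') := by rw [pow_add]; ac_rfl
  have a1 := e1 (Submodule.mul_mem_mul h2 m')
  have a2 := Submodule.mul_mem_mul (mem_pow.2 ⟨G, hG, rfl⟩ : aeval ξ G ∈ Vx ξ ^ N) h2'
  rw [e2] at a2
  convert add_mem a1 a2 using 1
  rw [map_mul]; ring

theorem Vl.zero {r : K} {c : ℂ} (hr : r - algebraMap ℂ K c ∈ mR) : Vl mR ξ a 0 r c :=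
  ⟨C c, isHomogeneous_C _ _, eval_C _, by simpa using hr⟩

theorem Vl.form {N : ℕ} {G : MvPolynomial τ ℂ} (hG : G.IsHomogeneous N) :
    Vl mR ξ a N (aeval ξ G) (eval a G) := ⟨G, hG, rfl, by simp⟩

theorem Vl.one (t : τ) : Vl mR ξ a 1 (ξ t) (a t) := by
  simpa using Vl.form (mR := mR) (ξ := ξ) (a := a) (isHomogeneous_X ℂ t)

theorem Vl.uniq (h : LocD R mR) (H : ¬∃ N, Un mR ξ a N 0) {N : ℕ} {g : K} {c c' : ℂ}
    (hg : Vl mR ξ a N g c) (hg' : Vl mR ξ a N g c') : c = c' := by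
  have h1 : Vl mR ξ a 0 (-1) (-1) := Vl.zero (by simp)
  have h2 := h1.mul h hg'
  rw [zero_add] at h2
  obtain ⟨G, hG, e, h3⟩ := hg.add h2
  by_contra hne
  refine H ⟨N, G, hG, ?_, by simpa using h3⟩
  rw [e]; intro h0; apply hne; linear_combination h0

/-- `v` is a function regular at `a` with value `c` -/
def Rv (mR : Submodule ℂ K) (ξ : τ → K) (a : τ → ℂ) (v : K) (c : ℂ) : Prop :=
  ∃ N g d, d ≠ 0 ∧ Vl mR ξ a N g d ∧ Vl mR ξ a N (g * v) (d * c)

theorem Rv.add (h : LocD R mR) {v v' : K} {c c' : ℂ} (hv : Rv mR ξ a v c) (hv' : Rv mR ξ a v' c') :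
    Rv mR ξ a (v + v') (c + c') := by
  obtain ⟨N, g, d, hd, h1, h2⟩ := hv
  obtain ⟨N', g', d', hd', h1', h2'⟩ := hv'
  refine ⟨N + N', g * g', d * d', mul_ne_zero hd hd', h1.mul h h1', ?_⟩
  convert (h2.mul h h1').add (h1.mul h h2') using 1 <;> ring

theorem Rv.mul (h : LocD R mR) {v v' : K} {c c' : ℂ} (hv : Rv mR ξ a v c) (hv' : Rv mR ξ a v' c') :
    Rv mR ξ a (v * v') (c * c') := by
  obtain ⟨N, g, d, hd, h1, h2⟩ := hv
  obtain ⟨N', g', d', hd', h1', h2'⟩ := hv'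
  refine ⟨N + N', g * g', d * d', mul_ne_zero hd hd', h1.mul h h1', ?_⟩
  convert h2.mul h h2' using 1 <;> ring

theorem Rv.of {r : K} {c : ℂ} (hr : r - algebraMap ℂ K c ∈ mR) : Rv mR ξ a r c :=
  ⟨0, 1, 1, one_ne_zero, Vl.zero (by simp), by simpa using Vl.zero hr⟩

theorem Rv.const (c : ℂ) : Rv mR ξ a (algebraMap ℂ K c) c := Rv.of (by simp)

theorem Rv.uniq (h : LocD R mR) (H : ¬∃ N, Un mR ξ a N 0) {v : K} {c c' : ℂ}
    (hv : Rv mR ξ a v c) (hv' : Rv mR ξ a v c') : c = c' := by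
  obtain ⟨N, g, d, hd, h1, h2⟩ := hv
  obtain ⟨N', g', d', hd', h1', h2'⟩ := hv'
  have e := (h2.mul h h1').uniq h H (c' := d * (d' * c')) (by
    convert h1.mul h h2' using 1; ring)
  have : d * d' * (c - c') = 0 := by linear_combination e
  exact sub_eq_zero.1 ((mul_eq_zero.1 this).resolve_left (mul_ne_zero hd hd'))

theorem Rv.inv (h : LocD R mR) (H : ¬∃ N, Un mR ξ a N 0) {v : K} {c : ℂ}
    (hv : Rv mR ξ a v c) (hc : c ≠ 0) : v ≠ 0 ∧ Rv mR ξ a v⁻¹ c⁻¹ := by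
  have v0 : v ≠ 0 := by
    rintro rfl
    exact hc (hv.uniq h H (by simpa using Rv.const (mR := mR) (ξ := ξ) (a := a) 0))
  obtain ⟨N, g, d, hd, h1, h2⟩ := hv
  refine ⟨v0, N, g * v, d * c, mul_ne_zero hd hc, h2, ?_⟩
  rwa [mul_inv_cancel_right₀ v0, mul_inv_cancel_right₀ hc]

theorem Vl.pow {s : τ} (hs : a s = 1) (N : ℕ) : Vl mR ξ a N (ξ s ^ N) 1 := by
  simpa [hs] using Vl.form (mR := mR) (ξ := ξ) (a := a) (isHomogeneous_X_pow (R := ℂ) s N)

theorem Vl.rv {s : τ} (hs : a s = 1) (h0 : ξ s ≠ 0) {N : ℕ} {g : K} {c : ℂ}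
    (hg : Vl mR ξ a N g c) : Rv mR ξ a (g / ξ s ^ N) c :=
  ⟨N, ξ s ^ N, 1, one_ne_zero, Vl.pow hs N, by
    rwa [mul_div_cancel₀ _ (pow_ne_zero N h0), one_mul]⟩

end DPtAux

open DPtAux

theorem ptEx : S_PtEx := by
  intro K τ _ _ _ ξ R mR s a h h0 hs
  by_cases H : ∃ N, Un mR ξ a N 0
  · exact Or.inl H
  right
  let O : Subalgebra ℂ K :=
    { carrier := {v | ∃ c, Rv mR ξ a v c}
      mul_mem' := fun ⟨_, h1⟩ ⟨_, h2⟩ => ⟨_, h1.mul h h2⟩
      add_mem' := fun ⟨_, h1⟩ ⟨_, h2⟩ => ⟨_, h1.add h h2⟩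
      algebraMap_mem' := fun c => ⟨c, Rv.const c⟩ }
  let M : Submodule ℂ K :=
    { carrier := {v | Rv mR ξ a v 0}
      add_mem' := fun h1 h2 => by simpa using Rv.add h h1 h2
      zero_mem' := by simpa using Rv.const (mR := mR) (ξ := ξ) (a := a) 0
      smul_mem' := fun c v hv => by
        have := (Rv.const c).mul h hv
        rw [mul_zero, ← Algebra.smul_def] at this
        exact this }
  have sub : ∀ {g : K} {c : ℂ}, Rv mR ξ a g c → g - algebraMap ℂ K c ∈ M := by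
    intro g c hg
    have := hg.add h (Rv.const (-c))
    rw [add_neg_cancel, map_neg, ← sub_eq_add_neg] at this
    exact this
  have hη : ∀ t, Rv mR ξ a (ξ t / ξ s) (a t) := fun t => by
    simpa using (Vl.one t).rv hs h0
  refine ⟨O, M, ⟨fun g hg => ⟨0, hg⟩, ?_, ?_, ?_, ?_⟩, hs, ?_, ?_, fun t => sub (hη t), ?_, ?_⟩
  · rintro o ⟨c, ho⟩ g hg
    have := ho.mul h hg
    rw [mul_zero] at this
    exact this
  · rintro g ⟨c, hg⟩
    exact ⟨c, sub hg⟩
  · intro h1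
    exact zero_ne_one (Rv.uniq h H h1 (by simpa using Rv.const (mR := mR) (ξ := ξ) (a := a) 1))
  · rintro g ⟨c, hg⟩ hn
    exact ⟨_, (hg.inv h H (by rintro rfl; exact hn hg)).2⟩
  · intro r hr
    obtain ⟨c, hc⟩ := h.dec r hr
    exact ⟨c, Rv.of hc⟩
  · intro m hm
    exact Rv.of (by simpa using hm)
  · rintro v ⟨c, N, g, d, hd, h1, h2⟩
    refine ⟨N, g, ?_, h2.mem h⟩
    obtain ⟨G, hG, e, h3⟩ := h1
    exact ⟨G, hG, e ▸ hd, h3⟩
  · rintro v ⟨N, g, d, hd, h1, G, hG, e, h2⟩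
    obtain ⟨u0, hu⟩ := (h1.rv hs h0).inv h H hd
    set J := Id O ((mR : Set K) ∪ Set.range fun t => ξ t / ξ s - algebraMap ℂ K (a t))
    have hJ : ∀ o ∈ O, ∀ x ∈ J, o * x ∈ J := fun o ho x hx => mul_mem_Id ho hx
    have hO : ∀ t, ξ t / ξ s ∈ O := fun t => ⟨_, hη t⟩
    have a1 := div_mem hJ (fun m hm => mem_Id (Or.inl hm)) hO h2
    have a2 := (taylor hJ hO (fun t => mem_Id (Or.inr ⟨t, rfl⟩)) G).2
    rw [← scale ξ _ hG, e, mul_zero, map_zero, sub_zero] at a2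
    have a3 := hJ _ ⟨_, hu⟩ _ (add_mem a1 a2)
    have g0 : g ≠ 0 := fun e => u0 (by rw [e, zero_div])
    have p0 := pow_ne_zero N h0
    convert a3 using 1
    field_simp
    ring

theorem ptReg (hD : S_D1) : S_PtReg := by
  classical
  intro K τ ι' _ _ _ _ ξ R0 R mR N φ z w s a O M h h0 hfg hle hden hgen hw hint hcard hp
  set Y : Subalgebra ℂ K := R0 ⊔ Algebra.adjoin ℂ (Set.range fun t => ξ t / ξ s) with hY
  have hO : ∀ t, ξ t / ξ s ∈ O := fun t => by
    simpa using O.add_mem (hp.loc.le _ (hp.eta t)) (O.algebraMap_mem (a t))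
  have hηY : ∀ t, ξ t / ξ s ∈ Y := fun t =>
    (le_sup_right : _ ≤ Y) (Algebra.subset_adjoin ⟨t, rfl⟩)
  have hR0 : R0 ≤ Y := le_sup_left
  have hYO : Y ≤ O := sup_le (hle.trans hp.le) (Algebra.adjoin_le (by rintro _ ⟨t, rfl⟩; exact hO t))
  have nM : ∀ b ∈ R, b ∉ mR → b ∉ M := fun b hb hb' hM => by
    have b0 : b ≠ 0 := fun e => hb' (e ▸ mR.zero_mem)
    have := hp.loc.mul _ (hp.le (h.inv b hb hb')) _ hM
    rw [inv_mul_cancel₀ b0] at this
    exact hp.loc.one this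
  have clr : ∀ (n : ℕ) (x : K), x ∈ Vx ξ ^ n * Subalgebra.toSubmodule R →
      ∃ b ∈ R0, b ∉ mR ∧ b * (x / ξ s ^ n) ∈ Y := by
    intro n x hx
    refine Submodule.mul_induction_on hx (fun v hv r hr => ?_) ?_
    · obtain ⟨b, hb, hb', hbr⟩ := hden r hr
      obtain ⟨G, hG, rfl⟩ := mem_pow.1 hv
      refine ⟨b, hb, hb', ?_⟩
      have := Y.mul_mem (hR0 hbr)
        (taylor (J := ⊤) (a := 0) (fun _ _ _ _ => trivial) hηY (fun _ => trivial) G).1
      rw [← scale ξ _ hG] at this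
      convert this using 1; ring
    · rintro x y ⟨b, hb, hb', h1⟩ ⟨c, hc, hc', h2⟩
      refine ⟨b * c, R0.mul_mem hb hc, prime h (hle hb) hb' hc', ?_⟩
      convert Y.add_mem (Y.mul_mem (hR0 hc) h1) (Y.mul_mem (hR0 hb) h2) using 1; ring
  refine hD K Y O M _ ι' (fam φ z ξ s a) w ?_ hp.loc hYO ?_ ?_ ?_ hw ?_ ?_
  · exact hfg.sup (Subalgebra.fg_def.2 ⟨_, Set.finite_range _, rfl⟩)
  · intro v hv
    obtain ⟨n, g, ⟨G, hG, e, h1⟩, h2⟩ := hp.den v hv
    obtain ⟨b, hb, hb', h3⟩ := clr n g (Vl.mem (a := a) h ⟨G, hG, rfl, h1⟩)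
    obtain ⟨c, hc, hc', h4⟩ := clr n _ h2
    have a1 := div_mem hp.loc.mul hp.mle hO h1
    have a2 := (taylor hp.loc.mul hO hp.eta G).2
    rw [← scale ξ _ hG] at a2
    have a3 : g / ξ s ^ n ∉ M := const_not hp.loc e (by
      convert add_mem a1 a2 using 1; ring)
    refine ⟨c * (b * (g / ξ s ^ n)), Y.mul_mem (hR0 hc) h3, ?_, ?_⟩
    · exact prime hp.loc (hp.le (hle hc)) (nM c (hle hc) hc')
        (prime hp.loc (hp.le (hle hb)) (nM b (hle hb) hb') a3)
    · convert Y.mul_mem (hR0 hb) h4 using 1; ring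
  · rintro (wt | i | t)
    · exact hp.mle (hgen.mφ _ _)
    · exact hp.mle (hgen.mz _)
    · exact hp.eta _
  · have hJ : ∀ o ∈ O, ∀ x ∈ Id O (Set.range (fam φ z ξ s a)),
        o * x ∈ Id O (Set.range (fam φ z ξ s a)) := fun o ho x hx => mul_mem_Id ho hx
    have hφ : ∀ w t, t ≠ s → φ w t ∈ Id O (Set.range (fam φ z ξ s a)) := fun w t ht =>
      mem_Id ⟨Sum.inl (w, ⟨t, ht⟩), rfl⟩
    refine hp.gen.trans (Id_le ?_ hJ)
    rintro x (hx | ⟨t, rfl⟩)
    · refine Id_le ?_ (fun o ho => hJ o (hp.le ho)) (hgen.gen hx)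
      rintro _ (⟨⟨w, t⟩, rfl⟩ | ⟨i, rfl⟩)
      · by_cases ht : t = s
        · subst ht
          have e := hgen.rel w
          rw [← Finset.add_sum_erase _ _ (Finset.mem_univ t)] at e
          have e2 : φ w t = -∑ u ∈ univ.erase t, ξ u / ξ t * φ w u := by
            have : ∑ u ∈ univ.erase t, ξ u / ξ t * φ w u =
                (∑ u ∈ univ.erase t, φ w u * ξ u) / ξ t := by
              rw [Finset.sum_div]
              exact Finset.sum_congr rfl fun u _ => by ring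
            rw [this, ← neg_div, eq_div_iff h0]
            linear_combination e
          change φ w t ∈ _
          rw [e2]
          exact neg_mem (sum_mem fun u hu => hJ _ (hO u) _ (hφ w u (Finset.ne_of_mem_erase hu)))
        · exact hφ w t ht
      · exact mem_Id ⟨Sum.inr (Sum.inl i), rfl⟩
    · by_cases ht : t = s
      · subst ht
        simp [hp.one, div_self h0]
      · exact mem_Id ⟨Sum.inr (Sum.inr ⟨t, ht⟩), rfl⟩
  · exact fun j => (hint j).map_of_comp_eq (Subalgebra.inclusion hR0).toRingHom (RingHom.id K) rfl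
  · have c1 : Fintype.card {t // t ≠ s} + 1 = Fintype.card τ := by
      have : 0 < Fintype.card τ := Fintype.card_pos_iff.2 ⟨s⟩
      rw [Fintype.card_subtype_compl, Fintype.card_subtype_eq]; omega
    simp only [Fintype.card_sum, Fintype.card_prod, Fintype.card_option, Fintype.card_fin]
    rw [← c1] at hcard ⊢
    nlinarith

theorem perf : S_Perf := by
  intro K G _ _ _ _ ρ ε g0 D0 D am O E M f g h hg0 ham hD hρ hf hg ⟨Γ, hΓ, hc⟩
  have mO : ∀ b b', am (f b * g b') / D ∈ O := fun b b' => by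
    simpa using O.add_mem (h.le _ (hc b b')) (O.algebraMap_mem (Γ b b'))
  let I : Ideal O :=
    { carrier := {x | x.1 ∈ M}
      add_mem' := fun h1 h2 => M.add_mem h1 h2
      zero_mem' := M.zero_mem
      smul_mem' := fun c x hx => h.mul _ c.2 _ hx }
  let A : Matrix G G O := Matrix.of fun b b' => ⟨_, mO b b'⟩
  have e1 : (Ideal.Quotient.mk I).mapMatrix A =
      (Ideal.Quotient.mk I).mapMatrix ((algebraMap ℂ O).mapMatrix Γ) := by
    ext b b'
    exact Ideal.Quotient.eq.2 (hc b b')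
  have e2 := congrArg Matrix.det e1
  rw [← RingHom.map_det, ← RingHom.map_det, ← RingHom.map_det] at e2
  have e3 : (A.det : K) ∉ M := const_not h hΓ (Ideal.Quotient.eq.1 e2)
  have e4 : IsUnit A.det := IsUnit.of_mul_eq_one ⟨_, h.inv _ A.det.2 e3⟩
    (Subtype.ext (mul_inv_cancel₀ fun e => e3 (by rw [e]; exact M.zero_mem)))
  let B : Matrix G G K := A⁻¹.map O.val
  let F : Matrix G G K := Matrix.of fun b σ => ρ σ (f b)
  let F' : Matrix G G K := Matrix.of fun σ b => D0 * ε σ • ρ σ (g b) / D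
  have hA : F * F' = A.map O.val := by
    ext b b'
    simp only [F, F', A, Matrix.mul_apply, Matrix.of_apply, Matrix.map_apply, Subalgebra.coe_val,
      ham, map_mul, Finset.mul_sum, Finset.sum_div, Algebra.smul_def]
    exact Finset.sum_congr rfl fun σ _ => by ring
  have h1 : F * (F' * B) = 1 := by
    rw [← Matrix.mul_assoc, hA]
    have := congrArg (O.val.toRingHom.mapMatrix) (Matrix.mul_nonsing_inv A e4)
    rw [map_mul, map_one] at this
    exact this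
  have h2 : F' * B * F = 1 := mul_eq_one_comm.1 h1
  let e := (Fintype.equivFin G).symm
  refine ⟨Fintype.card G, f ∘ e, g ∘ e, fun b b' => B (e b') (e b), fun b => hf _, fun b => hg _,
    fun b b' => (A⁻¹ (e b') (e b)).2, fun v => ?_, fun κ hκ h0 => ?_⟩
  · have s1 : ∀ b, ∑ b', B (e b') b * (am (v * (g ∘ e) b') / D) =
        ∑ b', B b' b * (am (v * g b') / D) := fun b =>
      e.sum_comp fun b' => B b' b * (am (v * g b') / D)
    simp only [s1]
    have s2 := e.sum_comp fun b => (∑ b', B b' b * (am (v * g b') / D)) * f b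
    refine Eq.trans ?_ s2.symm
    have s3 := congrFun (congrArg (Matrix.vecMul fun σ => ρ σ v) h2) g0
    rw [Matrix.vecMul_one, hg0, ← Matrix.vecMul_vecMul, ← Matrix.vecMul_vecMul] at s3
    refine s3.symm.trans ?_
    simp only [Matrix.vecMul, dotProduct, F, F', Matrix.of_apply, hg0]
    refine Finset.sum_congr rfl fun b _ => ?_
    congr 1
    refine Finset.sum_congr rfl fun b' _ => ?_
    rw [mul_comm]
    congr 1
    simp only [ham, map_mul, Finset.mul_sum, Finset.sum_div, Algebra.smul_def]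
    exact Finset.sum_congr rfl fun σ _ => by ring
  · have s1 : Matrix.vecMul (κ ∘ e.symm) F = 0 := by
      funext σ
      have := congrArg (ρ σ) h0
      rw [map_sum, map_zero] at this
      simp only [Matrix.vecMul, dotProduct, F, Matrix.of_apply, Pi.zero_apply]
      rw [← this, ← e.sum_comp]
      refine Finset.sum_congr rfl fun b _ => ?_
      simp [hρ σ _ (hκ b)]
    have s2 := congrArg (Matrix.vecMul (κ ∘ e.symm)) h1
    rw [Matrix.vecMul_one, ← Matrix.vecMul_vecMul, s1, Matrix.zero_vecMul] at s2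
    funext b
    simpa using (congrFun s2 (e b)).symm

end

end Pool.Agent.P.MP_c2aaf5_co
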