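import Pool.Agent.P.MP_c2aaf5_co.DefG

/-! Package D1: a minimal system of generators of a regular local ring is a regular family. -/

namespace Pool.Agent.P.MP_c2aaf5_co

open IsLocalRing

namespace DRegAux

theorem quot_loc {R : Type} [CommRing R] [IsLocalRing R] {J : Ideal R} (hJ : J ≤ maximalIdeal R) :
    IsLocalRing (R ⧸ J) := by
  have : Nontrivial (R ⧸ J) := Ideal.Quotient.nontrivial_iff.2 fun h =>
    (maximalIdeal.isMaximal R).ne_top (top_le_iff.1 (h ▸ hJ))
  exact IsLocalRing.of_surjective' (Ideal.Quotient.mk J) Ideal.Quotient.mk_surjective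

theorem quot_max {R : Type} [CommRing R] [IsLocalRing R] {J : Ideal R} [IsLocalRing (R ⧸ J)]
    [DecidableEq (R ⧸ J)] (S : Finset R) (h : maximalIdeal R = J ⊔ Ideal.span (S : Set R)) :
    maximalIdeal (R ⧸ J) = Ideal.span (S.image (Ideal.Quotient.mk J) : Set (R ⧸ J)) := by
  rw [← map_maximalIdeal_of_surjective (Ideal.Quotient.mk J) Ideal.Quotient.mk_surjective, h,
    Ideal.map_sup, Ideal.map_quotient_self, bot_sup_eq, Ideal.map_span, Finset.coe_image]

theorem dim_le {R : Type} [CommRing R] [IsNoetherianRing R] [IsLocalRing R] (S : Finset R)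
    (h : maximalIdeal R = Ideal.span (S : Set R)) : ringKrullDim R ≤ (S.card : ℕ) := by
  refine (ringKrullDim_le_spanFinrank_maximalIdeal R).trans ?_
  rw [h]
  have := Submodule.spanFinrank_span_le_ncard_of_finite (R := R) S.finite_toSet
  rw [Set.ncard_coe_finset] at this
  exact_mod_cast this

theorem dim_quot {R : Type} [CommRing R] [IsNoetherianRing R] [IsLocalRing R] (T : Finset R)
    (hT : (T : Set R) ⊆ maximalIdeal R) {n c : ℕ} (hc : T.card ≤ c)
    (h : ((n + c : ℕ) : WithBot ℕ∞) ≤ ringKrullDim R) :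
    (n : WithBot ℕ∞) ≤ ringKrullDim (R ⧸ Ideal.span (T : Set R)) := by
  have h1 := ringKrullDim_le_ringKrullDim_quotient_add_card T
    (by rwa [IsLocalRing.ringJacobson_eq_maximalIdeal])
  have h2 : ((T.card : ℕ) : WithBot ℕ∞) ≤ (c : ℕ) := by exact_mod_cast hc
  have h3 := h.trans (h1.trans (add_le_add le_rfl h2))
  rw [Nat.cast_add] at h3
  exact ENat.WithBot.add_le_add_natCast_right_iff.1 h3

theorem dom (n : ℕ) : ∀ (R : Type) [CommRing R] [IsNoetherianRing R] [IsLocalRing R]
    (S : Finset R), S.card ≤ n → maximalIdeal R = Ideal.span (S : Set R) →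
    (n : WithBot ℕ∞) ≤ ringKrullDim R → IsDomain R := by
  classical
  induction n with
  | zero =>
    intro R _ _ _ S hS hm _
    rw [Finset.card_eq_zero.1 (Nat.le_zero.1 hS), Finset.coe_empty, Ideal.span_empty] at hm
    have : (⊥ : Ideal R).IsPrime := hm ▸ (maximalIdeal.isMaximal R).isPrime
    exact IsDomain.of_bot_isPrime R
  | succ n ih =>
    intro R _ _ _ S hS hm hd
    have hjac : ∀ I : Ideal R, I ≤ maximalIdeal R → I ≤ Ideal.jacobson ⊥ := fun I hI =>
      hI.trans (maximalIdeal_le_jacobson _)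
    have hmin : maximalIdeal R ∉ minimalPrimes R := by
      intro h
      rw [← maximalIdeal_height_eq_ringKrullDim, Ideal.height_eq_zero_iff.2 h] at hd
      have : ((n + 1 : ℕ) : ℕ∞) ≤ 0 := by exact_mod_cast hd
      simp at this
    obtain ⟨x, hx, hx2, hxp⟩ : ∃ x ∈ maximalIdeal R, x ∉ maximalIdeal R ^ 2 ∧
        ∀ p ∈ minimalPrimes R, x ∉ p := by
      by_contra hcon
      push Not at hcon
      have hfin := minimalPrimes.finite_of_isNoetherianRing R
      have hsub : (maximalIdeal R : Set R) ⊆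
          ⋃ i ∈ (↑(insert (maximalIdeal R ^ 2) hfin.toFinset) : Set (Ideal R)),
            ((id i : Ideal R) : Set R) := by
        intro x hx
        simp only [Set.mem_iUnion]
        by_cases h2 : x ∈ maximalIdeal R ^ 2
        · exact ⟨_, by simp, h2⟩
        · obtain ⟨p, hp, hxp⟩ := hcon x hx h2
          exact ⟨p, by simp [hp], hxp⟩
      obtain ⟨i, hi, hle⟩ := (Ideal.subset_union_prime (maximalIdeal R ^ 2) (maximalIdeal R ^ 2)
        (fun i hi hne _ => by
          have : i ∈ minimalPrimes R := by simpa [hne] using hi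
          exact this.1.1)).1 hsub
      rcases Finset.mem_insert.1 hi with rfl | hi
      · have h0 : maximalIdeal R = ⊥ :=
          Submodule.eq_bot_of_le_smul_of_le_jacobson_bot (maximalIdeal R) _
            (IsNoetherian.noetherian _) (by simpa [pow_two] using hle) (hjac _ le_rfl)
        apply hmin
        refine ⟨⟨(maximalIdeal.isMaximal R).isPrime, bot_le⟩, fun q _ _ => ?_⟩
        rw [h0]; exact bot_le
      · have hi' : i ∈ minimalPrimes R := by simpa using hi
        have : maximalIdeal R = i := (maximalIdeal.isMaximal R).eq_of_le hi'.1.1.ne_top hle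
        exact hmin (this ▸ hi')
    have hxS : x ∈ Ideal.span (S : Set R) := hm ▸ hx
    obtain ⟨a, -, ha⟩ := Submodule.mem_span_finset.1 hxS
    obtain ⟨s0, hs0, hu⟩ : ∃ s0 ∈ S, IsUnit (a s0) := by
      by_contra hcon
      push Not at hcon
      apply hx2
      rw [← ha, pow_two]
      refine Ideal.sum_mem _ fun s hs => Ideal.mul_mem_mul (hcon s hs) ?_
      rw [hm]
      exact Ideal.subset_span hs
    have hJ : Ideal.span (({x} : Finset R) : Set R) ≤ maximalIdeal R := by
      rw [Ideal.span_le]; simpa using hx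
    have hm' : maximalIdeal R = Ideal.span (({x} : Finset R) : Set R) ⊔
        Ideal.span (S.erase s0 : Set R) := by
      refine le_antisymm ?_ (sup_le hJ ?_)
      · rw [hm, Ideal.span_le]
        intro s hs
        by_cases h : s = s0
        · rw [h]
          rw [← Finset.add_sum_erase _ _ hs0] at ha
          obtain ⟨u, hu⟩ := hu
          have e : s0 = ↑u⁻¹ * (x - ∑ t ∈ S.erase s0, a t • t) := by
            rw [← ha, add_sub_cancel_right, smul_eq_mul, ← hu, Units.inv_mul_cancel_left]
          have hmem : ↑u⁻¹ * (x - ∑ t ∈ S.erase s0, a t • t) ∈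
              Ideal.span (({x} : Finset R) : Set R) ⊔ Ideal.span (S.erase s0 : Set R) :=
            Ideal.mul_mem_left _ _ (Ideal.sub_mem _
              (Ideal.mem_sup_left (Ideal.subset_span (by simp)))
              (Ideal.mem_sup_right (Ideal.sum_mem _ fun t ht =>
                Ideal.mul_mem_left _ _ (Ideal.subset_span ht))))
          rw [← e] at hmem
          exact hmem
        · exact Ideal.mem_sup_right (Ideal.subset_span (Finset.mem_erase.2 ⟨h, hs⟩))
      · rw [hm]
        exact Ideal.span_mono (Finset.erase_subset _ _)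
    have := quot_loc hJ
    have hdom : IsDomain (R ⧸ Ideal.span (({x} : Finset R) : Set R)) := by
      refine ih _ _ ?_ (quot_max _ hm') (dim_quot {x} (by simpa using hx) (c := 1) (by simp) hd)
      refine Finset.card_image_le.trans ?_
      rw [Finset.card_erase_of_mem hs0]
      omega
    have hprime : (Ideal.span (({x} : Finset R) : Set R)).IsPrime :=
      (Ideal.Quotient.isDomain_iff_prime _).1 hdom
    obtain ⟨p, hp, hpx⟩ := Ideal.exists_minimalPrimes_le
      (I := (⊥ : Ideal R)) (J := Ideal.span (({x} : Finset R) : Set R)) bot_le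
    have hp0 : p = ⊥ := by
      refine Submodule.eq_bot_of_le_smul_of_le_jacobson_bot (maximalIdeal R) _
        (IsNoetherian.noetherian _) (fun y hy => ?_) (hjac _ le_rfl)
      have h1 := hpx hy
      rw [Finset.coe_singleton, Ideal.mem_span_singleton'] at h1
      obtain ⟨r, rfl⟩ := h1
      have hr : r ∈ p := (hp.1.1.mem_or_mem hy).resolve_right (hxp p hp)
      rw [mul_comm]
      exact Submodule.smul_mem_smul hx hr
    have : (⊥ : Ideal R).IsPrime := hp0 ▸ hp.1.1
    exact IsDomain.of_bot_isPrime R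

theorem reg {R : Type} [CommRing R] [IsNoetherianRing R] [IsLocalRing R] {ι : Type} [Fintype ι]
    (z : ι → R) (hm : maximalIdeal R = Ideal.span (Set.range z))
    (hd : ((Fintype.card ι : ℕ) : WithBot ℕ∞) ≤ ringKrullDim R) (I : Set ι) (i : ι) (hi : i ∉ I)
    (g : R) (hg : z i * g ∈ Ideal.span (z '' I)) : g ∈ Ideal.span (z '' I) := by
  classical
  have hz : ∀ j, z j ∈ maximalIdeal R := fun j => hm ▸ Ideal.subset_span ⟨j, rfl⟩
  let A : Finset ι := Finset.univ.filter (· ∈ I)
  have hA : ((A.image z : Finset R) : Set R) = z '' I := by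
    ext r; simp [A]
  rw [← hA] at hg ⊢
  have hT : ((A.image z : Finset R) : Set R) ⊆ maximalIdeal R := by
    rw [hA]; rintro _ ⟨j, _, rfl⟩; exact hz j
  have hJ : Ideal.span ((A.image z : Finset R) : Set R) ≤ maximalIdeal R := Ideal.span_le.2 hT
  have := quot_loc hJ
  have hcard : Aᶜ.card + A.card = Fintype.card ι := by
    rw [add_comm, Finset.card_add_card_compl]
  have hq := dim_quot (n := Aᶜ.card) _ hT Finset.card_image_le (hcard ▸ hd)
  have hmax : ∀ B : Finset ι, (∀ j, j ∉ B → z j ∈ Ideal.span ((A.image z : Finset R) : Set R)) →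
      maximalIdeal R = Ideal.span ((A.image z : Finset R) : Set R) ⊔
        Ideal.span ((B.image z : Finset R) : Set R) := by
    intro B hB
    refine le_antisymm ?_ (sup_le hJ (Ideal.span_le.2 ?_))
    · rw [hm, Ideal.span_le]
      rintro _ ⟨j, rfl⟩
      by_cases h : j ∈ B
      · exact Ideal.mem_sup_right (Ideal.subset_span (Finset.mem_image_of_mem z h))
      · exact Ideal.mem_sup_left (hB j h)
    · intro r hr
      obtain ⟨j, _, rfl⟩ := Finset.mem_image.1 hr
      exact hz j
  have hin : ∀ j ∈ A, z j ∈ Ideal.span ((A.image z : Finset R) : Set R) := fun j hj =>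
    Ideal.subset_span (Finset.mem_image_of_mem z hj)
  have hdom := dom _ _ _ (Finset.card_image_le.trans Finset.card_image_le)
    (quot_max _ (hmax Aᶜ fun j hj => hin j (by simpa using hj))) hq
  have hprime := (Ideal.Quotient.isDomain_iff_prime _).1 hdom
  refine (hprime.mem_or_mem hg).resolve_left fun hzi => ?_
  have hiA : i ∈ Aᶜ := by simpa [A] using hi
  have h1 := dim_le _ (quot_max _ (hmax (Aᶜ.erase i) fun j hj => by
    by_cases h : j = i
    · exact h ▸ hzi
    · exact hin j (by simpa [h] using hj)))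
  have h2 := hq.trans h1
  have h3 : Aᶜ.card ≤ (Aᶜ.erase i).card :=
    le_trans (by exact_mod_cast h2) (Finset.card_image_le.trans Finset.card_image_le)
  rw [Finset.card_erase_of_mem hiA] at h3
  have := Finset.card_pos.2 ⟨i, hiA⟩
  omega

theorem ht_poly (s : ℕ) : ∀ (P : Ideal (MvPolynomial (Fin s) ℂ)) [P.IsMaximal],
    (s : ℕ∞) ≤ P.height := by
  induction s with
  | zero => intro P _; simp
  | succ s ih =>
    intro P _
    let e := (MvPolynomial.finSuccEquiv ℂ s).toRingEquiv
    let Q : Ideal (Polynomial (MvPolynomial (Fin s) ℂ)) := P.map e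
    have hQ : Q.IsMaximal := Ideal.map_isMaximal_of_equiv e
    have hq := Polynomial.isMaximal_comap_C_of_isJacobsonRing Q
    have : Q.LiesOver (Q.comap Polynomial.C) := ⟨rfl⟩
    have h1 := Polynomial.height_eq_height_add_one (Q.comap Polynomial.C) Q
    rw [← RingEquiv.height_map e P]
    change _ ≤ Q.height
    rw [h1, Nat.cast_add, Nat.cast_one]
    exact add_le_add (ih _) le_rfl

theorem ht_ge (Y L : Type) [CommRing Y] [IsDomain Y] [Algebra ℂ Y] [Algebra.FiniteType ℂ Y]
    [CommRing L] [IsDomain L] [Algebra ℂ L] [Algebra Y L] [IsScalarTower ℂ Y L] [FaithfulSMul Y L]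
    [Algebra.IsIntegral Y L] {ι : Type} [Fintype ι] (w : ι → L) (hw : AlgebraicIndependent ℂ w)
    (n : Ideal Y) [n.IsMaximal] : ((Fintype.card ι : ℕ) : ℕ∞) ≤ n.height := by
  obtain ⟨s, g, hinj, hint⟩ := exists_integral_inj_algHom_of_fg ℂ Y
  let A := MvPolynomial (Fin s) ℂ
  let _ : Algebra A Y := g.toRingHom.toAlgebra
  let _ : Algebra A L := ((algebraMap Y L).comp g.toRingHom).toAlgebra
  have : IsScalarTower A Y L := IsScalarTower.of_algebraMap_eq fun _ => rfl
  have : IsScalarTower ℂ A Y := IsScalarTower.of_algebraMap_eq fun c => (g.commutes c).symm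
  have : IsScalarTower ℂ A L := IsScalarTower.of_algebraMap_eq fun c => by
    rw [IsScalarTower.algebraMap_apply ℂ Y L, IsScalarTower.algebraMap_apply A Y L,
      ← IsScalarTower.algebraMap_apply ℂ A Y]
  have : Algebra.IsIntegral A Y := ⟨hint⟩
  have : FaithfulSMul A Y := (faithfulSMul_iff_algebraMap_injective A Y).2 hinj
  have : FaithfulSMul A L := (faithfulSMul_iff_algebraMap_injective A L).2
    ((FaithfulSMul.algebraMap_injective Y L).comp hinj)
  have : Algebra.IsIntegral A L := Algebra.IsIntegral.trans Y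
  have : IsNoetherianRing Y := Algebra.FiniteType.isNoetherianRing ℂ Y
  have h1 : Fintype.card ι ≤ s := by
    have h2 := hw.cardinalMk_le_trdeg
    rw [← trdeg_add_eq ℂ A, trdeg_eq_zero (R := A) (A := L), add_zero, MvPolynomial.trdeg_of_isDomain] at h2
    simpa using h2
  have hp := Ideal.isMaximal_comap_of_isIntegral_of_isMaximal (R := A) n
  have : n.LiesOver (n.comap (algebraMap A Y)) := ⟨rfl⟩
  rw [Ideal.height_eq_height_add_of_liesOver_of_hasGoingDown (n.comap (algebraMap A Y)) n]
  refine le_trans ?_ le_self_add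
  exact le_trans (by exact_mod_cast h1) (ht_poly s _)

variable {K : Type} [Field K] [Algebra ℂ K]

theorem id_mul {O : Subalgebra ℂ K} {S : Set K} {a v : K} (ha : a ∈ O) (hv : v ∈ Id O S) :
    a * v ∈ Id O S := by
  refine Submodule.mul_induction_on hv (fun o ho s hs => ?_) fun x y hx hy => ?_
  · rw [← mul_assoc]
    exact Submodule.mul_mem_mul (O.mul_mem ha ho) hs
  · rw [mul_add]; exact Submodule.add_mem _ hx hy

theorem id_of_span {O : Subalgebra ℂ K} {S : Set O} {g : O} (hg : g ∈ Ideal.span S) :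
    (g : K) ∈ Id O (Subtype.val '' S) := by
  induction hg using Submodule.span_induction with
  | mem s hs =>
    rw [← one_mul (s : K)]
    exact Submodule.mul_mem_mul O.one_mem (Submodule.subset_span ⟨s, hs, rfl⟩)
  | zero => exact Submodule.zero_mem _
  | add a b _ _ ha hb => exact Submodule.add_mem _ ha hb
  | smul r a _ ha => exact id_mul r.2 ha

theorem span_of_id {O : Subalgebra ℂ K} {S : Set O} {v : K} (hv : v ∈ Id O (Subtype.val '' S)) :
    ∃ g ∈ Ideal.span S, (g : K) = v := by
  refine Submodule.mul_induction_on hv (fun o ho s hs => ?_) fun x y hx hy => ?_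
  · have : ∃ g ∈ Ideal.span S, (g : K) = s := by
      induction hs using Submodule.span_induction with
      | mem s hs =>
        obtain ⟨t, ht, rfl⟩ := hs
        exact ⟨t, Ideal.subset_span ht, rfl⟩
      | zero => exact ⟨0, Ideal.zero_mem _, rfl⟩
      | add a b _ _ ha hb =>
        obtain ⟨g, hg, rfl⟩ := ha
        obtain ⟨g', hg', rfl⟩ := hb
        exact ⟨g + g', Ideal.add_mem _ hg hg', rfl⟩
      | smul c a _ ha =>
        obtain ⟨g, hg, rfl⟩ := ha
        exact ⟨c • g, Submodule.smul_of_tower_mem _ c hg, rfl⟩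
    obtain ⟨g, hg, rfl⟩ := this
    exact ⟨⟨o, ho⟩ * g, Ideal.mul_mem_left _ _ hg, rfl⟩
  · obtain ⟨g, hg, rfl⟩ := hx
    obtain ⟨g', hg', rfl⟩ := hy
    exact ⟨g + g', Ideal.add_mem _ hg hg', rfl⟩

theorem unit_iff {O : Subalgebra ℂ K} {M : Submodule ℂ K} (h : LocD O M) (g : O) :
    IsUnit g ↔ (g : K) ∉ M := by
  constructor
  · rintro ⟨u, rfl⟩ hm
    apply h.one
    have := h.mul _ (↑u⁻¹ : O).2 _ hm
    rwa [← MulMemClass.coe_mul, Units.inv_mul] at this
  · intro hm
    have h0 : (g : K) ≠ 0 := fun h0 => hm (h0 ▸ M.zero_mem)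
    exact IsUnit.of_mul_eq_one ⟨_, h.inv _ g.2 hm⟩ (Subtype.ext (mul_inv_cancel₀ h0))

theorem loc {O : Subalgebra ℂ K} {M : Submodule ℂ K} (h : LocD O M) : IsLocalRing O :=
  IsLocalRing.of_nonunits_add fun a b ha hb => by
    rw [mem_nonunits_iff, unit_iff h, not_not] at ha hb ⊢
    exact M.add_mem ha hb

end DRegAux

open DRegAux

theorem d1 : S_D1 := by
  intro K _ _ Y O M ι ι' _ _ z w hfg hloc hYO hden hz hgen hw hint hcard
  have := loc hloc
  have hmem : ∀ g : O, g ∈ maximalIdeal O ↔ (g : K) ∈ M := fun g => by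
    rw [mem_maximalIdeal, mem_nonunits_iff, unit_iff hloc, not_not]
  let _ : Algebra Y O := (Subalgebra.inclusion hYO).toRingHom.toAlgebra
  have halg : ∀ y : Y, ((algebraMap Y O y : O) : K) = y := fun _ => rfl
  let n : Ideal Y := (maximalIdeal O).comap (algebraMap Y O)
  have hn : ∀ y : Y, y ∈ n ↔ (y : K) ∈ M := fun y => hmem _
  have hmax : n.IsMaximal := by
    rw [Ideal.isMaximal_iff]
    refine ⟨fun h => hloc.one ((hn 1).1 h), fun J x hJ hx hxJ => ?_⟩
    obtain ⟨c, hc⟩ := hloc.dec x (hYO x.2)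
    have h1 : x - algebraMap ℂ Y c ∈ n := (hn _).2 hc
    have hc0 : c ≠ 0 := by
      rintro rfl
      rw [map_zero, sub_zero] at h1
      exact hx h1
    have h2 : algebraMap ℂ Y c ∈ J := by simpa using J.sub_mem hxJ (hJ h1)
    have h3 := J.mul_mem_left (algebraMap ℂ Y c⁻¹) h2
    rwa [← map_mul, inv_mul_cancel₀ hc0, map_one] at h3
  have hl : IsLocalization.AtPrime O n := by
    rw [IsLocalization.AtPrime, isLocalization_iff]
    refine ⟨fun y => (unit_iff hloc _).2 fun h => y.2 ((hn _).2 h), fun v => ?_, fun {a b} h => ?_⟩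
    · obtain ⟨b, hb, hbM, hbv⟩ := hden v v.2
      exact ⟨(⟨_, hbv⟩, ⟨⟨b, hb⟩, fun h => hbM ((hn _).1 h)⟩), Subtype.ext (mul_comm _ _)⟩
    · refine ⟨1, ?_⟩
      have : a = b := Subtype.ext (congrArg (Subtype.val : O → K) h)
      rw [this]
  have : Algebra.FiniteType ℂ Y := (Subalgebra.fg_iff_finiteType Y).1 hfg
  have hY : IsNoetherianRing Y := Algebra.FiniteType.isNoetherianRing ℂ Y
  have : IsNoetherianRing O := IsLocalization.isNoetherianRing n.primeCompl O hY
  have : FaithfulSMul Y (integralClosure Y K) :=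
    (faithfulSMul_iff_algebraMap_injective _ _).2 fun a b h =>
      Subtype.ext (congrArg (Subtype.val : integralClosure Y K → K) h)
  have hht := ht_ge Y (integralClosure Y K) (fun j => ⟨w j, hint j⟩)
    (AlgebraicIndependent.of_comp ((integralClosure Y K).val.restrictScalars ℂ) hw) n
  have hd : ((Fintype.card ι : ℕ) : WithBot ℕ∞) ≤ ringKrullDim O := by
    rw [IsLocalization.AtPrime.ringKrullDim_eq_height n O]
    have h1 : ((Fintype.card ι : ℕ) : ℕ∞) ≤ n.height := le_trans (by exact_mod_cast hcard) hht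
    exact_mod_cast h1
  let z' : ι → O := fun i => ⟨z i, hloc.le _ (hz i)⟩
  have him : ∀ I : Set ι, z '' I = Subtype.val '' (z' '' I) := fun I => by
    rw [Set.image_image]
  have hm : maximalIdeal O = Ideal.span (Set.range z') := by
    refine le_antisymm (fun g hg => ?_) (Ideal.span_le.2 ?_)
    · have h1 := hgen ((hmem g).1 hg)
      rw [← Set.image_univ, him] at h1
      obtain ⟨g', hg', e⟩ := span_of_id h1
      rw [← Subtype.ext e, ← Set.image_univ]
      exact hg'
    · rintro _ ⟨i, rfl⟩
      exact (hmem _).2 (hz i)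
  intro I i hi g hg h
  rw [him] at h ⊢
  obtain ⟨g', hg', e⟩ := span_of_id h
  have e' : g' = z' i * ⟨g, hg⟩ := Subtype.ext e
  exact id_of_span (reg z' hm hd I i hi ⟨g, hg⟩ (e' ▸ hg'))

end Pool.Agent.P.MP_c2aaf5_co
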