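import Pool.Agent.P.MP_c2aaf5_co.DefG

/-! Package D5: saturation, and no linear or quadratic relations on the fibre. -/

set_option linter.unusedSectionVars false

namespace Pool.Agent.P.MP_c2aaf5_co

open MvPolynomial Finset

namespace DSatAux

variable {K τ : Type} [Field K] [Algebra ℂ K] [Fintype τ] {ξ : τ → K} {R P O : Subalgebra ℂ K}
  {mR M : Submodule ℂ K} {s : τ} {a : τ → ℂ}

theorem mulR {S T T' : Submodule ℂ K} {r v : K} (h : ∀ t ∈ T, r * t ∈ T') (hv : v ∈ S * T) :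
    r * v ∈ S * T' := by
  refine Submodule.mul_induction_on hv (fun m hm t ht => ?_) fun x y hx hy => ?_
  · rw [mul_left_comm]; exact Submodule.mul_mem_mul hm (h t ht)
  · rw [mul_add]; exact add_mem hx hy

theorem mulL {S S' T : Submodule ℂ K} {r v : K} (h : ∀ t ∈ S, r * t ∈ S') (hv : v ∈ S * T) :
    r * v ∈ S' * T := by
  rw [mul_comm S']
  exact mulR h (by rwa [mul_comm])

theorem xi_mem (t : τ) : ξ t ∈ Vx ξ := Submodule.subset_span ⟨t, rfl⟩

theorem xi_pow (t : τ) (j : ℕ) (u : K) (hu : u ∈ Vx ξ ^ j) : ξ t * u ∈ Vx ξ ^ (j + 1) := by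
  rw [pow_succ']; exact Submodule.mul_mem_mul (xi_mem t) hu

theorem xi_MM (t : τ) (j : ℕ) (u : K) (hu : u ∈ MM ξ P j) : ξ t * u ∈ MM ξ P (j + 1) :=
  mulL (xi_pow t j) hu

theorem P_MM {r : K} (hr : r ∈ P) (j : ℕ) (u : K) (hu : u ∈ MM ξ P j) : r * u ∈ MM ξ P j :=
  mulR (fun _ ht => P.mul_mem hr ht) hu

theorem V_MM (h : R ≤ P) {N j : ℕ} {g : K} (hg : g ∈ Vx ξ ^ N * Subalgebra.toSubmodule R)
    (u : K) (hu : u ∈ MM ξ P j) : g * u ∈ MM ξ P (N + j) := by
  refine Submodule.mul_induction_on hg (fun m hm r hr => ?_) fun x y hx hy => ?_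
  · rw [mul_assoc]
    exact mulL (fun t ht => by rw [pow_add]; exact Submodule.mul_mem_mul hm ht)
      (P_MM (h hr) j u hu)
  · rw [add_mul]; exact add_mem hx hy

theorem aeval_mem {G : MvPolynomial τ ℂ} {N : ℕ} (h : G.IsHomogeneous N) :
    aeval ξ G ∈ Vx ξ ^ N := by
  have h1 : G ∈ homogeneousSubmodule τ ℂ 1 ^ N := by rwa [homogeneousSubmodule_one_pow]
  have h2 := Submodule.mem_map_of_mem (f := (aeval ξ : MvPolynomial τ ℂ →ₐ[ℂ] K).toLinearMap) h1
  rw [Submodule.map_pow, homogeneousSubmodule_one_eq_span_X, Submodule.map_span,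
    ← Set.range_comp] at h2
  simpa [Function.comp_def, Vx] using h2

theorem un_mem (hR : LocD R mR) {N : ℕ} {g : K} (h : Un mR ξ a N g) :
    g ∈ Vx ξ ^ N * Subalgebra.toSubmodule R := by
  obtain ⟨G, h1, -, h2⟩ := h
  have h3 : mR * Vx ξ ^ N ≤ Vx ξ ^ N * Subalgebra.toSubmodule R := by
    rw [mul_comm]; exact mul_le_mul' le_rfl hR.le
  have h4 := Submodule.mul_mem_mul (aeval_mem (ξ := ξ) h1)
    (show (1 : K) ∈ Subalgebra.toSubmodule R from R.one_mem)
  rw [mul_one] at h4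
  simpa using add_mem (h3 h2) h4

theorem un_mul (hR : LocD R mR) {N N' : ℕ} {g g' : K} (h : Un mR ξ a N g) (h' : Un mR ξ a N' g') :
    Un mR ξ a (N + N') (g * g') := by
  have m' := un_mem hR h'
  obtain ⟨G, h1, h2, h3⟩ := h
  obtain ⟨G', h4, h5, h6⟩ := h'
  refine ⟨G * G', h1.mul h4, by rw [map_mul]; exact mul_ne_zero h2 h5, ?_⟩
  have e : g * g' - aeval ξ (G * G') = g' * (g - aeval ξ G) + aeval ξ G * (g' - aeval ξ G') := by
    rw [map_mul]; ring
  rw [e]
  refine add_mem ?_ (mulR (fun t ht => ?_) h6)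
  · refine Submodule.mul_induction_on m' (fun m hm r hr => ?_) fun x y hx hy => ?_
    · rw [mul_assoc]
      exact mulR (fun t ht => by rw [add_comm, pow_add]; exact Submodule.mul_mem_mul hm ht)
        (mulL (hR.mul r hr) h3)
    · rw [add_mul]; exact add_mem hx hy
  · rw [pow_add]; exact Submodule.mul_mem_mul (aeval_mem h1) ht

theorem clear (hR : LocD R mR) (hP : R ≤ P) (hp : Pt R mR ξ s a O M) {u : K}
    (hu : u ∈ mR * (Subalgebra.toSubmodule O * Subalgebra.toSubmodule P)) :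
    ∃ N g, Un mR ξ a N g ∧ g * u ∈ mR * MM ξ P N := by
  have add : ∀ x y : K, (∃ N g, Un mR ξ a N g ∧ g * x ∈ mR * MM ξ P N) →
      (∃ N g, Un mR ξ a N g ∧ g * y ∈ mR * MM ξ P N) →
      ∃ N g, Un mR ξ a N g ∧ g * (x + y) ∈ mR * MM ξ P N := by
    rintro x y ⟨N, g, h1, h2⟩ ⟨N', g', h3, h4⟩
    refine ⟨N + N', g * g', un_mul hR h1 h3, ?_⟩
    have e : g * g' * (x + y) = g' * (g * x) + g * (g' * y) := by ring
    rw [e]
    refine add_mem ?_ (mulR (V_MM hP (un_mem hR h1)) h4)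
    rw [add_comm N]
    exact mulR (V_MM hP (un_mem hR h3)) h2
  refine Submodule.mul_induction_on hu (fun m hm v hv => ?_) add
  refine Submodule.mul_induction_on hv (C := fun v => ∃ N g, Un mR ξ a N g ∧
    g * (m * v) ∈ mR * MM ξ P N) (fun o ho p hp' => ?_) fun x y hx hy => ?_
  · obtain ⟨N, g, h1, h2⟩ := hp.den o ho
    refine ⟨N, g, h1, ?_⟩
    have e : g * (m * (o * p)) = m * (p * (g * o)) := by ring
    rw [e]
    exact Submodule.mul_mem_mul hm (mulR (fun t ht => P.mul_mem hp' (hP ht)) h2)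
  · rw [mul_add]; exact add _ _ hx hy

theorem eta_mem (hp : Pt R mR ξ s a O M) (t : τ) : ξ t / ξ s ∈ O := by
  simpa using add_mem (hp.loc.le _ (hp.eta t)) (O.algebraMap_mem (a t))

theorem div_mem (hp : Pt R mR ξ s a O M) (k : ℕ) :
    ∀ u ∈ Vx ξ ^ k, (ξ s ^ k)⁻¹ * u ∈ Subalgebra.toSubmodule O := by
  have h1 : ∀ u ∈ Vx ξ, (ξ s)⁻¹ * u ∈ Subalgebra.toSubmodule O := fun u hu => by
    induction hu using Submodule.span_induction with
    | mem x hx =>
      obtain ⟨t, rfl⟩ := hx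
      rw [mul_comm, ← div_eq_mul_inv]; exact eta_mem hp t
    | zero => rw [mul_zero]; exact zero_mem _
    | add x y _ _ hx hy => rw [mul_add]; exact add_mem hx hy
    | smul c x _ hx => rw [mul_smul_comm]; exact Submodule.smul_mem _ c hx
  induction k with
  | zero =>
    intro u hu
    rw [pow_zero, Submodule.mem_one] at hu
    obtain ⟨c, rfl⟩ := hu
    rw [pow_zero, inv_one, one_mul]
    exact O.algebraMap_mem c
  | succ k ih =>
    intro u hu
    rw [pow_succ] at hu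
    refine Submodule.mul_induction_on hu (fun x hx y hy => ?_) fun x y hx hy => ?_
    · rw [pow_succ, mul_inv, mul_mul_mul_comm]
      exact O.mul_mem (ih x hx) (h1 y hy)
    · rw [mul_add]; exact add_mem hx hy

theorem const_zero (h : LocD O M) {c : ℂ} (hc : algebraMap ℂ K c ∈ M) : c = 0 := by
  by_contra h0
  refine h.one ?_
  have := M.smul_mem c⁻¹ hc
  rwa [Algebra.smul_def, ← map_mul, inv_mul_cancel₀ h0, map_one] at this

theorem Id_mul {S : Set K} {r v : K} (hr : r ∈ O) (hv : v ∈ Id O S) : r * v ∈ Id O S :=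
  mulL (fun _ ht => O.mul_mem hr ht) hv

theorem Id_mem {S : Set K} {v : K} (hv : v ∈ S) : v ∈ Id O S := by
  simpa [Id] using Submodule.mul_mem_mul (show (1 : K) ∈ Subalgebra.toSubmodule O from O.one_mem)
    (Submodule.subset_span (R := ℂ) hv)

theorem Id_le {S : Set K} {J : Submodule ℂ K} (hJ : ∀ r ∈ O, ∀ v ∈ J, r * v ∈ J)
    (hS : S ⊆ J) : Id O S ≤ J :=
  Submodule.mul_le.2 fun r hr v hv => hJ r hr v (Submodule.span_le.2 hS hv)

theorem quad {J : Submodule ℂ K} (hJ : ∀ r ∈ O, ∀ v ∈ J, r * v ∈ J) {η e : τ → K}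
    (h1 : ∀ u, η u ∈ O) (h2 : ∀ u, e u ∈ O) (h3 : ∀ u, η u - e u ∈ J) {l : τ → τ → ℂ}
    (h : ∑ u, ∑ v, l u v • (η u * η v) ∈ J) : ∑ u, ∑ v, l u v • (e u * e v) ∈ J := by
  have : ∑ u, ∑ v, l u v • (η u * η v) - ∑ u, ∑ v, l u v • (e u * e v) ∈ J := by
    simp only [← sum_sub_distrib, ← smul_sub]
    refine sum_mem fun u _ => sum_mem fun v _ => J.smul_mem _ ?_
    have e0 : η u * η v - e u * e v = η v * (η u - e u) + e u * (η v - e v) := by ring
    rw [e0]
    exact add_mem (hJ _ (h1 v) _ (h3 u)) (hJ _ (h2 u) _ (h3 v))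
  simpa using sub_mem h this

variable {W : Type} [CommRing W] [Algebra ℂ W] {ev : W →ₐ[ℂ] K} {am : K →ₗ[ℂ] K}
  {β : τ → W →ₗ[ℂ] ℂ}

/-- elements whose pairings lie one step deeper -/
def Z (ξ : τ → K) (mR : Submodule ℂ K) (P : Subalgebra ℂ K) (ev : W →ₐ[ℂ] K) (am : K →ₗ[ℂ] K)
    (j : ℕ) : AddSubgroup K where
  carrier := {g | g ∈ MM ξ P j ∧ ∀ w, am (g * ev w) ∈ mR * Vx ξ ^ (j + 1)}
  zero_mem' := ⟨zero_mem _, fun w => by rw [zero_mul, map_zero]; exact zero_mem _⟩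
  add_mem' := fun hx hy => ⟨add_mem hx.1 hy.1, fun w => by
    rw [add_mul, map_add]; exact add_mem (hx.2 w) (hy.2 w)⟩
  neg_mem' := fun hx => ⟨neg_mem hx.1, fun w => by
    rw [neg_mul, map_neg]; exact neg_mem (hx.2 w)⟩

theorem Z_xi (hF : Forms ξ R mR P ev am β) (j : ℕ) (t : τ) (v : K) (hv : v ∈ Z ξ mR P ev am j) :
    ξ t * v ∈ Z ξ mR P ev am (j + 1) :=
  ⟨xi_MM t j v hv.1, fun w => by
    rw [mul_assoc, hF.linξ]; exact mulR (xi_pow t (j + 1)) (hv.2 w)⟩

theorem Z_pt (hC : Core ξ R mR P) (hF : Forms ξ R mR P ev am β) (hp : Pt R mR ξ s a O M)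
    (hq : PerfAt O ev.range am (ξ s)) (j : ℕ) (v : K) (hv : v ∈ Z ξ mR P ev am j) :
    ∃ N g, Un mR ξ a N g ∧ g * v ∈ mR * MM ξ P (j + N) := by
  obtain ⟨N, f, g, Γ, h1, h2, h3, h4, -⟩ := hq
  have hu : (ξ s ^ (j + 1))⁻¹ * ξ s * v ∈
      mR * (Subalgebra.toSubmodule O * Subalgebra.toSubmodule P) := by
    rw [h4 v, mul_sum, ← mul_assoc mR]
    refine sum_mem fun b _ => ?_
    obtain ⟨w, hw⟩ := h1 b
    rw [← mul_assoc]
    refine Submodule.mul_mem_mul ?_ (show f b ∈ P from hw ▸ hF.mem w)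
    rw [mul_sum]
    refine sum_mem fun b' _ => ?_
    obtain ⟨w', hw'⟩ := h2 b'
    have e : (ξ s ^ (j + 1))⁻¹ * ξ s * (Γ b b' * (am (v * g b') / ξ s)) =
        Γ b b' * ((ξ s ^ (j + 1))⁻¹ * am (v * ev w')) := by
      have := hC.ne s
      rw [← hw']
      field_simp
      rfl
    rw [e]
    exact mulR (fun t ht => O.mul_mem (h3 b b') ht) (mulR (div_mem hp (j + 1)) (hv.2 w'))
  obtain ⟨N', g', h5, h6⟩ := clear hC.loc hC.le hp hu
  refine ⟨N', g', h5, ?_⟩
  have e : g' * v = ξ s ^ j * (g' * ((ξ s ^ (j + 1))⁻¹ * ξ s * v)) := by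
    have := hC.ne s
    field_simp
    ring
  rw [e]
  refine mulR (V_MM (R := R) hC.le ?_) h6
  simpa using Submodule.mul_mem_mul (Submodule.pow_mem_pow _ (xi_mem (ξ := ξ) s) j)
    (show (1 : K) ∈ Subalgebra.toSubmodule R from R.one_mem)

theorem mRO_le {J : Submodule ℂ K} (hJ : ∀ r ∈ O, ∀ v ∈ J, r * v ∈ J) (h : mR ≤ J) :
    mR * Subalgebra.toSubmodule O ≤ J :=
  Submodule.mul_le.2 fun m hm o ho => by rw [mul_comm]; exact hJ o ho m (h hm)

end DSatAux

open DSatAux in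
theorem sat : S_Bdd → S_Tors → S_Sat := by
  intro hB hT K τ W _ _ _ _ _ _ ξ R mR P N φ z ev am β hC hG hF hP hreg
  have pt : ∀ t, ∃ O M, Pt R mR ξ t (Pi.single t 1) O M ∧
      RegFam O (fam φ z ξ t (Pi.single t 1)) := fun t => by
    obtain h | ⟨O, M, h1, -, h2⟩ := hP.1 t (Pi.single t 1) (by simp)
    · exact absurd h (hP.2 t)
    · exact ⟨O, M, h1, h2⟩
  refine ⟨fun j g h1 h2 => ?_, fun l hl => ?_, fun l hl s t => ?_⟩
  · obtain ⟨e, he⟩ := hB K τ Unit ξ R mR P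
      (fun j => (Z ξ mR P ev am j).comap (Pi.evalAddMonoidHom (fun _ => K) ()))
      (fun j => (mR * MM ξ P j).toAddSubgroup.comap (Pi.evalAddMonoidHom (fun _ => K) ())) hC
      (fun j v hv _ => hv.1)
      (fun j r hr v hv => ⟨P_MM (hC.le hr) j _ hv.1, fun w => by
        change am (r * v () * ev w) ∈ _
        rw [mul_assoc, hF.linR r hr]
        exact mulL (hC.loc.mul r hr) (hv.2 w)⟩)
      (fun j r hr v hv => mulL (hC.loc.mul r hr) hv)
      (fun j t v hv => Z_xi hF j t _ hv)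
      (fun j t v hv => mulR (xi_MM t j) hv)
      (by
        rintro a ⟨s, hs⟩ j v hv
        obtain ⟨N, h⟩ | ⟨O, M, h1, h2, -⟩ := hP.1 s a hs
        · exact ⟨N, 0, h, by rw [zero_smul]; exact zero_mem _⟩
        · exact Z_pt hC hF h1 h2 j _ hv)
    exact hT τ K K univ ξ _ (Z ξ mR P ev am) _ (fun j v hv => hv.1)
      (fun j t _ v hv => Z_xi hF j t v hv) hreg
      ⟨e, fun j hj v hv => he j hj (x := fun _ => v) hv⟩ j ⟨h1, h2⟩
  · funext t
    obtain ⟨O, M, h1, -⟩ := pt t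
    rw [← pow_one (Vx ξ)] at hl
    have h2 := mRO_le h1.loc.mul h1.mle (mulR (div_mem h1 1) hl)
    have h3 := sub_mem h2 (sum_mem fun u (_ : u ∈ univ) => M.smul_mem (l u) (h1.eta u))
    refine const_zero h1.loc ?_
    convert h3 using 1
    simp only [pow_one, mul_sum, mul_smul_comm, smul_sub, sum_sub_distrib, div_eq_inv_mul,
      sub_sub_cancel]
    simp [Pi.single_apply, Algebra.smul_def, apply_ite (algebraMap ℂ K)]
  · obtain ⟨O, M, h1, h2⟩ := pt t
    have h3 := mulR (div_mem h1 2) hl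
    have e : (ξ t ^ 2)⁻¹ * ∑ u, ∑ v, l u v • (ξ u * ξ v) =
        ∑ u, ∑ v, l u v • (ξ u / ξ t * (ξ v / ξ t)) := by
      simp only [mul_sum, mul_smul_comm]
      refine sum_congr rfl fun u _ => sum_congr rfl fun v _ => ?_
      congr 1
      ring
    rw [e] at h3
    have h4 : l t t = 0 := by
      have := quad h1.loc.mul (eta_mem h1) (fun u => O.algebraMap_mem _) h1.eta
        (mRO_le h1.loc.mul h1.mle h3)
      refine const_zero h1.loc ?_
      simpa [Pi.single_apply, Algebra.smul_def, apply_ite (algebraMap ℂ K)] using this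
    by_cases hst : s = t
    · rw [hst, h4, add_zero]
    let I : Set ((Option τ × {u // u ≠ t}) ⊕ Fin N ⊕ {u // u ≠ t}) :=
      {i | i ≠ Sum.inr (Sum.inr ⟨s, hst⟩)}
    set J := Id O (fam φ z ξ t (Pi.single t 1) '' I) with hJ
    have j1 : ∀ r ∈ O, ∀ v ∈ J, r * v ∈ J := fun r hr v hv => Id_mul hr hv
    have j2 : ∀ w u, u ≠ t → φ w u ∈ J := fun w u hu =>
      Id_mem ⟨Sum.inl (w, ⟨u, hu⟩), by simp [I], rfl⟩
    have j3 : ∀ w, φ w t ∈ J := fun w => by
      have e1 := hG.rel w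
      rw [← add_sum_erase _ _ (mem_univ t)] at e1
      have e2 : φ w t = -∑ u ∈ univ.erase t, ξ u / ξ t * φ w u := by
        have := hC.ne t
        rw [eq_neg_iff_add_eq_zero, ← mul_left_inj' this, zero_mul, ← e1, add_mul, sum_mul]
        congr 1
        refine sum_congr rfl fun u _ => ?_
        field_simp
      rw [e2]
      exact neg_mem (sum_mem fun u hu => j1 _ (eta_mem h1 u) _ (j2 w u (mem_erase.1 hu).1))
    have j4 : mR ≤ J := hG.gen.trans (Id_le (fun r hr => j1 r (h1.le hr)) (by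
      rintro _ (⟨⟨w, u⟩, rfl⟩ | ⟨i, rfl⟩)
      · by_cases hu : u = t
        · rw [hu]; exact j3 w
        · exact j2 w u hu
      · exact Id_mem ⟨Sum.inr (Sum.inl i), by simp [I], rfl⟩))
    have j5 : J ≤ M := Id_le h1.loc.mul (by
      rintro _ ⟨⟨w, u⟩ | i | u, -, rfl⟩
      · exact h1.mle (hG.mφ w u)
      · exact h1.mle (hG.mz i)
      · exact h1.eta u)
    have j6 : ξ s / ξ t ∈ M := by simpa [hst] using h1.eta s
    have h5 := quad j1 (e := Pi.single t 1 + Pi.single s (ξ s / ξ t)) (eta_mem h1)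
      (fun u => by
        rw [Pi.add_apply, Pi.single_apply, Pi.single_apply]
        refine add_mem ?_ ?_ <;> split_ifs
        exacts [O.one_mem, O.zero_mem, eta_mem h1 s, O.zero_mem])
      (fun u => by
        by_cases hu : u = t
        · simp [hu, Ne.symm hst, hC.ne t]
        by_cases hu' : u = s
        · simp [hu', hst]
        refine Id_mem ⟨Sum.inr (Sum.inr ⟨u, hu⟩), by simp [I, hu'], ?_⟩
        simp [fam, hu, hu'])
      (mRO_le j1 j4 h3)
    have h6 := h2 I (Sum.inr (Sum.inr ⟨s, hst⟩)) (by simp [I])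
      (algebraMap ℂ K (l s t + l t s) + l s s • (ξ s / ξ t))
      (add_mem (O.algebraMap_mem _) (O.smul_mem (eta_mem h1 s) _)) (by
        convert h5 using 1
        simp [fam, hst, Pi.single_apply, mul_add, add_mul, sum_add_distrib, h4, Algebra.smul_def]
        ring)
    refine const_zero h1.loc ?_
    simpa using sub_mem (j5 h6) (M.smul_mem (l s s) j6)

end Pool.Agent.P.MP_c2aaf5_co
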