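import Pool.Agent.P.MP_c2aaf5_co.DefG

/-! The arrow argument. -/

namespace Pool.Agent.P.MP_c2aaf5_co

open Finset

namespace GArrowAux

/-- an arrow pointing to the left is zero or a standard arrow which is not lower -/
theorem red {M : Type} [AddCommGroup M] (P : ℕ → ℕ → Prop) (r k : ℕ → ℕ)
    (hr : ∀ i j, P i j ↔ i < r j) (hk : ∀ i j, P i j ↔ j < k i) (c : ℕ → ℕ → ℕ → ℕ → M)
    (h1 : ∀ a b i j, ¬P a b → P i j → c (a + 1) b i j = if i = 0 then 0 else c a b (i - 1) j)
    (h2 : ∀ a b i j, ¬P a b → P i j → c a (b + 1) i j = if j = 0 then 0 else c a b i (j - 1)) :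
    ∀ n a b i j, a + (k 0 - j) ≤ n → ¬P a b → P i j → i < a →
      c a b i j = 0 ∨ ∃ p q, P p q ∧ b ≤ q ∧ c a b i j = c (r q) q p (k p - 1) := by
  intro n
  induction n with
  | zero => intro a b i j hn _ _ hi; omega
  | succ n ih =>
    intro a b i j hn hab hij hi
    obtain ⟨a, rfl⟩ : ∃ a', a = a' + 1 := ⟨a - 1, by omega⟩
    by_cases e1 : P a b
    · by_cases e2 : P i (j + 1)
      · have hb : ¬P (a + 1) (b + 1) := by rw [hk] at hab ⊢; omega
        have hj : j + 1 < k 0 := by
          rw [← hk, hr]; rw [hr] at e2; omega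
        have e := h2 _ _ _ _ hab e2
        rw [if_neg (by omega), Nat.add_sub_cancel] at e
        rcases ih (a + 1) (b + 1) i (j + 1) (by omega) hb e2 hi with h | ⟨p, q, hp, hq, h⟩
        · exact Or.inl (e ▸ h)
        · exact Or.inr ⟨p, q, hp, by omega, e ▸ h⟩
      · refine Or.inr ⟨i, b, ?_, le_rfl, ?_⟩
        · rw [hr] at e1 ⊢; omega
        · have e3 : r b = a + 1 := by rw [hr] at e1 hab; omega
          have e4 : k i - 1 = j := by rw [hk] at e2 hij; omega
          rw [e3, e4]
    · rw [h1 _ _ _ _ e1 hij]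
      split_ifs with h0
      · exact Or.inl rfl
      · refine ih a b (i - 1) j (by omega) e1 ?_ (by omega)
        rw [hr] at hij ⊢; omega

theorem exists_len {n : ℕ} {μ : Fin n → ℕ × ℕ} (hμ : IsDiag μ) : ∃ r k : ℕ → ℕ,
    (∀ i j, (∃ v, μ v = (i, j)) ↔ i < r j) ∧ ∀ i j, (∃ v, μ v = (i, j)) ↔ j < k i := by
  let Y : YoungDiagram := ⟨univ.image μ, fun a b hba ha => by
    simp only [coe_image, coe_univ, Set.image_univ, Set.mem_range] at ha ⊢
    obtain ⟨v, rfl⟩ := ha
    exact hμ.2 v b hba⟩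
  have hY : ∀ h, h ∈ Y ↔ ∃ v, μ v = h := fun h => by
    rw [← YoungDiagram.mem_cells]; simp [Y]
  exact ⟨Y.colLen, Y.rowLen, fun i j => by rw [← hY, YoungDiagram.mem_iff_lt_colLen],
    fun i j => by rw [← hY, YoungDiagram.mem_iff_lt_rowLen]⟩

theorem subR {M : Type} [AddCommGroup M] (S : AddSubgroup M) {a b : M} (h : a - b ∈ S)
    (ha : a ∈ S) : b ∈ S := by simpa using S.sub_mem ha h

theorem subL {M : Type} [AddCommGroup M] (S : AddSubgroup M) {a b : M} (h : a - b ∈ S)
    (hb : b ∈ S) : a ∈ S := by simpa using S.add_mem h hb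

end GArrowAux

open GArrowAux in
theorem arrow : S_Arrow := by
  classical
  intro m μ M _ c X Y hμ h0 h1 h2
  obtain ⟨r, k, hr, hk⟩ := exists_len hμ
  set P : ℕ → ℕ → Prop := fun i j => ∃ v, μ v = (i, j) with hP
  replace hr : ∀ i j, P i j ↔ i < r j := hr
  replace hk : ∀ i j, P i j ↔ j < k i := hk
  have nP : ∀ h : ℕ × ℕ, (∀ v, μ v ≠ h) ↔ ¬P h.1 h.2 := fun h => by simp [hP]
  have anti : ∀ i i', i ≤ i' → k i' ≤ k i := fun i i' h => by
    by_contra hc
    have e : P i' (k i) := (hk _ _).2 (by omega)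
    have e' : P i (k i) := by rw [hr] at e ⊢; omega
    rw [hk] at e'; omega
  have g1 : ∀ a b i j, ¬P a b → P i j →
      c (a + 1, b) (i, j) = if i = 0 then 0 else c (a, b) (i - 1, j) :=
    fun a b i j hab hij => h1 (a, b) (i, j) ((nP _).2 hab) hij
  have g2 : ∀ a b i j, ¬P a b → P i j →
      c (a, b + 1) (i, j) = if j = 0 then 0 else c (a, b) (i, j - 1) :=
    fun a b i j hab hij => h2 (a, b) (i, j) ((nP _).2 hab) hij
  let A : Bool × ℕ × ℕ → M := fun z =>
    if z.1 then c (r z.2.2, z.2.2) (z.2.1, k z.2.1 - 1) else c (z.2.1, k z.2.1) (r z.2.2 - 1, z.2.2)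
  have redD : ∀ a b i j, ¬P a b → P i j → i < a →
      c (a, b) (i, j) = 0 ∨ ∃ p q, P p q ∧ b ≤ q ∧ c (a, b) (i, j) = A (true, p, q) :=
    fun a b i j => red P r k hr hk (fun a b i j => c (a, b) (i, j)) g1 g2 _ a b i j le_rfl
  have redU : ∀ a b i j, ¬P a b → P i j → j < b →
      c (a, b) (i, j) = 0 ∨ ∃ q p, P p q ∧ a ≤ p ∧ c (a, b) (i, j) = A (false, p, q) :=
    fun a b i j => red (fun j i => P i j) k r (fun j i => hk i j) (fun j i => hr i j)
      (fun b a j i => c (a, b) (i, j)) (fun b a j i => g2 a b i j) (fun b a j i => g1 a b i j)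
      _ b a j i le_rfl
  have cor : ∀ s : Cor μ, r (μ s).2 = (μ s).1 + 1 ∧ k (μ s).1 = (μ s).2 + 1 := fun s => by
    have e0 : P (μ s).1 (μ s).2 := ⟨s, rfl⟩
    have e1 : ¬P ((μ s).1 + 1) (μ s).2 := by
      rintro ⟨v, hv⟩
      have := s.2 v (by rw [hv]; exact ⟨Nat.le_succ _, le_rfl⟩)
      rw [this] at hv
      have := congrArg Prod.fst hv
      simp at this
    have e2 : ¬P (μ s).1 ((μ s).2 + 1) := by
      rintro ⟨v, hv⟩
      have := s.2 v (by rw [hv]; exact ⟨le_rfl, Nat.le_succ _⟩)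
      rw [this] at hv
      have := congrArg Prod.snd hv
      simp at this
    have e0' := e0
    rw [hr] at e0 e1
    rw [hk] at e0' e2
    omega
  have inj1 : ∀ s s' : Cor μ, (μ s).1 = (μ s').1 → s = s' := fun s s' h => by
    have a := (cor s).2
    have b := (cor s').2
    rw [h] at a
    exact Subtype.ext (hμ.1 (Prod.ext h (by omega)))
  have inj2 : ∀ s s' : Cor μ, (μ s).2 = (μ s').2 → s = s' := fun s s' h => by
    have a := (cor s).1
    have b := (cor s').1
    rw [h] at a
    exact Subtype.ext (hμ.1 (Prod.ext (by omega) h))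
  let t1 : Option (Cor μ) → ℕ := fun w => w.elim 0 fun s => (μ s).1 + 1
  have t1inj : ∀ w w', t1 w = t1 w' → w = w' := by
    rintro (_ | s) (_ | s') h
    · rfl
    · simp [t1] at h
    · simp [t1] at h
    · rw [inj1 s s' (by simpa [t1] using h)]
  have tout : ∀ w, ¬P (t1 w) (k (t1 w)) := fun w => by rw [hk]; omega
  have trow : ∀ w, r (k (t1 w)) = t1 w := by
    intro w
    have a := tout w
    rw [hr] at a
    rcases w with _ | s
    · simp only [t1, Option.elim] at a ⊢; omega
    · simp only [t1, Option.elim] at a ⊢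
      have b : ¬P ((μ s).1 + 1) (μ s).2 := by rw [hr, (cor s).1]; omega
      have b' : P (μ s).1 (k ((μ s).1 + 1)) := by rw [hk] at b ⊢; rw [(cor s).2]; omega
      rw [hr] at b'
      omega
  let ι : Option (Cor μ) × Cor μ → Bool × ℕ × ℕ := fun ws =>
    if t1 ws.1 ≤ (μ ws.2).1 then (true, t1 ws.1, (μ ws.2).2) else (false, (μ ws.2).1, k (t1 ws.1))
  have ιinj : Function.Injective ι := by
    rintro ⟨w, s⟩ ⟨w', s'⟩ h
    simp only [ι] at h
    split_ifs at h with a b b
    · simp only [Prod.mk.injEq, true_and] at h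
      rw [t1inj _ _ h.1, inj2 _ _ h.2]
    · simp at h
    · simp at h
    · simp only [Prod.mk.injEq, true_and] at h
      rw [t1inj w w' (by rw [← trow w, ← trow w', h.2]), inj1 _ _ h.1]
  let T : Finset (Bool × ℕ × ℕ) := univ ×ˢ univ.image μ
  have hT : ∀ b i j, (b, i, j) ∈ T ↔ P i j := fun b i j => by simp [T, hP]
  have ιT : univ.image ι ⊆ T := by
    intro z hz
    obtain ⟨⟨w, s⟩, -, rfl⟩ := mem_image.1 hz
    simp only [ι]
    split_ifs with a
    · rw [hT, hr, (cor s).1]; omega
    · rw [hT, hr, trow]; omega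
  let U := T \ univ.image ι
  have hU : U.card + Fintype.card (Cor μ) * (Fintype.card (Cor μ) + 1) = 2 * (m + 1) := by
    have a := card_sdiff_add_card_eq_card ιT
    rw [card_image_of_injective _ ιinj, card_univ, Fintype.card_prod, Fintype.card_option,
      mul_comm] at a
    rw [a, card_product, card_image_of_injective _ hμ.1]
    simp
  let F : U ⊕ Bool → M := Sum.elim (fun z => A z) fun b => if b then X else Y
  let e := (Fintype.equivFin (U ⊕ Bool)).symm
  refine ⟨fun w => (t1 w, k (t1 w)), _, F ∘ e, fun w => ⟨(nP _).2 (tout w), ?_, ?_⟩, ?_, ?_, ?_⟩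
  · by_cases a : t1 w = 0
    · exact Or.inl a
    · obtain ⟨v, hv⟩ : P (t1 w - 1) (k (t1 w)) := by rw [hr, trow]; omega
      refine Or.inr ⟨v, ?_⟩
      rw [hv]
      exact Prod.ext (by simp only [Prod.fst_add]; omega) rfl
  · by_cases a : k (t1 w) = 0
    · exact Or.inl a
    · obtain ⟨v, hv⟩ : P (t1 w) (k (t1 w) - 1) := by rw [hk]; omega
      refine Or.inr ⟨v, ?_⟩
      rw [hv]
      exact Prod.ext rfl (by simp only [Prod.snd_add]; omega)
  · rw [Fintype.card_sum, Fintype.card_coe, Fintype.card_bool]; omega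
  · intro i
    rw [Function.comp_apply]
    rcases e i with ⟨⟨b, p, q⟩, hz⟩ | b
    · refine Or.inr (Or.inr ?_)
      cases b
      · exact ⟨(p, k p), _, (nP _).2 (by rw [hk]; exact lt_irrefl _), rfl⟩
      · exact ⟨(r q, q), _, (nP _).2 (by rw [hr]; exact lt_irrefl _), rfl⟩
    · cases b
      · exact Or.inr (Or.inl rfl)
      · exact Or.inl rfl
  rw [e.surjective.range_comp]
  set S := AddSubgroup.closure (Set.range F ∪ _) with hS
  have hF : ∀ a, F a ∈ S := fun a => AddSubgroup.subset_closure (Or.inl ⟨a, rfl⟩)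
  have hX : X ∈ S := hF (.inr true)
  have hY : Y ∈ S := hF (.inr false)
  have hφ : ∀ w (s : Cor μ),
      (if t1 w = 0 then 0 else c ((μ s).1, (μ s).2 + 1) (t1 w - 1, k (t1 w))) -
      (if k (t1 w) = 0 then 0 else c ((μ s).1 + 1, (μ s).2) (t1 w, k (t1 w) - 1)) ∈ S := by
    intro w s
    have a : _ ∈ S := AddSubgroup.subset_closure (Or.inr ⟨(w, s), rfl⟩)
    have b : (if μ s + (0, 1) = (t1 w, k (t1 w)) then X else 0) ∈ S := by
      split_ifs; exacts [hX, S.zero_mem]
    have b' : (if μ s + (1, 0) = (t1 w, k (t1 w)) then Y else 0) ∈ S := by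
      split_ifs; exacts [hY, S.zero_mem]
    have := S.sub_mem (S.add_mem a b') b
    rw [sub_add_cancel, add_sub_cancel_right] at this
    exact this
  have hD : ∀ n p q, k 0 - q ≤ n → P p q → A (true, p, q) ∈ S := by
    intro n
    induction n with
    | zero => intro p q hn hp; rw [hk] at hp; have := anti 0 p p.zero_le; omega
    | succ n ih =>
      intro p q hn hp
      by_cases a : (true, p, q) ∈ univ.image ι
      swap
      · exact hF (.inl ⟨_, mem_sdiff.2 ⟨(hT _ _ _).2 hp, a⟩⟩)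
      obtain ⟨⟨w, s⟩, -, h⟩ := mem_image.1 a
      simp only [ι] at h
      split_ifs at h with b
      swap
      · simp at h
      simp only [Prod.mk.injEq, true_and] at h
      obtain ⟨rfl, rfl⟩ := h
      have d := hφ w s
      rw [if_neg (by rw [hk] at hp; omega : ¬k (t1 w) = 0), ← (cor s).1] at d
      refine subR S d ?_
      split_ifs with b'
      · exact S.zero_mem
      rcases redD (μ s).1 ((μ s).2 + 1) (t1 w - 1) (k (t1 w)) (by rw [hk, (cor s).2]; omega)
        (by rw [hr, trow]; omega) (by omega) with h | ⟨p, q, hp', hq, h⟩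
      · rw [h]; exact S.zero_mem
      · rw [h]; exact ih p q (by omega) hp'
  have hUp : ∀ n p q, r 0 - p ≤ n → P p q → A (false, p, q) ∈ S := by
    intro n
    induction n with
    | zero =>
      intro p q hn hp
      have : P p 0 := by rw [hk] at hp ⊢; omega
      rw [hr] at this; omega
    | succ n ih =>
      intro p q hn hp
      by_cases a : (false, p, q) ∈ univ.image ι
      swap
      · exact hF (.inl ⟨_, mem_sdiff.2 ⟨(hT _ _ _).2 hp, a⟩⟩)
      obtain ⟨⟨w, s⟩, -, h⟩ := mem_image.1 a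
      simp only [ι] at h
      split_ifs at h with b
      · simp at h
      simp only [Prod.mk.injEq, true_and] at h
      obtain ⟨rfl, rfl⟩ := h
      have d := hφ w s
      rw [if_neg (by omega : ¬t1 w = 0), ← (cor s).2] at d
      have d' : A (false, (μ s).1, k (t1 w)) = c ((μ s).1, k (μ s).1) (t1 w - 1, k (t1 w)) := by
        simp only [A, trow]; rfl
      rw [d']
      refine subL S d ?_
      split_ifs with b'
      · exact S.zero_mem
      have b1 : ¬P ((μ s).1 + 1) (μ s).2 := by rw [hr, (cor s).1]; omega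
      have b2 := anti ((μ s).1 + 1) (t1 w) (by omega)
      rcases redU ((μ s).1 + 1) (μ s).2 (t1 w) (k (t1 w) - 1) b1
        (by rw [hk]; omega) (by rw [hk] at b1; omega) with h | ⟨q, p, hp', hq, h⟩
      · rw [h]; exact S.zero_mem
      · rw [h]; exact ih p q (by omega) hp'
  rintro g (rfl | rfl | ⟨⟨a, b⟩, ⟨i, j⟩, hab, rfl⟩)
  · exact hX
  · exact hY
  rw [nP] at hab
  by_cases hij : P i j
  swap
  · rw [h0 _ _ ((nP (i, j)).2 hij)]; exact S.zero_mem
  by_cases hi : i < a
  · rcases redD a b i j hab hij hi with h | ⟨p, q, hp, -, h⟩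
    · rw [h]; exact S.zero_mem
    · rw [h]; exact hD _ p q le_rfl hp
  · have hj : j < b := by
      have := anti a i (by omega)
      rw [hk] at hab hij
      simp only at hab
      omega
    rcases redU a b i j hab hij hj with h | ⟨q, p, hp, -, h⟩
    · rw [h]; exact S.zero_mem
    · rw [h]; exact hUp _ p q le_rfl hp

end Pool.Agent.P.MP_c2aaf5_co
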