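import Pool.Agent.P.MP_c2aaf5_co.DefG

/-! Identities in the chart. -/

set_option linter.unusedSectionVars false

namespace Pool.Agent.P.MP_c2aaf5_co

open MvPolynomial Finset

namespace GCh1Aux

noncomputable section

variable {K : Type} [Field K] [Algebra ℂ K] {n m : ℕ}

theorem mono_inj {h h' : Fin n → ℕ × ℕ} (e : mono h = mono h') : h = h' := by
  funext i
  have h1 := DFunLike.congr_fun e (Sum.inl i)
  have h2 := DFunLike.congr_fun e (Sum.inr i)
  simp only [mono, Finsupp.equivFunOnFinite_symm_apply_apply, Sum.elim_inl, Sum.elim_inr] at h1 h2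
  exact Prod.ext h1 h2

theorem mono_surj (d : (Fin n ⊕ Fin n) →₀ ℕ) : ∃ h, mono h = d := by
  refine ⟨fun i => (d (Sum.inl i), d (Sum.inr i)), ?_⟩
  ext j
  rcases j with j | j <;> simp [mono]

theorem prod_xm (h : Fin n → ℕ × ℕ) : ∏ i, xm i (h i) = monomial (mono h) (1 : ℂ) := by
  rw [monomial_eq, C_1, one_mul, Finsupp.prod_fintype _ _ (fun _ => pow_zero _),
    Fintype.prod_sum_type]
  simp [xm, mono, prod_mul_distrib]

theorem pol_ind {p : Pol n → Prop} (h0 : ∀ (c : ℂ) (h : Fin n → ℕ × ℕ), p (c • ∏ i, xm i (h i)))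
    (ha : ∀ f g, p f → p g → p (f + g)) (g : Pol n) : p g := by
  refine MvPolynomial.induction_on' g (fun d c => ?_) ha
  obtain ⟨h, rfl⟩ := mono_surj d
  have := h0 c h
  rwa [prod_xm, smul_monomial, smul_eq_mul, mul_one] at this

theorem ev_xm (x y : Fin n → K) (i : Fin n) (h : ℕ × ℕ) : ev x y (xm i h) = pw x y i h := by
  simp [ev, xm, pw]

theorem pw_add (x y : Fin n → K) (i : Fin n) (h e : ℕ × ℕ) :
    pw x y i (h + e) = pw x y i h * pw x y i e := by
  simp only [pw, Prod.fst_add, Prod.snd_add, pow_add]; ring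

theorem det_ne {x y : Fin n → K} (hi : AlgebraicIndependent ℂ (Sum.elim x y)) {μ : Fin n → ℕ × ℕ}
    (hμ : Function.Injective μ) : (Em x y μ).det ≠ 0 := by
  have h1 : (Em x y μ).det = ev x y (Matrix.of fun i u => xm i (μ u) : Matrix _ _ (Pol n)).det := by
    rw [AlgHom.map_det]
    congr 1
    ext i u
    simp [Em, ev_xm]
  rw [h1]
  intro h0
  have h2 : (Matrix.of fun i u => xm i (μ u) : Matrix _ _ (Pol n)).det = 0 :=
    hi (by rw [map_zero]; exact h0)
  rw [← Matrix.det_transpose, Matrix.det_apply] at h2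
  have h3 := congrArg (coeff (mono μ)) h2
  simp only [Matrix.transpose_apply, Matrix.of_apply, prod_xm, coeff_sum, coeff_zero] at h3
  rw [sum_eq_single 1] at h3
  · simp at h3
  · intro σ _ hσ
    have : mono (fun i => μ (σ i)) ≠ mono μ := fun e =>
      hσ (Equiv.ext fun i => hμ (congrFun (mono_inj e) i))
    rw [Units.smul_def, coeff_smul, coeff_monomial, if_neg this, smul_zero]
  · simp

section lin
variable {x y : Fin n → K} {μ : Fin n → ℕ × ℕ}

theorem exp' (hD : (Em x y μ).det ≠ 0) (i : Fin n) (h : ℕ × ℕ) :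
    ∑ u, cc x y μ h u * pw x y i (μ u) = pw x y i h := by
  have : (Em x y μ).mulVec (cc x y μ h) = fun i => pw x y i h := by
    rw [cc, Matrix.mulVec_mulVec, Matrix.mul_nonsing_inv _ hD.isUnit, Matrix.one_mulVec]
  rw [← congrFun this i, Matrix.mulVec, dotProduct]
  exact sum_congr rfl fun u _ => mul_comm _ _

theorem uniq' (hD : (Em x y μ).det ≠ 0) (κ : Fin n → K)
    (h : ∀ i, ∑ u, κ u * pw x y i (μ u) = 0) : κ = 0 := by
  refine Matrix.eq_zero_of_mulVec_eq_zero hD (funext fun i => ?_)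
  rw [Pi.zero_apply, ← h i, Matrix.mulVec, dotProduct]
  exact sum_congr rfl fun u _ => mul_comm _ _

theorem ext' (hD : (Em x y μ).det ≠ 0) (κ κ' : Fin n → K)
    (h : ∀ i, ∑ u, κ u * pw x y i (μ u) = ∑ u, κ' u * pw x y i (μ u)) : κ = κ' := by
  refine sub_eq_zero.1 (uniq' hD _ fun i => ?_)
  simp only [Pi.sub_apply, sub_mul, sum_sub_distrib, h i, sub_self]

theorem self' (hD : (Em x y μ).det ≠ 0) (v u : Fin n) :
    cc x y μ (μ v) u = if v = u then 1 else 0 := by
  refine congrFun (ext' hD (cc x y μ (μ v)) (fun u => if v = u then 1 else 0) fun i => ?_) u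
  rw [exp' hD]
  simp

theorem recu' (hD : (Em x y μ).det ≠ 0) (h e : ℕ × ℕ) (u : Fin n) :
    cc x y μ (h + e) u = ∑ v, cc x y μ h v * cc x y μ (μ v + e) u := by
  refine congrFun (ext' hD (cc x y μ (h + e))
    (fun u => ∑ v, cc x y μ h v * cc x y μ (μ v + e) u) fun i => ?_) u
  rw [exp' hD, pw_add, ← exp' hD i h]
  simp only [sum_mul]
  rw [sum_comm]
  refine sum_congr rfl fun v _ => ?_
  simp only [mul_assoc]
  rw [← mul_sum, exp' hD, pw_add]

theorem mem' (hD : (Em x y μ).det ≠ 0) (h0 : ∃ v, μ v = 0) (h : ℕ × ℕ) (u : Fin n) :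
    cc x y μ h u ∈ Hs x y μ := by
  obtain ⟨a, b⟩ := h
  induction a generalizing u with
  | zero =>
    induction b generalizing u with
    | zero =>
      obtain ⟨v, hv⟩ := h0
      have : ((0, 0) : ℕ × ℕ) = μ v := hv.symm
      rw [this, self' hD]
      split_ifs
      exacts [one_mem _, zero_mem _]
    | succ b ih =>
      have : ((0, b + 1) : ℕ × ℕ) = (0, b) + (0, 1) := rfl
      rw [this, recu' hD]
      exact sum_mem fun v _ => mul_mem (ih v) (Algebra.subset_adjoin ⟨v, u, Or.inr rfl⟩)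
  | succ a ih =>
    have : ((a + 1, b) : ℕ × ℕ) = (a, b) + (1, 0) := rfl
    rw [this, recu' hD]
    exact sum_mem fun v _ => mul_mem (ih v) (Algebra.subset_adjoin ⟨v, u, Or.inl rfl⟩)

theorem iexp (hD : (Em x y μ).det ≠ 0) (i j : Fin n) :
    ∑ u, (Em x y μ)⁻¹ u j * pw x y i (μ u) = if i = j then 1 else 0 := by
  rw [← Matrix.one_apply, ← Matrix.mul_nonsing_inv _ hD.isUnit, Matrix.mul_apply]
  exact sum_congr rfl fun u _ => mul_comm _ _

theorem det_pw (hD : (Em x y μ).det ≠ 0) (h : Fin n → ℕ × ℕ) :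
    (Matrix.of fun i j => pw x y i (h j)).det =
      (Em x y μ).det * (Matrix.of fun i u => cc x y μ (h i) u).det := by
  rw [← Matrix.det_transpose (Matrix.of fun i u => cc x y μ (h i) u), ← Matrix.det_mul]
  congr 1
  ext i j
  rw [Matrix.of_apply, ← exp' hD, Matrix.mul_apply]
  exact sum_congr rfl fun u _ => mul_comm _ _

theorem det_mem (S : Subalgebra ℂ K) (A : Matrix (Fin n) (Fin n) K) (h : ∀ i j, A i j ∈ S) :
    A.det ∈ S := by
  rw [Matrix.det_apply']
  exact sum_mem fun σ _ => mul_mem (intCast_mem _ _) (prod_mem fun i _ => h _ _)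

theorem id_mem {O : Subalgebra ℂ K} {S : Set K} {a g : K} (ha : a ∈ O) (hg : g ∈ S) :
    a * g ∈ Id O S :=
  Submodule.mul_mem_mul ha (Submodule.subset_span hg)

theorem det_cong (hD : (Em x y μ).det ≠ 0) (hμ : Function.Injective μ) (h0 : ∃ v, μ v = 0)
    (h : Fin n → ℕ × ℕ) : (Matrix.of fun i u => cc x y μ (h i) u).det -
      algebraMap ℂ K (Matrix.of fun i j => if h i = μ j then (1 : ℂ) else 0).det ∈
      Id (Hs x y μ) (gm x y μ) := by
  by_cases hh : ∀ i, ∃ v, μ v = h i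
  · rw [RingHom.map_det]
    have : (Matrix.of fun i u => cc x y μ (h i) u) =
        (algebraMap ℂ K).mapMatrix (Matrix.of fun i j => if h i = μ j then (1 : ℂ) else 0) := by
      ext i u
      obtain ⟨v, hv⟩ := hh i
      simp [← hv, self' hD, hμ.eq_iff, apply_ite (algebraMap ℂ K)]
    rw [this, sub_self]
    exact zero_mem _
  · push Not at hh
    obtain ⟨i0, hi⟩ := hh
    rw [Matrix.det_eq_zero_of_row_eq_zero (A := Matrix.of fun i j =>
      if h i = μ j then (1 : ℂ) else 0) i0 (fun j => by simp [(hi j).symm]), map_zero, sub_zero,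
      ← Matrix.det_transpose, Matrix.det_apply']
    refine sum_mem fun σ _ => ?_
    rw [← prod_erase_mul _ _ (mem_univ i0), ← mul_assoc]
    exact id_mem (mul_mem (intCast_mem _ _) (prod_mem fun i _ => mem' hD h0 _ _))
      ⟨h i0, σ i0, hi, rfl⟩

theorem cram' (hD : (Em x y μ).det ≠ 0) (h : ℕ × ℕ) (u : Fin n) :
    cc x y μ h u * (Em x y μ).det =
      (Matrix.of fun i j => pw x y i (Function.update μ u h j)).det := by
  have := congrFun (Matrix.det_smul_inv_mulVec_eq_cramer (Em x y μ) (fun i => pw x y i h)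
    hD.isUnit) u
  rw [Pi.smul_apply, smul_eq_mul, Matrix.cramer_apply] at this
  rw [mul_comm, cc, this]
  congr 1
  ext i j
  by_cases hj : j = u
  · simp [hj]
  · simp [hj, Matrix.updateCol_ne, Em]

theorem prod_mem_fin (hD : (Em x y μ).det ≠ 0) (h0 : ∃ v, μ v = 0) (h : Fin n → ℕ × ℕ) :
    ∏ i, pw x y i (h i) ∈
      Id (Hs x y μ) (Set.range fun u : Fin n → Fin n => ∏ i, pw x y i (μ (u i))) := by
  have : ∏ i, pw x y i (h i) = ∏ i, ∑ u, cc x y μ (h i) u * pw x y i (μ u) :=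
    prod_congr rfl fun i _ => (exp' hD i _).symm
  rw [this, Fintype.prod_sum]
  refine sum_mem fun u _ => ?_
  rw [prod_mul_distrib]
  exact id_mem (prod_mem fun i _ => mem' hD h0 _ _) ⟨u, rfl⟩

theorem fin0' (hD : (Em x y μ).det ≠ 0) (h0 : ∃ v, μ v = 0) :
    Subalgebra.toSubmodule (P0 x y μ) ≤
      Id (Hs x y μ) (Set.range fun u : Fin n → Fin n => ∏ i, pw x y i (μ (u i))) := by
  have h1 : Subalgebra.toSubmodule (ev x y).range ≤
      Id (Hs x y μ) (Set.range fun u : Fin n → Fin n => ∏ i, pw x y i (μ (u i))) := by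
    rintro _ ⟨g, rfl⟩
    refine pol_ind (p := fun g => ev x y g ∈ Id (Hs x y μ)
      (Set.range fun u : Fin n → Fin n => ∏ i, pw x y i (μ (u i)))) (fun c h => ?_)
      (fun f g hf hg => by rw [map_add]; exact add_mem hf hg) g
    simp only [map_smul, map_prod, ev_xm]
    exact Submodule.smul_mem _ _ (prod_mem_fin hD h0 h)
  rw [P0, ← Subalgebra.mul_toSubmodule]
  refine (mul_le_mul_right h1 _).trans ?_
  rw [Id, ← mul_assoc, Subalgebra.mul_toSubmodule, sup_idem]

theorem int' (hD : (Em x y μ).det ≠ 0) (h0 : ∃ v, μ v = 0) (i : Fin n) (e : ℕ × ℕ) :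
    IsIntegral (Hs x y μ) (pw x y i e) := by
  have key : ∀ h, pw x y i h ∈ Submodule.span (Hs x y μ) (Set.range fun u => pw x y i (μ u)) := by
    intro h
    rw [← exp' hD i h]
    exact sum_mem fun u _ => Submodule.smul_mem _ (⟨_, mem' hD h0 h u⟩ : Hs x y μ)
      (Submodule.subset_span ⟨u, rfl⟩)
  refine isIntegral_of_smul_mem_submodule
    (Submodule.span (Hs x y μ) (Set.range fun u => pw x y i (μ u))) ?_
    (Submodule.fg_span (Set.finite_range _)) _ fun v hv => ?_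
  · intro hb
    have := key 0
    rw [hb, Submodule.mem_bot] at this
    simp [pw] at this
  · induction hv using Submodule.span_induction with
    | mem v hv =>
      obtain ⟨u, rfl⟩ := hv
      rw [smul_eq_mul, ← pw_add]
      exact key _
    | zero => simp
    | add a b _ _ ha hb => rw [smul_add]; exact add_mem ha hb
    | smul a b _ hb => rw [smul_comm]; exact Submodule.smul_mem _ _ hb

variable {ρ : Equiv.Perm (Fin n) →* (K ≃ₐ[ℂ] K)}

theorem rpw (hG : Gen x y ρ) (σ : Equiv.Perm (Fin n)) (i : Fin n) (h : ℕ × ℕ) :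
    ρ σ (pw x y i h) = pw x y (σ i) h := by
  simp [pw, hG.rx, hG.ry]

theorem rev' (hG : Gen x y ρ) (σ : Equiv.Perm (Fin n)) (g : Pol n) :
    ρ σ (ev x y g) = ev x y (act σ g) := by
  have : (ρ σ : K →ₐ[ℂ] K).comp (ev x y) = (ev x y).comp (act σ) := by
    ext j
    rcases j with j | j <;> simp [ev, act, hG.rx, hG.ry]
  exact DFunLike.congr_fun this g

theorem rdet' (hG : Gen x y ρ) (σ : Equiv.Perm (Fin n)) :
    ρ σ (Em x y μ).det = ((Equiv.Perm.sign σ : ℤ) : K) * (Em x y μ).det := by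
  rw [AlgEquiv.map_det, ← Matrix.det_permute]
  congr 1
  ext i u
  simp [Em, rpw hG]

theorem rcc (hG : Gen x y ρ) (hD : (Em x y μ).det ≠ 0) (σ : Equiv.Perm (Fin n)) (h : ℕ × ℕ)
    (u : Fin n) : ρ σ (cc x y μ h u) = cc x y μ h u := by
  refine congrFun (ext' hD (fun u => ρ σ (cc x y μ h u)) (cc x y μ h) fun i => ?_) u
  obtain ⟨i, rfl⟩ := σ.surjective i
  rw [exp' hD, ← rpw hG, ← exp' hD i h, map_sum]
  simp only [map_mul, rpw hG]

theorem rinv (hG : Gen x y ρ) (hD : (Em x y μ).det ≠ 0) (σ : Equiv.Perm (Fin n)) (u j : Fin n) :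
    ρ σ ((Em x y μ)⁻¹ u j) = (Em x y μ)⁻¹ u (σ j) := by
  refine congrFun (ext' hD (fun u => ρ σ ((Em x y μ)⁻¹ u j))
    (fun u => (Em x y μ)⁻¹ u (σ j)) fun i => ?_) u
  obtain ⟨i, rfl⟩ := σ.surjective i
  have := congrArg (ρ σ) (iexp hD i j)
  rw [map_sum] at this
  simp only [map_mul, rpw hG] at this
  rw [iexp hD, this]
  by_cases hij : i = j <;> simp [hij]

theorem rO' (hG : Gen x y ρ) (hD : (Em x y μ).det ≠ 0) (σ : Equiv.Perm (Fin n)) :
    Os x y μ ≤ AlgHom.equalizer (ρ σ : K →ₐ[ℂ] K) (AlgHom.id ℂ K) := by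
  have hH : Hs x y μ ≤ AlgHom.equalizer (ρ σ : K →ₐ[ℂ] K) (AlgHom.id ℂ K) := by
    refine Algebra.adjoin_le ?_
    rintro _ ⟨v, u, rfl | rfl⟩ <;> exact rcc hG hD σ _ _
  refine Algebra.adjoin_le ?_
  rintro g (hg | ⟨b, hb, -, rfl⟩)
  · exact hH hg
  · have : ρ σ b = b := hH hb
    change ρ σ b⁻¹ = b⁻¹
    rw [map_inv₀, this]

theorem rP' (hG : Gen x y ρ) (hD : (Em x y μ).det ≠ 0) (σ : Equiv.Perm (Fin n)) :
    Pp x y μ ≤ (Pp x y μ).comap (ρ σ : K →ₐ[ℂ] K) := by
  refine sup_le (fun r hr => ?_) ?_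
  · have : ρ σ r = r := rO' hG hD σ hr
    change ρ σ r ∈ Pp x y μ
    rw [this]
    exact (le_sup_left : Os x y μ ≤ Pp x y μ) hr
  · rintro _ ⟨g, rfl⟩
    change ρ σ (ev x y g) ∈ Pp x y μ
    rw [rev' hG]
    exact (le_sup_right : (ev x y).range ≤ Pp x y μ) ⟨_, rfl⟩

theorem al_apply (g : K) : al x y ρ μ g =
    (Em x y μ).det⁻¹ * ∑ σ : Equiv.Perm (Fin n), ((Equiv.Perm.sign σ : ℤ) : K) * ρ σ g := by
  simp [al, Algebra.smul_def, mul_sum]

theorem alp' (hG : Gen x y ρ) (hD : (Em x y μ).det ≠ 0) (h : Fin n → ℕ × ℕ) :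
    al x y ρ μ (∏ i, pw x y i (h i)) = (Matrix.of fun i u => cc x y μ (h i) u).det := by
  rw [al_apply, inv_mul_eq_iff_eq_mul₀ hD, ← det_pw hD, Matrix.det_apply']
  simp only [map_prod, rpw hG, Matrix.of_apply]

theorem alH' (hA : LamA) (hG : Gen x y ρ) (hD : (Em x y μ).det ≠ 0) (hμ : Function.Injective μ)
    (h0 : ∃ v, μ v = 0) (g : Pol n) : al x y ρ μ (ev x y g) ∈ Hs x y μ ∧
    al x y ρ μ (ev x y g) - algebraMap ℂ K (lam μ g) ∈ Id (Hs x y μ) (gm x y μ) := by
  refine pol_ind (p := fun g => al x y ρ μ (ev x y g) ∈ Hs x y μ ∧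
    al x y ρ μ (ev x y g) - algebraMap ℂ K (lam μ g) ∈ Id (Hs x y μ) (gm x y μ))
    (fun c h => ?_) (fun f g hf hg => ?_) g
  · simp only [map_smul, map_prod, ev_xm, alp' hG hD, hA.prod]
    refine ⟨Subalgebra.smul_mem _ (det_mem _ _ fun i j => mem' hD h0 _ _) _, ?_⟩
    rw [smul_eq_mul, map_mul, ← Algebra.smul_def, ← smul_sub]
    exact Submodule.smul_mem _ _ (det_cong hD hμ h0 h)
  · simp only [map_add]
    refine ⟨add_mem hf.1 hg.1, ?_⟩
    rw [add_sub_add_comm]
    exact add_mem hf.2 hg.2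

end lin

section zero
variable {x y : Fin (m + 1) → K} {μ : Fin (m + 1) → ℕ × ℕ}
  {ρ : Equiv.Perm (Fin (m + 1)) →* (K ≃ₐ[ℂ] K)}

theorem xmul' (hD : (Em x y μ).det ≠ 0) (h : ℕ × ℕ) (u : Fin (m + 1)) :
    pw x y 0 h * xi x y μ u = ∑ v, cc x y μ (μ v + h) u * xi x y μ v := by
  refine congrFun (ext' hD (fun u => pw x y 0 h * xi x y μ u)
    (fun u => ∑ v, cc x y μ (μ v + h) u * xi x y μ v) fun i => ?_) u
  have h1 : ∑ u, (∑ v, cc x y μ (μ v + h) u * xi x y μ v) * pw x y i (μ u) =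
      pw x y i h * ∑ v, xi x y μ v * pw x y i (μ v) := by
    simp only [sum_mul, mul_sum]
    rw [sum_comm]
    refine sum_congr rfl fun v _ => ?_
    simp only [mul_right_comm _ (xi x y μ v)]
    rw [← sum_mul, exp' hD, pw_add]
    ring
  rw [h1]
  simp only [mul_assoc]
  rw [← mul_sum]
  simp only [xi, iexp hD]
  split_ifs with hi
  · rw [hi]
  · simp

theorem am_apply (g : K) : am x y ρ μ g =
    (Em x y μ).det⁻¹ * ∑ σ : Equiv.Perm (Fin m), ((Equiv.Perm.sign σ : ℤ) : K) * ρ (lift0 σ) g := by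
  simp [am, Algebra.smul_def, mul_sum]

theorem amx' (hG : Gen x y ρ) (hD : (Em x y μ).det ≠ 0) (g : K) :
    am x y ρ μ g = ∑ u, xi x y μ u * al x y ρ μ (pw x y 0 (μ u) * g) := by
  have h1 : ∑ u, xi x y μ u * al x y ρ μ (pw x y 0 (μ u) * g) =
      (Em x y μ).det⁻¹ * ∑ σ : Equiv.Perm (Fin (m + 1)), ((Equiv.Perm.sign σ : ℤ) : K) * ρ σ g *
        ∑ u, xi x y μ u * pw x y (σ 0) (μ u) := by
    simp only [al_apply, map_mul, rpw hG, mul_sum]
    rw [sum_comm]
    exact sum_congr rfl fun σ _ => sum_congr rfl fun u _ => by ring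
  rw [h1, am_apply, ← Equiv.Perm.decomposeFin.symm.sum_comp, Fintype.sum_prod_type,
    sum_eq_single (0 : Fin (m + 1))]
  · simp [xi, iexp hD, lift0, Equiv.Perm.decomposeFin.symm_sign]
  · intro p _ hp
    simp [xi, iexp hD, hp]
  · simp

theorem am_prod (hG : Gen x y ρ) (h : Fin m → ℕ × ℕ) :
    am x y ρ μ (∏ i, pw x y (Fin.succ i) (h i)) =
      (Matrix.of fun i j => pw x y (Fin.succ i) (h j)).det / (Em x y μ).det := by
  rw [am_apply, div_eq_inv_mul]
  congr 1
  rw [Matrix.det_apply']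
  simp [map_prod, rpw hG, lift0]

theorem cramx' (hD : (Em x y μ).det ≠ 0) (u : Fin (m + 1)) : xi x y μ u * (Em x y μ).det =
    (-1) ^ (u : ℕ) * (Matrix.of fun i j => pw x y (Fin.succ i) (rm μ u j)).det := by
  rw [xi, Matrix.inv_def, Matrix.smul_apply, smul_eq_mul, Ring.inverse_eq_inv, mul_comm,
    mul_inv_cancel_left₀ hD, Matrix.adjugate_fin_succ_eq_det_submatrix]
  simp only [Fin.val_zero, zero_add]
  rfl

theorem detx' (hG : Gen x y ρ) (hD : (Em x y μ).det ≠ 0) (h0 : ∃ v, μ v = 0)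
    (h : Fin m → ℕ × ℕ) : (Matrix.of fun i j => pw x y (Fin.succ i) (h j)).det / (Em x y μ).det ∈
    Id (Hs x y μ) (Set.range (xi x y μ)) := by
  rw [← am_prod hG, amx' hG hD]
  refine sum_mem fun u _ => ?_
  have : pw x y 0 (μ u) * ∏ i, pw x y (Fin.succ i) (h i) =
      ∏ i, pw x y i ((Fin.cons (μ u) h : Fin (m + 1) → ℕ × ℕ) i) := by
    rw [Fin.prod_univ_succ]
    rfl
  rw [this, alp' hG hD, mul_comm]
  exact id_mem (det_mem _ _ fun i j => mem' hD h0 _ _) ⟨u, rfl⟩

end zero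

end

end GCh1Aux

open GCh1Aux in
theorem ch1 (hA : LamA) : S_Ch1 := by
  intro K _ _ m x y ρ μ hG hμ
  have hD := det_ne hG.ind hμ.1
  have h0 : ∃ v, μ v = 0 := hμ.2 0 0 bot_le
  exact
    { det := hD
      exp := exp' hD
      uniq := uniq' hD
      self := self' hD
      recu := recu' hD
      mem := mem' hD h0
      xexp := fun i => iexp hD i 0
      xmul := xmul' hD
      rev := rev' hG
      rdet := rdet' hG
      rO := fun σ r hr => rO' hG hD σ hr
      rP := fun σ r hr => rP' hG hD σ hr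
      rR := fun σ hσ r hr => (show Rs x y μ ≤ AlgHom.equalizer (ρ σ : K →ₐ[ℂ] K) (AlgHom.id ℂ K) from
        sup_le (rO' hG hD σ) (Algebra.adjoin_le (by
          rintro _ (rfl | rfl)
          · exact (hG.rx σ 0).trans (by rw [hσ]; rfl)
          · exact (hG.ry σ 0).trans (by rw [hσ]; rfl)))) hr
      rxi := fun σ u => rinv hG hD σ u 0
      trace := fun h u => by
        simp only [map_mul, rpw hG, xi, rinv hG hD, Equiv.swap_apply_left]
        rw [cc, Matrix.mulVec, dotProduct]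
        exact sum_congr rfl fun i _ => mul_comm _ _
      alp := alp' hG hD
      alH := alH' hA hG hD hμ.1 h0
      amx := fun g => amx' hG hD _
      cram := fun h u => ⟨_, cram' hD h u⟩
      cramx := cramx' hD
      detH := fun h => by
        rw [det_pw hD, mul_div_cancel_left₀ _ hD]
        exact det_mem _ _ fun i j => mem' hD h0 _ _
      detx := detx' hG hD h0
      fin0 := fin0' hD h0
      int := fun j => by
        rcases j with j | j
        · simpa [pw] using int' hD h0 j (1, 0)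
        · simpa [pw] using int' hD h0 j (0, 1) }

end Pool.Agent.P.MP_c2aaf5_co
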