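import Pool.Agent.P.MP_c2aaf5_co.DefG

/-! The system of forms in the chart. -/

set_option linter.unusedSectionVars false

namespace Pool.Agent.P.MP_c2aaf5_co

open MvPolynomial Finset

noncomputable section

namespace GCh2Aux

variable {K : Type} [Field K] [Algebra ℂ K]

theorem mem_Id {O : Subalgebra ℂ K} {S : Set K} {g : K} (hg : g ∈ S) : g ∈ Id O S := by
  have := Submodule.mul_mem_mul (M := Subalgebra.toSubmodule O) O.one_mem
    (Submodule.subset_span (R := ℂ) hg)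
  rwa [one_mul] at this

theorem Id_mono {O O' : Subalgebra ℂ K} {S S' : Set K} (h : O ≤ O') (h' : S ⊆ S') :
    Id O S ≤ Id O' S' :=
  mul_le_mul' (fun _ hx => h hx) (Submodule.span_mono h')

theorem mul_stab {O : Subalgebra ℂ K} {M V : Submodule ℂ K} (hM : ∀ a ∈ O, ∀ g ∈ M, a * g ∈ M)
    {r : K} (hr : r ∈ O) {v : K} (hv : v ∈ M * V) : r * v ∈ M * V := by
  refine Submodule.mul_induction_on hv (fun a ha b hb => ?_) fun a b ha hb => ?_
  · rw [← mul_assoc]
    exact Submodule.mul_mem_mul (hM r hr a ha) hb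
  · rw [mul_add]
    exact add_mem ha hb

theorem stab_right {O : Subalgebra ℂ K} {M : Submodule ℂ K} {r : K} (hr : r ∈ O) {v : K}
    (hv : v ∈ M * Subalgebra.toSubmodule O) : r * v ∈ M * Subalgebra.toSubmodule O := by
  rw [mul_comm M] at hv ⊢
  exact mul_stab (O := O) (fun a ha g hg => O.mul_mem ha hg) hr hv

/-- Nakayama inside the field -/
theorem nak {O : Subalgebra ℂ K} {M W : Submodule ℂ K} (h : LocD O M)
    (hW : ∀ a ∈ O, ∀ w ∈ W, a * w ∈ W) {ι : Type} [Finite ι] (ξ : ι → K)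
    (hξ : ∀ i, ξ i ∈ W ⊔ M * Submodule.span ℂ (Set.range ξ)) (i : ι) : ξ i ∈ W := by
  let I : Ideal O :=
    { carrier := {r | r.1 ∈ M}
      add_mem' := fun ha hb => M.add_mem ha hb
      zero_mem' := M.zero_mem
      smul_mem' := fun a r hr => h.mul a.1 a.2 r.1 hr }
  let N : Submodule O K :=
    { carrier := W
      add_mem' := fun ha hb => W.add_mem ha hb
      zero_mem' := W.zero_mem
      smul_mem' := fun a r hr => hW a.1 a.2 r hr }
  have hI : I ≤ Ideal.jacobson ⊥ := fun r hr => by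
    rw [Ideal.mem_jacobson_bot]
    intro s
    have h1 : (r * s + 1 : O).1 ∉ M := fun e => h.one (by
      have h2 := M.sub_mem e (h.mul s.1 s.2 r.1 hr)
      rwa [show (r * s + 1 : O).1 - s.1 * r.1 = 1 by push_cast; ring] at h2)
    have h0 : (r * s + 1 : O).1 ≠ 0 := fun e => h1 (e ▸ M.zero_mem)
    exact IsUnit.of_mul_eq_one ⟨_, h.inv _ (r * s + 1).2 h1⟩ (Subtype.ext (mul_inv_cancel₀ h0))
  have hle : Submodule.span O (Set.range ξ) ≤ N := by
    refine Submodule.le_of_le_smul_of_le_jacobson_bot (Submodule.fg_span (Set.finite_range ξ)) hI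
      (Submodule.span_le.2 ?_)
    rintro _ ⟨j, rfl⟩
    obtain ⟨w, hw, v, hv, e⟩ := Submodule.mem_sup.1 (hξ j)
    refine Submodule.mem_sup.2 ⟨w, hw, v, ?_, e⟩
    refine Submodule.mul_induction_on hv (fun a ha b hb => ?_) fun a b ha hb => add_mem ha hb
    exact Submodule.smul_mem_smul (r := (⟨a, h.le a ha⟩ : O)) ha
      (Submodule.span_le_restrictScalars ℂ O _ hb)
  exact hle (Submodule.subset_span ⟨i, rfl⟩)

variable {m : ℕ} {x y : Fin (m + 1) → K} {ρ : Equiv.Perm (Fin (m + 1)) →* (K ≃ₐ[ℂ] K)}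
  {μ : Fin (m + 1) → ℕ × ℕ}

theorem HO : Hs x y μ ≤ Os x y μ := fun _ hg => Algebra.subset_adjoin (Or.inl hg)

theorem OR : Os x y μ ≤ Rs x y μ := le_sup_left

theorem x0R : x 0 ∈ Rs x y μ :=
  (le_sup_right : _ ≤ Rs x y μ) (Algebra.subset_adjoin (Or.inl rfl))

theorem y0R : y 0 ∈ Rs x y μ :=
  (le_sup_right : _ ≤ Rs x y μ) (Algebra.subset_adjoin (Or.inr rfl))

theorem pwR (h : ℕ × ℕ) : pw x y 0 h ∈ Rs x y μ := mul_mem (pow_mem x0R _) (pow_mem y0R _)

theorem evP (w : Pol (m + 1)) : ev x y w ∈ Pp x y μ := (le_sup_right : _ ≤ Pp x y μ) ⟨w, rfl⟩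

theorem pw_add (i : Fin (m + 1)) (h e : ℕ × ℕ) : pw x y i (h + e) = pw x y i h * pw x y i e := by
  simp only [pw, Prod.fst_add, Prod.snd_add, pow_add]
  ring

theorem pw10 (i : Fin (m + 1)) : pw x y i (1, 0) = x i := by simp [pw]

theorem pw01 (i : Fin (m + 1)) : pw x y i (0, 1) = y i := by simp [pw]

theorem ev_xm (i : Fin (m + 1)) (h : ℕ × ℕ) : ev x y (xm i h) = pw x y i h := by
  simp [ev, xm, pw]

theorem xi_step (hμ : IsDiag μ) (h1 : Ch1 x y ρ μ) {u u' : Fin (m + 1)} {e : ℕ × ℕ}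
    (he : pw x y 0 e ∈ mR x y μ) (hu : μ u' = μ u + e) :
    xi x y μ u ∈ mR x y μ * Submodule.span ℂ (Set.range (xi x y μ)) := by
  have h2 := h1.xmul e u'
  rw [← Finset.add_sum_erase _ _ (mem_univ u), ← hu, h1.self, if_pos rfl, one_mul] at h2
  rw [← sub_eq_iff_eq_add.2 h2]
  refine sub_mem (Submodule.mul_mem_mul he (Submodule.subset_span ⟨u', rfl⟩))
    (sum_mem fun v hv => Submodule.mul_mem_mul ?_ (Submodule.subset_span ⟨v, rfl⟩))
  by_cases hw : ∃ w, μ w = μ v + e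
  · obtain ⟨w, hw⟩ := hw
    rw [← hw, h1.self, if_neg]
    · exact zero_mem _
    · rintro rfl
      exact (mem_erase.1 hv).1 (hμ.1 (add_right_cancel (hw.symm.trans hu)))
  · exact mem_Id (Or.inl ⟨_, u', fun w e => hw ⟨w, e⟩, rfl⟩)

theorem xi_non (hμ : IsDiag μ) (h1 : Ch1 x y ρ μ) {u : Fin (m + 1)} (hu : ¬IsCor μ u) :
    xi x y μ u ∈ mR x y μ * Submodule.span ℂ (Set.range (xi x y μ)) := by
  simp only [IsCor, not_forall] at hu
  obtain ⟨v, hv, hne⟩ := hu
  have hne' : μ v ≠ μ u := fun e => hne (hμ.1 e)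
  obtain ⟨a1, a2⟩ := Prod.le_def.1 hv
  by_cases e : (μ u).1 < (μ v).1
  · obtain ⟨u', hu'⟩ := hμ.2 v (μ u + (1, 0)) (Prod.le_def.2 ⟨Nat.succ_le_of_lt e, a2⟩)
    exact xi_step hμ h1 (pw10 (x := x) (y := y) 0 ▸ mem_Id (Or.inr (Or.inl rfl))) hu'
  · have e2 : (μ u).2 < (μ v).2 := by
      by_contra e2
      exact hne' (Prod.ext (by omega) (by omega))
    obtain ⟨u', hu'⟩ := hμ.2 v (μ u + (0, 1)) (Prod.le_def.2 ⟨a1, Nat.succ_le_of_lt e2⟩)
    exact xi_step hμ h1 (pw01 (x := x) (y := y) 0 ▸ mem_Id (Or.inr (Or.inr rfl))) hu'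

theorem xi_all (hμ : IsDiag μ) (h1 : Ch1 x y ρ μ) (hl : LocD (Rs x y μ) (mR x y μ))
    (u : Fin (m + 1)) : xi x y μ u ∈ Vx (xc x y μ) * Subalgebra.toSubmodule (Rs x y μ) := by
  refine nak hl (fun a ha w hw => stab_right ha hw) (xi x y μ) (fun v => ?_) u
  by_cases hv : IsCor μ v
  · refine Submodule.mem_sup_left ?_
    have := Submodule.mul_mem_mul (M := Vx (xc x y μ))
      (N := Subalgebra.toSubmodule (Rs x y μ)) (Submodule.subset_span ⟨⟨v, hv⟩, rfl⟩)
      (Rs x y μ).one_mem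
    rwa [mul_one] at this
  · exact Submodule.mem_sup_right (xi_non hμ h1 hv)

theorem xiV (hμ : IsDiag μ) (h1 : Ch1 x y ρ μ) (hl : LocD (Rs x y μ) (mR x y μ))
    (u : Fin (m + 1)) (hu : ¬IsCor μ u) : xi x y μ u ∈ mR x y μ * Vx (xc x y μ) := by
  have h2 : Submodule.span ℂ (Set.range (xi x y μ)) ≤
      Vx (xc x y μ) * Subalgebra.toSubmodule (Rs x y μ) := by
    rw [Submodule.span_le]
    rintro _ ⟨v, rfl⟩
    exact xi_all hμ h1 hl v
  have h3 := mul_le_mul' (le_refl (mR x y μ)) h2 (xi_non hμ h1 hu)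
  rw [← mul_assoc] at h3
  refine Submodule.mul_induction_on h3 (fun a ha b hb => ?_) fun a b ha hb => add_mem ha hb
  rw [mul_comm a]
  exact mul_stab hl.mul hb ha

theorem sock_step (h1 : Ch1 x y ρ μ) {s : Fin (m + 1)} (hs : IsCor μ s) {e : ℕ × ℕ} (he : e ≠ 0) :
    pw x y 0 (μ s) * pw x y 0 e ∈ mO x y μ * Subalgebra.toSubmodule (Rs x y μ) := by
  rw [← pw_add, ← h1.exp]
  refine sum_mem fun u _ => Submodule.mul_mem_mul (mem_Id ⟨_, u, fun v hv => ?_, rfl⟩) (pwR _)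
  have h2 := hs v (hv ▸ le_self_add)
  rw [h2] at hv
  exact he (left_eq_add.1 hv)

theorem sock (h1 : Ch1 x y ρ μ) (s : Fin (m + 1)) (hs : IsCor μ s) (r : K) (hr : r ∈ mR x y μ) :
    pw x y 0 (μ s) * r ∈ mO x y μ * Subalgebra.toSubmodule (Rs x y μ) := by
  refine Submodule.mul_induction_on hr (fun a ha b hb => ?_) fun a b ha hb => ?_
  · rw [mul_left_comm]
    refine stab_right ha ?_
    induction hb using Submodule.span_induction with
    | mem g hg =>
      rcases hg with hg | rfl | rfl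
      · rw [mul_comm _ g]
        exact Submodule.mul_mem_mul (mem_Id hg) (pwR _)
      · exact pw10 (x := x) (y := y) 0 ▸ sock_step h1 hs (by simp)
      · exact pw01 (x := x) (y := y) 0 ▸ sock_step h1 hs (by simp)
    | zero => simp
    | add g g' _ _ hg hg' => rw [mul_add]; exact add_mem hg hg'
    | smul c g _ hg => rw [mul_smul_comm]; exact Submodule.smul_mem _ c hg
  · rw [mul_add]
    exact add_mem ha hb

theorem al_mul {r : K} (hr : ∀ σ, ρ σ r = r) (g : K) : al x y ρ μ (r * g) = r * al x y ρ μ g := by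
  simp only [al, LinearMap.comp_apply, LinearMap.sum_apply, LinearMap.smul_apply,
    AlgEquiv.toLinearMap_apply, LinearMap.mulLeft_apply, map_mul, hr, ← mul_smul_comm,
    ← Finset.mul_sum]
  ring

theorem am_mul {r : K} (hr : ∀ σ, ρ (lift0 σ) r = r) (g : K) :
    am x y ρ μ (r * g) = r * am x y ρ μ g := by
  simp only [am, LinearMap.comp_apply, LinearMap.sum_apply, LinearMap.smul_apply,
    AlgEquiv.toLinearMap_apply, LinearMap.mulLeft_apply, map_mul, hr, ← mul_smul_comm,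
    ← Finset.mul_sum]
  ring

theorem lift0_zero (σ : Equiv.Perm (Fin m)) : lift0 σ 0 = 0 :=
  Equiv.Perm.decomposeFin_symm_apply_zero 0 σ

theorem alP (h1 : Ch1 x y ρ μ) (g : K) (hg : g ∈ Pp x y μ) : al x y ρ μ g ∈ Os x y μ := by
  have h2 : g ∈ Subalgebra.toSubmodule (Os x y μ) * Subalgebra.toSubmodule (ev x y).range := by
    rwa [Subalgebra.mul_toSubmodule]
  refine Submodule.mul_induction_on h2 (fun a ha b hb => ?_) fun a b ha hb => ?_
  · obtain ⟨w, rfl⟩ := hb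
    rw [al_mul fun σ => h1.rO σ a ha]
    exact mul_mem ha (HO (h1.alH w).1)
  · rw [map_add]
    exact add_mem ha hb

theorem up_X (j : Fin m ⊕ Fin m) : up m (X j) = X (Sum.map Fin.succ Fin.succ j) := rename_X _ _

theorem ev_X (j : Fin (m + 1) ⊕ Fin (m + 1)) : ev x y (X j) = Sum.elim x y j := aeval_X _ _

theorem idx_cases (j : Fin (m + 1) ⊕ Fin (m + 1)) :
    j = Sum.inl 0 ∨ j = Sum.inr 0 ∨ ∃ i : Fin m ⊕ Fin m, j = Sum.map Fin.succ Fin.succ i := by
  rcases j with j | j <;> rcases Fin.eq_zero_or_eq_succ j with rfl | ⟨i, rfl⟩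
  · exact Or.inl rfl
  · exact Or.inr (Or.inr ⟨Sum.inl i, rfl⟩)
  · exact Or.inr (Or.inl rfl)
  · exact Or.inr (Or.inr ⟨Sum.inr i, rfl⟩)

theorem surj0 (w : Pol (m + 1)) : ∃ w', ev x y w - ev x y (up m w') ∈
    mR x y μ * Subalgebra.toSubmodule (Pp x y μ) := by
  induction w using MvPolynomial.induction_on with
  | C c => exact ⟨C c, by rw [up, rename_C, sub_self]; exact zero_mem _⟩
  | add p q hp hq =>
    obtain ⟨p', hp⟩ := hp
    obtain ⟨q', hq⟩ := hq
    refine ⟨p' + q', ?_⟩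
    rw [map_add, map_add, map_add, add_sub_add_comm]
    exact add_mem hp hq
  | mul_X p j hp =>
    rcases idx_cases j with rfl | rfl | ⟨i, rfl⟩
    · refine ⟨0, ?_⟩
      rw [map_zero, map_zero, sub_zero, map_mul (ev x y), mul_comm (ev x y p), ev_X]
      exact Submodule.mul_mem_mul (mem_Id (Or.inr (Or.inl rfl))) (evP p)
    · refine ⟨0, ?_⟩
      rw [map_zero, map_zero, sub_zero, map_mul (ev x y), mul_comm (ev x y p), ev_X]
      exact Submodule.mul_mem_mul (mem_Id (Or.inr (Or.inr rfl))) (evP p)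
    · obtain ⟨p', hp⟩ := hp
      refine ⟨p' * X i, ?_⟩
      rw [map_mul (up m), up_X, map_mul (ev x y), map_mul (ev x y), ← sub_mul,
        mul_comm (ev x y p - _)]
      exact stab_right (evP _) hp

theorem P_le : Pp x y μ ≤ Rs x y μ ⊔ ((ev x y).comp (up m)).range := by
  refine sup_le (OR.trans le_sup_left) ?_
  rw [ev, ← Algebra.adjoin_range_eq_range_aeval, Algebra.adjoin_le_iff]
  rintro _ ⟨j, rfl⟩
  rcases idx_cases j with rfl | rfl | ⟨i, rfl⟩
  · exact (le_sup_left : Rs x y μ ≤ _) x0R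
  · exact (le_sup_left : Rs x y μ ≤ _) y0R
  · refine (le_sup_right : _ ≤ Rs x y μ ⊔ _) ⟨X i, ?_⟩
    change aeval _ (up m (X i)) = _
    rw [up_X, aeval_X]

theorem amx' (h1 : Ch1 x y ρ μ) (w : Pol m) : am x y ρ μ (ev x y (up m w)) =
    ∑ u, xi x y μ u * al x y ρ μ (ev x y (xm 0 (μ u) * up m w)) := by
  simp only [h1.amx, map_mul, ev_xm]

theorem forms (hμ : IsDiag μ) (h1 : Ch1 x y ρ μ) (h2 : Ch2a x y μ) :
    Forms (xc x y μ) (Rs x y μ) (mR x y μ) (Pp x y μ) ((ev x y).comp (up m)) (am x y ρ μ)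
      (fun t => beta μ t) := by
  classical
  have hl := h2.core.loc
  have hlin : ∀ r ∈ Rs x y μ, ∀ g, am x y ρ μ (r * g) = r * am x y ρ μ g := fun r hr g =>
    am_mul (fun σ => h1.rR _ (lift0_zero σ) r hr) g
  refine ⟨fun w => evP _, fun g hg => ?_, hlin, fun t g => am_mul (fun σ => ?_) g,
    fun g hg => ?_, fun w => ?_⟩
  · obtain ⟨w, hw⟩ := h2.surj g hg
    obtain ⟨w', hw'⟩ := surj0 (x := x) (y := y) (μ := μ) w
    refine ⟨w', ?_⟩
    have := add_mem (mul_le_mul' h2.mOR le_rfl hw) hw'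
    rwa [sub_add_sub_cancel] at this
  · rw [xc, h1.rxi, lift0_zero, xi]
  · have h3 : g ∈ Subalgebra.toSubmodule (Rs x y μ) *
        Subalgebra.toSubmodule ((ev x y).comp (up m)).range := by
      rw [Subalgebra.mul_toSubmodule]
      exact P_le hg
    refine Submodule.mul_induction_on h3 (fun a ha b hb => ?_) fun a b ha hb => ?_
    · obtain ⟨w, rfl⟩ := hb
      rw [hlin a ha]
      refine stab_right ha ?_
      change am x y ρ μ (ev x y (up m w)) ∈ _
      rw [amx' h1]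
      refine sum_mem fun u _ => ?_
      rw [mul_comm (xi x y μ u)]
      exact stab_right (OR (HO (h1.alH _).1)) (xi_all hμ h1 hl u)
    · rw [map_add]
      exact add_mem ha hb
  · change am x y ρ μ (ev x y (up m w)) - _ ∈ _
    rw [amx' h1, ← Fintype.sum_subtype_add_sum_subtype (IsCor μ), add_sub_right_comm,
      ← Finset.sum_sub_distrib]
    refine add_mem (sum_mem fun t _ => ?_) (sum_mem fun u _ => ?_)
    · rw [Algebra.smul_def, mul_comm (xi x y μ t), xc, ← sub_mul]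
      exact Submodule.mul_mem_mul (Id_mono (HO.trans OR) Set.subset_union_left (h1.alH _).2)
        (Submodule.subset_span ⟨t, rfl⟩)
    · rw [mul_comm (xi x y μ u)]
      exact mul_stab hl.mul (OR (HO (h1.alH _).1)) (xiV hμ h1 hl u u.2)

end GCh2Aux

open GCh2Aux in
theorem ch2 : S_Ch2 := fun _ _ _ _ _ _ _ _ _ hμ h1 h2 =>
  { h2 with
    xiV := xiV hμ h1 h2.core.loc
    sock := sock h1
    alO := fun r hr g => al_mul (fun σ => h1.rO σ r hr) g
    alP := alP h1
    forms := forms hμ h1 h2 }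

end

end Pool.Agent.P.MP_c2aaf5_co
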