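import Pool.Agent.P.MP_c2aaf5_co.DefG

/-! Local algebra of the chart. -/

set_option linter.unusedSectionVars false

namespace Pool.Agent.P.MP_c2aaf5_co

open MvPolynomial Finset

noncomputable section

namespace GCh2aAux

section general
variable {K : Type} [Field K] [Algebra ℂ K]

lemma id_mem {O : Subalgebra ℂ K} {S : Set K} {a s : K} (ha : a ∈ O) (hs : s ∈ S) :
    a * s ∈ Id O S :=
  Submodule.mul_mem_mul ha (Submodule.subset_span hs)

lemma id_self {O : Subalgebra ℂ K} {S : Set K} {s : K} (hs : s ∈ S) : s ∈ Id O S := by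
  simpa using id_mem O.one_mem hs

lemma id_le {O : Subalgebra ℂ K} {S : Set K} {M : Submodule ℂ K}
    (h : ∀ a ∈ O, ∀ s ∈ S, a * s ∈ M) : Id O S ≤ M := by
  refine Submodule.mul_le.2 fun a ha g hg => ?_
  induction hg using Submodule.span_induction with
  | mem s hs => exact h a ha s hs
  | zero => simp
  | add u v _ _ hu hv => rw [mul_add]; exact M.add_mem hu hv
  | smul c u _ hu => rw [mul_smul_comm]; exact M.smul_mem c hu

lemma mul_mem_mul' {O : Subalgebra ℂ K} {N : Submodule ℂ K} {a g : K} (ha : a ∈ O)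
    (hg : g ∈ Subalgebra.toSubmodule O * N) : a * g ∈ Subalgebra.toSubmodule O * N := by
  refine Submodule.mul_induction_on hg (fun u hu v hv => ?_) (fun u v hu hv => ?_)
  · rw [← mul_assoc]; exact Submodule.mul_mem_mul (O.mul_mem ha hu) hv
  · rw [mul_add]; exact Submodule.add_mem _ hu hv

lemma id_mul {O : Subalgebra ℂ K} {S : Set K} {a g : K} (ha : a ∈ O) (hg : g ∈ Id O S) :
    a * g ∈ Id O S := mul_mem_mul' ha hg

lemma id_mono {O O' : Subalgebra ℂ K} {S S' : Set K} (h : O ≤ O') (h' : S ⊆ S') :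
    Id O S ≤ Id O' S' :=
  id_le fun _ ha _ hs => id_mem (h ha) (h' hs)

lemma id_sub {O : Subalgebra ℂ K} {S : Set K} (h : S ⊆ O) {g : K} (hg : g ∈ Id O S) : g ∈ O :=
  (id_le (M := Subalgebra.toSubmodule O) fun _ ha _ hs => O.mul_mem ha (h hs)) hg

/-- elements of `O` congruent to an element of `E` -/
def cong (O E : Subalgebra ℂ K) (hE : E ≤ O) (M : Submodule ℂ K)
    (hM : ∀ a ∈ O, ∀ g ∈ M, a * g ∈ M) : Subalgebra ℂ K where
  carrier := {g | g ∈ O ∧ ∃ e ∈ E, g - e ∈ M}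
  mul_mem' := by
    rintro a b ⟨ha, e, he, hae⟩ ⟨hb, f, hf, hbf⟩
    refine ⟨O.mul_mem ha hb, e * f, E.mul_mem he hf, ?_⟩
    have : a * b - e * f = a * (b - f) + f * (a - e) := by ring
    rw [this]
    exact M.add_mem (hM a ha _ hbf) (hM f (hE hf) _ hae)
  add_mem' := by
    rintro a b ⟨ha, e, he, hae⟩ ⟨hb, f, hf, hbf⟩
    refine ⟨O.add_mem ha hb, e + f, E.add_mem he hf, ?_⟩
    have : a + b - (e + f) = (a - e) + (b - f) := by ring
    rw [this]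
    exact M.add_mem hae hbf
  algebraMap_mem' := fun c => ⟨O.algebraMap_mem c, _, E.algebraMap_mem c, by simp⟩

lemma mem_cong {O E : Subalgebra ℂ K} {hE : E ≤ O} {M : Submodule ℂ K}
    {hM : ∀ a ∈ O, ∀ g ∈ M, a * g ∈ M} {g : K} :
    g ∈ cong O E hE M hM ↔ g ∈ O ∧ ∃ e ∈ E, g - e ∈ M := Iff.rfl

lemma mem_cong_bot {O : Subalgebra ℂ K} {M : Submodule ℂ K}
    {hM : ∀ a ∈ O, ∀ g ∈ M, a * g ∈ M} {g : K} :
    g ∈ cong O ⊥ bot_le M hM ↔ g ∈ O ∧ ∃ c : ℂ, g - algebraMap ℂ K c ∈ M := by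
  rw [mem_cong]
  refine and_congr_right fun _ => ⟨?_, ?_⟩
  · rintro ⟨e, he, h⟩
    obtain ⟨c, rfl⟩ := Algebra.mem_bot.1 he
    exact ⟨c, h⟩
  · rintro ⟨c, h⟩
    exact ⟨_, Subalgebra.algebraMap_mem _ c, h⟩

/-- fractions with denominators in a multiplicative set -/
def frac (Y : Subalgebra ℂ K) (S : Submonoid K) (hS : ∀ b ∈ S, b ∈ Y) : Subalgebra ℂ K where
  carrier := {v | ∃ b ∈ S, b * v ∈ Y}
  mul_mem' := by
    rintro u v ⟨a, ha, hu⟩ ⟨b, hb, hv⟩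
    refine ⟨a * b, S.mul_mem ha hb, ?_⟩
    have : a * b * (u * v) = (a * u) * (b * v) := by ring
    rw [this]; exact Y.mul_mem hu hv
  add_mem' := by
    rintro u v ⟨a, ha, hu⟩ ⟨b, hb, hv⟩
    refine ⟨a * b, S.mul_mem ha hb, ?_⟩
    have : a * b * (u + v) = b * (a * u) + a * (b * v) := by ring
    rw [this]; exact Y.add_mem (Y.mul_mem (hS b hb) hu) (Y.mul_mem (hS a ha) hv)
  algebraMap_mem' := fun c => ⟨1, S.one_mem, by simp⟩

lemma le_frac (Y : Subalgebra ℂ K) (S : Submonoid K) (hS : ∀ b ∈ S, b ∈ Y) : Y ≤ frac Y S hS :=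
  fun v hv => ⟨1, S.one_mem, by simpa using hv⟩

lemma frac_mono {Y Y' : Subalgebra ℂ K} (h : Y ≤ Y') (S : Submonoid K) (hS : ∀ b ∈ S, b ∈ Y) :
    frac Y S hS ≤ frac Y' S fun b hb => h (hS b hb) := by
  rintro v ⟨b, hb, hv⟩
  exact ⟨b, hb, h hv⟩

lemma const_notMem {O : Subalgebra ℂ K} {M : Submodule ℂ K} (h : LocD O M) {c : ℂ} (hc : c ≠ 0) :
    algebraMap ℂ K c ∉ M := fun hm => h.one <| by
  have := M.smul_mem c⁻¹ hm
  rwa [Algebra.smul_def, ← map_mul, inv_mul_cancel₀ hc, map_one] at this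

lemma mul_notMem {O : Subalgebra ℂ K} {M : Submodule ℂ K} (h : LocD O M) {a b : K} (ha : a ∈ O)
    (ha' : a ∉ M) (hb' : b ∉ M) : a * b ∉ M := fun hm => hb' <| by
  have h0 : a ≠ 0 := fun h0 => ha' (h0 ▸ M.zero_mem)
  have := h.mul _ (h.inv a ha ha') _ hm
  rwa [← mul_assoc, inv_mul_cancel₀ h0, one_mul] at this

lemma noeth_of_den {Y O : Subalgebra ℂ K} (hle : Y ≤ O) (hY : Y.FG)
    (h : ∀ v ∈ O, ∃ b ∈ Y, b ≠ 0 ∧ b⁻¹ ∈ O ∧ b * v ∈ Y) : IsNoetherianRing O := by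
  let _ : Algebra Y O := (Subalgebra.inclusion hle).toRingHom.toAlgebra
  have hc : ∀ b : Y, ((algebraMap Y O b : O) : K) = b := fun b => rfl
  have : IsLocalization ((IsUnit.submonoid O).comap (algebraMap Y O)) O := by
    rw [isLocalization_iff]
    refine ⟨fun y => y.2, fun v => ?_, fun {a b} hab => ⟨1, ?_⟩⟩
    · obtain ⟨b, hb, hb0, hbi, hv⟩ := h v v.2
      refine ⟨(⟨_, hv⟩, ⟨⟨b, hb⟩, ?_⟩), ?_⟩
      · refine IsUnit.of_mul_eq_one (⟨b⁻¹, hbi⟩ : O) (Subtype.ext ?_)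
        exact mul_inv_cancel₀ hb0
      · exact Subtype.ext (mul_comm _ _)
    · have : (a : K) = b := by rw [← hc, ← hc, hab]
      rw [Subtype.ext this]
  exact IsLocalization.isNoetherianRing ((IsUnit.submonoid O).comap (algebraMap Y O)) O
    (isNoetherianRing_of_fg hY)

/-- an integral extension of a local ring whose maximal ideal has radical `mR` is local -/
lemma inv_of_integral {O R : Subalgebra ℂ K} {mO mR : Submodule ℂ K} (hO : LocD O mO) (hle : O ≤ R)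
    (hint : ∀ r ∈ R, IsIntegral O r) (hdec : ∀ g ∈ R, ∃ c : ℂ, g - algebraMap ℂ K c ∈ mR)
    (hmR : ∀ g ∈ mR, g ∈ R)
    (hrad : ∀ n : Ideal R, n.IsPrime → (∀ g : R, (g : K) ∈ mO → g ∈ n) →
      ∀ g : R, (g : K) ∈ mR → g ∈ n) :
    ∀ g ∈ R, g ∉ mR → g⁻¹ ∈ R := by
  intro g hg hg'
  by_cases hu : IsUnit (⟨g, hg⟩ : R)
  · obtain ⟨v, hv⟩ := hu.exists_right_inv
    have : g * (v : K) = 1 := congrArg Subtype.val hv
    rw [← eq_inv_of_mul_eq_one_right this]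
    exact v.2
  exfalso
  obtain ⟨n, hn, hgn⟩ := exists_max_ideal_of_mem_nonunits (mem_nonunits_iff.2 hu)
  let f : O →+* R := (Subalgebra.inclusion hle).toRingHom
  have hf : f.IsIntegral := by
    intro r
    obtain ⟨p, hp, hr⟩ := hint r r.2
    refine ⟨p, hp, Subtype.ext ?_⟩
    have := Polynomial.hom_eval₂ p f (R.val : R →+* K) r
    exact this.trans hr
  have hmax := Ideal.isMaximal_comap_of_isIntegral_of_isMaximal' f hf n
  have hO' : ∀ g : R, (g : K) ∈ mO → g ∈ n := by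
    intro a ha
    have haO : (a : K) ∈ O := hO.le _ ha
    by_contra hna
    have hna' : (⟨a, haO⟩ : O) ∉ n.comap f := hna
    obtain ⟨u, i, hi, hui⟩ := hmax.exists_inv hna'
    have e : (u : K) * a + i = 1 := congrArg Subtype.val hui
    have hi' : (i : K) ∉ mO := fun h => hO.one (e ▸ mO.add_mem (hO.mul _ u.2 _ ha) h)
    have hi0 : (i : K) ≠ 0 := fun h0 => hi' (h0 ▸ mO.zero_mem)
    refine hmax.ne_top (Ideal.eq_top_of_isUnit_mem _ hi ?_)
    exact IsUnit.of_mul_eq_one (⟨(i : K)⁻¹, hO.inv _ i.2 hi'⟩ : O)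
      (Subtype.ext (mul_inv_cancel₀ hi0))
  obtain ⟨c, hc⟩ := hdec g hg
  have hc0 : c ≠ 0 := by
    rintro rfl
    exact hg' (by simpa using hc)
  have h1 := hrad n hn.isPrime hO' ⟨_, hmR _ hc⟩ hc
  have h2 : algebraMap ℂ R c ∈ n := by
    have := n.sub_mem hgn h1
    convert this using 1
    exact Subtype.ext (by simp)
  exact hn.ne_top (Ideal.eq_top_of_isUnit_mem _ h2 ((IsUnit.mk0 c hc0).map _))

lemma int_mono {Y O : Subalgebra ℂ K} (hle : Y ≤ O) {r : K} (hr : IsIntegral Y r) :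
    IsIntegral O r := by
  obtain ⟨p, hp, hr⟩ := hr
  refine ⟨p.map (Subalgebra.inclusion hle).toRingHom, hp.map _, ?_⟩
  rw [Polynomial.eval₂_map]
  exact hr

lemma int_sup {O : Subalgebra ℂ K} {a b : K} (ha : IsIntegral O a) (hb : IsIntegral O b) :
    ∀ r ∈ O ⊔ Algebra.adjoin ℂ {a, b}, IsIntegral O r := by
  have : O ⊔ Algebra.adjoin ℂ {a, b} ≤ (integralClosure O K).restrictScalars ℂ := by
    refine sup_le (fun g hg => ?_) (Algebra.adjoin_le ?_)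
    · exact isIntegral_algebraMap (R := O) (x := ⟨g, hg⟩)
    · rintro g (rfl | rfl)
      · exact ha
      · exact hb
  exact fun r hr => this hr

lemma aeval_cong {τ : Type} {O : Subalgebra ℂ K} {M : Submodule ℂ K} (h : LocD O M) (η : τ → K)
    (a : τ → ℂ) (hη : ∀ t, η t - algebraMap ℂ K (a t) ∈ M) (G : MvPolynomial τ ℂ) :
    aeval η G - algebraMap ℂ K (eval a G) ∈ M := by
  induction G using MvPolynomial.induction_on with
  | C c => simp
  | add p q hp hq =>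
    have := M.add_mem hp hq
    convert this using 1
    simp only [map_add]; ring
  | mul_X p t hp =>
    have hηO : η t ∈ O := by
      have := O.add_mem (h.le _ (hη t)) (O.algebraMap_mem (a t))
      simpa using this
    have := M.add_mem (h.mul _ hηO _ hp) (h.mul _ (O.algebraMap_mem (eval a p)) _ (hη t))
    convert this using 1
    simp only [map_mul, aeval_X, eval_X]; ring

lemma aeval_hom {τ : Type} {G : MvPolynomial τ ℂ} {N : ℕ} (hG : G.IsHomogeneous N) (η : τ → K)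
    (c : K) : aeval (fun t => c * η t) G = c ^ N * aeval η G := by
  rw [aeval_def, aeval_def, eval₂_eq, eval₂_eq, Finset.mul_sum]
  refine Finset.sum_congr rfl fun d hd => ?_
  rw [hG.degree_eq_sum_deg_support hd, ← Finset.prod_pow_eq_pow_sum]
  simp only [mul_pow, Finset.prod_mul_distrib]
  ring

lemma vx_pow {τ : Type} [Fintype τ] {O : Subalgebra ℂ K} (ξ : τ → K) (c : K)
    (h : ∀ t, c * ξ t ∈ O) (N : ℕ) : ∀ v ∈ Vx ξ ^ N, c ^ N * v ∈ O := by
  have h1 : ∀ v ∈ Vx ξ, c * v ∈ O := by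
    intro v hv
    induction hv using Submodule.span_induction with
    | mem s hs => obtain ⟨t, rfl⟩ := hs; exact h t
    | zero => simp
    | add u v _ _ hu hv => rw [mul_add]; exact O.add_mem hu hv
    | smul a u _ hu => rw [mul_smul_comm]; exact O.smul_mem hu a
  induction N with
  | zero =>
    intro v hv
    rw [pow_zero, Submodule.mem_one] at hv
    obtain ⟨a, rfl⟩ := hv
    simp
  | succ N ih =>
    intro v hv
    rw [pow_succ] at hv
    refine Submodule.mul_induction_on hv (fun u hu w hw => ?_) (fun u w hu hw => ?_)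
    · have : c ^ (N + 1) * (u * w) = (c ^ N * u) * (c * w) := by ring
      rw [this]; exact O.mul_mem (ih u hu) (h1 w hw)
    · rw [mul_add]; exact O.add_mem hu hw

/-- a place through the coordinate point -/
lemma not_un {τ : Type} [Fintype τ] [DecidableEq τ] {O : Subalgebra ℂ K} {M mR : Submodule ℂ K}
    (h : LocD O M) (hm : mR ≤ M) (ξ : τ → K) (s : τ) (hs : ξ s ≠ 0)
    (ht : ∀ t, t ≠ s → ξ t / ξ s ∈ M) (N : ℕ) : ¬Un mR ξ (Pi.single s 1) N 0 := by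
  rintro ⟨G, hG, hev, hmem⟩
  have hη : ∀ t, (ξ s)⁻¹ * ξ t - algebraMap ℂ K ((Pi.single s 1 : τ → ℂ) t) ∈ M := by
    intro t
    by_cases hts : t = s
    · subst hts
      simp [inv_mul_cancel₀ hs]
    · have := ht t hts
      rw [div_eq_inv_mul] at this
      simpa [Pi.single_eq_of_ne hts] using this
  have hO : ∀ t, (ξ s)⁻¹ * ξ t ∈ O := fun t => by
    simpa using O.add_mem (h.le _ (hη t)) (O.algebraMap_mem ((Pi.single s 1 : τ → ℂ) t))
  have h1 := aeval_cong h _ _ hη G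
  rw [aeval_hom hG] at h1
  have h2 : ∀ g ∈ mR * Vx ξ ^ N, (ξ s)⁻¹ ^ N * g ∈ M := by
    intro g hg
    refine Submodule.mul_induction_on hg (fun u hu w hw => ?_) (fun u w hu hw => ?_)
    · have : (ξ s)⁻¹ ^ N * (u * w) = ((ξ s)⁻¹ ^ N * w) * u := by ring
      rw [this]; exact h.mul _ (vx_pow ξ _ hO N w hw) _ (hm hu)
    · rw [mul_add]; exact M.add_mem hu hw
  have h3 := M.add_mem h1 (h2 _ hmem)
  refine const_notMem h hev ?_
  have := M.neg_mem h3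
  convert this using 1
  ring

end general

section chart
variable {K : Type} [Field K] [Algebra ℂ K] {m : ℕ} {x y : Fin (m + 1) → K}
  {ρ : Equiv.Perm (Fin (m + 1)) →* (K ≃ₐ[ℂ] K)} {μ : Fin (m + 1) → ℕ × ℕ}

lemma exists_cor (hμ : Function.Injective μ) : ∃ s, IsCor μ s := by
  obtain ⟨s, -, hs⟩ := Finset.exists_max_image univ (fun u => (μ u).1 + (μ u).2) univ_nonempty
  refine ⟨s, fun v hv => hμ ?_⟩
  have := hs v (mem_univ v)
  obtain ⟨h1, h2⟩ := Prod.le_def.1 hv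
  exact Prod.ext (by omega) (by omega)

lemma gm_sub (h : Ch1 x y ρ μ) : gm x y μ ⊆ Hs x y μ := by
  rintro _ ⟨g, u, -, rfl⟩
  exact h.mem g u

lemma cc_dec (h : Ch1 x y ρ μ) (g : ℕ × ℕ) (u : Fin (m + 1)) :
    cc x y μ g u ∈ gm x y μ ∨ ∃ c : ℂ, cc x y μ g u = algebraMap ℂ K c := by
  by_cases hg : ∃ v, μ v = g
  · obtain ⟨v, rfl⟩ := hg
    refine Or.inr ⟨if v = u then 1 else 0, ?_⟩
    rw [h.self]
    split_ifs <;> simp
  · exact Or.inl ⟨g, u, fun v hv => hg ⟨v, hv⟩, rfl⟩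

lemma hs_le (h : Ch1 x y ρ μ) {O : Subalgebra ℂ K} (hO : gm x y μ ⊆ O) : Hs x y μ ≤ O := by
  refine Algebra.adjoin_le ?_
  rintro _ ⟨v, u, rfl | rfl⟩
  all_goals
    rcases cc_dec h _ u with h1 | ⟨c, h1⟩
    · exact hO h1
    · rw [h1]; exact O.algebraMap_mem c

lemma decH (h : Ch1 x y ρ μ) {g : K} (hg : g ∈ Hs x y μ) :
    ∃ c : ℂ, g - algebraMap ℂ K c ∈ Id (Hs x y μ) (gm x y μ) := by
  have : Hs x y μ ≤ cong (Hs x y μ) ⊥ bot_le (Id (Hs x y μ) (gm x y μ))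
      (fun _ ha _ hg => id_mul ha hg) :=
    hs_le h fun a ha => mem_cong_bot.2 ⟨gm_sub h ha, 0, by simpa using id_self ha⟩
  exact (mem_cong_bot.1 (this hg)).2

lemma hs_os : Hs x y μ ≤ Os x y μ := fun _ hg => Algebra.subset_adjoin (Or.inl hg)

lemma inv_os {b : K} (hb : b ∈ Hs x y μ) (hb' : b ∉ Id (Hs x y μ) (gm x y μ)) :
    b⁻¹ ∈ Os x y μ := Algebra.subset_adjoin (Or.inr ⟨b, hb, hb', rfl⟩)

lemma mH_mO : Id (Hs x y μ) (gm x y μ) ≤ mO x y μ := id_mono hs_os subset_rfl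

lemma os_le {O : Subalgebra ℂ K} (h1 : Hs x y μ ≤ O)
    (h2 : ∀ b ∈ Hs x y μ, b ∉ Id (Hs x y μ) (gm x y μ) → b⁻¹ ∈ O) : Os x y μ ≤ O := by
  refine Algebra.adjoin_le ?_
  rintro g (hg | ⟨b, hb, hb', rfl⟩)
  · exact h1 hg
  · exact h2 b hb hb'

lemma adj_le {O : Subalgebra ℂ K} (hx : x 0 ∈ O) (hy : y 0 ∈ O) :
    Algebra.adjoin ℂ {x 0, y 0} ≤ O := by
  refine Algebra.adjoin_le ?_
  rintro g (rfl | rfl)
  · exact hx
  · exact hy

lemma x_adj : x 0 ∈ Algebra.adjoin ℂ ({x 0, y 0} : Set K) := Algebra.subset_adjoin (Or.inl rfl)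
lemma y_adj : y 0 ∈ Algebra.adjoin ℂ ({x 0, y 0} : Set K) := Algebra.subset_adjoin (Or.inr rfl)

lemma os_rs : Os x y μ ≤ Rs x y μ := le_sup_left
lemma x_rs : x 0 ∈ Rs x y μ := (le_sup_right : _ ≤ Rs x y μ) x_adj
lemma y_rs : y 0 ∈ Rs x y μ := (le_sup_right : _ ≤ Rs x y μ) y_adj
lemma mO_mR : mO x y μ ≤ mR x y μ := id_mono os_rs Set.subset_union_left

section place
variable {O : Subalgebra ℂ K} {M : Submodule ℂ K}

lemma notMem_place (h : Ch1 x y ρ μ) (hO : LocD O M) (hg : gm x y μ ⊆ M) {b : K}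
    (hb : b ∈ Hs x y μ) (hb' : b ∉ Id (Hs x y μ) (gm x y μ)) : b ∉ M := by
  intro hbM
  obtain ⟨c, hc⟩ := decH h hb
  have hc0 : c ≠ 0 := by
    rintro rfl
    exact hb' (by simpa using hc)
  have hle : Id (Hs x y μ) (gm x y μ) ≤ M :=
    id_le fun a ha s hs => hO.mul a (hs_le h (fun _ hg' => hO.le _ (hg hg')) ha) s (hg hs)
  refine const_notMem hO hc0 ?_
  simpa using M.sub_mem hbM (hle hc)

lemma os_place (h : Ch1 x y ρ μ) (hO : LocD O M) (hg : gm x y μ ⊆ M) : Os x y μ ≤ O :=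
  have h1 : Hs x y μ ≤ O := hs_le h fun _ hg' => hO.le _ (hg hg')
  os_le h1 fun b hb hb' => hO.inv b (h1 hb) (notMem_place h hO hg hb hb')

lemma mR_place (h : Ch1 x y ρ μ) (hO : LocD O M) (hg : gm x y μ ⊆ M) (hx : x 0 ∈ M)
    (hy : y 0 ∈ M) : mR x y μ ≤ M := by
  have h1 : Rs x y μ ≤ O := sup_le (os_place h hO hg) (adj_le (hO.le _ hx) (hO.le _ hy))
  refine id_le fun a ha s hs => hO.mul a (h1 ha) s ?_
  rcases hs with hs | rfl | rfl
  · exact hg hs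
  · exact hx
  · exact hy

/-- the denominators -/
def den (h : Ch1 x y ρ μ) (hO : LocD O M) (hg : gm x y μ ⊆ M) : Submonoid K where
  carrier := {b | b ∈ Hs x y μ ∧ b ∉ M}
  one_mem' := ⟨(Hs x y μ).one_mem, hO.one⟩
  mul_mem' := fun ha hb => ⟨(Hs x y μ).mul_mem ha.1 hb.1,
    mul_notMem hO (os_place h hO hg (hs_os ha.1)) ha.2 hb.2⟩

lemma os_frac (h : Ch1 x y ρ μ) (hO : LocD O M) (hg : gm x y μ ⊆ M) :
    Os x y μ ≤ frac (Hs x y μ) (den h hO hg) fun _ hb => hb.1 := by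
  refine os_le (le_frac _ _ _) fun b hb hb' => ⟨b, ⟨hb, notMem_place h hO hg hb hb'⟩, ?_⟩
  have h0 : b ≠ 0 := fun h0 => hb' (h0 ▸ Submodule.zero_mem _)
  rw [mul_inv_cancel₀ h0]
  exact Subalgebra.one_mem _

lemma sup_frac (h : Ch1 x y ρ μ) (hO : LocD O M) (hg : gm x y μ ⊆ M) (E : Subalgebra ℂ K) :
    ∀ v ∈ Os x y μ ⊔ E, ∃ b ∈ Hs x y μ, b ∉ M ∧ b * v ∈ Hs x y μ ⊔ E := by
  have : Os x y μ ⊔ E ≤ frac (Hs x y μ ⊔ E) (den h hO hg)
      fun _ hb => (le_sup_left : Hs x y μ ≤ _) hb.1 :=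
    sup_le ((os_frac h hO hg).trans (frac_mono le_sup_left _ _)) (le_sup_right.trans (le_frac _ _ _))
  intro v hv
  obtain ⟨b, hb, hv⟩ := this hv
  exact ⟨b, hb.1, hb.2, hv⟩

lemma den_inv (h : Ch1 x y ρ μ) (hO : LocD O M) (hg : gm x y μ ⊆ M) (hx : x 0 ∈ M)
    (hy : y 0 ∈ M) {b : K} (hb : b ∈ Hs x y μ) (hb' : b ∉ M) : b⁻¹ ∈ Os x y μ :=
  inv_os hb fun hm => hb' (mR_place h hO hg hx hy (mO_mR (mH_mO hm)))

lemma decO (h : Ch1 x y ρ μ) {g : K} (hg : g ∈ Os x y μ) :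
    ∃ c : ℂ, g - algebraMap ℂ K c ∈ mO x y μ := by
  have : Os x y μ ≤ cong (Os x y μ) ⊥ bot_le (mO x y μ) (fun _ ha _ hg => id_mul ha hg) := by
    refine os_le (fun b hb => mem_cong_bot.2 ⟨hs_os hb, ?_⟩) fun b hb hb' =>
      mem_cong_bot.2 ⟨inv_os hb hb', ?_⟩
    · obtain ⟨c, hc⟩ := decH h hb
      exact ⟨c, mH_mO hc⟩
    · obtain ⟨c, hc⟩ := decH h hb
      have hc0 : c ≠ 0 := by
        rintro rfl
        exact hb' (by simpa using hc)
      have h0 : b ≠ 0 := fun h0 => hb' (h0 ▸ Submodule.zero_mem _)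
      have hc1 : algebraMap ℂ K c ≠ 0 := (map_ne_zero _).2 hc0
      refine ⟨c⁻¹, ?_⟩
      have := id_mul ((Os x y μ).neg_mem ((Os x y μ).mul_mem (inv_os hb hb')
        ((Os x y μ).algebraMap_mem c⁻¹))) (mH_mO hc)
      have e : -(b⁻¹ * algebraMap ℂ K c⁻¹) * (b - algebraMap ℂ K c) = b⁻¹ - algebraMap ℂ K c⁻¹ := by
        rw [map_inv₀]
        field_simp
        ring
      rwa [e] at this
  exact (mem_cong_bot.1 (this hg)).2

lemma locO (h : Ch1 x y ρ μ) (hO : LocD O M) (hg : gm x y μ ⊆ M) (hx : x 0 ∈ M)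
    (hy : y 0 ∈ M) : LocD (Os x y μ) (mO x y μ) where
  le := fun _ ha => id_sub (fun _ hs => hs_os (gm_sub h hs)) ha
  mul := fun _ ha _ hg => id_mul ha hg
  dec := fun _ hg => decO h hg
  one := fun h1 => hO.one (mR_place h hO hg hx hy (mO_mR h1))
  inv := by
    intro g hgO hg'
    obtain ⟨b, hb, hbg⟩ := os_frac h hO hg hgO
    have hb0 : b ≠ 0 := fun h0 => hb.2 (h0 ▸ M.zero_mem)
    have h1 : b * g ∉ Id (Hs x y μ) (gm x y μ) := fun hm => hg' <| by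
      have := id_mul (den_inv h hO hg hx hy hb.1 hb.2) (mH_mO hm)
      rwa [← mul_assoc, inv_mul_cancel₀ hb0, one_mul] at this
    have := (Os x y μ).mul_mem (hs_os hb.1) (inv_os hbg h1)
    rwa [mul_inv, ← mul_assoc, mul_inv_cancel₀ hb0, one_mul] at this

end place

lemma gens_rs (h : Ch1 x y ρ μ) : gm x y μ ∪ {x 0, y 0} ⊆ Rs x y μ := by
  rintro s (hs | rfl | rfl)
  · exact os_rs (hs_os (gm_sub h hs))
  · exact x_rs
  · exact y_rs

lemma decR (h : Ch1 x y ρ μ) {g : K} (hg : g ∈ Rs x y μ) :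
    ∃ c : ℂ, g - algebraMap ℂ K c ∈ mR x y μ := by
  have : Rs x y μ ≤ cong (Rs x y μ) ⊥ bot_le (mR x y μ) (fun _ ha _ hg => id_mul ha hg) := by
    refine sup_le (fun b hb => mem_cong_bot.2 ⟨os_rs hb, ?_⟩) (adj_le
      (mem_cong_bot.2 ⟨x_rs, 0, ?_⟩) (mem_cong_bot.2 ⟨y_rs, 0, ?_⟩))
    · obtain ⟨c, hc⟩ := decO h hb
      exact ⟨c, mO_mR hc⟩
    · rw [map_zero, sub_zero]; exact id_self (Or.inr (Or.inl rfl))
    · rw [map_zero, sub_zero]; exact id_self (Or.inr (Or.inr rfl))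
  exact (mem_cong_bot.1 (this hg)).2

lemma int_rs (h : Ch1 x y ρ μ) : ∀ r ∈ Rs x y μ, IsIntegral (Os x y μ) r :=
  int_sup (int_mono hs_os (h.int (Sum.inl 0))) (int_mono hs_os (h.int (Sum.inr 0)))

lemma pw_rs (g : ℕ × ℕ) : pw x y 0 g ∈ Rs x y μ :=
  (Rs x y μ).mul_mem ((Rs x y μ).pow_mem x_rs _) ((Rs x y μ).pow_mem y_rs _)

lemma pw_prime (h : Ch1 x y ρ μ) (n : Ideal (Rs x y μ))
    (hn : ∀ g : Rs x y μ, (g : K) ∈ mO x y μ → g ∈ n) (g : ℕ × ℕ) (hg : ∀ v, μ v ≠ g) :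
    (⟨pw x y 0 g, pw_rs g⟩ : Rs x y μ) ∈ n := by
  have : (⟨pw x y 0 g, pw_rs g⟩ : Rs x y μ) =
      ∑ u, (⟨cc x y μ g u, os_rs (hs_os (h.mem g u))⟩ : Rs x y μ) * ⟨pw x y 0 (μ u), pw_rs _⟩ := by
    refine Subtype.ext ?_
    rw [AddSubmonoidClass.coe_finsetSum]
    exact (h.exp 0 g).symm
  rw [this]
  exact n.sum_mem fun u _ => n.mul_mem_right _ (hn _ (id_self ⟨g, u, hg, rfl⟩))

lemma rad (h : Ch1 x y ρ μ) (n : Ideal (Rs x y μ)) (hp : n.IsPrime)
    (hn : ∀ g : Rs x y μ, (g : K) ∈ mO x y μ → g ∈ n) (g : Rs x y μ) (hg : (g : K) ∈ mR x y μ) :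
    g ∈ n := by
  obtain ⟨N, hN⟩ : ∃ N : ℕ, ∀ v, (μ v).1 < N ∧ (μ v).2 < N := by
    refine ⟨∑ v, ((μ v).1 + (μ v).2) + 1, fun v => ?_⟩
    have := Finset.single_le_sum (f := fun v => (μ v).1 + (μ v).2) (fun _ _ => Nat.zero_le _)
      (mem_univ v)
    constructor <;> omega
  have hx : (⟨x 0, x_rs⟩ : Rs x y μ) ∈ n := by
    refine hp.mem_of_pow_mem N ?_
    have := pw_prime h n hn (N, 0) fun v hv => by have := (hN v).1; rw [hv] at this; simp at this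
    convert this using 1
    exact Subtype.ext (by simp [pw])
  have hy : (⟨y 0, y_rs⟩ : Rs x y μ) ∈ n := by
    refine hp.mem_of_pow_mem N ?_
    have := pw_prime h n hn (0, N) fun v hv => by have := (hN v).2; rw [hv] at this; simp at this
    convert this using 1
    exact Subtype.ext (by simp [pw])
  let n' : Submodule ℂ K := (n.restrictScalars ℂ).map (Rs x y μ).val.toLinearMap
  have hle : mR x y μ ≤ n' := by
    refine id_le fun a ha s hs => ?_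
    refine ⟨⟨a, ha⟩ * ⟨s, gens_rs h hs⟩, n.mul_mem_left _ ?_, rfl⟩
    rcases hs with hs | rfl | rfl
    · exact hn _ (id_self hs)
    · exact hx
    · exact hy
  obtain ⟨g', hg', e⟩ := hle hg
  have : g' = g := Subtype.ext e
  exact this ▸ hg'

lemma fgR : (R0 x y μ).FG := by
  refine Subalgebra.FG.sup (Subalgebra.fg_def.2 ⟨_, ?_, rfl⟩)
    (Subalgebra.fg_def.2 ⟨_, Set.toFinite _, rfl⟩)
  refine ((Set.finite_range fun p : Fin (m + 1) × Fin (m + 1) => cc x y μ (μ p.1 + (1, 0)) p.2).union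
    (Set.finite_range fun p : Fin (m + 1) × Fin (m + 1) => cc x y μ (μ p.1 + (0, 1)) p.2)).subset ?_
  rintro _ ⟨v, u, rfl | rfl⟩
  · exact Or.inl ⟨(v, u), rfl⟩
  · exact Or.inr ⟨(v, u), rfl⟩

lemma surjP (h : Ch1 x y ρ μ) : ∀ g ∈ Pp x y μ,
    ∃ w, g - ev x y w ∈ mO x y μ * Subalgebra.toSubmodule (Pp x y μ) := by
  have : Pp x y μ ≤ cong (Pp x y μ) (ev x y).range le_sup_right
      (Subalgebra.toSubmodule (Pp x y μ) * mO x y μ) (fun _ ha _ hg => mul_mem_mul' ha hg) := by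
    refine sup_le (fun b hb => ⟨(le_sup_left : _ ≤ Pp x y μ) hb, ?_⟩)
      (fun b hb => ⟨(le_sup_right : _ ≤ Pp x y μ) hb, b, hb, by simp⟩)
    obtain ⟨c, hc⟩ := decO h hb
    refine ⟨_, Subalgebra.algebraMap_mem _ c, ?_⟩
    simpa using Submodule.mul_mem_mul
      (show (1 : K) ∈ Subalgebra.toSubmodule (Pp x y μ) from Subalgebra.one_mem _) hc
  intro g hg
  obtain ⟨-, _, ⟨w, rfl⟩, he⟩ := mem_cong.1 (this hg)
  refine ⟨w, ?_⟩
  rw [Submodule.mul_comm]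
  exact he

end chart

end GCh2aAux

open GCh2aAux in
theorem ch2a : S_Ch2a := by
  intro K _ _ m x y ρ μ _ hμ h hpl
  obtain ⟨s0, hs0⟩ := exists_cor hμ.1
  obtain ⟨-, O, M, hO, hg, hx, hy, -⟩ := hpl s0 hs0
  have hmR := mR_place h hO hg hx hy
  have hloc := locO h hO hg hx hy
  have hne : ∀ b, b ∉ M → b ≠ 0 := fun b hb h0 => hb (h0 ▸ M.zero_mem)
  have hRle : ∀ g ∈ mR x y μ, g ∈ Rs x y μ := fun _ hg => id_sub (gens_rs h) hg
  refine ⟨hloc, ⟨⟨hRle, fun _ ha _ hg => id_mul ha hg, fun _ hg => decR h hg,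
    fun h1 => hO.one (hmR h1),
    inv_of_integral hloc os_rs (int_rs h) (fun _ hg => decR h hg) hRle (rad h)⟩, ?_, ?_, ?_,
    fun t => (hpl t t.2).1, ⟨⟨s0, hs0⟩⟩⟩, fgR, ?_, ?_, ?_, mO_mR, surjP h, ?_⟩
  · refine noeth_of_den (sup_le_sup_right hs_os _) fgR fun v hv => ?_
    obtain ⟨b, hb, hb', hv⟩ := sup_frac h hO hg _ v hv
    exact ⟨b, (le_sup_left : Hs x y μ ≤ _) hb, hne b hb', os_rs (den_inv h hO hg hx hy hb hb'), hv⟩
  · refine sup_le_sup_left (adj_le (O := (ev x y).range) ⟨X (Sum.inl 0), ?_⟩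
      ⟨X (Sum.inr 0), ?_⟩) _ <;> simp [ev]
  · classical
    refine ⟨univ.image fun u : Fin (m + 1) → Fin (m + 1) => ∏ i, pw x y i (μ (u i)),
      fun v hv => ?_⟩
    obtain ⟨b, hb, hb', hv⟩ := sup_frac h hO hg _ v hv
    have h1 := id_mul (os_rs (den_inv h hO hg hx hy hb hb'))
      (id_mono (hs_os.trans os_rs) subset_rfl (h.fin0 hv))
    rw [← mul_assoc, inv_mul_cancel₀ (hne b hb'), one_mul] at h1
    rwa [coe_image, coe_univ, Set.image_univ]
  · intro v hv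
    obtain ⟨b, hb, hv⟩ := os_frac h hO hg hv
    exact ⟨b, hb.1, fun hm => hb.2 (hmR (mO_mR hm)), hv⟩
  · intro v hv
    obtain ⟨b, hb, hb', hv⟩ := sup_frac h hO hg _ v hv
    exact ⟨b, (le_sup_left : Hs x y μ ≤ _) hb, fun hm => hb' (hmR hm), hv⟩
  · intro v hv
    obtain ⟨b, hb, hb', hv⟩ := sup_frac h hO hg _ v hv
    exact ⟨b, hb, fun hm => hb' (hmR (mO_mR hm)), hv⟩
  · rintro s ⟨N, hN⟩
    obtain ⟨hs, O', M', hO', hg', hx', hy', hu⟩ := hpl s s.2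
    exact not_un hO' (mR_place h hO' hg' hx' hy') (xc x y μ) s hs
      (fun t ht => hu t fun e => ht (Subtype.ext e)) N hN

end

end Pool.Agent.P.MP_c2aaf5_co
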