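import Pool.Agent.P.MP_c2aaf5_co.DefG

/-! Dual bases for the universal pairing on the fibre. -/

set_option linter.unusedSectionVars false

namespace Pool.Agent.P.MP_c2aaf5_co

open MvPolynomial Finset

noncomputable section

namespace GCombAux

theorem unit_of_tri {ι α : Type} [Fintype ι] [DecidableEq ι] [LinearOrder α] (r : ι → α)
    (M : Matrix ι ι ℂ) (hd : ∀ a, M a a ≠ 0) (ht : ∀ a a', M a a' ≠ 0 → a = a' ∨ r a < r a') :
    IsUnit M := by
  rw [← Matrix.mulVec_injective_iff_isUnit]
  have key : ∀ c : ι → ℂ, M.mulVec c = 0 → c = 0 := by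
    intro c hc
    by_contra hne
    have hn : (univ.filter fun a => c a ≠ 0).Nonempty := by
      by_contra h
      apply hne
      funext a
      by_contra ha
      exact h ⟨a, by simpa using ha⟩
    obtain ⟨a, ha, hmax⟩ := exists_max_image _ r hn
    have h0 := congrFun hc a
    simp only [Matrix.mulVec, dotProduct, Pi.zero_apply] at h0
    rw [sum_eq_single a] at h0
    · exact (mul_ne_zero (hd a) (mem_filter.1 ha).2) h0
    · intro a' _ ha'
      by_contra h
      obtain ⟨h1, h2⟩ := mul_ne_zero_iff.1 h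
      rcases ht a a' h1 with e | e
      · exact ha' e.symm
      · exact not_lt.2 (hmax a' (by simpa using h2)) e
    · simp
  intro c c' h
  have := key (c - c') (by rw [Matrix.mulVec_sub]; exact sub_eq_zero.2 h)
  exact sub_eq_zero.1 this

section
variable {σ : Type} [LinearOrder σ] [Fintype σ] {A : Type} [CommRing A]

/-- the standard pairing of cochains -/
def pr (z η : Finset σ → A) : A := ∑ J, z J * η J

theorem pr_comm (z η : Finset σ → A) : pr z η = pr η z := sum_congr rfl fun _ _ => mul_comm _ _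

theorem pr_cr (s : σ) (z η : Finset σ → A) : pr (cr s z) η = pr z (an s η) := by
  have hinv : Function.Involutive fun J : Finset σ => if s ∈ J then J.erase s else insert s J := by
    intro J
    by_cases h : s ∈ J
    · simp [h, insert_erase h]
    · simp [h, erase_insert h]
  unfold pr
  rw [← Equiv.sum_comp hinv.toPerm]
  refine sum_congr rfl fun J _ => ?_
  by_cases h : s ∈ J
  · simp [Function.Involutive.toPerm, h, cr_apply, an_apply]
  · simp [Function.Involutive.toPerm, h, cr_apply, an_apply, erase_insert h, sg_insert_self]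
    ring

theorem pr_an (s : σ) (z η : Finset σ → A) : pr (an s z) η = pr z (cr s η) := by
  rw [pr_comm, ← pr_cr, pr_comm]

theorem pr_smul_left (f : A) (z η : Finset σ → A) : pr (f • z) η = f * pr z η := by
  simp [pr, mul_sum, mul_assoc]

theorem pr_smul_right (f : A) (z η : Finset σ → A) : pr z (f • η) = f * pr z η := by
  rw [pr_comm, pr_smul_left, pr_comm]

theorem pr_sub_right (z η ζ : Finset σ → A) : pr z (η - ζ) = pr z η - pr z ζ := by
  simp [pr, mul_sub, sum_sub_distrib]

theorem pr_dd (ξ : σ → A) (z η : Finset σ → A) : pr (dd univ ξ z) η = pr z (wd univ ξ η) := by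
  have h1 : pr (dd univ ξ z) η = ∑ s, pr (ξ s • an s z) η := by
    simp only [pr, dd_def, Finset.sum_apply, sum_mul]; exact sum_comm
  have h2 : pr z (wd univ ξ η) = ∑ s, pr z (ξ s • cr s η) := by
    simp only [pr, wd_def, Finset.sum_apply, mul_sum]; exact sum_comm
  rw [h1, h2]
  exact sum_congr rfl fun s _ => by rw [pr_smul_left, pr_smul_right, pr_an]

theorem pr_single (I : Finset σ) (η : Finset σ → A) : pr (Pi.single I 1) η = η I := by
  unfold pr
  rw [sum_eq_single I] <;> simp +contextual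

/-- iterated wedge -/
def wl (v : σ → σ → A) : List σ → (Finset σ → A) → Finset σ → A
  | [], ζ => ζ
  | s :: L, ζ => wd univ (v s) (wl v L ζ)

/-- iterated contraction -/
def dl (v : σ → σ → A) : List σ → (Finset σ → A) → Finset σ → A
  | [], z => z
  | s :: L, z => dl v L (dd univ (v s) z)

theorem pr_dl (v : σ → σ → A) (L : List σ) (z η : Finset σ → A) :
    pr (dl v L z) η = pr z (wl v L η) := by
  induction L generalizing z with
  | nil => rfl
  | cons s L ih => rw [dl, wl, ih, pr_dd]

theorem wl_append (v : σ → σ → A) (L L' : List σ) (ζ : Finset σ → A) :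
    wl v (L ++ L') ζ = wl v L (wl v L' ζ) := by
  induction L with
  | nil => rfl
  | cons s L ih => rw [List.cons_append, wl, wl, ih]

theorem dl_append (v : σ → σ → A) (L L' : List σ) (z : Finset σ → A) :
    dl v (L ++ L') z = dl v L' (dl v L z) := by
  induction L generalizing z with
  | nil => rfl
  | cons s L ih => rw [List.cons_append, dl, dl, ih]

theorem wl_zsmul (v : σ → σ → A) (L : List σ) (c : ℤ) (ζ : Finset σ → A) :
    wl v L (c • ζ) = c • wl v L ζ := by
  induction L with
  | nil => rfl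
  | cons s L ih => rw [wl, wl, ih, map_zsmul]

theorem val_wl (v : σ → σ → A) (L : List σ) {p : ℕ} {ζ : Finset σ → A} (h : Val univ p ⊤ ζ) :
    Val univ (p + L.length) ⊤ (wl v L ζ) := by
  induction L with
  | nil => exact h
  | cons s L ih => exact ih.wd fun _ _ _ _ => trivial

theorem val_dl (v : σ → σ → A) (L : List σ) {p : ℕ} {z : Finset σ → A}
    (h : Val univ (p + L.length) ⊤ z) : Val univ p ⊤ (dl v L z) := by
  induction L generalizing z with
  | nil => exact h
  | cons s L ih => exact ih (Val.dd (A' := ⊤) h fun _ _ _ _ => trivial)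

theorem val_single (I : Finset σ) : Val univ I.card ⊤ (Pi.single I 1 : Finset σ → A) := by
  refine fun J => ⟨trivial, fun h => ?_⟩
  rw [Pi.single_apply, if_neg]
  rintro rfl
  exact h ⟨subset_univ _, rfl⟩

theorem val_smul {p : ℕ} {z : Finset σ → A} (h : Val univ p ⊤ z) (f : A) : Val univ p ⊤ (f • z) :=
  fun J => ⟨trivial, fun hJ => by rw [Pi.smul_apply, (h J).2 hJ, smul_zero]⟩

theorem wd_anti (ξ η : σ → A) (φ : Finset σ → A) :
    wd univ ξ (wd univ η φ) = -wd univ η (wd univ ξ φ) := by
  rw [wd_def univ ξ (wd univ η φ), wd_def univ ξ φ, map_sum, ← sum_neg_distrib]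
  exact sum_congr rfl fun s _ => by rw [cr_wd, wd_smul, smul_neg]

theorem wl_perm (v : σ → σ → A) {L L' : List σ} (h : L.Perm L') (ζ : Finset σ → A) :
    wl v L ζ = wl v L' ζ ∨ wl v L ζ = -wl v L' ζ := by
  induction h with
  | nil => exact Or.inl rfl
  | cons s _ ih =>
    rcases ih with e | e
    · left; rw [wl, wl, e]
    · right; rw [wl, wl, e, map_neg]
  | swap s t L => right; rw [wl, wl, wl, wl, wd_anti]
  | trans _ _ ih1 ih2 =>
    rcases ih1 with e | e <;> rcases ih2 with e' | e' <;> simp [e, e']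

theorem wl_dup (v : σ → σ → A) {L L' : List σ} {s : σ} (h : s ∈ L) (h' : s ∈ L')
    (ζ : Finset σ → A) : wl v (L ++ L') ζ = 0 := by
  have hp : (L ++ L').Perm (s :: s :: (L.erase s ++ L'.erase s)) :=
    ((List.perm_cons_erase h).append (List.perm_cons_erase h')).trans
      (List.Perm.cons s List.perm_middle)
  rcases wl_perm v hp ζ with e | e <;> rw [e, wl, wl, wd_wd]
  simp

/-- the support condition above `m` -/
def Sup (m : σ) (W : Finset σ) (ζ : Finset σ → A) : Prop :=
  ∀ J, ζ J ≠ 0 → ∀ t, m ≤ t → (t ∈ J ↔ t ∈ W)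

theorem sup_single (m : σ) (W : Finset σ) : Sup m W (Pi.single W 1 : Finset σ → A) := by
  intro J hJ t _
  rw [Pi.single_apply] at hJ
  split_ifs at hJ with h
  · rw [h]
  · exact absurd rfl hJ

theorem sup_an_single (m s : σ) (W : Finset σ) :
    Sup m (W.erase s) (an s (Pi.single W 1 : Finset σ → A)) := by
  intro J hJ t _
  rw [an_apply] at hJ
  split_ifs at hJ with h
  · exact absurd rfl hJ
  rw [Pi.single_apply] at hJ
  split_ifs at hJ with h'
  · rw [← h', erase_insert h]
  · simp at hJ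

theorem an_single_eq_zero {s : σ} {W : Finset σ} (h : s ∉ W) :
    an s (Pi.single W 1 : Finset σ → A) = 0 := by
  funext J
  rw [an_apply]
  split_ifs with h1
  · rfl
  rw [Pi.single_apply, if_neg]
  · simp
  · rintro rfl; exact h (mem_insert_self _ _)

theorem sup_wl (v : σ → σ → A) (hv : ∀ s t, s < t → v s t = 0) {m : σ} {W : Finset σ}
    {ζ : Finset σ → A} (h : Sup m W ζ) (L : List σ) (hL : ∀ s ∈ L, s < m) : Sup m W (wl v L ζ) := by
  induction L with
  | nil => exact h
  | cons s L ih =>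
    have ih' := ih fun r hr => hL r (List.mem_cons_of_mem _ hr)
    intro J hJ t ht
    rw [wl, wd_def, Finset.sum_apply] at hJ
    obtain ⟨r, -, hr⟩ := exists_ne_zero_of_sum_ne_zero hJ
    have hrs : r ≤ s := by
      by_contra hlt
      exact hr (by rw [hv s r (not_le.1 hlt), zero_smul]; rfl)
    have hrt : r < t := lt_of_lt_of_le (lt_of_le_of_lt hrs (hL s List.mem_cons_self)) ht
    have hne : wl v L ζ (J.erase r) ≠ 0 := by
      intro h0
      apply hr
      rw [Pi.smul_apply, cr_apply, h0]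
      simp
    rw [← ih' _ hne t ht, mem_erase]
    exact ⟨fun h => ⟨hrt.ne', h⟩, fun h => h.2⟩

/-- the pairing attached to a family of functionals -/
def G (l : σ → A →+ ℂ) (f : A) (z η : Finset σ → A) : ℂ := ∑ t, l t (f * pr z (an t η))

theorem G_wd (l : σ → A →+ ℂ) (ξ : σ → A) (hξ : ∀ f, ∑ t, l t (ξ t * f) = 0) (f : A)
    (z η : Finset σ → A) : G l f z (wd univ ξ η) = -G l f (dd univ ξ z) η := by
  have h : ∀ t, an t (wd univ ξ η) = ξ t • η - wd univ ξ (an t η) := fun t => by
    have := an_wd univ ξ t η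
    rw [if_pos (mem_univ _)] at this
    rw [← this]; simp
  unfold G
  simp only [h, pr_sub_right, pr_smul_right, mul_sub, map_sub, sum_sub_distrib, pr_dd]
  have := hξ (f * pr z η)
  rw [show (∑ t, l t (f * (ξ t * pr z η))) = ∑ t, l t (ξ t * (f * pr z η)) from
    sum_congr rfl fun t _ => by rw [mul_left_comm], this, zero_sub]

theorem G_wl (l : σ → A →+ ℂ) (v : σ → σ → A) (hv : ∀ s f, ∑ t, l t (v s t * f) = 0) (f : A)
    (L : List σ) (z η : Finset σ → A) : G l f z (wl v L η) = 0 ↔ G l f (dl v L z) η = 0 := by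
  induction L generalizing z with
  | nil => rfl
  | cons s L ih => rw [wl, dl, G_wd l _ (hv s), neg_eq_zero, ih]

theorem formA (l : σ → A →+ ℂ) (v : σ → σ → A) (hv : ∀ s f, ∑ t, l t (v s t * f) = 0) (f : A)
    (L L' : List σ) (I : Finset σ) (η : Finset σ → A) :
    G l f (dl v L (Pi.single I 1)) (wl v L' η) = 0 ↔
      ∑ t, l t (f * an t (wl v (L ++ L') η) I) = 0 := by
  rw [← G_wl l v hv, ← wl_append]
  simp only [G, pr_single]

theorem formB (l : σ → A →+ ℂ) (v : σ → σ → A) (hv : ∀ s f, ∑ t, l t (v s t * f) = 0) (f : A)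
    (L L' : List σ) (I : Finset σ) (η : Finset σ → A) :
    G l f (dl v L (Pi.single I 1)) (wl v L' η) = 0 ↔
      ∑ t, l t (f * wl v (L ++ L') (an t η) I) = 0 := by
  rw [G_wl l v hv, ← dl_append]
  simp only [G, pr_dl, pr_single]

end

abbrev A2 := MvPolynomial (Fin 2) ℂ

def xm2 (h : ℕ × ℕ) : A2 := monomial (mon2 h) 1

theorem mon2_zero (h : ℕ × ℕ) : mon2 h 0 = h.1 := by simp [mon2]

theorem mon2_one (h : ℕ × ℕ) : mon2 h 1 = h.2 := by simp [mon2]

theorem mon2_add (h k : ℕ × ℕ) : mon2 (h + k) = mon2 h + mon2 k := by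
  simp only [mon2, Prod.fst_add, Prod.snd_add, Finsupp.single_add]; abel

theorem mon2_inj {h k : ℕ × ℕ} (e : mon2 h = mon2 k) : h = k :=
  Prod.ext (by rw [← mon2_zero, e, mon2_zero]) (by rw [← mon2_one, e, mon2_one])

theorem xm2_mul (h k : ℕ × ℕ) : xm2 h * xm2 k = xm2 (h + k) := by
  simp [xm2, monomial_mul, mon2_add]

theorem xm2_zero : xm2 (0, 0) = 1 := by simp [xm2, mon2]

theorem coeff_xm2_mul (h k : ℕ × ℕ) (f : A2) :
    coeff (mon2 (h + k)) (xm2 h * f) = coeff (mon2 k) f := by
  rw [mon2_add, xm2, coeff_monomial_mul, one_mul]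

theorem coeff_xm2_mul_zero {h k : ℕ × ℕ} (hn : k.2 < h.2) (f : A2) :
    coeff (mon2 k) (xm2 h * f) = 0 := by
  rw [xm2, coeff_monomial_mul', if_neg]
  intro hle
  have := hle 1
  rw [mon2_one, mon2_one] at this
  omega

theorem coeff_xm2 (h k : ℕ × ℕ) : coeff (mon2 k) (xm2 h) ≠ 0 ↔ h = k := by
  rw [xm2, coeff_monomial]
  constructor
  · intro e
    split_ifs at e with e'
    · exact mon2_inj e'
    · exact absurd rfl e
  · rintro rfl; simp

section
variable {σ : Type} [LinearOrder σ] [Fintype σ]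

def IsPred (t s : σ) : Prop := t < s ∧ ∀ r, r < s → r ≤ t

theorem pred_cases (s : σ) : (∀ t, ¬t < s) ∨ ∃ t, IsPred t s := by
  by_cases h : (univ.filter (· < s)).Nonempty
  · obtain ⟨t, ht, hm⟩ := exists_max_image _ id h
    exact Or.inr ⟨t, (mem_filter.1 ht).2, fun r hr => hm r (by simpa using hr)⟩
  · exact Or.inl fun t ht => h ⟨t, by simpa using ht⟩

theorem IsPred.unique {t t' s : σ} (h : IsPred t s) (h' : IsPred t' s) : t = t' :=
  le_antisymm (h'.2 t h.1) (h.2 t' h'.1)

/-- number of rows below the block of `s` -/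
def Bd (b : σ → ℕ) (s : σ) : ℕ := (univ.filter (· < s)).sup fun t => b t + 1

theorem Bd_le {b : σ → ℕ} {s : σ} {k : ℕ} (h : ∀ t, t < s → b t < k) : Bd b s ≤ k :=
  Finset.sup_le fun t ht => h t (mem_filter.1 ht).2

theorem Bd_bot {b : σ → ℕ} {s : σ} (h : ∀ t, ¬t < s) : Bd b s = 0 :=
  Nat.le_zero.1 (Bd_le fun t ht => absurd ht (h t))

theorem Bd_pred {b : σ → ℕ} (hb : StrictMono b) {t s : σ} (h : IsPred t s) : Bd b s = b t + 1 :=
  le_antisymm (Bd_le fun r hr => Nat.lt_succ_of_le (hb.monotone (h.2 r hr)))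
    (Finset.le_sup (f := fun t => b t + 1) (mem_filter.2 ⟨mem_univ t, h.1⟩))

open Classical in
/-- the linear syzygies of the dual monomials of the corners -/
def sv (a b : σ → ℕ) (s t : σ) : A2 :=
  if t = s then xm2 (0, b s + 1 - Bd b s) else if IsPred t s then -xm2 (a t - a s, 0) else 0

def lm (a b : σ → ℕ) (t : σ) : A2 →+ ℂ := (lcoeff ℂ (mon2 (a t, b t))).toAddMonoidHom

theorem lm_apply (a b : σ → ℕ) (t : σ) (f : A2) : lm a b t f = coeff (mon2 (a t, b t)) f := rfl

theorem sv_tri (a b : σ → ℕ) (s t : σ) (h : s < t) : sv a b s t = 0 := by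
  rw [sv, if_neg h.ne', if_neg fun h' => lt_asymm h h'.1]

theorem sv_syz {a b : σ → ℕ} (ha : Antitone a) (hb : StrictMono b) (s : σ) (f : A2) :
    ∑ t, lm a b t (sv a b s t * f) = 0 := by
  rcases pred_cases s with h | ⟨t, ht⟩
  · refine sum_eq_zero fun t _ => ?_
    unfold sv
    split_ifs with h1 h2
    · rw [lm_apply, h1, Bd_bot h]
      exact coeff_xm2_mul_zero (by simp) f
    · exact absurd h2.1 (h t)
    · simp
  · rw [← sum_subset (subset_univ {s, t}), sum_pair ht.1.ne']
    · have h1 := ha ht.1.le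
      have h2 := hb ht.1
      rw [sv, if_pos rfl, sv, if_neg ht.1.ne, if_pos ht, Bd_pred hb ht, lm_apply, lm_apply,
        show (a s, b s) = (0, b s + 1 - (b t + 1)) + (a s, b t) from
          Prod.ext (by simp) (by simp; omega),
        show (a t, b t) = (a t - a s, 0) + (a s, b t) from Prod.ext (by simp; omega) (by simp),
        neg_mul, coeff_neg, coeff_xm2_mul, coeff_xm2_mul, add_neg_cancel]
    · intro r _ hr
      simp only [mem_insert, mem_singleton, not_or] at hr
      rw [sv, if_neg hr.1, if_neg fun h => hr.2 (h.unique ht)]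
      simp

theorem det_sv (a : σ → ℕ) {b : σ → ℕ} (hb : StrictMono b) (j : σ) :
    ∀ (L : List σ) (W : Finset σ), L.Nodup → (∀ t, t ∈ L ↔ t < j) → (∀ w ∈ W, j ≤ w) →
      wl (sv a b) L (Pi.single W 1) (univ.filter (· < j) ∪ W) = xm2 (0, Bd b j) ∨
      wl (sv a b) L (Pi.single W 1) (univ.filter (· < j) ∪ W) = -xm2 (0, Bd b j) := by
  induction j using WellFoundedLT.induction with
  | ind j ih =>
  intro L W hL hm hW
  rcases pred_cases j with h | ⟨t, ht⟩
  · have : L = [] := List.eq_nil_iff_forall_not_mem.2 fun t h' => h t ((hm t).1 h')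
    subst this
    left
    rw [filter_false_of_mem fun t _ => h t, Bd_bot h, xm2_zero]
    simp [wl]
  · have htL : t ∈ L := (hm t).2 ht.1
    have htW : t ∉ W := fun h => not_lt.2 (hW t h) ht.1
    have hm' : ∀ r, r ∈ L.erase t ↔ r < t := fun r => by
      rw [hL.mem_erase_iff, hm]
      exact ⟨fun h => lt_of_le_of_ne (ht.2 r h.2) h.1, fun h => ⟨h.ne, h.trans ht.1⟩⟩
    have hI := ih t ht.1 (L.erase t) W (hL.erase t) hm' fun w hw => ht.1.le.trans (hW w hw)
    have hS := sup_wl (sv a b) (sv_tri a b) (sup_single (A := A2) t W) (L.erase t)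
      fun r hr => (hm' r).1 hr
    have hmem : t ∈ univ.filter (· < j) ∪ W := mem_union_left _ (mem_filter.2 ⟨mem_univ _, ht.1⟩)
    have her : (univ.filter (· < j) ∪ W).erase t = univ.filter (· < t) ∪ W := by
      ext r
      simp only [mem_erase, mem_union, mem_filter, mem_univ, true_and]
      constructor
      · rintro ⟨h1, h2 | h2⟩
        · exact Or.inl (lt_of_le_of_ne (ht.2 r h2) h1)
        · exact Or.inr h2
      · rintro (h | h)
        · exact ⟨h.ne, Or.inl (h.trans ht.1)⟩
        · exact ⟨fun e => htW (e ▸ h), Or.inr h⟩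
    have hv : wl (sv a b) (t :: L.erase t) (Pi.single W 1) (univ.filter (· < j) ∪ W) =
        sg t (univ.filter (· < j) ∪ W) • (xm2 (0, b t + 1 - Bd b t) *
          wl (sv a b) (L.erase t) (Pi.single W 1) (univ.filter (· < t) ∪ W)) := by
      rw [wl, wd_def, Finset.sum_apply, sum_eq_single t]
      · rw [Pi.smul_apply, cr_apply, if_pos hmem, her, sv, if_pos rfl, smul_eq_mul, mul_smul_comm]
      · intro r _ hr
        have : wl (sv a b) (L.erase t) (Pi.single W 1) ((univ.filter (· < j) ∪ W).erase r) = 0 := by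
          by_contra hne
          exact htW ((hS _ hne t le_rfl).1 (mem_erase.2 ⟨hr.symm, hmem⟩))
        rw [Pi.smul_apply, cr_apply, this]
        simp
      · simp
    have hB : xm2 (0, b t + 1 - Bd b t) * xm2 (0, Bd b t) = xm2 (0, Bd b j) := by
      have : Bd b t ≤ b t := Bd_le fun r hr => hb hr
      rw [xm2_mul, Bd_pred hb ht]
      congr 1
      exact Prod.ext (by simp) (by simp; omega)
    rcases wl_perm (sv a b) (List.perm_cons_erase htL) (Pi.single W 1) with e | e <;>
      rcases sg_eq_or t (univ.filter (· < j) ∪ W) with e1 | e1 <;> rcases hI with e2 | e2 <;>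
      simp only [e, Pi.neg_apply, hv, e1, e2, one_smul, neg_smul, mul_neg, hB, neg_neg, true_or,
        or_true]

/-- digits of the upper part of a label -/
def dig (j : σ) (I : Finset σ) : Colex (σ → ℕ) :=
  toColex fun t => if j < t ∧ t ∈ I then 2 else if t = j then 1 else 0

def lo (j : σ) (I : Finset σ) : Finset σ := I.filter (· < j)

def hi (j : σ) (I : Finset σ) : Finset σ := I.filter (j < ·)

theorem card_lo_hi {j : σ} {I : Finset σ} (h : j ∉ I) : (lo j I).card + (hi j I).card = I.card := by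
  rw [← card_filter_add_card_filter_not (s := I) (· < j), lo, hi]
  congr 2
  refine filter_congr fun t ht => ?_
  have : t ≠ j := fun e => h (e ▸ ht)
  exact ⟨fun h => not_lt.2 h.le, fun h => lt_of_le_of_ne (not_lt.1 h) this.symm⟩

/-- the left vectors, without the monomial -/
def zv (a b : σ → ℕ) (j : σ) (I : Finset σ) : Finset σ → A2 :=
  dl (sv a b) (univ.filter (· < j) \ lo j I).toList (Pi.single (univ.filter (· < j) ∪ hi j I) 1)

/-- the right vectors, without the monomial -/
def ev' (a b : σ → ℕ) (j : σ) (I : Finset σ) : Finset σ → A2 :=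
  wl (sv a b) (lo j I).toList (Pi.single (insert j (hi j I)) 1)

theorem lo_sub (j : σ) (I : Finset σ) : lo j I ⊆ univ.filter (· < j) :=
  fun _ ht => mem_filter.2 ⟨mem_univ _, (mem_filter.1 ht).2⟩

theorem val_zv (a b : σ → ℕ) {j : σ} {I : Finset σ} (h : j ∉ I) :
    Val univ I.card ⊤ (zv a b j I) := by
  apply val_dl
  have h1 : (univ.filter (· < j) ∪ hi j I).card =
      I.card + (univ.filter (· < j) \ lo j I).toList.length := by
    have hd : Disjoint (univ.filter (· < j)) (hi j I) := disjoint_left.2 fun t h1 h2 =>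
      lt_asymm (mem_filter.1 h1).2 (mem_filter.1 h2).2
    rw [length_toList, card_union_of_disjoint hd, card_sdiff_of_subset (lo_sub j I),
      ← card_lo_hi h]
    have := card_le_card (lo_sub j I)
    omega
  rw [← h1]
  exact val_single _

theorem val_ev (a b : σ → ℕ) {j : σ} {I : Finset σ} (h : j ∉ I) :
    Val univ (I.card + 1) ⊤ (ev' a b j I) := by
  have h1 : I.card + 1 = (insert j (hi j I)).card + (lo j I).toList.length := by
    rw [length_toList, card_insert_of_notMem (by simp [hi]), ← card_lo_hi h]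
    omega
  rw [h1]
  exact val_wl _ _ (val_single _)

theorem dig_lt {j j' s : σ} {I I' : Finset σ} (hs : j' ≤ s) (h1 : s ∈ insert j (hi j I))
    (h2 : s ∉ hi j' I') (h3 : s = j → j' < j)
    (h4 : ∀ t, s < t → (t ∈ insert j (hi j I) ↔ t ∈ hi j' I')) : dig j' I' < dig j I := by
  have hjs : j ≤ s := by
    rcases mem_insert.1 h1 with e | e
    · exact e.ge
    · exact (mem_filter.1 e).2.le
  refine ⟨s, fun t ht => ?_, ?_⟩
  · have ht' : s < t := ht
    have a1 : j < t := lt_of_le_of_lt hjs ht'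
    have a2 : j' < t := lt_of_le_of_lt hs ht'
    have := h4 t ht'
    simp only [hi, mem_insert, mem_filter, a1, a2, a1.ne', and_true, false_or] at this
    simp [dig, a1, a2, a1.ne', a2.ne', this]
  · simp only [hi, mem_insert, mem_filter] at h1 h2
    show (if j' < s ∧ s ∈ I' then 2 else if s = j' then 1 else 0) <
      (if j < s ∧ s ∈ I then 2 else if s = j then 1 else 0)
    rw [if_neg fun h => h2 ⟨h.2, h.1⟩]
    rcases h1 with e | e
    · have := h3 e
      subst e
      simp [this.ne']
    · rw [if_pos (show j < s ∧ s ∈ I from ⟨e.2, e.1⟩)]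
      split_ifs <;> norm_num

theorem tri {a b : σ → ℕ} (ha : Antitone a) (hb : StrictMono b) (f : A2) {j j' : σ}
    {I I' : Finset σ} (h : G (lm a b) f (zv a b j' I') (ev' a b j I) ≠ 0) :
    (j = j' ∧ hi j I = hi j' I') ∨ dig j' I' < dig j I := by
  have hL : ∀ m, j ≤ m → j' ≤ m →
      ∀ s ∈ (univ.filter (· < j') \ lo j' I').toList ++ (lo j I).toList, s < m := by
    intro m h1 h2 s hs
    rcases List.mem_append.1 hs with e | e
    · exact lt_of_lt_of_le (mem_filter.1 (mem_sdiff.1 (mem_toList.1 e)).1).2 h2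
    · exact lt_of_lt_of_le (mem_filter.1 (mem_toList.1 e)).2 h1
  have hI0 : ∀ t, j' ≤ t → (t ∈ univ.filter (· < j') ∪ hi j' I' ↔ t ∈ hi j' I') := fun t ht => by
    simp [not_lt.2 ht]
  rcases lt_or_ge j j' with hj | hj
  · right
    have h' := mt (formA (lm a b) (sv a b) (sv_syz ha hb) f _ _ _ _).2 h
    obtain ⟨s, -, hs⟩ := exists_ne_zero_of_sum_ne_zero h'
    have hS := sup_wl (sv a b) (sv_tri a b) (sup_single (A := A2) j' (insert j (hi j I))) _
      (hL j' hj.le le_rfl)
    rw [an_apply] at hs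
    split_ifs at hs with hsI
    · simp at hs
    have hne := hS (insert s (univ.filter (· < j') ∪ hi j' I')) fun h0 => hs (by rw [h0]; simp)
    have hjs : j' ≤ s := by
      by_contra hlt
      exact hsI (mem_union_left _ (mem_filter.2 ⟨mem_univ _, not_le.1 hlt⟩))
    refine dig_lt hjs ((hne s hjs).1 (mem_insert_self _ _)) (fun h => hsI (mem_union_right _ h))
      (fun e => absurd (e ▸ hjs) (not_le.2 hj)) fun t ht => ?_
    rw [← hne t (hjs.trans ht.le), mem_insert, hI0 t (hjs.trans ht.le)]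
    simp [ht.ne']
  · have h' := mt (formB (lm a b) (sv a b) (sv_syz ha hb) f _ _ _ _).2 h
    obtain ⟨s, -, hs⟩ := exists_ne_zero_of_sum_ne_zero h'
    have hsJ : s ∈ insert j (hi j I) := by
      by_contra hn
      apply hs
      rw [an_single_eq_zero hn, ← zero_smul ℤ (0 : Finset σ → A2), wl_zsmul]
      simp
    have hS := sup_wl (sv a b) (sv_tri a b) (sup_an_single (A := A2) j s (insert j (hi j I))) _
      (hL j le_rfl hj)
    have hne := hS (univ.filter (· < j') ∪ hi j' I') fun h0 => hs (by rw [h0]; simp)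
    have hjs : j ≤ s := by
      rcases mem_insert.1 hsJ with e | e
      · exact e.ge
      · exact (mem_filter.1 e).2.le
    by_cases hc : s = j ∧ j' = j
    · left
      obtain ⟨rfl, rfl⟩ := hc
      refine ⟨rfl, ?_⟩
      rw [erase_insert (by simp [hi])] at hne
      ext t
      by_cases ht : j' ≤ t
      · rw [← hne t ht, hI0 t ht]
      · have := not_le.1 ht
        simp [hi, this.not_gt]
    · right
      refine dig_lt (hj.trans hjs) hsJ (fun h => ?_)
        (fun e => lt_of_le_of_ne hj fun e' => hc ⟨e, e'⟩) fun t ht => ?_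
      · exact notMem_erase s _ ((hne s hjs).1 (mem_union_right _ h))
      · rw [← hI0 t ((hj.trans hjs).trans ht.le), hne t (hjs.trans ht.le), mem_erase]
        simp [ht.ne']

theorem diag {a b : σ → ℕ} (ha : Antitone a) (hb : StrictMono b) (f : A2) {j : σ}
    {I I' : Finset σ} (hI : j ∉ I) (hI' : j ∉ I') (hc : I.card = I'.card)
    (hh : hi j I = hi j I') : G (lm a b) f (zv a b j I') (ev' a b j I) ≠ 0 ↔
      I = I' ∧ lm a b j (f * xm2 (0, Bd b j)) ≠ 0 := by
  have hjh : j ∉ hi j I := by simp [hi]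
  have hL : ∀ s ∈ (univ.filter (· < j) \ lo j I').toList ++ (lo j I).toList, s < j := by
    intro s hs
    rcases List.mem_append.1 hs with e | e
    · exact (mem_filter.1 (mem_sdiff.1 (mem_toList.1 e)).1).2
    · exact (mem_filter.1 (mem_toList.1 e)).2
  have han : an j (Pi.single (insert j (hi j I)) 1 : Finset σ → A2) = Pi.single (hi j I) 1 := by
    funext J
    rw [an_apply]
    by_cases e : J = hi j I
    · subst e
      rw [if_neg hjh, sg_of_forall_lt (s := j) (I := hi j I) fun t ht => (mem_filter.1 ht).2]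
      simp
    · rw [Pi.single_eq_of_ne e]
      split_ifs with h1
      · rfl
      · rw [Pi.single_eq_of_ne, smul_zero]
        intro e'
        apply e
        rw [← erase_insert h1, e', erase_insert hjh]
  rw [Ne, zv, ev', formB (lm a b) (sv a b) (sv_syz ha hb), sum_eq_single j, han, ← hh]
  · by_cases e : lo j I = lo j I'
    · have hII : I = I' := by
        ext t
        rcases lt_trichotomy t j with h | h | h
        · simpa [lo, h] using Finset.ext_iff.1 e t
        · subst h; simp [hI, hI']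
        · simpa [hi, h] using Finset.ext_iff.1 hh t
      subst hII
      have hnd : ((univ.filter (· < j) \ lo j I).toList ++ (lo j I).toList).Nodup := by
        refine List.nodup_append.2 ⟨nodup_toList _, nodup_toList _, fun s hs t ht e => ?_⟩
        subst e
        exact (mem_sdiff.1 (mem_toList.1 hs)).2 (mem_toList.1 ht)
      have hm : ∀ t, t ∈ (univ.filter (· < j) \ lo j I).toList ++ (lo j I).toList ↔ t < j := by
        refine fun t => ⟨hL t, fun ht => ?_⟩
        by_cases h : t ∈ lo j I <;> simp [h, ht]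
      rcases det_sv a hb j _ (hi j I) hnd hm fun w hw => (mem_filter.1 hw).2.le with e | e <;>
        simp [e]
    · have hcl : (lo j I).card = (lo j I').card := by
        have h1 := card_lo_hi hI
        have h2 := card_lo_hi hI'
        rw [hh] at h1
        omega
      obtain ⟨s, hs, hs'⟩ : ∃ s ∈ lo j I, s ∉ lo j I' := by
        by_contra hn
        push Not at hn
        exact e (eq_of_subset_of_card_le hn hcl.ge)
      rw [wl_dup (sv a b) (mem_toList.2 (mem_sdiff.2 ⟨lo_sub j I hs, hs'⟩)) (mem_toList.2 hs)]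
      have : I ≠ I' := fun e' => e (by rw [e'])
      simp [this]
  · intro s _ hs
    by_cases hsJ : s ∈ insert j (hi j I)
    · have hS := sup_wl (sv a b) (sv_tri a b) (sup_an_single (A := A2) j s (insert j (hi j I))) _ hL
      by_contra hne
      have h1 := (hS (univ.filter (· < j) ∪ hi j I') (fun h0 => hne (by rw [h0]; simp)) j le_rfl).2
        (mem_erase.2 ⟨hs.symm, mem_insert_self _ _⟩)
      simp [hi] at h1
    · rw [an_single_eq_zero hsJ, ← zero_smul ℤ (0 : Finset σ → A2), wl_zsmul]
      simp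
  · simp

theorem G_smul (l : σ → A2 →+ ℂ) (f g : A2) (z η : Finset σ → A2) :
    G l 1 (f • z) (g • η) = G l (f * g) z η := by
  simp only [G, an_smul, pr_smul_left, pr_smul_right, one_mul, mul_assoc, mul_left_comm g f]

theorem G_sum (a b : σ → ℕ) {ι : Type} [Fintype ι] (c : ι → ℂ) (z : Finset σ → A2)
    (η : ι → Finset σ → A2) :
    G (lm a b) 1 z (∑ k, (C (c k) : A2) • η k) = ∑ k, G (lm a b) 1 z (η k) * c k := by
  have h : ∀ t, pr z (an t (∑ k, (C (c k) : A2) • η k)) = ∑ k, C (c k) * pr z (an t (η k)) := by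
    intro t
    simp only [map_sum, an_smul, ← pr_smul_right]
    simp only [pr, Finset.sum_apply, mul_sum]
    exact sum_comm
  simp only [G, h]
  simp only [one_mul, map_sum, sum_mul, lm_apply, coeff_C_mul]
  rw [sum_comm]
  exact sum_congr rfl fun k _ => sum_congr rfl fun t _ => mul_comm _ _

theorem val_sum {ι : Type} [Fintype ι] {p : ℕ} (η : ι → Finset σ → A2)
    (h : ∀ k, Val univ p ⊤ (η k)) : Val univ p ⊤ (∑ k, η k) := fun J =>
  ⟨trivial, fun hJ => by
    rw [Finset.sum_apply]; exact sum_eq_zero fun k _ => (h k J).2 hJ⟩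

theorem main {κ : Type} [Fintype κ] {a b : σ → ℕ} (ha : Antitone a) (hb : StrictMono b)
    (c : κ → ℕ × ℕ) (hc : Function.Injective c) (j : κ → σ)
    (h1 : ∀ u, c u ≤ (a (j u), b (j u))) (h2 : ∀ u s, s < j u → b s < (c u).2) (p N : ℕ)
    (hN : N = Fintype.card κ * (Fintype.card σ - 1).choose p) :
    ∃ z η : Fin N → Finset σ → A2, (∀ i, Val univ p ⊤ (z i)) ∧ (∀ i, Val univ (p + 1) ⊤ (η i)) ∧
      ∀ i i', G (lm a b) 1 (z i) (η i') = if i = i' then 1 else 0 := by
  classical
  let ι := Σ u : κ, {I // I ∈ powersetCard p (univ.erase (j u))}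
  have hcard : Fintype.card ι = N := by
    rw [hN, Fintype.card_sigma]
    simp only [Fintype.card_coe, card_powersetCard, card_erase_of_mem (mem_univ _), card_univ,
      sum_const, smul_eq_mul]
  let e : Fin N ≃ ι := (Fintype.equivFinOfCardEq hcard).symm
  have hn : ∀ x : ι, j x.1 ∉ x.2.1 := fun x h =>
    notMem_erase _ _ ((mem_powersetCard.1 x.2.2).1 h)
  have hp : ∀ x : ι, x.2.1.card = p := fun x => (mem_powersetCard.1 x.2.2).2
  let z : ι → Finset σ → A2 := fun x =>
    xm2 (a (j x.1) - (c x.1).1, b (j x.1) - (c x.1).2) • zv a b (j x.1) x.2.1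
  let η : ι → Finset σ → A2 := fun x =>
    xm2 ((c x.1).1, (c x.1).2 - Bd b (j x.1)) • ev' a b (j x.1) x.2.1
  have hz : ∀ x, Val univ p ⊤ (z x) := fun x =>
    val_smul (by have := val_zv a b (hn x); rwa [hp x] at this) _
  have hη : ∀ x, Val univ (p + 1) ⊤ (η x) := fun x =>
    val_smul (by have := val_ev a b (hn x); rwa [hp x] at this) _
  have hlm : ∀ u u' : κ, j u = j u' →
      (lm a b (j u') (xm2 (a (j u') - (c u').1, b (j u') - (c u').2) *
        xm2 ((c u).1, (c u).2 - Bd b (j u')) * xm2 (0, Bd b (j u'))) ≠ 0 ↔ u = u') := by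
    intro u u' hj
    have a1 := (h1 u').1
    have a2 := (h1 u').2
    have a3 : Bd b (j u') ≤ (c u).2 := Bd_le fun s hs => h2 u s (hj ▸ hs)
    simp only at a1 a2
    rw [xm2_mul, xm2_mul, lm_apply, coeff_xm2, Prod.ext_iff]
    simp only [Prod.fst_add, Prod.snd_add]
    constructor
    · rintro ⟨b1, b2⟩
      exact hc (Prod.ext (by omega) (by omega))
    · rintro rfl
      omega
  let M : Matrix ι ι ℂ := Matrix.of fun x x' => G (lm a b) 1 (z x) (η x')
  have hM : IsUnit M := by
    refine unit_of_tri (fun x : ι => dig (j x.1) x.2.1) M (fun x => ?_) fun x x' h => ?_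
    · show G (lm a b) 1 (z x) (η x) ≠ 0
      rw [G_smul, diag ha hb _ (hn x) (hn x) rfl rfl, hlm x.1 x.1 rfl]
      exact ⟨rfl, rfl⟩
    · have h' : G (lm a b) 1 (z x) (η x') ≠ 0 := h
      rw [G_smul] at h'
      rcases tri ha hb _ h' with ⟨e1, e2⟩ | e1
      · left
        have hn' := hn x'
        have hp' := (hp x').trans (hp x).symm
        have h3 : x'.2.1 = x.2.1 ∧ x'.1 = x.1 := by
          generalize x'.2.1 = I' at h' hn' e2 hp'
          rw [e1] at h' hn' e2
          rwa [diag ha hb _ hn' (hn x) hp' e2, hlm x'.1 x.1 e1] at h'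
        obtain ⟨u, I⟩ := x
        obtain ⟨u', I'⟩ := x'
        obtain ⟨e3, e4⟩ := h3
        simp only at e3 e4
        subst e4
        rw [Subtype.ext e3]
      · exact Or.inr e1
  refine ⟨fun i => z (e i), fun i => ∑ k, (C (M⁻¹ k (e i)) : A2) • η k, fun i => hz _,
    fun i => val_sum _ fun k => val_smul (hη k) _, fun i i' => ?_⟩
  rw [G_sum]
  have := congrFun (congrFun (Matrix.mul_nonsing_inv M ((Matrix.isUnit_iff_isUnit_det M).1 hM))
    (e i)) (e i')
  rw [Matrix.mul_apply, Matrix.one_apply] at this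
  simp only [e.apply_eq_iff_eq] at this
  exact this

end

theorem cor_ex {n : ℕ} {μ : Fin n → ℕ × ℕ} (h : Function.Injective μ) (v : Fin n) :
    ∃ u, IsCor μ u ∧ μ v ≤ μ u := by
  obtain ⟨u, hu, hm⟩ := exists_max_image (univ.filter fun u => μ v ≤ μ u)
    (fun u => (μ u).1 + (μ u).2) ⟨v, by simp⟩
  have hu' := (mem_filter.1 hu).2
  refine ⟨u, fun w hw => h ?_, hu'⟩
  have := hm w (mem_filter.2 ⟨mem_univ _, hu'.trans hw⟩)
  have a1 := hw.1
  have a2 := hw.2
  exact Prod.ext (by omega) (by omega)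

end GCombAux

open GCombAux in
theorem comb : S_Comb := by
  intro n μ hμ hs p
  have hb : StrictMono fun s : Cor μ => (μ s).2 := by
    intro s t hst
    refine lt_of_le_of_ne (hs s t hst.le) fun e => ?_
    rcases le_total (μ s).1 (μ t).1 with h | h
    · exact hst.ne' (Subtype.ext (s.2 t ⟨h, le_of_eq e⟩))
    · exact hst.ne (Subtype.ext (t.2 s ⟨h, le_of_eq e.symm⟩))
  have ha : Antitone fun s : Cor μ => (μ s).1 := by
    intro s t hst
    by_contra h
    have := s.2 t ⟨(not_le.1 h).le, hs s t hst⟩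
    exact h (by simp only [this]; exact le_rfl)
  have hj : ∀ u : Fin n, ∃ j : Cor μ, μ u ≤ ((μ j).1, (μ j).2) ∧
      ∀ s : Cor μ, s < j → (μ s).2 < (μ u).2 := by
    intro u
    obtain ⟨s, hs1, hs2⟩ := cor_ex hμ.1 u
    obtain ⟨j, hj1, hj2⟩ := exists_min_image (univ.filter fun t : Cor μ => (μ u).2 ≤ (μ t).2) id
      ⟨⟨s, hs1⟩, mem_filter.2 ⟨mem_univ _, hs2.2⟩⟩
    refine ⟨j, ⟨hs2.1.trans (ha (hj2 ⟨s, hs1⟩ (mem_filter.2 ⟨mem_univ _, hs2.2⟩))),
      (mem_filter.1 hj1).2⟩, fun t ht => ?_⟩
    by_contra h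
    exact not_lt.2 (hj2 t (mem_filter.2 ⟨mem_univ _, not_lt.1 h⟩)) ht
  choose j h1 h2 using hj
  obtain ⟨z, η, hz, hη, hG⟩ := main ha hb μ hμ.1 j h1 h2 p
    (n * (Fintype.card (Cor μ) - 1).choose p) (by rw [Fintype.card_fin])
  refine ⟨z, η, hz, hη, fun i i' => ?_⟩
  rw [← hG]
  exact sum_congr rfl fun s _ => by rw [one_mul, ← pr_cr]; rfl

end

end Pool.Agent.P.MP_c2aaf5_co
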