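import Pool.Agent.P.MP_c2aaf5_co.DefG

/-! Package G12: expansion in the basis of the universal module. -/

set_option linter.unusedSectionVars false

namespace Pool.Agent.P.MP_c2aaf5_co

open MvPolynomial Finset

noncomputable section

namespace GExpAux

section pairing
variable {σ : Type} [LinearOrder σ] [Fintype σ] {K : Type} [CommRing K]

/-- the pairing of cochains -/
def pr (u v : Finset σ → K) : K := ∑ I, u I * v I

theorem pr_cr (s : σ) (u v : Finset σ → K) : pr (cr s u) v = pr u (an s v) := by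
  unfold pr
  simp only [cr_apply, an_apply, ite_mul, zero_mul, mul_ite, mul_zero]
  rw [← sum_filter, sum_ite, sum_const_zero, zero_add]
  refine sum_bij' (fun J _ => J.erase s) (fun I _ => insert s I) (by simp) (by simp)
    (fun J hJ => insert_erase (by simpa using hJ)) (fun I hI => erase_insert (by simpa using hI))
    fun J hJ => ?_
  rw [insert_erase (by simpa using hJ), sg_erase_self, smul_mul_assoc, mul_smul_comm]

theorem pr_smul (c : K) (u v : Finset σ → K) : pr (c • u) v = c * pr u v := by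
  simp only [pr, Pi.smul_apply, smul_eq_mul, mul_sum, mul_assoc]

theorem pr_add (u u' v : Finset σ → K) : pr (u + u') v = pr u v + pr u' v := by
  simp only [pr, Pi.add_apply, add_mul, sum_add_distrib]

theorem pr_sum {ι : Type} (S : Finset ι) (u : ι → Finset σ → K) (v : Finset σ → K) :
    pr (∑ i ∈ S, u i) v = ∑ i ∈ S, pr (u i) v := by
  simp only [pr, Finset.sum_apply, sum_mul]
  exact sum_comm

theorem pr_wd (ξ : σ → K) (u v : Finset σ → K) : pr (wd univ ξ u) v = pr u (dd univ ξ v) := by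
  rw [wd_def, pr_sum, dd_def]
  simp only [pr_smul, pr_cr]
  simp only [pr, Finset.sum_apply, Pi.smul_apply, smul_eq_mul, mul_sum]
  rw [sum_comm]
  exact sum_congr rfl fun I _ => sum_congr rfl fun s _ => by ring

end pairing

section proj
variable {σ : Type} [LinearOrder σ] [Fintype σ] {K : Type} [Field K]

/-- projection to the cochains supported away from `s` -/
def pj (ξ : σ → K) (s : σ) (u : Finset σ → K) : Finset σ → K := (ξ s)⁻¹ • an s (wd univ ξ u)

theorem pr_pj {ξ : σ → K} {s : σ} (hs : ξ s ≠ 0) (u : Finset σ → K) {F : Finset σ → K}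
    (hF : dd univ ξ F = 0) : pr (pj ξ s u) F = pr u F := by
  have h := congrArg (fun w => pr w F) (an_wd univ ξ s u)
  simp only [mem_univ, if_true, pr_add, pr_smul, pr_wd, hF] at h
  have h0 : pr (an s u) (0 : Finset σ → K) = 0 := by simp [pr]
  rw [h0, add_zero] at h
  rw [pj, pr_smul, h, inv_mul_cancel_left₀ hs]

theorem pj_supp {ξ : σ → K} {s : σ} {p : ℕ} {u : Finset σ → K} (hu : Val univ p ⊤ u)
    {I : Finset σ} (hI : ¬(s ∉ I ∧ I.card = p)) : pj ξ s u I = 0 := by
  have h := (hu.wd (ξ := ξ) (A' := ⊤) fun _ _ _ _ => trivial).an s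
  rw [pj, Pi.smul_apply]
  by_cases h1 : s ∈ I
  · rw [an_apply, if_pos h1, smul_zero]
  · rw [(h I).2 fun h2 => hI ⟨h1, h2.2⟩, smul_zero]

theorem card_off (s : σ) (p : ℕ) [Fintype {I : Finset σ // s ∉ I ∧ I.card = p}] :
    Fintype.card {I : Finset σ // s ∉ I ∧ I.card = p} = (Fintype.card σ - 1).choose p := by
  rw [Fintype.card_subtype, ← card_univ, ← card_erase_of_mem (mem_univ s), ← card_powersetCard]
  congr 1
  ext I
  simp [mem_powersetCard, subset_erase]

end proj

variable {K : Type} [Field K] [Algebra ℂ K]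

theorem gram {O : Subalgebra ℂ K} {M : Submodule ℂ K} (h : LocD O M) {A : Type} [Fintype A]
    [DecidableEq A] (G : Matrix A A K) (hG : ∀ a a', G a a' - (1 : Matrix A A K) a a' ∈ M) :
    ∃ H : Matrix A A K, G * H = 1 ∧ ∀ a a', H a a' - (1 : Matrix A A K) a a' ∈ M := by
  let M' : Ideal O :=
    { carrier := {r | r.1 ∈ M}
      add_mem' := fun ha hb => M.add_mem ha hb
      zero_mem' := M.zero_mem
      smul_mem' := fun c r hr => h.mul c c.2 r hr }
  have h1 : ∀ a a', (((1 : Matrix A A O) a a' : O) : K) = (1 : Matrix A A K) a a' := fun a a' => by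
    simp only [Matrix.one_apply]
    split_ifs <;> rfl
  have hO : ∀ a a', G a a' ∈ O := fun a a' => by
    have := O.add_mem (h.le _ (hG a a')) ((1 : Matrix A A O) a a').2
    rwa [h1, sub_add_cancel] at this
  let G' : Matrix A A O := Matrix.of fun a a' => ⟨G a a', hO a a'⟩
  let q := Ideal.Quotient.mk M'
  have hq : q.mapMatrix G' = 1 := by
    rw [← map_one q.mapMatrix]
    ext a a'
    refine Ideal.Quotient.eq.2 ?_
    change G a a' - _ ∈ M
    rw [h1]
    exact hG a a'
  have hd : (G'.det : K) - 1 ∈ M := by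
    have : q G'.det = q 1 := by rw [q.map_det, hq, Matrix.det_one, map_one]
    exact Ideal.Quotient.eq.1 this
  have hn : (G'.det : K) ∉ M := fun hm => h.one (by simpa using M.sub_mem hm hd)
  have hu : IsUnit G'.det :=
    IsUnit.of_mul_eq_one (⟨_, h.inv _ G'.det.2 hn⟩ : O)
      (Subtype.ext (mul_inv_cancel₀ fun h0 => hn (h0 ▸ M.zero_mem)))
  have e := Matrix.mul_nonsing_inv G' hu
  refine ⟨O.val.toRingHom.mapMatrix G'⁻¹, ?_, fun a a' => ?_⟩
  · have : G = O.val.toRingHom.mapMatrix G' := rfl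
    rw [this, ← map_mul, e, map_one]
  · have e2 := congrArg q.mapMatrix e
    rw [map_mul, hq, one_mul] at e2
    have := Ideal.Quotient.eq.1 (congrFun (congrFun e2 a) a')
    rw [← h1]
    exact this

variable {m : ℕ} {x y : Fin (m + 1) → K} {ρ : Equiv.Perm (Fin (m + 1)) →* (K ≃ₐ[ℂ] K)}
  {μ : Fin (m + 1) → ℕ × ℕ}

theorem mon2_eq (d : Fin 2 →₀ ℕ) : mon2 (d 0, d 1) = d := by
  ext i
  fin_cases i <;> simp [mon2]

theorem gm_le : gm x y μ ⊆ (mO x y μ : Set K) := fun g hg => by
  have := Submodule.mul_mem_mul (M := Subalgebra.toSubmodule (Os x y μ)) (Os x y μ).one_mem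
    (Submodule.subset_span (R := ℂ) hg)
  rwa [one_mul] at this

theorem trace_poly (h1 : Ch1 x y ρ μ) (hμ : Function.Injective μ) (u : Fin (m + 1))
    (f : MvPolynomial (Fin 2) ℂ) :
    ∑ i, ρ (Equiv.swap 0 i) (aeval ![x 0, y 0] f * xi x y μ u) -
      algebraMap ℂ K (coeff (mon2 (μ u)) f) ∈ mO x y μ := by
  induction f using MvPolynomial.induction_on' with
  | monomial d c =>
    have e : aeval ![x 0, y 0] (monomial d c) = c • pw x y 0 (d 0, d 1) := by
      rw [aeval_monomial, Finsupp.prod_fintype _ _ (by simp), Fin.prod_univ_two, Algebra.smul_def]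
      rfl
    simp only [e, smul_mul_assoc, map_smul, ← smul_sum, h1.trace, coeff_monomial]
    by_cases hd : ∃ v, μ v = (d 0, d 1)
    · obtain ⟨v, hv⟩ := hd
      have : d = mon2 (μ u) ↔ v = u := by
        constructor
        · intro h
          apply hμ
          rw [hv, h]
          simp [mon2]
        · rintro rfl
          rw [hv, mon2_eq]
      rw [← hv, h1.self]
      by_cases hvu : v = u
      · simp [hvu, this.2 hvu, Algebra.smul_def]
      · simp [hvu, this.not.2 hvu]
    · rw [if_neg fun h => hd ⟨u, by rw [h]; simp [mon2]⟩,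
        map_zero (algebraMap ℂ K), sub_zero]
      exact (mO x y μ).smul_mem c (gm_le ⟨_, u, fun v hv => hd ⟨v, hv⟩, rfl⟩)
  | add f g hf hg =>
    have := (mO x y μ).add_mem hf hg
    simp only [map_add, add_mul, sum_add_distrib, coeff_add]
    convert this using 1
    ring

/-- evaluation of a polynomial cochain at the point `0` -/
def tl (x y : Fin (m + 1) → K) {μ : Fin (m + 1) → ℕ × ℕ}
    (z : Finset (Cor μ) → MvPolynomial (Fin 2) ℂ) (I : Finset (Cor μ)) : K :=
  aeval ![x 0, y 0] (z I)

theorem tl_val {p : ℕ} {z : Finset (Cor μ) → MvPolynomial (Fin 2) ℂ} (h : Val univ p ⊤ z) :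
    Val univ p ⊤ (tl x y z) := fun I => ⟨trivial, fun hI => by rw [tl, (h I).2 hI, map_zero]⟩

theorem trace_gam (h1 : Ch1 x y ρ μ) (hμ : Function.Injective μ)
    (z η : Finset (Cor μ) → MvPolynomial (Fin 2) ℂ) :
    ∑ i, ρ (Equiv.swap 0 i) (pr (tl x y z) (dd univ (xc x y μ) (tl x y η))) -
      algebraMap ℂ K (gam μ z η) ∈ mO x y μ := by
  have e : pr (tl x y z) (dd univ (xc x y μ) (tl x y η)) =
      ∑ s : Cor μ, aeval ![x 0, y 0] (∑ J, cr s z J * η J) * xi x y μ s := by
    rw [← pr_wd, wd_def, pr_sum]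
    refine sum_congr rfl fun s _ => ?_
    rw [pr_smul, mul_comm, map_sum]
    congr 1
    refine sum_congr rfl fun J _ => ?_
    rw [map_mul, cr_apply, cr_apply]
    split_ifs
    · rw [map_zsmul]; rfl
    · simp
  rw [e, gam]
  simp only [map_sum (ρ _), map_sum (algebraMap ℂ K)]
  rw [sum_comm, ← sum_sub_distrib]
  exact (mO x y μ).sum_mem fun s _ => trace_poly h1 hμ s _

end GExpAux

open GExpAux

theorem expn : S_Exp := by
  intro K _ _ m x y ρ μ _ hμ h1 h2 p b b' hC F hF hdF z hz
  obtain ⟨s⟩ := h2.core.nonempty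
  have hs := h2.core.ne s
  set ξ := xc x y μ with hξ
  let B := Fin (m + 1) × {I : Finset (Cor μ) // s ∉ I ∧ I.card = p}
  let A := Fin ((m + 1) * (Fintype.card (Cor μ) - 1).choose p)
  have hB : Fintype.card A = Fintype.card B := by
    rw [Fintype.card_prod, card_off, Fintype.card_fin, Fintype.card_fin]
  let V : (Finset (Cor μ) → K) → B → K := fun u j => ρ (Equiv.swap 0 j.1) (u j.2.1)
  have hV : ∀ w η : Finset (Cor μ) → MvPolynomial (Fin 2) ℂ, Val univ p ⊤ w →
      ∑ j, V (pj ξ s (tl x y w)) j * V (dd univ ξ (tl x y η)) j -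
        algebraMap ℂ K (gam μ w η) ∈ mO x y μ := fun w η hw => by
    convert trace_gam h1 hμ.1 w η using 2
    rw [Fintype.sum_prod_type]
    refine sum_congr rfl fun i _ => ?_
    simp only [V, ← map_mul, ← map_sum]
    congr 1
    rw [← pr_pj hs (s := s) _ (dd_dd _ _ _), pr]
    symm
    rw [← sum_filter_of_ne (p := fun I => s ∉ I ∧ I.card = p) fun I _ hI => by
      by_contra h
      exact hI (by rw [pj_supp (tl_val hw) h, zero_mul])]
    exact sum_subtype _ (by simp) _
  let F1 : Matrix A B K := Matrix.of fun a j => V (pj ξ s (tl x y (b a))) j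
  let F2 : Matrix B A K := Matrix.of fun j a => V (dd univ ξ (tl x y (b' a))) j
  obtain ⟨H, hH, hH1⟩ := gram h2.locO (F1 * F2) fun a a' => by
    have := hV (b a) (b' a') (hC.1 a)
    rw [hC.2.2] at this
    convert this using 2
    · rfl
    · rw [Matrix.one_apply]
      split_ifs <;> simp
  rw [Matrix.mul_assoc, Matrix.mul_eq_one_comm_of_equiv (Fintype.equivOfCardEq hB)] at hH
  let v : B → K := V (pj ξ s (tl x y z))
  let κ : A → K := Matrix.vecMul (Matrix.vecMul v F2) H
  have hv : v = Matrix.vecMul κ F1 := by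
    simp only [κ, Matrix.vecMul_vecMul]
    rw [hH, Matrix.vecMul_one]
  have hO : ∀ a a', H a a' ∈ Os x y μ := fun a a' => by
    have h3 : (1 : Matrix A A K) a a' ∈ Os x y μ := by
      rw [Matrix.one_apply]
      split_ifs
      exacts [one_mem _, zero_mem _]
    simpa using (Os x y μ).add_mem (h2.locO.le _ (hH1 a a')) h3
  have hκ : ∀ a, κ a - algebraMap ℂ K (gam μ z (b' a)) ∈ mO x y μ := fun a => by
    have e : κ a - algebraMap ℂ K (gam μ z (b' a)) =
        ∑ a', H a' a * (Matrix.vecMul v F2 a' - algebraMap ℂ K (gam μ z (b' a'))) +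
          ∑ a', gam μ z (b' a') • (H a' a - (1 : Matrix A A K) a' a) := by
      simp only [mul_comm (H _ a)]
      simp only [mul_sub, sub_mul, sum_sub_distrib, Algebra.smul_def, Matrix.one_apply, mul_ite,
        mul_one, mul_zero, sum_ite_eq', mem_univ, if_true]
      rw [sub_add_sub_cancel]
      rfl
    rw [e]
    exact add_mem (sum_mem fun a' _ => h2.locO.mul _ (hO a' a) _ (hV z (b' a') hz))
      (sum_mem fun a' _ => Submodule.smul_mem _ _ (hH1 a' a))
  have hp : pj ξ s (tl x y z) = ∑ a, κ a • pj ξ s (tl x y (b a)) := by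
    funext I
    rw [Finset.sum_apply]
    by_cases hI : s ∉ I ∧ I.card = p
    · have := congrFun hv (0, ⟨I, hI⟩)
      simpa [v, V, F1, Matrix.vecMul, dotProduct, ← Equiv.Perm.one_def] using this
    · rw [pj_supp (tl_val hz) hI]
      exact (sum_eq_zero fun a _ => by
        rw [Pi.smul_apply, pj_supp (tl_val (hC.1 a)) hI, smul_zero]).symm
  have hψ : ∀ w, psi x y w F = pr (pj ξ s (tl x y w)) F := fun w => (pr_pj hs _ hdF).symm
  have hE : ∀ f : MvPolynomial (Fin 2) ℂ, aeval ![x 0, y 0] f ∈ Pp x y μ := fun f => by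
    refine h2.core.le (le_sup_right (a := Os x y μ) ?_)
    have : ({x 0, y 0} : Set K) = Set.range ![x 0, y 0] := by simp [Set.pair_comm]
    rw [this, Algebra.adjoin_range_eq_range_aeval]
    exact ⟨f, rfl⟩
  rw [hψ z, hp, pr_sum, ← sum_sub_distrib]
  refine sum_mem fun a _ => ?_
  rw [pr_smul, ← hψ, Algebra.smul_def, ← sub_mul]
  exact Submodule.mul_mem_mul (hκ a)
    ((Pp x y μ).sum_mem fun I _ => (Pp x y μ).mul_mem (hE _) (hF I).1)

end

end Pool.Agent.P.MP_c2aaf5_co
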