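import Pool.Agent.P.MP_c2aaf5_co.DefG

/-! Generators of the maximal ideal adapted to the relations. -/

set_option linter.unusedSectionVars false

namespace Pool.Agent.P.MP_c2aaf5_co

open MvPolynomial Finset

noncomputable section

namespace GGenDAux

variable {K : Type} [Field K] [Algebra ℂ K]

theorem mul_le {R : Subalgebra ℂ K} {M : Submodule ℂ K} (h : LocD R M) : M * M ≤ M :=
  Submodule.mul_le.2 fun a ha b hb => h.mul a (h.le a ha) b hb

theorem sub_Id (R : Subalgebra ℂ K) (S : Set K) : Submodule.span ℂ S ≤ Id R S := fun g hg => by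
  simpa [Id] using Submodule.mul_mem_mul (show (1 : K) ∈ Subalgebra.toSubmodule R from R.one_mem) hg

theorem mul_Id {R : Subalgebra ℂ K} {S : Set K} {r : K} (hr : r ∈ R) {g : K} (hg : g ∈ Id R S) :
    r * g ∈ Id R S := by
  refine Submodule.mul_induction_on hg (fun a ha b hb => ?_) fun a b ha hb => ?_
  · rw [← mul_assoc]
    exact Submodule.mul_mem_mul (show r * a ∈ Subalgebra.toSubmodule R from R.mul_mem hr ha) hb
  · rw [mul_add]; exact add_mem ha hb

theorem nak {R : Subalgebra ℂ K} {M A : Submodule ℂ K} (h : LocD R M) (hn : IsNoetherianRing R)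
    (hA : ∀ r ∈ R, ∀ a ∈ A, r * a ∈ A) (hle : A ≤ M) (hM : M ≤ A ⊔ M * M) : M ≤ A := by
  let I : Ideal R :=
    { carrier := {r | r.1 ∈ M}
      add_mem' := fun ha hb => M.add_mem ha hb
      zero_mem' := M.zero_mem
      smul_mem' := fun c _ hx => h.mul _ c.2 _ hx }
  let N : Ideal R :=
    { carrier := {r | r.1 ∈ A}
      add_mem' := fun ha hb => A.add_mem ha hb
      zero_mem' := A.zero_mem
      smul_mem' := fun c _ hx => hA _ c.2 _ hx }
  have h1 : I ≤ Ideal.jacobson ⊥ := fun a ha => Ideal.mem_jacobson_bot.2 fun b => by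
    have h2 : (a * b + 1 : R).1 ∉ M := fun h2 => h.one (by
      have := M.sub_mem h2 (h.mul _ b.2 _ ha)
      simpa [mul_comm] using this)
    have h3 : (a * b + 1 : R).1 ≠ 0 := fun h3 => h2 (h3 ▸ M.zero_mem)
    exact IsUnit.of_mul_eq_one ⟨_, h.inv _ (a * b + 1 : R).2 h2⟩ (Subtype.ext (mul_inv_cancel₀ h3))
  have h2 : ∀ b ∈ M * M, ∃ hb : b ∈ R, (⟨b, hb⟩ : R) ∈ I • I := fun b hb => by
    refine Submodule.mul_induction_on hb (fun a ha b hb => ?_) ?_
    · exact ⟨R.mul_mem (h.le a ha) (h.le b hb),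
        Submodule.smul_mem_smul (r := (⟨a, h.le a ha⟩ : R)) (n := (⟨b, h.le b hb⟩ : R)) ha hb⟩
    · rintro a b ⟨ha, ha'⟩ ⟨hb, hb'⟩
      exact ⟨R.add_mem ha hb, add_mem ha' hb'⟩
  have h3 : I ≤ N := Submodule.le_of_le_smul_of_le_jacobson_bot (IsNoetherian.noetherian I) h1
    fun r hr => by
      obtain ⟨a, ha, b, hb, e⟩ := Submodule.mem_sup.1 (hM hr)
      obtain ⟨hb1, hb2⟩ := h2 b hb
      exact Submodule.mem_sup.2 ⟨⟨a, h.le a (hle ha)⟩, ha, _, hb2, Subtype.ext e⟩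
  exact fun g hg => h3 (show (⟨g, h.le g hg⟩ : R) ∈ I from hg)

theorem exists_coef {τ : Type} [Fintype τ] {ξ : τ → K} {A : Submodule ℂ K} {g : K}
    (hg : g ∈ A * Vx ξ) : ∃ a : τ → K, (∀ s, a s ∈ A) ∧ g = ∑ s, a s * ξ s := by
  refine Submodule.mul_induction_on hg (fun a ha b hb => ?_) ?_
  · obtain ⟨c, rfl⟩ := (Submodule.mem_span_range_iff_exists_fun ℂ).1 hb
    exact ⟨fun s => c s • a, fun s => A.smul_mem _ ha, by simp [Finset.mul_sum]⟩
  · rintro _ _ ⟨a, ha, rfl⟩ ⟨b, hb, rfl⟩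
    exact ⟨a + b, fun s => A.add_mem (ha s) (hb s), by simp [add_mul, Finset.sum_add_distrib]⟩

variable {m : ℕ} {x y : Fin (m + 1) → K} {ρ : Equiv.Perm (Fin (m + 1)) →* (K ≃ₐ[ℂ] K)}
  {μ : Fin (m + 1) → ℕ × ℕ}

/-- coefficient of the cell `t - e` -/
def DD (x y : Fin (m + 1) → K) (μ : Fin (m + 1) → ℕ × ℕ) (h e t : ℕ × ℕ) : K :=
  ∑ u, if μ u + e = t then cc x y μ h u else 0

theorem DD_x (h t : ℕ × ℕ) :
    DD x y μ h (1, 0) t = if t.1 = 0 then 0 else DD x y μ h 0 (t.1 - 1, t.2) := by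
  unfold DD
  split_ifs with h0
  · exact Finset.sum_eq_zero fun u _ => if_neg fun e => by
      have := congrArg Prod.fst e
      simp at this
      omega
  · refine Finset.sum_congr rfl fun u _ => if_congr ?_ rfl rfl
    simp only [Prod.ext_iff, Prod.fst_add, Prod.snd_add, add_zero]
    omega

theorem DD_y (h t : ℕ × ℕ) :
    DD x y μ h (0, 1) t = if t.2 = 0 then 0 else DD x y μ h 0 (t.1, t.2 - 1) := by
  unfold DD
  split_ifs with h0
  · exact Finset.sum_eq_zero fun u _ => if_neg fun e => by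
      have := congrArg Prod.snd e
      simp at this
      omega
  · refine Finset.sum_congr rfl fun u _ => if_congr ?_ rfl rfl
    simp only [Prod.ext_iff, Prod.fst_add, Prod.snd_add, add_zero]
    omega

theorem DD_cell (hμ : Function.Injective μ) (h : ℕ × ℕ) (u : Fin (m + 1)) :
    DD x y μ h 0 (μ u) = cc x y μ h u := by
  simp [DD, hμ.eq_iff]

theorem cc_mem {h : ℕ × ℕ} (hh : ∀ v, μ v ≠ h) (u : Fin (m + 1)) : cc x y μ h u ∈ mR x y μ :=
  sub_Id _ _ (Submodule.subset_span (Or.inl ⟨h, u, hh, rfl⟩))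

theorem x_mem : x 0 ∈ mR x y μ := sub_Id _ _ (Submodule.subset_span (Or.inr (Or.inl rfl)))

theorem y_mem : y 0 ∈ mR x y μ := sub_Id _ _ (Submodule.subset_span (Or.inr (Or.inr rfl)))

theorem DD_mem {h : ℕ × ℕ} (hh : ∀ v, μ v ≠ h) (e t : ℕ × ℕ) : DD x y μ h e t ∈ mR x y μ :=
  Submodule.sum_mem _ fun u _ => by
    split_ifs
    exacts [cc_mem hh u, zero_mem _]

theorem DD_self (h1 : Ch1 x y ρ μ) (v : Fin (m + 1)) (e t : ℕ × ℕ) :
    DD x y μ (μ v) e t = if μ v + e = t then 1 else 0 := by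
  unfold DD
  rw [Finset.sum_eq_single v]
  · simp [h1.self]
  · intro u _ hu
    simp [h1.self, hu.symm]
  · simp

theorem rule (hμ : Function.Injective μ) (h1 : Ch1 x y ρ μ) {h : ℕ × ℕ} (hh : ∀ v, μ v ≠ h)
    (e : ℕ × ℕ) (u : Fin (m + 1)) :
    DD x y μ (h + e) 0 (μ u) - DD x y μ h e (μ u) ∈ mR x y μ * mR x y μ := by
  rw [DD_cell hμ, h1.recu, DD, ← Finset.sum_sub_distrib]
  refine Submodule.sum_mem _ fun v _ => ?_
  by_cases hv : ∃ v', μ v' = μ v + e
  · obtain ⟨v', hv⟩ := hv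
    rw [← hv, h1.self]
    simp [hμ.eq_iff]
  · push Not at hv
    rw [if_neg (hv u).symm, sub_zero]
    exact Submodule.mul_mem_mul (cc_mem hh v) (cc_mem hv u)

/-- the coefficients of the relation attached to `t` -/
def kap (x y : Fin (m + 1) → K) (μ : Fin (m + 1) → ℕ × ℕ) (t : ℕ × ℕ) (v : Fin (m + 1)) : K :=
  DD x y μ (μ v + (0, 1)) (1, 0) t - DD x y μ (μ v + (1, 0)) (0, 1) t +
    (if μ v + (0, 1) = t then x 0 else 0) - (if μ v + (1, 0) = t then y 0 else 0)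

theorem sum_DD (h1 : Ch1 x y ρ μ) (h e t : ℕ × ℕ) : ∑ v, DD x y μ (μ v + h) e t * xi x y μ v =
    ∑ u, (if μ u + e = t then pw x y 0 h else 0) * xi x y μ u := by
  simp only [DD, Finset.sum_mul]
  rw [Finset.sum_comm]
  refine Finset.sum_congr rfl fun u _ => ?_
  split_ifs
  · rw [h1.xmul]
  · simp

theorem kap_rel (h1 : Ch1 x y ρ μ) (t : ℕ × ℕ) : ∑ v, kap x y μ t v * xi x y μ v = 0 := by
  simp only [kap, sub_mul, add_mul, Finset.sum_add_distrib, Finset.sum_sub_distrib, sum_DD h1, pw,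
    pow_zero, pow_one, mul_one, one_mul]
  ring

theorem kap_mem (h1 : Ch1 x y ρ μ) {t : ℕ × ℕ} (a1 : t.1 = 0 ∨ ∃ v, μ v + (1, 0) = t)
    (a2 : t.2 = 0 ∨ ∃ v, μ v + (0, 1) = t) (v : Fin (m + 1)) : kap x y μ t v ∈ mR x y μ := by
  refine sub_mem (add_mem ?_ (by split_ifs; exacts [x_mem, zero_mem _]))
    (by split_ifs; exacts [y_mem, zero_mem _])
  by_cases e : μ v + (1, 0) + (0, 1) = t
  · have e' : μ v + (0, 1) + (1, 0) = t := by rw [← e, add_right_comm]
    obtain ⟨u1, b1⟩ := a1.resolve_left (by rw [← e]; simp)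
    obtain ⟨u2, b2⟩ := a2.resolve_left (by rw [← e]; simp)
    rw [← add_right_cancel (b1.trans e'.symm), ← add_right_cancel (b2.trans e.symm), DD_self h1,
      DD_self h1, if_pos b1, if_pos b2, sub_self]
    exact zero_mem _
  · have key : ∀ h e', h + e' ≠ t → DD x y μ h e' t ∈ mR x y μ := fun h e' he => by
      by_cases hv : ∃ v', μ v' = h
      · obtain ⟨v', rfl⟩ := hv
        rw [DD_self h1, if_neg he]
        exact zero_mem _
      · push Not at hv
        exact DD_mem hv _ _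
    exact sub_mem (key _ _ (by rwa [add_right_comm])) (key _ _ e)

theorem xi_exp (h2 : Ch2 x y ρ μ) (v : Fin (m + 1)) : ∃ a : Cor μ → K,
    xi x y μ v = ∑ s, a s * xc x y μ s ∧
      ∀ s, a s - (if v = s then 1 else 0) ∈ mR x y μ := by
  by_cases hv : IsCor μ v
  · refine ⟨fun s => if v = s then 1 else 0, ?_, fun s => by simp⟩
    rw [Finset.sum_eq_single ⟨v, hv⟩]
    · simp [xc]
    · intro s _ hs
      have : v ≠ s := fun e => hs (Subtype.ext e.symm)
      simp [this]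
    · simp
  · obtain ⟨a, ha, e⟩ := exists_coef (h2.xiV v hv)
    exact ⟨a, e, fun s => by rw [if_neg fun e : v = s => hv (e ▸ s.2), sub_zero]; exact ha s⟩

end GGenDAux

open GGenDAux

theorem genD (hA : S_Arrow) : S_GenD := by
  intro K _ _ m x y ρ μ _ hμ h1 h2
  have hloc := h2.core.loc
  let q := (mR x y μ * mR x y μ).mkQ
  have hq : ∀ a b, a - b ∈ mR x y μ * mR x y μ → q a = q b := fun a b h =>
    (Submodule.Quotient.eq _).2 h
  obtain ⟨t, N, z, ht, hN, hz, hg⟩ := hA m μ _ (fun h g => q (DD x y μ h 0 g)) (q (x 0)) (q (y 0)) hμ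
    (fun h g hg => by
      rw [DD, Finset.sum_eq_zero fun u _ => if_neg (by simpa using hg u), map_zero])
    (by
      rintro h _ hh ⟨u, rfl⟩
      rw [hq _ _ (rule hμ.1 h1 hh _ u), DD_x, apply_ite q, map_zero])
    (by
      rintro h _ hh ⟨u, rfl⟩
      rw [hq _ _ (rule hμ.1 h1 hh _ u), DD_y, apply_ite q, map_zero])
  have hz' : ∀ i, ∃ g ∈ mR x y μ, q g = z i := fun i => by
    rcases hz i with e | e | ⟨h, g, hh, e⟩
    exacts [⟨_, x_mem, e.symm⟩, ⟨_, y_mem, e.symm⟩, ⟨_, DD_mem hh _ _, e.symm⟩]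
  choose z' hz1 hz2 using hz'
  choose a ha1 ha2 using xi_exp h2
  have hk : ∀ w v, kap x y μ (t w) v ∈ mR x y μ := fun w => kap_mem h1 (ht w).2.1 (ht w).2.2
  let φ : Option (Cor μ) → Cor μ → K := fun w s => ∑ v, kap x y μ (t w) v * a v s
  have hφ : ∀ w s, φ w s - kap x y μ (t w) s ∈ mR x y μ * mR x y μ := fun w s => by
    have : φ w s - kap x y μ (t w) s =
        ∑ v, kap x y μ (t w) v * (a v s - if v = s then 1 else 0) := by
      simp [φ, mul_sub, Finset.sum_sub_distrib]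
    rw [this]
    exact Submodule.sum_mem _ fun v _ => Submodule.mul_mem_mul (hk w v) (ha2 v s)
  have hφ' : ∀ w s, φ w s ∈ mR x y μ := fun w s => by
    simpa using add_mem (mul_le hloc (hφ w s)) (hk w s)
  refine ⟨N, φ, z', hN, hφ', hz1, fun w => ?_, ?_⟩
  · rw [← kap_rel h1 (t w)]
    simp only [φ, ha1, Finset.sum_mul, Finset.mul_sum, mul_assoc]
    exact Finset.sum_comm
  set S := Set.range (fun wt : Option (Cor μ) × Cor μ => φ wt.1 wt.2) ∪ Set.range z' with hS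
  have key : ∀ g, (q g = q (x 0) ∨ q g = q (y 0) ∨
      ∃ h h', (∀ v, μ v ≠ h) ∧ q g = q (DD x y μ h 0 h')) →
      g ∈ Id (Rs x y μ) S ⊔ mR x y μ * mR x y μ := fun g h => by
    have h3 : q g ∈ ((Submodule.span ℂ S).map q).toAddSubgroup := by
      refine (AddSubgroup.closure_le _).2 ?_ (hg _ h)
      rintro _ (⟨i, rfl⟩ | ⟨ws, rfl⟩)
      · exact ⟨z' i, Submodule.subset_span (Or.inr ⟨i, rfl⟩), hz2 i⟩
      · refine ⟨φ ws.1 ws.2, Submodule.subset_span (Or.inl ⟨ws, rfl⟩), ?_⟩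
        rw [hq _ _ (hφ _ _), kap, DD_x, DD_y]
        simp only [map_sub, map_add, apply_ite q, map_zero]
    obtain ⟨g', h4, h5⟩ := h3
    exact Submodule.mem_sup.2 ⟨g', sub_Id _ _ h4, g - g', (Submodule.Quotient.eq _).1 h5.symm,
      by ring⟩
  refine nak hloc h2.core.noeth (fun r hr g hg => mul_Id hr hg) ?_ ?_
  · refine Submodule.mul_le.2 fun r hr g hg => hloc.mul r hr g (Submodule.span_le.2 ?_ hg)
    rintro _ (⟨ws, rfl⟩ | ⟨i, rfl⟩)
    exacts [hφ' _ _, hz1 i]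
  · refine Submodule.mul_le.2 fun r hr g hg => ?_
    have h3 : g ∈ Id (Rs x y μ) S ⊔ mR x y μ * mR x y μ := by
      refine Submodule.span_le.2 ?_ hg
      rintro _ (⟨h, u, hh, rfl⟩ | rfl | rfl)
      · exact key _ (Or.inr (Or.inr ⟨h, μ u, hh, by rw [DD_cell hμ.1]⟩))
      · exact key _ (Or.inl rfl)
      · exact key _ (Or.inr (Or.inl rfl))
    obtain ⟨b, hb, c, hc, rfl⟩ := Submodule.mem_sup.1 h3
    rw [mul_add]
    refine add_mem (Submodule.mem_sup_left (mul_Id hr hb)) (Submodule.mem_sup_right ?_)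
    refine Submodule.mul_induction_on hc (fun a ha b hb => ?_) fun a b ha hb => ?_
    · rw [← mul_assoc]
      exact Submodule.mul_mem_mul (hloc.mul r hr a ha) hb
    · rw [mul_add]; exact add_mem ha hb

end

end Pool.Agent.P.MP_c2aaf5_co
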