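import Pool.Agent.P.MP_c2aaf5_co.DefG

/-! Rank facts on `lam`. -/

namespace Pool.Agent.P.MP_c2aaf5_co

open MvPolynomial Finset

namespace GLamBAux

theorem exists_dual {V ι : Type} [AddCommGroup V] [Module ℂ V] [Fintype ι] [DecidableEq ι]
    (L : ι → V →ₗ[ℂ] ℂ) (h : ∀ t : ι → ℂ, ∑ i, t i • L i = 0 → t = 0) :
    ∃ g : ι → V, ∀ a b, L a (g b) = if a = b then 1 else 0 := by
  have hs : LinearMap.range (LinearMap.pi L) = ⊤ := by
    by_contra hne
    obtain ⟨f, hf, hle⟩ := Submodule.exists_le_ker_of_lt_top _ (lt_top_iff_ne_top.2 hne)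
    have e : ∀ v : ι → ℂ, f v = ∑ i, f (Pi.single i 1) * v i := fun v => by
      conv_lhs => rw [pi_eq_sum_univ' v]
      simp [map_sum, mul_comm]
    have h0 := h (fun i => f (Pi.single i 1)) (by
      ext v
      have := hle (LinearMap.mem_range_self (LinearMap.pi L) v)
      rw [LinearMap.mem_ker, e] at this
      simpa using this)
    refine hf (LinearMap.ext fun v => ?_)
    rw [e]
    exact sum_eq_zero fun i _ => by rw [congrFun h0 i]; simp
  choose g hg using fun b : ι => LinearMap.range_eq_top.1 hs (Pi.single b 1)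
  exact ⟨g, fun a b => by simpa [Pi.single_apply] using congrFun (hg b) a⟩

/-- rescaling of the `x` variables -/
noncomputable def th (n : ℕ) (τ : ℂ) : Pol n →ₐ[ℂ] Pol n :=
  aeval (Sum.elim (fun i => τ • X (Sum.inl i)) fun i => X (Sum.inr i))

theorem th_monomial {n : ℕ} (τ : ℂ) (d : (Fin n ⊕ Fin n) →₀ ℕ) (c : ℂ) :
    th n τ (monomial d c) = τ ^ (∑ i, d (Sum.inl i)) • monomial d c := by
  rw [th, aeval_monomial, monomial_eq, Finsupp.prod_fintype _ _ (by simp),
    Finsupp.prod_fintype _ _ (by simp)]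
  simp only [Fintype.prod_sum_type, Sum.elim_inl, Sum.elim_inr, smul_pow, prod_smul,
    prod_pow_eq_pow_sum, algebraMap_eq, smul_mul_assoc, mul_smul_comm]

theorem coeff_th {n : ℕ} (τ : ℂ) (d : (Fin n ⊕ Fin n) →₀ ℕ) (w : Pol n) :
    coeff d (th n τ w) = τ ^ (∑ i, d (Sum.inl i)) * coeff d w := by
  induction w using MvPolynomial.induction_on' with
  | monomial e c =>
    rw [th_monomial, coeff_smul, coeff_monomial]
    split_ifs with h
    · rw [h, smul_eq_mul]
    · simp
  | add p q hp hq => rw [map_add, coeff_add, coeff_add, hp, hq, mul_add]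

theorem lam_th {n : ℕ} (τ : ℂ) (ν : Fin n → ℕ × ℕ) (w : Pol n) :
    lam ν (th n τ w) = τ ^ dx ν * lam ν w := by
  simp only [lam, LinearMap.sum_apply, LinearMap.smul_apply, lcoeff_apply, coeff_th, mul_sum]
  refine sum_congr rfl fun σ _ => ?_
  have : ∑ i, mono (ν ∘ σ) (Sum.inl i) = dx ν := Equiv.sum_comp σ fun i => (ν i).1
  rw [this, smul_eq_mul, smul_eq_mul]; ring

end GLamBAux

open GLamBAux in
theorem lamB (hA : LamA) : LamB where
  rank := fun {n} ν N F hN h => by
    obtain ⟨e⟩ : Nonempty (Equiv.Perm (Fin n) ↪ Fin N) :=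
      Function.Embedding.nonempty_of_card_le (by simpa [Fintype.card_perm] using hN)
    obtain ⟨g, hg⟩ := exists_dual (fun a => bil (lam ν) (F (e a))) fun t ht => by
      have h1 := h (Function.extend e t 0) (by
        rw [Kn, LinearMap.mem_ker, ← ht, map_sum]
        symm
        refine sum_of_injOn e e.injective.injOn (by simp) (fun i _ hi => ?_) fun a _ => ?_
        · rw [Function.extend_apply' _ _ _ (by simpa using hi)]; simp
        · rw [e.injective.extend_apply, map_smul])
      funext a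
      rw [← e.injective.extend_apply t 0 a, h1]; rfl
    exact ⟨fun a => F (e a), g, hg⟩
  rank' := fun {m} μ hμ hNF a ha => by
    classical
    obtain ⟨s, hs, hmin⟩ := exists_min_image (univ.filter fun t => a t ≠ 0) (fun t => dx (rm μ t))
      (by obtain ⟨t, ht⟩ := Function.ne_iff.1 ha; exact ⟨t, by simpa using ht⟩)
    have hdx : ∀ t : Cor μ, dx μ = (μ t).1 + dx (rm μ t) := fun t =>
      Fin.sum_univ_succAbove (fun i => (μ i).1) t
    obtain ⟨f, g, hfg⟩ := hNF s
    let Mx : ℂ → Matrix (Equiv.Perm (Fin m)) (Equiv.Perm (Fin m)) ℂ := fun τ =>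
      Matrix.of fun b b' => ∑ t : Cor μ,
        a t * τ ^ (dx (rm μ t) - dx (rm μ s)) * beta μ t (f b * g b')
    have hc : Continuous fun τ => (Mx τ).det :=
      Continuous.matrix_det (continuous_matrix fun b b' => by
        simp only [Mx, Matrix.of_apply]; fun_prop)
    have h0 : (Mx 0).det ≠ 0 := by
      have : Mx 0 = (a s * (-1) ^ (s.1 : ℕ)) • (1 : Matrix _ _ ℂ) := by
        ext b b'
        simp only [Mx, Matrix.of_apply, Matrix.smul_apply, Matrix.one_apply]
        rw [sum_eq_single s, Nat.sub_self, pow_zero, hA.beta μ s hμ.1, hfg, smul_eq_mul]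
        · ring
        · intro t _ hts
          by_cases h : a t = 0
          · simp [h]
          have h1 := hmin t (by simpa using h)
          have h2 : (μ t).1 ≠ (μ s).1 := fun h => hts (hA.dxinj μ h)
          have h3 := hdx t
          have h4 := hdx s
          rw [zero_pow (by omega)]; simp
        · simp
      rw [this, Matrix.det_smul, Matrix.det_one, mul_one]
      exact pow_ne_zero _ (mul_ne_zero (by simpa using hs) (by simp))
    obtain ⟨τ, h1, h2⟩ := (((hc.continuousAt.eventually_ne h0).filter_mono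
      (nhdsWithin_le_nhds (s := {0}ᶜ))).and self_mem_nhdsWithin).exists
    refine ⟨fun b => th m τ (f b), fun b => th m τ (g b), ?_⟩
    have : (Matrix.of fun b b' => ∑ t : Cor μ, a t * beta μ t (th m τ (f b) * th m τ (g b'))) =
        τ ^ dx (rm μ s) • Mx τ := by
      ext b b'
      simp only [Mx, Matrix.of_apply, Matrix.smul_apply, smul_eq_mul, mul_sum]
      refine sum_congr rfl fun t _ => ?_
      by_cases h : a t = 0
      · simp [h]
      obtain ⟨k, hk⟩ := Nat.exists_eq_add_of_le (hmin t (by simpa using h))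
      rw [← map_mul, hA.beta μ t hμ.1, hA.beta μ t hμ.1, lam_th, hk, Nat.add_sub_cancel_left]
      ring
    rw [this, Matrix.det_smul]
    exact mul_ne_zero (pow_ne_zero _ (pow_ne_zero _ h2)) h1
  rank'' := fun {n} ν ι _ F ⟨f, g, hfg⟩ h => by
    classical
    choose c hc using h
    have e : (1 : Matrix (Equiv.Perm (Fin n)) (Equiv.Perm (Fin n)) ℂ) =
        (Matrix.of fun a i => c (f a) i) * Matrix.of fun i b => lam ν (F i * g b) := by
      ext a b
      have := LinearMap.congr_fun (LinearMap.mem_ker.1 (hc (f a))) (g b)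
      rw [Matrix.one_apply, ← hfg]
      simpa [bil, Matrix.mul_apply, sub_eq_zero, map_sum] using this
    have h1 := Matrix.rank_one (R := ℂ) (n := Equiv.Perm (Fin n))
    rw [e, Fintype.card_perm, Fintype.card_fin] at h1
    rw [← h1]
    exact (Matrix.rank_mul_le_left _ _).trans (Matrix.rank_le_card_width _)
  nfperm := fun ν σ ⟨f, g, h⟩ =>
    ⟨fun a => ((Equiv.Perm.sign σ : ℤ) : ℂ) • f a, g, fun a b => by
      rw [smul_mul_assoc, map_smul, smul_eq_mul, ← hA.perm, h]⟩
  srt := fun ν => ⟨Tuple.sort fun u => (ν u).2, fun _ _ h =>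
    Tuple.monotone_sort (fun u => (ν u).2) h⟩

end Pool.Agent.P.MP_c2aaf5_co
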