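import Pool.Agent.P.MP_c2aaf5_co.DefG

/-! Package G4: a place centred at the monomial ideal with the point `0` at a given corner. -/

namespace Pool.Agent.P.MP_c2aaf5_co

open Finset Matrix

noncomputable section

namespace GPlaceAux

section grid
variable {n : ℕ} (μ p : Fin n → ℕ × ℕ)

/-- the monomial `h` as a function on the grid points `p` -/
def F (h : ℕ × ℕ) (i : Fin n) : ℂ := ((p i).1 : ℂ) ^ h.1 * ((p i).2 : ℂ) ^ h.2

/-- the Newton polynomial of `h` on the grid points -/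
def D (h : ℕ × ℕ) (i : Fin n) : ℂ :=
  ((p i).1.descFactorial h.1 : ℂ) * ((p i).2.descFactorial h.2 : ℂ)

def E0 : Matrix (Fin n) (Fin n) ℂ := Matrix.of fun i u => F p (μ u) i

/-- functions spanned by the monomials of the cells `u` with `q u` -/
def U (q : Fin n → Prop) : Submodule ℂ (Fin n → ℂ) where
  carrier := {f | ∃ κ : Fin n → ℂ, (∀ u, κ u ≠ 0 → q u) ∧ E0 μ p *ᵥ κ = f}
  add_mem' := by
    rintro _ _ ⟨κ, h, rfl⟩ ⟨κ', h', rfl⟩
    refine ⟨κ + κ', fun u hu => ?_, mulVec_add _ _ _⟩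
    by_cases h0 : κ u = 0
    · exact h' u (by simpa [h0] using hu)
    · exact h u h0
  zero_mem' := ⟨0, fun u hu => absurd rfl hu, mulVec_zero _⟩
  smul_mem' := by
    rintro c _ ⟨κ, h, rfl⟩
    exact ⟨c • κ, fun u hu => h u fun h0 => hu (by simp [h0]), mulVec_smul _ _ _⟩

theorem U_mono {q q' : Fin n → Prop} (h : ∀ u, q u → q' u) : U μ p q ≤ U μ p q' := by
  rintro _ ⟨κ, hκ, rfl⟩
  exact ⟨κ, fun u hu => h u (hκ u hu), rfl⟩

theorem E0_single (u : Fin n) : E0 μ p *ᵥ Pi.single u 1 = F p (μ u) := by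
  funext i
  simp [E0]

theorem D_eq (h : ℕ × ℕ) : ∃ c : ℕ × ℕ → ℂ,
    D p h - F p h = ∑ g ∈ (range (h.1 + 1) ×ˢ range (h.2 + 1)).erase h, c g • F p g := by
  refine ⟨fun g => (descPochhammer ℂ h.1).coeff g.1 * (descPochhammer ℂ h.2).coeff g.2, ?_⟩
  have hc : ∀ k, (descPochhammer ℂ k).coeff k = 1 := fun k => by
    have := (monic_descPochhammer ℂ k).coeff_natDegree
    rwa [descPochhammer_natDegree] at this
  have hm : h ∈ range (h.1 + 1) ×ˢ range (h.2 + 1) := by simp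
  rw [Finset.sum_erase_eq_sub hm]
  simp only [hc, one_mul, one_smul]
  congr 1
  funext i
  simp only [D, ← descPochhammer_eval_eq_descFactorial, Polynomial.eval_eq_sum_range,
    descPochhammer_natDegree, Finset.sum_mul_sum, Finset.sum_product, Finset.sum_apply,
    Pi.smul_apply, F, smul_eq_mul]
  refine Finset.sum_congr rfl fun _ _ => Finset.sum_congr rfl fun _ _ => by ring

theorem D_sub (h : ℕ × ℕ) (H : ∀ g, g < h → F p g ∈ U μ p fun u => μ u ≤ g) :
    D p h - F p h ∈ U μ p fun u => μ u < h := by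
  obtain ⟨c, hc⟩ := D_eq p h
  rw [hc]
  refine Submodule.sum_mem _ fun g hg => Submodule.smul_mem _ _ ?_
  simp only [mem_erase, mem_product, mem_range] at hg
  have hlt : g < h := lt_of_le_of_ne ⟨by omega, by omega⟩ hg.1
  exact U_mono μ p (fun u hu => lt_of_le_of_lt hu hlt) (H g hlt)

theorem D_zero {h : ℕ × ℕ} {i : Fin n} (hi : ¬h ≤ p i) : D p h i = 0 := by
  simp only [Prod.le_def, not_and_or, not_le] at hi
  rcases hi with hi | hi <;> simp [D, Nat.descFactorial_eq_zero_iff_lt.2 hi]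

variable {μ p}

theorem F_mem (hμ : IsDiag μ) (hp : ∀ i, ∃ v, μ v = p i) (h : ℕ × ℕ) :
    F p h ∈ U μ p fun u => μ u ≤ h := by
  induction h using WellFoundedLT.induction with
  | ind h ih =>
    by_cases hh : ∃ v, μ v = h
    · obtain ⟨v, rfl⟩ := hh
      refine ⟨Pi.single v 1, fun u hu => ?_, E0_single μ p v⟩
      by_cases e : u = v
      · rw [e]
      · simp [e] at hu
    · have h0 : D p h = 0 := funext fun i => D_zero p fun hi => by
        obtain ⟨v, hv⟩ := hp i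
        exact hh (hμ.2 v h (hv ▸ hi))
      have h1 := D_sub μ p h ih
      rw [h0, zero_sub, neg_mem_iff] at h1
      exact U_mono μ p (fun u hu => hu.le) h1

/-- evaluation of monomials at a point -/
def chi (a : ℕ × ℕ) : Multiplicative (ℕ × ℕ) →* ℂ where
  toFun h := (a.1 : ℂ) ^ h.toAdd.1 * (a.2 : ℂ) ^ h.toAdd.2
  map_one' := by simp
  map_mul' h h' := by simp [pow_add]; ring

theorem chi_inj : Function.Injective chi := fun a b h => by
  have h1 := DFunLike.congr_fun h (Multiplicative.ofAdd (1, 0))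
  have h2 := DFunLike.congr_fun h (Multiplicative.ofAdd (0, 1))
  simp [chi] at h1 h2
  exact Prod.ext h1 h2

theorem det_E0 (hμ : IsDiag μ) (hp : ∀ i, ∃ v, μ v = p i) (hi : Function.Injective p) :
    (E0 μ p).det ≠ 0 := by
  intro h0
  obtain ⟨l, hl, h1⟩ := Matrix.exists_vecMul_eq_zero_iff.2 h0
  have h2 := (linearIndependent_monoidHom (Multiplicative (ℕ × ℕ)) ℂ).comp _ (chi_inj.comp hi)
  refine hl (funext (Fintype.linearIndependent_iff.1 h2 l (funext fun h => ?_)))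
  obtain ⟨κ, -, hκ⟩ := F_mem hμ hp h.toAdd
  have h3 : l ⬝ᵥ F p h.toAdd = 0 := by rw [← hκ, dotProduct_mulVec, h1, zero_dotProduct]
  simpa [dotProduct, chi, F] using h3

theorem cramer_mulVec (A : Matrix (Fin n) (Fin n) ℂ) (κ : Fin n → ℂ) (u : Fin n) :
    (A.updateCol u (A *ᵥ κ)).det = A.det * κ u := by
  rw [← cramer_apply, cramer_eq_adjugate_mulVec, mulVec_mulVec, adjugate_mul, smul_mulVec,
    one_mulVec, Pi.smul_apply, smul_eq_mul]

end grid

section place
open Polynomial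
variable {K W : Type} [Field K] [Algebra ℂ K] [CommRing W] [Algebra ℂ W]
  (e : W →ₐ[ℂ] K) (π : W →ₐ[ℂ] ℂ[X])

/-- `v` has the value `c` at the place -/
def Rel (v : K) (c : ℂ) : Prop := ∃ (A B : W) (k : ℕ) (a b : ℂ[X]), π A = X ^ k * a ∧
  π B = X ^ k * b ∧ b.eval 0 ≠ 0 ∧ a.eval 0 = c * b.eval 0 ∧ v * e B = e A

variable {e π}

theorem Rel.add {v w : K} {c d : ℂ} (h : Rel e π v c) (h' : Rel e π w d) :
    Rel e π (v + w) (c + d) := by
  obtain ⟨A, B, k, a, b, h1, h2, h3, h4, h5⟩ := h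
  obtain ⟨A', B', k', a', b', h1', h2', h3', h4', h5'⟩ := h'
  refine ⟨A * B' + A' * B, B * B', k + k', a * b' + a' * b, b * b', ?_, ?_, ?_, ?_, ?_⟩
  · rw [map_add, map_mul, map_mul, h1, h2, h1', h2']; ring
  · rw [map_mul, h2, h2']; ring
  · rw [eval_mul]; exact mul_ne_zero h3 h3'
  · simp only [eval_add, eval_mul, h4, h4']; ring
  · rw [map_add, map_mul, map_mul, map_mul, ← h5, ← h5']; ring

theorem Rel.mul {v w : K} {c d : ℂ} (h : Rel e π v c) (h' : Rel e π w d) :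
    Rel e π (v * w) (c * d) := by
  obtain ⟨A, B, k, a, b, h1, h2, h3, h4, h5⟩ := h
  obtain ⟨A', B', k', a', b', h1', h2', h3', h4', h5'⟩ := h'
  refine ⟨A * A', B * B', k + k', a * a', b * b', ?_, ?_, ?_, ?_, ?_⟩
  · rw [map_mul, h1, h1']; ring
  · rw [map_mul, h2, h2']; ring
  · rw [eval_mul]; exact mul_ne_zero h3 h3'
  · simp only [eval_mul, h4, h4']; ring
  · rw [map_mul, map_mul, ← h5, ← h5']; ring

theorem rel_const (c : ℂ) : Rel e π (algebraMap ℂ K c) c :=
  ⟨algebraMap ℂ W c, 1, 0, C c, 1, by simp, by simp, by simp, by simp, by simp⟩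

theorem ne_of (he : Function.Injective e) {A : W} (h : π A ≠ 0) : e A ≠ 0 := fun h0 =>
  h (by rw [he (h0.trans (map_zero e).symm), map_zero])

theorem Rel.inv (he : Function.Injective e) {v : K} {c : ℂ} (h : Rel e π v c) (hc : c ≠ 0) :
    Rel e π v⁻¹ c⁻¹ := by
  obtain ⟨A, B, k, a, b, h1, h2, h3, h4, h5⟩ := h
  have ha : a.eval 0 ≠ 0 := by rw [h4]; exact mul_ne_zero hc h3
  have hA : e A ≠ 0 := ne_of he (by
    rw [h1]; exact mul_ne_zero (pow_ne_zero _ X_ne_zero) fun h0 => ha (by simp [h0]))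
  have hv : v ≠ 0 := fun h0 => hA (by rw [← h5, h0, zero_mul])
  exact ⟨B, A, k, b, a, h2, h1, ha, by rw [h4]; field_simp, by rw [← h5]; field_simp⟩

theorem not_rel (he : Function.Injective e) : ¬Rel e π 1 0 := by
  rintro ⟨A, B, k, a, b, h1, h2, h3, h4, h5⟩
  rw [one_mul] at h5
  rw [← he h5, h2] at h1
  rw [mul_left_cancel₀ (pow_ne_zero _ X_ne_zero) h1, h4, zero_mul] at h3
  exact h3 rfl

variable (e π) in
def OO : Subalgebra ℂ K where
  carrier := {v | ∃ c, Rel e π v c}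
  mul_mem' := fun ⟨_, h⟩ ⟨_, h'⟩ => ⟨_, h.mul h'⟩
  add_mem' := fun ⟨_, h⟩ ⟨_, h'⟩ => ⟨_, h.add h'⟩
  algebraMap_mem' c := ⟨c, rel_const c⟩

variable (e π) in
def MX : Submodule ℂ K where
  carrier := {v | Rel e π v 0}
  add_mem' h h' := by simpa using Rel.add h h'
  zero_mem' := by simpa using rel_const (e := e) (π := π) 0
  smul_mem' c v h := by simpa [Algebra.smul_def] using (rel_const c).mul h

theorem locD (he : Function.Injective e) : LocD (OO e π) (MX e π) where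
  le _ h := ⟨0, h⟩
  mul _ := fun ⟨c, h⟩ g hg => by
    have := Rel.mul h hg
    rwa [mul_zero] at this
  dec _ := fun ⟨c, h⟩ => ⟨c, by
    have := h.add (rel_const (-c))
    rwa [add_neg_cancel, map_neg, ← sub_eq_add_neg] at this⟩
  one := not_rel he
  inv _ := fun ⟨c, h⟩ hg => ⟨_, h.inv he fun h0 => hg (by rw [h0] at h; exact h)⟩

theorem crit {v : K} {A B : W} {a b : ℕ} {α β : ℂ} (h : v * e B = e A) (hA : π A = X ^ a * C α)
    (hB : π B = X ^ b * C β) (hβ : β ≠ 0) (hlt : α ≠ 0 → b < a) : v ∈ MX e π := by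
  by_cases h0 : α = 0
  · exact ⟨A, B, b, 0, C β, by simp [hA, h0], hB, by simpa using hβ, by simp, h⟩
  · obtain ⟨j, rfl⟩ := Nat.exists_eq_add_of_lt (hlt h0)
    exact ⟨A, B, b, X ^ (j + 1) * C α, C β, by rw [hA]; ring, hB, by simpa using hβ, by simp, h⟩

theorem pi_det {n : ℕ} (A : Matrix (Fin n) (Fin n) W) (w : Fin n → ℕ)
    (A0 : Matrix (Fin n) (Fin n) ℂ) (h : ∀ i j, π (A i j) = X ^ w j * C (A0 i j)) :
    π A.det = X ^ (∑ j, w j) * C A0.det := by
  rw [AlgHom.map_det, RingHom.map_det, ← Finset.prod_pow_eq_pow_sum, ← det_mul_row]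
  congr 1
  ext1 i j
  simp [h]

end place

section main
open Polynomial
variable {K : Type} [Field K] [Algebra ℂ K] {n : ℕ} (x y : Fin n → K) (μ p : Fin n → ℕ × ℕ)

/-- the curve through the origin -/
def pi : Pol n →ₐ[ℂ] ℂ[X] :=
  MvPolynomial.aeval (Sum.elim (fun i => X * C ((p i).1 : ℂ)) fun i => X * C ((p i).2 : ℂ))

def EP : Matrix (Fin n) (Fin n) (Pol n) := Matrix.of fun i u => xm i (μ u)

def sz (h : ℕ × ℕ) : ℕ := h.1 + h.2

theorem sz_lt {g h : ℕ × ℕ} (H : g < h) : sz g < sz h := by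
  rw [Prod.lt_iff] at H
  simp only [sz]
  omega

theorem pi_xm (i : Fin n) (h : ℕ × ℕ) : pi p (xm i h) = X ^ sz h * C (F p h i) := by
  simp only [pi, xm, map_mul, map_pow, MvPolynomial.aeval_X, Sum.elim_inl, Sum.elim_inr, sz, F]
  ring

theorem ev_xm (i : Fin n) (h : ℕ × ℕ) : ev x y (xm i h) = pw x y i h := by
  simp [ev, xm, pw]

theorem pi_EP : pi p (EP μ).det = X ^ (∑ j, sz (μ j)) * C (E0 μ p).det :=
  pi_det _ _ _ fun i j => pi_xm p i (μ j)

theorem pi_upd (b : Fin n → Pol n) (k : ℕ) (κ : Fin n → ℂ)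
    (hb : ∀ i, pi p (b i) = X ^ k * C ((E0 μ p *ᵥ κ) i)) (u : Fin n) :
    pi p ((EP μ).updateCol u b).det =
      X ^ (k + ∑ j ∈ univ \ {u}, sz (μ j)) * C ((E0 μ p).det * κ u) := by
  rw [← cramer_mulVec, ← Finset.sum_update_of_mem (mem_univ u)]
  refine pi_det _ _ _ fun i j => ?_
  by_cases h : j = u
  · subst h
    simp [hb]
  · simpa [h, updateCol_ne h, EP, E0] using pi_xm p i (μ j)

theorem ev_EP : (ev x y).mapMatrix (EP μ) = Em x y μ := by
  ext1 i j
  simp [EP, Em, ev_xm]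

theorem ev_upd (hd : (Em x y μ).det ≠ 0) (b : Fin n → Pol n) (u : Fin n) :
    ev x y ((EP μ).updateCol u b).det =
      ((Em x y μ)⁻¹ *ᵥ fun i => ev x y (b i)) u * (Em x y μ).det := by
  have h := congrFun (det_smul_inv_mulVec_eq_cramer (Em x y μ) (fun i => ev x y (b i))
    (Ne.isUnit hd)) u
  rw [Pi.smul_apply, smul_eq_mul, mul_comm] at h
  rw [h, cramer_apply, AlgHom.map_det, ← ev_EP]
  congr 1
  ext1 i j
  by_cases h : j = u
  · subst h
    simp
  · simp [updateCol_ne h]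

theorem sum_sz (u : Fin n) : ∑ j, sz (μ j) = sz (μ u) + ∑ j ∈ univ \ {u}, sz (μ j) := by
  rw [Finset.sdiff_singleton_eq_erase, Finset.add_sum_erase _ (fun j => sz (μ j)) (mem_univ u)]

end main

end GPlaceAux

open GPlaceAux Polynomial in
theorem place : S_Place := by
  intro K _ _ m x y ρ μ hG hμ hC s hs
  set p : Fin (m + 1) → ℕ × ℕ := μ ∘ Equiv.swap 0 s with hp
  have hp1 : ∀ i, ∃ v, μ v = p i := fun i => ⟨_, rfl⟩
  have hp2 : Function.Injective p := hμ.1.comp (Equiv.injective _)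
  have hp0 : p 0 = μ s := by simp [hp]
  have hE := det_E0 hμ hp1 hp2
  have he : Function.Injective (ev x y) := hG.ind
  -- the idempotent of the point `0`
  obtain ⟨κ, hκ, hκe⟩ := D_sub μ p (μ s) fun g _ => F_mem hμ hp1 g
  have hc : D p (μ s) 0 ≠ 0 := by
    simp [D, hp0, Nat.descFactorial_self, Nat.factorial_ne_zero]
  set κ' : Fin (m + 1) → ℂ := (D p (μ s) 0)⁻¹ • (κ + Pi.single s 1) with hκ'
  have h1 : E0 μ p *ᵥ κ' = Pi.single 0 1 := by
    rw [hκ', mulVec_smul, mulVec_add, hκe, E0_single, sub_add_cancel]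
    funext i
    by_cases hi : i = 0
    · subst hi
      simp [hc]
    · have h0 : D p (μ s) i = 0 :=
        D_zero p fun h => hi (hp2 (by rw [hp0]; exact congrArg μ (hs _ h)))
      simp [hi, h0]
  have h2 : κ' s ≠ 0 := by
    have : κ s = 0 := by
      by_contra h
      exact lt_irrefl _ (hκ s h)
    simp [hκ', this, hc]
  have h3 := pi_upd μ p (Pi.single 0 1) 0 κ' fun i => by
    rw [h1]
    by_cases hi : i = 0
    · subst hi
      simp
    · simp [hi]
  have h4 : ∀ u, ev x y ((EP μ).updateCol u (Pi.single 0 1)).det =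
      xi x y μ u * (Em x y μ).det := fun u => by
    rw [ev_upd x y μ hC.det]
    have : (fun i => ev x y ((Pi.single 0 1 : Fin (m + 1) → Pol (m + 1)) i)) = Pi.single 0 1 := by
      funext i
      by_cases hi : i = 0
      · subst hi
        simp
      · simp [hi]
    rw [this]
    simp [xi]
  have h5 : xi x y μ s ≠ 0 := left_ne_zero_of_mul (h4 s ▸ ne_of (π := pi p) he (by
    rw [h3]
    exact mul_ne_zero (pow_ne_zero _ X_ne_zero) (C_ne_zero.2 (mul_ne_zero hE h2))))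
  refine ⟨h5, OO (ev x y) (pi p), MX (ev x y) (pi p), locD he, ?_, ?_, ?_, fun u hu => ?_⟩
  · rintro _ ⟨h, u, hh, rfl⟩
    obtain ⟨l, hl, hle⟩ := F_mem hμ hp1 h
    refine crit (B := (EP μ).det) ?_
      (pi_upd μ p (fun i => xm i h) (sz h) l (fun i => by rw [hle, pi_xm]) u) (pi_EP μ p) hE
      fun h0 => ?_
    · rw [ev_upd x y μ hC.det, AlgHom.map_det, ev_EP]
      simp only [ev_xm, cc]
    · have := sz_lt (lt_of_le_of_ne (hl u (right_ne_zero_of_mul h0)) (hh u))
      rw [sum_sz μ u]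
      omega
  · exact crit (A := xm 0 (1, 0)) (B := 1) (b := 0) (β := 1) (by simp [ev_xm, pw])
      (pi_xm p 0 _) (by simp) one_ne_zero fun _ => by simp [sz]
  · exact crit (A := xm 0 (0, 1)) (B := 1) (b := 0) (β := 1) (by simp [ev_xm, pw])
      (pi_xm p 0 _) (by simp) one_ne_zero fun _ => by simp [sz]
  · refine crit ?_ (h3 u) (h3 s) (mul_ne_zero hE h2) fun h0 => ?_
    · rw [h4, h4]
      field_simp
    · have h6 : κ u ≠ 0 := fun h => right_ne_zero_of_mul h0 (by simp [hκ', h, hu])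
      have := sz_lt (hκ u h6)
      have e1 := sum_sz μ u
      have e2 := sum_sz μ s
      omega

end

end Pool.Agent.P.MP_c2aaf5_co
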