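import Pool.Agent.P.MP_c2aaf5_co.DefG

/-! The local data at the points of the fibre. -/

set_option linter.unusedSectionVars false

namespace Pool.Agent.P.MP_c2aaf5_co

open MvPolynomial Finset

namespace GPtsAux

variable {K : Type} [Field K] [Algebra ℂ K] {τ : Type} [Fintype τ]

theorem vx_le {ξ : τ → K} {F : Subalgebra ℂ K} (h : ∀ t, ξ t ∈ F) (N : ℕ) :
    Vx ξ ^ N ≤ Subalgebra.toSubmodule F := by
  have h1 : Vx ξ ≤ Subalgebra.toSubmodule F := by
    unfold Vx
    rw [Submodule.span_le]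
    rintro _ ⟨t, rfl⟩
    exact h t
  induction N with
  | zero =>
    rw [pow_zero, Submodule.one_eq_span, Submodule.span_le]
    rintro _ rfl
    exact F.one_mem
  | succ N ih =>
    rw [pow_succ, Submodule.mul_le]
    intro a ha b hb
    exact F.mul_mem (ih ha) (h1 hb)

theorem fix {ξ : τ → K} {R O : Subalgebra ℂ K} {mR M : Submodule ℂ K} {s : τ} {a : τ → ℂ}
    (hP : Pt R mR ξ s a O M) (hR : LocD R mR) (h0 : ¬∃ N, Un mR ξ a N 0) (r : K →ₐ[ℂ] K)
    (h1 : ∀ t, r (ξ t) = ξ t) (h2 : ∀ v ∈ R, r v = v) : ∀ v ∈ O, r v = v := by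
  intro v hv
  obtain ⟨N, g, hg, hgv⟩ := hP.den v hv
  have hg0 : g ≠ 0 := by
    rintro rfl
    exact h0 ⟨N, hg⟩
  set F : Subalgebra ℂ K := AlgHom.equalizer r (AlgHom.id ℂ K) with hF
  have hmem : ∀ w, w ∈ F ↔ r w = w := fun w => Iff.rfl
  have hV := vx_le (F := F) (fun t => (hmem _).2 (h1 t)) N
  have e1 : g * v ∈ F := by
    refine (Submodule.mul_le.2 ?_ : _ ≤ Subalgebra.toSubmodule F) hgv
    intro p hp q hq
    exact F.mul_mem (hV hp) ((hmem _).2 (h2 q hq))
  obtain ⟨G, -, -, hG⟩ := hg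
  have e2 : g - aeval ξ G ∈ F := by
    refine (Submodule.mul_le.2 ?_ : _ ≤ Subalgebra.toSubmodule F) hG
    intro p hp q hq
    exact F.mul_mem ((hmem _).2 (h2 p (hR.le p hp))) (hV hq)
  have e3 : aeval ξ G ∈ F := by
    have : Algebra.adjoin ℂ (Set.range ξ) ≤ F := by
      rw [Algebra.adjoin_le_iff]
      rintro _ ⟨t, rfl⟩
      exact (hmem _).2 (h1 t)
    apply this
    rw [Algebra.adjoin_range_eq_range_aeval]
    exact ⟨G, rfl⟩
  have e4 : r g = g := by
    have := F.add_mem e2 e3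
    rw [sub_add_cancel] at this
    exact this
  have e5 : r (g * v) = g * v := e1
  rw [map_mul, e4] at e5
  exact mul_left_cancel₀ hg0 e5

theorem gram {ξ : τ → K} {R O : Subalgebra ℂ K} {mR M : Submodule ℂ K} {s : τ} {a : τ → ℂ}
    (hP : Pt R mR ξ s a O M) (c : τ → ℂ) (v : K) (hv : v - ∑ t, c t • ξ t ∈ mR * Vx ξ) :
    v / ξ s - algebraMap ℂ K (∑ t, a t * c t) ∈ M := by
  have hO : ∀ t, ξ t / ξ s ∈ O := fun t => by
    have := O.add_mem (hP.loc.le _ (hP.eta t)) (O.algebraMap_mem (a t))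
    rwa [sub_add_cancel] at this
  have h1 : ∀ w ∈ Vx ξ, w / ξ s ∈ O := by
    intro w hw
    induction hw using Submodule.span_induction with
    | mem x hx => obtain ⟨t, rfl⟩ := hx; exact hO t
    | zero => rw [zero_div]; exact O.zero_mem
    | add x y _ _ hx hy => rw [add_div]; exact O.add_mem hx hy
    | smul c x _ hx => rw [smul_div_assoc]; exact O.smul_mem hx c
  have h2 : ∀ w ∈ mR * Vx ξ, w / ξ s ∈ M := by
    intro w hw
    refine Submodule.mul_induction_on hw ?_ ?_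
    · intro p hp q hq
      rw [mul_div_assoc, mul_comm]
      exact hP.loc.mul _ (h1 q hq) _ (hP.mle hp)
    · intro p q hp hq
      rw [add_div]
      exact M.add_mem hp hq
  have h3 : ∑ t, c t • (ξ t / ξ s - algebraMap ℂ K (a t)) ∈ M :=
    M.sum_mem fun t _ => M.smul_mem _ (hP.eta t)
  have h4 := M.add_mem (h2 _ hv) h3
  convert h4 using 1
  rw [sub_div, sum_div, map_sum]
  simp only [Algebra.smul_def, map_mul]
  have : ∀ t, algebraMap ℂ K (a t) * algebraMap ℂ K (c t) =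
      algebraMap ℂ K (c t) * algebraMap ℂ K (a t) := fun t => mul_comm _ _
  simp only [this, mul_div_assoc, mul_sub, sum_sub_distrib]
  ring

theorem lift0_zero {m : ℕ} (σ : Equiv.Perm (Fin m)) : lift0 σ 0 = 0 := by
  simp [lift0]

theorem lift0_one {m : ℕ} : lift0 (1 : Equiv.Perm (Fin m)) = 1 := by
  unfold lift0
  exact Equiv.Perm.decomposeFin_symm_of_one 0 |>.trans (Equiv.swap_self 0)

end GPtsAux

open GPtsAux

theorem pts (hB : LamB) (hE : S_PtEx) (hR : S_PtReg) (hF : S_Perf) : S_Pts := by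
  intro K _ _ m x y ρ μ hG hD c1 c2 hNF N φ z hN hGen
  refine ⟨fun s a has => ?_, c2.pt⟩
  by_cases h0 : ∃ N, Un (mR x y μ) (xc x y μ) a N 0
  · exact Or.inl h0
  right
  obtain ⟨O, M, hP⟩ := (hE K (Cor μ) (xc x y μ) _ _ s a c2.core.loc (c2.core.ne s) has).resolve_left h0
  refine ⟨O, M, hP, ?_, ?_⟩
  · have ha : a ≠ 0 := by
      rintro rfl
      simp at has
    obtain ⟨f, g, hfg⟩ := hB.rank' μ hD hNF a ha
    refine hF K (Equiv.Perm (Fin m)) (fun σ => (ρ (lift0 σ) : K →ₐ[ℂ] K))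
      (fun σ => ((Equiv.Perm.sign σ : ℤ) : ℂ)) 1 (Em x y μ).det⁻¹ (xc x y μ s) _ O _ M
      (fun b => ((ev x y).comp (up m)) (f b)) (fun b => ((ev x y).comp (up m)) (g b)) hP.loc ?_ ?_
      (c2.core.ne s) ?_ (fun b => ⟨f b, rfl⟩) (fun b => ⟨g b, rfl⟩) ⟨_, hfg, fun b b' => ?_⟩
    · intro v
      rw [lift0_one, map_one]
      rfl
    · intro v
      simp [am, Finset.mul_sum]
    · intro σ
      refine fix hP c2.core.loc h0 _ (fun t => ?_) (fun v hv => c1.rR _ (lift0_zero σ) v hv)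
      have := c1.rxi (lift0 σ) t
      rw [lift0_zero] at this
      exact this
    · rw [← map_mul]
      exact gram hP _ _ (c2.forms.val (f b * g b'))
  · have hle : Hs x y μ ≤ R0 x y μ := le_sup_left
    refine hR K (Cor μ) (Fin (m + 1) ⊕ Fin (m + 1)) (xc x y μ) (R0 x y μ) _ _ N φ z
      (Sum.elim x y) s a O M c2.core.loc (c2.core.ne s) c2.fg ?_ c2.denR hGen hG.ind ?_ ?_ hP
    · refine sup_le_sup_right ?_ _
      intro v hv
      exact Algebra.subset_adjoin (Or.inl hv)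
    · intro j
      obtain ⟨p, hp, hp0⟩ := c1.int j
      refine ⟨p.map (Subalgebra.inclusion hle : Hs x y μ →+* R0 x y μ), hp.map _, ?_⟩
      rw [Polynomial.eval₂_map]
      exact hp0
    · simp only [Fintype.card_sum, Fintype.card_fin]
      omega

end Pool.Agent.P.MP_c2aaf5_co
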