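import Pool.Agent.P.MP_c2aaf5_co.DefG

/-! Package G9: the graded module of the chart has regularity zero. -/

set_option linter.unusedSectionVars false

namespace Pool.Agent.P.MP_c2aaf5_co

open MvPolynomial Finset

noncomputable section

namespace GRegMAux

section tuples
variable {K : Type} [Field K] {σ : Type} [Fintype σ] [LinearOrder σ]

/-- sign equivariance -/
def Sgn {p : ℕ} (Ψ : (Fin p → σ) → K) : Prop :=
  ∀ (τ : Equiv.Perm (Fin p)) i, Ψ (i ∘ τ) = (Equiv.Perm.sign τ : ℤ) • Ψ i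

theorem alt_of_sgn [CharZero K] {p : ℕ} {Ψ : (Fin p → σ) → K} (h : Sgn Ψ) : Alt Ψ := by
  refine ⟨h, fun i hi => ?_⟩
  simp only [Function.Injective, not_forall] at hi
  obtain ⟨a, b, hab, hne⟩ := hi
  have h1 := h (Equiv.swap a b) i
  have h2 : i ∘ Equiv.swap a b = i := by
    funext r
    simp only [Function.comp_apply, Equiv.swap_apply_def]
    split_ifs with e1 e2
    · rw [e1, hab]
    · rw [e2, hab]
    · rfl
  rw [h2, Equiv.Perm.sign_swap hne] at h1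
  simp only [Units.val_neg, Units.val_one, neg_smul, one_smul] at h1
  exact self_eq_neg.mp h1

theorem sgn_tail {p : ℕ} {Φ : (Fin p → σ) → K} (h : Sgn Φ) (π : Equiv.Perm (Fin (p + 1)))
    (hπ : π 0 = 0) (i : Fin (p + 1) → σ) :
    Φ (fun r => i (π r.succ)) = (Equiv.Perm.sign π : ℤ) • Φ (fun r => i r.succ) := by
  obtain ⟨⟨a, e⟩, rfl⟩ := Equiv.Perm.decomposeFin.symm.surjective π
  rw [Equiv.Perm.decomposeFin_symm_apply_zero] at hπ
  subst hπ
  rw [Equiv.Perm.decomposeFin.symm_sign]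
  simp only [Equiv.Perm.decomposeFin_symm_apply_succ, Equiv.swap_self, Equiv.refl_apply, if_true,
    one_mul]
  exact h e (fun r => i r.succ)

theorem sgn_tw {p : ℕ} {Φ : (Fin p → σ) → K} (h : Sgn Φ) (ξ : σ → K) : Sgn (tw ξ Φ) := by
  intro τ i
  unfold tw
  rw [smul_sum]
  refine Fintype.sum_equiv τ _ _ fun k => ?_
  have h1 := sgn_tail h ((τ k).cycleRange * τ * k.cycleRange.symm) (by
    simp [Equiv.Perm.mul_apply]) (fun r => i ((τ k).cycleRange.symm r))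
  simp only [Equiv.Perm.mul_apply, Equiv.symm_apply_apply, Fin.cycleRange_symm_succ, map_mul,
    Equiv.Perm.sign_symm, Fin.sign_cycleRange] at h1
  simp only [Function.comp_apply]
  rw [h1]
  have h2 : ((-1 : ℤ) ^ (k : ℕ)) * (-1) ^ (k : ℕ) = 1 := by rw [← mul_pow]; simp
  simp only [Units.val_mul, Units.val_pow_eq_pow_val, Units.val_neg, Units.val_one, smul_eq_mul,
    zsmul_eq_mul]
  have h3 : (((-1 : ℤ) ^ (k : ℕ) : ℤ) : K) * (((-1 : ℤ) ^ (k : ℕ) : ℤ) : K) = 1 := by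
    rw [← Int.cast_mul, h2, Int.cast_one]
  push_cast at h3 ⊢
  linear_combination ((-1) ^ (τ k : ℕ) * ((Equiv.Perm.sign τ : ℤ) : K) * ξ (i (τ k)) *
    Φ fun r => i ((τ k).succAbove r)) * h3

/-- the tensor power of a matrix acting on functions of tuples -/
def tens {p : ℕ} (A : Matrix σ σ K) (ψ : (Fin p → σ) → K) (i : Fin p → σ) : K :=
  ∑ u : Fin p → σ, (∏ k, A (i k) (u k)) * ψ u

theorem tens_prod {p : ℕ} (A : Matrix σ σ K) (c : K) (f : Fin p → σ → K) (i : Fin p → σ) :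
    tens A (fun u => c * ∏ k, f k (u k)) i = c * ∏ k, A.mulVec (f k) (i k) := by
  unfold tens
  simp only [Matrix.mulVec, dotProduct]
  rw [Fintype.prod_sum, mul_sum]
  refine sum_congr rfl fun u _ => ?_
  rw [prod_mul_distrib]; ring

theorem tens_mul {p : ℕ} (A B : Matrix σ σ K) (ψ : (Fin p → σ) → K) :
    tens A (tens B ψ) = tens (A * B) ψ := by
  funext i
  unfold tens
  simp only [mul_sum, Matrix.mul_apply]
  rw [sum_comm]
  refine sum_congr rfl fun v _ => ?_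
  rw [Fintype.prod_sum, sum_mul]
  refine sum_congr rfl fun u _ => ?_
  rw [prod_mul_distrib]; ring

theorem tens_one {p : ℕ} (ψ : (Fin p → σ) → K) : tens 1 ψ = ψ := by
  funext i
  unfold tens
  rw [sum_eq_single i]
  · simp
  · intro u _ hu
    obtain ⟨k, hk⟩ := Function.ne_iff.mp hu
    rw [prod_eq_zero (f := fun k => (1 : Matrix σ σ K) (i k) (u k)) (mem_univ k)
      (Matrix.one_apply_ne (Ne.symm hk)), zero_mul]
  · simp

theorem tens_perm {p : ℕ} (A : Matrix σ σ K) (ψ : (Fin p → σ) → K) (τ : Equiv.Perm (Fin p))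
    (i : Fin p → σ) : tens A (fun u => ψ (u ∘ τ)) i = tens A ψ (i ∘ τ) := by
  unfold tens
  refine Fintype.sum_equiv (Equiv.arrowCongr τ.symm (Equiv.refl σ)) _ _ fun u => ?_
  congr 1
  exact (Equiv.prod_comp τ fun k => A (i k) (u k)).symm

theorem tens_smul {p : ℕ} (A : Matrix σ σ K) (c : K) (ψ : (Fin p → σ) → K) (i : Fin p → σ) :
    tens A (fun u => c * ψ u) i = c * tens A ψ i := by
  unfold tens
  rw [mul_sum]
  exact sum_congr rfl fun u _ => by ring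

theorem tens_sum {p : ℕ} {ι : Type} (s : Finset ι) (A : Matrix σ σ K) (ψ : ι → (Fin p → σ) → K)
    (i : Fin p → σ) : tens A (fun u => ∑ a ∈ s, ψ a u) i = ∑ a ∈ s, tens A (ψ a) i := by
  unfold tens
  simp only [mul_sum]
  exact sum_comm

theorem sgn_tens {p : ℕ} (A : Matrix σ σ K) {ψ : (Fin p → σ) → K} (h : Sgn ψ) :
    Sgn (tens A ψ) := by
  intro τ i
  rw [← tens_perm, zsmul_eq_mul, ← tens_smul]
  congr 1
  funext u
  rw [h τ u, zsmul_eq_mul]

theorem tens_tw {p : ℕ} (A : Matrix σ σ K) (ξ : σ → K) (φ : (Fin p → σ) → K)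
    (i : Fin (p + 1) → σ) : tens A (tw ξ φ) i = tw (A.mulVec ξ) (tens A φ) i := by
  unfold tw
  rw [tens_sum]
  refine sum_congr rfl fun k _ => ?_
  simp only [zsmul_eq_mul, smul_eq_mul]
  rw [tens_smul]
  congr 1
  unfold tens
  rw [← (Fin.insertNthEquiv (fun _ => σ) k).sum_comp, Fintype.sum_prod_type]
  simp only [Matrix.mulVec, dotProduct]
  rw [sum_mul_sum]
  refine sum_congr rfl fun a _ => sum_congr rfl fun v _ => ?_
  rw [Fin.prod_univ_succAbove _ k]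
  simp only [Fin.insertNthEquiv_apply, Fin.insertNth_apply_same, Fin.insertNth_apply_succAbove]
  ring

/-- alternation -/
def altn {p : ℕ} (φ : (Fin p → σ) → K) (i : Fin p → σ) : K :=
  (p.factorial : K)⁻¹ * ∑ τ : Equiv.Perm (Fin p), ((Equiv.Perm.sign τ : ℤ) : K) * φ (i ∘ τ)

theorem sign_sq {p : ℕ} (τ : Equiv.Perm (Fin p)) :
    ((Equiv.Perm.sign τ : ℤ) : K) * ((Equiv.Perm.sign τ : ℤ) : K) = 1 := by
  rw [← Int.cast_mul, ← Units.val_mul, Int.units_mul_self, Units.val_one, Int.cast_one]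

theorem sgn_altn {p : ℕ} (φ : (Fin p → σ) → K) : Sgn (altn φ) := by
  intro τ i
  unfold altn
  rw [zsmul_eq_mul, mul_left_comm, mul_sum, mul_sum, mul_sum, ← Equiv.sum_comp (Equiv.mulLeft τ)
    (fun π => (p.factorial : K)⁻¹ * (((Equiv.Perm.sign τ : ℤ) : K) *
      (((Equiv.Perm.sign π : ℤ) : K) * φ (i ∘ π))))]
  refine sum_congr rfl fun π _ => ?_
  simp only [Equiv.coe_mulLeft, map_mul, Units.val_mul, Int.cast_mul, Equiv.Perm.coe_mul,
    Function.comp_assoc]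
  linear_combination (-((p.factorial : K)⁻¹ * ((Equiv.Perm.sign π : ℤ) : K) * φ (i ∘ τ ∘ π))) *
    sign_sq (K := K) τ

theorem tens_altn {p : ℕ} (A : Matrix σ σ K) (φ : (Fin p → σ) → K) :
    tens A (altn φ) = altn (tens A φ) := by
  funext i
  unfold altn
  rw [tens_smul, tens_sum]
  simp only [tens_smul, tens_perm]

/-- the wedge complex of a coordinate vector -/
theorem eq_tw_single [CharZero K] {p : ℕ} (o : σ) {Ψ : (Fin (p + 1) → σ) → K} (hΨ : Sgn Ψ)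
    (h0 : ∀ i, (∀ r, i r ≠ o) → Ψ i = 0) {Φ : (Fin p → σ) → K}
    (hΦ : ∀ i, (∀ r, i r ≠ o) → Φ i = Ψ (Fin.cons o i)) (i : Fin (p + 1) → σ) :
    Ψ i = tw (fun s => if s = o then (1 : K) else 0) (altn Φ) i := by
  have h1 : ∀ i, (∀ r, i r ≠ o) → altn Φ i = Ψ (Fin.cons o i) := by
    intro i hi
    unfold altn
    have h2 : ∀ τ : Equiv.Perm (Fin p),
        ((Equiv.Perm.sign τ : ℤ) : K) * Φ (i ∘ τ) = Ψ (Fin.cons o i) := by
      intro τ
      have h3 := hΨ (Equiv.Perm.decomposeFin.symm (0, τ)) (Fin.cons o i)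
      have h4 : (Fin.cons o i : Fin (p + 1) → σ) ∘ Equiv.Perm.decomposeFin.symm (0, τ) =
          Fin.cons o (i ∘ τ) := by
        funext r
        refine Fin.cases ?_ (fun r => ?_) r <;> simp
      rw [h4, Equiv.Perm.decomposeFin.symm_sign, if_pos rfl, one_mul, zsmul_eq_mul] at h3
      rw [hΦ (i ∘ τ) (fun r => hi _), h3, ← mul_assoc, sign_sq, one_mul]
    simp only [h2, sum_const, card_univ, Fintype.card_perm, Fintype.card_fin, nsmul_eq_mul]
    rw [← mul_assoc, inv_mul_cancel₀ (by exact_mod_cast p.factorial_ne_zero), one_mul]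
  have hT := sgn_tw (sgn_altn Φ) (fun s => if s = o then (1 : K) else 0)
  by_cases hinj : Function.Injective i
  swap
  · rw [(alt_of_sgn hΨ).2 i hinj, (alt_of_sgn hT).2 i hinj]
  have key : ∀ i : Fin (p + 1) → σ, Function.Injective i → i 0 = o →
      Ψ i = tw (fun s => if s = o then (1 : K) else 0) (altn Φ) i := by
    intro i hi hi0
    have hne : ∀ r : Fin p, i r.succ ≠ o := fun r h =>
      Fin.succ_ne_zero r (hi (h.trans hi0.symm))
    unfold tw
    rw [Fin.sum_univ_succ]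
    simp only [hi0, hne, if_true, if_false, zero_smul, smul_zero, sum_const_zero, add_zero,
      Fin.val_zero, pow_zero, one_smul, Fin.succAbove_zero]
    rw [h1 _ hne, ← hi0]
    congr 1
    exact (Fin.cons_self_tail i).symm
  by_cases hex : ∃ k, i k = o
  · obtain ⟨k, hk⟩ := hex
    have h2 := key (i ∘ Equiv.swap 0 k) (hinj.comp (Equiv.injective _)) (by simpa using hk)
    rw [hΨ, hT, zsmul_eq_mul, zsmul_eq_mul] at h2
    have h3 := congrArg (fun z => ((Equiv.Perm.sign (Equiv.swap 0 k) : ℤ) : K) * z) h2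
    simpa only [← mul_assoc, sign_sq, one_mul] using h3
  · push Not at hex
    rw [h0 i hex]
    unfold tw
    simp [hex]

theorem eq_zero_of_tw_single {p : ℕ} (o : σ) {Ψ : (Fin p → σ) → K}
    (h : ∀ i, tw (fun s => if s = o then (1 : K) else 0) Ψ i = 0) (i : Fin p → σ)
    (hi : ∀ r, i r ≠ o) : Ψ i = 0 := by
  have h1 := h (Fin.cons o i)
  unfold tw at h1
  rw [Fin.sum_univ_succ] at h1
  simpa [hi] using h1

end tuples

section modules
variable {K : Type} [Field K] [Algebra ℂ K] {τ : Type} [Fintype τ]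

theorem PP_le (P : Subalgebra ℂ K) :
    Subalgebra.toSubmodule P * Subalgebra.toSubmodule P ≤ Subalgebra.toSubmodule P :=
  Submodule.mul_le.mpr fun _ ha _ hb => P.mul_mem ha hb

theorem MM_mul_le (ξ : τ → K) (P : Subalgebra ℂ K) (i j : ℕ) :
    MM ξ P i * MM ξ P j ≤ MM ξ P (i + j) := by
  unfold MM
  rw [mul_mul_mul_comm, ← pow_add]
  exact mul_le_mul' le_rfl (PP_le P)

theorem MM_zero (ξ : τ → K) (P : Subalgebra ℂ K) : MM ξ P 0 = Subalgebra.toSubmodule P := by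
  unfold MM; rw [pow_zero, one_mul]

theorem mul_mem_MM {ξ : τ → K} {P : Subalgebra ℂ K} {i j : ℕ} {a b : K} (ha : a ∈ MM ξ P i)
    (hb : b ∈ MM ξ P j) : a * b ∈ MM ξ P (i + j) :=
  MM_mul_le ξ P i j (Submodule.mul_mem_mul ha hb)

theorem P_mul_mem {ξ : τ → K} {P : Subalgebra ℂ K} {j : ℕ} {a b : K} (ha : a ∈ P)
    (hb : b ∈ MM ξ P j) : a * b ∈ MM ξ P j := by
  have := mul_mem_MM (i := 0) (by rw [MM_zero]; exact ha) hb
  rwa [zero_add] at this

theorem MM_le_of {τ' : Type} [Fintype τ'] {ξ : τ → K} {ξ' : τ' → K} {P : Subalgebra ℂ K}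
    (h : ∀ t, ξ t ∈ MM ξ' P 1) (j : ℕ) : MM ξ P j ≤ MM ξ' P j := by
  have h1 : Vx ξ ≤ MM ξ' P 1 := Submodule.span_le.mpr (by rintro _ ⟨t, rfl⟩; exact h t)
  induction j with
  | zero => rw [MM_zero, MM_zero]
  | succ j ih =>
    have : MM ξ P (j + 1) = Vx ξ * MM ξ P j := by
      unfold MM; rw [pow_succ', mul_assoc]
    rw [this, add_comm]
    exact (mul_le_mul' h1 ih).trans (MM_mul_le ξ' P 1 j)

theorem self_mem_MM (ξ : τ → K) (P : Subalgebra ℂ K) (t : τ) : ξ t ∈ MM ξ P 1 := by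
  unfold MM
  rw [pow_one]
  have h1 : ξ t ∈ Vx ξ := Submodule.subset_span (Set.mem_range_self t)
  have h2 : (1 : K) ∈ Subalgebra.toSubmodule P := P.one_mem
  have := Submodule.mul_mem_mul h1 h2
  rwa [mul_one] at this

theorem exists_coef {ξ : τ → K} {P : Subalgebra ℂ K} {g : K} (hg : g ∈ MM ξ P 1) :
    ∃ c : τ → K, (∀ t, c t ∈ P) ∧ g = ∑ t, c t * ξ t := by
  unfold MM at hg
  rw [pow_one] at hg
  refine Submodule.mul_induction_on hg (fun a ha b hb => ?_) ?_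
  · obtain ⟨l, rfl⟩ := (Submodule.mem_span_range_iff_exists_fun ℂ).mp ha
    refine ⟨fun t => l t • b, fun t => P.smul_mem hb _, ?_⟩
    rw [sum_mul]
    exact sum_congr rfl fun t _ => by rw [smul_mul_assoc, smul_mul_assoc, mul_comm]
  · rintro _ _ ⟨c, hc, rfl⟩ ⟨d, hd, rfl⟩
    exact ⟨c + d, fun t => P.add_mem (hc t) (hd t), by simp [add_mul, sum_add_distrib]⟩

theorem notMem_mul {O : Subalgebra ℂ K} {M : Submodule ℂ K} (h : LocD O M) {a b : K} (ha : a ∈ O)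
    (ha' : a ∉ M) (hb' : b ∉ M) : a * b ∉ M := by
  intro hab
  have h0 : a ≠ 0 := fun e => ha' (e ▸ M.zero_mem)
  have := h.mul _ (h.inv a ha ha') _ hab
  rw [← mul_assoc, inv_mul_cancel₀ h0, one_mul] at this
  exact hb' this

end modules

section chart
variable {K : Type} [Field K] [Algebra ℂ K] {m : ℕ}

/-- evaluation of iterated polynomials at the generic points -/
def ev2 {n : ℕ} (x y : Fin n → K) : Pyx n →ₐ[ℂ] K :=
  (ev x y).comp (sumAlgEquiv ℂ (Fin n) (Fin n)).symm.toAlgHom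

theorem ev2_xy {n : ℕ} (x y : Fin n → K) (i : Fin n) (h : ℕ × ℕ) :
    ev2 x y (xy i h) = pw x y i h := by
  unfold xy pw
  rw [map_mul, map_pow, map_pow C, map_pow]
  simp [ev2, ev]

theorem ev2_det {n l : ℕ} (x y : Fin n → K) (e : Fin l → Fin n) (h : Fin l → ℕ × ℕ) :
    ev2 x y (Matrix.of fun i j => xy (e i) (h j)).det =
      (Matrix.of fun i j => pw x y (e i) (h j)).det := by
  rw [AlgHom.map_det]
  congr 1
  ext i j
  simp [ev2_xy]

variable {x y : Fin (m + 1) → K} {ρ : Equiv.Perm (Fin (m + 1)) →* (K ≃ₐ[ℂ] K)}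
  {μ : Fin (m + 1) → ℕ × ℕ}

theorem ev2_inj (hg : Gen x y ρ) : Function.Injective (ev2 x y) :=
  (algebraicIndependent_iff_injective_aeval.mp hg.ind).comp
    (sumAlgEquiv ℂ (Fin (m + 1)) (Fin (m + 1))).symm.injective

theorem Hs_le_Os : Hs x y μ ≤ Os x y μ := fun _ h => Algebra.subset_adjoin (Or.inl h)

theorem Os_le_Pp : Os x y μ ≤ Pp x y μ := le_sup_left

theorem ev2_mem (a : Pyx (m + 1)) : ev2 x y a ∈ Pp x y μ :=
  (le_sup_right : (ev x y).range ≤ Pp x y μ) ⟨_, rfl⟩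

/-- `g Δ^(j+k)` is the value of an element of `J'^j J^k` -/
def Nk (x y : Fin (m + 1) → K) (μ : Fin (m + 1) → ℕ × ℕ) (j k : ℕ) (g : K) : Prop :=
  ∃ a ∈ JJ' m ^ j * JJ (m + 1) ^ k, g * (Em x y μ).det ^ (j + k) = ev2 x y a

theorem Nk.mul {j k j' k' : ℕ} {g g' : K} (h : Nk x y μ j k g) (h' : Nk x y μ j' k' g') :
    Nk x y μ (j + j') (k + k') (g * g') := by
  obtain ⟨a, ha, e⟩ := h
  obtain ⟨a', ha', e'⟩ := h'
  refine ⟨a * a', ?_, ?_⟩
  · rw [pow_add, pow_add, mul_mul_mul_comm]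
    exact Ideal.mul_mem_mul ha ha'
  · rw [map_mul, ← e, ← e']; ring

theorem Nk.add {j k : ℕ} {g g' : K} (h : Nk x y μ j k g) (h' : Nk x y μ j k g') :
    Nk x y μ j k (g + g') := by
  obtain ⟨a, ha, e⟩ := h
  obtain ⟨a', ha', e'⟩ := h'
  exact ⟨a + a', Ideal.add_mem _ ha ha', by rw [map_add, ← e, ← e']; ring⟩

theorem nk_ev (a : Pyx (m + 1)) : Nk x y μ 0 0 (ev2 x y a) := ⟨a, by simp, by simp⟩

theorem nk_one (k : ℕ) : Nk x y μ 0 k 1 := by
  refine ⟨(Matrix.of fun i j => xy i (μ j)).det ^ k, ?_, ?_⟩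
  · rw [pow_zero, one_mul]
    have : (Matrix.of fun i j => xy i (μ j)).det ∈ JJ (m + 1) := Ideal.subset_span ⟨μ, rfl⟩
    exact Ideal.pow_mem_pow this k
  · rw [map_pow, one_mul, zero_add]
    congr 1
    exact (ev2_det x y id μ).symm

theorem Nk.mono {j k k' : ℕ} {g : K} (h : Nk x y μ j k g) (hk : k ≤ k') : Nk x y μ j k' g := by
  have := h.mul (nk_one (k' - k))
  rwa [add_zero, mul_one, Nat.add_sub_cancel' hk] at this

theorem nk_P0 (h1 : Ch1 x y ρ μ) {g : K} (hg : g ∈ P0 x y μ) : ∃ k, Nk x y μ 0 k g := by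
  let S : Subalgebra ℂ K :=
    { carrier := {g | ∃ k, Nk x y μ 0 k g}
      mul_mem' := fun ⟨k, hk⟩ ⟨k', hk'⟩ => ⟨k + k', by
        have := hk.mul hk'
        rwa [zero_add] at this⟩
      add_mem' := fun ⟨k, hk⟩ ⟨k', hk'⟩ =>
        ⟨max k k', (hk.mono (le_max_left _ _)).add (hk'.mono (le_max_right _ _))⟩
      algebraMap_mem' := fun c => ⟨0, by
        have := nk_ev (x := x) (y := y) (μ := μ) (algebraMap ℂ _ c)
        rwa [AlgHom.commutes] at this⟩ }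
  have hc : ∀ h u, cc x y μ h u ∈ S := fun h u => by
    obtain ⟨h', e⟩ := h1.cram h u
    refine ⟨1, (Matrix.of fun i j => xy i (h' j)).det, ?_, ?_⟩
    · rw [pow_zero, one_mul, pow_one]
      exact Ideal.subset_span ⟨h', rfl⟩
    · rw [zero_add, pow_one, e]
      exact (ev2_det x y id h').symm
  have : P0 x y μ ≤ S := by
    refine sup_le (Algebra.adjoin_le ?_) ?_
    · rintro _ ⟨v, u, rfl | rfl⟩ <;> exact hc _ _
    · rintro _ ⟨w, rfl⟩
      refine ⟨0, ?_⟩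
      have := nk_ev (x := x) (y := y) (μ := μ) (sumAlgEquiv ℂ _ _ w)
      simpa [ev2] using this
  exact this hg

/-- membership after clearing a unit denominator -/
def Lk (x y : Fin (m + 1) → K) (μ : Fin (m + 1) → ℕ × ℕ) (j : ℕ) (g : K) : Prop :=
  ∃ b ∈ Hs x y μ, b ∉ mO x y μ ∧ ∃ k, Nk x y μ j k (b * g)

theorem common (h1 : Ch1 x y ρ μ) (h2 : Ch2a x y μ) {ι : Type} (s : Finset ι) {j : ℕ} {g : ι → K}
    (h : ∀ i ∈ s, Lk x y μ j (g i)) :
    ∃ b ∈ Hs x y μ, b ∉ mO x y μ ∧ ∃ k, ∀ i ∈ s, Nk x y μ j k (b * g i) := by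
  classical
  induction s using Finset.induction_on with
  | empty => exact ⟨1, one_mem _, h2.locO.one, 0, by simp⟩
  | insert a s ha ih =>
    obtain ⟨b, hb, hb', k, hk⟩ := ih fun i hi => h i (mem_insert_of_mem hi)
    obtain ⟨c, hc, hc', l, hl⟩ := h a (mem_insert_self a s)
    obtain ⟨kb, hkb⟩ := nk_P0 h1 ((le_sup_left : Hs x y μ ≤ P0 x y μ) hb)
    obtain ⟨kc, hkc⟩ := nk_P0 h1 ((le_sup_left : Hs x y μ ≤ P0 x y μ) hc)
    refine ⟨b * c, mul_mem hb hc, notMem_mul h2.locO (Hs_le_Os hb) hb' hc',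
      max (kb + l) (kc + k), fun i hi => ?_⟩
    rcases mem_insert.mp hi with rfl | hi
    · have := (hkb.mul hl).mono (le_max_left _ (kc + k))
      rwa [zero_add, ← mul_assoc] at this
    · have := (hkc.mul (hk i hi)).mono (le_max_right (kb + l) _)
      rwa [zero_add, ← mul_assoc, mul_comm c b] at this

theorem Lk.add (h1 : Ch1 x y ρ μ) (h2 : Ch2a x y μ) {j : ℕ} {g g' : K} (h : Lk x y μ j g)
    (h' : Lk x y μ j g') : Lk x y μ j (g + g') := by
  obtain ⟨b, hb, hb', k, hk⟩ := common h1 h2 (univ : Finset Bool) (j := j)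
    (g := fun t => cond t g g') (by rintro (_ | _) _ <;> assumption)
  refine ⟨b, hb, hb', k, ?_⟩
  rw [mul_add]
  exact (hk true (mem_univ _)).add (hk false (mem_univ _))

theorem Lk.mul (h2 : Ch2a x y μ) {j j' : ℕ} {g g' : K} (h : Lk x y μ j g)
    (h' : Lk x y μ j' g') : Lk x y μ (j + j') (g * g') := by
  obtain ⟨b, hb, hb', k, hk⟩ := h
  obtain ⟨c, hc, hc', l, hl⟩ := h'
  refine ⟨b * c, mul_mem hb hc, notMem_mul h2.locO (Hs_le_Os hb) hb' hc', k + l, ?_⟩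
  rw [mul_mul_mul_comm]
  exact hk.mul hl

theorem lk_P (h1 : Ch1 x y ρ μ) (h2 : Ch2a x y μ) {g : K} (hg : g ∈ Pp x y μ) : Lk x y μ 0 g := by
  obtain ⟨b, hb, hb', h⟩ := h2.denP g hg
  exact ⟨b, hb, hb', nk_P0 h1 h⟩

theorem lk_xi (h1 : Ch1 x y ρ μ) (h2 : Ch2a x y μ) (u : Fin (m + 1)) :
    Lk x y μ 1 (xi x y μ u) := by
  refine ⟨1, one_mem _, h2.locO.one, 0,
    (-1) ^ (u : ℕ) * (Matrix.of fun i j => xy (Fin.succ i) (rm μ u j)).det, ?_, ?_⟩
  · rw [pow_zero, mul_one, pow_one]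
    exact Ideal.mul_mem_left _ _ (Ideal.subset_span ⟨rm μ u, rfl⟩)
  · rw [one_mul, add_zero, pow_one, h1.cramx, map_mul, ev2_det]
    simp

theorem lk_MM (h1 : Ch1 x y ρ μ) (h2 : Ch2a x y μ) (j : ℕ) {g : K}
    (hg : g ∈ MM (xi x y μ) (Pp x y μ) j) : Lk x y μ j g := by
  induction j generalizing g with
  | zero => rw [MM_zero] at hg; exact lk_P h1 h2 hg
  | succ j ih =>
    have e : MM (xi x y μ) (Pp x y μ) (j + 1) = Vx (xi x y μ) * MM (xi x y μ) (Pp x y μ) j := by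
      unfold MM; rw [pow_succ', mul_assoc]
    rw [e] at hg
    refine Submodule.mul_induction_on hg (fun a ha b hb => ?_) (fun _ _ => Lk.add h1 h2)
    rw [add_comm]
    refine Lk.mul h2 ?_ (ih hb)
    refine Submodule.span_induction (p := fun a _ => Lk x y μ 1 a) ?_ ?_
      (fun _ _ _ _ => Lk.add h1 h2) ?_ ha
    · rintro _ ⟨u, rfl⟩; exact lk_xi h1 h2 u
    · simpa using Lk.mul h2 (lk_P h1 h2 (zero_mem _)) (lk_xi h1 h2 0)
    · intro c a _ ha
      rw [Algebra.smul_def]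
      simpa using Lk.mul h2 (lk_P h1 h2 (algebraMap_mem _ c)) ha

theorem div_mem_pow {I : Ideal (Pyx (m + 1))} {d : ℕ}
    (hI : ∀ a ∈ I, ev2 x y a / (Em x y μ).det ∈ MM (xi x y μ) (Pp x y μ) d) (k : ℕ) :
    ∀ a ∈ I ^ k, ev2 x y a / (Em x y μ).det ^ k ∈ MM (xi x y μ) (Pp x y μ) (d * k) := by
  induction k with
  | zero => intro a _; rw [pow_zero, div_one, mul_zero, MM_zero]; exact ev2_mem a
  | succ k ih =>
    intro a ha
    rw [pow_succ] at ha
    refine Submodule.mul_induction_on ha (fun a ha b hb => ?_) (fun a b ha hb => ?_)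
    · rw [map_mul, pow_succ, mul_div_mul_comm, mul_add_one]
      exact mul_mem_MM (ih a ha) (hI b hb)
    · rw [map_add, add_div]; exact add_mem ha hb

theorem div_mem_span {S : Set (Pyx (m + 1))} {d : ℕ}
    (hS : ∀ a ∈ S, ev2 x y a / (Em x y μ).det ∈ MM (xi x y μ) (Pp x y μ) d) :
    ∀ a ∈ Ideal.span S, ev2 x y a / (Em x y μ).det ∈ MM (xi x y μ) (Pp x y μ) d := by
  intro a ha
  refine Submodule.span_induction
    (p := fun a _ => ev2 x y a / (Em x y μ).det ∈ MM (xi x y μ) (Pp x y μ) d) hS ?_ ?_ ?_ ha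
  · simp
  · intro a b _ _ ha hb; rw [map_add, add_div]; exact add_mem ha hb
  · intro c a _ ha
    rw [smul_eq_mul, map_mul, mul_div_assoc]
    exact P_mul_mem (ev2_mem c) ha

theorem div_mem (h1 : Ch1 x y ρ μ) (j k : ℕ) : ∀ a ∈ JJ' m ^ j * JJ (m + 1) ^ k,
    ev2 x y a / (Em x y μ).det ^ (j + k) ∈ MM (xi x y μ) (Pp x y μ) j := by
  have hJ : ∀ a ∈ JJ (m + 1), ev2 x y a / (Em x y μ).det ∈ MM (xi x y μ) (Pp x y μ) 0 := by
    refine div_mem_span ?_
    rintro _ ⟨h, rfl⟩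
    rw [MM_zero]
    have := ev2_det x y id h
    simp only [id] at this
    rw [this]
    exact Os_le_Pp (Hs_le_Os (h1.detH h))
  have hJ' : ∀ a ∈ JJ' m, ev2 x y a / (Em x y μ).det ∈ MM (xi x y μ) (Pp x y μ) 1 := by
    refine div_mem_span ?_
    rintro _ ⟨h, rfl⟩
    rw [ev2_det]
    have hle : Id (Hs x y μ) (Set.range (xi x y μ)) ≤ MM (xi x y μ) (Pp x y μ) 1 := by
      unfold Id MM
      rw [pow_one, mul_comm]
      exact mul_le_mul' le_rfl (fun _ h => Os_le_Pp (Hs_le_Os h))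
    exact hle (h1.detx h)
  intro a ha
  refine Submodule.mul_induction_on ha (fun a ha b hb => ?_) (fun a b ha hb => ?_)
  · rw [map_mul, pow_add, mul_div_mul_comm]
    simpa using mul_mem_MM (div_mem_pow hJ' j a ha) (div_mem_pow hJ k b hb)
  · rw [map_add, add_div]; exact add_mem ha hb

theorem pull_mem (h1 : Ch1 x y ρ μ) {p j k : ℕ} {Φ : (Fin p → Fin (m + 1)) → Pyx (m + 1)}
    (hΦ : Φ ∈ TI (Fin p) (JJ' m ^ j * JJ (m + 1) ^ k)) (u : Fin p → Fin (m + 1)) :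
    tens (Em x y μ)⁻¹ (fun i => ev2 x y (Φ i)) u / (Em x y μ).det ^ (j + k) ∈
      MM (xi x y μ) (Pp x y μ) j := by
  unfold TI at hΦ
  induction hΦ using Submodule.span_induction with
  | mem v hv =>
    obtain ⟨a, ha, h, rfl⟩ := hv
    simp only [map_mul, map_prod, ev2_xy]
    rw [tens_prod _ _ (fun s i => pw x y i (h s)), mul_comm, mul_div_assoc]
    exact P_mul_mem (prod_mem fun s _ => Os_le_Pp (Hs_le_Os (h1.mem (h s) (u s))))
      (div_mem h1 j k a ha)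
  | zero => simp [tens]
  | add a b _ _ ha hb =>
    have := add_mem ha hb
    rw [← add_div] at this
    convert this using 2
    simp [tens, mul_add, sum_add_distrib]
  | smul c a _ ha =>
    simp only [Pi.smul_apply, smul_eq_mul, map_mul]
    rw [tens_smul, mul_div_assoc]
    exact P_mul_mem (ev2_mem c) ha

theorem tuples_exact (hL : S_Lin) (hg : Gen x y ρ) (h1 : Ch1 x y ρ μ) (h2 : Ch2a x y μ) (j p : ℕ)
    (ψ : (Fin (p + 1) → Fin (m + 1)) → K) (ha : Alt ψ)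
    (hm : ∀ u, ψ u ∈ MM (xi x y μ) (Pp x y μ) (j + 1)) (h0 : ∀ u, tw (xi x y μ) ψ u = 0) :
    ∃ φ : (Fin p → Fin (m + 1)) → K, Alt φ ∧ (∀ u, φ u ∈ MM (xi x y μ) (Pp x y μ) j) ∧
      ∀ u, ψ u = tw (xi x y μ) φ u := by
  have : CharZero K := charZero_of_injective_algebraMap (algebraMap ℂ K).injective
  set E := Em x y μ with hE
  have hdet : IsUnit E.det := h1.det.isUnit
  let e0 : Fin (m + 1) → K := fun s => if s = 0 then 1 else 0
  have hξ : E⁻¹.mulVec e0 = xi x y μ := by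
    funext u
    simp [Matrix.mulVec, dotProduct, e0, xi, hE]
  have hξ' : E.mulVec (xi x y μ) = e0 := by
    rw [← hξ, Matrix.mulVec_mulVec, Matrix.mul_nonsing_inv _ hdet, Matrix.one_mulVec]
  have hΨ : Sgn (tens E ψ) := sgn_tens E ha.1
  have hΨ0 : ∀ i, (∀ r, i r ≠ 0) → tens E ψ i = 0 := by
    refine eq_zero_of_tw_single 0 (fun i => ?_)
    have := tens_tw E (xi x y μ) ψ i
    rw [hξ'] at this
    rw [← this]
    simp [tens, h0]
  obtain ⟨b, hb, hb', k, hk⟩ := common h1 h2 univ (fun u _ => lk_MM h1 h2 (j + 1) (hm u))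
  choose a ha1 ha2 using fun u => hk u (mem_univ u)
  have hb0 : b ≠ 0 := fun e => hb' (e ▸ zero_mem _)
  let Ψ' : (Fin (p + 1) → Fin (m + 1)) → Pyx (m + 1) :=
    ∑ u, fun i => a u * ∏ s, xy (i s) (μ (u s))
  have hΨ'1 : Ψ' ∈ TI (Fin (p + 1)) (JJ' m ^ (j + 1) * JJ (m + 1) ^ k) :=
    Submodule.sum_mem _ fun u _ => Submodule.subset_span ⟨a u, ha1 u, fun s => μ (u s), rfl⟩
  have hΨ'2 : ∀ i, ev2 x y (Ψ' i) = b * E.det ^ (j + 1 + k) * tens E ψ i := by
    intro i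
    simp only [Ψ', Finset.sum_apply, map_sum, map_mul, map_prod, ev2_xy, ← ha2, tens, mul_sum]
    refine sum_congr rfl fun u _ => ?_
    simp only [hE, Em, Matrix.of_apply]
    ring
  obtain ⟨Φ', hΦ'1, hΦ'2⟩ := hL m p j k Ψ' hΨ'1 (fun i hi => ev2_inj hg (by
    rw [hΨ'2, hΨ0 i hi, mul_zero, map_zero]))
  let Φ : (Fin p → Fin (m + 1)) → K := fun i => (b * E.det ^ (j + 1 + k))⁻¹ * ev2 x y (Φ' i)
  have hΦ : ∀ i, (∀ r, i r ≠ 0) → Φ i = tens E ψ (Fin.cons 0 i) := by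
    intro i hi
    simp only [Φ]
    rw [hΦ'2 i hi, hΨ'2, ← mul_assoc, inv_mul_cancel₀ (mul_ne_zero hb0 (pow_ne_zero _ h1.det)),
      one_mul]
  have hmem : ∀ u, tens E⁻¹ Φ u ∈ MM (xi x y μ) (Pp x y μ) j := by
    intro u
    have := P_mul_mem (Os_le_Pp (h2.locO.inv b (Hs_le_Os hb) hb')) (pull_mem h1 hΦ'1 u)
    convert this using 1
    simp only [Φ]
    rw [tens_smul, mul_inv, div_eq_mul_inv, show j + (k + 1) = j + 1 + k by ring]
    ring
  refine ⟨altn (tens E⁻¹ Φ), alt_of_sgn (sgn_altn _), fun u => ?_, fun u => ?_⟩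
  · unfold altn
    refine P_mul_mem ?_ (sum_mem fun τ _ => P_mul_mem (intCast_mem _ _) (hmem _))
    have : ((p.factorial : K))⁻¹ = algebraMap ℂ K ((p.factorial : ℂ))⁻¹ := by simp
    rw [this]
    exact algebraMap_mem _ _
  · have e1 : tens E ψ = tw e0 (altn Φ) := funext (eq_tw_single 0 hΨ hΨ0 hΦ)
    have e2 := tens_tw E⁻¹ e0 (altn Φ) u
    rw [← e1, tens_mul, Matrix.nonsing_inv_mul _ hdet, tens_one, hξ, tens_altn] at e2
    exact e2

end chart

theorem xi_mem {K : Type} [Field K] [Algebra ℂ K] {m : ℕ} {x y : Fin (m + 1) → K}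
    {ρ : Equiv.Perm (Fin (m + 1)) →* (K ≃ₐ[ℂ] K)} {μ : Fin (m + 1) → ℕ × ℕ} (h2 : Ch2 x y ρ μ)
    (u : Fin (m + 1)) : xi x y μ u ∈ MM (xc x y μ) (Pp x y μ) 1 := by
  by_cases hu : IsCor μ u
  · exact self_mem_MM (xc x y μ) _ ⟨u, hu⟩
  · have hle : mR x y μ * Vx (xc x y μ) ≤ MM (xc x y μ) (Pp x y μ) 1 := by
      unfold MM
      rw [pow_one, mul_comm]
      exact mul_le_mul' le_rfl (fun g hg => h2.core.le (h2.core.loc.le g hg))
    exact hle (h2.xiV u hu)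

theorem hv_all (hL : S_Lin) (hT : S_TupW) (hS : S_Star) {K : Type} [Field K] [Algebra ℂ K] {m : ℕ}
    {x y : Fin (m + 1) → K} {ρ : Equiv.Perm (Fin (m + 1)) →* (K ≃ₐ[ℂ] K)}
    {μ : Fin (m + 1) → ℕ × ℕ} (hg : Gen x y ρ) (h1 : Ch1 x y ρ μ) (h2 : Ch2a x y μ) (p j : ℕ) :
    Hv univ (xi x y μ) p (MM (xi x y μ) (Pp x y μ) j).toAddSubgroup
      (MM (xi x y μ) (Pp x y μ) (j + 1)).toAddSubgroup ⊥ ⊥ := by
  have hw : Hw univ (xi x y μ) (MM (xi x y μ) (Pp x y μ) j).toAddSubgroup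
      (MM (xi x y μ) (Pp x y μ) (j + 1)).toAddSubgroup ⊥ ⊥ := by
    refine hT (Fin (m + 1)) K K (xi x y μ) (MM (xi x y μ) (Pp x y μ) j).toAddSubgroup
      (MM (xi x y μ) (Pp x y μ) (j + 1)).toAddSubgroup (fun v _ hv => ?_)
      (fun p Ψ ha hm h0 => tuples_exact hL hg h1 h2 j p Ψ ha hm h0)
    obtain ⟨t⟩ := h2.core.nonempty
    exact (mul_eq_zero.mp (hv t.1)).resolve_left (h2.core.ne t)
  exact (hS (Fin (m + 1)) K K univ (xi x y μ) _ _ _ _).mpr hw p

theorem hv_cor (hR : S_Remove) {K : Type} [Field K] [Algebra ℂ K] {m : ℕ}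
    {x y : Fin (m + 1) → K} {ρ : Equiv.Perm (Fin (m + 1)) →* (K ≃ₐ[ℂ] K)}
    {μ : Fin (m + 1) → ℕ × ℕ} (h2 : Ch2 x y ρ μ) (p j : ℕ)
    (h : Hv univ (xi x y μ) p (MM (xi x y μ) (Pp x y μ) j).toAddSubgroup
      (MM (xi x y μ) (Pp x y μ) (j + 1)).toAddSubgroup ⊥ ⊥) :
    Hv univ (xc x y μ) p (MM (xc x y μ) (Pp x y μ) j).toAddSubgroup
      (MM (xc x y μ) (Pp x y μ) (j + 1)).toAddSubgroup ⊥ ⊥ := by
  have hMM : ∀ j, MM (xc x y μ) (Pp x y μ) j = MM (xi x y μ) (Pp x y μ) j := fun j =>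
    le_antisymm (MM_le_of (ξ := xc x y μ) (ξ' := xi x y μ)
      (fun t => self_mem_MM (xi x y μ) (Pp x y μ) t.1) j)
      (MM_le_of (ξ := xi x y μ) (ξ' := xc x y μ) (xi_mem h2) j)
  choose c hc1 hc2 using fun u => exists_coef (xi_mem h2 u)
  rw [hMM, hMM]
  exact hR (Fin (m + 1)) (Cor μ) K K (OrderEmbedding.subtype (IsCor μ)) (xi x y μ) c
    (MM (xi x y μ) (Pp x y μ) j).toAddSubgroup (MM (xi x y μ) (Pp x y μ) (j + 1)).toAddSubgroup
    ⊥ ⊥ p (fun v _ => hc2 v)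
    (fun v t g hg => (P_mul_mem (hc1 v t) (hg : g ∈ MM (xi x y μ) (Pp x y μ) j) :
      c v t * g ∈ MM (xi x y μ) (Pp x y μ) j))
    (fun v t g hg => by rw [AddSubgroup.mem_bot.mp hg, smul_zero]; exact zero_mem _) h

end GRegMAux

open GRegMAux in
theorem regM : S_Lin → S_TupW → S_Star → S_Remove → S_RegM := by
  intro hL hT hS hR K _ _ m x y ρ μ hg _ h1 h2 p j
  exact hv_cor hR h2 p j (hv_all hL hT hS hg h1 h2.toCh2a p j)

end

end Pool.Agent.P.MP_c2aaf5_co
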