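import Pool.Agent.P.MP_c2aaf5_co.DefK

/-! Package K4: exact anticommuting operators of distinct weights generate a free module. -/

set_option linter.unusedSectionVars false

namespace Pool.Agent.P.MP_c2aaf5_co

open Finset Polynomial

namespace KFreeAux

variable {V : Type} [AddCommGroup V] [Module ℂ V]

/-- `f` preserves `A` -/
def St (A : Submodule ℂ V) (f : V →ₗ[ℂ] V) : Prop := ∀ v ∈ A, f v ∈ A

/-- `a` is exact on `A / B` -/
def Ex (A B : Submodule ℂ V) (a : V →ₗ[ℂ] V) : Prop := ∀ v ∈ A, a v ∈ B → ∃ w ∈ A, v - a w ∈ B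

theorem St.aeval {A : Submodule ℂ V} {h : V →ₗ[ℂ] V} (hA : St A h) (q : ℂ[X]) :
    St A (aeval h q) := fun _ hv => aeval_apply_smul_mem_of_le_comap hv q h hA

theorem comm_aeval {a h : V →ₗ[ℂ] V} {d : ℂ} (ha : ∀ v, h (a v) = a (h v) + d • a v) (p : ℂ[X])
    (y : V) : a (aeval h p y) = aeval h (taylor (-d) p) (a y) := by
  induction p using Polynomial.induction_on generalizing y with
  | C c => simp
  | add p q hp hq => simp [hp, hq]
  | monomial n c hp =>
    rw [pow_succ, ← mul_assoc, taylor_mul, map_mul _ _ X, map_mul _ _ (taylor _ X),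
      Module.End.mul_apply, hp, Module.End.mul_apply]
    congr 1
    simp [ha]

theorem shift_ne {c : ℂ} (hc : c ≠ 0) {q : ℂ[X]} (h : taylor c q = q) : q = C (q.eval 0) := by
  have h1 : ∀ n : ℕ, q.eval (n * c) = q.eval 0 := by
    intro n
    induction n with
    | zero => simp
    | succ n ih =>
      rw [← ih]
      conv_rhs => rw [← h, taylor_eval]
      congr 1
      push_cast
      ring
  rw [← sub_eq_zero]
  refine eq_zero_of_infinite_isRoot _ (Set.infinite_of_injective_forall_mem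
    (f := fun n : ℕ => (n : ℂ) * c) (fun a b hab => ?_) fun n => ?_)
  · exact_mod_cast mul_right_cancel₀ hc hab
  · simp [h1]

theorem one_of_shift {c : ℂ} (hc : c ≠ 0) (J : Submodule ℂ ℂ[X]) (hJ : ∀ q ∈ J, taylor c q ∈ J)
    (q : ℂ[X]) (hq : q ∈ J) (h0 : q ≠ 0) : (1 : ℂ[X]) ∈ J := by
  induction hn : q.natDegree using Nat.strong_induction_on generalizing q with
  | _ n ih =>
    by_cases h1 : taylor c q - q = 0
    · have h2 := shift_ne hc (sub_eq_zero.1 h1)
      have h3 : q.eval 0 ≠ 0 := fun h => h0 (by rw [h2, h, C_0])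
      have h4 := J.smul_mem (q.eval 0)⁻¹ hq
      rwa [h2, eval_C, smul_C, smul_eq_mul, inv_mul_cancel₀ h3, C_1] at h4
    · refine ih _ ?_ _ (J.sub_mem (hJ q hq) hq) h1 rfl
      rw [← hn]
      refine natDegree_lt_natDegree h1 ?_
      have h2 := degree_sub_lt_left (degree_taylor q c) (fun h => h0 ((taylor_eq_zero _ _).1 h))
        (leadingCoeff_taylor c q)
      rwa [degree_taylor] at h2

theorem key [FiniteDimensional ℂ V] {A B : Submodule ℂ V} {a b h : V →ₗ[ℂ] V} {d d' : ℂ}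
    (hd : d ≠ d') (aA : St A a) (bA : St A b) (hA : St A h) (aB : St B a) (bB : St B b)
    (hB : St B h) (ea : Ex A B a) (eb : Ex A B b) (aa : ∀ v, a (a v) = 0) (bb : ∀ v, b (b v) = 0)
    (ab : ∀ v, a (b v) = -b (a v)) (ha : ∀ v, h (a v) = a (h v) + d • a v)
    (hb : ∀ v, h (b v) = b (h v) + d' • b v) :
    ∀ v ∈ A, a v ∈ B → b v ∈ B → ∃ w ∈ A, v - a (b w) ∈ B := by
  let J : Submodule ℂ ℂ[X] :=
    { carrier := {q | ∀ v ∈ A, a v ∈ B → b v ∈ B → ∃ w ∈ A, aeval h q v - a (b w) ∈ B}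
      add_mem' := fun {q q'} h1 h2 v hv h3 h4 => by
        obtain ⟨w, hw, h5⟩ := h1 v hv h3 h4
        obtain ⟨w', hw', h6⟩ := h2 v hv h3 h4
        refine ⟨w + w', A.add_mem hw hw', ?_⟩
        convert B.add_mem h5 h6 using 1
        simp only [map_add, LinearMap.add_apply]
        abel
      zero_mem' := fun v _ _ _ => ⟨0, A.zero_mem, by simp⟩
      smul_mem' := fun c q h1 v hv h3 h4 => by
        obtain ⟨w, hw, h5⟩ := h1 v hv h3 h4
        refine ⟨c • w, A.smul_mem c hw, ?_⟩
        convert B.smul_mem c h5 using 1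
        simp only [map_smul, LinearMap.smul_apply, smul_sub] }
  have h1 : (1 : ℂ[X]) ∈ J := by
    refine one_of_shift (c := d' - d) (sub_ne_zero.2 hd.symm) J (fun q hq v hv h3 h4 => ?_)
      h.charpoly (fun v _ _ _ => ⟨0, A.zero_mem, by simp [LinearMap.aeval_self_charpoly]⟩)
      h.charpoly_monic.ne_zero
    obtain ⟨y, hy, h5⟩ := ea v hv h3
    obtain ⟨w, hw, h6⟩ := hq (b y) (bA y hy) (by
      convert B.sub_mem (bB _ h5) h4 using 1
      rw [ab, map_sub]
      abel) (by rw [bb]; exact B.zero_mem)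
    obtain ⟨t, ht, h7⟩ := eb (aeval h (taylor d' q) y + a w)
      (A.add_mem (hA.aeval _ y hy) (aA w hw)) (by
        rw [map_add, comm_aeval hb, taylor_taylor, neg_add_cancel, taylor_zero']
        convert h6 using 1
        rw [ab, sub_neg_eq_add]
        rfl)
    refine ⟨t, ht, ?_⟩
    have h8 := aB _ h7
    rw [map_sub, map_add, aa, add_zero, comm_aeval ha, taylor_taylor, neg_add_eq_sub] at h8
    convert B.add_mem (hB.aeval (taylor (d' - d) q) _ h5) h8 using 1
    rw [map_sub]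
    abel
  intro v hv h3 h4
  simpa using h1 v hv h3 h4

variable {τ : Type} [LinearOrder τ]

/-- the common kernel -/
def AS (e : τ → V →ₗ[ℂ] V) (S : Finset τ) : Submodule ℂ V := ⨅ s ∈ S, LinearMap.ker (e s)

/-- the sum of the images -/
def BS (e : τ → V →ₗ[ℂ] V) (S : Finset τ) : Submodule ℂ V := ⨆ s ∈ S, LinearMap.range (e s)

theorem mem_AS {e : τ → V →ₗ[ℂ] V} {S : Finset τ} {v : V} : v ∈ AS e S ↔ ∀ s ∈ S, e s v = 0 := by
  simp [AS]

theorem BS_insert (e : τ → V →ₗ[ℂ] V) (S : Finset τ) (s : τ) :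
    BS e (insert s S) = LinearMap.range (e s) ⊔ BS e S := Finset.iSup_insert _ _ _

theorem st_BS {e : τ → V →ₗ[ℂ] V} (S : Finset τ) {f : V →ₗ[ℂ] V}
    (hf : ∀ s v, ∃ w, e s w = f (e s v)) : St (BS e S) f := by
  have : BS e S ≤ (BS e S).comap f := iSup₂_le fun s hs => by
    rintro _ ⟨v, rfl⟩
    exact (le_iSup₂ (f := fun s (_ : s ∈ S) => LinearMap.range (e s)) s hs) (hf s v)
  exact fun v hv => this hv

theorem st_top (f : V →ₗ[ℂ] V) : St ⊤ f := fun _ _ => trivial

theorem st_bot (f : V →ₗ[ℂ] V) : St ⊥ f := fun v hv => by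
  rw [(Submodule.mem_bot ℂ).1 hv, map_zero]
  exact Submodule.zero_mem _

section
variable [FiniteDimensional ℂ V] {e : τ → V →ₗ[ℂ] V} {h : V →ₗ[ℂ] V} {d : τ → ℂ}
  (hd : Function.Injective d) (ac : ∀ s t v, e s (e t v) = -e t (e s v))
  (hw : ∀ s v, h (e s v) = e s (h v) + d s • e s v) (ex : ∀ s v, e s v = 0 → ∃ w, e s w = v)

include ac in
omit [FiniteDimensional ℂ V] [LinearOrder τ] in
theorem sq (s : τ) (v : V) : e s (e s v) = 0 := by
  have h1 : (2 : ℂ) • e s (e s v) = 0 := by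
    rw [two_smul]
    exact add_eq_zero_iff_eq_neg.2 (ac s s v)
  exact (smul_eq_zero.1 h1).resolve_left two_ne_zero

include hd ac hw ex in
theorem exA (S : Finset τ) : ∀ i, i ∉ S → Ex (AS e S) ⊥ (e i) := by
  induction S using Finset.induction_on with
  | empty =>
    intro i _ v _ hv
    obtain ⟨w, rfl⟩ := ex i v hv
    exact ⟨w, mem_AS.2 (by simp), by simp⟩
  | insert s S hs ih =>
    intro i hi v hv h1
    rw [mem_insert, not_or] at hi
    have h2 : ∀ t, St (AS e S) (e t) := fun t v hv => mem_AS.2 fun s hs => by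
      rw [ac, mem_AS.1 hv s hs, map_zero, neg_zero]
    have h3 : St (AS e S) h := fun v hv => mem_AS.2 fun s hs => by
      have := hw s v
      rw [mem_AS.1 hv s hs, map_zero, smul_zero, add_zero] at this
      exact this.symm
    obtain ⟨w, hw', h4⟩ := key (hd.ne hi.1) (h2 i) (h2 s) h3 (st_bot _) (st_bot _) (st_bot _)
      (ih i hi.2) (ih s hs) (sq ac i) (sq ac s) (ac i s) (hw i) (hw s) v
      (mem_AS.2 fun t ht => mem_AS.1 hv t (mem_insert_of_mem ht)) h1
      (mem_AS.1 hv s (mem_insert_self _ _))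
    refine ⟨e s w, mem_AS.2 fun t ht => ?_, h4⟩
    rcases mem_insert.1 ht with rfl | ht
    · exact sq ac _ _
    · exact mem_AS.1 (h2 s w hw') t ht

include hd ac hw ex in
theorem exB (S : Finset τ) : ∀ i, i ∉ S → Ex ⊤ (BS e S) (e i) := by
  induction S using Finset.induction_on with
  | empty =>
    intro i _ v _ hv
    obtain ⟨w, rfl⟩ := ex i v (by simpa [BS] using hv)
    exact ⟨w, trivial, by simp⟩
  | insert s S hs ih =>
    intro i hi v _ h1
    rw [mem_insert, not_or] at hi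
    have h2 : ∀ t, St (BS e S) (e t) := fun t => st_BS S fun s v => ⟨-e t v, by
      rw [map_neg, ac t s]⟩
    have h3 : St (BS e S) h := st_BS S fun s v => ⟨h v + d s • v, by rw [hw, map_add, map_smul]⟩
    rw [BS_insert] at h1 ⊢
    obtain ⟨_, ⟨u, rfl⟩, β, hβ, h4⟩ := Submodule.mem_sup.1 h1
    obtain ⟨w, -, h5⟩ := key (hd.ne hi.1) (st_top _) (st_top _) (st_top _) (h2 i) (h2 s) h3
      (ih i hi.2) (ih s hs) (sq ac i) (sq ac s) (ac i s) (hw i) (hw s) (e i v) trivial
      (by rw [sq ac]; exact Submodule.zero_mem _)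
      (by rw [← h4, map_add, sq ac, zero_add]; exact h2 s β hβ)
    obtain ⟨w', -, h6⟩ := ih i hi.2 (v - e s w) trivial (by rwa [map_sub])
    refine ⟨w', trivial, Submodule.mem_sup.2 ⟨e s w, ⟨w, rfl⟩, _, h6, ?_⟩⟩
    abel

include hd ac hw ex in
theorem indep {U : Submodule ℂ V} (hU : Disjoint U (⨆ s, LinearMap.range (e s))) (T : Finset τ) :
    ∀ S : Finset τ, Disjoint S T → ∀ u : Finset τ → V, (∀ J, u J ∈ U) →
      ∑ J ∈ T.powerset, (J.sort (· ≤ ·)).foldr (fun s v => e s v) (u J) ∈ BS e S →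
      ∀ J ⊆ T, u J = 0 := by
  induction T using Finset.induction_on_min with
  | empty =>
    intro S _ u hu h1 J hJ
    rw [subset_empty.1 hJ]
    refine (Submodule.disjoint_def.1 hU) _ (hu _) ?_
    have h2 : BS e S ≤ ⨆ s, LinearMap.range (e s) :=
      iSup₂_le fun s _ => le_iSup (fun s => LinearMap.range (e s)) s
    exact h2 (by simpa using h1)
  | insert a T ha ih =>
    intro S hS u hu h1
    have h2 : a ∉ T := fun h => lt_irrefl _ (ha a h)
    rw [disjoint_insert_right] at hS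
    have h3 : Disjoint (insert a S) T := disjoint_insert_left.2 ⟨h2, hS.2⟩
    have h4 : ∑ J ∈ T.powerset, ((insert a J).sort (· ≤ ·)).foldr (fun s v => e s v)
        (u (insert a J)) =
        e a (∑ J ∈ T.powerset, (J.sort (· ≤ ·)).foldr (fun s v => e s v) (u (insert a J))) := by
      rw [map_sum]
      refine sum_congr rfl fun J hJ => ?_
      rw [sort_insert _ (fun b hb => (ha b (mem_powerset.1 hJ hb)).le)
        (fun h => h2 (mem_powerset.1 hJ h)), List.foldr_cons]
    rw [sum_powerset_insert h2, h4] at h1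
    have h5 := ih (insert a S) h3 u hu (by
      rw [BS_insert]
      exact Submodule.mem_sup.2 ⟨_, Submodule.neg_mem _ ⟨_, rfl⟩, _, h1, by abel⟩)
    have h6 : ∑ J ∈ T.powerset, (J.sort (· ≤ ·)).foldr (fun s v => e s v) (u J) = 0 := by
      refine sum_eq_zero fun J hJ => ?_
      rw [h5 J (mem_powerset.1 hJ)]
      induction J.sort (· ≤ ·) with
      | nil => rfl
      | cons s l ih => rw [List.foldr_cons, ih, map_zero]
    rw [h6, zero_add] at h1
    obtain ⟨w, -, h7⟩ := exB hd ac hw ex S a hS.1 _ trivial h1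
    have h8 := ih (insert a S) h3 (fun J => u (insert a J)) (fun J => hu _) (by
      rw [BS_insert]
      exact Submodule.mem_sup.2 ⟨e a w, ⟨w, rfl⟩, _, h7, by abel⟩)
    intro J hJ
    by_cases h9 : a ∈ J
    · rw [← insert_erase h9]
      exact h8 _ (subset_insert_iff.1 hJ)
    · exact h5 J ((subset_insert_iff_of_notMem h9).1 hJ)

end

end KFreeAux

open KFreeAux in
theorem free : S_Free := by
  intro τ V _ _ _ _ _ e h d hd ac hw ex
  refine ⟨fun S i v hi h1 h2 => ?_, fun U hU u hu h1 => funext fun J => ?_⟩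
  · obtain ⟨w, h3, h4⟩ := exA hd ac hw ex S i hi v (mem_AS.2 h1) h2
    exact ⟨w, mem_AS.1 h3, (sub_eq_zero.1 h4).symm⟩
  · refine indep hd ac hw ex hU univ ∅ (disjoint_empty_left _) u hu ?_ J (subset_univ _)
    rw [powerset_univ, h1]
    exact Submodule.zero_mem _

end Pool.Agent.P.MP_c2aaf5_co
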