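import Pool.Agent.P.MP_c2aaf5_co.KLA1

/-! Linear algebra of a system of symmetric forms. -/

set_option linter.unusedSectionVars false

namespace Pool.Agent.P.MP_c2aaf5_co

open Finset

namespace KLAAux

variable {τ : Type} [LinearOrder τ] [Fintype τ] {W : Type} [AddCommGroup W] [Module ℂ W]

theorem fold_an (L : List τ) (hL : L.Nodup) (J : Finset τ) (hJ : ∀ t ∈ L, t ∉ J) :
    ∃ ε : ℂ, ε ≠ 0 ∧ ∀ φ : Finset τ → W,
      L.foldr (fun s ψ => an s ψ) φ J = ε • φ (L.toFinset ∪ J) := by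
  induction L generalizing J with
  | nil => exact ⟨1, one_ne_zero, fun φ => by simp⟩
  | cons s L ih =>
    have hs : s ∉ J := hJ s List.mem_cons_self
    obtain ⟨h1, h2⟩ := List.nodup_cons.1 hL
    obtain ⟨ε, h3, h4⟩ := ih h2 (insert s J) (fun t ht => by
      rw [mem_insert, not_or]
      exact ⟨fun e => h1 (e ▸ ht), hJ t (List.mem_cons_of_mem _ ht)⟩)
    refine ⟨(sg s J : ℂ) * ε, mul_ne_zero ?_ h3, fun φ => ?_⟩
    · rcases sg_eq_or s J with e | e <;> simp [e]
    · rw [List.foldr_cons, an_apply, if_neg hs, h4, List.toFinset_cons, insert_union,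
        union_insert, mul_smul, Int.cast_smul_eq_zsmul]

theorem val_fold (L : List τ) (q : ℕ) (φ : Finset τ → W) (h : Val univ (q + L.length) ⊤ φ) :
    Val univ q ⊤ (L.foldr (fun s ψ => an s ψ) φ) := by
  induction L generalizing q with
  | nil => exact h
  | cons s L ih =>
    rw [List.foldr_cons]
    refine Val.an (ih (q + 1) ?_) s
    rwa [List.length_cons, ← add_assoc, add_right_comm] at h

variable (β : τ → W →ₗ[ℂ] W →ₗ[ℂ] ℂ)

/-- iterated exterior action -/
def fl (L : List τ) : (NN β × Module.Dual ℂ (NN β)) →ₗ[ℂ] (NN β × Module.Dual ℂ (NN β)) :=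
  L.foldr (fun s T => eV β s ∘ₗ T) LinearMap.id

theorem fl_apply (L : List τ) (v : NN β × Module.Dual ℂ (NN β)) :
    fl β L v = L.foldr (fun s v => eV β s v) v := by
  induction L with
  | nil => rfl
  | cons s L ih => rw [List.foldr_cons, ← ih]; rfl

theorem fl_cons (s : τ) (L : List τ) (v : NN β × Module.Dual ℂ (NN β)) :
    fl β (s :: L) v = eV β s (fl β L v) := rfl

theorem fl_down (L : List τ) (q : ℕ) (φ : NN β) (h : Val univ (q + L.length) ⊤ φ.1) :
    (fl β L (φ, 0)).1.1 = L.foldr (fun s ψ => an s ψ) φ.1 ∧ (fl β L (φ, 0)).2 = 0 := by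
  induction L generalizing q with
  | nil => exact ⟨rfl, rfl⟩
  | cons s L ih =>
    rw [List.length_cons, ← add_assoc, add_right_comm] at h
    obtain ⟨h1, h2⟩ := ih (q + 1) h
    refine ⟨by rw [fl_cons, eV_fst, aN_val, h1, List.foldr_cons], LinearMap.ext fun ψ => ?_⟩
    have h3 := ((val_fold L (q + 1) φ.1 h) ∅).2 (by simp)
    rw [fl_cons, eV_snd, h2, ev_val, h1, h3]
    simp

theorem fl_insert (I : Finset τ) : ∃ ε : ℂ, ε ≠ 0 ∧ ∀ (s : τ) (φ : NN β), (∀ t ∈ I, s < t) →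
    Val univ I.card ⊤ φ.1 → fl β ((insert s I).sort (· ≤ ·)) (φ, 0) =
      ε • (0, β s (φ.1 I) ∘ₗ ev β) := by
  obtain ⟨ε, h1, h2⟩ := fold_an (W := W) (I.sort (· ≤ ·)) (sort_nodup _ _) ∅ (by simp)
  refine ⟨ε, h1, fun s φ hs hφ => ?_⟩
  have hφ' : Val univ (0 + (I.sort (· ≤ ·)).length) ⊤ φ.1 := by
    rwa [zero_add, length_sort]
  obtain ⟨h3, h4⟩ := fl_down β _ 0 φ hφ'
  rw [sort_insert (· ≤ ·) (fun t ht => (hs t ht).le) (fun ht => lt_irrefl _ (hs s ht)), fl_cons]
  refine Prod.ext (Subtype.ext ?_) (LinearMap.ext fun ψ => ?_)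
  · rw [eV_fst, aN_val, h3, (val_fold _ 0 φ.1 hφ').an_zero]; simp
  · rw [eV_snd, h4, ev_val, h3, h2]
    simp

theorem exists_gens [FiniteDimensional ℂ W] : ∃ (N : ℕ) (p : Fin N → ℕ) (φ : Fin N → NN β),
    (∀ i, Val univ (p i) ⊤ (φ i).1) ∧
    LinearIndependent ℂ (fun i => (⨆ s, LinearMap.range (aN β s)).mkQ (φ i)) ∧
    ∀ ψ : NN β, ∃ c : Fin N → ℂ, ψ - ∑ i, c i • φ i ∈ ⨆ s, LinearMap.range (aN β s) := by
  set R : Submodule ℂ (NN β) := ⨆ s, LinearMap.range (aN β s)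
  obtain ⟨b, hb1, hb2, hb3⟩ := exists_linearIndependent ℂ
    (R.mkQ '' {φ : NN β | ∃ p, Val univ p ⊤ φ.1})
  have hfin : b.Finite := LinearIndependent.set_finite_of_isNoetherian hb3
  have : Fintype b := hfin.fintype
  have hch : ∀ x : b, ∃ (p : ℕ) (φ : NN β), Val univ p ⊤ φ.1 ∧ R.mkQ φ = x := fun x => by
    obtain ⟨φ, ⟨p, h1⟩, h2⟩ := hb1 x.2
    exact ⟨p, φ, h1, h2⟩
  choose p φ h1 h2 using hch
  let e := (Fintype.equivFin b).symm
  refine ⟨Fintype.card b, fun i => p (e i), fun i => φ (e i), fun i => h1 _, ?_, fun ψ => ?_⟩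
  · simp only [h2]
    exact hb3.comp e e.injective
  · have h3 : R.mkQ ψ ∈ Submodule.span ℂ (Set.range fun i => R.mkQ (φ (e i))) := by
      have e1 : (Set.range fun i => R.mkQ (φ (e i))) = b := by
        simp only [h2]
        ext x
        exact ⟨fun ⟨i, hi⟩ => hi ▸ (e i).2, fun hx => ⟨e.symm ⟨x, hx⟩, by simp⟩⟩
      rw [e1, hb2]
      have e2 : ψ = ∑ q ∈ range (Fintype.card τ + 1), (⟨pr q ψ.1, cyc_pr ψ.2 q⟩ : NN β) := by
        apply Subtype.ext
        rw [AddSubmonoidClass.coe_finsetSum]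
        exact (sum_pr ψ.1).symm
      rw [e2, map_sum]
      exact Submodule.sum_mem _ fun q _ => Submodule.subset_span ⟨_, ⟨q, val_pr q _⟩, rfl⟩
    obtain ⟨c, hc⟩ := (Submodule.mem_span_range_iff_exists_fun ℂ).1 h3
    refine ⟨c, ?_⟩
    rw [← Submodule.Quotient.mk_eq_zero, ← Submodule.mkQ_apply, map_sub, map_sum, ← hc]
    simp only [map_smul, sub_self]

theorem span_vals {N : ℕ} (φ : Fin N → NN β)
    (h : ∀ ψ : NN β, ∃ c : Fin N → ℂ, ψ - ∑ i, c i • φ i ∈ ⨆ s, LinearMap.range (aN β s))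
    (I : Finset τ) : ∀ ψ : NN β,
      ψ.1 I ∈ Submodule.span ℂ (Set.range fun x : Fin N × Finset τ => (φ x.1).1 x.2) := by
  induction I using WellFoundedGT.induction with
  | _ I ih =>
    intro ψ
    obtain ⟨c, hc⟩ := h ψ
    have h1 : ∀ χ ∈ ⨆ s, LinearMap.range (aN β s), (χ : NN β).1 I ∈
        Submodule.span ℂ (Set.range fun x : Fin N × Finset τ => (φ x.1).1 x.2) := by
      intro χ hχ
      induction hχ using Submodule.iSup_induction' with
      | mem s χ hχ =>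
        obtain ⟨ω, rfl⟩ := hχ
        rw [aN_val, an_apply]
        split_ifs with hs
        · exact Submodule.zero_mem _
        · exact zsmul_mem (ih _ (ssubset_insert hs) ω) _
      | zero => exact Submodule.zero_mem _
      | add x y _ _ hx hy => exact Submodule.add_mem _ hx hy
    have h2 := h1 _ hc
    have h3 : (∑ i, c i • φ i : NN β).1 I ∈
        Submodule.span ℂ (Set.range fun x : Fin N × Finset τ => (φ x.1).1 x.2) := by
      rw [AddSubmonoidClass.coe_finsetSum, Finset.sum_apply]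
      exact Submodule.sum_mem _ fun i _ =>
        Submodule.smul_mem _ (c i) (Submodule.subset_span ⟨(i, I), rfl⟩)
    have h4 := Submodule.add_mem _ h2 h3
    simpa using h4

theorem indep {N : ℕ} (p : Fin N → ℕ) (φ : Fin N → NN β) (hp : ∀ i, Val univ (p i) ⊤ (φ i).1)
    (hli : LinearIndependent ℂ (fun i => (⨆ s, LinearMap.range (aN β s)).mkQ (φ i)))
    (hF : ∀ U : Submodule ℂ (NN β × Module.Dual ℂ (NN β)),
      Disjoint U (⨆ s, LinearMap.range (eV β s)) → ∀ u : Finset τ → NN β × Module.Dual ℂ (NN β),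
      (∀ J, u J ∈ U) →
      ∑ J : Finset τ, (J.sort (· ≤ ·)).foldr (fun s v => eV β s v) (u J) = 0 → u = 0)
    (ζ : Fin N → τ → Finset τ → ℂ)
    (hζ : ∀ i s I, ζ i s I ≠ 0 → I.card = p i ∧ ∀ t ∈ I, s < t)
    (h0 : ∑ i, ∑ s, ∑ I, ζ i s I • β s ((φ i).1 I) = 0) : ζ = 0 := by
  choose ε hε1 hε2 using fl_insert β
  rw [Fintype.linearIndependent_iff] at hli
  have key : ∀ c : Fin N → ℂ, ∑ i, c i • φ i ∈ ⨆ s, LinearMap.range (aN β s) → ∀ i, c i = 0 := by
    intro c hc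
    apply hli
    rw [← Submodule.Quotient.mk_eq_zero, ← Submodule.mkQ_apply, map_sum] at hc
    simpa only [map_smul] using hc
  let c : Finset τ → Fin N → ℂ := fun J i =>
    ∑ s, ∑ I, if insert s I = J then (ε I)⁻¹ * ζ i s I else 0
  let g : Fin N → NN β × Module.Dual ℂ (NN β) := fun i => (φ i, 0)
  have hfst : ∀ a : Fin N → ℂ, (∑ i, a i • g i).1 = ∑ i, a i • φ i := fun a => by
    rw [Prod.fst_sum]; rfl
  have hdis : Disjoint (Submodule.span ℂ (Set.range g)) (⨆ s, LinearMap.range (eV β s)) := by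
    rw [Submodule.disjoint_def]
    intro x hx hx'
    obtain ⟨a, rfl⟩ := (Submodule.mem_span_range_iff_exists_fun ℂ).1 hx
    have h1 : ∀ y ∈ ⨆ s, LinearMap.range (eV β s), (y : NN β × Module.Dual ℂ (NN β)).1 ∈
        ⨆ s, LinearMap.range (aN β s) := by
      intro y hy
      induction hy using Submodule.iSup_induction' with
      | mem s y hy =>
        obtain ⟨w, rfl⟩ := hy
        exact Submodule.mem_iSup_of_mem s ⟨w.1, rfl⟩
      | zero => exact Submodule.zero_mem _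
      | add x y _ _ hx hy => exact Submodule.add_mem _ hx hy
    have h2 := h1 _ hx'
    rw [hfst] at h2
    simp [key a h2]
  have hsum : ∑ J : Finset τ, fl β (J.sort (· ≤ ·)) (∑ i, c J i • g i) = 0 := by
    have e1 : ∀ J : Finset τ, fl β (J.sort (· ≤ ·)) (∑ i, c J i • g i) =
        ∑ i, ∑ s, ∑ I, if insert s I = J then
          ζ i s I • ((0, β s ((φ i).1 I) ∘ₗ ev β) : NN β × Module.Dual ℂ (NN β)) else 0 := by
      intro J
      rw [map_sum]
      refine sum_congr rfl fun i _ => ?_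
      rw [map_smul, sum_smul]
      refine sum_congr rfl fun s _ => ?_
      rw [sum_smul]
      refine sum_congr rfl fun I _ => ?_
      split_ifs with hJ
      · by_cases hz : ζ i s I = 0
        · simp [hz]
        · obtain ⟨a1, a2⟩ := hζ i s I hz
          rw [← hJ, hε2 I s (φ i) a2 (a1 ▸ hp i), smul_smul, mul_right_comm,
            inv_mul_cancel₀ (hε1 I), one_mul]
      · exact zero_smul _ _
    simp only [e1]
    rw [sum_comm]
    have e2 : ∀ i, (∑ J : Finset τ, ∑ s, ∑ I, if insert s I = J then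
          ζ i s I • ((0, β s ((φ i).1 I) ∘ₗ ev β) : NN β × Module.Dual ℂ (NN β)) else 0) =
        ∑ s, ∑ I, ζ i s I • ((0, β s ((φ i).1 I) ∘ₗ ev β) : NN β × Module.Dual ℂ (NN β)) := by
      intro i
      rw [sum_comm]
      refine sum_congr rfl fun s _ => ?_
      rw [sum_comm]
      refine sum_congr rfl fun I _ => ?_
      rw [sum_ite_eq, if_pos (mem_univ _)]
    simp only [e2]
    refine Prod.ext ?_ (LinearMap.ext fun ψ => ?_)
    · simp [Prod.fst_sum]
    · have a1 := LinearMap.congr_fun h0 (ev β ψ)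
      simpa [Prod.snd_sum, LinearMap.sum_apply] using a1
  have hu := hF _ hdis (fun J => ∑ i, c J i • g i)
    (fun J => Submodule.sum_mem _ fun i _ =>
      Submodule.smul_mem _ _ (Submodule.subset_span ⟨i, rfl⟩))
    (by simpa only [fl_apply] using hsum)
  have hc : ∀ J i, c J i = 0 := fun J => key (c J) (by
    rw [← hfst, show ∑ i, c J i • g i = 0 from congrFun hu J]; exact Submodule.zero_mem _)
  funext i s I
  by_contra hz
  obtain ⟨-, a2⟩ := hζ i s I hz
  have hsI : s ∉ I := fun ht => lt_irrefl _ (a2 s ht)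
  have a3 := hc (insert s I) i
  have uniq : ∀ s' I', insert s' I' = insert s I → ζ i s' I' ≠ 0 → s' = s ∧ I' = I := by
    intro s' I' e hz'
    obtain ⟨-, b2⟩ := hζ i s' I' hz'
    have hs' : s' ∉ I' := fun ht => lt_irrefl _ (b2 s' ht)
    have e1 : s' = s := by
      have m1 : s' ∈ insert s I := e ▸ mem_insert_self _ _
      have m2 : s ∈ insert s' I' := e.symm ▸ mem_insert_self _ _
      rcases mem_insert.1 m1 with h | h
      · exact h
      rcases mem_insert.1 m2 with h' | h'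
      · exact h'.symm
      exact absurd (a2 _ h) (not_lt.2 (b2 _ h').le)
    subst e1
    exact ⟨rfl, by rw [← erase_insert hs', e, erase_insert hsI]⟩
  simp only [c] at a3
  rw [sum_eq_single s, sum_eq_single I, if_pos rfl] at a3
  · exact mul_ne_zero (inv_ne_zero (hε1 I)) hz a3
  · intro I' _ hI'
    split_ifs with e
    · by_contra hne
      exact hI' (uniq s I' e (right_ne_zero_of_mul hne)).2
    · rfl
  · simp
  · intro s' _ hs'
    refine sum_eq_zero fun I' _ => ?_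
    split_ifs with e
    · by_contra hne
      exact hs' (uniq s' I' e (right_ne_zero_of_mul hne)).1
    · rfl
  · simp

theorem core [FiniteDimensional ℂ W] (hFr : S_Free) (h : W →ₗ[ℂ] W) (d : τ → ℂ)
    (hd : Function.Injective d) (hs : ∀ s f g, β s f g = β s g f)
    (hh : ∀ s f g, β s (h f) g + β s f (h g) = d s * β s f g) (hE : Ex β) :
    SFc β ∧ ∃ (N : ℕ) (p : Fin N → ℕ) (φ : Fin N → Finset τ → W),
      (∀ i, Val univ (p i) ⊤ (φ i) ∧ Cyc β (φ i)) ∧
      (∀ w, ∃ c : Fin N → Finset τ → ℂ, w = ∑ i, ∑ I, c i I • φ i I) ∧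
      ∀ ζ : Fin N → τ → Finset τ → ℂ, (∀ i s I, ζ i s I ≠ 0 → I.card = p i ∧ ∀ t ∈ I, s < t) →
        ∑ i, ∑ s, ∑ I, ζ i s I • β s (φ i I) = 0 → ζ = 0 := by
  obtain ⟨hF1, hF2⟩ := hFr τ (NN β × Module.Dual ℂ (NN β)) (eV β) (hV β h d hh) (fun s => -d s)
    (fun s t e => hd (neg_injective e)) (eV_eV β hs) (hV_eV β h d hh) (eV_exact β hs hE)
  refine ⟨⟨fun s i w hw => ?_, fun S i w hi hw => ?_⟩, ?_⟩
  · obtain ⟨ψ, -, h2, h3⟩ := hE.1 s w hw
    have a1 := h2 s i ∅
    rw [an_empty, h3] at a1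
    exact ⟨-an i ψ ∅, by rw [map_neg]; exact eq_neg_of_add_eq_zero_left a1⟩
  · obtain ⟨u, h1, h2⟩ := hF1 S i (eV β i (io β w, 0)) hi (fun s hsS => by
      obtain ⟨w', hw'⟩ := hw s hsS
      refine Prod.ext ?_ (LinearMap.ext fun ψ => ?_)
      · rw [eV_fst, eV_fst, aN_io, map_zero]; rfl
      · rw [eV_snd, eV_snd, eV_fst, aN_io, ev_io, hw', hs s w', cyc_self]; simp) (by
      have a1 := eV_eV β hs i i (io β w, 0)
      rw [eq_neg_iff_add_eq_zero, ← two_smul ℂ] at a1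
      exact (smul_eq_zero.1 a1).resolve_left two_ne_zero)
    refine ⟨ev β u.1, fun s hsS => form_zero β s u (h1 s hsS), LinearMap.ext fun g => ?_⟩
    have a1 := eV_snd β i u (io β g)
    rw [h2, eV_snd, aN_io, ev_io, ev_io] at a1
    simpa using a1.symm
  · obtain ⟨N, p, φ, h1, h2, h3⟩ := exists_gens β
    refine ⟨N, p, fun i => (φ i).1, fun i => ⟨h1 i, (φ i).2⟩, fun w => ?_,
      indep β p φ h1 h2 hF2⟩
    have a1 := span_vals β φ h3 ∅ (io β w)
    obtain ⟨c, hc⟩ := (Submodule.mem_span_range_iff_exists_fun ℂ).1 a1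
    refine ⟨fun i I => c (i, I), ?_⟩
    rw [Fintype.sum_prod_type] at hc
    rw [hc]; exact (ev_io β w).symm

theorem an_comp {W' : Type} [AddCommGroup W'] [Module ℂ W'] (f : W →ₗ[ℂ] W') (s : τ)
    (φ : Finset τ → W) (I : Finset τ) : an s (fun J => f (φ J)) I = f (an s φ I) := by
  rw [an_apply, an_apply]
  split_ifs
  · exact (map_zero f).symm
  · exact (map_zsmul f _ _).symm

theorem val_comp {W' : Type} [AddCommGroup W'] [Module ℂ W'] (f : W →ₗ[ℂ] W') {p : ℕ}
    {φ : Finset τ → W} (h : Val univ p ⊤ φ) : Val univ p ⊤ (fun J => f (φ J)) := fun I =>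
  ⟨trivial, fun hI => by beta_reduce; rw [(h I).2 hI, map_zero]⟩

end KLAAux

open KLAAux in
theorem la (hFr : S_Free) : S_LA := by
  intro τ W _ _ _ _ β h d hd hs hh hfin hE
  set π := (Kall β).mkQ with hπ
  obtain ⟨σ, hσ⟩ := π.exists_rightInverse_of_surjective (Submodule.range_mkQ _)
  have hπσ : ∀ x, π (σ x) = x := fun x => LinearMap.congr_fun hσ x
  have hK : ∀ w, w ∈ Kall β ↔ π w = 0 := fun w => (Submodule.Quotient.mk_eq_zero _).symm
  have hK' : ∀ w ∈ Kall β, ∀ s, β s w = 0 := fun w hw s => (Submodule.mem_iInf _).1 hw s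
  have hl : ∀ s f, β s (σ (π f)) = β s f := fun s f => by
    rw [← sub_eq_zero, ← map_sub]
    exact hK' _ ((hK _).2 (by rw [map_sub, hπσ, sub_self])) s
  have hr : ∀ s f g, β s f (σ (π g)) = β s f g := fun s f g => by rw [hs, hl, hs]
  let β' : τ → (W ⧸ Kall β) →ₗ[ℂ] (W ⧸ Kall β) →ₗ[ℂ] ℂ := fun s => (β s).compl₁₂ σ σ
  have hβ : ∀ s x y, β' s x y = β s (σ x) (σ y) := fun _ _ _ => rfl
  have hdown : ∀ s x g, β s (σ x) g = β' s x (π g) := fun s x g => by rw [hβ, hr]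
  have hup : ∀ s f y, β' s (π f) y = β s f (σ y) := fun s f y => by rw [hβ, hl]
  have hc1 : ∀ φ, Cyc β φ → Cyc β' (fun J => π (φ J)) := fun φ hφ s t I => by
    refine LinearMap.ext fun y => ?_
    rw [an_comp, an_comp, LinearMap.add_apply, hup, hup]
    exact LinearMap.congr_fun (hφ s t I) (σ y)
  have hc2 : ∀ φ, Cyc β' φ → Cyc β (fun J => σ (φ J)) := fun φ hφ s t I => by
    ext1 g
    rw [an_comp, an_comp, LinearMap.add_apply, hdown, hdown]
    exact LinearMap.congr_fun (hφ s t I) (π g)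
  have hE' : Ex β' := by
    refine ⟨fun s x hx => ?_, fun s p φ h1 h2 h3 => ?_⟩
    · obtain ⟨ψ, a1, a2, a3⟩ := hE.1 s (σ x) (by ext1 g; rw [hdown, hx]; rfl)
      refine ⟨_, val_comp π a1, hc1 ψ a2, ?_⟩
      rw [hK, map_sub, hπσ, sub_eq_zero] at a3
      exact a3
    · obtain ⟨ψ, -, a2, a3⟩ := hE.2 s p _ (val_comp σ h1) (hc2 φ h2) (fun I => by
        rw [an_comp, h3, Pi.zero_apply, map_zero]; exact Submodule.zero_mem _)
      refine ⟨_, hc1 ψ a2, funext fun I => ?_⟩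
      have a4 := a3 I
      rw [hK, map_sub, hπσ, sub_eq_zero] at a4
      rw [an_comp, a4]
  obtain ⟨⟨h1, h2⟩, N, p, φ, h3, h4, h5⟩ := core β' hFr (π ∘ₗ h ∘ₗ σ) d hd
    (fun s x y => hs s _ _) (fun s x y => by
      rw [LinearMap.comp_apply, LinearMap.comp_apply, LinearMap.comp_apply, LinearMap.comp_apply,
        hup, ← hdown, hβ]
      exact hh s _ _) hE'
  have hz : ∀ s w, β s w = 0 ↔ β' s (π w) = 0 := fun s w =>
    ⟨fun e => LinearMap.ext fun y => by rw [hup, e]; rfl,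
      fun e => by ext1 g; rw [← hl, hdown, e]; rfl⟩
  refine ⟨⟨fun s i w hw => ?_, fun S i w hi hw => ?_⟩, N, p, fun i J => σ (φ i J),
    fun i => ⟨val_comp σ (h3 i).1, hc2 _ (h3 i).2⟩, fun w => ?_, fun ζ a1 a2 => h5 ζ a1 ?_⟩
  · obtain ⟨x, hx⟩ := h1 s i (π w) ((hz s w).1 hw)
    exact ⟨σ x, by ext1 g; rw [← hl, hdown, hdown, hx]⟩
  · obtain ⟨x, a1, a2⟩ := h2 S i (π w) hi (fun s hsS => by
      obtain ⟨w', e⟩ := hw s hsS
      exact ⟨π w', LinearMap.ext fun y => by rw [hup, hup, e]⟩)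
    refine ⟨σ x, fun s hsS => (hz s _).2 (by rw [hπσ, a1 s hsS]), ?_⟩
    ext1 g
    rw [hdown, a2, hup, hr]
  · obtain ⟨c, hc⟩ := h4 (π w)
    refine ⟨c, (hK _).2 ?_⟩
    rw [map_sub, hc]
    simp only [map_sum, map_smul, hπσ, sub_self]
  · refine LinearMap.ext fun y => ?_
    have a3 := LinearMap.congr_fun a2 (σ y)
    simpa only [LinearMap.sum_apply, LinearMap.smul_apply, LinearMap.zero_apply, hβ] using a3

end Pool.Agent.P.MP_c2aaf5_co
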