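import Pool.Agent.P.MP_c2aaf5_co.DefK

/-! Regularity passes to the quotient by a generically regular element or column. -/

set_option linter.unusedSectionVars false

namespace Pool.Agent.P.MP_c2aaf5_co

open Finset

namespace KStepAux

section
variable {σ : Type} [LinearOrder σ] {X : Type} [AddCommGroup X] {K : Type} [CommRing K] [Module K X]
  {U : Finset σ} {ξ : σ → K}

theorem dd_comp {X' : Type} [AddCommGroup X'] [Module K X'] (f : X →+ X')
    (hf : ∀ (c : K) v, f (c • v) = c • f v) (φ : Finset σ → X) (I : Finset σ) :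
    dd U ξ (fun I => f (φ I)) I = f (dd U ξ φ I) := by
  simp only [dd_def, Finset.sum_apply, map_sum, Pi.smul_apply, hf, an_apply]
  refine sum_congr rfl fun s _ => ?_
  split_ifs <;> simp

theorem dd_val_zero {A : AddSubgroup X} {φ : Finset σ → X} (h : Val U 0 A φ) : dd U ξ φ = 0 := by
  simp [dd_def, h.an_zero]

theorem val_dd {p : ℕ} {A A' : AddSubgroup X} {φ : Finset σ → X} (h : Val U (p + 1) A φ)
    (h' : In A' (dd U ξ φ)) : Val U p A' (dd U ξ φ) :=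
  (h.dd (A' := ⊤) fun _ _ _ _ => trivial).of_in h'

theorem in_zero (A : AddSubgroup X) : In A (0 : Finset σ → X) := fun _ => A.zero_mem

theorem val_top {A : AddSubgroup X} {ψ : Finset σ → X} (h : Val U (U.card + 1) A ψ) : ψ = 0 := by
  funext I
  refine (h I).2 fun hI => ?_
  have := card_le_card hI.1
  omega

theorem hv_self {p : ℕ} {A0 A1 B1 B2 : AddSubgroup X} (h : A1 ≤ B1) : Hv U ξ p A0 A1 B1 B2 :=
  fun φ hφ _ => ⟨0, val_zero _ _ _, fun I => by simpa using h (hφ I).1⟩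

theorem hvT {p : ℕ} {A0 A1 B1 B2 B3 E1 E2 : AddSubgroup X} (h : Hv U ξ p A0 A1 B1 B2)
    (hE : ∀ q, p = q + 1 → Hv U ξ q E1 E2 B2 B3) (h1 : E1 ≤ A1) (h2 : B1 ≤ E1) :
    Hv U ξ p A0 A1 E1 E2 := by
  intro φ hφ hd
  cases p with
  | zero =>
    obtain ⟨ψ, hψ, hb⟩ := h φ hφ (by rw [dd_val_zero hφ]; exact in_zero _)
    exact ⟨ψ, hψ, fun I => h2 (hb I)⟩
  | succ q =>
    obtain ⟨γ, hγ, hb⟩ := hE q rfl (dd U ξ φ) (val_dd hφ hd) (by rw [dd_dd]; exact in_zero _)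
    obtain ⟨ψ, hψ, hb'⟩ := h (φ - γ) (hφ.sub (hγ.mono h1)) (by rwa [map_sub])
    refine ⟨ψ, hψ, fun I => ?_⟩
    have : (φ - dd U ξ ψ) I = (φ - γ - dd U ξ ψ) I + γ I := by simp only [Pi.sub_apply]; abel
    rw [this]
    exact E1.add_mem (h2 (hb' I)) (hγ.in I)

theorem hvD {X' : Type} [AddCommGroup X'] [Module K X'] {p : ℕ} (D : X →+ X')
    (hD : ∀ (c : K) v, D (c • v) = c • D v) {A0 A1 A2 E1 E2 : AddSubgroup X}
    {C0 C1 C2 : AddSubgroup X'} (h : Hv U ξ p A0 A1 E1 E2)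
    (hA : ∀ s ∈ U, ∀ v ∈ A1, ξ s • v ∈ A2) (hC : ∀ s ∈ U, ∀ v ∈ C1, ξ s • v ∈ C2)
    (hZ : ∀ v ∈ A2, D v ∈ C2 → v ∈ E2) (hE : ∀ v ∈ E1, D v ∈ C1) (h0 : ∀ v ∈ A0, D v ∈ C0) :
    Hv U ξ p C0 (C1 ⊔ A1.map D) C1 C2 := by
  intro φ hφ hd
  have : ∀ I, ∃ a, (a ∈ A1 ∧ (¬(I ⊆ U ∧ I.card = p) → a = 0)) ∧ φ I - D a ∈ C1 := by
    intro I
    by_cases hI : I ⊆ U ∧ I.card = p
    · obtain ⟨c, hc, _, ⟨a, ha, rfl⟩, e⟩ := AddSubgroup.mem_sup.1 (hφ I).1
      exact ⟨a, ⟨ha, fun h => absurd hI h⟩, by rw [← e]; simpa using hc⟩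
    · exact ⟨0, ⟨A1.zero_mem, fun _ => rfl⟩, by rw [(hφ I).2 hI]; simp⟩
  choose α hα hc using this
  have hα' : Val U p A1 α := hα
  have hc' : In C1 (φ - fun I => D (α I)) := hc
  have h2 : In E2 (dd U ξ α) := by
    intro I
    refine hZ _ (hα'.in.dd hA I) ?_
    have h3 := hc'.dd hC I
    rw [map_sub, Pi.sub_apply, dd_comp D hD] at h3
    simpa using C2.sub_mem (hd I) h3
  obtain ⟨ψ, hψ, hb⟩ := h α hα' h2
  refine ⟨fun I => D (ψ I), fun I => ⟨h0 _ (hψ I).1, fun hI => by simp [(hψ I).2 hI]⟩, fun I => ?_⟩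
  have : (φ - dd U ξ fun I => D (ψ I)) I = (φ I - D (α I)) + D ((α - dd U ξ ψ) I) := by
    simp only [Pi.sub_apply, dd_comp D hD, map_sub]; abel
  rw [this]
  exact C1.add_mem (hc I) (hE _ (hb I))

/-- a complex of regular pairs inside one ambient group -/
structure Cx (U : Finset σ) (ξ : σ → K) (D : X →+ X) (A B : ℕ → ℕ → AddSubgroup X) : Prop where
  lin : ∀ (c : K) v, D (c • v) = c • D v
  le : ∀ t j, B t j ≤ A t j
  sA : ∀ t, Stab U ξ (A t)
  sB : ∀ t, Stab U ξ (B t)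
  dA : ∀ t j, ∀ v ∈ A (t + 1) j, D v ∈ A t j
  dB : ∀ t j, ∀ v ∈ B (t + 1) j, D v ∈ B t j
  sq : ∀ t j, ∀ v ∈ A (t + 2) j, D (D v) ∈ B t j
  reg : ∀ t, Reg0 U ξ (A t) (B t)

/-- boundaries -/
def Bd (D : X →+ X) (A B : ℕ → ℕ → AddSubgroup X) (t j : ℕ) : AddSubgroup X :=
  B t j ⊔ (A (t + 1) j).map D

/-- exactness at one place -/
def Ex (D : X →+ X) (A B : ℕ → ℕ → AddSubgroup X) (t j : ℕ) : Prop :=
  ∀ v ∈ A (t + 1) j, D v ∈ B t j → v ∈ Bd D A B (t + 1) j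

variable {D : X →+ X} {A B : ℕ → ℕ → AddSubgroup X}

theorem Cx.bd_le (h : Cx U ξ D A B) (t j : ℕ) : Bd D A B t j ≤ A t j :=
  sup_le (h.le t j) (by rintro _ ⟨v, hv, rfl⟩; exact h.dA t j v hv)

theorem Cx.d_bd (h : Cx U ξ D A B) (t j : ℕ) : ∀ v ∈ Bd D A B (t + 1) j, D v ∈ B t j := by
  intro v hv
  obtain ⟨b, hb, _, ⟨a, ha, rfl⟩, rfl⟩ := AddSubgroup.mem_sup.1 hv
  rw [map_add]
  exact add_mem (h.dB t j b hb) (h.sq t j a ha)

theorem Cx.lemU (h : Cx U ξ D A B) (ρ : ℕ) (hZ : ∀ t j, ρ ≤ j → Ex D A B t (j + 2)) (p : ℕ) :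
    ∀ t j, ρ ≤ j → Hv U ξ p (Bd D A B t j) (Bd D A B t (j + 1)) (B t (j + 1)) (B t (j + 2)) := by
  induction p using Nat.strong_induction_on with
  | _ p ih =>
    intro t j hj
    have h1 := hvT (h.reg (t + 1) p j)
      (fun q hq => ih q (by omega) (t + 1) (j + 1) (by omega)) (h.bd_le _ _) le_sup_left
    exact hvD D h.lin h1 (h.sA _ _) (h.sB _ _) (hZ t j hj) (h.d_bd _ _)
      fun v hv => AddSubgroup.mem_sup_right ⟨v, hv, rfl⟩

theorem Cx.lower (h : Cx U ξ D A B) (e : ℕ) :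
    (∀ t j, e ≤ j → Ex D A B t (j + 1)) → ∀ t j, Ex D A B t (j + 1) := by
  induction e with
  | zero => exact fun hZ t j => hZ t j (Nat.zero_le _)
  | succ e ih =>
    intro hZ
    refine ih fun t j hj => ?_
    rcases Nat.lt_or_eq_of_le hj with hj | rfl
    · exact hZ t j hj
    intro v hv hDv
    have h1 := hvT (h.reg (t + 1) U.card e)
      (fun q _ => h.lemU e (fun t j hj => hZ t (j + 1) (by omega)) q (t + 1) (e + 1) (by omega))
      (h.bd_le _ _) le_sup_left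
    have hφ : Val U U.card (A (t + 1) (e + 1)) fun I => if I = U then v else 0 := by
      intro I
      by_cases hI : I = U
      · simp [hI, hv]
      · simp [hI]
    have hφ' : In (B t (e + 1)) fun I => D (if I = U then v else 0) := by
      intro I
      by_cases hI : I = U
      · simp [hI, hDv]
      · simp [hI]
    obtain ⟨ψ, hψ, hb⟩ := h1 _ hφ fun I => hZ t (e + 1) le_rfl _ (hφ.in.dd (h.sA _ _) I)
      (by rw [← dd_comp D h.lin]; exact hφ'.dd (h.sB _ _) I)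
    have := hb U
    simpa [val_top hψ] using this

theorem Cx.lemR (h : Cx U ξ D A B) (hZ : ∃ e, ∀ t j, e ≤ j → Ex D A B t (j + 1)) :
    Reg0 U ξ (A 0) (Bd D A B 0) ∧ Reg0 U ξ (Bd D A B 0) (B 0) := by
  obtain ⟨e, he⟩ := hZ
  have h1 : Reg0 U ξ (Bd D A B 0) (B 0) := fun p j =>
    h.lemU 0 (fun t j _ => h.lower e he t (j + 1)) p 0 j (Nat.zero_le _)
  exact ⟨fun p j => hvT (h.reg 0 p j) (fun q _ => h1 q (j + 1)) (h.bd_le _ _) le_sup_left, h1⟩

/-- cochains of size `i` with values in `A` -/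
def VA (U : Finset σ) (i : ℕ) (A : AddSubgroup X) : AddSubgroup (Finset σ → X) where
  carrier := {φ | Val U i A φ}
  zero_mem' := val_zero U i A
  add_mem' := fun h h' => Val.add h h'
  neg_mem' := fun {φ} h => by simpa using Val.sub (val_zero U i A) h

theorem mem_VA {i : ℕ} {A : AddSubgroup X} {φ : Finset σ → X} : φ ∈ VA U i A ↔ Val U i A φ :=
  Iff.rfl

theorem VA_smul {i : ℕ} {A A' : AddSubgroup X} {c : K} (h : ∀ v ∈ A, c • v ∈ A') :
    ∀ φ ∈ VA U i A, c • φ ∈ VA U i A' := fun φ hφ I =>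
  ⟨h _ (hφ I).1, fun hI => by rw [Pi.smul_apply, (hφ I).2 hI, smul_zero]⟩

theorem hv_VA {p : ℕ} {A0 A1 B1 B2 : AddSubgroup X} (h : Hv U ξ p A0 A1 B1 B2) (i : ℕ) :
    Hv U ξ p (VA U i A0) (VA U i A1) (VA U i B1) (VA U i B2) := by
  intro Φ hΦ hd
  have ev : ∀ (Ψ : Finset σ → Finset σ → X) I J, dd U ξ (fun I => Ψ I J) I = dd U ξ Ψ I J :=
    fun Ψ I J => dd_comp (Pi.evalAddMonoidHom (fun _ => X) J) (fun _ _ => rfl) Ψ I
  have : ∀ J, ∃ ψ : Finset σ → X, Val U (p + 1) A0 ψ ∧ In B1 ((fun I => Φ I J) - dd U ξ ψ) ∧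
      (¬(J ⊆ U ∧ J.card = i) → ψ = 0) := by
    intro J
    by_cases hJ : J ⊆ U ∧ J.card = i
    · obtain ⟨ψ, hψ, hb⟩ := h (fun I => Φ I J)
        (fun I => ⟨((hΦ I).1 J).1, fun hI => congrFun ((hΦ I).2 hI) J⟩)
        (fun I => by rw [ev]; exact (hd I J).1)
      exact ⟨ψ, hψ, hb, fun h => absurd hJ h⟩
    · exact ⟨0, val_zero _ _ _, fun I => by simp [((hΦ I).1 J).2 hJ], fun _ => rfl⟩
  choose ψ h1 h2 h3 using this
  refine ⟨fun I J => ψ J I, fun I => ⟨fun J => ⟨(h1 J I).1, fun hJ => congrFun (h3 J hJ) I⟩,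
    fun hI => funext fun J => (h1 J I).2 hI⟩, fun I J => ⟨?_, fun hJ => ?_⟩⟩
  · have := h2 J I
    rw [Pi.sub_apply] at this
    rw [Pi.sub_apply, Pi.sub_apply, ← ev]
    exact this
  · rw [Pi.sub_apply, Pi.sub_apply, ← ev, ((hΦ I).1 J).2 hJ]
    have : (fun I => ψ J I) = 0 := h3 J hJ
    rw [this, map_zero]; simp

/-- a value placed at the empty set -/
def sing (σ : Type) [LinearOrder σ] (X : Type) [AddCommGroup X] : X →+ (Finset σ → X) where
  toFun v I := if I = ∅ then v else 0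
  map_zero' := by funext I; simp
  map_add' v w := by funext I; by_cases h : I = ∅ <;> simp [h]

theorem sing_apply (v : X) (I : Finset σ) : sing σ X v I = if I = ∅ then v else 0 := rfl

theorem sing_smul (c : K) (v : X) : sing σ X (c • v) = c • sing σ X v := by
  funext I; by_cases h : I = ∅ <;> simp [sing_apply, h]

theorem sing_mem {A : AddSubgroup X} {v : X} (h : v ∈ A) : Val U 0 A (sing σ X v) := by
  intro I
  by_cases hI : I = ∅ <;> simp [sing_apply, hI, h]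

theorem eq_sing {A : AddSubgroup X} {φ : Finset σ → X} (h : Val U 0 A φ) : φ = sing σ X (φ ∅) := by
  funext I
  by_cases hI : I = ∅
  · simp [sing_apply, hI]
  · rw [sing_apply, if_neg hI]
    exact (h I).2 fun h' => hI (card_eq_zero.1 h'.2)

theorem hv_of_VA {p : ℕ} {A0 A1 B1 B2 : AddSubgroup X}
    (h : Hv U ξ p (VA U 0 A0) (VA U 0 A1) (VA U 0 B1) (VA U 0 B2)) : Hv U ξ p A0 A1 B1 B2 := by
  intro φ hφ hd
  obtain ⟨Ψ, hΨ, hb⟩ := h (fun I => sing σ X (φ I))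
    (fun I => ⟨sing_mem (hφ I).1, fun hI => by simp [(hφ I).2 hI]⟩)
    (fun I => by rw [dd_comp _ sing_smul]; exact sing_mem (hd I))
  refine ⟨fun I => Ψ I ∅, fun I => ⟨((hΨ I).1 ∅).1, fun hI => congrFun ((hΨ I).2 hI) ∅⟩,
    fun I => ?_⟩
  have := (hb I ∅).1
  have ev := dd_comp (U := U) (ξ := ξ) (Pi.evalAddMonoidHom (fun _ => X) (∅ : Finset σ))
    (fun _ _ => rfl) Ψ I
  simp only [Pi.evalAddMonoidHom_apply] at ev
  rw [Pi.sub_apply, ev]
  simpa [sing_apply] using this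

/-- the image of the wedge map -/
def Wg (U : Finset σ) (ξ : σ → K) (A : ℕ → AddSubgroup X) : ℕ → ℕ → AddSubgroup (Finset σ → X)
  | i + 1, j + 1 => (VA U i (A j)).map (wd U ξ)
  | _, _ => ⊥

/-- relations of the cokernel of the wedge map -/
def BW (U : Finset σ) (ξ : σ → K) (A B : ℕ → AddSubgroup X) (i j : ℕ) :
    AddSubgroup (Finset σ → X) := VA U i (B j) ⊔ Wg U ξ A i j

variable {P Q : ℕ → AddSubgroup X}

theorem mem_BW {i j : ℕ} {v : Finset σ → X} (h : v ∈ BW U ξ P Q i j) :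
    ∃ b χ, Val U i (Q j) b ∧ v = b + wd U ξ χ ∧
      (χ = 0 ∨ ∃ i' j', i = i' + 1 ∧ j = j' + 1 ∧ Val U i' (P j') χ) := by
  obtain ⟨b, hb, w, hw, rfl⟩ := AddSubgroup.mem_sup.1 h
  match i, j with
  | i + 1, j + 1 =>
    obtain ⟨χ, hχ, rfl⟩ := hw
    exact ⟨b, χ, hb, rfl, Or.inr ⟨i, j, rfl, rfl, hχ⟩⟩
  | 0, _ =>
    obtain rfl : w = 0 := by simpa [Wg] using hw
    exact ⟨b, 0, hb, by simp, Or.inl rfl⟩
  | _ + 1, 0 =>
    obtain rfl : w = 0 := by simpa [Wg] using hw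
    exact ⟨b, 0, hb, by simp, Or.inl rfl⟩

theorem wd_mem_BW {i j : ℕ} {χ : Finset σ → X} (h : Val U i (P j) χ) :
    wd U ξ χ ∈ BW U ξ P Q (i + 1) (j + 1) := AddSubgroup.mem_sup_right ⟨χ, h, rfl⟩

theorem val_mem_BW {i j : ℕ} {b : Finset σ → X} (h : Val U i (Q j) b) : b ∈ BW U ξ P Q i j :=
  AddSubgroup.mem_sup_left h

theorem BW_le (hle : ∀ j, Q j ≤ P j) (sP : Stab U ξ P) (i j : ℕ) :
    BW U ξ P Q i j ≤ VA U i (P j) := by
  intro v hv
  obtain ⟨b, χ, hb, rfl, rfl | ⟨i, j, rfl, rfl, hχ⟩⟩ := mem_BW hv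
  · simpa [mem_VA] using hb.mono (hle j)
  · exact (hb.mono (hle _)).add (hχ.wd (sP j))

theorem BW_stab (sP : Stab U ξ P) (sQ : Stab U ξ Q) (i : ℕ) : Stab U ξ (BW U ξ P Q i) := by
  intro j s hs v hv
  obtain ⟨b, χ, hb, rfl, rfl | ⟨i, j, rfl, rfl, hχ⟩⟩ := mem_BW hv
  · simpa using val_mem_BW (VA_smul (sQ j s hs) b hb)
  · rw [smul_add, ← wd_smul]
    exact add_mem (val_mem_BW (VA_smul (sQ _ s hs) b hb)) (wd_mem_BW (VA_smul (sP j s hs) χ hχ))

theorem BW_low (hle : ∀ j, Q j ≤ P j) (sP : Stab U ξ P) (sQ : Stab U ξ Q) (hR : Reg0 U ξ P Q)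
    (hW : ∀ j, Hw U ξ (P j) (P (j + 1)) (Q (j + 1)) (Q (j + 2))) (p : ℕ) : ∀ i j,
    Hv U ξ p (BW U ξ P Q i (j + 1)) (BW U ξ P Q i (j + 2)) (VA U i (Q (j + 2)))
      (VA U i (Q (j + 3))) := by
  induction p using Nat.strong_induction_on with
  | _ p ih =>
    intro i j
    cases i with
    | zero => exact hv_self (sup_le le_rfl bot_le)
    | succ i =>
      have h1 : Hv U ξ p (VA U i (P j)) (VA U i (P (j + 1))) (BW U ξ P Q i (j + 1))
          (BW U ξ P Q i (j + 2)) := by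
        have h0 : Hv U ξ p (P j) (P (j + 1)) (Q (j + 1)) (Q (j + 2)) := hR p j
        have h2 := hv_VA h0 i
        refine hvT (B3 := VA U i (Q (j + 3))) h2 ?_ (BW_le hle sP i (j + 1)) le_sup_left
        intro q hq
        exact ih q (by omega) i j
      refine hvD (X := Finset σ → X) (X' := Finset σ → X) (A1 := VA U i (P (j + 1)))
        (A2 := VA U i (P (j + 2))) (C1 := VA U (i + 1) (Q (j + 2))) (wd U ξ) (wd_smul U ξ) h1
        (fun s hs => VA_smul (sP _ s hs)) (fun s hs => VA_smul (sQ _ s hs)) ?_ ?_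
        fun v hv => wd_mem_BW hv
      · intro v hv hw
        cases i with
        | zero => exact val_mem_BW (Val.of_in hv ((hW (j + 1)).1 v hv (Val.in hw)))
        | succ i =>
          obtain ⟨ψ, hψ, hb⟩ := (hW (j + 1)).2 i v hv (Val.in hw)
          have := add_mem (val_mem_BW (P := P) (ξ := ξ)
            ((Val.sub hv (hψ.wd (sP _))).of_in hb)) (wd_mem_BW hψ)
          simpa using this
      · intro v hv
        obtain ⟨b, χ, hb, rfl, -⟩ := mem_BW hv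
        rw [map_add, wd_wd, add_zero]
        exact hb.wd (sQ _)

theorem BW_reg (hle : ∀ j, Q j ≤ P j) (sP : Stab U ξ P) (sQ : Stab U ξ Q) (hR : Reg0 U ξ P Q)
    (hW : ∀ j, Hw U ξ (P j) (P (j + 1)) (Q (j + 1)) (Q (j + 2))) (i : ℕ) :
    Reg0 U ξ (fun j => VA U i (P j)) (BW U ξ P Q i) := fun p j =>
  hvT (hv_VA (hR p j) i) (fun q _ => BW_low hle sP sQ hR hW q i j) (BW_le hle sP _ _) le_sup_left

theorem wd_proj (i : ℕ) (χ : Finset σ → X) (I : Finset σ) (hI : I ⊆ U ∧ I.card = i + 1) :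
    wd U ξ (fun J => if J ⊆ U ∧ J.card = i then χ J else 0) I = wd U ξ χ I := by
  simp only [wd_def, Finset.sum_apply, Pi.smul_apply, cr_apply]
  refine sum_congr rfl fun s _ => ?_
  by_cases hs : s ∈ I
  · rw [if_pos hs, if_pos hs, if_pos ⟨(erase_subset s I).trans hI.1, by
      rw [card_erase_of_mem hs, hI.2]; rfl⟩]
  · rw [if_neg hs, if_neg hs]

theorem smul_mem_Sm {A : AddSubgroup X} {φ : σ → K} {s : σ} (hs : s ∈ U) {v : X} (hv : v ∈ A) :
    φ s • v ∈ Sm U φ A :=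
  (le_iSup₂_of_le (f := fun s (_ : s ∈ U) => Sc (φ s) A) s hs le_rfl : Sc (φ s) A ≤ _) ⟨v, hv, rfl⟩

theorem Bd_zero (φ : σ → K) (j : ℕ) :
    Bd (dd U φ) (fun i j => VA U i (P j)) (BW U ξ P Q) 0 j = VA U 0 (Q j ⊔ Sm U φ (P j)) := by
  apply le_antisymm
  · refine sup_le (sup_le (fun v hv => Val.mono hv le_sup_left) bot_le) ?_
    rintro _ ⟨v, hv, rfl⟩
    exact Val.dd hv fun s hs v hv => AddSubgroup.mem_sup_right (smul_mem_Sm hs hv)
  · intro v hv
    have : Q j ⊔ Sm U φ (P j) ≤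
        (Bd (dd U φ) (fun i j => VA U i (P j)) (BW U ξ P Q) 0 j).comap (sing σ X) := by
      refine sup_le (fun w hw => AddSubgroup.mem_sup_left (val_mem_BW (sing_mem hw))) ?_
      refine iSup₂_le fun s hs => ?_
      rintro _ ⟨w, hw, rfl⟩
      refine AddSubgroup.mem_sup_right ⟨cr s (sing σ X w), (sing_mem hw).cr hs, ?_⟩
      have := cr_dd U φ s (sing σ X w)
      rw [dd_val_zero (sing_mem (U := U) hw), map_zero, zero_add, if_pos hs] at this
      rw [this, ← sing_smul]; rfl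
    rw [eq_sing hv]
    exact this (hv ∅).1

end

end KStepAux

open KStepAux

theorem stepZ : S_StepZ := by
  intro σ K X _ _ _ _ U ξ A B z hle sA sB zA zB hR ⟨e, he⟩
  have h : Cx U ξ (DistribSMul.toAddMonoidHom X z) (fun t => if t ≤ 1 then A else B)
      (fun _ => B) := by
    refine ⟨fun c v => smul_comm z c v, fun t j => ?_, fun t => ?_, fun _ => sB, fun t j v hv => ?_,
      fun t j => zB j, fun t j v hv => ?_, fun t => ?_⟩
    · split_ifs
      exacts [hle j, le_rfl]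
    · split_ifs
      exacts [sA, sB]
    · by_cases h1 : t + 1 ≤ 1
      · rw [if_pos h1] at hv; rw [if_pos (by omega)]; exact zA j v hv
      · rw [if_neg h1] at hv
        split_ifs
        exacts [hle j (zB j v hv), zB j v hv]
    · rw [if_neg (by omega)] at hv
      exact zB j _ (zB j v hv)
    · split_ifs
      exacts [hR, fun p j => hv_self le_rfl]
  refine h.lemR ⟨e, fun t j hj v hv hz => AddSubgroup.mem_sup_left ?_⟩
  by_cases h1 : t + 1 ≤ 1
  · simp only [if_pos h1] at hv; exact he (j + 1) (by omega) v hv hz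
  · simpa only [if_neg h1] using hv

theorem stepPhi : S_Star → S_StepPhi := by
  intro star σ K X _ _ _ _ U ξ A B φ hle sA sB fA fB h0 hR ⟨e, he⟩
  have hW : ∀ j, Hw U ξ (A j) (A (j + 1)) (B (j + 1)) (B (j + 2)) := fun j =>
    (star σ K X U ξ _ _ _ _).1 fun p => hR p j
  have anti : ∀ χ : Finset σ → X, dd U φ (wd U ξ χ) = wd U ξ (-dd U φ χ) := fun χ => by
    have := dd_wd U ξ φ χ
    rw [h0, zero_smul] at this
    rw [map_neg]; exact eq_neg_of_add_eq_zero_left this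
  have h : Cx U ξ (dd U φ) (fun i j => VA U i (A j)) (BW U ξ A B) := by
    refine ⟨dd_smul U φ, BW_le hle sA, fun i j s hs => VA_smul (sA j s hs), BW_stab sA sB,
      fun i j v hv => Val.dd hv (fA j), fun i j v hv => ?_, fun i j v _ => ?_,
      BW_reg hle sA sB hR hW⟩
    · obtain ⟨b, χ, hb, rfl, rfl | ⟨i', j, hi, rfl, hχ⟩⟩ := mem_BW hv
      · simpa using val_mem_BW (hb.dd (fB j))
      · obtain rfl : i = i' := by omega
        rw [map_add, anti]
        refine add_mem (val_mem_BW (hb.dd (fB _))) ?_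
        cases i with
        | zero => rw [dd_val_zero hχ]; simp
        | succ i => exact wd_mem_BW ((VA U i (A j)).neg_mem (hχ.dd (fA j)))
    · rw [dd_dd]; exact zero_mem _
  have key := h.lemR ⟨e, fun i j hj ψ hψ hd => by
    obtain ⟨b, χ, hb, hbχ, hχ⟩ := mem_BW hd
    have hχ' : In (A j) χ := by
      obtain rfl | ⟨i', j', -, hj', hχ⟩ := hχ
      · exact in_zero _
      · obtain rfl : j = j' := by omega
        exact hχ.in
    obtain ⟨ω, χ', hω, h1, h2⟩ := he j hj i ψ hψ ⟨χ, hχ', by rw [hbχ]; simpa using hb.in⟩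
    have h3 : Val U i (A j) fun J => if J ⊆ U ∧ J.card = i then χ' J else 0 := fun J =>
      ⟨by dsimp only; split_ifs; exacts [h1 J, zero_mem _], fun hJ => if_neg hJ⟩
    have h4 := Val.sub (Val.sub hψ (hω.dd (fA _))) (h3.wd (sA j))
    have h5 : Val U (i + 1) (B (j + 1)) _ := h4.of_in fun I => by
      by_cases hI : I ⊆ U ∧ I.card = i + 1
      · rw [Pi.sub_apply, wd_proj i χ' I hI]; exact h2 I
      · rw [(h4 I).2 hI]; exact zero_mem _
    have h6 : _ ∈ Bd (dd U φ) (fun i j => VA U i (A j)) (BW U ξ A B) (i + 1) (j + 1) :=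
      add_mem (AddSubgroup.mem_sup_left (add_mem (val_mem_BW h5) (wd_mem_BW h3)))
        (AddSubgroup.mem_sup_right ⟨ω, hω, rfl⟩)
    simpa using h6⟩
  have e0 : ∀ j, BW U ξ A B 0 j = VA U 0 (B j) := fun j => sup_bot_eq _
  refine ⟨fun p j => hv_of_VA ?_, fun p j => hv_of_VA ?_⟩
  · have := key.1 p j
    rwa [Bd_zero, Bd_zero] at this
  · have := key.2 p j
    rwa [Bd_zero, Bd_zero, e0, e0] at this

end Pool.Agent.P.MP_c2aaf5_co
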