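import Pool.Agent.P.MP_c2aaf5_co.DefK

/-! Hodge star, tuple models of the Koszul complexes, removal of superfluous variables. -/

set_option linter.unusedSectionVars false

namespace Pool.Agent.P.MP_c2aaf5_co

open Finset

namespace KTupAux

section
variable {σ : Type} [LinearOrder σ] {X : Type} [AddCommGroup X] {K : Type} [CommRing K] [Module K X]

theorem In.zsmul {A : AddSubgroup X} {φ : Finset σ → X} (h : In A φ) (c : ℤ) : In A (c • φ) :=
  fun I => A.zsmul_mem (h I) c

theorem Val.zsmul {U : Finset σ} {p : ℕ} {A : AddSubgroup X} {φ : Finset σ → X} (h : Val U p A φ)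
    (c : ℤ) : Val U p A (c • φ) :=
  fun I => ⟨A.zsmul_mem (h I).1 c, fun hI => by rw [Pi.smul_apply, (h I).2 hI, smul_zero]⟩

theorem val_big {U : Finset σ} {p : ℕ} {A : AddSubgroup X} {φ : Finset σ → X} (h : Val U p A φ)
    (hp : U.card < p) : φ = 0 := by
  funext I
  refine (h I).2 ?_
  rintro ⟨h1, h2⟩
  have := card_le_card h1
  omega

/-! ### the star operator -/

/-- sign of the star operator -/
def eps (U I : Finset σ) : ℤ := ∏ s ∈ I, sg s U

theorem eps_mul_self (U I : Finset σ) : eps U I * eps U I = 1 := by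
  unfold eps
  rw [← prod_mul_distrib]
  exact prod_eq_one fun s _ => sg_mul_self s U

theorem sg_sdiff (s : σ) {U I : Finset σ} (h : I ⊆ U) : sg s U = sg s I * sg s (U \ I) := by
  unfold sg
  rw [← pow_add, ← card_union_of_disjoint, ← filter_union, union_sdiff_of_subset h]
  exact disjoint_filter_filter disjoint_sdiff

/-- the star operator -/
def st (U : Finset σ) : (Finset σ → X) →+ (Finset σ → X) where
  toFun φ I := if I ⊆ U then eps U I • φ (U \ I) else 0
  map_zero' := by funext I; simp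
  map_add' φ ψ := by funext I; by_cases h : I ⊆ U <;> simp [h]

theorem st_apply (U : Finset σ) (φ : Finset σ → X) (I : Finset σ) :
    st U φ I = if I ⊆ U then eps U I • φ (U \ I) else 0 := rfl

theorem st_smul (U : Finset σ) (c : K) (φ : Finset σ → X) : st U (c • φ) = c • st U φ := by
  funext I; by_cases h : I ⊆ U <;> simp [st_apply, h, smul_comm c]

theorem an_st {U : Finset σ} {s : σ} (hs : s ∈ U) (φ : Finset σ → X) :
    an s (st U φ) = st U (cr s φ) := by
  funext I
  by_cases hI : I ⊆ U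
  swap
  · have : ¬insert s I ⊆ U := fun h => hI ((subset_insert s I).trans h)
    simp [an_apply, st_apply, hI, this]
  by_cases hsI : s ∈ I
  · simp [an_apply, st_apply, cr_apply, hsI]
  have h1 : insert s I ⊆ U := insert_subset hs hI
  have h2 : s ∈ U \ I := mem_sdiff.2 ⟨hs, hsI⟩
  have h3 : (U \ I).erase s = U \ insert s I := by
    ext t; simp only [mem_erase, mem_sdiff, mem_insert]; tauto
  simp only [an_apply, st_apply, cr_apply, hI, hsI, h1, h2, h3, if_true, if_false, smul_smul]
  congr 1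
  unfold eps
  rw [prod_insert hsI, sg_sdiff s hI]
  have a1 := sg_mul_self s I
  linear_combination (sg s (U \ I) * ∏ t ∈ I, sg t U) * a1

theorem cr_st {U : Finset σ} {s : σ} (hs : s ∈ U) (φ : Finset σ → X) :
    cr s (st U φ) = st U (an s φ) := by
  funext I
  by_cases hsI : s ∈ I
  swap
  · by_cases hI : I ⊆ U
    · have h2 : s ∈ U \ I := mem_sdiff.2 ⟨hs, hsI⟩
      simp only [an_apply, st_apply, cr_apply, hI, hsI, h2, if_true, if_false, smul_zero]
    · simp only [st_apply, cr_apply, hI, hsI, if_false]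
  obtain ⟨J, hJ, rfl⟩ : ∃ J, s ∉ J ∧ I = insert s J := ⟨I.erase s, by simp, by rw [insert_erase hsI]⟩
  by_cases hI : J ⊆ U
  swap
  · have : ¬insert s J ⊆ U := fun h => hI ((subset_insert s J).trans h)
    simp only [st_apply, cr_apply, hI, hsI, this, erase_insert hJ, if_true, if_false, smul_zero]
  have h1 : insert s J ⊆ U := insert_subset hs hI
  have h2 : s ∉ U \ insert s J := by simp
  have h3 : insert s (U \ insert s J) = U \ J := by
    ext t; simp only [mem_sdiff, mem_insert]
    constructor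
    · rintro (rfl | h)
      · exact ⟨hs, hJ⟩
      · tauto
    · tauto
  simp only [an_apply, st_apply, cr_apply, hI, hsI, h1, h2, h3, erase_insert hJ, if_true, if_false,
    smul_smul]
  congr 1
  unfold eps
  rw [prod_insert hJ, sg_sdiff s h1]
  have a1 := sg_mul_self s (U \ insert s J)
  linear_combination (-(sg s (insert s J) * ∏ t ∈ J, sg t U)) * a1

theorem dd_st (U : Finset σ) (ξ : σ → K) (φ : Finset σ → X) :
    dd U ξ (st U φ) = st U (wd U ξ φ) := by
  rw [dd_def, wd_def, map_sum]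
  exact sum_congr rfl fun s hs => by rw [an_st hs, st_smul]

theorem wd_st (U : Finset σ) (ξ : σ → K) (φ : Finset σ → X) :
    wd U ξ (st U φ) = st U (dd U ξ φ) := by
  rw [dd_def, wd_def, map_sum]
  exact sum_congr rfl fun s hs => by rw [cr_st hs, st_smul]

theorem st_st {U : Finset σ} {p : ℕ} {A : AddSubgroup X} {φ : Finset σ → X} (h : Val U p A φ) :
    eps U U • st U (st U φ) = φ := by
  funext I
  by_cases hI : I ⊆ U
  · have h1 : U \ I ⊆ U := sdiff_subset
    have h2 : eps U U = eps U I * eps U (U \ I) := by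
      unfold eps
      rw [← prod_union disjoint_sdiff, union_sdiff_of_subset hI]
    simp only [Pi.smul_apply, st_apply, hI, h1, if_true, smul_smul, Finset.sdiff_sdiff_eq_self hI]
    rw [h2, eps_aux, one_smul]
  · simp only [Pi.smul_apply, st_apply, hI, if_false, smul_zero]
    exact ((h I).2 fun h' => hI h'.1).symm
where
  eps_aux {U I J : Finset σ} : eps U I * eps U J * (eps U I * eps U J) = 1 := by
    have a1 := eps_mul_self U I
    have a2 := eps_mul_self U J
    linear_combination (eps U J * eps U J) * a1 + a2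

theorem In.st {A : AddSubgroup X} {φ : Finset σ → X} (h : In A φ) (U : Finset σ) :
    In A (st U φ) := by
  intro I; rw [st_apply]; split_ifs
  · exact A.zsmul_mem (h _) _
  · exact A.zero_mem

theorem Val.st {U : Finset σ} {p q : ℕ} {A : AddSubgroup X} {φ : Finset σ → X} (h : Val U p A φ)
    (hpq : p + q = U.card) : Val U q A (st U φ) := by
  refine fun I => ⟨In.st h.in U I, fun hI => ?_⟩
  rw [st_apply]; split_ifs with h1
  · rw [(h _).2, smul_zero]
    rintro ⟨_, h2⟩
    rw [card_sdiff_of_subset h1] at h2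
    have := card_le_card h1
    exact hI ⟨h1, by omega⟩
  · rfl

theorem in_of_st {U : Finset σ} {p : ℕ} {A B : AddSubgroup X} {φ : Finset σ → X} (h : Val U p A φ)
    (h' : In B (st U φ)) : In B φ := by
  rw [← st_st h]; exact In.zsmul (In.st h' U) _

theorem star_aux (U : Finset σ) (ξ : σ → K) (A0 A1 B1 B2 : AddSubgroup X) :
    (∀ p, Hv U ξ p A0 A1 B1 B2) ↔ Hw U ξ A0 A1 B1 B2 := by
  constructor
  · intro H
    refine ⟨fun φ hφ hd => ?_, fun p φ hφ hd => ?_⟩
    · obtain ⟨ψ, hψ, h⟩ := H U.card (st U φ) (Val.st hφ (by omega))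
        (by rw [dd_st]; exact In.st hd U)
      rw [val_big hψ (by omega), map_zero, sub_zero] at h
      exact in_of_st hφ h
    · by_cases hp : U.card < p + 1
      · refine ⟨0, val_zero _ _ _, ?_⟩
        rw [val_big hφ hp, map_zero, sub_zero]; exact fun _ => B1.zero_mem
      obtain ⟨q, hq⟩ : ∃ q, p + 1 + q = U.card := ⟨U.card - (p + 1), by omega⟩
      obtain ⟨ψ, hψ, h⟩ := H q (st U φ) (Val.st hφ hq) (by rw [dd_st]; exact In.st hd U)
      refine ⟨eps U U • st U ψ, Val.zsmul (Val.st hψ (by omega)) _, ?_⟩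
      have := In.zsmul (In.st h U) (eps U U)
      rwa [map_sub, smul_sub, st_st hφ, ← wd_st, ← map_zsmul] at this
  · rintro ⟨H0, H⟩ p φ hφ hd
    rcases lt_trichotomy p U.card with hp | hp | hp
    · obtain ⟨q, hq⟩ : ∃ q, p + (q + 1) = U.card := ⟨U.card - (p + 1), by omega⟩
      obtain ⟨ψ, hψ, h⟩ := H q (st U φ) (Val.st hφ hq) (by rw [wd_st]; exact In.st hd U)
      refine ⟨eps U U • st U ψ, Val.zsmul (Val.st hψ (by omega)) _, ?_⟩
      have := In.zsmul (In.st h U) (eps U U)
      rwa [map_sub, smul_sub, st_st hφ, ← dd_st, ← map_zsmul] at this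
    · refine ⟨0, val_zero _ _ _, ?_⟩
      rw [map_zero, sub_zero]
      exact in_of_st hφ (H0 _ (Val.st hφ (by omega)) (by rw [wd_st]; exact In.st hd U))
    · refine ⟨0, val_zero _ _ _, ?_⟩
      rw [val_big hφ hp, map_zero, sub_zero]; exact fun _ => B1.zero_mem

/-! ### tuples -/

/-- the alternating function on tuples attached to a cochain -/
def tp : (p : ℕ) → (Finset σ → X) → (Fin p → σ) → X
  | 0, φ, _ => φ ∅
  | p + 1, φ, i => tp p (an (i 0) φ) (fun r => i r.succ)

theorem tp_succ (p : ℕ) (φ : Finset σ → X) (i : Fin (p + 1) → σ) :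
    tp (p + 1) φ i = tp p (an (i 0) φ) (fun r => i r.succ) := rfl

theorem tp_add (p : ℕ) (φ ψ : Finset σ → X) (i : Fin p → σ) :
    tp p (φ + ψ) i = tp p φ i + tp p ψ i := by
  induction p generalizing φ ψ with
  | zero => rfl
  | succ p ih => rw [tp_succ, map_add, ih]; rfl

/-- `tp` as an additive map -/
def tpH (p : ℕ) (i : Fin p → σ) : (Finset σ → X) →+ X :=
  AddMonoidHom.mk' (fun φ => tp p φ i) fun φ ψ => tp_add p φ ψ i

theorem tp_zero (p : ℕ) (i : Fin p → σ) : tp p (0 : Finset σ → X) i = 0 := (tpH p i).map_zero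

theorem tp_neg (p : ℕ) (φ : Finset σ → X) (i : Fin p → σ) : tp p (-φ) i = -tp p φ i :=
  (tpH p i).map_neg φ

theorem tp_sub (p : ℕ) (φ ψ : Finset σ → X) (i : Fin p → σ) :
    tp p (φ - ψ) i = tp p φ i - tp p ψ i := (tpH p i).map_sub φ ψ

theorem tp_sum {ι : Type} (p : ℕ) (S : Finset ι) (φ : ι → Finset σ → X) (i : Fin p → σ) :
    tp p (∑ s ∈ S, φ s) i = ∑ s ∈ S, tp p (φ s) i := map_sum (tpH p i) φ S

theorem tp_smul (p : ℕ) (c : K) (φ : Finset σ → X) (i : Fin p → σ) :
    tp p (c • φ) i = c • tp p φ i := by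
  induction p generalizing φ with
  | zero => rfl
  | succ p ih => rw [tp_succ, an_smul, ih]; rfl

theorem tp_mem {A : AddSubgroup X} (p : ℕ) {φ : Finset σ → X} (h : In A φ) (i : Fin p → σ) :
    tp p φ i ∈ A := by
  induction p generalizing φ with
  | zero => exact h ∅
  | succ p ih => exact ih (h.an _) _

theorem tp_move (p : ℕ) (φ : Finset σ → X) (i : Fin (p + 1) → σ) (k : Fin (p + 1)) :
    tp (p + 1) φ i = ((-1 : ℤ) ^ (k : ℕ)) • tp p (an (i k) φ) (fun r => i (k.succAbove r)) := by
  induction p generalizing φ with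
  | zero =>
    obtain rfl : k = 0 := Subsingleton.elim (α := Fin 1) _ _
    simp [tp]
  | succ p ih =>
    refine Fin.cases ?_ (fun k' => ?_) k
    · simp [tp_succ]
    · rw [tp_succ, ih _ _ k', tp_succ p (an (i k'.succ) φ), an_an, tp_neg]
      simp [pow_succ]

theorem tp_swap (p : ℕ) (φ : Finset σ → X) (i : Fin p → σ) (a b : Fin p) (hab : a ≠ b) :
    tp p φ (i ∘ Equiv.swap a b) = -tp p φ i := by
  induction p generalizing φ with
  | zero => exact a.elim0
  | succ p ih =>
    have key : ∀ b' : Fin p, tp (p + 1) φ (i ∘ Equiv.swap 0 b'.succ) = -tp (p + 1) φ i := by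
      intro b'
      obtain ⟨q, rfl⟩ : ∃ q, p = q + 1 := ⟨p - 1, by have := b'.pos; omega⟩
      rw [tp_succ, tp_succ (q + 1) φ i, tp_move q _ _ b', tp_move q _ _ b', an_an, tp_neg, smul_neg]
      have e : (fun r => (i ∘ Equiv.swap 0 b'.succ) (b'.succAbove r).succ) =
          fun r => i (b'.succAbove r).succ := by
        funext r
        rw [Function.comp_apply, Equiv.swap_apply_of_ne_of_ne (Fin.succ_ne_zero _)
          (fun h => Fin.succAbove_ne b' r (Fin.succ_injective _ h))]
      simp only [e]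
      simp
    revert hab
    refine Fin.cases ?_ (fun a' => ?_) a <;> refine Fin.cases ?_ (fun b' => ?_) b <;> intro hab
    · exact absurd rfl hab
    · exact key b'
    · rw [Equiv.swap_comm]; exact key a'
    · rw [tp_succ, tp_succ p φ i, ← ih _ _ a' b' fun h => hab (congrArg _ h)]
      rw [Function.comp_apply, Equiv.swap_apply_of_ne_of_ne (Fin.succ_ne_zero _).symm
          (Fin.succ_ne_zero _).symm]
      congr 1
      funext r
      simp only [Function.comp_apply]
      rw [(Fin.succ_injective p).swap_apply]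

theorem tp_noninj (p : ℕ) (φ : Finset σ → X) (i : Fin p → σ) (hi : ¬Function.Injective i) :
    tp p φ i = 0 := by
  induction p generalizing φ with
  | zero => exact absurd (Function.injective_of_subsingleton i) hi
  | succ p ih =>
    rw [tp_succ]
    by_cases h : Function.Injective fun r : Fin p => i r.succ
    swap
    · exact ih _ _ h
    have h2 : i 0 ∈ Set.range fun r : Fin p => i r.succ := by
      by_contra h2
      apply hi
      have := Fin.cons_injective_iff.2 ⟨h2, h⟩
      have e : (Fin.cons (i 0) (fun r : Fin p => i r.succ) : Fin (p + 1) → σ) = i :=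
        Fin.cons_self_tail i
      rwa [e] at this
    obtain ⟨k, hk⟩ := h2
    obtain ⟨q, rfl⟩ : ∃ q, p = q + 1 := ⟨p - 1, by have := k.pos; omega⟩
    have hk' : i k.succ = i 0 := hk
    rw [tp_move q _ _ k, hk', an_an_self, tp_zero, smul_zero]

theorem tp_alt (p : ℕ) (φ : Finset σ → X) : Alt (tp p φ) := by
  refine ⟨fun τ => ?_, tp_noninj p φ⟩
  induction τ using Equiv.Perm.swap_induction_on with
  | one => intro i; simp
  | swap_mul f x y hxy ih =>
    intro i
    have e : i ∘ ⇑(Equiv.swap x y * f) = (i ∘ Equiv.swap x y) ∘ f := rfl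
    rw [e, ih, tp_swap p φ i x y hxy, Equiv.Perm.sign_mul, Equiv.Perm.sign_swap hxy]
    simp

theorem tp_mono (p : ℕ) (φ : Finset σ → X) (i : Fin p → σ) (hi : StrictMono i) :
    tp p φ i = φ (univ.image i) := by
  induction p generalizing φ with
  | zero => simp [tp]
  | succ p ih =>
    have hlt : ∀ t ∈ univ.image fun r : Fin p => i r.succ, i 0 < t := by
      intro t ht
      obtain ⟨r, _, rfl⟩ := mem_image.1 ht
      exact hi (Fin.succ_pos r)
    rw [tp_succ, ih _ (fun r => i r.succ) (hi.comp Fin.strictMono_succ), an_apply,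
      if_neg fun h => lt_irrefl _ (hlt _ h), sg_of_forall_lt hlt, one_smul]
    congr 1
    ext t
    simp only [mem_insert, mem_image, mem_univ, true_and, Fin.exists_fin_succ, eq_comm]

theorem tp_inj [Fintype σ] {p : ℕ} {A : AddSubgroup X} {φ : Finset σ → X} (h : Val univ p A φ)
    (h0 : ∀ i, tp p φ i = 0) : φ = 0 := by
  funext I
  by_cases hI : I.card = p
  · have := h0 (I.orderEmbOfFin hI)
    rwa [tp_mono _ _ _ (I.orderEmbOfFin hI).strictMono, image_orderEmbOfFin_univ] at this
  · exact (h I).2 fun h' => hI h'.2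

theorem alt_ext {p : ℕ} {Ψ Φ : (Fin p → σ) → X} (h1 : Alt Ψ) (h2 : Alt Φ)
    (h : ∀ i, StrictMono i → Ψ i = Φ i) (i : Fin p → σ) : Ψ i = Φ i := by
  by_cases hi : Function.Injective i
  swap
  · rw [h1.2 i hi, h2.2 i hi]
  have hm : StrictMono (i ∘ Tuple.sort i) :=
    (Tuple.monotone_sort i).strictMono_of_injective (hi.comp (Tuple.sort i).injective)
  have e := h _ hm
  rw [h1.1, h2.1] at e
  rcases Int.units_eq_one_or (Equiv.Perm.sign (Tuple.sort i)) with hs | hs
  · simpa [hs] using e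
  · simpa [hs] using e

theorem tp_surj [Fintype σ] {p : ℕ} {A : AddSubgroup X} {Ψ : (Fin p → σ) → X} (h1 : Alt Ψ)
    (hA : ∀ i, Ψ i ∈ A) : ∃ φ : Finset σ → X, Val univ p A φ ∧ ∀ i, Ψ i = tp p φ i := by
  refine ⟨fun I => if h : I.card = p then Ψ (I.orderEmbOfFin h) else 0, fun I => ⟨?_, fun hI => ?_⟩,
    alt_ext h1 (tp_alt _ _) fun i hi => ?_⟩
  · dsimp only; split_ifs
    · exact hA _
    · exact A.zero_mem
  · exact dif_neg fun h => hI ⟨subset_univ _, h⟩
  · have hc : (univ.image i).card = p := by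
      rw [card_image_of_injective _ hi.injective, card_univ, Fintype.card_fin]
    rw [tp_mono _ _ _ hi, dif_pos hc,
      ← orderEmbOfFin_unique hc (fun x => mem_image_of_mem i (mem_univ x)) hi]

theorem tp_dd [Fintype σ] (p : ℕ) (ξ : σ → K) (φ : Finset σ → X) (i : Fin p → σ) :
    tp p (dd univ ξ φ) i = td ξ (tp (p + 1) φ) i := by
  rw [dd_def, tp_sum, td]
  exact sum_congr rfl fun s _ => by rw [tp_smul]; rfl

theorem tp_wd [Fintype σ] (p : ℕ) (ξ : σ → K) (φ : Finset σ → X) (i : Fin (p + 1) → σ) :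
    tp (p + 1) (wd univ ξ φ) i = tw ξ (tp p φ) i := by
  have e : ∀ (s : σ) (φ : Finset σ → X), an s (wd univ ξ φ) = ξ s • φ - wd univ ξ (an s φ) := by
    intro s φ
    have := an_wd univ ξ s φ
    rw [if_pos (mem_univ s)] at this
    rw [← this]; abel
  induction p generalizing φ with
  | zero =>
    rw [tp_succ, e, tp_sub, tp_smul]
    simp [tw, tp, wd_def, cr_apply]
  | succ p ih =>
    rw [tp_succ, e, tp_sub, tp_smul, ih, tw, tw, Fin.sum_univ_succ (n := p + 1), sub_eq_add_neg,
      ← sum_neg_distrib]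
    congr 1
    · simp
    · refine sum_congr rfl fun k _ => ?_
      rw [tp_succ p φ]
      simp [pow_succ]

/-! ### removing variables -/

theorem an_of_val {U : Finset σ} {p : ℕ} {A : AddSubgroup X} {φ : Finset σ → X} (h : Val U p A φ)
    {v : σ} (hv : v ∉ U) : an v φ = 0 := by
  funext I
  rw [an_apply]; split_ifs
  · rfl
  · rw [(h _).2 fun h' => hv (h'.1 (mem_insert_self v I)), smul_zero]; rfl

theorem val_an_insert {U : Finset σ} {p : ℕ} {A : AddSubgroup X} {φ : Finset σ → X} {v : σ}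
    (h : Val (insert v U) (p + 1) A φ) : Val U p A (an v φ) := by
  refine fun I => ⟨h.in.an v I, fun hI => ?_⟩
  by_cases hv : v ∈ I
  · rw [an_apply, if_pos hv]
  · refine ((h.an v) I).2 fun h' => hI ⟨fun t ht => ?_, h'.2⟩
    rcases mem_insert.1 (h'.1 ht) with rfl | h''
    · exact absurd ht hv
    · exact h''

theorem remove_one {τ : Type} [Fintype τ] (e : τ → σ) (ξ : σ → K) (m : τ → K) (U : Finset σ) (v : σ)
    (hv : v ∉ U) (he : ∀ t, e t ∈ U) (A0 A1 B1 B2 : AddSubgroup X) (p : ℕ)
    (hξ : ξ v = ∑ t, m t * ξ (e t)) (h0 : ∀ t, ∀ g ∈ A0, m t • g ∈ A0)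
    (h1 : ∀ t, ∀ g ∈ B1, m t • g ∈ B1) (H : Hv (insert v U) ξ p A0 A1 B1 B2) :
    Hv U ξ p A0 A1 B1 B2 := by
  intro φ hφ hd
  have ed : ∀ χ : Finset σ → X, dd (insert v U) ξ χ = ξ v • an v χ + dd U ξ χ := fun χ => by
    simp only [dd_def, sum_insert hv]
  have hφ' : Val (insert v U) p A1 φ := fun I =>
    ⟨(hφ I).1, fun hI => (hφ I).2 fun h' => hI ⟨h'.1.trans (subset_insert v U), h'.2⟩⟩
  have a0 : an v φ = 0 := an_of_val hφ hv
  obtain ⟨ψ, hψ, h⟩ := H φ hφ' (by rwa [ed, a0, smul_zero, zero_add])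
  let L : (Finset σ → X) → (Finset σ → X) := fun χ =>
    an v (cr v χ) + ∑ t, m t • cr (e t) (an v χ)
  have c1 : ∀ χ : Finset σ → X, dd U ξ (cr v χ) = -cr v (dd U ξ χ) := fun χ => by
    have := cr_dd U ξ v χ
    rw [if_neg hv] at this
    exact eq_neg_of_add_eq_zero_right this
  have c2 : ∀ (t : τ) (χ : Finset σ → X),
      dd U ξ (cr (e t) χ) = ξ (e t) • χ - cr (e t) (dd U ξ χ) := fun t χ => by
    have := cr_dd U ξ (e t) χ
    rw [if_pos (he t)] at this
    rw [← this]; abel
  have c3 : ∀ χ : Finset σ → X, dd U ξ (an v χ) = -an v (dd U ξ χ) := fun χ => by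
    rw [an_dd, neg_neg]
  have c4 : ∀ χ : Finset σ → X, an v (cr v (an v χ)) = an v χ := fun χ => by
    have := an_cr_self v (an v χ)
    rwa [an_an_self, map_zero, add_zero] at this
  have hL : L (φ - dd (insert v U) ξ ψ) = φ - dd U ξ (L ψ) := by
    have f1 : an v (cr v φ) = φ := by
      have := an_cr_self v φ
      rwa [a0, map_zero, add_zero] at this
    simp only [L, ed, map_sub, map_add, map_sum, dd_smul, cr_smul, an_smul, a0, f1, c1, c2, c3, c4,
      an_an_self, map_neg, smul_zero, zero_add, zero_sub, smul_sub, smul_neg, neg_neg,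
      sum_sub_distrib, sum_neg_distrib, smul_smul, hξ, sum_smul, sum_const_zero]
    abel
  refine ⟨L ψ, ?_, ?_⟩
  · refine (val_an_insert (hψ.cr (mem_insert_self v U))).add fun I => ?_
    have hh : ∀ t, Val U (p + 1) A0 (cr (e t) (an v ψ)) := fun t => (val_an_insert hψ).cr (he t)
    rw [Finset.sum_apply]
    exact ⟨A0.sum_mem fun t _ => h0 t _ (hh t I).1,
      fun hI => sum_eq_zero fun t _ => by rw [Pi.smul_apply, (hh t I).2 hI, smul_zero]⟩
  · rw [← hL]
    intro I
    simp only [L, Pi.add_apply, Finset.sum_apply]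
    exact B1.add_mem (((h.cr v).an v) I) (B1.sum_mem fun t _ => h1 t _ (((h.an v).cr (e t)) I))

variable {τ : Type} [LinearOrder τ]

/-- restriction of a cochain along an order embedding -/
def pull (e : τ ↪o σ) : (Finset σ → X) →+ (Finset τ → X) where
  toFun χ I := χ (I.map e.toEmbedding)
  map_zero' := rfl
  map_add' _ _ := rfl

theorem pull_apply (e : τ ↪o σ) (χ : Finset σ → X) (I : Finset τ) :
    pull e χ I = χ (I.map e.toEmbedding) := rfl

theorem pull_an (e : τ ↪o σ) (t : τ) (χ : Finset σ → X) : pull e (an (e t) χ) = an t (pull e χ) := by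
  funext I
  have h1 : e t ∈ I.map e.toEmbedding ↔ t ∈ I := mem_map' e.toEmbedding
  have h2 : sg (e t) (I.map e.toEmbedding) = sg t I := by
    unfold sg
    rw [filter_map, card_map]
    congr 2
    exact filter_congr fun s _ => e.lt_iff_lt
  have h3 : (insert t I).map e.toEmbedding = insert (e t) (I.map e.toEmbedding) := map_insert _ _ _
  simp only [pull_apply, an_apply, h1, h2, h3]

theorem pull_dd [Fintype τ] (e : τ ↪o σ) (ξ : σ → K) (χ : Finset σ → X) :
    pull e (dd (univ.map e.toEmbedding) ξ χ) = dd univ (ξ ∘ e) (pull e χ) := by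
  rw [dd_def, dd_def, sum_map, map_sum]
  exact sum_congr rfl fun t _ => by rw [← pull_an]; rfl

theorem transport [Fintype τ] (e : τ ↪o σ) (ξ : σ → K) (A0 A1 B1 B2 : AddSubgroup X) (p : ℕ)
    (H : Hv (univ.map e.toEmbedding) ξ p A0 A1 B1 B2) : Hv univ (ξ ∘ e) p A0 A1 B1 B2 := by
  intro φ hφ hd
  set E := univ.map e.toEmbedding with hE
  have hJ : ∀ J ⊆ E, (univ.filter fun t => e t ∈ J).map e.toEmbedding = J := by
    intro J hJ
    ext s
    simp only [mem_map, mem_filter, mem_univ, true_and]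
    constructor
    · rintro ⟨t, ht, rfl⟩; exact ht
    · intro hs
      obtain ⟨t, _, rfl⟩ := mem_map.1 (hJ hs)
      exact ⟨t, hs, rfl⟩
  let φ' : Finset σ → X := fun J => if J ⊆ E then φ (univ.filter fun t => e t ∈ J) else 0
  have hp : pull e φ' = φ := by
    funext I
    have h1 : I.map e.toEmbedding ⊆ E := map_subset_map.2 (subset_univ I)
    simp only [pull_apply, φ', if_pos h1]
    congr 1
    ext t
    simp only [mem_filter, mem_univ, true_and]
    exact mem_map' e.toEmbedding
  have hφ' : Val E p A1 φ' := by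
    intro J
    by_cases h1 : J ⊆ E
    · simp only [φ', if_pos h1]
      refine ⟨(hφ _).1, fun h2 => (hφ _).2 fun h3 => h2 ⟨h1, ?_⟩⟩
      rw [← hJ J h1, card_map, h3.2]
    · simp only [φ', if_neg h1]
      exact ⟨A1.zero_mem, fun _ => trivial⟩
  have hd' : In B2 (dd E ξ φ') := by
    intro J
    by_cases h1 : J ⊆ E
    · rw [← hJ J h1, ← pull_apply e (dd E ξ φ'), pull_dd, hp]; exact hd _
    · have : dd E ξ φ' J = 0 := by
        rw [dd_def, Finset.sum_apply]
        refine sum_eq_zero fun s _ => ?_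
        have h2 : ¬insert s J ⊆ E := fun h => h1 ((subset_insert s J).trans h)
        simp only [Pi.smul_apply, an_apply, φ', if_neg h2, smul_zero, ite_self]
      rw [this]; exact B2.zero_mem
  obtain ⟨ψ, hψ, h⟩ := H φ' hφ' hd'
  refine ⟨pull e ψ, fun I => ⟨(hψ _).1, fun hI => (hψ _).2 fun h' => hI ⟨subset_univ I, ?_⟩⟩, ?_⟩
  · rw [← h'.2, card_map]
  · rw [← pull_dd, ← hp, ← map_sub]
    exact fun I => h _

end

end KTupAux

open KTupAux

theorem star : S_Star := fun _ _ _ _ _ _ _ U ξ A0 A1 B1 B2 => star_aux U ξ A0 A1 B1 B2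

theorem tupW : S_TupW := by
  intro σ K X _ _ _ _ _ ξ A0 A1 h0 H
  refine ⟨fun φ hφ hd I => ?_, fun p φ hφ hd => ?_⟩
  · have hw : wd univ ξ φ = 0 := funext fun J => AddSubgroup.mem_bot.1 (hd J)
    refine AddSubgroup.mem_bot.2 (h0 _ (hφ I).1 fun s => ?_)
    have := an_wd univ ξ s φ
    rw [hw, hφ.an_zero, map_zero, map_zero, add_zero, if_pos (mem_univ s)] at this
    exact (congrFun this I).symm
  · have hw : wd univ ξ φ = 0 := funext fun J => AddSubgroup.mem_bot.1 (hd J)
    obtain ⟨Φ, h1, h2, h3⟩ := H p (tp (p + 1) φ) (tp_alt _ _) (tp_mem _ hφ.in)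
      fun i => by rw [← tp_wd, hw, tp_zero]
    obtain ⟨ψ, hψ, h4⟩ := tp_surj h1 h2
    obtain rfl : Φ = tp p ψ := funext h4
    refine ⟨ψ, hψ, ?_⟩
    have hv : Val univ (p + 1) ⊤ (φ - wd univ ξ ψ) :=
      (hφ.mono le_top).sub (hψ.wd fun _ _ _ _ => AddSubgroup.mem_top _)
    rw [tp_inj hv fun i => by rw [tp_sub, tp_wd, h3, sub_self]]
    exact fun _ => AddSubgroup.zero_mem _

theorem tupD : S_TupD := by
  intro σ K X _ _ _ _ _ ξ A H p Ψ h1 h2 h3
  obtain ⟨φ, hφ, h4⟩ := tp_surj h1 h2
  obtain rfl : Ψ = tp (p + 1) φ := funext h4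
  have hv : Val univ p ⊤ (dd univ ξ φ) := hφ.dd fun _ _ _ _ => AddSubgroup.mem_top _
  have h5 : dd univ ξ φ = 0 := tp_inj hv fun i => by rw [tp_dd, h3]
  obtain ⟨ψ, hψ, h6⟩ := H p φ hφ (by rw [h5]; exact fun _ => AddSubgroup.zero_mem _)
  have h7 : φ - dd univ ξ ψ = 0 := funext fun J => AddSubgroup.mem_bot.1 (h6 J)
  refine ⟨tp (p + 2) ψ, tp_alt _ _, tp_mem _ hψ.in, fun i => ?_⟩
  rw [sub_eq_zero.1 h7, tp_dd]

theorem remove : S_Remove := by
  intro σ τ K X _ _ _ _ _ _ _ e ξ m A0 A1 B1 B2 p hξ h0 h1 H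
  apply transport
  have key : ∀ D : Finset σ, Disjoint D (univ.map e.toEmbedding) →
      Hv (D ∪ univ.map e.toEmbedding) ξ p A0 A1 B1 B2 →
      Hv (univ.map e.toEmbedding) ξ p A0 A1 B1 B2 := by
    intro D
    induction D using Finset.induction_on with
    | empty => intro _ h; rwa [empty_union] at h
    | insert v D hv ih =>
      intro hD h
      rw [disjoint_insert_left] at hD
      rw [insert_union] at h
      refine ih hD.2 (remove_one e ξ (m v) _ v ?_ ?_ A0 A1 B1 B2 p (hξ v ?_) (h0 v) (h1 v) h)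
      · rw [mem_union]; exact fun h' => h'.elim hv hD.1
      · exact fun t => mem_union_right _ (mem_map_of_mem _ (mem_univ t))
      · rintro ⟨t, rfl⟩; exact hD.1 (mem_map_of_mem e.toEmbedding (mem_univ t))
  refine key (univ \ univ.map e.toEmbedding) sdiff_disjoint ?_
  rwa [sdiff_union_of_subset (subset_univ _)]

end Pool.Agent.P.MP_c2aaf5_co
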