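import Pool.Agent.P.MP_c2aaf5_co.DefM

/-! Package M4: the fibre of the chart at the monomial ideal. -/

set_option linter.unusedSectionVars false

namespace Pool.Agent.P.MP_c2aaf5_co

open MvPolynomial Finset

noncomputable section

namespace MFibAux

variable {K : Type} [Field K] [Algebra ℂ K] {n m : ℕ}

/-- evaluation of `ℂ[y][x]` -/
def ev2 (x y : Fin n → K) : Pyx n →ₐ[ℂ] K :=
  (ev x y).comp (sumAlgEquiv ℂ (Fin n) (Fin n)).symm.toAlgHom

theorem ev2_apply (x y : Fin n → K) (g : Pyx n) :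
    ev2 x y g = ev x y ((sumAlgEquiv ℂ (Fin n) (Fin n)).symm g) := rfl

theorem ev2_X (x y : Fin n → K) (i : Fin n) : ev2 x y (X i) = x i := by
  rw [ev2_apply, sumAlgEquiv_symm_X]; simp [ev]

theorem ev2_CX (x y : Fin n → K) (i : Fin n) : ev2 x y (C (X i)) = y i := by
  rw [ev2_apply, sumAlgEquiv_symm_C_X]; simp [ev]

theorem ev2_xy (x y : Fin n → K) (i : Fin n) (h : ℕ × ℕ) : ev2 x y (xy i h) = pw x y i h := by
  rw [xy, map_mul, map_pow, map_pow, map_pow, ev2_X, ev2_CX, pw]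

theorem ev2_det (x y : Fin n → K) (h : Fin n → ℕ × ℕ) :
    ev2 x y (Matrix.of fun i j => xy i (h j)).det = (Matrix.of fun i j => pw x y i (h j)).det := by
  rw [AlgHom.map_det]
  congr 1
  ext i j
  simp [ev2_xy]

theorem ev2_inj {x y : Fin n → K} (h : AlgebraicIndependent ℂ (Sum.elim x y)) :
    Function.Injective (ev2 x y) :=
  (show Function.Injective (ev x y) from h).comp
    (sumAlgEquiv ℂ (Fin n) (Fin n)).symm.injective

theorem ev2_dd (x y : Fin n → K) (Φ : Finset (Fin n) → Pyx n) (I : Finset (Fin n)) :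
    ev2 x y (dd univ (fun r => (C (X r) : Pyx n)) Φ I) =
      dd univ y (fun J => ev2 x y (Φ J)) I := by
  rw [dd_def, dd_def, Finset.sum_apply, Finset.sum_apply, map_sum]
  refine sum_congr rfl fun s _ => ?_
  rw [Pi.smul_apply, Pi.smul_apply, smul_eq_mul, smul_eq_mul, map_mul, ev2_CX, an_apply, an_apply]
  split_ifs
  · rw [map_zero]
  · rw [map_zsmul]

theorem ev_Dl (x y : Fin n → K) (μ : Fin n → ℕ × ℕ) : ev x y (Dl μ) = (Em x y μ).det := by
  rw [Dl, Delta, AlgHom.map_det]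
  congr 1
  ext i j
  simp [ev, Em, pw]

theorem Hs_le_Os (x y : Fin n → K) (μ : Fin n → ℕ × ℕ) : Hs x y μ ≤ Os x y μ :=
  fun _ hg => Algebra.subset_adjoin (Or.inl hg)

theorem Id_le_mO (x y : Fin n → K) (μ : Fin n → ℕ × ℕ) :
    Id (Hs x y μ) (gm x y μ) ≤ mO x y μ :=
  mul_le_mul_left (show Subalgebra.toSubmodule (Hs x y μ) ≤ Subalgebra.toSubmodule (Os x y μ) from
    Hs_le_Os x y μ) _

theorem ev_mem (x y : Fin n → K) (μ : Fin n → ℕ × ℕ) (g : Pol n) : ev x y g ∈ Pp x y μ :=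
  (le_sup_right : _ ≤ Pp x y μ) ⟨g, rfl⟩

theorem Os_le (x y : Fin n → K) (μ : Fin n → ℕ × ℕ) : Os x y μ ≤ Pp x y μ := le_sup_left

theorem det_mem_JJ (h : Fin n → ℕ × ℕ) : (Matrix.of fun i j => xy i (h j)).det ∈ JJ n :=
  Ideal.subset_span ⟨h, rfl⟩

/-- `Δ ^ k v` is the value of an element of `J ^ k` -/
def Cl (x y : Fin n → K) (μ : Fin n → ℕ × ℕ) (k : ℕ) (v : K) : Prop :=
  ∃ j ∈ JJ n ^ k, ev2 x y j = (Em x y μ).det ^ k * v

theorem Cl.mono {x y : Fin n → K} {μ : Fin n → ℕ × ℕ} {k l : ℕ} {v : K} (h : Cl x y μ k v)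
    (hl : k ≤ l) : Cl x y μ l v := by
  obtain ⟨d, rfl⟩ := Nat.exists_eq_add_of_le hl
  obtain ⟨j, hj, e⟩ := h
  refine ⟨j * (Matrix.of fun i j => xy i (μ j)).det ^ d, ?_, ?_⟩
  · rw [pow_add]
    exact Ideal.mul_mem_mul hj (Ideal.pow_mem_pow (det_mem_JJ μ) d)
  · rw [map_mul, map_pow, ev2_det, e]
    change _ * (Em x y μ).det ^ d = _
    ring

/-- the elements with a power of `Δ` as denominator -/
def ClS (x y : Fin n → K) (μ : Fin n → ℕ × ℕ) : Subalgebra ℂ K where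
  carrier := {v | ∃ k, Cl x y μ k v}
  mul_mem' := by
    rintro v w ⟨k, j, hj, e⟩ ⟨l, j', hj', e'⟩
    refine ⟨k + l, j * j', ?_, ?_⟩
    · rw [pow_add]; exact Ideal.mul_mem_mul hj hj'
    · rw [map_mul, e, e']; ring
  add_mem' := by
    rintro v w ⟨k, h⟩ ⟨l, h'⟩
    obtain ⟨j, hj, e⟩ := h.mono (le_max_left k l)
    obtain ⟨j', hj', e'⟩ := h'.mono (le_max_right k l)
    exact ⟨max k l, j + j', add_mem hj hj', by rw [map_add, e, e', mul_add]⟩
  algebraMap_mem' c := ⟨0, algebraMap ℂ _ c, by simp, by rw [AlgHom.commutes]; simp⟩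

variable {x y : Fin (m + 1) → K} {ρ : Equiv.Perm (Fin (m + 1)) →* (K ≃ₐ[ℂ] K)}
  {μ : Fin (m + 1) → ℕ × ℕ}

theorem P0_le (h1 : Ch1 x y ρ μ) : P0 x y μ ≤ ClS x y μ := by
  refine sup_le (Algebra.adjoin_le ?_) ?_
  · have key : ∀ h u, cc x y μ h u ∈ ClS x y μ := fun h u => by
      obtain ⟨h', e⟩ := h1.cram h u
      exact ⟨1, _, by rw [pow_one]; exact det_mem_JJ h', by rw [ev2_det, ← e, pow_one, mul_comm]⟩
    rintro g ⟨v, u, rfl | rfl⟩ <;> exact key _ _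
  · rintro _ ⟨g, rfl⟩
    refine ⟨0, sumAlgEquiv ℂ _ _ g, by simp, ?_⟩
    rw [ev2_apply, AlgEquiv.symm_apply_apply, pow_zero, one_mul]
    rfl

theorem back (h1 : Ch1 x y ρ μ) (k : ℕ) : ∀ j ∈ JJ (m + 1) ^ k,
    ev2 x y j / (Em x y μ).det ^ k ∈ Pp x y μ := by
  have h0 : ∀ r, ev2 x y r ∈ Pp x y μ := fun r => ev_mem x y μ _
  have hJ : ∀ j ∈ JJ (m + 1), ev2 x y j / (Em x y μ).det ∈ Pp x y μ := by
    intro j hj
    induction hj using Submodule.span_induction with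
    | mem j hj =>
      obtain ⟨h, rfl⟩ := hj
      rw [ev2_det]
      exact Os_le x y μ (Hs_le_Os x y μ (h1.detH h))
    | zero => simp
    | add a b _ _ ha hb => rw [map_add, add_div]; exact add_mem ha hb
    | smul r a _ ha => rw [smul_eq_mul, map_mul, mul_div_assoc]; exact mul_mem (h0 r) ha
  induction k with
  | zero => intro j _; simpa using h0 j
  | succ k ih =>
    intro j hj
    rw [pow_succ] at hj
    refine Submodule.mul_induction_on hj (fun a ha b hb => ?_) (fun a b ha hb => ?_)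
    · rw [map_mul, pow_succ, ← div_mul_div_comm]
      exact mul_mem (ih a ha) (hJ b hb)
    · rw [map_add, add_div]; exact add_mem ha hb

theorem kf (hJ : S_KFJ) (hg : Gen x y ρ) (h1 : Ch1 x y ρ μ) (h2 : Ch2 x y ρ μ) :
    KF univ y (Subalgebra.toSubmodule (Pp x y μ)).toAddSubgroup ⊥ := by
  intro p φ hφ hd
  have hd0 : dd univ y φ = 0 := funext fun I => AddSubgroup.mem_bot.1 (hd I)
  choose b hbH hbM hb using fun I => h2.denP (φ I) (hφ I).1
  have hb0 : ∀ I, b I ≠ 0 := fun I h => hbM I (h ▸ Submodule.zero_mem _)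
  set B : K := ∏ I, b I with hB
  have hB0 : B ≠ 0 := prod_ne_zero_iff.2 fun I _ => hb0 I
  have hBi : B⁻¹ ∈ Pp x y μ := by
    rw [hB, ← prod_inv_distrib]
    exact prod_mem fun I _ => Os_le x y μ (h2.locO.inv _ (Hs_le_Os x y μ (hbH I)) (hbM I))
  have hBφ : ∀ I, B * φ I ∈ P0 x y μ := fun I => by
    rw [hB, ← mul_prod_erase univ b (mem_univ I), mul_comm (b I), mul_assoc]
    exact mul_mem (prod_mem fun J _ => (le_sup_left : _ ≤ P0 x y μ) (hbH J)) (hb I)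
  choose k hk using fun I => P0_le h1 (hBφ I)
  choose Φ hΦ eΦ using fun I => (hk I).mono (le_sup (f := k) (mem_univ I))
  set l := univ.sup k
  have hinj := ev2_inj hg.ind
  have hD := pow_ne_zero l h1.det
  have e1 : (fun J => ev2 x y (Φ J)) = ((Em x y μ).det ^ l * B) • φ := by
    funext J; rw [eΦ, Pi.smul_apply, smul_eq_mul, mul_assoc]
  obtain ⟨Ψ, hΨ, eΨ⟩ := hJ m l p Φ (fun I => ⟨hΦ I, fun hI => hinj (by
      rw [eΦ, (hφ I).2 hI, mul_zero, mul_zero, map_zero])⟩) (fun I => by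
    rw [AddSubgroup.mem_bot]
    apply hinj
    rw [ev2_dd, e1, dd_smul, hd0, map_zero, smul_zero, Pi.zero_apply])
  refine ⟨((Em x y μ).det ^ l * B)⁻¹ • fun J => ev2 x y (Ψ J), fun I => ⟨?_, fun hI => ?_⟩,
    fun I => ?_⟩
  · have := mul_mem hBi (back h1 l _ (hΨ I).1)
    rw [div_eq_inv_mul, ← mul_assoc, ← mul_inv, mul_comm B] at this
    exact this
  · rw [Pi.smul_apply, (hΨ I).2 hI, map_zero, smul_zero]
  · have e2 : Φ I = dd univ (fun r => (C (X r) : Pyx (m + 1))) Ψ I :=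
      sub_eq_zero.1 (AddSubgroup.mem_bot.1 (eΨ I))
    rw [AddSubgroup.mem_bot, dd_smul, Pi.sub_apply, Pi.smul_apply, ← ev2_dd, ← e2, eΦ, smul_eq_mul]
    field_simp
    ring

theorem al_apply (v : K) : al x y ρ μ v = (Em x y μ).det⁻¹ *
    ∑ σ : Equiv.Perm (Fin (m + 1)), ((Equiv.Perm.sign σ : ℤ) : ℂ) • ρ σ v := by
  simp [al, mul_sum]

theorem al_ev (h1 : Ch1 x y ρ μ) (g : Pol (m + 1)) :
    al x y ρ μ (ev x y g) - algebraMap ℂ K (lam μ g) ∈ mO x y μ := Id_le_mO x y μ (h1.alH g).2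

theorem perfAt (hP : S_Perf) (h1 : Ch1 x y ρ μ) (h2 : Ch2 x y ρ μ) (hN : NF μ) :
    PerfAt (Os x y μ) (ev x y).range (al x y ρ μ) 1 := by
  obtain ⟨f, g, hfg⟩ := hN
  refine hP K (Equiv.Perm (Fin (m + 1))) (fun σ => (ρ σ).toAlgHom)
    (fun σ => ((Equiv.Perm.sign σ : ℤ) : ℂ)) 1 (Em x y μ).det⁻¹ 1 (al x y ρ μ) (Os x y μ)
    (ev x y).range (mO x y μ) (fun b => ev x y (f b)) (fun b => ev x y (g b)) h2.locO
    (fun v => by simp) al_apply one_ne_zero h1.rO (fun b => ⟨_, rfl⟩) (fun b => ⟨_, rfl⟩)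
    ⟨1, by simp, fun b b' => ?_⟩
  rw [div_one, ← map_mul, Matrix.one_apply, ← hfg]
  exact al_ev h1 _

theorem mem_Kn {g : Pol n} {ν : Fin n → ℕ × ℕ} : g ∈ Kn ν ↔ ∀ h, lam ν (g * h) = 0 := by
  rw [Kn, LinearMap.mem_ker, LinearMap.ext_iff]
  rfl

theorem kn_of (h1 : Ch1 x y ρ μ) (h2 : Ch2 x y ρ μ) {g : Pol (m + 1)}
    (hg : ev x y g ∈ mO x y μ * Subalgebra.toSubmodule (Pp x y μ)) : g ∈ Kn μ := by
  rw [mem_Kn]
  intro h
  have key : ∀ v ∈ mO x y μ * Subalgebra.toSubmodule (Pp x y μ),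
      al x y ρ μ (v * ev x y h) ∈ mO x y μ := fun v hv => by
    refine Submodule.mul_induction_on hv (fun a ha b hb => ?_) (fun a b ha hb => ?_)
    · rw [mul_assoc, h2.alO a (h2.locO.le a ha), mul_comm]
      exact h2.locO.mul _ (h2.alP _ (mul_mem hb (ev_mem x y μ h))) _ ha
    · rw [add_mul, map_add]; exact add_mem ha hb
  have e1 := key _ hg
  rw [← map_mul] at e1
  have e2 := sub_mem e1 (al_ev h1 (g * h))
  rw [sub_sub_cancel] at e2
  by_contra hne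
  apply h2.locO.one
  have := Submodule.smul_mem _ (lam μ (g * h))⁻¹ e2
  rwa [Algebra.algebraMap_eq_smul_one, smul_smul, inv_mul_cancel₀ hne, one_smul] at this

theorem nrm (h1 : Ch1 x y ρ μ) (h2 : Ch2 x y ρ μ) : Nrm μ := by
  intro g hg
  have hf : ((m + 1).factorial : ℂ) ≠ 0 := Nat.cast_ne_zero.2 (Nat.factorial_ne_zero _)
  refine ⟨lam μ g / (m + 1).factorial, kn_of h1 h2 ?_⟩
  have e1 : al x y ρ μ (ev x y g) = (Em x y μ).det⁻¹ * ((m + 1).factorial : ℂ) • ev x y g := by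
    rw [al_apply]
    congr 1
    have : ∀ σ : Equiv.Perm (Fin (m + 1)),
        ((Equiv.Perm.sign σ : ℤ) : ℂ) • ρ σ (ev x y g) = ev x y g := fun σ => by
      rw [h1.rev, hg, map_smul, smul_smul, ← Int.cast_mul, ← Units.val_mul, Int.units_mul_self]
      simp
    rw [sum_congr rfl fun σ _ => this σ, sum_const, card_univ, Fintype.card_perm, Fintype.card_fin,
      Nat.cast_smul_eq_nsmul]
  have e2 : ev x y (g - (lam μ g / (m + 1).factorial) • Dl μ) = ((m + 1).factorial : ℂ)⁻¹ •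
      ((al x y ρ μ (ev x y g) - algebraMap ℂ K (lam μ g)) * ev x y (Dl μ)) := by
    have hd := h1.det
    rw [map_sub, map_smul, ev_Dl, e1, sub_mul, smul_sub, mul_comm (Em x y μ).det⁻¹, mul_assoc,
      inv_mul_cancel₀ hd, mul_one, smul_smul, inv_mul_cancel₀ hf, one_smul, ← Algebra.smul_def,
      smul_smul, div_eq_inv_mul]
  rw [e2]
  exact Submodule.smul_mem _ _ (Submodule.mul_mem_mul (al_ev h1 g) (ev_mem x y μ _))

end MFibAux

open MFibAux in
theorem fib (_ : LamA) (hP : S_Perf) (hJ : S_KFJ) : S_Fib := by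
  intro K _ _ m x y ρ μ hg _ h1 h2 hN
  obtain ⟨N, f, g, Γ, hf, hg', hΓ, hexp, hind⟩ := perfAt hP h1 h2 hN
  have hfP : ∀ b, f b ∈ Pp x y μ := fun b => (le_sup_right : _ ≤ Pp x y μ) (hf b)
  have hgP : ∀ b, g b ∈ Pp x y μ := fun b => (le_sup_right : _ ≤ Pp x y μ) (hg' b)
  refine ⟨fun w => ⟨fun hw => ?_, kn_of h1 h2⟩, ⟨N, f, hfP, fun v hv => ?_, hind⟩,
    kf hJ hg h1 h2, nrm h1 h2⟩
  · rw [hexp (ev x y w)]
    refine sum_mem fun b _ => Submodule.mul_mem_mul (sum_mem fun b' _ => ?_) (hfP b)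
    obtain ⟨h, eh⟩ := hg' b'
    have := al_ev h1 (w * h)
    rw [mem_Kn.1 hw h, map_zero, sub_zero, map_mul] at this
    rw [div_one, ← eh]
    exact h2.locO.mul _ (hΓ b b') _ this
  · rw [hexp v]
    refine sum_mem fun b _ => Submodule.mul_mem_mul (sum_mem fun b' _ => ?_)
      (Submodule.subset_span ⟨b, rfl⟩)
    rw [div_one]
    exact (Os x y μ).mul_mem (hΓ b b') (h2.alP _ ((Pp x y μ).mul_mem hv (hgP b')))

end

end Pool.Agent.P.MP_c2aaf5_co
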