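import Pool.Agent.P.MP_c2aaf5_co.DefM

/-! The sign part of the Koszul complex of the fibre is exact. -/

set_option linter.unusedSectionVars false

namespace Pool.Agent.P.MP_c2aaf5_co

open Finset Equiv

noncomputable section

namespace MKXAux

/-- a bounded below exact complex of projective modules splits -/
theorem split {O : Type} [CommRing O] (C : ℕ → Type) [∀ p, AddCommGroup (C p)]
    [∀ p, Module O (C p)] (hp : ∀ p, Module.Projective O (C p)) (d : ∀ p, C (p + 1) →ₗ[O] C p)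
    (hdd : ∀ p v, d p (d (p + 1) v) = 0) (h0 : Function.Surjective (d 0))
    (hex : ∀ p v, d p v = 0 → ∃ w, d (p + 1) w = v) (p : ℕ) :
    ∃ h : C p →ₗ[O] C (p + 1), ∀ v, d p (h (d p v)) = d p v := by
  induction p with
  | zero =>
    have := hp 0
    obtain ⟨k, hk⟩ := Module.projective_lifting_property (d 0) LinearMap.id h0
    exact ⟨k, fun v => LinearMap.congr_fun hk _⟩
  | succ p ih =>
    obtain ⟨h, hh⟩ := ih
    have := hp (p + 1)
    have hm : ∀ v, (LinearMap.id - h ∘ₗ d p : C (p + 1) →ₗ[O] C (p + 1)) v ∈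
        LinearMap.range (d (p + 1)) := fun v => hex p _ (by simp [hh])
    obtain ⟨k, hk⟩ := Module.projective_lifting_property (d (p + 1)).rangeRestrict
      (LinearMap.codRestrict _ _ hm) (d (p + 1)).surjective_rangeRestrict
    refine ⟨k, fun v => ?_⟩
    have := congrArg Subtype.val (LinearMap.congr_fun hk (d (p + 1) v))
    simpa [hdd] using this

theorem split' {O : Type} [CommRing O] (C : ℕ → Type) [∀ p, AddCommGroup (C p)]
    [∀ p, Module O (C p)] (hp : ∀ p, Module.Projective O (C p)) (d : ∀ p, C (p + 1) →ₗ[O] C p)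
    (hdd : ∀ p v, d p (d (p + 1) v) = 0) (h0 : Function.Surjective (d 0))
    (hex : ∀ p v, d p v = 0 → ∃ w, d (p + 1) w = v) (I : Ideal O) (p : ℕ) (v : C (p + 1))
    (hv : d p v ∈ I • (⊤ : Submodule O (C p))) :
    ∃ w, v - d (p + 1) w ∈ I • (⊤ : Submodule O (C (p + 1))) := by
  obtain ⟨h, hh⟩ := split C hp d hdd h0 hex p
  obtain ⟨w, hw⟩ := hex p (v - h (d p v)) (by simp [hh])
  refine ⟨w, ?_⟩
  rw [hw, sub_sub_cancel]
  have := Submodule.mem_map_of_mem (f := h) hv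
  rw [Submodule.map_smul''] at this
  exact Submodule.smul_mono le_rfl le_top this

/-- the sign as a complex number -/
def sn {α : Type} [Fintype α] [DecidableEq α] (σ : Perm α) : ℂ := ((Perm.sign σ : ℤ) : ℂ)

theorem sn_mul {α : Type} [Fintype α] [DecidableEq α] (σ τ : Perm α) :
    sn (σ * τ) = sn σ * sn τ := by simp [sn]

theorem sn_sq {α : Type} [Fintype α] [DecidableEq α] (σ : Perm α) : sn σ * sn σ = 1 := by
  unfold sn
  rw [← Int.cast_mul, ← Units.val_mul, Int.units_mul_self]; simp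

section avg
variable {n N p : ℕ} {V : Type} [AddCommGroup V] [Module ℂ V]

theorem alt_iff (Ψ : (Fin p → Fin n) → V) :
    Alt Ψ ↔ ∀ (τ : Perm (Fin p)) i, Ψ (i ∘ τ) = sn τ • Ψ i := by
  constructor
  · intro h τ i
    rw [h.1, sn, Int.cast_smul_eq_zsmul]
  · intro h
    refine ⟨fun τ i => by rw [h, sn, Int.cast_smul_eq_zsmul], fun i hi => ?_⟩
    simp only [Function.Injective, not_forall] at hi
    obtain ⟨a, b, hab, hne⟩ := hi
    have e : i ∘ swap a b = i := by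
      funext k
      simp only [Function.comp, swap_apply_def]
      split_ifs with h1 h2
      · rw [h1, hab]
      · rw [h2, hab]
      · rfl
    have h1 := h (swap a b) i
    rw [e, sn, Perm.sign_swap hne] at h1
    have h2 : (2 : ℂ) • Ψ i = 0 := by
      rw [two_smul]
      nth_rewrite 1 [h1]
      simp
    exact (smul_eq_zero.1 h2).resolve_left two_ne_zero

/-- the stabiliser -/
def St (c : Fin n → Fin N) : Finset (Perm (Fin n)) := univ.filter fun σ => ∀ i, c (σ i) = c i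

theorem mem_St {c : Fin n → Fin N} {σ : Perm (Fin n)} : σ ∈ St c ↔ ∀ i, c (σ i) = c i := by
  simp [St]

theorem St_card (c : Fin n → Fin N) : ((St c).card : ℂ) ≠ 0 := by
  have : (1 : Perm (Fin n)) ∈ St c := mem_St.2 fun _ => rfl
  exact_mod_cast (card_pos.2 ⟨1, this⟩).ne'

theorem sum_St {c : Fin n → Fin N} {τ : Perm (Fin n)} (hτ : ∀ i, c (τ i) = c i)
    (f : Perm (Fin n) → V) : ∑ σ ∈ St c, f σ = ∑ σ ∈ St c, f (τ * σ) := by
  symm
  refine sum_bij' (fun σ _ => τ * σ) (fun σ _ => τ⁻¹ * σ) ?_ ?_ ?_ ?_ ?_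
  · intro σ hσ
    exact mem_St.2 fun i => by rw [Perm.mul_apply, hτ, mem_St.1 hσ]
  · intro σ hσ
    refine mem_St.2 fun i => ?_
    rw [Perm.mul_apply, ← hτ (τ⁻¹ (σ i))]
    simp [mem_St.1 hσ]
  · intro σ _; simp
  · intro σ _; simp
  · intro σ _; rfl

/-- sign equivariance for an action `a` -/
def EqA (c : Fin n → Fin N) (a : Perm (Fin n) → V →ₗ[ℂ] V) (Ψ : (Fin p → Fin n) → V) : Prop :=
  ∀ σ : Perm (Fin n), (∀ i, c (σ i) = c i) → ∀ i, Ψ (σ ∘ i) = sn σ • a σ (Ψ i)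

/-- average over the stabiliser -/
def avG (c : Fin n → Fin N) (a : Perm (Fin n) → V →ₗ[ℂ] V) (Ψ : (Fin p → Fin n) → V)
    (i : Fin p → Fin n) : V :=
  ((St c).card : ℂ)⁻¹ • ∑ σ ∈ St c, sn σ • a σ (Ψ (⇑σ⁻¹ ∘ i))

/-- alternation -/
def avA (Ψ : (Fin p → Fin n) → V) (i : Fin p → Fin n) : V :=
  (p.factorial : ℂ)⁻¹ • ∑ τ : Perm (Fin p), sn τ • Ψ (i ∘ τ)

variable {c : Fin n → Fin N} {a : Perm (Fin n) → V →ₗ[ℂ] V}

theorem avG_eqa (ha : ∀ σ τ v, a (σ * τ) v = a σ (a τ v)) (Ψ : (Fin p → Fin n) → V) :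
    EqA c a (avG c a Ψ) := by
  intro τ hτ i
  unfold avG
  rw [sum_St hτ, map_smul, map_sum, smul_comm, smul_sum (r := sn τ)]
  congr 1
  refine sum_congr rfl fun σ _ => ?_
  rw [map_smul, ha, sn_mul, mul_smul]
  congr 5
  funext k
  simp

theorem avG_of {Ψ : (Fin p → Fin n) → V} (h : EqA c a Ψ) : avG c a Ψ = Ψ := by
  funext i
  unfold avG
  have : ∀ σ ∈ St c, sn σ • a σ (Ψ (⇑σ⁻¹ ∘ i)) = Ψ i := fun σ hσ => by
    rw [← h σ (mem_St.1 hσ)]
    congr 1
    funext k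
    simp
  rw [sum_congr rfl this, sum_const, ← Nat.cast_smul_eq_nsmul ℂ, smul_smul,
    inv_mul_cancel₀ (St_card c), one_smul]

theorem avG_alt {Ψ : (Fin p → Fin n) → V} (h : Alt Ψ) : Alt (avG c a Ψ) := by
  rw [alt_iff] at h ⊢
  intro τ i
  unfold avG
  rw [smul_comm, smul_sum (r := sn τ)]
  congr 1
  refine sum_congr rfl fun σ _ => ?_
  rw [← Function.comp_assoc, h, map_smul, smul_comm]

theorem avA_alt (Ψ : (Fin p → Fin n) → V) : Alt (avA Ψ) := by
  rw [alt_iff]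
  intro τ i
  unfold avA
  rw [smul_comm, smul_sum (r := sn τ)]
  congr 1
  refine Fintype.sum_equiv (Equiv.mulLeft τ) _ _ fun σ => ?_
  simp only [Equiv.coe_mulLeft, sn_mul, smul_smul]
  rw [← mul_assoc, sn_sq, one_mul]
  rfl

theorem avA_of {Ψ : (Fin p → Fin n) → V} (h : Alt Ψ) : avA Ψ = Ψ := by
  rw [alt_iff] at h
  funext i
  unfold avA
  simp only [h, smul_smul, sn_sq, one_smul]
  rw [sum_const, card_univ, Fintype.card_perm, Fintype.card_fin, ← Nat.cast_smul_eq_nsmul ℂ,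
    smul_smul, inv_mul_cancel₀ (by exact_mod_cast p.factorial_ne_zero), one_smul]

/-- the projection on alternating equivariant tuples -/
def pr (c : Fin n → Fin N) (a : Perm (Fin n) → V →ₗ[ℂ] V) (Ψ : (Fin p → Fin n) → V) :
    (Fin p → Fin n) → V := avG c a (avA Ψ)

theorem pr_alt (Ψ : (Fin p → Fin n) → V) : Alt (pr c a Ψ) := avG_alt (avA_alt Ψ)

theorem pr_eqa (ha : ∀ σ τ v, a (σ * τ) v = a σ (a τ v)) (Ψ : (Fin p → Fin n) → V) :
    EqA c a (pr c a Ψ) := avG_eqa ha _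

theorem pr_of {Ψ : (Fin p → Fin n) → V} (h : Alt Ψ) (h' : EqA c a Ψ) : pr c a Ψ = Ψ := by
  rw [pr, avA_of h, avG_of h']

theorem avG_mem (W : Submodule ℂ V) (hW : ∀ σ, ∀ v ∈ W, a σ v ∈ W) {Ψ : (Fin p → Fin n) → V}
    (h : ∀ i, Ψ i ∈ W) (i : Fin p → Fin n) : avG c a Ψ i ∈ W :=
  W.smul_mem _ (W.sum_mem fun σ _ => W.smul_mem _ (hW σ _ (h _)))

theorem pr_mem (W : Submodule ℂ V) (hW : ∀ σ, ∀ v ∈ W, a σ v ∈ W) {Ψ : (Fin p → Fin n) → V}
    (h : ∀ i, Ψ i ∈ W) (i : Fin p → Fin n) : pr c a Ψ i ∈ W :=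
  avG_mem W hW (fun _ => W.smul_mem _ (W.sum_mem fun _ _ => W.smul_mem _ (h _))) i

theorem avG_add (Ψ Φ : (Fin p → Fin n) → V) : avG c a (Ψ + Φ) = avG c a Ψ + avG c a Φ := by
  funext i
  simp [avG, sum_add_distrib]

theorem avG_sub (Ψ Φ : (Fin p → Fin n) → V) : avG c a (Ψ - Φ) = avG c a Ψ - avG c a Φ := by
  funext i
  simp [avG, smul_sub, sum_sub_distrib]

theorem pr_add (Ψ Φ : (Fin p → Fin n) → V) : pr c a (Ψ + Φ) = pr c a Ψ + pr c a Φ := by
  have : avA (Ψ + Φ) = avA Ψ + avA Φ := by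
    funext i
    simp [avA, sum_add_distrib]
  rw [pr, this, avG_add]; rfl

theorem pr_sub (Ψ Φ : (Fin p → Fin n) → V) : pr c a (Ψ - Φ) = pr c a Ψ - pr c a Φ := by
  rw [eq_sub_iff_add_eq, ← pr_add, sub_add_cancel]

theorem pr_map {V' : Type} [AddCommGroup V'] [Module ℂ V'] {a' : Perm (Fin n) → V' →ₗ[ℂ] V'}
    (f : V →ₗ[ℂ] V') (hf : ∀ σ v, a' σ (f v) = f (a σ v)) (Ψ : (Fin p → Fin n) → V) :
    pr c a' (f ∘ Ψ) = f ∘ pr c a Ψ := by
  funext i
  simp [pr, avG, avA, map_sum, hf]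

end avg

section tdl
variable {n N p : ℕ} {V : Type} [CommRing V] [Algebra ℂ V] {c : Fin n → Fin N}
  {a : Perm (Fin n) → V →ₗ[ℂ] V} {y : Fin n → V}

theorem td_avG (hy : ∀ σ s v, a σ (y s * v) = y (σ s) * a σ v) (Ψ : (Fin (p + 1) → Fin n) → V) :
    td y (avG c a Ψ) = avG c a (td y Ψ) := by
  funext i
  simp only [td, avG, smul_eq_mul, map_sum, hy, mul_smul_comm, mul_sum]
  rw [← smul_sum, sum_comm]
  congr 1
  refine sum_congr rfl fun σ _ => ?_
  rw [smul_sum]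
  symm
  refine Fintype.sum_equiv σ _ _ fun s => ?_
  congr 4
  funext k
  refine Fin.cases ?_ (fun k => ?_) k <;> simp

theorem td_alt {Ψ : (Fin (p + 1) → Fin n) → V} (h : Alt Ψ) : Alt (td y Ψ) := by
  rw [alt_iff] at h ⊢
  intro τ i
  simp only [td, smul_sum]
  refine sum_congr rfl fun s _ => ?_
  have e : (Fin.cons s (i ∘ τ) : Fin (p + 1) → Fin n) =
      (Fin.cons s i : Fin (p + 1) → Fin n) ∘ Perm.decomposeFin.symm (0, τ) := by
    funext k
    refine Fin.cases ?_ (fun k => ?_) k <;> simp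
  rw [e, h, smul_comm]
  simp [sn]

theorem td_eqa (ha : ∀ σ τ v, a (σ * τ) v = a σ (a τ v))
    (hy : ∀ σ s v, a σ (y s * v) = y (σ s) * a σ v) {Ψ : (Fin (p + 1) → Fin n) → V}
    (h : EqA c a Ψ) : EqA c a (td y Ψ) := by
  rw [← avG_of h, td_avG hy]
  exact avG_eqa ha _

theorem td_td {Ψ : (Fin (p + 2) → Fin n) → V} (h : Alt Ψ) : td y (td y Ψ) = 0 := by
  rw [alt_iff] at h
  funext i
  have e : ∀ s t : Fin n, Ψ (Fin.cons t (Fin.cons s i)) = -Ψ (Fin.cons s (Fin.cons t i)) := by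
    intro s t
    have e : (Fin.cons t (Fin.cons s i) : Fin (p + 2) → Fin n) =
        (Fin.cons s (Fin.cons t i) : Fin (p + 2) → Fin n) ∘ swap 0 1 := by
      funext k
      refine Fin.cases ?_ (fun k => Fin.cases ?_ (fun k => ?_) k) k
      · simp
      · simp
      · rw [Function.comp_apply, swap_apply_of_ne_of_ne (Fin.succ_ne_zero _)
          (Fin.succ_succ_ne_one k)]
        simp
    rw [e, h, sn, Perm.sign_swap (by simp)]
    simp
  have h1 : td y (td y Ψ) i = -td y (td y Ψ) i := by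
    simp only [td, smul_eq_mul, mul_sum]
    conv_lhs => rw [sum_comm]
    rw [← sum_neg_distrib]
    refine sum_congr rfl fun s _ => ?_
    rw [← sum_neg_distrib]
    refine sum_congr rfl fun t _ => ?_
    rw [e]; ring
  have h2 : (2 : ℂ) • td y (td y Ψ) i = 0 := by
    rw [two_smul]
    nth_rewrite 1 [h1]
    simp
  exact (smul_eq_zero.1 h2).resolve_left two_ne_zero

theorem td_sub (Ψ Φ : (Fin (p + 1) → Fin n) → V) : td y (Ψ - Φ) = td y Ψ - td y Φ := by
  funext i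
  simp [td, mul_sub, sum_sub_distrib]

end tdl

section field
variable {K : Type} [Field K] [Algebra ℂ K] {n N : ℕ}

/-- a subalgebra as a module over a smaller one -/
def PM (O P : Subalgebra ℂ K) (h : O ≤ P) : Submodule O K where
  carrier := P
  add_mem' := P.add_mem
  zero_mem' := P.zero_mem
  smul_mem' r _ hv := P.mul_mem (h r.2) hv

theorem PM_basis {O P : Subalgebra ℂ K} (h : O ≤ P) (hf : FreeAt O P) :
    Module.Free O (PM O P h) ∧ Module.Finite O (PM O P h) := by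
  obtain ⟨N, f, h1, h2, h3⟩ := hf
  let g : Fin N → PM O P h := fun b => ⟨f b, h1 b⟩
  have li : LinearIndependent O g := by
    rw [Fintype.linearIndependent_iff]
    intro κ hκ b
    have := h3 (fun b => (κ b : K)) (fun b => (κ b).2) (by
      have := congrArg Subtype.val hκ
      simpa [g, Subalgebra.smul_def] using this)
    exact Subtype.ext (congrFun this b)
  have sp : ⊤ ≤ Submodule.span O (Set.range g) := by
    rintro ⟨v, hv⟩ -
    have key : ∀ w ∈ Id O (Set.range f), w ∈ Submodule.span O (Set.range f) := by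
      intro w hw
      refine Submodule.mul_induction_on hw (fun r hr u hu => ?_) fun _ _ => Submodule.add_mem _
      refine Submodule.smul_mem _ (⟨r, hr⟩ : O) (x := u) ?_
      exact Submodule.span_le_restrictScalars ℂ O _ hu
    have := key v (h2 hv)
    obtain ⟨κ, hκ⟩ := (Submodule.mem_span_range_iff_exists_fun O).1 this
    refine (Submodule.mem_span_range_iff_exists_fun O).2 ⟨κ, Subtype.ext ?_⟩
    simpa [g] using hκ
  let b := Module.Basis.mk li sp
  exact ⟨Module.Free.of_basis b, Module.Finite.of_basis b⟩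

/-- the maximal ideal -/
def mI {O : Subalgebra ℂ K} {M : Submodule ℂ K} (h : LocD O M) : Ideal O where
  carrier := {r | (r : K) ∈ M}
  add_mem' := M.add_mem
  zero_mem' := M.zero_mem
  smul_mem' r s hs := h.mul r r.2 s hs

theorem mI_le {O : Subalgebra ℂ K} {M : Submodule ℂ K} (h : LocD O M) :
    mI h ≤ Ideal.jacobson ⊥ := by
  intro r hr
  rw [Ideal.mem_jacobson_bot]
  intro s
  have h1 : ((r * s + 1 : O) : K) ∉ M := fun h2 => h.one (by
    have h3 : (s : K) * r ∈ M := h.mul s s.2 r hr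
    have := M.sub_mem h2 h3
    simpa [mul_comm] using this)
  have h0 : ((r * s + 1 : O) : K) ≠ 0 := fun h2 => h1 (h2 ▸ M.zero_mem)
  exact IsUnit.of_mul_eq_one ⟨_, h.inv _ (r * s + 1).2 h1⟩ (Subtype.ext (mul_inv_cancel₀ h0))

/-- the data of the situation over the local ring -/
structure Sit (O P : Subalgebra ℂ K) (M : Submodule ℂ K) (y : Fin n → K)
    (a : Perm (Fin n) → K →ₗ[ℂ] K) : Prop where
  loc : LocD O M
  le : O ≤ P
  free : FreeAt O P
  mul : ∀ σ τ v, a (σ * τ) v = a σ (a τ v)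
  hy : ∀ σ s v, a σ (y s * v) = y (σ s) * a σ v
  hO : ∀ σ, ∀ r ∈ O, ∀ v, a σ (r * v) = r * a σ v
  hP : ∀ σ, ∀ v ∈ P, a σ v ∈ P
  yP : ∀ s, y s ∈ P

variable {O P : Subalgebra ℂ K} {M : Submodule ℂ K} {y : Fin n → K}
  {a : Perm (Fin n) → K →ₗ[ℂ] K}

theorem Sit.hM (h : Sit O P M y a) (σ : Perm (Fin n)) :
    ∀ v ∈ M * Subalgebra.toSubmodule P, a σ v ∈ M * Subalgebra.toSubmodule P := by
  intro v hv
  refine Submodule.mul_induction_on hv (fun r hr u hu => ?_) fun _ _ h1 h2 => ?_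
  · rw [h.hO σ r (h.loc.le r hr)]
    exact Submodule.mul_mem_mul hr (h.hP σ u hu)
  · rw [map_add]; exact Submodule.add_mem _ h1 h2

theorem mulM {r : K} (hr : r ∈ P) :
    ∀ v ∈ M * Subalgebra.toSubmodule P, r * v ∈ M * Subalgebra.toSubmodule P := by
  intro v hv
  refine Submodule.mul_induction_on hv (fun s hs u hu => ?_) fun _ _ h1 h2 => ?_
  · rw [mul_left_comm]
    exact Submodule.mul_mem_mul hs (P.mul_mem hr hu)
  · rw [mul_add]; exact Submodule.add_mem _ h1 h2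

/-- the terms of the complex -/
def Cx (h : Sit O P M y a) (c : Fin n → Fin N) (p : ℕ) : Submodule O ((Fin p → Fin n) → K) where
  carrier := {Ψ | Alt Ψ ∧ EqA c a Ψ ∧ ∀ i, Ψ i ∈ P}
  add_mem' {Ψ Φ} h1 h2 := by
    refine ⟨?_, ?_, fun i => P.add_mem (h1.2.2 i) (h2.2.2 i)⟩
    · rw [← pr_of h1.1 h1.2.1, ← pr_of h2.1 h2.2.1, ← pr_add]; exact pr_alt _
    · rw [← pr_of h1.1 h1.2.1, ← pr_of h2.1 h2.2.1, ← pr_add]; exact pr_eqa h.mul _
  zero_mem' := ⟨(alt_iff _).2 (by simp), fun _ _ _ => by simp, fun _ => P.zero_mem⟩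
  smul_mem' r Ψ h1 := by
    have e : r • Ψ = pr c a (LinearMap.mulLeft ℂ (r : K) ∘ Ψ) := by
      rw [pr_map (a := a) _ (fun σ v => h.hO σ r r.2 v), pr_of h1.1 h1.2.1]; rfl
    refine ⟨?_, ?_, fun i => P.mul_mem (h.le r.2) (h1.2.2 i)⟩
    · rw [e]; exact pr_alt _
    · rw [e]; exact pr_eqa h.mul _

/-- the projection as a linear map -/
def prL (h : Sit O P M y a) (c : Fin n → Fin N) (p : ℕ) :
    ((Fin p → Fin n) → K) →ₗ[O] ((Fin p → Fin n) → K) where
  toFun := pr c a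
  map_add' := pr_add
  map_smul' r Ψ := pr_map (a := a) (LinearMap.mulLeft ℂ (r : K)) (fun σ v => h.hO σ r r.2 v) Ψ

theorem pr_Cx (h : Sit O P M y a) (c : Fin n → Fin N) {p : ℕ} {Ψ : (Fin p → Fin n) → K}
    (hΨ : ∀ i, Ψ i ∈ P) : pr c a Ψ ∈ Cx h c p :=
  ⟨pr_alt _, pr_eqa h.mul _, pr_mem (Subalgebra.toSubmodule P) h.hP hΨ⟩

theorem Cx_proj (h : Sit O P M y a) (c : Fin n → Fin N) (p : ℕ) :
    Module.Projective O (Cx h c p) ∧ Module.Finite O (Cx h c p) := by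
  obtain ⟨h1, h2⟩ := PM_basis h.le h.free
  let i : Cx h c p →ₗ[O] ((Fin p → Fin n) → PM O P h.le) := LinearMap.pi fun i =>
    LinearMap.codRestrict _ ((LinearMap.proj i : ((Fin p → Fin n) → K) →ₗ[O] K) ∘ₗ
      (Cx h c p).subtype) fun Ψ => Ψ.2.2.2 i
  let s : ((Fin p → Fin n) → PM O P h.le) →ₗ[O] Cx h c p := LinearMap.codRestrict _
    (prL h c p ∘ₗ LinearMap.pi fun i => (PM O P h.le).subtype ∘ₗ LinearMap.proj i)
    fun Ψ => pr_Cx h c fun i => (Ψ i).2
  have H : ∀ Ψ, s (i Ψ) = Ψ := fun Ψ => Subtype.ext (pr_of Ψ.2.1 Ψ.2.2.1)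
  exact ⟨Module.Projective.of_split i s (LinearMap.ext H),
    Module.Finite.of_surjective s fun Ψ => ⟨_, H Ψ⟩⟩

theorem mem_smul (h : Sit O P M y a) (c : Fin n → Fin N) {p : ℕ} (Ψ : Cx h c p) :
    Ψ ∈ mI h.loc • (⊤ : Submodule O (Cx h c p)) ↔
      ∀ i, Ψ.1 i ∈ M * Subalgebra.toSubmodule P := by
  classical
  constructor
  · intro hΨ i
    refine Submodule.smul_induction_on hΨ (fun r hr Φ _ => ?_) fun _ _ => Submodule.add_mem _
    exact Submodule.mul_mem_mul hr (Φ.2.2.2 i)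
  · intro hΨ
    rw [Submodule.mem_smul_top_iff]
    have key : ∀ i, ∀ v ∈ M * Subalgebra.toSubmodule P,
        prL h c p (Pi.single i v) ∈ mI h.loc • Cx h c p := by
      intro i v hv
      refine Submodule.mul_induction_on hv (fun r hr u hu => ?_) fun _ _ h1 h2 => ?_
      · have : (Pi.single i (r * u) : (Fin p → Fin n) → K) =
            (⟨r, h.loc.le r hr⟩ : O) • Pi.single i u := by
          rw [← Pi.single_smul]; rfl
        rw [this, map_smul]
        refine Submodule.smul_mem_smul hr (pr_Cx h c fun j => ?_)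
        by_cases e : j = i
        · subst e; simpa using hu
        · simp [e]
      · rw [Pi.single_add, map_add]; exact Submodule.add_mem _ h1 h2
    have e : Ψ.1 = ∑ i, prL h c p (Pi.single i (Ψ.1 i)) := by
      rw [← map_sum, univ_sum_single]
      exact (pr_of Ψ.2.1 Ψ.2.2.1).symm
    rw [e]
    exact Submodule.sum_mem _ fun i _ => key i _ (hΨ i)

/-- the differential -/
def dL (h : Sit O P M y a) (c : Fin n → Fin N) (p : ℕ) : Cx h c (p + 1) →ₗ[O] Cx h c p where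
  toFun Ψ := ⟨td y Ψ.1, td_alt Ψ.2.1, td_eqa h.mul h.hy Ψ.2.2.1,
    fun _ => P.sum_mem fun s _ => P.mul_mem (h.yP s) (Ψ.2.2.2 _)⟩
  map_add' Ψ Φ := by
    ext i
    simp [td, mul_add, sum_add_distrib]
  map_smul' r Ψ := by
    ext i
    simp [td, Subalgebra.smul_def, mul_sum, mul_left_comm]

theorem main (h : Sit O P M y a) (c : Fin n → Fin N)
    (hex : ∀ (p : ℕ) (Ψ : (Fin (p + 1) → Fin n) → K), Alt Ψ → (∀ i, Ψ i ∈ P) → (∀ i, td y Ψ i = 0) →
      ∃ Φ : (Fin (p + 2) → Fin n) → K, Alt Φ ∧ (∀ i, Φ i ∈ P) ∧ ∀ i, Ψ i = td y Φ i)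
    (h0 : ∀ Ψ ∈ Cx h c 0, ∃ Φ ∈ Cx h c 1, ∀ i, Ψ i - td y Φ i ∈ M * Subalgebra.toSubmodule P)
    (p : ℕ) (Ψ : (Fin (p + 1) → Fin n) → K) (hΨ : Ψ ∈ Cx h c (p + 1))
    (hd : ∀ i, td y Ψ i ∈ M * Subalgebra.toSubmodule P) :
    ∃ Φ ∈ Cx h c (p + 2), ∀ i, Ψ i - td y Φ i ∈ M * Subalgebra.toSubmodule P := by
  have hs : Function.Surjective (dL h c 0) := by
    rw [← LinearMap.range_eq_top, ← top_le_iff]
    refine Submodule.le_of_le_smul_of_le_jacobson_bot (Cx_proj h c 0).2.fg_top (mI_le h.loc) ?_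
    rintro Θ -
    obtain ⟨Φ, h1, h2⟩ := h0 Θ.1 Θ.2
    have : Θ = dL h c 0 ⟨Φ, h1⟩ + (Θ - dL h c 0 ⟨Φ, h1⟩) := by abel
    rw [this]
    exact Submodule.add_mem_sup ⟨_, rfl⟩ ((mem_smul h c _).2 h2)
  obtain ⟨w, hw⟩ := split' (fun p => Cx h c p) (fun p => (Cx_proj h c p).1) (dL h c)
    (fun p v => Subtype.ext (td_td v.2.1)) hs (fun p v hv => by
      obtain ⟨Φ, h1, h2, h3⟩ := hex p v.1 v.2.1 v.2.2.2 (congrFun (congrArg Subtype.val hv))
      refine ⟨⟨avG c a Φ, avG_alt h1, avG_eqa h.mul _,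
        avG_mem (Subalgebra.toSubmodule P) h.hP h2⟩, Subtype.ext ?_⟩
      change td y (avG c a Φ) = v.1
      rw [td_avG h.hy, show td y Φ = v.1 from (funext h3).symm, avG_of v.2.2.1])
    (mI h.loc) p ⟨Ψ, hΨ⟩ ((mem_smul h c _).2 hd)
  exact ⟨w.1, w.2, (mem_smul h c _).1 hw⟩

end field

theorem act_mul {n : ℕ} (σ τ : Perm (Fin n)) (g : Pol n) : act (σ * τ) g = act σ (act τ g) := by
  simp only [act, MvPolynomial.rename_rename]
  congr 2
  funext k
  cases k <;> rfl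

theorem act_yv {n : ℕ} (σ : Perm (Fin n)) (s : Fin n) (g : Pol n) :
    act σ (yv s * g) = yv (σ s) * act σ g := by
  simp [act, yv]

end MKXAux

open MKXAux in
theorem kxc : LamA → S_TupD → S_Spe → S_KXc := by
  intro _ hT hS K _ _ m x y ρ μ hG hμ h1 h2 hF N c hc
  obtain ⟨f1, f2, f3, -⟩ := hF
  set O := Os x y μ
  set P := Pp x y μ
  set M := mO x y μ
  let a : Perm (Fin (m + 1)) → K →ₗ[ℂ] K := fun σ => (ρ σ).toLinearMap
  let b : Perm (Fin (m + 1)) → Pol (m + 1) →ₗ[ℂ] Pol (m + 1) := fun σ => (act σ).toLinearMap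
  have evP : ∀ g, ev x y g ∈ P := fun g => (le_sup_right : (ev x y).range ≤ P) ⟨g, rfl⟩
  have evy : ∀ s, ev x y (yv s) = y s := fun s => by simp [ev, yv]
  have h : Sit O P M y a :=
    { loc := h2.locO
      le := le_sup_left
      free := f2
      mul := fun σ τ v => by simp [a]
      hy := fun σ s v => by simp [a, hG.ry]
      hO := fun σ r hr v => by simp [a, h1.rO σ r hr]
      hP := h1.rP
      yP := fun s => evy s ▸ evP _ }
  have hab : ∀ σ g, a σ ((ev x y).toLinearMap g) = (ev x y).toLinearMap (b σ g) := h1.rev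
  have hK : ∀ σ, ∀ g ∈ Kn μ, b σ g ∈ Kn μ := fun σ g hg => by
    rw [f1] at hg ⊢
    exact hab σ g ▸ h.hM σ _ hg
  have etd : ∀ (p : ℕ) (Φ : (Fin (p + 1) → Fin (m + 1)) → Pol (m + 1)) i,
      ev x y (td yv Φ i) = td y (ev x y ∘ Φ) i := fun p Φ i => by simp [td, evy]
  have eC : ∀ (p : ℕ) (Φ : (Fin p → Fin (m + 1)) → Pol (m + 1)), Alt Φ → Eqv c Φ →
      ev x y ∘ Φ ∈ Cx h c p := fun p Φ e1 e2 => by
    have := pr_map (c := c) _ hab Φ
    rw [pr_of (a := b) e1 e2] at this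
    change (ev x y).toLinearMap ∘ Φ ∈ _
    rw [← this]
    exact pr_Cx h c fun i => evP _
  have lift : ∀ (p : ℕ), ∀ Φ ∈ Cx h c p, ∃ w : (Fin p → Fin (m + 1)) → Pol (m + 1), Alt w ∧
      Eqv c w ∧ ∀ i, Φ i - ev x y (w i) ∈ M * Subalgebra.toSubmodule P := fun p Φ hΦ => by
    choose w hw using fun i => h2.surj _ (hΦ.2.2 i)
    refine ⟨pr c b w, pr_alt _, pr_eqa act_mul _, fun i => ?_⟩
    have := pr_mem (c := c) (Ψ := Φ - (ev x y).toLinearMap ∘ w) _ h.hM hw i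
    rwa [pr_sub, pr_of hΦ.1 hΦ.2.1, pr_map _ hab] at this
  have k0 : ∀ Ψ : (Fin 0 → Fin (m + 1)) → Pol (m + 1), Eqv c Ψ →
      ∃ Φ : (Fin 1 → Fin (m + 1)) → Pol (m + 1), Alt Φ ∧ Eqv c Φ ∧
        ∀ i, Ψ i - td yv Φ i ∈ Kn μ := fun Ψ hΨ => by
    obtain ⟨g, hg⟩ := hS _ N μ c hμ hc (Ψ default) fun σ hσ => by
      have := hΨ σ hσ default
      rw [Subsingleton.elim (σ ∘ default) default] at this
      change _ = sn σ • _
      rw [congrArg (sn σ • ·) this]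
      change _ = sn σ • sn σ • _
      rw [smul_smul, sn_sq, one_smul]
    let Φ : (Fin 1 → Fin (m + 1)) → Pol (m + 1) := fun i => g (i 0)
    refine ⟨avG c b Φ, avG_alt ((alt_iff _).2 fun τ i => ?_), avG_eqa act_mul _, fun i => ?_⟩
    · rw [Subsingleton.elim τ 1]; simp [sn]
    · have := avG_mem (c := c) (Ψ := Ψ - td yv Φ) _ hK (fun i => by
        rw [Subsingleton.elim i default]; exact hg) i
      rwa [avG_sub, avG_of (a := b) hΨ, ← td_avG act_yv] at this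
  refine ⟨k0, fun p Ψ e1 e2 e3 => ?_⟩
  obtain ⟨Φ, g1, g2⟩ := main h c (hT _ K K y _ f3) (fun Θ hΘ => by
    obtain ⟨w, -, w2, w3⟩ := lift 0 Θ hΘ
    obtain ⟨Φ, g1, g2, g3⟩ := k0 w w2
    refine ⟨_, eC 1 Φ g1 g2, fun i => ?_⟩
    have := Submodule.add_mem _ (w3 i) ((f1 _).1 (g3 i))
    rwa [map_sub, etd, sub_add_sub_cancel] at this) p _ (eC _ Ψ e1 e2) fun i => by
      rw [← etd]; exact (f1 _).1 (e3 i)
  obtain ⟨w, w1, w2, w3⟩ := lift _ Φ g1
  refine ⟨w, w1, w2, fun i => (f1 _).2 ?_⟩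
  have e : td y (Φ - ev x y ∘ w) i ∈ M * Subalgebra.toSubmodule P :=
    Submodule.sum_mem _ fun s _ => mulM (h.yP s) _ (w3 _)
  have := Submodule.add_mem _ (g2 i) e
  rwa [td_sub, Pi.sub_apply, sub_add_sub_cancel, ← etd, Function.comp_apply, ← map_sub] at this

end

end Pool.Agent.P.MP_c2aaf5_co
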