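import Pool.Agent.P.MP_c2aaf5_co.DefM

/-! Package M3: vanishing of the Specht part and power sums as sums over colourings. -/

set_option linter.unusedSectionVars false

namespace Pool.Agent.P.MP_c2aaf5_co

open MvPolynomial Finset

noncomputable section

namespace MSpeAux

theorem count {n N : ℕ} (ν : Fin n → ℕ × ℕ) (c : Fin n → Fin N) (hν : IsDiag ν) (γ : Fin n → ℕ)
    (hinj : ∀ i j, c i = c j → γ i = γ j → i = j) (σ : Equiv.Perm (Fin n))
    (hle : ∀ i, γ i ≤ (ν (σ i)).1) : ¬Bad ν c := by
  classical
  rintro ⟨S, hS⟩
  have hex : ∃ r, ¬∃ j, ν j = (r, S.card) := by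
    refine ⟨dx ν + 1, ?_⟩
    rintro ⟨j, hj⟩
    have : (ν j).1 ≤ dx ν := Finset.single_le_sum (f := fun i => (ν i).1)
      (fun _ _ => Nat.zero_le _) (mem_univ j)
    rw [hj] at this
    simp at this
  obtain ⟨r0, h0, hmin⟩ : ∃ r0, (¬∃ j, ν j = (r0, S.card)) ∧ ∀ r < r0, ∃ j, ν j = (r, S.card) :=
    ⟨Nat.find hex, Nat.find_spec hex, fun r hr => not_not.mp (Nat.find_min hex hr)⟩
  have hA := Finset.card_filter_add_card_filter_not (s := univ.filter fun i => c i ∈ S)
    (fun i => γ i < r0)
  have hB := Finset.card_filter_add_card_filter_not (s := univ.filter fun u => (ν u).2 < S.card)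
    (fun u => (ν u).1 < r0)
  have h1 : ((univ.filter fun i => c i ∈ S).filter fun i => γ i < r0).card ≤ r0 * S.card := by
    conv_rhs => rw [← card_range r0, ← card_product]
    refine card_le_card_of_injOn (fun i => (γ i, c i)) ?_ ?_
    · intro i hi
      simp only [coe_filter, mem_filter, mem_univ, true_and, Set.mem_ofPred_eq] at hi
      simp [hi.1, hi.2]
    · intro i _ j _ h
      exact hinj i j (Prod.mk.inj h).2 (Prod.mk.inj h).1
  have h2 : ((univ.filter fun i => c i ∈ S).filter fun i => ¬γ i < r0).card ≤
      ((univ.filter fun u => (ν u).2 < S.card).filter fun u => ¬(ν u).1 < r0).card := by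
    refine card_le_card_of_injOn σ ?_ σ.injective.injOn
    intro i hi
    simp only [coe_filter, mem_filter, mem_univ, true_and, Set.mem_ofPred_eq] at hi ⊢
    have := hle i
    refine ⟨?_, by omega⟩
    by_contra hc
    exact h0 (hν.2 (σ i) (r0, S.card) ⟨by simp only; omega, by simp only; omega⟩)
  have h3 : r0 * S.card ≤
      ((univ.filter fun u => (ν u).2 < S.card).filter fun u => (ν u).1 < r0).card := by
    refine le_trans ?_ (card_image_le (f := ν))
    conv_lhs => rw [← card_range r0, ← card_range S.card, ← card_product]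
    apply card_le_card
    rintro ⟨a, b⟩ hab
    simp only [mem_product, mem_range] at hab
    obtain ⟨j, hj⟩ := hmin a hab.1
    obtain ⟨u, hu⟩ := hν.2 j (a, b) (by rw [hj]; exact ⟨le_rfl, hab.2.le⟩)
    exact mem_image.mpr ⟨u, by simp [hu, hab.1, hab.2], hu⟩
  omega

theorem key {α Q β R : Type} [Fintype α] [DecidableEq α] [Fintype Q] [DecidableEq Q] [Fintype β]
    [CommRing R] (π : α → Q) (hs : Function.Surjective π) (Inv : (α → β) → Prop)
    [DecidablePred Inv] (h : ∀ c, Inv c ↔ ∀ a b, π a = π b → c a = c b) (x : β → R) :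
    ∏ O, ∑ b, x b ^ (univ.filter fun a => π a = O).card = ∑ c with Inv c, ∏ i, x (c i) := by
  rw [Finset.prod_univ_sum, Fintype.piFinset_univ]
  refine Finset.sum_bij (fun d _ => d ∘ π) ?_ ?_ ?_ ?_
  · intro d _
    simp only [mem_filter, mem_univ, true_and, h]
    intro a b e
    simp [e]
  · intro d _ d' _ e
    exact hs.injective_comp_right e
  · intro c hc
    simp only [mem_filter, mem_univ, true_and, h] at hc
    refine ⟨fun O => c (hs O).choose, mem_univ _, ?_⟩
    funext a
    exact hc _ _ (hs (π a)).choose_spec
  · intro d _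
    simp only [Function.comp]
    rw [← Finset.prod_fiberwise' univ π fun O => x (d O)]
    simp only [prod_const]

open Equiv.Perm in
/-- the orbit of a point: its cycle, or the point itself when it is fixed -/
def orb {α : Type} [Fintype α] [DecidableEq α] (σ : Equiv.Perm α) (a : α) :
    σ.cycleFactorsFinset ⊕ {a // a ∉ σ.support} :=
  if h : a ∈ σ.support then Sum.inl ⟨σ.cycleOf a, cycleOf_mem_cycleFactorsFinset_iff.mpr h⟩
  else Sum.inr ⟨a, h⟩

open Equiv.Perm in
theorem orb_inl {α : Type} [Fintype α] [DecidableEq α] (σ : Equiv.Perm α) (a : α)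
    (τ : σ.cycleFactorsFinset) : orb σ a = Sum.inl τ ↔ a ∈ τ.1.support := by
  unfold orb
  split_ifs with h
  · constructor
    · intro e
      rw [← Sum.inl.inj e]
      exact mem_support_cycleOf_iff.mpr ⟨SameCycle.refl _ _, h⟩
    · intro e
      congr 1
      exact Subtype.ext (cycle_is_cycleOf e τ.2).symm
  · simp only [false_iff]
    exact fun e => h (mem_cycleFactorsFinset_support_le τ.2 e)

theorem orb_inr {α : Type} [Fintype α] [DecidableEq α] (σ : Equiv.Perm α) (a : α)
    (b : {a // a ∉ σ.support}) : orb σ a = Sum.inr b ↔ a = b.1 := by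
  unfold orb
  split_ifs with h
  · simp only [false_iff]
    rintro rfl
    exact b.2 h
  · simp [Subtype.ext_iff]

open Equiv.Perm in
theorem psum_gen {α β R : Type} [Fintype α] [DecidableEq α] [Fintype β] [DecidableEq β]
    [CommRing R] (σ : Equiv.Perm α) (x : β → R) :
    (σ.partition.parts.map fun k => ∑ b, x b ^ k).prod =
      ∑ c : α → β with ∀ i, c (σ i) = c i, ∏ i, x (c i) := by
  rw [← key (orb σ) ?_ _ ?_ x]
  · rw [Fintype.prod_sum_type, parts_partition, Multiset.map_add, Multiset.prod_add, cycleType_def,
      Multiset.map_map, Multiset.map_replicate, Multiset.prod_replicate]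
    congr 1
    · rw [← Finset.prod_eq_multiset_prod, ← Finset.prod_coe_sort]
      refine Finset.prod_congr rfl fun τ _ => ?_
      have : (univ.filter fun a => orb σ a = Sum.inl τ) = τ.1.support := by
        ext a; simp only [mem_filter, mem_univ, true_and, orb_inl]
      rw [this]; rfl
    · have : ∀ b : {a // a ∉ σ.support}, (univ.filter fun a => orb σ a = Sum.inr b).card = 1 := by
        intro b
        rw [card_eq_one]
        exact ⟨b.1, by ext a; simp only [mem_filter, mem_univ, true_and, orb_inr, mem_singleton]⟩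
      simp only [this, prod_const, card_univ]
      rw [Fintype.card_subtype_compl, Fintype.card_coe]
  · rintro (τ | b)
    · obtain ⟨a, ha⟩ := (mem_cycleFactorsFinset_iff.mp τ.2).1.nonempty_support
      exact ⟨a, (orb_inl σ a τ).mpr ha⟩
    · exact ⟨b.1, (orb_inr σ _ b).mpr rfl⟩
  · intro c
    constructor
    · intro hc a b e
      have hpow : ∀ k : ℕ, c ((σ ^ k) b) = c b := by
        intro k
        induction k with
        | zero => rfl
        | succ k ih => rw [pow_succ', Equiv.Perm.mul_apply, hc, ih]
      by_cases hb : b ∈ σ.support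
      · have e1 : orb σ b = Sum.inl ⟨σ.cycleOf b, cycleOf_mem_cycleFactorsFinset_iff.mpr hb⟩ := by
          simp [orb, hb]
        rw [e1, orb_inl] at e
        obtain ⟨k, _, hk⟩ := (mem_support_cycleOf_iff.mp e).1.exists_pow_eq'
        rw [← hk, hpow]
      · have e1 : orb σ b = Sum.inr ⟨b, hb⟩ := (orb_inr σ b ⟨b, hb⟩).mpr rfl
        rw [e1, orb_inr] at e
        rw [e]
    · intro hc i
      by_cases hi : i ∈ σ.support
      · apply hc
        have e1 : orb σ i = Sum.inl ⟨σ.cycleOf i, cycleOf_mem_cycleFactorsFinset_iff.mpr hi⟩ := by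
          simp [orb, hi]
        rw [e1, orb_inl]
        exact mem_support_cycleOf_iff.mpr ⟨⟨1, by simp⟩, hi⟩
      · rw [notMem_support.mp hi]

end MSpeAux

open MSpeAux in
theorem spe (_ : LamA) : S_Spe := by
  intro n N ν c hν hbad g hg
  rw [g.as_sum]
  refine Finset.sum_induction _ (fun w : Pol n => ∃ h : Fin n → Pol n, w - ∑ r, yv r * h r ∈ Kn ν)
    ?_ ⟨0, by simp⟩ ?_
  · rintro a b ⟨h, ha⟩ ⟨h', hb⟩
    refine ⟨h + h', ?_⟩
    convert Submodule.add_mem _ ha hb using 1
    simp only [Pi.add_apply, mul_add, sum_add_distrib]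
    ring
  · intro e he
    by_cases hy : ∃ r, e (Sum.inr r) ≠ 0
    · obtain ⟨r, hr⟩ := hy
      refine ⟨Pi.single r (monomial (e - Finsupp.single (Sum.inr r) 1) (coeff e g)), ?_⟩
      rw [Finset.sum_eq_single r (fun b _ hb => by simp [hb]) (by simp), Pi.single_eq_same, yv,
        X, monomial_mul, one_mul, add_tsub_cancel_of_le, sub_self]
      · exact Submodule.zero_mem _
      · rw [Finsupp.single_le_iff]; omega
    · push Not at hy
      refine ⟨0, ?_⟩
      simp only [Pi.zero_apply, mul_zero, sum_const_zero, sub_zero]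
      have hinj : ∀ i j, c i = c j → e (Sum.inl i) = e (Sum.inl j) → i = j := by
        intro i j hc hγ
        by_contra hij
        have h1 := hg (Equiv.swap i j) (fun k => by
          rcases eq_or_ne k i with rfl | hki
          · simp [hc]
          · rcases eq_or_ne k j with rfl | hkj
            · simp [hc]
            · rw [Equiv.swap_apply_of_ne_of_ne hki hkj])
        have hi : Function.Injective (Sum.map (Equiv.swap i j) (Equiv.swap i j) :
            Fin n ⊕ Fin n → Fin n ⊕ Fin n) :=
          Sum.map_injective.mpr ⟨(Equiv.swap i j).injective, (Equiv.swap i j).injective⟩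
        have h2 : e.mapDomain (Sum.map (Equiv.swap i j) (Equiv.swap i j)) = e := by
          ext v
          have hv : v = Sum.map (Equiv.swap i j) (Equiv.swap i j)
              (Sum.map (Equiv.swap i j) (Equiv.swap i j) v) := by
            rcases v with v | v <;> simp
          rw [hv, Finsupp.mapDomain_apply hi, ← hv]
          rcases v with v | v
          · rcases eq_or_ne v i with rfl | hki
            · simp [hγ]
            · rcases eq_or_ne v j with rfl | hkj
              · simp [hγ]
              · simp [Equiv.swap_apply_of_ne_of_ne hki hkj]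
          · simp [hy]
        have h3 := coeff_rename_mapDomain _ hi g e
        rw [h2] at h3
        have h4 := congrArg (coeff e) h1
        rw [act, h3, Equiv.Perm.sign_swap hij] at h4
        simp only [Units.val_neg, Units.val_one, Int.cast_neg, Int.cast_one, coeff_smul,
          smul_eq_mul] at h4
        exact mem_support_iff.mp he (by linear_combination (1 / 2 : ℂ) * h4)
      rw [Kn, LinearMap.mem_ker]
      refine LinearMap.ext fun w => ?_
      simp only [bil, LinearMap.compr₂_apply, LinearMap.mul_apply', lam, LinearMap.sum_apply,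
        LinearMap.smul_apply, lcoeff_apply, LinearMap.zero_apply]
      refine Finset.sum_eq_zero fun σ _ => ?_
      rw [coeff_monomial_mul', if_neg, smul_zero]
      intro hle
      exact count ν c hν (fun i => e (Sum.inl i)) hinj σ
        (fun i => by simpa [mono] using hle (Sum.inl i)) hbad

theorem psumc : S_Psum := by
  intro n N F _ σ
  have := MSpeAux.psum_gen σ (fun b : Fin N => (X b : MvPolynomial (Fin N) F))
  refine Eq.trans this ?_
  congr

end

end Pool.Agent.P.MP_c2aaf5_co
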