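import Pool.Agent.P.MP_c2aaf5_co.KLes
import Pool.Agent.P.MP_c2aaf5_co.KTup
import Pool.Agent.P.MP_c2aaf5_co.KStep
import Pool.Agent.P.MP_c2aaf5_co.KFree
import Pool.Agent.P.MP_c2aaf5_co.KLA
import Pool.Agent.P.MP_c2aaf5_co.DReg
import Pool.Agent.P.MP_c2aaf5_co.DBdd
import Pool.Agent.P.MP_c2aaf5_co.DPt
import Pool.Agent.P.MP_c2aaf5_co.DCut
import Pool.Agent.P.MP_c2aaf5_co.DSat
import Pool.Agent.P.MP_c2aaf5_co.DForms
import Pool.Agent.P.MP_c2aaf5_co.GLamA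
import Pool.Agent.P.MP_c2aaf5_co.GLamB
import Pool.Agent.P.MP_c2aaf5_co.GCh1
import Pool.Agent.P.MP_c2aaf5_co.GPlace
import Pool.Agent.P.MP_c2aaf5_co.GCh2a
import Pool.Agent.P.MP_c2aaf5_co.GCh2
import Pool.Agent.P.MP_c2aaf5_co.GArrow
import Pool.Agent.P.MP_c2aaf5_co.GGenD
import Pool.Agent.P.MP_c2aaf5_co.GRegM
import Pool.Agent.P.MP_c2aaf5_co.GPts
import Pool.Agent.P.MP_c2aaf5_co.GComb
import Pool.Agent.P.MP_c2aaf5_co.GExp
import Pool.Agent.P.MP_c2aaf5_co.GNFs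
import Pool.Agent.P.MP_c2aaf5_co.MFib
import Pool.Agent.P.MP_c2aaf5_co.MKX
import Pool.Agent.P.MP_c2aaf5_co.MSpe

/-! Assembly of the geometric part. -/

namespace Pool.Agent.P.MP_c2aaf5_co

open MvPolynomial Finset

namespace AsmGAux

theorem freeAt {K τ W : Type} [Field K] [Algebra ℂ K] [Fintype τ] [CommRing W] [Algebra ℂ W]
    {ξ : τ → K} {R : Subalgebra ℂ K} {mR : Submodule ℂ K} {P : Subalgebra ℂ K} {ev : W →ₐ[ℂ] K}
    {am : K →ₗ[ℂ] K} {β : τ → W →ₗ[ℂ] ℂ} {s : τ} {a : τ → ℂ} {O : Subalgebra ℂ K}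
    {M : Submodule ℂ K} (hF : Forms ξ R mR P ev am β) (hpt : Pt R mR ξ s a O M)
    (hp : PerfAt O ev.range am (ξ s)) : FreeAt O P := by
  obtain ⟨N, f, g, Γ, hf, hg, hΓ, hv, hi⟩ := hp
  have hE : ∀ v ∈ ev.range, v ∈ P := by rintro _ ⟨w, rfl⟩; exact hF.mem w
  have h1 : ∀ t, ξ t / ξ s ∈ O := fun t => by
    have := O.add_mem (hpt.loc.le _ (hpt.eta t)) (O.algebraMap_mem (a t))
    rwa [sub_add_cancel] at this
  have h2 : ∀ v ∈ Vx ξ * Subalgebra.toSubmodule R, v / ξ s ∈ O := by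
    intro v hv
    refine Submodule.mul_induction_on hv (fun c hc r hr => ?_) fun c d hc hd => ?_
    · rw [mul_div_right_comm]
      refine O.mul_mem ?_ (hpt.le hr)
      induction hc using Submodule.span_induction with
      | mem x hx => obtain ⟨t, rfl⟩ := hx; exact h1 t
      | zero => rw [zero_div]; exact O.zero_mem
      | add x y _ _ hx hy => rw [add_div]; exact O.add_mem hx hy
      | smul c x _ hx => rw [smul_div_assoc]; exact O.smul_mem hx c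
    · rw [add_div]; exact O.add_mem hc hd
  refine ⟨N, f, fun b => hE _ (hf b), fun v hv' => ?_, hi⟩
  rw [hv v]
  refine Submodule.sum_mem _ fun b _ => Submodule.mul_mem_mul ?_ (Submodule.subset_span ⟨b, rfl⟩)
  exact O.sum_mem fun b' _ => O.mul_mem (hΓ b b') (h2 _ (hF.amP _ (P.mul_mem hv' (hE _ (hg b')))))

theorem pts_inst {K τ : Type} [Field K] [Algebra ℂ K] {i1 i2 : DecidableEq τ}
    {ξ : τ → K} {R : Subalgebra ℂ K} {mR : Submodule ℂ K} {N : ℕ} {φ : Option τ → τ → K}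
    {z : Fin N → K} {E : Subalgebra ℂ K} {am : K →ₗ[ℂ] K}
    (h : @Pts K _ _ τ i1 ξ R mR N φ z E am) : @Pts K _ _ τ i2 ξ R mR N φ z E am := by
  cases Subsingleton.elim i1 i2
  exact h

theorem charts {K : Type} [Field K] [Algebra ℂ K] {m : ℕ} {x y : Fin (m + 1) → K}
    {ρ : Equiv.Perm (Fin (m + 1)) →* (K ≃ₐ[ℂ] K)} {μ : Fin (m + 1) → ℕ × ℕ} (hg : Gen x y ρ)
    (hμ : IsDiag μ) : Ch1 x y ρ μ ∧ Ch2 x y ρ μ := by
  have h1 := ch1 lamA K m x y ρ μ hg hμ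
  exact ⟨h1, ch2 K m x y ρ μ hg hμ h1 (ch2a K m x y ρ μ hg hμ h1 (place K m x y ρ μ hg hμ h1))⟩

theorem step (hL : S_Lin) {m : ℕ} {μ : Fin (m + 1) → ℕ × ℕ} (hμ : IsDiag μ)
    (hn : ∀ s : Cor μ, NF (rm μ s)) :
    (SFc fun t : Cor μ => bil (beta μ t)) ∧ (Srt μ → NF μ) := by
  obtain ⟨K, _, _, x, y, ρ, hg⟩ := genEx (m + 1)
  obtain ⟨h1, h2⟩ := charts hg hμ
  obtain ⟨N, φ, z, hN, hG⟩ := genD arrow K m x y ρ μ hg hμ h1 h2
  have hR := regM hL tupW star remove K m x y ρ μ hg hμ h1 h2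
  have hP := pts (lamB lamA) ptEx (ptReg d1) perf K m x y ρ μ hg hμ h1 h2 hn N φ z hN hG
  obtain ⟨c1, c2⟩ := cut stepZ (stepPhi star) ext kreg bdd K (Cor μ) _ _ _ _ N φ z h2.core hG
    (fun s a ha => (hP.1 s a ha).imp id fun ⟨O, M, p1, p2, p3⟩ =>
      ⟨O, M, p1, freeAt h2.forms p1 p2, p3⟩) hR
  have hS := sat bdd tors K (Cor μ) _ _ _ _ _ N φ z _ _ _ h2.core hG h2.forms (pts_inst hP) c1
  obtain ⟨f1, f2⟩ := forms kreg K (Cor μ) _ _ _ _ _ N φ z _ _ _ h2.core hG h2.forms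
    (pts_inst hP) hS c1 c2
  obtain ⟨h, hh⟩ := lamA.euler μ
  obtain ⟨s1, N', p, φ', s2⟩ := la free (Cor μ) (Pol m) (fun t => bil (beta μ t)) h
    (fun t => (dx μ : ℂ) - (μ t).1)
    (fun s t e => lamA.dxinj μ (Nat.cast_injective (R := ℂ) (sub_right_injective e)))
    (fun s f g => by simp [bil, mul_comm]) (fun s f g => hh s f g) (lamA.fin μ) f1
  exact ⟨s1, fun hs => nfs lamA (lamB lamA) comb expn K m x y ρ μ hg hμ h1 h2 hs hn f2 N' p φ' s2⟩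

end AsmGAux

theorem nfAll (hL : S_Lin) : S_NF := by
  intro n
  induction n with
  | zero =>
    intro ν _
    refine ⟨fun _ => 1, fun _ => 1, fun a b => ?_⟩
    have := lamA.prod ν ν
    rw [if_pos (Subsingleton.elim _ _), mul_one]
    simpa using this
  | succ m ih =>
    intro ν hν
    obtain ⟨σ, hσ⟩ := (lamB lamA).srt ν
    have h : IsDiag (ν ∘ σ) := ⟨hν.1.comp σ.injective, fun i h hh => by
      obtain ⟨j, hj⟩ := hν.2 (σ i) h hh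
      exact ⟨σ.symm j, by simpa using hj⟩⟩
    exact (lamB lamA).nfperm ν σ
      ((AsmGAux.step hL h fun s => ih _ (lamA.diag _ _ h s.2)).2 hσ)

theorem sfcAll (hL : S_Lin) : S_SFc := fun _ _ hμ =>
  (AsmGAux.step hL hμ fun s => nfAll hL _ _ (lamA.diag _ _ hμ s.2)).1

theorem geo (hL : S_Lin) (hJ : S_KFJ) : S_Geo := by
  intro m μ hμ
  obtain ⟨K, _, _, x, y, ρ, hg⟩ := genEx (m + 1)
  obtain ⟨h1, h2⟩ := AsmGAux.charts hg hμ
  have hf := fib lamA perf hJ K m x y ρ μ hg hμ h1 h2 (nfAll hL _ _ hμ)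
  exact ⟨hf.2.2.2, kxc lamA tupD (spe lamA) K m x y ρ μ hg hμ h1 h2 hf⟩

end Pool.Agent.P.MP_c2aaf5_co
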