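import Pool.Agent.P.MP_c2aaf5_co.DefM

/-! The Euler characteristic of the sign part of the Koszul complex. -/

set_option linter.unusedSectionVars false

namespace Pool.Agent.P.MP_c2aaf5_co

open MvPolynomial Finset

noncomputable section

namespace MEulAux

section perm
open Equiv Equiv.Perm

variable {n : ℕ}

/-- permutation matrix -/
def Pm (R : Type) [CommRing R] (σ : Perm (Fin n)) : Matrix (Fin n) (Fin n) R :=
  Matrix.of fun i j => if σ j = i then 1 else 0

/-- `1 - X P` -/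
def Mx (σ : Perm (Fin n)) : Matrix (Fin n) (Fin n) (Polynomial ℂ) :=
  1 - (Polynomial.X : Polynomial ℂ) • Pm (Polynomial ℂ) σ

theorem Pm_mul (R : Type) [CommRing R] (σ τ : Perm (Fin n)) : Pm R σ * Pm R τ = Pm R (σ * τ) := by
  ext i j
  simp only [Pm, Matrix.mul_apply, Matrix.of_apply]
  rw [Finset.sum_eq_single (τ j)]
  · by_cases h : σ (τ j) = i <;> simp [h]
  · intro b _ hb
    simp [Ne.symm hb]
  · simp

theorem Pm_add (R : Type) [CommRing R] {σ τ : Perm (Fin n)} (h : Disjoint σ τ) :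
    Pm R σ + Pm R τ = 1 + Pm R (σ * τ) := by
  ext i j
  simp only [Pm, Matrix.add_apply, Matrix.of_apply, Matrix.one_apply]
  by_cases h1 : τ j = j
  · have h4 : (σ * τ) j = σ j := by simp [h1]
    rw [h4, h1, add_comm]
    simp only [eq_comm]
  · have h2 : σ j = j := (h j).resolve_right h1
    have h3 : (σ * τ) j = τ j := (h (τ j)).resolve_right fun e => h1 (τ.injective e)
    rw [h2, h3]
    simp only [eq_comm]

theorem Mx_mul {σ τ : Perm (Fin n)} (h : Disjoint σ τ) :
    Mx σ * Mx τ = (1 - Polynomial.X : Polynomial ℂ) • Mx (σ * τ) := by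
  have e : Mx σ * Mx τ = 1 - (Polynomial.X : Polynomial ℂ) • (Pm (Polynomial ℂ) σ + Pm _ τ) +
      (Polynomial.X * Polynomial.X : Polynomial ℂ) • (Pm (Polynomial ℂ) σ * Pm _ τ) := by
    simp only [Mx, sub_mul, mul_sub, one_mul, mul_one, smul_add, Matrix.smul_mul, Matrix.mul_smul,
      smul_smul]
    abel
  rw [e, Pm_add _ h, Pm_mul]
  simp only [Mx]
  module

theorem Mx_apply (σ : Perm (Fin n)) (i j : Fin n) : Mx σ i j =
    (if i = j then 1 else 0) - if σ j = i then Polynomial.X else 0 := by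
  simp [Mx, Pm, Matrix.one_apply]

theorem det_cycle {σ : Perm (Fin n)} (h : σ.IsCycle) :
    (Mx σ).det = (1 - Polynomial.X) ^ (n - σ.support.card) * (1 - Polynomial.X ^ σ.support.card) := by
  have h1 : (1 : Perm (Fin n)) ≠ σ := h.ne_one.symm
  have hc : (univ.filter fun i => ¬ i ∈ σ.support).card = n - σ.support.card := by
    rw [Finset.filter_not, Finset.card_sdiff_of_subset (Finset.filter_subset _ _),
      Finset.filter_mem_eq_inter, Finset.univ_inter, card_univ, Fintype.card_fin]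
  have hc' : (univ.filter fun i => i ∈ σ.support).card = σ.support.card := by
    rw [Finset.filter_mem_eq_inter, Finset.univ_inter]
  rw [Matrix.det_apply, Finset.sum_eq_add (1 : Perm (Fin n)) σ h1]
  · have e1 : ∏ i, Mx σ ((1 : Perm (Fin n)) i) i = (1 - Polynomial.X) ^ (n - σ.support.card) := by
      rw [← hc, ← Finset.prod_const, Finset.prod_filter]
      refine Finset.prod_congr rfl fun i _ => ?_
      by_cases hi : σ i = i <;> simp [Mx_apply, hi]
    have e2 : ∏ i, Mx σ (σ i) i = (-Polynomial.X) ^ σ.support.card *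
        (1 - Polynomial.X) ^ (n - σ.support.card) := by
      rw [← hc, ← hc', ← Finset.prod_const, ← Finset.prod_const, ← Finset.prod_ite]
      refine Finset.prod_congr rfl fun i _ => ?_
      by_cases hi : σ i = i <;> simp [Mx_apply, hi]
    rw [e1, e2, h.sign, neg_pow (Polynomial.X : Polynomial ℂ)]
    rcases neg_one_pow_eq_or ℤˣ σ.support.card with e | e
    · have e' : (-1 : Polynomial ℂ) ^ σ.support.card = 1 := by
        rw [neg_one_pow_eq_one_iff_even (by norm_num)] at e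
        exact e.neg_one_pow
      rw [e, e']
      simp only [Perm.sign_one, one_smul, Units.neg_smul]
      ring
    · have e' : (-1 : Polynomial ℂ) ^ σ.support.card = -1 := by
        rcases Nat.even_or_odd σ.support.card with o | o
        · rw [o.neg_one_pow] at e
          exact absurd e (by decide)
        · exact o.neg_one_pow
      rw [e, e']
      simp only [Perm.sign_one, one_smul, neg_neg]
      ring
  · intro π _ ⟨hπ1, hπ2⟩
    by_contra hne
    have hp : ∀ i, π i = i ∨ π i = σ i := by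
      intro i
      by_contra hi
      push Not at hi
      apply hne
      rw [Finset.prod_eq_zero (Finset.mem_univ i), smul_zero]
      simp [Mx_apply, hi.1, Ne.symm hi.2]
    obtain ⟨x, hx⟩ : ∃ x, π x ≠ x := by
      by_contra hx
      push Not at hx
      exact hπ1 (Equiv.ext hx)
    have hxs : π x = σ x := (hp x).resolve_left hx
    have key : ∀ k : ℕ, π ((σ ^ k) x) = σ ((σ ^ k) x) ∧ σ ((σ ^ k) x) ≠ (σ ^ k) x := by
      intro k
      induction k with
      | zero => exact ⟨hxs, hxs ▸ hx⟩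
      | succ k ih =>
        rw [pow_succ', Perm.mul_apply]
        have h2 : σ (σ ((σ ^ k) x)) ≠ σ ((σ ^ k) x) := fun e => ih.2 (σ.injective e)
        refine ⟨(hp _).resolve_left fun e => ih.2 (π.injective (e.trans ih.1.symm)), h2⟩
    apply hπ2
    ext1 y
    by_cases hy : σ y = y
    · rcases hp y with e | e
      · rw [e, hy]
      · exact e
    · obtain ⟨k, rfl⟩ := h.exists_pow_eq (hxs ▸ hx) hy
      exact (key k).1
  · simp
  · simp

theorem det_Mx_aux (σ : Perm (Fin n)) : (Mx σ).det * (1 - Polynomial.X) ^ σ.support.card =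
    (1 - Polynomial.X) ^ n * (σ.cycleType.map fun k => (1 - Polynomial.X ^ k : Polynomial ℂ)).prod := by
  have hX : (1 - Polynomial.X : Polynomial ℂ) ≠ 0 := by
    intro e
    simpa using congrArg (Polynomial.eval 0) e
  induction σ using cycle_induction_on with
  | base_one =>
    have : Mx (1 : Perm (Fin n)) = (1 - Polynomial.X : Polynomial ℂ) • 1 := by
      ext i j
      by_cases h : i = j
      · simp [Mx_apply, h]
      · simp [Mx_apply, h, Ne.symm h]
    simp [this]
  | base_cycles σ h =>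
    rw [det_cycle h, h.cycleType]
    have : σ.support.card ≤ n := by simpa using σ.support.card_le_univ
    simp only [Multiset.map_singleton, Multiset.prod_singleton]
    rw [mul_right_comm, ← pow_add, Nat.sub_add_cancel this]
  | induction_disjoint σ τ hd _ h1 h2 =>
    have e := congrArg Matrix.det (Mx_mul hd)
    rw [Matrix.det_mul, Matrix.det_smul, Fintype.card_fin] at e
    apply mul_left_cancel₀ (pow_ne_zero n hX)
    rw [hd.card_support_mul, hd.cycleType_mul, Multiset.map_add, Multiset.prod_add, ← mul_assoc,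
      ← e, pow_add]
    linear_combination ((Mx τ).det * (1 - Polynomial.X) ^ τ.support.card) * h1 +
      ((1 - Polynomial.X) ^ n *
        (σ.cycleType.map fun k => (1 - Polynomial.X ^ k : Polynomial ℂ)).prod) * h2

theorem det_Mx (σ : Perm (Fin n)) : (Mx σ).det =
    (σ.partition.parts.map fun k => (1 - Polynomial.X ^ k : Polynomial ℂ)).prod := by
  have hX : (1 - Polynomial.X : Polynomial ℂ) ≠ 0 := by
    intro e
    simpa using congrArg (Polynomial.eval 0) e
  apply mul_right_cancel₀ (pow_ne_zero σ.support.card hX)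
  have : σ.support.card ≤ n := by simpa using σ.support.card_le_univ
  rw [det_Mx_aux, parts_partition, Multiset.map_add, Multiset.prod_add, Multiset.map_replicate,
    Multiset.prod_replicate, pow_one, Fintype.card_fin, mul_assoc, ← pow_add,
    Nat.sub_add_cancel this, mul_comm]

theorem sum_tuples (M : Matrix (Fin n) (Fin n) ℂ) (p : ℕ) :
    ∑ i : Fin p → Fin n, (M.submatrix i i).det = p.factorial * ∑ s ∈ univ.powersetCard p,
      (M.submatrix (Subtype.val : s → Fin n) (Subtype.val : s → Fin n)).det := by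
  classical
  rw [← Finset.sum_filter_add_sum_filter_not univ (fun i : Fin p → Fin n => Function.Injective i)]
  rw [Finset.sum_eq_zero (s := univ.filter fun i : Fin p → Fin n => ¬Function.Injective i),
    add_zero, Finset.mul_sum]
  · rw [← Finset.sum_fiberwise_of_maps_to (t := univ.powersetCard p) (g := fun i => univ.image i)]
    · refine Finset.sum_congr rfl fun s hs => ?_
      have hs' : s.card = p := (Finset.mem_powersetCard.mp hs).2
      have hv : ∀ τ : Perm (Fin p), (M.submatrix (s.orderEmbOfFin hs' ∘ τ)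
          (s.orderEmbOfFin hs' ∘ τ)).det =
          (M.submatrix (Subtype.val : s → Fin n) (Subtype.val : s → Fin n)).det := by
        intro τ
        rw [← Matrix.det_submatrix_equiv_self (τ.trans (s.orderIsoOfFin hs').toEquiv)]
        rfl
      symm
      calc _ = ∑ τ : Perm (Fin p), (M.submatrix (s.orderEmbOfFin hs' ∘ τ)
          (s.orderEmbOfFin hs' ∘ τ)).det := by
            simp only [hv, Finset.sum_const, card_univ, Fintype.card_perm, Fintype.card_fin,
              nsmul_eq_mul]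
        _ = _ := by
          refine Finset.sum_bij (fun τ _ => s.orderEmbOfFin hs' ∘ τ) ?_ ?_ ?_ fun _ _ => rfl
          · intro τ _
            simp only [mem_filter, mem_univ, true_and]
            refine ⟨(s.orderEmbOfFin hs').injective.comp τ.injective, ?_⟩
            rw [← Finset.image_image, Finset.image_univ_equiv]
            exact Finset.image_orderEmbOfFin_univ s hs'
          · intro τ _ τ' _ e
            ext1 k
            exact (s.orderEmbOfFin hs').injective (congrFun e k)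
          · intro i hi
            simp only [mem_filter, mem_univ, true_and] at hi
            have hm : ∀ k, i k ∈ s := fun k => hi.2 ▸ Finset.mem_image_of_mem i (mem_univ k)
            have hb : Function.Bijective fun k => (s.orderIsoOfFin hs').symm ⟨i k, hm k⟩ := by
              apply Finite.injective_iff_bijective.mp
              intro k l e
              exact hi.1 (congrArg Subtype.val ((s.orderIsoOfFin hs').symm.injective e))
            refine ⟨Equiv.ofBijective _ hb, mem_univ _, ?_⟩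
            funext k
            simp only [Function.comp, Equiv.ofBijective_apply]
            rw [← Finset.coe_orderIsoOfFin_apply, OrderIso.apply_symm_apply]
    · intro i hi
      simp only [mem_filter, mem_univ, true_and] at hi
      simp [Finset.mem_powersetCard, Finset.card_image_of_injective _ hi]
  · intro i hi
    simp only [mem_filter, mem_univ, true_and] at hi
    obtain ⟨k, l, e, hkl⟩ := Function.not_injective_iff.mp hi
    refine Matrix.det_zero_of_row_eq hkl ?_
    funext j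
    simp [e]

/-- `p!` times the trace of `σ` on the `p`-th exterior power -/
def ee (p : ℕ) (σ : Perm (Fin n)) : ℂ :=
  ∑ τ : Perm (Fin p), ((sign τ : ℤ) : ℂ) * ∑ i : Fin p → Fin n, if σ ∘ i = i ∘ τ then 1 else 0

theorem coeff_parts (σ : Perm (Fin n)) (p : ℕ) : (p.factorial : ℂ) *
    ((σ.partition.parts.map fun k => (1 - Polynomial.X ^ k : Polynomial ℂ)).prod).coeff p =
    (-1) ^ p * ee p σ := by
  have e : Mx σ = 1 + (Polynomial.X : Polynomial ℂ) • (-Pm ℂ σ).map Polynomial.C := by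
    ext i j : 2
    by_cases h : σ j = i <;> simp [Mx_apply, Pm, h, Matrix.one_apply, sub_eq_add_neg]
  rw [← det_Mx, e, Matrix.coeff_det_one_add_X_smul_eq_sum_minors, ← sum_tuples, ee]
  simp only [Matrix.submatrix_neg, Pi.neg_apply, Matrix.det_neg, Fintype.card_fin, ← Finset.mul_sum]
  congr 1
  simp only [Finset.mul_sum, Matrix.det_apply]
  rw [Finset.sum_comm]
  refine Finset.sum_congr rfl fun τ _ => Finset.sum_congr rfl fun i _ => ?_
  rw [Units.smul_def, zsmul_eq_mul]
  congr 1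
  simp only [Pm, Matrix.submatrix_apply, Matrix.of_apply, Finset.prod_boole, mem_univ,
    forall_const]
  simp only [funext_iff, Function.comp]

end perm

section poly
open Equiv Equiv.Perm

variable {n N : ℕ}

/-- the bidegree -/
abbrev wt (n : ℕ) : Fin n ⊕ Fin n → ℕ × ℕ := Sum.elim (fun _ => (1, 0)) fun _ => (0, 1)

/-- bihomogeneous component -/
abbrev cp (ab : ℕ × ℕ) : Pol n →ₗ[ℂ] Pol n := weightedHomogeneousComponent (wt n) ab

theorem cp_mem (a b : ℕ) (g : Pol n) : cp (a, b) g ∈ Bi n a b :=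
  weightedHomogeneousComponent_mem _ _ _

theorem cp_of_mem {a b : ℕ} {g : Pol n} (h : g ∈ Bi n a b) (m : ℕ × ℕ) :
    cp m g = if m = (a, b) then g else 0 := weightedHomogeneousComponent_of_mem h

theorem cp_ind {P : Pol n → Prop} (h1 : ∀ a b, ∀ g ∈ Bi n a b, P g)
    (h2 : ∀ f g, P f → P g → P (f + g)) (g : Pol n) : P g := by
  induction g using MvPolynomial.induction_on' with
  | monomial d r =>
    exact h1 (Finsupp.weight (wt n) d).1 (Finsupp.weight (wt n) d).2 _
      (isWeightedHomogeneous_monomial _ _ _ rfl)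
  | add f g hf hg => exact h2 f g hf hg

theorem yv_mem (r : Fin n) {a b : ℕ} {g : Pol n} (h : g ∈ Bi n a b) : yv r * g ∈ Bi n a (b + 1) := by
  have := IsWeightedHomogeneous.mul (isWeightedHomogeneous_X ℂ (wt n) (Sum.inr r)) h
  have e : wt n (Sum.inr r) + (a, b) = (a, b + 1) := by simp [add_comm]
  rw [e] at this
  exact this

theorem act_mem (σ : Perm (Fin n)) {a b : ℕ} {g : Pol n} (h : g ∈ Bi n a b) :
    act σ g ∈ Bi n a b := by
  rw [g.as_sum, map_sum]
  refine Submodule.sum_mem _ fun d hd => ?_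
  rw [act, rename_monomial]
  refine isWeightedHomogeneous_monomial _ _ _ ?_
  rw [← h (mem_support_iff.mp hd), Finsupp.weight_apply, Finsupp.weight_apply,
    Finsupp.sum_mapDomain_index (by simp) (by intros; rw [add_smul])]
  refine Finsupp.sum_congr fun v _ => ?_
  rcases v with v | v <;> rfl

theorem cp_act (σ : Perm (Fin n)) (m : ℕ × ℕ) (g : Pol n) : cp m (act σ g) = act σ (cp m g) := by
  induction g using cp_ind with
  | h1 a b g hg =>
    rw [cp_of_mem hg, cp_of_mem (act_mem σ hg)]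
    split_ifs <;> simp
  | h2 f g hf hg => simp only [map_add, hf, hg]

theorem cp_yv (r : Fin n) (a b : ℕ) (g : Pol n) :
    cp (a, b + 1) (yv r * g) = yv r * cp (a, b) g := by
  induction g using cp_ind with
  | h1 a' b' g hg =>
    rw [cp_of_mem hg, cp_of_mem (yv_mem r hg)]
    by_cases h : a = a' ∧ b = b' <;> simp [h]
  | h2 f g hf hg => simp only [mul_add, map_add, hf, hg]

theorem cp_yv0 (r : Fin n) (a : ℕ) (g : Pol n) : cp (a, 0) (yv r * g) = 0 := by
  induction g using cp_ind with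
  | h1 a' b' g hg =>
    rw [cp_of_mem (yv_mem r hg)]
    simp
  | h2 f g hf hg => simp only [mul_add, map_add, hf, hg, add_zero]

instance (a b : ℕ) : FiniteDimensional ℂ (Bi n a b) := by
  have h : Bi n a b ≤ weightedHomogeneousSubmodule ℂ (fun _ => (1 : ℕ)) (a + b) := by
    intro g hg d hd
    have e := hg hd
    have e1 := congrArg (fun m : ℕ × ℕ => m.1 + m.2) e
    simp only [Finsupp.weight_apply, Finsupp.sum, Prod.fst_sum, Prod.snd_sum,
      ← Finset.sum_add_distrib] at e1 ⊢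
    rw [← e1]
    refine Finset.sum_congr rfl fun v _ => ?_
    rcases v with v | v <;> simp
  have : FiniteDimensional ℂ (weightedHomogeneousSubmodule ℂ
      (fun _ : Fin n ⊕ Fin n => (1 : ℕ)) (a + b)) :=
    Module.Finite.iff_fg.mpr (weightedHomogeneousSubmodule_fg _ _ (by simp) _)
  exact Submodule.finiteDimensional_of_le h

theorem act_mul (σ τ : Perm (Fin n)) (g : Pol n) : act (σ * τ) g = act σ (act τ g) := by
  simp only [act, rename_rename, Sum.map_comp_map, Perm.coe_mul]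

theorem act_yv (σ : Perm (Fin n)) (r : Fin n) : act σ (yv r) = yv (σ r) := by
  simp [act, yv]

theorem sg_sq {α : Type} [Fintype α] [DecidableEq α] (τ : Perm α) :
    ((sign τ : ℤ) : ℂ) * ((sign τ : ℤ) : ℂ) = 1 := by
  rcases Int.units_eq_one_or (sign τ) with h | h <;> simp [h]

theorem alt_iff {p : ℕ} (Ψ : (Fin p → Fin n) → Pol n) :
    Alt Ψ ↔ ∀ (τ : Perm (Fin p)) i, Ψ (i ∘ τ) = ((sign τ : ℤ) : ℂ) • Ψ i := by
  constructor
  · intro h τ i
    rw [h.1, Int.cast_smul_eq_zsmul]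
  · intro h
    refine ⟨fun τ i => by rw [h, Int.cast_smul_eq_zsmul], fun i hi => ?_⟩
    obtain ⟨k, l, e, hkl⟩ := Function.not_injective_iff.mp hi
    have e1 : i ∘ swap k l = i := by
      funext r
      simp only [Function.comp]
      rcases eq_or_ne r k with rfl | h1
      · simp [e]
      · rcases eq_or_ne r l with rfl | h2
        · simp [e]
        · rw [swap_apply_of_ne_of_ne h1 h2]
    have := h (swap k l) i
    rw [e1, sign_swap hkl] at this
    have e2 : (2 : ℂ) • Ψ i = 0 := by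
      rw [two_smul]
      nth_rewrite 1 [this]
      simp
    simpa using e2

/-- alternating equivariant tuples with values in `U` -/
def AE (c : Fin n → Fin N) (p : ℕ) (U : Submodule ℂ (Pol n)) :
    Submodule ℂ ((Fin p → Fin n) → Pol n) where
  carrier := {Ψ | Alt Ψ ∧ Eqv c Ψ ∧ ∀ i, Ψ i ∈ U}
  zero_mem' := ⟨(alt_iff _).2 (by simp), fun σ _ i => by simp, fun _ => U.zero_mem⟩
  add_mem' := by
    rintro Ψ Φ ⟨h1, h2, h3⟩ ⟨k1, k2, k3⟩
    rw [alt_iff] at h1 k1
    refine ⟨(alt_iff _).2 fun τ i => ?_, fun σ hσ i => ?_, fun i => U.add_mem (h3 i) (k3 i)⟩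
    · simp only [Pi.add_apply, h1, k1, smul_add]
    · simp only [Pi.add_apply, h2 σ hσ, k2 σ hσ, smul_add, map_add]
  smul_mem' := by
    rintro r Ψ ⟨h1, h2, h3⟩
    rw [alt_iff] at h1
    refine ⟨(alt_iff _).2 fun τ i => ?_, fun σ hσ i => ?_, fun i => U.smul_mem r (h3 i)⟩
    · simp only [Pi.smul_apply, h1, smul_comm r]
    · simp only [Pi.smul_apply, h2 σ hσ, map_smul, smul_comm r]

theorem AE_mono (c : Fin n → Fin N) (p : ℕ) {U V : Submodule ℂ (Pol n)} (h : U ≤ V) :
    AE c p U ≤ AE c p V := fun _ hΨ => ⟨hΨ.1, hΨ.2.1, fun i => h (hΨ.2.2 i)⟩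

/-- inclusion of tuples with values in `U` -/
def inc (p : ℕ) (U : Submodule ℂ (Pol n)) : ((Fin p → Fin n) → U) →ₗ[ℂ] (Fin p → Fin n) → Pol n :=
  U.subtype.compLeft _

theorem inc_inj (p : ℕ) (U : Submodule ℂ (Pol n)) : Function.Injective (inc p U) :=
  fun _ _ h => funext fun i => Subtype.ext (congrFun h i)

theorem AE_le (c : Fin n → Fin N) (p : ℕ) (U : Submodule ℂ (Pol n)) :
    AE c p U ≤ LinearMap.range (inc p U) := fun Ψ h => ⟨fun i => ⟨Ψ i, h.2.2 i⟩, rfl⟩

instance (c : Fin n → Fin N) (p : ℕ) (U : Submodule ℂ (Pol n)) [FiniteDimensional ℂ U] :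
    FiniteDimensional ℂ (AE c p U) := Submodule.finiteDimensional_of_le (AE_le c p U)

theorem trace_pi {ι U : Type} [Fintype ι] [DecidableEq ι] [AddCommGroup U] [Module ℂ U]
    [FiniteDimensional ℂ U] (g : U →ₗ[ℂ] U) (π : ι → ι) :
    LinearMap.trace ℂ _ (LinearMap.pi fun i => g ∘ₗ LinearMap.proj (φ := fun _ => U) (π i)) =
      (∑ i, if π i = i then 1 else 0) * LinearMap.trace ℂ U g := by
  have e : (LinearMap.pi fun i => g ∘ₗ LinearMap.proj (φ := fun _ => U) (π i)) =
      ∑ i, LinearMap.single ℂ (fun _ => U) i ∘ₗ (g ∘ₗ LinearMap.proj (φ := fun _ => U) (π i)) := by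
    ext1 j
    ext1 v
    funext k
    simp [Pi.single_apply]
  rw [e, map_sum, Finset.sum_mul]
  refine Finset.sum_congr rfl fun i _ => ?_
  rw [LinearMap.trace_comp_comm', LinearMap.comp_assoc]
  split_ifs with h
  · rw [h, LinearMap.proj_comp_single_same]
    simp
  · rw [LinearMap.proj_comp_single_ne _ _ _ _ h]
    simp

theorem proj_trace {V : Type} [AddCommGroup V] [Module ℂ V] [FiniteDimensional ℂ V]
    {S : Submodule ℂ V} {f : V →ₗ[ℂ] V} (h : LinearMap.IsProj S f) :
    LinearMap.trace ℂ V f = Module.finrank ℂ S := h.trace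

theorem dim_AE (c : Fin n → Fin N) (p : ℕ) (U : Submodule ℂ (Pol n)) [FiniteDimensional ℂ U]
    (hU : ∀ σ, ∀ g ∈ U, act σ g ∈ U) :
    ∑ σ : Perm (Fin n) with ∀ i, c (σ i) = c i, ((sign σ : ℤ) : ℂ) * ee p σ * tr U σ =
      ((univ.filter fun σ : Perm (Fin n) => ∀ i, c (σ i) = c i).card * p.factorial : ℕ) *
        Module.finrank ℂ (AE c p U) := by
  classical
  set G := univ.filter fun σ : Perm (Fin n) => ∀ i, c (σ i) = c i with hG
  have hm : ∀ σ, σ ∈ G ↔ ∀ i, c (σ i) = c i := by simp [hG]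
  have hG1 : (1 : Perm (Fin n)) ∈ G := (hm _).2 fun _ => rfl
  have hGm : ∀ σ ∈ G, ∀ τ ∈ G, σ * τ ∈ G := fun σ h τ h' => (hm _).2 fun i => by
    rw [Perm.mul_apply, (hm _).1 h, (hm _).1 h']
  have hGi : ∀ σ ∈ G, σ⁻¹ ∈ G := fun σ h => (hm _).2 fun i => by
    rw [← (hm _).1 h (σ⁻¹ i)]
    simp
  let r : Perm (Fin n) → U →ₗ[ℂ] U := fun σ => (act σ).toLinearMap.restrict (hU σ)
  let R : Perm (Fin n) → Perm (Fin p) → ((Fin p → Fin n) → U) →ₗ[ℂ] (Fin p → Fin n) → U :=
    fun σ τ => LinearMap.pi fun i => r σ ∘ₗ LinearMap.proj (φ := fun _ => U) (⇑σ⁻¹ ∘ i ∘ ⇑τ)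
  let E := ∑ σ ∈ G, ∑ τ : Perm (Fin p), (((sign σ : ℤ) : ℂ) * ((sign τ : ℤ) : ℂ)) • R σ τ
  have hE : ∀ Ψ i, inc p U (E Ψ) i = ∑ σ ∈ G, ∑ τ : Perm (Fin p),
      (((sign σ : ℤ) : ℂ) * ((sign τ : ℤ) : ℂ)) • act σ (inc p U Ψ (⇑σ⁻¹ ∘ i ∘ ⇑τ)) := by
    intro Ψ i
    simp only [E, LinearMap.sum_apply, map_sum, LinearMap.smul_apply, map_smul, Finset.sum_apply,
      Pi.smul_apply]
    rfl
  have hk : ((G.card * p.factorial : ℕ) : ℂ) ≠ 0 := by
    exact_mod_cast mul_ne_zero (Finset.card_ne_zero.mpr ⟨1, hG1⟩) (Nat.factorial_ne_zero p)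
  have hP : LinearMap.IsProj ((AE c p U).comap (inc p U))
      (((G.card * p.factorial : ℕ) : ℂ)⁻¹ • E) := by
    constructor
    · intro Ψ
      rw [LinearMap.smul_apply]
      refine Submodule.smul_mem _ _ ⟨(alt_iff _).2 fun τ₀ i => ?_, fun σ₀ h₀ i => ?_,
        fun i => (E Ψ i).2⟩
      · rw [hE, hE, Finset.smul_sum]
        refine Finset.sum_congr rfl fun σ _ => ?_
        rw [Finset.smul_sum]
        refine Fintype.sum_equiv (Equiv.mulLeft τ₀) _ _ fun τ => ?_
        rw [smul_smul, Equiv.coe_mulLeft, Perm.sign_mul]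
        congr 1
        push_cast
        linear_combination (-((sign σ : ℤ) : ℂ) * ((sign τ : ℤ) : ℂ)) * sg_sq τ₀
      · rw [hE, hE, map_sum, Finset.smul_sum]
        symm
        have h₀' := (hm _).2 h₀
        refine Finset.sum_nbij' (fun σ => σ₀ * σ) (fun σ => σ₀⁻¹ * σ) (fun σ h => hGm _ h₀' _ h)
          (fun σ h => hGm _ (hGi _ h₀') _ h) (by simp) (by simp) fun σ _ => ?_
        rw [map_sum, Finset.smul_sum]
        refine Finset.sum_congr rfl fun τ _ => ?_
        have e : ⇑(σ₀ * σ)⁻¹ ∘ (⇑σ₀ ∘ i) ∘ ⇑τ = ⇑σ⁻¹ ∘ i ∘ ⇑τ := by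
          funext k
          simp
        rw [map_smul, smul_smul, act_mul, e, Perm.sign_mul]
        congr 1
        push_cast
        ring
    · intro Ψ hΨ
      obtain ⟨h1, h2, -⟩ : Alt (inc p U Ψ) ∧ Eqv c (inc p U Ψ) ∧ _ := hΨ
      rw [alt_iff] at h1
      apply inc_inj
      funext i
      rw [LinearMap.smul_apply, map_smul, Pi.smul_apply, hE, inv_smul_eq_iff₀ hk]
      have e : ∀ σ ∈ G, ∀ τ : Perm (Fin p), (((sign σ : ℤ) : ℂ) * ((sign τ : ℤ) : ℂ)) •
          act σ (inc p U Ψ (⇑σ⁻¹ ∘ i ∘ ⇑τ)) = inc p U Ψ i := by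
        intro σ hσ τ
        rw [mul_comm, mul_smul, ← h2 σ ((hm _).1 hσ)]
        have e : ⇑σ ∘ ⇑σ⁻¹ ∘ i ∘ ⇑τ = i ∘ τ := by
          funext k
          simp
        rw [e, h1, smul_smul, sg_sq, one_smul]
      rw [Finset.sum_congr rfl fun σ hσ => Finset.sum_congr rfl fun τ _ => e σ hσ τ]
      simp only [Finset.sum_const, card_univ, Fintype.card_perm, Fintype.card_fin, smul_smul]
      rw [Nat.cast_smul_eq_nsmul]
  have ht := proj_trace (V := (Fin p → Fin n) → U) hP
  rw [map_smul, smul_eq_mul, inv_mul_eq_iff_eq_mul₀ hk] at ht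
  have hd : Module.finrank ℂ ((AE c p U).comap (inc p U)) = Module.finrank ℂ (AE c p U) := by
    rw [LinearEquiv.finrank_eq (Submodule.equivMapOfInjective _ (inc_inj p U) _),
      Submodule.map_comap_eq_of_le (AE_le c p U)]
  rw [← hd, ← ht]
  simp only [E, map_sum, map_smul, smul_eq_mul, R, trace_pi, ee, Finset.mul_sum, Finset.sum_mul]
  refine Finset.sum_congr rfl fun σ _ => Finset.sum_congr rfl fun τ _ =>
    Finset.sum_congr rfl fun i _ => ?_
  have e : (⇑σ⁻¹ ∘ i ∘ ⇑τ = i) ↔ σ ∘ i = i ∘ τ := by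
    simp only [_root_.funext_iff, Function.comp, Perm.inv_eq_iff_eq]
    exact forall_congr' fun _ => eq_comm
  rw [tr, dif_pos (show ∀ g ∈ U, (act σ).toLinearMap g ∈ U from hU σ)]
  simp only [e, r]
  ring

end poly

section complex
open Equiv Equiv.Perm

variable {n N : ℕ}

/-- the differential as a linear map -/
def tdL (n p : ℕ) : ((Fin (p + 1) → Fin n) → Pol n) →ₗ[ℂ] (Fin p → Fin n) → Pol n where
  toFun := td yv
  map_add' Ψ Φ := by
    funext i
    simp [td, mul_add, Finset.sum_add_distrib]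
  map_smul' r Ψ := by
    funext i
    simp [td, Finset.smul_sum]

theorem tdL_apply {p : ℕ} (Ψ : (Fin (p + 1) → Fin n) → Pol n) (i : Fin p → Fin n) :
    tdL n p Ψ i = ∑ s, yv s * Ψ (Fin.cons s i) := rfl

theorem td_alt {p : ℕ} {Ψ : (Fin (p + 1) → Fin n) → Pol n} (h : Alt Ψ) : Alt (tdL n p Ψ) := by
  rw [alt_iff] at h ⊢
  intro τ i
  rw [tdL_apply, tdL_apply, Finset.smul_sum]
  refine Finset.sum_congr rfl fun s _ => ?_
  have e : (Fin.cons s (i ∘ τ) : Fin (p + 1) → Fin n) =
      (Fin.cons s i : Fin (p + 1) → Fin n) ∘ (decomposeFin.symm (0, τ)) := by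
    funext k
    refine Fin.cases ?_ (fun k => ?_) k <;> simp
  rw [e, h, decomposeFin.symm_sign]
  simp

theorem td_eqv {p : ℕ} {c : Fin n → Fin N} {Ψ : (Fin (p + 1) → Fin n) → Pol n} (h : Eqv c Ψ) :
    Eqv c (tdL n p Ψ) := by
  intro σ hσ i
  rw [tdL_apply, tdL_apply, map_sum, Finset.smul_sum]
  symm
  refine Fintype.sum_equiv σ _ _ fun s => ?_
  have e : (Fin.cons (σ s) (σ ∘ i) : Fin (p + 1) → Fin n) =
      σ ∘ (Fin.cons s i : Fin (p + 1) → Fin n) := by
    funext k
    refine Fin.cases ?_ (fun k => ?_) k <;> simp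
  rw [e, h σ hσ, map_mul, act_yv, mul_smul_comm]

theorem td_td {p : ℕ} {Ψ : (Fin (p + 2) → Fin n) → Pol n} (h : Alt Ψ) :
    tdL n p (tdL n (p + 1) Ψ) = 0 := by
  rw [alt_iff] at h
  funext i
  have e : tdL n p (tdL n (p + 1) Ψ) i = -tdL n p (tdL n (p + 1) Ψ) i := by
    simp only [tdL_apply, Finset.mul_sum, ← Finset.sum_neg_distrib]
    rw [Finset.sum_comm]
    refine Finset.sum_congr rfl fun s _ => Finset.sum_congr rfl fun t _ => ?_
    have e : (Fin.cons s (Fin.cons t i : Fin (p + 1) → Fin n) : Fin (p + 2) → Fin n) =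
        (Fin.cons t (Fin.cons s i : Fin (p + 1) → Fin n) : Fin (p + 2) → Fin n) ∘ swap 0 1 := by
      funext k
      refine Fin.cases ?_ (fun k => Fin.cases ?_ (fun k => ?_) k) k
      · simp
      · simp
      · simp only [Function.comp]
        rw [swap_apply_of_ne_of_ne (Fin.succ_ne_zero _) (Fin.succ_succ_ne_one _)]
        simp
    rw [e, h, sign_swap (by simp)]
    simp
    ring
  have e2 : (2 : ℂ) • tdL n p (tdL n (p + 1) Ψ) i = 0 := by
    rw [two_smul]
    nth_rewrite 1 [e]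
    simp
  simpa using e2

theorem td_AE {p : ℕ} {c : Fin n → Fin N} {U V : Submodule ℂ (Pol n)}
    (h : ∀ r, ∀ g ∈ U, yv r * g ∈ V) {Ψ : (Fin (p + 1) → Fin n) → Pol n}
    (hΨ : Ψ ∈ AE c (p + 1) U) : tdL n p Ψ ∈ AE c p V :=
  ⟨td_alt hΨ.1, td_eqv hΨ.2.1, fun i => by
    rw [tdL_apply]
    exact V.sum_mem fun s _ => h s _ (hΨ.2.2 _)⟩

theorem cp_AE {p : ℕ} {c : Fin n → Fin N} {Ψ : (Fin p → Fin n) → Pol n} (h1 : Alt Ψ)
    (h2 : Eqv c Ψ) (a b : ℕ) : (fun i => cp (a, b) (Ψ i)) ∈ AE c p (Bi n a b) := by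
  rw [alt_iff] at h1
  refine ⟨(alt_iff _).2 fun τ i => ?_, fun σ hσ i => ?_, fun i => cp_mem _ _ _⟩
  · simp only [h1, map_smul]
  · simp only [h2 σ hσ, map_smul, cp_act]

theorem Kn_mul {ν : Fin n → ℕ × ℕ} (f : Pol n) {g : Pol n} (h : g ∈ Kn ν) : f * g ∈ Kn ν := by
  rw [Kn, LinearMap.mem_ker] at h ⊢
  refine LinearMap.ext fun k => ?_
  have := LinearMap.congr_fun h (f * k)
  simp only [bil, LinearMap.compr₂_apply, LinearMap.mul_apply', LinearMap.zero_apply] at this ⊢
  rw [← this]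
  congr 1
  ring

theorem dim_step {V W : Type} [AddCommGroup V] [Module ℂ V] [AddCommGroup W] [Module ℂ W]
    (f : V →ₗ[ℂ] W) (A : Submodule ℂ V) (B : Submodule ℂ W) [FiniteDimensional ℂ A]
    [FiniteDimensional ℂ B] :
    Module.finrank ℂ A + Module.finrank ℂ B =
      Module.finrank ℂ ↥(A ⊓ B.comap f) + Module.finrank ℂ ↥(A.map f ⊔ B) := by
  have h1 := Submodule.finrank_sup_add_finrank_inf_eq (A.map f) B
  have h2 := LinearMap.finrank_range_add_finrank_ker (f.domRestrict A)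
  have h3 := LinearMap.finrank_range_add_finrank_ker (f.domRestrict (A ⊓ B.comap f))
  rw [LinearMap.range_domRestrict] at h2 h3
  have e1 : (A ⊓ B.comap f).map f = A.map f ⊓ B := by
    ext w
    simp only [Submodule.mem_map, Submodule.mem_inf, Submodule.mem_comap]
    constructor
    · rintro ⟨v, ⟨h, h'⟩, rfl⟩
      exact ⟨⟨v, h, rfl⟩, h'⟩
    · rintro ⟨⟨v, h, rfl⟩, h'⟩
      exact ⟨v, ⟨h, h'⟩, rfl⟩
  have e2 : Module.finrank ℂ (LinearMap.ker (f.domRestrict (A ⊓ B.comap f))) =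
      Module.finrank ℂ (LinearMap.ker (f.domRestrict A)) := by
    rw [← Submodule.finrank_map_subtype_eq, ← Submodule.finrank_map_subtype_eq,
      LinearMap.ker_domRestrict, LinearMap.ker_domRestrict, Submodule.map_comap_subtype,
      Submodule.map_comap_subtype]
    have e : A ⊓ B.comap f ⊓ LinearMap.ker f = A ⊓ LinearMap.ker f := by
      refine le_antisymm (inf_le_inf_right _ inf_le_left) fun v hv => ⟨⟨hv.1, ?_⟩, hv.2⟩
      have : f v = 0 := hv.2
      simp [this]
    rw [e]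
  rw [e1, e2] at h3
  omega

/-- cycles modulo `K` -/
def ZZ (K : Submodule ℂ (Pol n)) (c : Fin n → Fin N) (a : ℕ) :
    (p : ℕ) → ℕ → Submodule ℂ ((Fin p → Fin n) → Pol n)
  | 0, b => AE c 0 (Bi n a b)
  | p + 1, b => AE c (p + 1) (Bi n a b) ⊓ (AE c p (K ⊓ Bi n a (b + 1))).comap (tdL n p)

theorem ZZ_le (K : Submodule ℂ (Pol n)) (c : Fin n → Fin N) (a p b : ℕ) :
    ZZ K c a p b ≤ AE c p (Bi n a b) := by
  cases p with
  | zero => exact le_rfl
  | succ p => exact inf_le_left

theorem ZZ_lift {ν : Fin n → ℕ × ℕ} {c : Fin n → Fin N} (hX : KX ν c) {a p b : ℕ}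
    {Ψ : (Fin p → Fin n) → Pol n} (h : Ψ ∈ ZZ (Kn ν) c a p b) :
    ∃ Φ : (Fin (p + 1) → Fin n) → Pol n, Alt Φ ∧ Eqv c Φ ∧ ∀ i, Ψ i - tdL n p Φ i ∈ Kn ν := by
  cases p with
  | zero => exact hX.1 Ψ h.2.1
  | succ p => exact hX.2 p Ψ h.1.1 h.1.2.1 fun i => (h.2.2.2 i).1

theorem le_ZZ (ν : Fin n → ℕ × ℕ) (c : Fin n → Fin N) (a p b : ℕ) :
    AE c p (Kn ν ⊓ Bi n a b) ≤ ZZ (Kn ν) c a p b := by
  cases p with
  | zero => exact AE_mono _ _ inf_le_right
  | succ p =>
    exact fun Ψ h => ⟨AE_mono _ _ inf_le_right h,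
      td_AE (U := Kn ν ⊓ Bi n a b) (V := Kn ν ⊓ Bi n a (b + 1))
        (fun r g hg => ⟨Kn_mul _ hg.1, yv_mem r hg.2⟩) h⟩

theorem ZZ_zero {ν : Fin n → ℕ × ℕ} {c : Fin n → Fin N} (hK : GrSt (Kn ν)) (hX : KX ν c)
    (a p : ℕ) : ZZ (Kn ν) c a p 0 = AE c p (Kn ν ⊓ Bi n a 0) := by
  refine le_antisymm (fun Ψ h => ?_) (le_ZZ _ _ _ _ _)
  obtain ⟨Φ, -, -, h3⟩ := ZZ_lift hX h
  have h' := ZZ_le _ _ _ _ _ h
  refine ⟨h'.1, h'.2.1, fun i => ⟨?_, h'.2.2 i⟩⟩
  have := hK.2 _ (h3 i) (a, 0)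
  rw [map_sub, cp_of_mem (h'.2.2 i), if_pos rfl, tdL_apply, map_sum] at this
  simp only [cp_yv0, Finset.sum_const_zero, sub_zero] at this
  exact this

theorem ZZ_succ {ν : Fin n → ℕ × ℕ} {c : Fin n → Fin N} (hK : GrSt (Kn ν)) (hX : KX ν c)
    (a p b : ℕ) : ZZ (Kn ν) c a p (b + 1) =
      (AE c (p + 1) (Bi n a b)).map (tdL n p) ⊔ AE c p (Kn ν ⊓ Bi n a (b + 1)) := by
  refine le_antisymm (fun Ψ h => ?_) (sup_le ?_ (le_ZZ _ _ _ _ _))
  · obtain ⟨Φ, h1, h2, h3⟩ := ZZ_lift hX h
    have h' := ZZ_le _ _ _ _ _ h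
    have k := cp_AE h1 h2 a b
    have k' := (AE c p _).sub_mem h' (td_AE (fun r g hg => yv_mem r hg) k)
    refine Submodule.mem_sup.2 ⟨_, ⟨_, k, rfl⟩, _, ⟨k'.1, k'.2.1, fun i => ⟨?_, k'.2.2 i⟩⟩,
      add_sub_cancel _ _⟩
    have := hK.2 _ (h3 i) (a, b + 1)
    rw [map_sub, cp_of_mem (h'.2.2 i), if_pos rfl, tdL_apply, map_sum] at this
    simp only [cp_yv] at this
    exact this
  · rintro _ ⟨Φ, h, rfl⟩
    have k := td_AE (fun r g hg => yv_mem r hg) h
    cases p with
    | zero => exact k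
    | succ p =>
      refine ⟨k, ?_⟩
      rw [SetLike.mem_coe, Submodule.mem_comap, td_td h.1]
      exact Submodule.zero_mem _

theorem euler {ν : Fin n → ℕ × ℕ} {c : Fin n → Fin N} (hK : GrSt (Kn ν)) (hX : KX ν c) (a B : ℕ) :
    ∑ p ∈ range (B + 1), (-1 : ℂ) ^ p * (Module.finrank ℂ (AE c p (Bi n a (B - p))) -
      Module.finrank ℂ (AE c p (Kn ν ⊓ Bi n a (B - p)))) = 0 := by
  have key : ∀ q, q ≤ B → ∑ p ∈ range (q + 1), (-1 : ℂ) ^ p *
      (Module.finrank ℂ (AE c p (Bi n a (B - p))) -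
        Module.finrank ℂ (AE c p (Kn ν ⊓ Bi n a (B - p)))) =
      (-1) ^ q * (Module.finrank ℂ (ZZ (Kn ν) c a q (B - q)) -
        Module.finrank ℂ (AE c q (Kn ν ⊓ Bi n a (B - q)))) := by
    intro q
    induction q with
    | zero =>
      intro _
      rw [Finset.sum_range_one]
      rfl
    | succ q ih =>
      intro hq
      rw [Finset.sum_range_succ, ih (by omega), show B - q = B - (q + 1) + 1 by omega, ZZ_succ hK hX]
      have h := dim_step (tdL n q) (AE c (q + 1) (Bi n a (B - (q + 1))))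
        (AE c q (Kn ν ⊓ Bi n a (B - (q + 1) + 1)))
      have h' := congrArg (Nat.cast : ℕ → ℂ) h
      push_cast at h'
      change _ = (Module.finrank ℂ (ZZ (Kn ν) c a (q + 1) (B - (q + 1))) : ℂ) + _ at h'
      linear_combination (-(-1 : ℂ) ^ q) * h'
  rw [key B le_rfl, Nat.sub_self, ZZ_zero hK hX]
  simp

end complex

end MEulAux

open MEulAux in
theorem eul : S_Eul := by
  intro n N ν c hK hb hX a
  ext B
  have hq : ∀ σ b, (∑ b ∈ range (dy ν + 1), Polynomial.C (qtr ν a b σ) * Polynomial.X ^ b).coeff b =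
      qtr ν a b σ := by
    intro σ b
    simp only [Polynomial.finsetSum_coeff, Polynomial.coeff_C_mul_X_pow, Finset.sum_ite_eq,
      mem_range]
    split_ifs with h
    · rfl
    · rw [qtr, inf_eq_right.mpr (hb a b (by omega)), sub_self]
  rw [Polynomial.finsetSum_coeff, Polynomial.coeff_zero]
  simp only [mul_assoc, Polynomial.coeff_C_mul]
  simp only [Polynomial.coeff_mul, hq, Finset.Nat.sum_antidiagonal_eq_sum_range_succ_mk]
  simp only [Finset.mul_sum]
  rw [Finset.sum_comm, ← mul_zero ((univ.filter fun σ : Equiv.Perm (Fin n) =>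
    ∀ i, c (σ i) = c i).card : ℂ), ← euler hK hX a B, Finset.mul_sum]
  refine Finset.sum_congr rfl fun p _ => ?_
  have hp : (p.factorial : ℂ) ≠ 0 := by exact_mod_cast Nat.factorial_ne_zero p
  apply mul_left_cancel₀ hp
  have h1 := dim_AE c p (Bi n a (B - p)) fun σ g hg => act_mem σ hg
  have h2 := dim_AE c p (Kn ν ⊓ Bi n a (B - p)) fun σ g hg => ⟨hK.1 σ g hg.1, act_mem σ hg.2⟩
  push_cast at h1 h2
  rw [Finset.mul_sum]
  refine Eq.trans (b := (-1) ^ p * (∑ σ : Equiv.Perm (Fin n) with ∀ i, c (σ i) = c i,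
      ((Equiv.Perm.sign σ : ℤ) : ℂ) * ee p σ * tr (Bi n a (B - p)) σ -
    ∑ σ : Equiv.Perm (Fin n) with ∀ i, c (σ i) = c i,
      ((Equiv.Perm.sign σ : ℤ) : ℂ) * ee p σ * tr (Kn ν ⊓ Bi n a (B - p)) σ)) ?_ ?_
  · rw [← Finset.sum_sub_distrib, Finset.mul_sum]
    refine Finset.sum_congr rfl fun σ _ => ?_
    rw [qtr]
    linear_combination (((Equiv.Perm.sign σ : ℤ) : ℂ) * (tr (Bi n a (B - p)) σ -
      tr (Kn ν ⊓ Bi n a (B - p)) σ)) * coeff_parts σ p
  · rw [h1, h2]
    ring

end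

end Pool.Agent.P.MP_c2aaf5_co
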