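import Pool.Agent.P.MP_c2aaf5_co.DefM

/-! The bigraded Frobenius characteristic satisfies the Macdonald conditions. -/

namespace Pool.Agent.P.MP_c2aaf5_co

open MvPolynomial Finset

noncomputable section

namespace MMacAux

variable {m : ℕ}

/-! ### exchanging `x` and `y` -/

def om (m : ℕ) : Pol m ≃ₗ[ℂ] Pol m := (renameEquiv ℂ (Equiv.sumComm (Fin m) (Fin m))).toLinearEquiv

theorem om_apply (g : Pol m) : om m g = rename Sum.swap g := rfl

theorem om_om (g : Pol m) : om m (om m g) = g := by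
  rw [om_apply, om_apply, rename_rename, Sum.swap_swap_eq, rename_id]; rfl

theorem om_act (σ : Equiv.Perm (Fin m)) (g : Pol m) : om m (act σ g) = act σ (om m g) := by
  rw [om_apply, om_apply, act, rename_rename, rename_rename]
  congr 2
  funext x; cases x <;> rfl

theorem tr_om {U U' : Submodule ℂ (Pol m)} (h : ∀ g ∈ U, om m g ∈ U') (h' : ∀ g ∈ U', om m g ∈ U)
    (σ : Equiv.Perm (Fin m)) : tr U' σ = tr U σ := by
  have hm : U.map (om m : Pol m →ₗ[ℂ] Pol m) = U' := by
    ext g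
    refine ⟨by rintro ⟨g, hg, rfl⟩; exact h g hg, fun hg => ⟨om m g, h' g hg, om_om g⟩⟩
  unfold tr
  by_cases a : ∀ g ∈ U, (act σ).toLinearMap g ∈ U
  · have a' : ∀ g ∈ U', (act σ).toLinearMap g ∈ U' := fun g hg => by
      have := h _ (a _ (h' g hg))
      rwa [AlgHom.toLinearMap_apply, om_act, om_om] at this
    rw [dif_pos a, dif_pos a', ← LinearMap.trace_conj' _ ((om m).ofSubmodules U U' hm)]
    congr 1
    ext g
    simp only [LinearEquiv.conj_apply, LinearMap.comp_apply, LinearEquiv.coe_coe,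
      LinearEquiv.ofSubmodules_apply, LinearMap.coe_restrict_apply, AlgHom.toLinearMap_apply,
      LinearEquiv.ofSubmodules_symm_apply, om_act, LinearEquiv.apply_symm_apply]
  · rw [dif_neg a, dif_neg]
    intro a'
    refine a fun g hg => ?_
    have := h' _ (a' _ (h g hg))
    rwa [AlgHom.toLinearMap_apply, om_act, om_om] at this

theorem om_Bi {a b : ℕ} {g : Pol m} (h : g ∈ Bi m a b) : om m g ∈ Bi m b a := by
  intro d hd
  obtain ⟨u, rfl, hu⟩ := coeff_rename_ne_zero _ _ _ hd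
  have h1 := h hu
  have : ∀ u : Fin m ⊕ Fin m →₀ ℕ,
      Finsupp.weight (Sum.elim (fun _ => (1, 0)) fun _ => ((0, 1) : ℕ × ℕ)) (u.mapDomain Sum.swap) =
      (Finsupp.weight (Sum.elim (fun _ => (1, 0)) fun _ => ((0, 1) : ℕ × ℕ)) u).swap := by
    intro u
    induction u using Finsupp.induction_linear with
    | zero => simp
    | add u v hu hv => rw [Finsupp.mapDomain_add, map_add, map_add, hu, hv]; rfl
    | single i c => cases i <;> simp [Finsupp.weight_single]
  exact (this u).trans (by rw [h1]; rfl)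

theorem om_Der {D g : Pol m} (h : g ∈ Der D) : om m g ∈ Der (om m D) := by
  have : Der D ≤ (Der (om m D)).comap (om m : Pol m →ₗ[ℂ] Pol m) := by
    refine Submodule.span_le.2 ?_
    rintro _ ⟨l, rfl⟩
    refine Submodule.subset_span ⟨l.map Sum.swap, ?_⟩
    induction l with
    | nil => rfl
    | cons v l ih =>
      rw [List.map_cons, List.foldr_cons, List.foldr_cons, ← ih]
      exact (pderiv_rename (Equiv.sumComm (Fin m) (Fin m)).injective v _).symm
  exact this h

theorem om_Delta (e : Fin m → ℕ × ℕ) : om m (Delta e) = Dl e := by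
  rw [om_apply, Dl, Delta, Delta, AlgHom.map_det]
  congr 1
  ext r s : 2
  simp [mul_comm]

theorem chg_swap (u v : QT) (e : Fin m → ℕ × ℕ) (σ : Equiv.Perm (Fin m)) :
    chg u v (Der (Delta e)) σ = chg v u (Der (Dl e)) σ := by
  unfold chg
  rw [← finsum_comp_equiv (Equiv.prodComm ℕ ℕ)]
  refine finsum_congr fun ab => ?_
  rw [← tr_om (U := Der (Dl e) ⊓ Bi m ab.1 ab.2) (U' := Der (Delta e) ⊓ Bi m ab.2 ab.1)
    (fun g hg => ⟨?_, om_Bi hg.2⟩) fun g hg => ⟨?_, om_Bi hg.2⟩, mul_comm (v ^ _)]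
  · rfl
  · have := om_Der hg.1
    rwa [← om_Delta, om_om] at this
  · exact om_Delta e ▸ om_Der hg.1

/-! ### colourings -/

/-- the cycle type as a partition of `m` -/
def ty (σ : Equiv.Perm (Fin m)) : m.Partition :=
  ⟨σ.partition.parts, σ.partition.parts_pos, by rw [σ.partition.parts_sum, Fintype.card_fin]⟩

theorem sum_ty (w : Equiv.Perm (Fin m) → QT) (F : Multiset ℕ → QT) :
    ∑ l : m.Partition, ((∑ σ with ty σ = l, w σ) * F l.parts) • psumPart (Fin (m + 1)) QT l =
      ∑ σ, (w σ * F σ.partition.parts) • psumPart (Fin (m + 1)) QT σ.partition := by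
  rw [← sum_fiberwise univ ty]
  refine sum_congr rfl fun l _ => ?_
  rw [sum_mul, sum_smul]
  refine sum_congr rfl fun σ hσ => ?_
  rw [← (mem_filter.1 hσ).2]
  rfl

theorem prod_X_eq {N : ℕ} (c : Fin m → Fin N) : ∏ i, (X (c i) : MvPolynomial (Fin N) QT) =
    monomial (∑ i, Finsupp.single (c i) 1) 1 := by
  rw [monomial_sum_one]; rfl

theorem coeff_sum_psum (hP : S_Psum) (w : Equiv.Perm (Fin m) → QT) (d : Fin (m + 1) →₀ ℕ) :
    coeff d (∑ σ, w σ • psumPart (Fin (m + 1)) QT σ.partition) =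
      ∑ c : Fin m → Fin (m + 1) with ∑ i, Finsupp.single (c i) 1 = d,
        ∑ σ : Equiv.Perm (Fin m) with ∀ i, c (σ i) = c i, w σ := by
  simp only [coeff_sum, coeff_smul, hP m (m + 1) QT, prod_X_eq, smul_eq_mul, sum_filter, mul_sum]
  rw [sum_comm]
  refine sum_congr rfl fun c _ => ?_
  split_ifs with h
  · refine sum_congr rfl fun σ _ => ?_
    split_ifs <;> simp [h]
  · refine sum_eq_zero fun σ _ => ?_
    split_ifs <;> simp [coeff_monomial, h]

theorem sum_content {N : ℕ} (c : Fin m → Fin N) (S : Finset (Fin N)) :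
    ∑ j ∈ S, (∑ i, Finsupp.single (c i) 1 : Fin N →₀ ℕ) j = (univ.filter fun i => c i ∈ S).card := by
  simp only [Finsupp.finsetSum_apply, Finsupp.single_apply]
  rw [sum_comm, card_filter]
  exact sum_congr rfl fun i _ => sum_ite_eq S (c i) fun _ => 1

theorem dom (hP : S_Psum) (hT : S_T2) {ν : Fin m → ℕ × ℕ} (hν : IsDiag ν) (u : QT) {v : QT}
    (hv : v ≠ 0) {len : ℕ → ℕ}
    (hl : ∀ k, (univ.filter fun i => (ν i).2 < k).card = ∑ j ∈ range k, len j)
    (d : Fin (m + 1) →₀ ℕ) (h : coeff d (pleth v fun l =>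
      ∑ σ with ty σ = l, chg u v (Der (Dl ν)) σ / m.factorial) ≠ 0) : Dom d len := by
  intro S
  by_contra hS
  refine h ?_
  rw [pleth, sum_ty _ fun s => (s.map fun k => v ^ k - 1).prod, coeff_sum_psum hP]
  refine sum_eq_zero fun c hc => ?_
  have h1 := (hT m ν hν u v).2 (m + 1) c ⟨S, by
    rw [hl, ← sum_content, (mem_filter.1 hc).2]; exact not_le.1 hS⟩ hv
  simp only [div_mul_eq_mul_div, ← sum_div, mul_comm (chg _ _ _ _), h1, zero_div]

theorem card_lt {ν : YoungDiagram} {e : Fin m → ℕ × ℕ} (h : Lists e ν) (π : ℕ × ℕ → ℕ) (k : ℕ) :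
    (univ.filter fun i => π (e i) < k).card =
      ∑ j ∈ range k, (ν.cells.filter fun c => π c = j).card := by
  rw [card_eq_sum_card_fiberwise (f := fun i => π (e i)) (t := range k)
    fun i hi => by simpa using hi]
  refine sum_congr rfl fun j hj => card_bij (fun i _ => e i) (fun i hi => ?_)
    (fun a _ b _ hab => h.1 hab) fun c hc => ?_
  · exact mem_filter.2 ⟨(h.2 _).2 ⟨i, rfl⟩, (mem_filter.1 hi).2⟩
  · obtain ⟨a, b⟩ := mem_filter.1 hc
    obtain ⟨i, rfl⟩ := (h.2 _).1 a
    exact ⟨i, mem_filter.2 ⟨mem_filter.2 ⟨mem_univ _, b ▸ mem_range.1 hj⟩, b⟩, rfl⟩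

theorem isDiag {ν : YoungDiagram} {e : Fin m → ℕ × ℕ} (h : Lists e ν) :
    IsDiag e ∧ IsDiag fun i => (e i).swap := by
  have h1 : ∀ i, ∀ c ≤ e i, ∃ j, e j = c := fun i c hc =>
    (h.2 _).1 (ν.isLowerSet hc ((h.2 _).2 ⟨i, rfl⟩))
  refine ⟨⟨h.1, h1⟩, Prod.swap_injective.comp h.1, fun i c hc => ?_⟩
  obtain ⟨j, hj⟩ := h1 i c.swap ⟨hc.2, hc.1⟩
  exact ⟨j, by simp [hj]⟩

theorem X_ne (i : Fin 2) : algebraMap (MvPolynomial (Fin 2) ℂ) QT (X i) ≠ 0 :=
  (map_ne_zero_iff _ (IsFractionRing.injective _ _)).2 (X_ne_zero i)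

end MMacAux

open MMacAux in
theorem mac : S_T2 → S_Psum → S_Frob → S_Mac := by
  intro hT hP hF m ν e h
  obtain ⟨h1, h2⟩ := isDiag h
  have e1 : Delta e = Dl fun i => (e i).swap := rfl
  refine ⟨fun l => ∑ σ with ty σ = l, chg qq tt (Der (Delta e)) σ / m.factorial, ?_, ?_, ?_, ?_⟩
  · simpa only [mul_one, ← hF m e _ le_rfl] using
      (sum_ty (fun σ => chg qq tt (Der (Delta e)) σ / m.factorial) fun _ => 1).symm
  · simp only [chg_swap]
    refine dom hP hT h1 tt (X_ne 0) fun k => ?_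
    simp only [card_lt h Prod.snd, YoungDiagram.colLen_eq_card, YoungDiagram.col]
  · rw [e1]
    refine dom hP hT h2 qq (X_ne 1) fun k => ?_
    simp only [Prod.snd_swap, card_lt h Prod.fst, YoungDiagram.rowLen_eq_card, YoungDiagram.row]
  · rw [hF m e _ le_rfl, coeff_sum_psum hP, sum_eq_single_of_mem (fun _ => 0)]
    · have hm : (m.factorial : QT) ≠ 0 := by
        have : CharZero QT := algebraRat.charZero QT
        exact_mod_cast m.factorial_ne_zero
      rw [filter_true_of_mem fun _ _ _ => rfl, ← sum_div, e1, (hT m _ h2 qq tt).1, div_self hm]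
    · simp
    · intro c hc hne
      refine (hne (funext fun i => ?_)).elim
      have h3 := sum_content c {0}
      rw [(mem_filter.1 hc).2, sum_singleton, Finsupp.single_eq_same] at h3
      have h4 := eq_univ_of_card _ (h3.symm.trans (Fintype.card_fin m).symm)
      simpa using Finset.ext_iff.1 h4 i

end

end Pool.Agent.P.MP_c2aaf5_co
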