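import Pool.Agent.P.MP_c2aaf5_co.DefM

/-! The map `f ↦ f(∂) Δ` and traces on images of graded stable subspaces. -/

namespace Pool.Agent.P.MP_c2aaf5_co

open MvPolynomial Finset

noncomputable section

namespace MPhiAux

variable {n : ℕ}

/-- the product of the factorials of the exponents -/
def fac (d : (Fin n ⊕ Fin n) →₀ ℕ) : ℂ := ∏ i, ((d i).factorial : ℂ)

lemma fac_ne (d : (Fin n ⊕ Fin n) →₀ ℕ) : fac d ≠ 0 := by
  unfold fac
  exact prod_ne_zero_iff.2 fun i _ => Nat.cast_ne_zero.2 (Nat.factorial_ne_zero _)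

lemma fac_add_single (d : (Fin n ⊕ Fin n) →₀ ℕ) (v : Fin n ⊕ Fin n) :
    fac (d + Finsupp.single v 1) = fac d * (d v + 1) := by
  classical
  unfold fac
  rw [← mul_prod_erase univ _ (mem_univ v), ← mul_prod_erase univ (fun i => ((d i).factorial : ℂ))
    (mem_univ v)]
  have h1 : ∏ i ∈ univ.erase v, (((d + Finsupp.single v 1 : (Fin n ⊕ Fin n) →₀ ℕ) i).factorial : ℂ)
      = ∏ i ∈ univ.erase v, ((d i).factorial : ℂ) := by
    refine prod_congr rfl fun i hi => ?_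
    have hne : i ≠ v := (mem_erase.1 hi).1
    simp [hne.symm]
  rw [h1]
  simp only [Finsupp.add_apply, Finsupp.single_eq_same, Nat.factorial_succ]
  push_cast
  ring

/-- the permutation of the variables -/
def sp (σ : Equiv.Perm (Fin n)) : (Fin n ⊕ Fin n) ≃ (Fin n ⊕ Fin n) := Equiv.sumCongr σ σ

lemma sp_coe (σ : Equiv.Perm (Fin n)) : (sp σ : (Fin n ⊕ Fin n) → _) = Sum.map σ σ := rfl

lemma fac_map (σ : Equiv.Perm (Fin n)) (d : (Fin n ⊕ Fin n) →₀ ℕ) :
    fac (d.mapDomain (sp σ)) = fac d := by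
  unfold fac
  simp only [Finsupp.mapDomain_equiv_apply]
  exact Equiv.prod_comp (sp σ).symm fun i => ((d i).factorial : ℂ)

lemma fac_mono (ν : Fin n → ℕ × ℕ) (σ : Equiv.Perm (Fin n)) : fac (mono (ν ∘ σ)) = fac (mono ν) := by
  unfold fac mono
  simp only [Fintype.prod_sum_type, Finsupp.equivFunOnFinite_symm_apply_apply, Sum.elim_inl,
    Sum.elim_inr, Function.comp_apply]
  rw [Equiv.prod_comp σ fun i => (((ν i).1).factorial : ℂ),
    Equiv.prod_comp σ fun i => (((ν i).2).factorial : ℂ)]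

lemma lam_apply (ν : Fin n → ℕ × ℕ) (g : Pol n) :
    lam ν g = ∑ σ : Equiv.Perm (Fin n), ((Equiv.Perm.sign σ : ℤ) : ℂ) * coeff (mono (ν ∘ σ)) g := by
  unfold lam
  simp [LinearMap.sum_apply]

/-- the exponents that can occur -/
def TS (ν : Fin n → ℕ × ℕ) : Finset ((Fin n ⊕ Fin n) →₀ ℕ) :=
  univ.biUnion fun σ : Equiv.Perm (Fin n) => Iic (mono (ν ∘ σ))

lemma lam_zero (ν : Fin n → ℕ × ℕ) (f : Pol n) (d : (Fin n ⊕ Fin n) →₀ ℕ) (hd : d ∉ TS ν) :
    lam ν (f * monomial d 1) = 0 := by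
  classical
  rw [lam_apply]
  refine sum_eq_zero fun σ _ => ?_
  rw [coeff_mul_monomial', if_neg, mul_zero]
  intro h
  exact hd (mem_biUnion.2 ⟨σ, mem_univ _, mem_Iic.2 h⟩)

/-- the normalised map -/
def Phi (ν : Fin n → ℕ × ℕ) : Pol n →ₗ[ℂ] Pol n :=
  ∑ d ∈ TS ν, (monomial d : ℂ →ₗ[ℂ] Pol n) ∘ₗ
    ((fac d)⁻¹ • (lam ν ∘ₗ LinearMap.mulRight ℂ (monomial d 1)))

lemma coeff_Phi (ν : Fin n → ℕ × ℕ) (f : Pol n) (d : (Fin n ⊕ Fin n) →₀ ℕ) :
    coeff d (Phi ν f) = (fac d)⁻¹ * lam ν (f * monomial d 1) := by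
  classical
  unfold Phi
  rw [LinearMap.sum_apply, coeff_sum]
  simp only [LinearMap.comp_apply, LinearMap.smul_apply, LinearMap.mulRight_apply, smul_eq_mul,
    coeff_monomial]
  rw [sum_ite_eq']
  split_ifs with h
  · rfl
  · rw [lam_zero ν f d h, mul_zero]

lemma apo_Phi (ν : Fin n → ℕ × ℕ) (f h : Pol n) : apo h (Phi ν f) = lam ν (f * h) := by
  unfold apo
  conv_rhs => rw [h.as_sum, mul_sum, map_sum]
  refine sum_congr rfl fun e _ => ?_
  rw [coeff_Phi]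
  have h1 : (monomial e (coeff e h) : Pol n) = coeff e h • monomial e 1 := by
    rw [smul_monomial, smul_eq_mul, mul_one]
  rw [h1, mul_smul_comm, map_smul, smul_eq_mul]
  have h2 := fac_ne e
  change fac e * _ * _ = _
  field_simp

lemma nondeg (g : Pol n) (hg : ∀ h, apo h g = 0) : g = 0 := by
  classical
  ext e
  have h1 := hg (monomial e 1)
  unfold apo at h1
  rw [support_monomial, if_neg one_ne_zero, sum_singleton, coeff_monomial, if_pos rfl, mul_one] at h1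
  exact (mul_eq_zero.1 h1).resolve_left (fac_ne e)

lemma Dl_eq (ν : Fin n → ℕ × ℕ) :
    Dl ν = ∑ σ : Equiv.Perm (Fin n), ((Equiv.Perm.sign σ : ℤ) : ℂ) • monomial (mono (ν ∘ σ)) 1 := by
  unfold Dl Delta
  rw [← Matrix.det_transpose, Matrix.det_apply]
  refine sum_congr rfl fun σ _ => ?_
  have h1 : ∏ i, (Matrix.of fun r s : Fin n => (X (Sum.inl r) ^ ((ν s).swap).2 *
      X (Sum.inr r) ^ ((ν s).swap).1 : Pol n)).transpose (σ i) i = monomial (mono (ν ∘ σ)) 1 := by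
    rw [monomial_eq, Finsupp.prod_fintype _ _ (by simp), Fintype.prod_sum_type, map_one, one_mul,
      ← prod_mul_distrib]
    refine prod_congr rfl fun i _ => ?_
    simp [mono]
  rw [h1, Units.smul_def, ← Int.cast_smul_eq_zsmul ℂ]

lemma Phi_one (ν : Fin n → ℕ × ℕ) : Dl ν = fac (mono ν) • Phi ν 1 := by
  classical
  ext d
  rw [coeff_smul, coeff_Phi, one_mul, lam_apply, Dl_eq, coeff_sum, smul_eq_mul, mul_sum, mul_sum]
  refine sum_congr rfl fun σ _ => ?_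
  rw [coeff_smul, coeff_monomial, coeff_monomial, smul_eq_mul]
  by_cases h : mono (ν ∘ σ) = d
  · rw [if_pos h, if_pos h.symm, ← h, fac_mono]
    have := fac_ne (mono ν)
    field_simp
  · rw [if_neg h, if_neg (Ne.symm h)]
    simp

lemma Phi_X (ν : Fin n → ℕ × ℕ) (f : Pol n) (v : Fin n ⊕ Fin n) :
    Phi ν (f * X v) = pderiv v (Phi ν f) := by
  ext d
  rw [coeff_pderiv, coeff_Phi, coeff_Phi, fac_add_single, mul_assoc f, X, monomial_mul, one_mul,
    add_comm d]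
  have h1 := fac_ne d
  have h2 : ((d v : ℂ) + 1) ≠ 0 := by exact_mod_cast Nat.succ_ne_zero (d v)
  field_simp

lemma Der_pderiv (D : Pol n) (v : Fin n ⊕ Fin n) (g : Pol n) (hg : g ∈ Der D) :
    pderiv v g ∈ Der D := by
  unfold Der at hg ⊢
  induction hg using Submodule.span_induction with
  | mem x hx =>
    obtain ⟨l, rfl⟩ := hx
    exact Submodule.subset_span ⟨v :: l, rfl⟩
  | zero => simp
  | add x y _ _ hx hy => rw [map_add]; exact Submodule.add_mem _ hx hy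
  | smul a x _ hx => rw [Derivation.map_smul]; exact Submodule.smul_mem _ a hx

lemma range_Phi (ν : Fin n → ℕ × ℕ) : LinearMap.range (Phi ν) = Der (Dl ν) := by
  apply le_antisymm
  · rintro _ ⟨f, rfl⟩
    induction f using MvPolynomial.induction_on with
    | C a =>
      have h1 : Phi ν (C a) = (a * (fac (mono ν))⁻¹) • Dl ν := by
        rw [Phi_one, smul_smul, mul_assoc, inv_mul_cancel₀ (fac_ne _), mul_one, ← map_smul,
          C_eq_smul_one]
      rw [h1]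
      exact Submodule.smul_mem _ _ (Submodule.subset_span ⟨[], rfl⟩)
    | add p q hp hq => rw [map_add]; exact Submodule.add_mem _ hp hq
    | mul_X p v hp => rw [Phi_X]; exact Der_pderiv _ _ _ hp
  · unfold Der
    rw [Submodule.span_le]
    rintro _ ⟨l, rfl⟩
    induction l with
    | nil => exact ⟨fac (mono ν) • 1, by rw [map_smul, ← Phi_one]; rfl⟩
    | cons v l ih =>
      obtain ⟨f, hf⟩ := ih
      exact ⟨f * X v, by rw [Phi_X, hf]; rfl⟩

lemma mem_Kn (ν : Fin n → ℕ × ℕ) (f : Pol n) : f ∈ Kn ν ↔ ∀ h, lam ν (f * h) = 0 := by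
  unfold Kn bil
  rw [LinearMap.mem_ker, LinearMap.ext_iff]
  simp

lemma ker_Phi (ν : Fin n → ℕ × ℕ) : LinearMap.ker (Phi ν) = Kn ν := by
  ext f
  rw [LinearMap.mem_ker, mem_Kn]
  constructor
  · intro hf h
    rw [← apo_Phi, hf]
    simp [apo]
  · intro hf
    exact nondeg _ fun h => by rw [apo_Phi, hf]

lemma sign_sq (σ : Equiv.Perm (Fin n)) :
    ((Equiv.Perm.sign σ : ℤ) : ℂ) * ((Equiv.Perm.sign σ : ℤ) : ℂ) = 1 := by
  rw [← Int.cast_mul, ← Units.val_mul, Int.units_mul_self]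
  simp

lemma act_Phi (hA : LamA) (ν : Fin n → ℕ × ℕ) (σ : Equiv.Perm (Fin n)) (f : Pol n) :
    act σ (Phi ν f) = ((Equiv.Perm.sign σ : ℤ) : ℂ) • Phi ν (act σ f) := by
  ext d
  obtain ⟨d', rfl⟩ : ∃ d' : (Fin n ⊕ Fin n) →₀ ℕ, d = d'.mapDomain (sp σ) := by
    refine ⟨d.mapDomain (sp σ).symm, ?_⟩
    rw [← Finsupp.mapDomain_comp]
    simp
  have h1 : coeff (d'.mapDomain (sp σ)) (act σ (Phi ν f)) = coeff d' (Phi ν f) :=
    coeff_rename_mapDomain _ (sp σ).injective _ _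
  have h2 : act σ f * monomial (d'.mapDomain (sp σ)) 1 = act σ (f * monomial d' 1) := by
    rw [map_mul]
    congr 1
    exact (rename_monomial _ _ _).symm
  rw [h1, coeff_smul, coeff_Phi, coeff_Phi, fac_map, h2, hA.act, smul_eq_mul]
  have h3 := sign_sq σ
  linear_combination (-((fac d')⁻¹ * lam ν (f * monomial d' 1))) * h3

/-- the weights -/
abbrev wt (n : ℕ) : Fin n ⊕ Fin n → ℕ × ℕ := Sum.elim (fun _ => (1, 0)) fun _ => ((0, 1) : ℕ × ℕ)

lemma deg_aux (hA : LamA) (ν : Fin n → ℕ × ℕ) (a b : ℕ) (f : Pol n) (hf : f ∈ Bi n a b)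
    (d : (Fin n ⊕ Fin n) →₀ ℕ) (hd : coeff d (Phi ν f) ≠ 0) :
    (a + (Finsupp.weight (wt n) d).1, b + (Finsupp.weight (wt n) d).2) = (dx ν, dy ν) := by
  by_contra hne
  apply hd
  rw [coeff_Phi, hA.deg ν _ _ _ _ hne, mul_zero]
  have h1 : IsWeightedHomogeneous (wt n) f (a, b) := hf
  have h2 : IsWeightedHomogeneous (wt n) (monomial d (1 : ℂ)) (Finsupp.weight (wt n) d) :=
    isWeightedHomogeneous_monomial _ _ _ rfl
  exact h1.mul h2

/-- trace along a short exact sequence -/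
lemma trace_ses {A B C : Type} [AddCommGroup A] [AddCommGroup B] [AddCommGroup C] [Module ℂ A]
    [Module ℂ B] [Module ℂ C] [FiniteDimensional ℂ A] [FiniteDimensional ℂ B]
    [FiniteDimensional ℂ C] (i : A →ₗ[ℂ] B) (p : B →ₗ[ℂ] C) (hi : Function.Injective i)
    (hp : Function.Surjective p) (hex : ∀ b, p b = 0 → ∃ a, i a = b) (hpi : ∀ a, p (i a) = 0)
    (fA : A →ₗ[ℂ] A) (fB : B →ₗ[ℂ] B) (fC : C →ₗ[ℂ] C) (s : ℂ)
    (h1 : ∀ a, fB (i a) = i (fA a)) (h2 : ∀ b, fC (p b) = s • p (fB b)) :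
    LinearMap.trace ℂ C fC = s * (LinearMap.trace ℂ B fB - LinearMap.trace ℂ A fA) := by
  obtain ⟨j, hj⟩ := p.exists_rightInverse_of_surjective (LinearMap.range_eq_top.2 hp)
  obtain ⟨r0, hr0⟩ := i.exists_leftInverse_of_injective (LinearMap.ker_eq_bot.2 hi)
  have hj' : ∀ c, p (j c) = c := fun c => LinearMap.congr_fun hj c
  have hr0' : ∀ a, r0 (i a) = a := fun a => LinearMap.congr_fun hr0 a
  let r : B →ₗ[ℂ] A := r0 ∘ₗ (LinearMap.id - j ∘ₗ p)
  have hir : ∀ b, i (r b) = b - j (p b) := by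
    intro b
    obtain ⟨a, ha⟩ := hex (b - j (p b)) (by rw [map_sub, hj', sub_self])
    change i (r0 (b - j (p b))) = _
    rw [← ha, hr0']
  have hri : ∀ a, r (i a) = a := by
    intro a
    change r0 (i a - j (p (i a))) = a
    rw [hpi, map_zero, sub_zero, hr0']
  have e1 : fB = (fB ∘ₗ i) ∘ₗ r + (fB ∘ₗ j) ∘ₗ p := by
    ext b
    simp only [LinearMap.add_apply, LinearMap.comp_apply]
    rw [hir, ← map_add, sub_add_cancel]
  have e2 : r ∘ₗ (fB ∘ₗ i) = fA := by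
    ext a
    simp only [LinearMap.comp_apply]
    rw [h1, hri]
  have e3 : fC = s • (p ∘ₗ (fB ∘ₗ j)) := by
    ext c
    simp only [LinearMap.smul_apply, LinearMap.comp_apply]
    rw [← h2, hj']
  have e4 : LinearMap.trace ℂ B fB =
      LinearMap.trace ℂ A fA + LinearMap.trace ℂ C (p ∘ₗ (fB ∘ₗ j)) := by
    conv_lhs => rw [e1]
    rw [map_add, LinearMap.trace_comp_comm', e2, LinearMap.trace_comp_comm']
  rw [e4, e3, map_smul, smul_eq_mul]
  ring

lemma weight_sum (d : (Fin n ⊕ Fin n) →₀ ℕ) :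
    (Finsupp.weight (wt n) d).1 + (Finsupp.weight (wt n) d).2 =
      Finsupp.weight (fun _ => (1 : ℕ)) d := by
  simp only [Finsupp.weight_eq_sum, Fintype.sum_sum_type, Sum.elim_inl, Sum.elim_inr, Prod.fst_add,
    Prod.snd_add, Prod.fst_sum, Prod.snd_sum, Prod.smul_mk, smul_eq_mul, mul_one, mul_zero,
    sum_const_zero, add_zero, zero_add]

instance fin_Bi (a b : ℕ) : FiniteDimensional ℂ (Bi n a b) := by
  have h1 : Bi n a b ≤ weightedHomogeneousSubmodule ℂ (fun _ : Fin n ⊕ Fin n => (1 : ℕ)) (a + b) := by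
    intro f hf d hd
    have h2 : Finsupp.weight (wt n) d = (a, b) := hf hd
    rw [← weight_sum, h2]
  have h3 : FiniteDimensional ℂ
      (weightedHomogeneousSubmodule ℂ (fun _ : Fin n ⊕ Fin n => (1 : ℕ)) (a + b)) :=
    Module.Finite.iff_fg.2 (weightedHomogeneousSubmodule_fg _ _ (fun _ => one_ne_zero) _)
  exact Submodule.finiteDimensional_of_le h1

lemma weight_map (σ : Equiv.Perm (Fin n)) (d : (Fin n ⊕ Fin n) →₀ ℕ) :
    Finsupp.weight (wt n) (d.mapDomain (sp σ)) = Finsupp.weight (wt n) d := by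
  simp only [Finsupp.weight_eq_sum, Finsupp.mapDomain_equiv_apply]
  rw [← Equiv.sum_comp (sp σ)]
  refine sum_congr rfl fun i _ => ?_
  rcases i with i | i <;> simp [sp]

lemma act_Bi (σ : Equiv.Perm (Fin n)) (a b : ℕ) (f : Pol n) (hf : f ∈ Bi n a b) :
    act σ f ∈ Bi n a b := by
  intro d hd
  obtain ⟨d', rfl⟩ : ∃ d' : (Fin n ⊕ Fin n) →₀ ℕ, d = d'.mapDomain (sp σ) := by
    refine ⟨d.mapDomain (sp σ).symm, ?_⟩
    rw [← Finsupp.mapDomain_comp]
    simp
  have h1 : coeff (d'.mapDomain (sp σ)) (act σ f) = coeff d' f :=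
    coeff_rename_mapDomain _ (sp σ).injective _ _
  rw [h1] at hd
  rw [weight_map]
  exact hf hd

/-- components of an image -/
lemma comp_Phi {ν : Fin n → ℕ × ℕ} {Φ : Pol n →ₗ[ℂ] Pol n} (hΦ : PhiF ν Φ) (a b : ℕ) (f : Pol n) :
    weightedHomogeneousComponent (wt n) (a, b) (Φ f) = if a ≤ dx ν ∧ b ≤ dy ν then
      Φ (weightedHomogeneousComponent (wt n) (dx ν - a, dy ν - b) f) else 0 := by
  classical
  induction f using MvPolynomial.induction_on' with
  | add p q hp hq =>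
    rw [map_add, map_add, hp, hq]
    split_ifs
    · rw [map_add, map_add]
    · rw [add_zero]
  | monomial e c =>
    obtain ⟨⟨a0, b0⟩, hw⟩ : ∃ w, Finsupp.weight (wt n) e = w := ⟨_, rfl⟩
    have hm : (monomial e c : Pol n) ∈ Bi n a0 b0 := isWeightedHomogeneous_monomial _ _ _ hw
    have hm' : (monomial e c : Pol n) ∈ weightedHomogeneousSubmodule ℂ (wt n) (a0, b0) := hm
    rw [weightedHomogeneousComponent_of_mem hm']
    by_cases h0 : a0 ≤ dx ν ∧ b0 ≤ dy ν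
    · have h1 : Φ (monomial e c) ∈ weightedHomogeneousSubmodule ℂ (wt n) (dx ν - a0, dy ν - b0) :=
        hΦ.deg a0 b0 _ hm h0.1 h0.2
      rw [weightedHomogeneousComponent_of_mem h1]
      by_cases h2 : (a, b) = (dx ν - a0, dy ν - b0)
      · have h3 : a ≤ dx ν ∧ b ≤ dy ν := by
          simp only [Prod.mk.injEq] at h2
          omega
        have h4 : (dx ν - a, dy ν - b) = (a0, b0) := by
          simp only [Prod.mk.injEq] at h2 ⊢
          omega
        rw [if_pos h2, if_pos h3, if_pos h4]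
      · rw [if_neg h2]
        split_ifs with h3 h4
        · exfalso
          apply h2
          simp only [Prod.mk.injEq] at h4 ⊢
          omega
        · rw [map_zero]
        · rfl
    · rw [hΦ.deg0 a0 b0 _ hm h0, map_zero]
      split_ifs with h3 h4
      · rw [hΦ.deg0 a0 b0 _ hm h0]
      · rw [map_zero]
      · rfl

lemma sign_ne (σ : Equiv.Perm (Fin n)) : ((Equiv.Perm.sign σ : ℤ) : ℂ) ≠ 0 := by
  intro h
  have := sign_sq σ
  rw [h, mul_zero] at this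
  exact zero_ne_one this

lemma grst_Kn {ν : Fin n → ℕ × ℕ} {Φ : Pol n →ₗ[ℂ] Pol n} (hΦ : PhiF ν Φ) : GrSt (Kn ν) := by
  rw [← hΦ.ker]
  constructor
  · intro σ g hg
    rw [LinearMap.mem_ker] at hg ⊢
    have h1 := hΦ.act σ g
    rw [hg, map_zero] at h1
    exact (smul_eq_zero.1 h1.symm).resolve_left (sign_ne σ)
  · rintro g hg ⟨a, b⟩
    rw [LinearMap.mem_ker] at hg ⊢
    by_cases h0 : a ≤ dx ν ∧ b ≤ dy ν
    · have h1 := comp_Phi hΦ (dx ν - a) (dy ν - b) g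
      rw [hg, map_zero, if_pos ⟨Nat.sub_le _ _, Nat.sub_le _ _⟩, Nat.sub_sub_self h0.1,
        Nat.sub_sub_self h0.2] at h1
      exact h1.symm
    · exact hΦ.deg0 a b _ (weightedHomogeneousComponent_mem _ _ _) h0

lemma grst_map {ν : Fin n → ℕ × ℕ} {Φ : Pol n →ₗ[ℂ] Pol n} (hΦ : PhiF ν Φ)
    {U : Submodule ℂ (Pol n)} (hU : GrSt U) : GrSt (U.map Φ) := by
  constructor
  · rintro σ _ ⟨g, hg, rfl⟩
    rw [hΦ.act]
    exact Submodule.smul_mem _ _ ⟨_, hU.1 σ g hg, rfl⟩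
  · rintro _ ⟨g, hg, rfl⟩ ⟨a, b⟩
    have h1 := comp_Phi hΦ a b g
    change weightedHomogeneousComponent (wt n) (a, b) (Φ g) ∈ _
    rw [h1]
    split_ifs
    · exact ⟨_, hU.2 g hg _, rfl⟩
    · exact Submodule.zero_mem _

lemma tr_eq (U : Submodule ℂ (Pol n)) (σ : Equiv.Perm (Fin n))
    (h : ∀ g ∈ U, (act σ).toLinearMap g ∈ U) :
    tr U σ = LinearMap.trace ℂ U ((act σ).toLinearMap.restrict h) := by
  unfold tr
  rw [dif_pos h]

lemma tr_bot (σ : Equiv.Perm (Fin n)) : tr (⊥ : Submodule ℂ (Pol n)) σ = 0 := by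
  unfold tr
  split_ifs with h
  · rw [Subsingleton.elim ((act σ).toLinearMap.restrict h) 0, map_zero]
  · rfl

lemma tr_map {ν : Fin n → ℕ × ℕ} {Φ : Pol n →ₗ[ℂ] Pol n} (hΦ : PhiF ν Φ)
    (V : Submodule ℂ (Pol n)) [FiniteDimensional ℂ V] (σ : Equiv.Perm (Fin n))
    (hV : ∀ g ∈ V, act σ g ∈ V) :
    tr (V.map Φ) σ = ((Equiv.Perm.sign σ : ℤ) : ℂ) * (tr V σ - tr (V ⊓ Kn ν) σ) := by
  have hB : ∀ g ∈ V, (act σ).toLinearMap g ∈ V := hV
  have hA : ∀ g ∈ V ⊓ Kn ν, (act σ).toLinearMap g ∈ V ⊓ Kn ν := fun g hg =>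
    ⟨hV g hg.1, (grst_Kn hΦ).1 σ g hg.2⟩
  have hC : ∀ g ∈ V.map Φ, (act σ).toLinearMap g ∈ V.map Φ := by
    rintro _ ⟨g, hg, rfl⟩
    change act σ (Φ g) ∈ _
    rw [hΦ.act]
    exact Submodule.smul_mem _ _ ⟨_, hV g hg, rfl⟩
  rw [tr_eq _ _ hA, tr_eq _ _ hB, tr_eq _ _ hC]
  refine trace_ses (Submodule.inclusion inf_le_left)
    (Φ.restrict (p := V) (q := V.map Φ) fun g hg => ⟨g, hg, rfl⟩)
    (Submodule.inclusion_injective _) ?_ ?_ ?_ _ _ _ _ ?_ ?_
  · rintro ⟨_, g, hg, rfl⟩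
    exact ⟨⟨g, hg⟩, rfl⟩
  · intro g hg
    have h1 : Φ g = 0 := congrArg Subtype.val hg
    refine ⟨⟨g, g.2, ?_⟩, rfl⟩
    rw [← hΦ.ker]
    exact h1
  · intro g
    apply Subtype.ext
    have h1 : (g : Pol n) ∈ LinearMap.ker Φ := by
      rw [hΦ.ker]
      exact g.2.2
    exact h1
  · intro g
    rfl
  · intro g
    apply Subtype.ext
    exact hΦ.act σ g

end MPhiAux

open MPhiAux

theorem phiEx : LamA → S_Phi := by
  intro hA n ν _
  refine ⟨Phi ν, range_Phi ν, ker_Phi ν, act_Phi hA ν, ?_, ?_, apo_Phi ν, nondeg⟩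
  · intro a b f hf ha hb d hd
    have h1 := deg_aux hA ν a b f hf d hd
    simp only [Prod.mk.injEq] at h1
    ext
    · change (Finsupp.weight (wt n) d).1 = dx ν - a
      omega
    · change (Finsupp.weight (wt n) d).2 = dy ν - b
      omega
  · intro a b f hf hab
    ext d
    by_contra hd
    have h1 := deg_aux hA ν a b f hf d hd
    simp only [Prod.mk.injEq] at h1
    omega

theorem trc : LamA → S_Tr := by
  intro _ n ν Φ hΦ
  refine ⟨grst_Kn hΦ, fun U hU => ⟨grst_map hΦ hU, fun a b σ => ?_⟩⟩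
  split_ifs with h0
  · have h1 : U.map Φ ⊓ Bi n a b = (U ⊓ Bi n (dx ν - a) (dy ν - b)).map Φ := by
      apply le_antisymm
      · rintro _ ⟨⟨g, hg, rfl⟩, hb⟩
        have h2 := comp_Phi hΦ a b g
        rw [if_pos h0, weightedHomogeneousComponent_eq_self hb] at h2
        exact ⟨_, ⟨hU.2 g hg _, weightedHomogeneousComponent_mem _ _ _⟩, h2.symm⟩
      · rintro _ ⟨g, hg, rfl⟩
        refine ⟨⟨g, hg.1, rfl⟩, ?_⟩
        have h2 := hΦ.deg _ _ g hg.2 (Nat.sub_le _ _) (Nat.sub_le _ _)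
        rwa [Nat.sub_sub_self h0.1, Nat.sub_sub_self h0.2] at h2
    have hfin : FiniteDimensional ℂ (U ⊓ Bi n (dx ν - a) (dy ν - b) : Submodule ℂ (Pol n)) :=
      Submodule.finiteDimensional_of_le inf_le_right
    have hst : ∀ g ∈ U ⊓ Bi n (dx ν - a) (dy ν - b), act σ g ∈ U ⊓ Bi n (dx ν - a) (dy ν - b) :=
      fun g hg => ⟨hU.1 σ g hg.1, act_Bi σ _ _ g hg.2⟩
    rw [h1, tr_map hΦ _ σ hst, inf_right_comm]
  · have h1 : U.map Φ ⊓ Bi n a b = ⊥ := by
      rw [eq_bot_iff]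
      rintro _ ⟨⟨g, hg, rfl⟩, hb⟩
      have h2 := comp_Phi hΦ a b g
      rw [if_neg h0, weightedHomogeneousComponent_eq_self hb] at h2
      exact h2
    rw [h1, tr_bot]

end

end Pool.Agent.P.MP_c2aaf5_co
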