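import Pool.Agent.P.MP_c2aaf5_co.DefM

/-! Package M2: the character of an intersection. -/

namespace Pool.Agent.P.MP_c2aaf5_co

open MvPolynomial Finset

noncomputable section

namespace MSFAux

variable {n m : ℕ}

theorem qq_ne : qq ≠ 0 := fun h =>
  X_ne_zero _ ((IsFractionRing.injective (MvPolynomial (Fin 2) ℂ) QT) (h.trans (map_zero _).symm))

theorem tt_ne : tt ≠ 0 := fun h =>
  X_ne_zero _ ((IsFractionRing.injective (MvPolynomial (Fin 2) ℂ) QT) (h.trans (map_zero _).symm))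

theorem qt_inj {a b c d : ℕ} (h : qq ^ a * tt ^ b = qq ^ c * tt ^ d) : a = c := by
  simp only [qq, tt, ← map_pow, ← map_mul] at h
  have h1 := IsFractionRing.injective (MvPolynomial (Fin 2) ℂ) QT h
  have h2 := congrArg (aeval ![(Polynomial.X : Polynomial ℂ), 1]) h1
  have h3 := congrArg Polynomial.natDegree h2
  simpa using h3

theorem dx_rm (μ : Fin (m + 1) → ℕ × ℕ) (u : Fin (m + 1)) : (μ u).1 + dx (rm μ u) = dx μ :=
  (Fin.sum_univ_succAbove (fun i => (μ i).1) u).symm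

theorem apo_sub (h g g' : Pol n) : apo h (g - g') = apo h g - apo h g' := by
  simp only [apo, coeff_sub, mul_sub, sum_sub_distrib]

theorem grSt_top : GrSt (⊤ : Submodule ℂ (Pol n)) := ⟨fun _ _ _ => trivial, fun _ _ _ => trivial⟩

theorem grSt_inf {U V : Submodule ℂ (Pol n)} (h : GrSt U) (h' : GrSt V) : GrSt (U ⊓ V) :=
  ⟨fun σ g hg => ⟨h.1 σ g hg.1, h'.1 σ g hg.2⟩, fun g hg ab => ⟨h.2 g hg.1 ab, h'.2 g hg.2 ab⟩⟩

theorem grSt_iInf {τ : Type} (S : Finset τ) (K : τ → Submodule ℂ (Pol n)) (h : ∀ s, GrSt (K s)) :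
    GrSt (⨅ s ∈ S, K s) := by
  constructor
  · intro σ g hg
    simp only [Submodule.mem_iInf] at hg ⊢
    exact fun s hs => (h s).1 σ g (hg s hs)
  · intro g hg ab
    simp only [Submodule.mem_iInf] at hg ⊢
    exact fun s hs => (h s).2 g (hg s hs) ab

/-- trace in one bidegree -/
def G (σ : Equiv.Perm (Fin n)) (U : Submodule ℂ (Pol n)) (c : ℕ × ℕ) : ℂ := tr (U ⊓ Bi n c.1 c.2) σ

theorem chg_map (hT : S_Tr) {ν : Fin n → ℕ × ℕ} {Φ : Pol n →ₗ[ℂ] Pol n} (h : PhiF ν Φ)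
    {U : Submodule ℂ (Pol n)} (hU : GrSt U) (σ : Equiv.Perm (Fin n)) :
    chg qq tt (U.map Φ) σ = Tq ν * ∑ c ∈ Iic (dx ν, dy ν), (qq ^ c.1 * tt ^ c.2)⁻¹ *
      algebraMap ℂ QT (((Equiv.Perm.sign σ : ℤ) : ℂ) * (G σ U c - G σ (U ⊓ Kn ν) c)) := by
  have H := ((hT n ν Φ h).2 U hU).2
  unfold chg
  rw [finsum_eq_sum_of_support_subset (s := Iic (dx ν, dy ν)), mul_sum]
  · refine sum_nbij' (fun c => (dx ν, dy ν) - c) (fun c => (dx ν, dy ν) - c)
      (fun c _ => mem_Iic.2 tsub_le_self) (fun c _ => mem_Iic.2 tsub_le_self)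
      (fun c hc => tsub_tsub_cancel_of_le (mem_Iic.1 hc))
      (fun c hc => tsub_tsub_cancel_of_le (mem_Iic.1 hc)) fun c hc => ?_
    obtain ⟨h1, h2⟩ := mem_Iic.1 hc
    rw [H, if_pos ⟨h1, h2⟩, ← mul_assoc]
    congr 1
    dsimp only at h1 h2
    have e : Tq ν = qq ^ c.1 * tt ^ c.2 * (qq ^ (dx ν - c.1) * tt ^ (dy ν - c.2)) := by
      rw [Tq, mul_mul_mul_comm, ← pow_add, ← pow_add, Nat.add_sub_cancel' h1,
        Nat.add_sub_cancel' h2]
    rw [e]
    exact (mul_inv_cancel_right₀ (mul_ne_zero (pow_ne_zero _ qq_ne) (pow_ne_zero _ tt_ne)) _).symm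
  · intro c hc
    by_contra h'
    apply hc
    dsimp only
    rw [H, if_neg, map_zero, mul_zero]
    exact fun h'' => h' (mem_coe.2 (mem_Iic.2 h''))

theorem G_inf {ν : Fin n → ℕ × ℕ} {Φ : Pol n →ₗ[ℂ] Pol n} (h : PhiF ν Φ) (σ : Equiv.Perm (Fin n))
    (U : Submodule ℂ (Pol n)) {c : ℕ × ℕ} (hc : ¬ c ≤ (dx ν, dy ν)) :
    G σ (U ⊓ Kn ν) c = G σ U c := by
  unfold G
  rw [inf_assoc, inf_eq_right.2 (show Bi n c.1 c.2 ≤ Kn ν from fun f hf => by
    rw [← h.ker]; exact h.deg0 _ _ f hf hc)]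

theorem two_step (hT : S_Tr) {ν ν' : Fin n → ℕ × ℕ} {Φ Φ' : Pol n →ₗ[ℂ] Pol n} (h : PhiF ν Φ)
    (h' : PhiF ν' Φ') {U : Submodule ℂ (Pol n)} (hU : GrSt U) (σ : Equiv.Perm (Fin n)) :
    chg qq tt (U.map Φ) σ - chg qq tt ((U ⊓ Kn ν').map Φ) σ =
      Tq ν * ∑ c ∈ Iic (dx ν, dy ν) ∩ Iic (dx ν', dy ν'), (qq ^ c.1 * tt ^ c.2)⁻¹ *
        algebraMap ℂ QT (((Equiv.Perm.sign σ : ℤ) : ℂ) *
          (G σ U c - G σ (U ⊓ Kn ν) c - G σ (U ⊓ Kn ν') c + G σ (U ⊓ Kn ν ⊓ Kn ν') c)) := by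
  rw [chg_map hT h hU, chg_map hT h (grSt_inf hU (hT n ν' Φ' h').1), ← mul_sub, ← sum_sub_distrib]
  congr 1
  symm
  refine (sum_subset inter_subset_left fun c hc hc' => ?_).trans (sum_congr rfl fun c _ => ?_)
  · have k : ¬ c ≤ (dx ν', dy ν') := fun k => hc' (mem_inter.2 ⟨hc, mem_Iic.2 k⟩)
    rw [G_inf h' σ _ k, G_inf h' σ _ k]
    simp
  · rw [← mul_sub, ← map_sub, inf_right_comm]
    congr 2
    ring

theorem lagrange {τ F : Type} [DecidableEq τ] [Field F] (T H : τ → F) (hT : Function.Injective T)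
    (ch : Finset τ → F) (h1 : ∀ i, ch {i} = H i)
    (h2 : ∀ (S : Finset τ) i j, i ∉ S → j ∉ S → i ≠ j →
      T j * (ch (insert i S) - ch (insert i (insert j S))) =
        T i * (ch (insert j S) - ch (insert i (insert j S)))) (S : Finset τ) (hS : S.Nonempty) :
    ch S = ∑ i ∈ S, (∏ j ∈ S.erase i, T j / (T j - T i)) * H i := by
  induction S using Finset.strongInduction with
  | H S ih =>
  obtain ⟨i, hi⟩ := hS
  rcases (S.erase i).eq_empty_or_nonempty with h | ⟨j, hj⟩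
  · obtain rfl : S = {i} := by
      rw [← insert_erase hi, h]; rfl
    simp [h1]
  obtain ⟨hji, hjS⟩ := mem_erase.1 hj
  obtain ⟨S', rfl, hi', hj'⟩ : ∃ S', S = insert i (insert j S') ∧ i ∉ S' ∧ j ∉ S' :=
    ⟨(S.erase i).erase j, by rw [insert_erase hj, insert_erase hi], by simp, by simp⟩
  have hij : i ∉ insert j S' := by simp [hji.symm, hi']
  have e := h2 S' i j hi' hj' hji.symm
  have k1 := ih (insert i S') (by
    rw [insert_comm]
    exact ssubset_insert (by simp [hji, hj'])) (insert_nonempty _ _)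
  have k2 := ih (insert j S') (ssubset_insert hij) (insert_nonempty _ _)
  have hd : T i - T j ≠ 0 := sub_ne_zero.2 fun h => hji (hT h).symm
  have hd' : T j - T i ≠ 0 := sub_ne_zero.2 fun h => hji (hT h)
  rw [sum_insert hi', erase_insert hi'] at k1
  rw [sum_insert hj', erase_insert hj'] at k2
  rw [sum_insert hij, sum_insert hj', erase_insert hij, prod_insert hj',
    erase_insert_of_ne hji.symm, erase_insert hj', prod_insert hi']
  have k3 : (T i - T j) * ∑ k ∈ S', (∏ l ∈ (insert i (insert j S')).erase k, T l / (T l - T k)) * H k =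
      T i * ∑ k ∈ S', (∏ l ∈ (insert j S').erase k, T l / (T l - T k)) * H k -
        T j * ∑ k ∈ S', (∏ l ∈ (insert i S').erase k, T l / (T l - T k)) * H k := by
    rw [mul_sum, mul_sum, mul_sum, ← sum_sub_distrib]
    refine sum_congr rfl fun k hk => ?_
    have a1 : i ≠ k := fun h => hi' (h ▸ hk)
    have a2 : j ≠ k := fun h => hj' (h ▸ hk)
    have b1 : T i - T k ≠ 0 := sub_ne_zero.2 fun h => a1 (hT h)
    have b2 : T j - T k ≠ 0 := sub_ne_zero.2 fun h => a2 (hT h)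
    rw [erase_insert_of_ne a1, erase_insert_of_ne a2, erase_insert_of_ne a1,
      prod_insert (by simp [hji.symm, hi']), prod_insert (by simp [hj']),
      prod_insert (by simp [hi'])]
    field_simp
    ring
  apply mul_left_cancel₀ hd
  rw [mul_add, mul_add, k3]
  have k4 : (T i - T j) * ch (insert i (insert j S')) =
      T i * ch (insert j S') - T j * ch (insert i S') := by linear_combination e
  rw [k4, k1, k2]
  field_simp
  ring

end MSFAux

open MSFAux in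
theorem sf : LamA → S_SFc → S_Phi → S_Tr → S_SF := by
  intro hA hS hP hT m μ hμ S hne σ
  classical
  choose Φ hΦ using fun s : Cor μ => hP m (rm μ s) (hA.diag μ s hμ s.2).1
  obtain ⟨s1, s2⟩ := hS m μ hμ
  have hb : ∀ (s : Cor μ) (w h : Pol m), bil (beta μ s) w h =
      (-1) ^ (s.1 : ℕ) * apo h (Φ s w) := fun s w h => by
    rw [(hΦ s).apo, ← hA.beta μ s hμ.1]
    rfl
  have sq : ∀ k : ℕ, (-1 : ℂ) ^ k * (-1) ^ k = 1 := fun k => by
    rw [← mul_pow]; simp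
  have e1 : ∀ (i s : Cor μ) (w w' : Pol m), bil (beta μ i) w = bil (beta μ s) w' ↔
      (-1 : ℂ) ^ (i.1 : ℕ) • Φ i w = (-1 : ℂ) ^ (s.1 : ℕ) • Φ s w' := by
    intro i s w w'
    rw [← map_smul, ← map_smul]
    have k : ∀ h, apo h (Φ i ((-1 : ℂ) ^ (i.1 : ℕ) • w) - Φ s ((-1 : ℂ) ^ (s.1 : ℕ) • w')) =
        bil (beta μ i) w h - bil (beta μ s) w' h := fun h => by
      rw [apo_sub, hb, hb, (hΦ i).apo, (hΦ s).apo, (hΦ i).apo, (hΦ s).apo, smul_mul_assoc,
        smul_mul_assoc, map_smul, map_smul, smul_eq_mul, smul_eq_mul]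
    constructor
    · intro h
      exact sub_eq_zero.1 ((hΦ i).nondeg _ fun g => by rw [k, h, sub_self])
    · intro h
      refine LinearMap.ext fun g => sub_eq_zero.1 ?_
      rw [← k, h, sub_self]
      simp [apo]
  have e2 : ∀ (i s : Cor μ) (w : Pol m), Φ i w ∈ Der (Dl (rm μ s)) ↔
      ∃ w', bil (beta μ i) w = bil (beta μ s) w' := by
    intro i s w
    rw [← (hΦ s).range]
    constructor
    · rintro ⟨w', h⟩
      refine ⟨((-1 : ℂ) ^ (s.1 : ℕ) * (-1) ^ (i.1 : ℕ)) • w', (e1 _ _ _ _).2 ?_⟩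
      rw [map_smul, h, smul_smul, ← mul_assoc, sq, one_mul]
    · rintro ⟨w', h⟩
      refine ⟨((-1 : ℂ) ^ (i.1 : ℕ) * (-1) ^ (s.1 : ℕ)) • w', ?_⟩
      rw [map_smul, mul_smul, ← (e1 _ _ _ _).1 h, smul_smul, sq, one_smul]
  have e3 : ∀ (s : Cor μ) (w : Pol m), w ∈ Kn (rm μ s) ↔ bil (beta μ s) w = 0 := by
    intro s w
    rw [← (hΦ s).ker, LinearMap.mem_ker, ← map_zero (bil (beta μ s)), e1, map_zero, smul_zero,
      smul_eq_zero_iff_right (pow_ne_zero _ (by norm_num))]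
  have e4 : ∀ (S : Finset (Cor μ)) (i : Cor μ), i ∉ S →
      ⨅ s ∈ insert i S, Der (Dl (rm μ s)) = (⨅ s ∈ S, Kn (rm μ s)).map (Φ i) := by
    intro S i hi
    rw [Finset.iInf_insert]
    apply le_antisymm
    · rintro g ⟨h1, h2⟩
      rw [← (hΦ i).range] at h1
      obtain ⟨w, rfl⟩ := h1
      simp only [SetLike.mem_coe, Submodule.mem_iInf] at h2
      obtain ⟨w'', k1, k2⟩ := s2 S i w hi fun s hs => (e2 i s w).1 (h2 s hs)
      refine ⟨w'', ?_, smul_right_injective _ (pow_ne_zero _ (by norm_num)) ((e1 _ _ _ _).1 k2)⟩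
      simp only [SetLike.mem_coe, Submodule.mem_iInf]
      exact fun s hs => (e3 s _).2 (k1 s hs)
    · rintro _ ⟨w, hw, rfl⟩
      simp only [SetLike.mem_coe, Submodule.mem_iInf] at hw
      refine ⟨(e2 i i w).2 ⟨w, rfl⟩, ?_⟩
      simp only [SetLike.mem_coe, Submodule.mem_iInf]
      exact fun s hs => (e2 i s w).2 (s1 s i w ((e3 s _).1 (hw s hs)))
  refine lagrange (fun s : Cor μ => Tq (rm μ s)) (fun s => chg qq tt (Der (Dl (rm μ s))) σ) ?_
    (fun S => chg qq tt (⨅ s ∈ S, Der (Dl (rm μ s))) σ) (fun i => by simp) ?_ S hne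
  · intro i j h
    have h1 := qt_inj h
    have h2 := dx_rm μ i
    have h3 := dx_rm μ j
    exact hA.dxinj μ (show (μ i).1 = (μ j).1 by omega)
  · intro S i j hi hj hij
    have hU := grSt_iInf S (fun s => Kn (rm μ s)) fun s => (hT m _ _ (hΦ s)).1
    have k1 := two_step hT (hΦ i) (hΦ j) hU σ
    have k2 := two_step hT (hΦ j) (hΦ i) hU σ
    have a1 := e4 (insert j S) i (by simp [hi, hij])
    have a2 := e4 (insert i S) j (by simp [hj, hij.symm])
    rw [Finset.iInf_insert (t := fun s : Cor μ => Kn (rm μ s)), inf_comm] at a1 a2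
    rw [insert_comm] at a2
    rw [← e4 S i hi, ← a1] at k1
    rw [← e4 S j hj, ← a2, inter_comm, inf_right_comm] at k2
    simp only [sub_right_comm _ (G σ (_ ⊓ Kn (rm μ j)) _)] at k2
    rw [k1, k2, mul_left_comm]

end

end Pool.Agent.P.MP_c2aaf5_co
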