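import Pool.Agent.P.MP_c2aaf5_co.DefM

/-! Characters of the module of derivatives: normalisation, triangularity, Frobenius series. -/

namespace Pool.Agent.P.MP_c2aaf5_co

open MvPolynomial Finset

noncomputable section

namespace MT2Aux

variable {n : ℕ}

abbrev wt (n : ℕ) : Fin n ⊕ Fin n → ℕ × ℕ :=
  Sum.elim (fun _ => (1, 0)) fun _ => ((0, 1) : ℕ × ℕ)

theorem mem_Bi {a b : ℕ} {g : Pol n} : g ∈ Bi n a b ↔ IsWeightedHomogeneous (wt n) g (a, b) :=
  Iff.rfl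

theorem tr_bot (σ : Equiv.Perm (Fin n)) : tr (⊥ : Submodule ℂ (Pol n)) σ = 0 := by
  unfold tr
  split_ifs with h
  · rw [Subsingleton.elim ((act σ).toLinearMap.restrict h) 0, map_zero]
  · rfl

theorem coeff_Phi {ν : Fin n → ℕ × ℕ} {Φ : Pol n →ₗ[ℂ] Pol n} (h : PhiF ν Φ) (f : Pol n)
    (d : (Fin n ⊕ Fin n) →₀ ℕ) (hd : ¬Finsupp.weight (wt n) d ≤ (dx ν, dy ν)) :
    coeff d (Φ f) = 0 := by
  induction f using MvPolynomial.induction_on' with
  | monomial u a =>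
    have hu : monomial u a ∈ Bi n (Finsupp.weight (wt n) u).1 (Finsupp.weight (wt n) u).2 :=
      isWeightedHomogeneous_monomial _ _ _ rfl
    by_cases hb : (Finsupp.weight (wt n) u).1 ≤ dx ν ∧ (Finsupp.weight (wt n) u).2 ≤ dy ν
    · have h1 := h.deg _ _ _ hu hb.1 hb.2
      by_contra hne
      have h2 := (mem_Bi.1 h1) hne
      apply hd
      rw [h2]
      exact ⟨Nat.sub_le _ _, Nat.sub_le _ _⟩
    · rw [h.deg0 _ _ _ hu hb, coeff_zero]
  | add p q hp hq => rw [map_add, coeff_add, hp, hq, add_zero]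

theorem inf_bot {ν : Fin n → ℕ × ℕ} {Φ : Pol n →ₗ[ℂ] Pol n} (h : PhiF ν Φ)
    {V : Submodule ℂ (Pol n)} (hV : V ≤ Der (Dl ν)) {ab : ℕ × ℕ}
    (hab : ab ∉ range (dx ν + 1) ×ˢ range (dy ν + 1)) : V ⊓ Bi n ab.1 ab.2 = ⊥ := by
  rw [eq_bot_iff]
  rintro g ⟨hg, hb⟩
  have h1 := hV hg
  rw [← h.range] at h1
  obtain ⟨f, rfl⟩ := h1
  rw [Submodule.mem_bot]
  ext d
  rw [coeff_zero]
  by_contra hne
  have h2 := (mem_Bi.1 hb) hne
  refine hne (coeff_Phi h f d ?_)
  rw [h2]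
  intro hle
  apply hab
  simp only [mem_product, mem_range]
  exact ⟨Nat.lt_succ_of_le hle.1, Nat.lt_succ_of_le hle.2⟩

theorem chg_eq {u v : QT} {V : Submodule ℂ (Pol n)} {B : Finset (ℕ × ℕ)}
    (hB : ∀ ab ∉ B, V ⊓ Bi n ab.1 ab.2 = ⊥) (σ : Equiv.Perm (Fin n)) :
    chg u v V σ =
      ∑ ab ∈ B, u ^ ab.1 * v ^ ab.2 * algebraMap ℂ QT (tr (V ⊓ Bi n ab.1 ab.2) σ) := by
  unfold chg
  apply finsum_eq_sum_of_support_subset
  intro ab hab
  by_contra hn
  apply hab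
  simp only [hB ab (by simpa using hn), tr_bot, map_zero, mul_zero]

theorem Der_zero : Der (0 : Pol n) = ⊥ := by
  rw [eq_bot_iff]
  unfold Der
  rw [Submodule.span_le]
  rintro g ⟨l, rfl⟩
  induction l with
  | nil => simp
  | cons a l ih =>
    simp only [List.foldr_cons]
    have : List.foldr (fun v h => pderiv v h) (0 : Pol n) l = 0 := by simpa using ih
    simp [this]

theorem Delta_zero {e : Fin n → ℕ × ℕ} (he : ¬Function.Injective e) : Delta e = 0 := by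
  unfold Function.Injective at he
  push Not at he
  obtain ⟨i, j, h1, h2⟩ := he
  unfold Delta
  apply Matrix.det_zero_of_column_eq h2
  intro k
  simp [h1]

theorem box (hP : S_Phi) (e : Fin n → ℕ × ℕ) {V : Submodule ℂ (Pol n)} (hV : V ≤ Der (Delta e)) :
    ∃ B : Finset (ℕ × ℕ), ∀ ab ∉ B, V ⊓ Bi n ab.1 ab.2 = ⊥ := by
  by_cases he : Function.Injective e
  · obtain ⟨Φ, hΦ⟩ := hP n (fun s => (e s).swap) (Prod.swap_injective.comp he)
    refine ⟨_, fun ab hab => inf_bot hΦ ?_ hab⟩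
    simpa [Dl] using hV
  · refine ⟨∅, fun ab _ => ?_⟩
    rw [Delta_zero he, Der_zero, le_bot_iff] at hV
    simp [hV]

theorem xm_hom (i : Fin n) (h : ℕ × ℕ) : IsWeightedHomogeneous (wt n) (xm i h) h := by
  have h1 := ((isWeightedHomogeneous_X ℂ (wt n) (Sum.inl i)).pow h.1).mul
    ((isWeightedHomogeneous_X ℂ (wt n) (Sum.inr i)).pow h.2)
  have h2 : h.1 • wt n (Sum.inl i) + h.2 • wt n (Sum.inr i) = h := by
    ext <;> simp
  rw [h2] at h1
  exact h1

theorem prod_mem (ν : Fin n → ℕ × ℕ) (σ : Equiv.Perm (Fin n)) :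
    ∏ i, xm (σ i) (ν i) ∈ Bi n (dx ν) (dy ν) := by
  rw [mem_Bi]
  have h1 := IsWeightedHomogeneous.prod univ (fun i => xm (σ i) (ν i)) ν
    (fun i _ => xm_hom (σ i) (ν i))
  have h2 : ∑ i, ν i = (dx ν, dy ν) := by
    ext
    · simp [dx, Prod.fst_sum]
    · simp [dy, Prod.snd_sum]
  rw [h2] at h1
  exact h1

theorem Dl_mem (ν : Fin n → ℕ × ℕ) : Dl ν ∈ Bi n (dx ν) (dy ν) := by
  unfold Dl Delta
  rw [Matrix.det_apply']
  refine Submodule.sum_mem _ fun σ _ => ?_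
  have h1 := Submodule.smul_mem _ ((Equiv.Perm.sign σ : ℤ) : ℂ) (prod_mem ν σ)
  rw [Algebra.smul_def] at h1
  simpa [xm] using h1

theorem const_of {g : Pol n} (hg : g ∈ Bi n 0 0) : g = C (coeff 0 g) := by
  ext d
  rw [coeff_C]
  split_ifs with h
  · rw [h]
  · by_contra hne
    have h2 := (mem_Bi.1 hg) hne
    apply h
    ext i
    by_contra hi
    have hi' : d i ≠ 0 := fun h0 => hi (by simp [h0])
    rw [Finsupp.weight_apply, Finsupp.sum] at h2
    have h3 := Finset.single_le_sum (f := fun j => d j • wt n j) (fun j _ => bot_le)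
      (Finsupp.mem_support_iff.2 hi')
    rw [h2] at h3
    rcases i with i | i
    · have := h3.1
      simp at this
      exact hi' this
    · have := h3.2
      simp at this
      exact hi' this

theorem Bi_act {a b : ℕ} {g : Pol n} (hg : g ∈ Bi n a b) (σ : Equiv.Perm (Fin n)) :
    act σ g ∈ Bi n a b := by
  rw [mem_Bi] at hg ⊢
  intro d hd
  obtain ⟨u, hu, hc⟩ := coeff_rename_ne_zero _ _ _ hd
  rw [← hg hc, ← hu, Finsupp.weight_apply, Finsupp.weight_apply, Finsupp.sum_mapDomain_index]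
  · refine Finsupp.sum_congr fun i _ => ?_
    rcases i with i | i <;> simp
  · intro i
    simp
  · intro i m1 m2
    rw [add_smul]

theorem act_mul (σ τ : Equiv.Perm (Fin n)) (g : Pol n) : act σ (act τ g) = act (σ * τ) g := by
  unfold act
  rw [rename_rename]
  congr 2
  funext i
  rcases i with i | i <;> rfl

theorem sg_sq (σ : Equiv.Perm (Fin n)) :
    ((Equiv.Perm.sign σ : ℤ) : ℂ) * ((Equiv.Perm.sign σ : ℤ) : ℂ) = 1 := by
  rw [← Int.cast_mul, ← Units.val_mul, Int.units_mul_self]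
  simp

theorem alt_sum (f : Pol n) (τ : Equiv.Perm (Fin n)) :
    act τ (∑ σ : Equiv.Perm (Fin n), ((Equiv.Perm.sign σ : ℤ) : ℂ) • act σ f) =
      ((Equiv.Perm.sign τ : ℤ) : ℂ) •
        ∑ σ : Equiv.Perm (Fin n), ((Equiv.Perm.sign σ : ℤ) : ℂ) • act σ f := by
  rw [map_sum, Finset.smul_sum]
  refine Fintype.sum_equiv (Equiv.mulLeft τ) _ _ fun σ => ?_
  rw [map_smul, act_mul, smul_smul, Equiv.coe_mulLeft, Equiv.Perm.sign_mul, Units.val_mul,
    Int.cast_mul, ← mul_assoc, sg_sq, one_mul]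

theorem stab {ν : Fin n → ℕ × ℕ} {Φ : Pol n →ₗ[ℂ] Pol n} (h : PhiF ν Φ) (a b : ℕ)
    (σ : Equiv.Perm (Fin n)) : ∀ g ∈ Der (Dl ν) ⊓ Bi n a b,
      (act σ).toLinearMap g ∈ Der (Dl ν) ⊓ Bi n a b := by
  rintro g ⟨hg, hb⟩
  refine ⟨?_, Bi_act hb σ⟩
  rw [← h.range] at hg ⊢
  obtain ⟨f, rfl⟩ := hg
  exact ⟨((Equiv.Perm.sign σ : ℤ) : ℂ) • act σ f, by rw [map_smul, ← h.act]; rfl⟩

theorem sum_tr_ne {ν : Fin n → ℕ × ℕ} {Φ : Pol n →ₗ[ℂ] Pol n} (h : PhiF ν Φ) (hN : Nrm ν)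
    {a b : ℕ} (hab : (a, b) ≠ (0, 0)) : ∑ σ, tr (Der (Dl ν) ⊓ Bi n a b) σ = 0 := by
  have h1 : ∀ σ, tr (Der (Dl ν) ⊓ Bi n a b) σ =
      LinearMap.trace ℂ _ ((act σ).toLinearMap.restrict (stab h a b σ)) := fun σ => by
    unfold tr
    rw [dif_pos (stab h a b σ)]
  simp only [h1]
  rw [← map_sum]
  have h2 : ∑ σ, (act σ).toLinearMap.restrict (stab h a b σ) = 0 := by
    refine LinearMap.ext fun w => Subtype.ext ?_
    obtain ⟨g, hg, hb⟩ := w
    have hg' := hg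
    rw [← h.range] at hg'
    obtain ⟨f, rfl⟩ := hg'
    have e1 : ((∑ σ, (act σ).toLinearMap.restrict (stab h a b σ)) ⟨Φ f, hg, hb⟩ : Pol n) =
        ∑ σ, act σ (Φ f) := by
      rw [LinearMap.sum_apply, Submodule.coe_sum]
      rfl
    rw [e1]
    have m1 : ∑ σ, act σ (Φ f) ∈ Bi n a b := Submodule.sum_mem _ fun σ _ => Bi_act hb σ
    obtain ⟨c, hc⟩ := hN _ (alt_sum f)
    rw [← h.ker, LinearMap.mem_ker, map_sub, sub_eq_zero, map_sum, map_smul] at hc
    have e2 : ∑ σ, act σ (Φ f) = c • Φ (Dl ν) := by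
      rw [← hc]
      refine Finset.sum_congr rfl fun σ _ => ?_
      rw [map_smul, h.act]
    have m2 : ∑ σ, act σ (Φ f) ∈ Bi n 0 0 := by
      rw [e2]
      have := h.deg _ _ _ (Dl_mem ν) le_rfl le_rfl
      rw [Nat.sub_self, Nat.sub_self] at this
      exact Submodule.smul_mem _ _ this
    show ∑ σ, act σ (Φ f) = 0
    ext d
    rw [coeff_zero]
    by_contra hne
    exact hab (((mem_Bi.1 m1) hne).symm.trans ((mem_Bi.1 m2) hne))
  rw [h2, map_zero]

theorem inf_zero (hA : LamA) {ν : Fin n → ℕ × ℕ} (hν : Function.Injective ν)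
    {Φ : Pol n →ₗ[ℂ] Pol n} (h : PhiF ν Φ) :
    Der (Dl ν) ⊓ Bi n 0 0 = Submodule.span ℂ {(1 : Pol n)} := by
  apply le_antisymm
  · rintro g ⟨_, hb⟩
    rw [Submodule.mem_span_singleton]
    exact ⟨coeff 0 g, by rw [smul_eq_C_mul, mul_one]; exact (const_of hb).symm⟩
  · rw [Submodule.span_le, Set.singleton_subset_iff]
    have m1 := h.deg _ _ _ (prod_mem ν 1) le_rfl le_rfl
    rw [Nat.sub_self, Nat.sub_self] at m1
    simp only [Equiv.Perm.coe_one, id_eq] at m1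
    have e1 := h.apo (∏ i, xm i (ν i)) 1
    rw [mul_one, hA.prod] at e1
    have e2 : (Matrix.of fun i j => if ν i = ν j then (1 : ℂ) else 0) = 1 := by
      ext i j
      simp [Matrix.one_apply, hν.eq_iff]
    rw [e2, Matrix.det_one] at e1
    have c0 : coeff 0 (Φ (∏ i, xm i (ν i))) ≠ 0 := by
      intro h0
      have := const_of m1
      rw [h0, map_zero] at this
      rw [this] at e1
      simp [apo] at e1
    refine ⟨?_, isWeightedHomogeneous_one ℂ (wt n)⟩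
    rw [← h.range]
    refine ⟨(coeff 0 (Φ (∏ i, xm i (ν i))))⁻¹ • ∏ i, xm i (ν i), ?_⟩
    rw [map_smul, smul_eq_C_mul]
    conv_lhs => rw [const_of m1]
    rw [coeff_C, if_pos rfl, ← map_mul, inv_mul_cancel₀ c0, map_one]

theorem tr_one (σ : Equiv.Perm (Fin n)) : tr (Submodule.span ℂ {(1 : Pol n)}) σ = 1 := by
  have h0 : ∀ g ∈ Submodule.span ℂ {(1 : Pol n)}, (act σ).toLinearMap g = g := by
    intro g hg
    obtain ⟨c, rfl⟩ := Submodule.mem_span_singleton.1 hg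
    simp
  have h1 : ∀ g ∈ Submodule.span ℂ {(1 : Pol n)},
      (act σ).toLinearMap g ∈ Submodule.span ℂ {(1 : Pol n)} := fun g hg => by
    rw [h0 g hg]; exact hg
  unfold tr
  rw [dif_pos h1]
  have h2 : (act σ).toLinearMap.restrict h1 = LinearMap.id :=
    LinearMap.ext fun w => Subtype.ext (h0 w.1 w.2)
  rw [h2, LinearMap.trace_id, finrank_span_singleton one_ne_zero, Nat.cast_one]

theorem nrm_zero (ν : Fin 0 → ℕ × ℕ) : Nrm ν := by
  intro g _
  refine ⟨coeff 0 g, ?_⟩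
  have h1 : Dl ν = 1 := by
    unfold Dl Delta
    exact Matrix.det_isEmpty
  rw [h1, smul_eq_C_mul, mul_one, ← eq_C_of_isEmpty g, sub_self]
  exact Submodule.zero_mem _

theorem part1 (hA : LamA) {ν : Fin n → ℕ × ℕ} (hν : Function.Injective ν)
    {Φ : Pol n →ₗ[ℂ] Pol n} (h : PhiF ν Φ) (hN : Nrm ν) (u v : QT) :
    ∑ σ, chg u v (Der (Dl ν)) σ = n.factorial := by
  simp only [chg_eq (fun ab hab => inf_bot h le_rfl hab)]
  rw [Finset.sum_comm, Finset.sum_eq_single ((0, 0) : ℕ × ℕ)]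
  · simp [inf_zero hA hν h, tr_one, Fintype.card_perm]
  · intro ab _ hab
    rw [← Finset.mul_sum, ← map_sum, sum_tr_ne h hN hab, map_zero, mul_zero]
  · intro hn
    exact absurd (by simp) hn

theorem prod_inv {v : QT} (hv : v ≠ 0) (s : Multiset ℕ) :
    (s.map fun k => v ^ k - 1).prod = v ^ s.sum * (s.map fun k => 1 - v⁻¹ ^ k).prod := by
  induction s using Multiset.induction_on with
  | empty => simp
  | cons k s ih =>
    simp only [Multiset.map_cons, Multiset.prod_cons, Multiset.sum_cons, ih, pow_add]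
    have : v ^ k * v⁻¹ ^ k = 1 := by rw [← mul_pow, mul_inv_cancel₀ hv, one_pow]
    linear_combination (v ^ s.sum * (s.map fun k => 1 - v⁻¹ ^ k).prod) * this

theorem part2 (hT : S_Tr) (hE : S_Eul) {ν : Fin n → ℕ × ℕ} {Φ : Pol n →ₗ[ℂ] Pol n} (h : PhiF ν Φ)
    {N : ℕ} {c : Fin n → Fin N} (hK : KX ν c) (u : QT) {v : QT} (hv : v ≠ 0) :
    ∑ σ : Equiv.Perm (Fin n) with ∀ i, c (σ i) = c i,
      (σ.partition.parts.map fun k => v ^ k - 1).prod * chg u v (Der (Dl ν)) σ = 0 := by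
  obtain ⟨hG, hU⟩ := hT n ν Φ h
  have htop : GrSt (⊤ : Submodule ℂ (Pol n)) := ⟨fun _ _ _ => trivial, fun _ _ _ => trivial⟩
  have htr := (hU ⊤ htop).2
  rw [Submodule.map_top, h.range] at htr
  have hB : ∀ a b, dy ν < b → Bi n a b ≤ Kn ν := fun a b hb f hf => by
    rw [← h.ker, LinearMap.mem_ker]
    exact h.deg0 a b f hf fun h1 => absurd h1.2 (not_le.2 hb)
  have key : ∀ a, ∑ σ : Equiv.Perm (Fin n) with ∀ i, c (σ i) = c i,
      (σ.partition.parts.map fun k => v ^ k - 1).prod * ∑ b ∈ range (dy ν + 1),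
        v ^ b * algebraMap ℂ QT (((Equiv.Perm.sign σ : ℤ) : ℂ) * qtr ν a (dy ν - b) σ) = 0 := by
    intro a
    have e0 := congrArg (fun p => v ^ (n + dy ν) * Polynomial.aeval v⁻¹ p) (hE n N ν c hG hB hK a)
    simp only [map_zero, mul_zero, map_sum, Finset.mul_sum] at e0
    rw [← e0]
    refine Finset.sum_congr rfl fun σ _ => ?_
    rw [Finset.mul_sum, ← Finset.sum_range_reflect]
    refine Finset.sum_congr rfl fun b hb => ?_
    have hb' : b ≤ dy ν := Nat.lt_succ_iff.1 (mem_range.1 hb)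
    have e1 : dy ν + 1 - 1 - b = dy ν - b := by omega
    have e2 : dy ν - (dy ν - b) = b := by omega
    have e3 : σ.partition.parts.sum = n := by
      rw [σ.partition.parts_sum, Fintype.card_fin]
    have e4 : v ^ dy ν * v⁻¹ ^ b = v ^ (dy ν - b) := by
      rw [inv_pow, pow_sub₀ v hv hb']
    rw [e1, e2, prod_inv hv, e3]
    simp only [map_mul, Polynomial.aeval_C, map_pow, Polynomial.aeval_X, map_multiset_prod,
      Multiset.map_map, Function.comp_def, map_sub, map_one]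
    rw [← e4, pow_add]
    ring
  simp only [chg_eq (fun ab hab => inf_bot h le_rfl hab), Finset.sum_product]
  simp only [Finset.mul_sum]
  rw [Finset.sum_comm]
  refine Finset.sum_eq_zero fun a ha => ?_
  have ha' : a ≤ dx ν := Nat.lt_succ_iff.1 (mem_range.1 ha)
  have e5 := congrArg (fun z => u ^ a * z) (key (dx ν - a))
  simp only [mul_zero, Finset.mul_sum] at e5
  rw [← e5]
  refine Finset.sum_congr rfl fun σ _ => Finset.sum_congr rfl fun b hb => ?_
  have hb' : b ≤ dy ν := Nat.lt_succ_iff.1 (mem_range.1 hb)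
  rw [htr a b σ, if_pos ⟨ha', hb'⟩, top_inf_eq, top_inf_eq]
  unfold qtr
  ring

end MT2Aux

open MT2Aux

theorem t2 : LamA → S_Geo → S_Phi → S_Tr → S_Eul → S_T2 := by
  intro hA hG hP hT hE n ν hν u v
  obtain ⟨Φ, hΦ⟩ := hP n ν hν.1
  rcases n with _ | m
  · refine ⟨part1 hA hν.1 hΦ (nrm_zero ν) u v, ?_⟩
    rintro N c ⟨S, hS⟩
    simp at hS
  · obtain ⟨h1, h2⟩ := hG m ν hν
    exact ⟨part1 hA hν.1 hΦ h1 u v, fun N c hc hv => part2 hT hE hΦ (h2 N c hc) u hv⟩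

theorem frob : LamA → S_Phi → S_Tr → S_Frob := by
  intro _ hP _ m e V hV
  obtain ⟨B, hB⟩ := box hP e hV
  have h1 : grFrob V = ∑ ab ∈ B, (qq ^ ab.1 * tt ^ ab.2) • Frob (V ⊓ Bi m ab.1 ab.2) := by
    unfold grFrob
    apply finsum_eq_sum_of_support_subset
    intro ab hab
    by_contra hn
    apply hab
    simp [hB ab (by simpa using hn), Frob, tr_bot]
  rw [h1]
  simp only [chg_eq hB, Frob, Finset.smul_sum, Finset.sum_div, Finset.sum_smul]
  rw [Finset.sum_comm]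
  refine Finset.sum_congr rfl fun σ _ => Finset.sum_congr rfl fun ab _ => ?_
  rw [smul_smul, map_div₀, map_natCast, mul_div_assoc]

end

end Pool.Agent.P.MP_c2aaf5_co
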