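import Pool.Agent.P.MP_c2aaf5_co.DefM

/-! The triangularity conditions at `q = t = 0` force a symmetric function to vanish. -/

set_option linter.unusedSectionVars false
set_option linter.unusedVariables false

namespace Pool.Agent.P.MP_c2aaf5_co

open MvPolynomial Finset

noncomputable section

namespace MU0Aux

/-- partial sums of row lengths -/
def R (ρ : YoungDiagram) (k : ℕ) : ℕ := ∑ i ∈ range k, ρ.rowLen i

lemma R_card (ρ : YoungDiagram) (k : ℕ) :
    R ρ k = (ρ.cells.filter fun c => c.1 < k).card := by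
  rw [R, card_eq_sum_card_fiberwise (f := Prod.fst) (t := range k)]
  · refine sum_congr rfl fun i hi => ?_
    rw [YoungDiagram.rowLen_eq_card]
    congr 1
    ext c
    simp only [YoungDiagram.mem_row_iff, mem_filter, YoungDiagram.mem_cells]
    constructor
    · rintro ⟨h1, h2⟩
      exact ⟨⟨h1, h2 ▸ mem_range.1 hi⟩, h2⟩
    · rintro ⟨⟨h1, _⟩, h2⟩
      exact ⟨h1, h2⟩
  · intro c hc
    simpa using (mem_filter.1 hc).2

lemma RT_card (ρ : YoungDiagram) (k : ℕ) :
    R ρ.transpose k = (ρ.cells.filter fun c => c.2 < k).card := by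
  rw [R_card]
  refine card_bij (fun c _ => c.swap) ?_ ?_ ?_
  · intro c hc
    simp only [mem_filter, YoungDiagram.mem_cells, YoungDiagram.mem_transpose] at hc ⊢
    exact ⟨hc.1, hc.2⟩
  · intro a _ b _ h
    exact Prod.swap_injective h
  · intro c hc
    refine ⟨c.swap, ?_, by simp⟩
    simp only [mem_filter, YoungDiagram.mem_cells, YoungDiagram.mem_transpose] at hc ⊢
    exact ⟨by simpa using hc.1, hc.2⟩

lemma row_lt {ρ : YoungDiagram} {i j : ℕ} (h : (i, j) ∈ ρ) : i < ρ.card := by
  have h1 : i < ρ.colLen j := YoungDiagram.mem_iff_lt_colLen.1 h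
  rw [YoungDiagram.colLen_eq_card] at h1
  exact lt_of_lt_of_le h1 (card_le_card (filter_subset _ _))

lemma col_lt {ρ : YoungDiagram} {i j : ℕ} (h : (i, j) ∈ ρ) : j < ρ.card := by
  have h1 : j < ρ.rowLen i := YoungDiagram.mem_iff_lt_rowLen.1 h
  rw [YoungDiagram.rowLen_eq_card] at h1
  exact lt_of_lt_of_le h1 (card_le_card (filter_subset _ _))

lemma card_transpose (ρ : YoungDiagram) : ρ.transpose.card = ρ.card := by
  simp [YoungDiagram.transpose, YoungDiagram.card]

lemma R_big (ρ : YoungDiagram) {k : ℕ} (hk : ρ.card ≤ k) : R ρ k = ρ.card := by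
  rw [R_card, filter_true_of_mem]
  intro c hc
  exact lt_of_lt_of_le (row_lt (j := c.2) hc) hk

lemma R_mono (ρ : YoungDiagram) {a b : ℕ} (h : a ≤ b) : R ρ a ≤ R ρ b :=
  sum_le_sum_of_subset (range_subset_range.2 h)

lemma eq_of_R {ρ κ : YoungDiagram} (h : ∀ k, R ρ k = R κ k) : ρ = κ := by
  have h1 : ∀ i, ρ.rowLen i = κ.rowLen i := by
    intro i
    have a := h (i + 1)
    have b := h i
    simp only [R, sum_range_succ] at a b
    omega
  ext ⟨i, j⟩
  simp only [YoungDiagram.mem_cells, YoungDiagram.mem_iff_lt_rowLen, h1]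

lemma rev {ρ ν : YoungDiagram} (hc : ρ.card = ν.card)
    (h : ∀ s, R ρ.transpose s ≤ R ν.transpose s) (k : ℕ) : R ν k ≤ R ρ k := by
  have hs := h (ρ.rowLen k)
  set s := ρ.rowLen k with hsdef
  rw [RT_card, RT_card] at hs
  have e1 := card_filter_add_card_filter_not (s := ρ.cells) (fun c : ℕ × ℕ => c.1 < k)
  have e2 := card_filter_add_card_filter_not (s := ν.cells) (fun c : ℕ × ℕ => c.1 < k)
  have l1 : k * s + (ρ.cells.filter fun c => ¬ c.1 < k).card ≤
      (ρ.cells.filter fun c => c.2 < s).card := by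
    have hd : Disjoint (range k ×ˢ range s) (ρ.cells.filter fun c => ¬ c.1 < k) := by
      rw [disjoint_left]
      intro c h1 h2
      exact (mem_filter.1 h2).2 (mem_range.1 (mem_product.1 h1).1)
    have := card_union_of_disjoint hd
    rw [card_product, card_range, card_range] at this
    rw [← this]
    refine card_le_card ?_
    rintro ⟨i, j⟩ hij
    rcases mem_union.1 hij with h1 | h1
    · have a := mem_range.1 (mem_product.1 h1).1
      have b := mem_range.1 (mem_product.1 h1).2
      refine mem_filter.2 ⟨?_, b⟩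
      have : (k, j) ∈ ρ := YoungDiagram.mem_iff_lt_rowLen.2 b
      exact ρ.up_left_mem (le_of_lt a) le_rfl this
    · have a := (mem_filter.1 h1).1
      have b := (mem_filter.1 h1).2
      refine mem_filter.2 ⟨a, ?_⟩
      have a' : j < ρ.rowLen i := YoungDiagram.mem_iff_lt_rowLen.1 a
      exact lt_of_lt_of_le a' (ρ.rowLen_anti _ _ (not_lt.1 b))
  have l2 : (ν.cells.filter fun c => c.2 < s).card ≤
      k * s + (ν.cells.filter fun c => ¬ c.1 < k).card := by
    have := card_union_le (range k ×ˢ range s) (ν.cells.filter fun c => ¬ c.1 < k)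
    rw [card_product, card_range, card_range] at this
    refine le_trans (card_le_card ?_) this
    rintro ⟨i, j⟩ hij
    by_cases hi : i < k
    · exact mem_union_left _ (mem_product.2 ⟨mem_range.2 hi, mem_range.2 (mem_filter.1 hij).2⟩)
    · exact mem_union_right _ (mem_filter.2 ⟨(mem_filter.1 hij).1, hi⟩)
  rw [R_card, R_card]
  have hc' : ρ.cells.card = ν.cells.card := hc
  omega

lemma R_min (ρ : YoungDiagram) {m : ℕ} (hm : ρ.card = m) (k : ℕ) :
    R ρ k = ∑ j : Fin (m + 1), min k (ρ.colLen j) := by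
  rw [R_card, Fin.sum_univ_eq_sum_range (fun j => min k (ρ.colLen j)) (m + 1),
    card_eq_sum_card_fiberwise (f := Prod.snd) (t := range (m + 1))]
  · refine sum_congr rfl fun j _ => ?_
    have : ((ρ.cells.filter fun c => c.1 < k).filter fun c => c.2 = j) =
        range (min k (ρ.colLen j)) ×ˢ {j} := by
      ext ⟨a, b⟩
      simp only [mem_filter, YoungDiagram.mem_cells, mem_product, mem_range, mem_singleton,
        lt_min_iff]
      constructor
      · rintro ⟨⟨h1, h2⟩, rfl⟩
        exact ⟨⟨h2, YoungDiagram.mem_iff_lt_colLen.1 h1⟩, rfl⟩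
      · rintro ⟨⟨h1, h2⟩, rfl⟩
        exact ⟨⟨YoungDiagram.mem_iff_lt_colLen.2 h2, h1⟩, rfl⟩
    rw [this, card_product, card_range, card_singleton, mul_one]
  · intro c hc
    have := col_lt (i := c.1) (j := c.2) (mem_filter.1 hc).1
    simp only [coe_range, Set.mem_Iio]
    omega

variable {m : ℕ}

/-- the row lengths as an exponent vector -/
def dR (m : ℕ) (ρ : YoungDiagram) : Fin (m + 1) →₀ ℕ :=
  Finsupp.equivFunOnFinite.symm fun i => ρ.rowLen i

@[simp] lemma dR_apply (ρ : YoungDiagram) (i : Fin (m + 1)) : dR m ρ i = ρ.rowLen i := rfl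

lemma sum_dR (ρ : YoungDiagram) (hm : ρ.card = m) (k : ℕ) :
    ∑ i ∈ univ.filter (fun i : Fin (m + 1) => i.val < k), dR m ρ i = R ρ k := by
  simp only [dR_apply]
  rw [sum_filter, Fin.sum_univ_eq_sum_range (fun i => if i < k then ρ.rowLen i else 0) (m + 1),
    ← sum_filter]
  have : (range (m + 1)).filter (fun i => i < k) = range (min k (m + 1)) := by
    ext i
    simp only [mem_filter, mem_range, lt_min_iff]
    tauto
  rw [this]
  rcases le_total k (m + 1) with h | h
  · rw [min_eq_left h]; rfl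
  · rw [min_eq_right h]
    have a := R_big ρ (k := m + 1) (by omega)
    have b := R_big ρ (k := k) (by omega)
    rw [b, ← a]; rfl

lemma card_lt_le (k : ℕ) : (univ.filter (fun i : Fin (m + 1) => i.val < k)).card ≤ k := by
  have := card_le_card_of_injOn (s := univ.filter (fun i : Fin (m + 1) => i.val < k))
    (t := range k) (fun i => i.val) (fun i hi => by simpa using hi)
    (fun a _ b _ h => Fin.ext h)
  simpa using this

lemma le_of_dom {ρ ν : YoungDiagram} (hm : ρ.card = m) (h : Dom (dR m ρ) ν.rowLen) (k : ℕ) :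
    R ρ k ≤ R ν k := by
  have := h (univ.filter (fun i : Fin (m + 1) => i.val < k))
  rw [sum_dR ρ hm] at this
  exact le_trans this (R_mono ν (card_lt_le k))

/-- the content of a colouring -/
def cont (c : Fin m → Fin (m + 1)) : Fin (m + 1) →₀ ℕ := ∑ i, Finsupp.single (c i) 1

lemma cont_apply (c : Fin m → Fin (m + 1)) (j : Fin (m + 1)) :
    cont c j = (univ.filter fun i => c i = j).card := by
  simp only [cont, Finsupp.finsetSum_apply, Finsupp.single_apply]
  rw [card_filter]

lemma cont_comp (c : Fin m → Fin (m + 1)) (τ : Equiv.Perm (Fin m)) : cont (c ∘ τ) = cont c :=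
  Equiv.sum_comp τ fun i => Finsupp.single (c i) 1

lemma prod_X (c : Fin m → Fin (m + 1)) :
    (∏ i, (X (c i) : MvPolynomial (Fin (m + 1)) ℂ)) = monomial (cont c) 1 := by
  rw [cont, monomial_sum_one]
  rfl

/-- number of invariant colourings of content `d` -/
def hh (d : Fin (m + 1) →₀ ℕ) (σ : Equiv.Perm (Fin m)) : ℕ :=
  (univ.filter fun c : Fin m → Fin (m + 1) => (∀ i, c (σ i) = c i) ∧ cont c = d).card

lemma hh_conj (d : Fin (m + 1) →₀ ℕ) (σ τ : Equiv.Perm (Fin m)) :
    hh d (τ * σ * τ⁻¹) = hh d σ := by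
  refine card_bij (fun c _ => c ∘ τ) ?_ ?_ ?_
  · intro c hc
    simp only [mem_filter, mem_univ, true_and] at hc ⊢
    refine ⟨fun i => ?_, by rw [cont_comp]; exact hc.2⟩
    have := hc.1 (τ i)
    simpa using this
  · intro a _ b _ h
    exact τ.surjective.injective_comp_right h
  · intro c hc
    simp only [mem_filter, mem_univ, true_and] at hc
    refine ⟨c ∘ (τ⁻¹ : Equiv.Perm (Fin m)), ?_, ?_⟩
    · simp only [mem_filter, mem_univ, true_and]
      refine ⟨fun i => ?_, by rw [cont_comp]; exact hc.2⟩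
      simp [hc.1]
    · funext i
      simp

lemma coeff_psum (hP : S_Psum) (d : Fin (m + 1) →₀ ℕ) (σ : Equiv.Perm (Fin m)) :
    coeff d (psumPart (Fin (m + 1)) ℂ σ.partition) = (hh d σ : ℂ) := by
  rw [hP m (m + 1) ℂ σ, coeff_sum]
  simp only [prod_X, coeff_monomial]
  rw [hh, ← filter_filter, card_filter]
  push_cast
  rfl

/-- the sign sum over a stabiliser -/
lemma sign_sum {β : Type} [DecidableEq β] (p : Fin m → β) :
    ∑ σ : Equiv.Perm (Fin m) with ∀ i, p (σ i) = p i, ((Equiv.Perm.sign σ : ℤ) : ℂ) =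
      if Function.Injective p then 1 else 0 := by
  split_ifs with h
  · have : (univ.filter fun σ : Equiv.Perm (Fin m) => ∀ i, p (σ i) = p i) = {1} := by
      ext σ
      simp only [mem_filter, mem_univ, true_and, mem_singleton]
      constructor
      · intro h1
        ext i
        rw [h (h1 i)]
        rfl
      · rintro rfl i
        rfl
    rw [this]
    simp
  · obtain ⟨a, b, hab, hne⟩ : ∃ a b, p a = p b ∧ a ≠ b := by
      by_contra h1
      push Not at h1
      exact h fun a b hab => h1 a b hab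
    have hsw : ∀ i, p (Equiv.swap a b i) = p i := by
      intro i
      rcases eq_or_ne i a with rfl | h1
      · rw [Equiv.swap_apply_left, hab]
      rcases eq_or_ne i b with rfl | h2
      · rw [Equiv.swap_apply_right, hab]
      · rw [Equiv.swap_apply_of_ne_of_ne h1 h2]
    refine sum_involution (fun σ _ => σ * Equiv.swap a b) ?_ ?_ ?_ ?_
    · intro σ _
      simp [Equiv.Perm.sign_mul, Equiv.Perm.sign_swap hne]
    · intro σ _ _ h1
      have : Equiv.swap a b = 1 := by simpa using h1
      exact hne (by simpa using this)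
    · intro σ hσ
      simp only [mem_filter, mem_univ, true_and] at hσ ⊢
      intro i
      rw [Equiv.Perm.mul_apply, hσ, hsw]
    · intro σ _
      simp [mul_assoc]

/-- signed version -/
def ee (d : Fin (m + 1) →₀ ℕ) (σ : Equiv.Perm (Fin m)) : ℂ :=
  ((Equiv.Perm.sign σ : ℤ) : ℂ) * hh d σ

/-- pairs of colourings with given contents that are jointly injective -/
def NN (d d' : Fin (m + 1) →₀ ℕ) : Finset ((Fin m → Fin (m + 1)) × (Fin m → Fin (m + 1))) :=
  univ.filter fun c => cont c.1 = d ∧ cont c.2 = d' ∧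
    Function.Injective fun i => (c.1 i, c.2 i)

lemma pair_eq (d d' : Fin (m + 1) →₀ ℕ) :
    ∑ σ : Equiv.Perm (Fin m), ee d σ * hh d' σ = ((NN d d').card : ℂ) := by
  classical
  have h1 : ∀ σ : Equiv.Perm (Fin m), ee d σ * hh d' σ =
      ∑ c : (Fin m → Fin (m + 1)) × (Fin m → Fin (m + 1)),
        if cont c.1 = d ∧ cont c.2 = d' then
          (if ∀ i, (c.1 (σ i), c.2 (σ i)) = (c.1 i, c.2 i) then
            ((Equiv.Perm.sign σ : ℤ) : ℂ) else 0) else 0 := by
    intro σ
    rw [ee, hh, hh, card_filter, card_filter, Fintype.sum_prod_type]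
    push_cast
    rw [mul_assoc, sum_mul_sum, mul_sum]
    refine sum_congr rfl fun c _ => ?_
    rw [mul_sum]
    refine sum_congr rfl fun c' _ => ?_
    simp only [Prod.mk.injEq, forall_and]
    by_cases a1 : ∀ i, c (σ i) = c i <;> by_cases a2 : ∀ i, c' (σ i) = c' i <;>
      by_cases a3 : cont c = d <;> by_cases a4 : cont c' = d' <;> simp [a1, a2, a3, a4]
  rw [sum_congr rfl fun σ _ => h1 σ, sum_comm, NN, card_filter]
  push_cast
  refine sum_congr rfl fun c _ => ?_
  have h2 := sign_sum (fun i => (c.1 i, c.2 i))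
  rw [sum_filter] at h2
  by_cases a : cont c.1 = d ∧ cont c.2 = d'
  · simp only [a, and_self, if_true, true_and]
    rw [h2]
  · simp only [a, if_false, sum_const_zero]
    rw [if_neg]
    tauto

lemma le_of_NN {ρ κ : YoungDiagram} (hρ : ρ.card = m) (hκ : κ.card = m)
    (h : (NN (dR m ρ.transpose) (dR m κ)).Nonempty) (k : ℕ) : R κ k ≤ R ρ k := by
  obtain ⟨⟨c, c'⟩, hc⟩ := h
  simp only [NN, mem_filter, mem_univ, true_and] at hc
  obtain ⟨h1, h2, h3⟩ := hc
  set S := univ.filter (fun i : Fin (m + 1) => i.val < k) with hS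
  have a1 : R κ k = (univ.filter fun x => c' x ∈ S).card := by
    rw [← sum_dR κ hκ, ← h2, card_eq_sum_card_fiberwise (f := c') (t := S)]
    · refine sum_congr rfl fun i hi => ?_
      rw [cont_apply, filter_filter]
      congr 1
      ext x
      simp only [mem_filter, mem_univ, true_and]
      constructor
      · intro hx
        exact ⟨by rw [hx]; exact hi, hx⟩
      · exact fun hx => hx.2
    · intro x hx
      simpa using hx
  rw [a1, R_min ρ hρ, card_eq_sum_card_fiberwise (f := c) (t := univ) (fun _ _ => by simp)]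
  refine sum_le_sum fun j _ => le_min ?_ ?_
  · refine le_trans (card_le_card_of_injOn c' ?_ ?_) (card_lt_le (m := m) k)
    · intro x hx
      exact (mem_filter.1 (mem_filter.1 hx).1).2
    · intro x hx y hy hxy
      have e1 := (mem_filter.1 hx).2
      have e2 := (mem_filter.1 hy).2
      exact h3 (Prod.ext (e1.trans e2.symm) hxy)
  · have : ρ.colLen j = cont c j := by rw [h1, dR_apply, YoungDiagram.rowLen_transpose]
    rw [this, cont_apply]
    refine card_le_card fun x hx => ?_
    exact mem_filter.2 ⟨mem_univ _, (mem_filter.1 hx).2⟩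

lemma NN_self {ρ : YoungDiagram} (hρ : ρ.card = m) :
    (NN (dR m ρ.transpose) (dR m ρ)).Nonempty := by
  have e : Fin m ≃ ρ.cells := (ρ.cells.equivFinOfCardEq hρ).symm
  have hr : ∀ x, (e x).1.1 < m + 1 := fun x => by
    have := row_lt (i := (e x).1.1) (j := (e x).1.2) (e x).2
    omega
  have hcl : ∀ x, (e x).1.2 < m + 1 := fun x => by
    have := col_lt (i := (e x).1.1) (j := (e x).1.2) (e x).2
    omega
  refine ⟨(fun x => ⟨(e x).1.2, hcl x⟩, fun x => ⟨(e x).1.1, hr x⟩), ?_⟩
  simp only [NN, mem_filter, mem_univ, true_and]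
  refine ⟨?_, ?_, ?_⟩
  · ext j
    rw [cont_apply, dR_apply, YoungDiagram.rowLen_transpose, YoungDiagram.colLen_eq_card]
    refine card_bij (fun x _ => (e x).1) ?_ ?_ ?_
    · intro x hx
      have := congrArg Fin.val (mem_filter.1 hx).2
      exact YoungDiagram.mem_col_iff.2 ⟨(e x).2, this⟩
    · intro a _ b _ h
      exact e.injective (Subtype.ext h)
    · intro c hc
      obtain ⟨h1, h2⟩ := YoungDiagram.mem_col_iff.1 hc
      refine ⟨e.symm ⟨c, h1⟩, mem_filter.2 ⟨mem_univ _, Fin.ext ?_⟩, by simp⟩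
      simp [h2]
  · ext j
    rw [cont_apply, dR_apply, YoungDiagram.rowLen_eq_card]
    refine card_bij (fun x _ => (e x).1) ?_ ?_ ?_
    · intro x hx
      have := congrArg Fin.val (mem_filter.1 hx).2
      exact YoungDiagram.mem_row_iff.2 ⟨(e x).2, this⟩
    · intro a _ b _ h
      exact e.injective (Subtype.ext h)
    · intro c hc
      obtain ⟨h1, h2⟩ := YoungDiagram.mem_row_iff.1 hc
      refine ⟨e.symm ⟨c, h1⟩, mem_filter.2 ⟨mem_univ _, Fin.ext ?_⟩, by simp⟩
      simp [h2]
  · intro a b h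
    have h1 := congrArg (fun p => p.1.val) h
    have h2 := congrArg (fun p => p.2.val) h
    exact e.injective (Subtype.ext (Prod.ext h2 h1))

/-- number of parts bigger than `j` -/
def cnt (l : m.Partition) (j : ℕ) : ℕ := (l.parts.filter fun a => j < a).card

lemma sum_cnt (s : Multiset ℕ) (N : ℕ) (h : ∀ a ∈ s, a ≤ N) :
    ∑ j ∈ range N, (s.filter fun a => j < a).card = s.sum := by
  induction s using Multiset.induction_on with
  | empty => simp
  | cons a s ih =>
    have h1 : ∀ j, ((a ::ₘ s).filter fun b => j < b).card =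
        (if j < a then 1 else 0) + (s.filter fun b => j < b).card := by
      intro j
      rw [Multiset.filter_cons]
      split_ifs <;> simp [add_comm]
    simp only [h1, sum_add_distrib, Multiset.sum_cons]
    rw [ih fun b hb => h b (Multiset.mem_cons_of_mem hb), ← card_filter]
    have : (range N).filter (fun j => j < a) = range a := by
      ext j
      have := h a (Multiset.mem_cons_self _ _)
      simp only [mem_filter, mem_range]
      omega
    rw [this, card_range]

lemma part_le (l : m.Partition) : ∀ a ∈ l.parts, a ≤ m := fun a ha => by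
  have := Multiset.single_le_sum (fun x _ => Nat.zero_le x) a ha
  rw [l.parts_sum] at this
  exact this

lemma cnt_anti (l : m.Partition) {a b : ℕ} (h : a ≤ b) : cnt l b ≤ cnt l a :=
  Multiset.card_le_card (Multiset.monotone_filter_right _ fun x hx => lt_of_le_of_lt h hx)

lemma cnt_big (l : m.Partition) {j : ℕ} (h : m ≤ j) : cnt l j = 0 := by
  rw [cnt, Multiset.card_eq_zero, Multiset.filter_eq_nil]
  intro a ha
  have := part_le l a ha
  omega

lemma sum_cnt' (l : m.Partition) : ∑ j ∈ range m, cnt l j = m :=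
  (sum_cnt l.parts m (part_le l)).trans l.parts_sum

lemma cnt_le (l : m.Partition) (j : ℕ) : cnt l j ≤ m := by
  by_cases h : j < m
  · exact le_trans (single_le_sum (f := cnt l) (fun _ _ => Nat.zero_le _) (mem_range.2 h))
      (sum_cnt' l).le
  · rw [cnt_big l (not_lt.1 h)]
    exact Nat.zero_le _

/-- the diagram whose row lengths are the conjugate of `l` -/
def Y (l : m.Partition) : YoungDiagram where
  cells := (range m ×ˢ range m).filter fun c => c.2 < cnt l c.1
  isLowerSet := by
    rintro ⟨a, b⟩ ⟨c, d⟩ ⟨h1, h2⟩ h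
    simp only [coe_filter, mem_product, mem_range, Set.mem_ofPred_eq] at h ⊢ h1 h2
    have := cnt_anti l h1
    omega

lemma rowLen_Y (l : m.Partition) (i : ℕ) : (Y l).rowLen i = cnt l i := by
  have h : ∀ j, j < (Y l).rowLen i ↔ j < cnt l i := by
    intro j
    rw [← YoungDiagram.mem_iff_lt_rowLen, ← YoungDiagram.mem_cells]
    simp only [Y, mem_filter, mem_product, mem_range]
    constructor
    · exact fun h => h.2
    · intro h
      refine ⟨⟨?_, lt_of_lt_of_le h (cnt_le l i)⟩, h⟩
      by_contra h1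
      rw [cnt_big l (not_lt.1 h1)] at h
      omega
  exact le_antisymm (not_lt.1 fun h1 => lt_irrefl _ ((h _).1 h1))
    (not_lt.1 fun h1 => lt_irrefl _ ((h _).2 h1))

lemma card_Y (l : m.Partition) : (Y l).card = m := by
  have h1 := R_card (Y l) m
  rw [filter_true_of_mem, R] at h1
  · simp only [rowLen_Y] at h1
    rw [sum_cnt'] at h1
    exact h1.symm
  · intro c hc
    exact mem_range.1 (mem_product.1 (mem_filter.1 hc).1).1

lemma cnt_succ (s : Multiset ℕ) (a : ℕ) :
    (s.filter fun b => a < b).card = s.count (a + 1) + (s.filter fun b => a + 1 < b).card := by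
  induction s using Multiset.induction_on with
  | empty => simp
  | cons b s ih =>
    rw [Multiset.filter_cons, Multiset.filter_cons, Multiset.count_cons, Multiset.card_add,
      Multiset.card_add, ih]
    split_ifs <;> simp <;> omega

lemma Y_inj {l l' : m.Partition} (h : Y l = Y l') : l = l' := by
  have h1 : ∀ i, cnt l i = cnt l' i := fun i => by rw [← rowLen_Y, ← rowLen_Y, h]
  ext a
  rcases a with _ | a
  · rw [Multiset.count_eq_zero_of_notMem fun h => lt_irrefl _ (l.parts_pos h),
      Multiset.count_eq_zero_of_notMem fun h => lt_irrefl _ (l'.parts_pos h)]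
  · have a1 := cnt_succ l.parts a
    have a2 := cnt_succ l'.parts a
    have a3 := h1 a
    have a4 := h1 (a + 1)
    simp only [cnt] at a3 a4
    omega

/-- the cycle type as a partition of `m` -/
def ty (σ : Equiv.Perm (Fin m)) : m.Partition where
  parts := σ.partition.parts
  parts_pos := σ.partition.parts_pos
  parts_sum := by rw [σ.partition.parts_sum, Fintype.card_fin]

lemma ty_surj (l : m.Partition) : ∃ σ : Equiv.Perm (Fin m), ty σ = l := by
  have hs := congrArg Multiset.sum (Multiset.filter_add_not (fun a => 2 ≤ a) l.parts)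
  rw [Multiset.sum_add, l.parts_sum] at hs
  obtain ⟨σ, hσ⟩ := (Equiv.Perm.exists_with_cycleType_iff (Fin m)
    (m := l.parts.filter fun a => 2 ≤ a)).2 ⟨by rw [Fintype.card_fin]; omega,
      fun a ha => (Multiset.mem_filter.1 ha).2⟩
  refine ⟨σ, ?_⟩
  ext1
  show σ.partition.parts = l.parts
  have h1 : l.parts.filter (fun a => ¬ 2 ≤ a) =
      Multiset.replicate (l.parts.filter (fun a => ¬ 2 ≤ a)).card 1 := by
    rw [Multiset.eq_replicate_card]
    intro a ha
    have := l.parts_pos (Multiset.mem_filter.1 ha).1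
    have := (Multiset.mem_filter.1 ha).2
    omega
  have h2 := congrArg Multiset.sum h1
  rw [Multiset.sum_replicate, smul_eq_mul, mul_one] at h2
  rw [Equiv.Perm.parts_partition, ← Equiv.Perm.sum_cycleType, hσ, Fintype.card_fin]
  have h3 : m - (l.parts.filter fun a => 2 ≤ a).sum = (l.parts.filter (fun a => ¬ 2 ≤ a)).card := by
    omega
  rw [h3, ← h1, Multiset.filter_add_not]

lemma conj_of_ty {σ τ : Equiv.Perm (Fin m)} (h : ty σ = ty τ) : IsConj σ τ := by
  rw [Equiv.Perm.partition_eq_of_isConj]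
  ext1
  exact congrArg (Nat.Partition.parts (n := m)) h

lemma sign_ty (σ : Equiv.Perm (Fin m)) :
    ((-1 : ℂ)) ^ (ty σ).parts.card = (-1) ^ m * ((Equiv.Perm.sign σ : ℤ) : ℂ) := by
  show ((-1 : ℂ)) ^ σ.partition.parts.card = _
  rw [Equiv.Perm.parts_partition, Equiv.Perm.sign_of_cycleType, Multiset.card_add,
    Multiset.card_replicate, Fintype.card_fin, Equiv.Perm.sum_cycleType]
  have h : σ.support.card ≤ m := by simpa using σ.support.card_le_univ
  obtain ⟨r, hr⟩ := Nat.exists_eq_add_of_le h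
  have h2 : m - σ.support.card = r := by omega
  rw [h2]
  push_cast
  generalize σ.support.card = s at hr
  subst hr
  rw [← pow_add, show s + r + (s + σ.cycleType.card) = 2 * s + (σ.cycleType.card + r) by ring,
    pow_add _ (2 * s), pow_mul]
  simp

/-- size of a class -/
def csz (l : m.Partition) : ℕ := (univ.filter fun σ : Equiv.Perm (Fin m) => ty σ = l).card

lemma csz_ne (l : m.Partition) : (csz l : ℂ) ≠ 0 := by
  obtain ⟨σ, hσ⟩ := ty_surj l
  exact Nat.cast_ne_zero.2 (card_ne_zero.2 ⟨σ, mem_filter.2 ⟨mem_univ _, hσ⟩⟩)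

lemma coeff_eq (hP : S_Psum) (b : m.Partition → ℂ) (d : Fin (m + 1) →₀ ℕ) :
    coeff d (∑ l : m.Partition, b l • psumPart (Fin (m + 1)) ℂ l) =
      ∑ σ : Equiv.Perm (Fin m), b (ty σ) / csz (ty σ) * hh d σ := by
  rw [coeff_sum, ← sum_fiberwise (s := univ) (g := ty)]
  refine sum_congr rfl fun l _ => ?_
  have : ∀ σ ∈ univ.filter (fun σ : Equiv.Perm (Fin m) => ty σ = l),
      b (ty σ) / csz (ty σ) * hh d σ = b l / csz l * coeff d (psumPart (Fin (m + 1)) ℂ l) := by
    intro σ hσ
    rw [← coeff_psum hP, ← (mem_filter.1 hσ).2]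
    rfl
  rw [sum_congr rfl this, sum_const, coeff_smul, smul_eq_mul, nsmul_eq_mul]
  have := csz_ne l
  change _ = (csz l : ℂ) * _
  field_simp

/-- the class function attached to a partition -/
def E (l : m.Partition) : Equiv.Perm (Fin m) → ℂ := ee (dR m (Y l).transpose)

/-- a weight refining dominance -/
def wt (l : m.Partition) : ℕ := ∑ k ∈ range (m + 1), R (Y l) k

lemma eq_of_le_wt {l l' : m.Partition} (h : ∀ k, R (Y l) k ≤ R (Y l') k) (hw : wt l' ≤ wt l) :
    l = l' := by
  refine Y_inj (eq_of_R fun k => ?_)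
  by_cases hk : k < m + 1
  · have := (sum_eq_sum_iff_of_le (s := range (m + 1)) (f := R (Y l)) (g := R (Y l'))
      fun k _ => h k).1 (le_antisymm (sum_le_sum fun k _ => h k) hw)
    exact this k (mem_range.2 hk)
  · rw [R_big _ (by rw [card_Y]; omega), R_big _ (by rw [card_Y]; omega), card_Y, card_Y]

lemma tri (u : m.Partition → ℂ) (l0 : m.Partition) (h0 : u l0 ≠ 0)
    (h : ∀ l, u l ≠ 0 → (∀ k, R (Y l0) k ≤ R (Y l) k) → l = l0) :
    ∑ σ : Equiv.Perm (Fin m), (∑ l, u l • E l) σ * hh (dR m (Y l0)) σ ≠ 0 := by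
  have h1 : ∑ σ : Equiv.Perm (Fin m), (∑ l, u l • E l) σ * hh (dR m (Y l0)) σ =
      ∑ l, u l * ((NN (dR m (Y l).transpose) (dR m (Y l0))).card : ℂ) := by
    simp only [Finset.sum_apply, Pi.smul_apply, smul_eq_mul, sum_mul]
    rw [sum_comm]
    refine sum_congr rfl fun l _ => ?_
    rw [← pair_eq, mul_sum]
    refine sum_congr rfl fun σ _ => ?_
    rw [E, mul_assoc]
  rw [h1, sum_eq_single l0]
  · exact mul_ne_zero h0 (Nat.cast_ne_zero.2 (card_ne_zero.2 (NN_self (card_Y l0))))
  · intro l _ hl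
    by_contra h2
    have a := left_ne_zero_of_mul h2
    have b := card_ne_zero.1 (Nat.cast_ne_zero.1 (right_ne_zero_of_mul h2))
    exact hl (h l a (le_of_NN (card_Y l) (card_Y l0) b))
  · intro h2
    exact absurd (mem_univ _) h2

lemma E_indep : LinearIndependent ℂ (E (m := m)) := by
  rw [Fintype.linearIndependent_iff]
  intro u hu
  by_contra h
  push Not at h
  obtain ⟨l0, h0, hmax⟩ := exists_max_image (univ.filter fun l => u l ≠ 0) wt
    (by obtain ⟨l, hl⟩ := h; exact ⟨l, mem_filter.2 ⟨mem_univ _, hl⟩⟩)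
  refine tri u l0 (mem_filter.1 h0).2 (fun l hl hle => ?_) (by rw [hu]; simp)
  exact (eq_of_le_wt hle (hmax l (mem_filter.2 ⟨mem_univ _, hl⟩))).symm

lemma E_class (l : m.Partition) : ∃ f : m.Partition → ℂ, E l = f ∘ ty := by
  refine ⟨fun l' => E l (ty_surj l').choose, funext fun σ => ?_⟩
  obtain ⟨τ, hτ⟩ := isConj_iff.1 (conj_of_ty (ty_surj (ty σ)).choose_spec)
  show E l σ = E l _
  conv_lhs => rw [← hτ]
  simp only [E, ee, hh_conj]
  congr 2
  simp only [Equiv.Perm.sign_mul, Equiv.Perm.sign_inv]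
  rw [mul_right_comm, Int.units_mul_self, one_mul]

lemma E_span (f : m.Partition → ℂ) : ∃ u : m.Partition → ℂ, ∑ l, u l • E l = f ∘ ty := by
  choose g hg using E_class (m := m)
  have hi : LinearIndependent ℂ g := by
    refine LinearIndependent.of_comp (LinearMap.funLeft ℂ ℂ ty) ?_
    have : (LinearMap.funLeft ℂ ℂ ty) ∘ g = E := funext fun l => (hg l).symm
    rw [this]
    exact E_indep
  have hs := hi.span_eq_top_of_card_eq_finrank' (by simp)
  have : f ∈ Submodule.span ℂ (Set.range g) := by rw [hs]; trivial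
  obtain ⟨u, hu⟩ := (Submodule.mem_span_range_iff_exists_fun ℂ).1 this
  refine ⟨u, funext fun σ => ?_⟩
  rw [← hu]
  simp only [Finset.sum_apply, Pi.smul_apply, Function.comp_apply, hg]

end MU0Aux

open MU0Aux in
theorem u0 : S_Psum → S_U0 := by
  intro hP m ν hν b H1 H2
  obtain ⟨u, hu⟩ := E_span fun l => b l / csz l
  have A : ∀ l, u l ≠ 0 → (∀ k, R (Y l) k ≤ R ν k) ∧ Y l ≠ ν := by
    by_contra h
    classical
    obtain ⟨l0, h0, hmax⟩ := exists_max_image
      (univ.filter fun l => u l ≠ 0 ∧ ¬((∀ k, R (Y l) k ≤ R ν k) ∧ Y l ≠ ν)) wt (by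
        obtain ⟨l, hl⟩ := not_forall.1 h
        exact ⟨l, mem_filter.2 ⟨mem_univ _, Classical.not_imp.1 hl⟩⟩)
    obtain ⟨a1, a2⟩ := (mem_filter.1 h0).2
    have t := tri u l0 a1 fun l hl hle => by
      refine (eq_of_le_wt hle (hmax l (mem_filter.2 ⟨mem_univ _, hl, fun hlt => a2 ?_⟩))).symm
      refine ⟨fun k => le_trans (hle k) (hlt.1 k), fun e => hlt.2 (eq_of_R fun k => ?_)⟩
      exact le_antisymm (hlt.1 k) (e ▸ hle k)
    rw [hu] at t
    obtain ⟨b1, b2⟩ := H1 (dR m (Y l0)) (by rw [coeff_eq hP]; exact t)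
    exact a2 ⟨le_of_dom (card_Y l0) b1, fun e => b2 fun i => by rw [dR_apply, e]⟩
  have B : ∀ l, u l ≠ 0 → ∑ σ : Equiv.Perm (Fin m), b (ty σ) / csz (ty σ) * E l σ = 0 := by
    intro l hl
    by_contra h
    have h2 := H2 (dR m (Y l).transpose) (by
      rw [coeff_eq hP]
      have : ∀ σ : Equiv.Perm (Fin m), b (ty σ) * (-1) ^ (ty σ).parts.card / csz (ty σ) *
          hh (dR m (Y l).transpose) σ = (-1) ^ m * (b (ty σ) / csz (ty σ) * E l σ) := by
        intro σ
        rw [sign_ty, E, ee]
        ring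
      rw [sum_congr rfl fun σ _ => this σ, ← mul_sum]
      exact mul_ne_zero (pow_ne_zero _ (by norm_num)) h)
    have h3 : ν.colLen = ν.transpose.rowLen := funext fun j => by simp
    rw [h3] at h2
    have h4 := le_of_dom (by rw [card_transpose, card_Y]) h2
    have h5 := rev (ρ := Y l) (ν := ν) (by rw [card_Y, hν]) h4
    exact (A l hl).2 (eq_of_R fun k => le_antisymm ((A l hl).1 k) (h5 k))
  have C : ∑ σ : Equiv.Perm (Fin m), (Complex.normSq (b (ty σ) / csz (ty σ)) : ℂ) = 0 := by
    have h1 : ∀ σ : Equiv.Perm (Fin m), (Complex.normSq (b (ty σ) / csz (ty σ)) : ℂ) =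
        ∑ l, (starRingEnd ℂ) (u l) * (b (ty σ) / csz (ty σ) * E l σ) := by
      intro σ
      have h2 := congrFun hu σ
      simp only [Finset.sum_apply, Pi.smul_apply, smul_eq_mul, Function.comp_apply] at h2
      rw [← Complex.mul_conj]
      conv_lhs => rw [← h2, map_sum, h2]
      rw [mul_sum]
      refine sum_congr rfl fun l _ => ?_
      rw [map_mul, E, ee, map_mul, map_intCast, map_natCast]
      ring
    rw [sum_congr rfl fun σ _ => h1 σ, sum_comm]
    refine sum_eq_zero fun l _ => ?_
    rw [← mul_sum]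
    by_cases hl : u l = 0
    · rw [hl]; simp
    · rw [B l hl, mul_zero]
  funext l
  obtain ⟨σ, rfl⟩ := ty_surj l
  have C' : ∑ σ : Equiv.Perm (Fin m), Complex.normSq (b (ty σ) / csz (ty σ)) = 0 := by
    exact_mod_cast C
  have := (sum_eq_zero_iff_of_nonneg fun σ _ => Complex.normSq_nonneg _).1 C' σ (mem_univ _)
  rw [Complex.normSq_eq_zero, div_eq_zero_iff] at this
  rcases this with h | h
  · exact h
  · exact absurd h (csz_ne _)

end

end Pool.Agent.P.MP_c2aaf5_co
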