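import Pool.Agent.P.MP_c2aaf5_co.DefM

/-! Package M10: uniqueness of the modified Macdonald polynomial. -/

namespace Pool.Agent.P.MP_c2aaf5_co

open MvPolynomial Finset

namespace MUniqAux

abbrev R2 := MvPolynomial (Fin 2) ℂ

theorem top_t (s : Multiset ℕ) (hs : ∀ k ∈ s, 0 < k) : ∀ (f : R2) (e : Fin 2 →₀ ℕ),
    (∀ e', e 1 < e' 1 → coeff e' f = 0) →
    coeff (e + Finsupp.single 1 s.sum) (f * (s.map fun k => (X 1 ^ k - 1 : R2)).prod) =
      coeff e f := by
  induction s using Multiset.induction_on with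
  | empty => intro f e _; simp
  | cons k s ih =>
    intro f e h
    have hk : 0 < k := hs k (Multiset.mem_cons_self _ _)
    rw [Multiset.map_cons, Multiset.prod_cons, ← mul_assoc, Multiset.sum_cons, Finsupp.single_add,
      ← add_assoc, ih (fun j hj => hs j (Multiset.mem_cons_of_mem hj))]
    · rw [mul_sub, mul_one, coeff_sub, X_pow_eq_monomial, coeff_mul_monomial, mul_one,
        h (e + Finsupp.single 1 k), sub_zero]
      simp [hk]
    · intro e' he'
      have he'' : e 1 + k < e' 1 := by simpa using he'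
      rw [mul_sub, mul_one, coeff_sub, X_pow_eq_monomial, coeff_mul_monomial', h e' (by omega),
        sub_zero]
      split_ifs
      · rw [h, zero_mul]
        simp only [Finsupp.coe_tsub, Pi.sub_apply, Finsupp.single_eq_same]
        omega
      · rfl

theorem low_q (s : Multiset ℕ) (hs : ∀ k ∈ s, 0 < k) (e : Fin 2 →₀ ℕ) : ∀ f : R2,
    (∀ e', e' 1 = e 1 → e' 0 < e 0 → coeff e' f = 0) →
    coeff e (f * (s.map fun k => (X 0 ^ k - 1 : R2)).prod) = coeff e f * (-1) ^ s.card := by
  induction s using Multiset.induction_on with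
  | empty => intro f _; simp
  | cons k s ih =>
    intro f h
    have hk : 0 < k := hs k (Multiset.mem_cons_self _ _)
    have key : ∀ e' : Fin 2 →₀ ℕ, e' 1 = e 1 → e' 0 ≤ e 0 →
        coeff e' (f * (X 0 ^ k - 1)) = -coeff e' f := by
      intro e' h1 h0
      rw [mul_sub, mul_one, coeff_sub, X_pow_eq_monomial, coeff_mul_monomial']
      split_ifs with hle
      · have hle' : k ≤ e' 0 := by simpa using hle 0
        rw [h, zero_mul, zero_sub]
        · simpa using h1
        · simp only [Finsupp.coe_tsub, Pi.sub_apply, Finsupp.single_eq_same]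
          omega
      · rw [zero_sub]
    rw [Multiset.map_cons, Multiset.prod_cons, ← mul_assoc,
      ih (fun j hj => hs j (Multiset.mem_cons_of_mem hj)), key e rfl le_rfl, Multiset.card_cons,
      pow_succ]
    · ring
    · intro e' h1 h0
      rw [key e' h1 h0.le, h e' h1 h0, neg_zero]

theorem coeff_psum {m N : ℕ} (l : m.Partition) (d : Fin N →₀ ℕ) :
    coeff d (psumPart (Fin N) QT l) =
      algebraMap R2 QT (C (coeff d (psumPart (Fin N) ℂ l))) := by
  have h : psumPart (Fin N) QT l = map (algebraMap ℂ QT) (psumPart (Fin N) ℂ l) := by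
    simp only [psumPart, map_multiset_prod, Multiset.map_map]
    congr 1
    refine Multiset.map_congr rfl fun k _ => ?_
    simp [psum]
  rw [h, coeff_map, IsScalarTower.algebraMap_apply ℂ R2 QT, MvPolynomial.algebraMap_eq]

theorem clear {m : ℕ} (i : Fin 2) (a : m.Partition → QT) (D : R2) (A : m.Partition → R2)
    (hA : ∀ l, algebraMap R2 QT (A l) = D • a l) (d : Fin (m + 1) →₀ ℕ)
    (h : coeff d (pleth (algebraMap R2 QT (X i)) a) = 0) :
    ∑ l, C (coeff d (psumPart (Fin (m + 1)) ℂ l)) *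
      (A l * (l.parts.map fun k => (X i ^ k - 1 : R2)).prod) = 0 := by
  apply IsFractionRing.injective R2 QT
  rw [map_zero, ← mul_zero (algebraMap R2 QT D), ← h, pleth, coeff_sum, Finset.mul_sum, map_sum]
  refine Finset.sum_congr rfl fun l _ => ?_
  rw [coeff_smul, coeff_psum, map_mul, map_mul, hA, map_multiset_prod, Multiset.map_map,
    Algebra.smul_def, smul_eq_mul]
  have : (⇑(algebraMap R2 QT) ∘ fun k => (X i ^ k - 1 : R2)) =
      fun k => algebraMap R2 QT (X i) ^ k - 1 := by
    funext k; simp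
  rw [this]
  ring

theorem claim (hU : S_U0) {m : ℕ} {ν : YoungDiagram} (hν : ν.card = m) (a : m.Partition → QT)
    (h1 : ∀ d, coeff d (pleth qq a) ≠ 0 → Dom d ν.colLen)
    (h2 : ∀ d, coeff d (pleth tt a) ≠ 0 → Dom d ν.rowLen)
    (h0 : ∀ d : Fin (m + 1) →₀ ℕ, (∀ i, d i = ν.rowLen i) → coeff d (pleth tt a) = 0) : a = 0 := by
  classical
  obtain ⟨D, hD⟩ := IsLocalization.exist_integer_multiples_of_finite (nonZeroDivisors R2) a
  choose A hA using hD
  by_contra hne
  obtain ⟨l0, hl0⟩ := Function.ne_iff.1 hne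
  have hA0 : A l0 ≠ 0 := by
    intro h
    have := hA l0
    rw [h, map_zero, Algebra.smul_def, eq_comm, mul_eq_zero] at this
    rcases this with h' | h'
    · exact nonZeroDivisors.ne_zero D.2 ((IsFractionRing.injective R2 QT) (by rw [h', map_zero]))
    · exact hl0 h'
  let U : Finset (Fin 2 →₀ ℕ) := univ.biUnion fun l => (A l).support
  have hU' : ∀ l e, e ∉ U → coeff e (A l) = 0 := fun l e he => by
    by_contra h
    exact he (mem_biUnion.2 ⟨l, mem_univ _, mem_support_iff.2 h⟩)
  have hUne : U.Nonempty := by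
    obtain ⟨e, he⟩ := MvPolynomial.ne_zero_iff.1 hA0
    exact ⟨e, mem_biUnion.2 ⟨l0, mem_univ _, mem_support_iff.2 he⟩⟩
  obtain ⟨e1, he1, hmax⟩ := exists_max_image U (fun e => e 1) hUne
  obtain ⟨e, he, hmin⟩ := exists_min_image (U.filter fun e => e 1 = e1 1) (fun e => e 0)
    ⟨e1, mem_filter.2 ⟨he1, rfl⟩⟩
  obtain ⟨heU, he1'⟩ := mem_filter.1 he
  have ht : ∀ l e', e 1 < e' 1 → coeff e' (A l) = 0 := fun l e' h => hU' l e' fun h' => by
    have := hmax e' h'
    omega
  have hq : ∀ l e', e' 1 = e 1 → e' 0 < e 0 → coeff e' (A l) = 0 := fun l e' h h0 =>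
    hU' l e' fun h' => by
      have := hmin e' (mem_filter.2 ⟨h', h.trans he1'⟩)
      omega
  have hb := hU m ν hν (fun l => coeff e (A l)) ?_ ?_
  · obtain ⟨l, _, hl⟩ := mem_biUnion.1 heU
    exact mem_support_iff.1 hl (congrFun hb l)
  · intro d hd
    have key : coeff d (pleth tt a) ≠ 0 := by
      intro h
      apply hd
      have h3 := congrArg (coeff (e + Finsupp.single 1 m)) (clear 1 a D A hA d h)
      rw [coeff_sum, coeff_zero] at h3
      rw [coeff_sum, ← h3]
      refine Finset.sum_congr rfl fun l _ => ?_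
      have h4 := top_t l.parts (fun k hk => l.parts_pos hk) (A l) e (ht l)
      rw [l.parts_sum] at h4
      rw [coeff_smul, coeff_C_mul, h4, smul_eq_mul, mul_comm]
    exact ⟨h2 d key, fun h => key (h0 d h)⟩
  · intro d hd
    refine h1 d fun h => hd ?_
    have h3 := congrArg (coeff e) (clear 0 a D A hA d h)
    rw [coeff_sum, coeff_zero] at h3
    rw [coeff_sum, ← h3]
    refine Finset.sum_congr rfl fun l _ => ?_
    rw [coeff_smul, coeff_C_mul, low_q l.parts (fun k hk => l.parts_pos hk) e (A l) (hq l),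
      smul_eq_mul, mul_comm]

theorem pleth_lin {m : ℕ} (c x y : QT) (a a' : m.Partition → QT) (d : Fin (m + 1) →₀ ℕ) :
    coeff d (pleth c fun l => x * a l - y * a' l) =
      x * coeff d (pleth c a) - y * coeff d (pleth c a') := by
  simp only [pleth, coeff_sum, coeff_smul, smul_eq_mul, Finset.mul_sum, ← Finset.sum_sub_distrib]
  refine Finset.sum_congr rfl fun l _ => ?_
  ring

end MUniqAux

open MUniqAux

theorem uniq (hU : S_U0) : S_Uniq := by
  rintro m ν hν H H' ⟨a, rfl, h1, h2, h3⟩ ⟨a', rfl, h1', h2', h3'⟩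
  let d0 : Fin (m + 1) →₀ ℕ := Finsupp.equivFunOnFinite.symm fun i => ν.rowLen i
  have hd0 : ∀ d : Fin (m + 1) →₀ ℕ, (∀ i, d i = ν.rowLen i) → d = d0 := fun d h =>
    Finsupp.ext h
  have hL : coeff d0 (pleth tt a) ≠ 0 := by
    intro h
    have := claim hU hν a h1 h2 fun d hd => by rw [hd0 d hd, h]
    simp [this] at h3
  have h4 := claim hU hν
    (fun l => coeff d0 (pleth tt a') * a l - coeff d0 (pleth tt a) * a' l) ?_ ?_ ?_
  · have h5 : ∀ l, coeff d0 (pleth tt a') * a l = coeff d0 (pleth tt a) * a' l := fun l =>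
      sub_eq_zero.1 (congrFun h4 l)
    have h6 : coeff d0 (pleth tt a') = coeff d0 (pleth tt a) := by
      rw [← mul_one (coeff d0 (pleth tt a')), ← mul_one (coeff d0 (pleth tt a))]
      nth_rw 1 [← h3]
      rw [← h3']
      simp only [coeff_sum, coeff_smul, smul_eq_mul, Finset.mul_sum, ← mul_assoc, h5]
    refine Finset.sum_congr rfl fun l _ => ?_
    have h7 := h5 l
    rw [h6] at h7
    rw [mul_left_cancel₀ hL h7]
  · intro d hd
    rw [pleth_lin] at hd
    by_contra h
    rw [not_not.1 (mt (h1 d) h), not_not.1 (mt (h1' d) h)] at hd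
    simp at hd
  · intro d hd
    rw [pleth_lin] at hd
    by_contra h
    rw [not_not.1 (mt (h2 d) h), not_not.1 (mt (h2' d) h)] at hd
    simp at hd
  · intro d hd
    rw [pleth_lin, hd0 d hd]
    ring

end Pool.Agent.P.MP_c2aaf5_co
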