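import Pool.Agent.P.MP_c2aaf5_co.AsmG
import Pool.Agent.P.MP_c2aaf5_co.MPhi
import Pool.Agent.P.MP_c2aaf5_co.MSF
import Pool.Agent.P.MP_c2aaf5_co.MEul
import Pool.Agent.P.MP_c2aaf5_co.MT2
import Pool.Agent.P.MP_c2aaf5_co.MMac
import Pool.Agent.P.MP_c2aaf5_co.MU0
import Pool.Agent.P.MP_c2aaf5_co.MUniq

/-! Assembly of the final statement from the two polygraph inputs. -/

namespace Pool.Agent.P.MP_c2aaf5_co

open MvPolynomial Finset

namespace AsmMAux

theorem exists_lists {m : ℕ} (ν : YoungDiagram) (h : ν.card = m) :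
    ∃ e : Fin m → ℕ × ℕ, Lists e ν := by
  let q := equivFinOfCardEq h
  refine ⟨fun s => (q.symm s).1, Subtype.val_injective.comp q.symm.injective, fun c => ⟨fun hc => ?_, ?_⟩⟩
  · exact ⟨q ⟨c, hc⟩, by simp⟩
  · rintro ⟨s, rfl⟩; exact (q.symm s).2

theorem cells_eq {m : ℕ} {e : Fin m → ℕ × ℕ} {ν : YoungDiagram} (h : Lists e ν) :
    ν.cells = univ.image e := by
  ext c; simp [h.2 c]

theorem card_eq {m : ℕ} {e : Fin m → ℕ × ℕ} {ν : YoungDiagram} (h : Lists e ν) : ν.card = m := by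
  rw [YoungDiagram.card, cells_eq h, card_image_of_injective _ h.1, card_univ, Fintype.card_fin]

theorem der_le {m : ℕ} (c : ℂ) (D : Pol m) : Der (c • D) ≤ Der D := by
  refine Submodule.span_le.2 ?_
  rintro _ ⟨l, rfl⟩
  have : l.foldr (fun v h => pderiv v h) (c • D) = c • l.foldr (fun v h => pderiv v h) D := by
    induction l with
    | nil => rfl
    | cons v l ih => simp only [List.foldr_cons, ih, Derivation.map_smul]
  rw [this]
  exact Submodule.smul_mem _ _ (Submodule.subset_span ⟨l, rfl⟩)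

theorem der_le' {m : ℕ} {e e' : Fin m → ℕ × ℕ} {ν : YoungDiagram} (h : Lists e ν)
    (h' : Lists e' ν) : Der (Delta e) ≤ Der (Delta e') := by
  choose τ hτ using fun s => (h'.2 (e s)).1 ((h.2 _).2 ⟨s, rfl⟩)
  have hi : Function.Injective τ := fun a b hab => h.1 (by rw [← hτ, ← hτ, hab])
  let σ : Equiv.Perm (Fin m) := Equiv.ofBijective τ (Finite.injective_iff_bijective.1 hi)
  have : Delta e = ((Equiv.Perm.sign σ : ℤ) : ℂ) • Delta e' := by
    unfold Delta
    rw [Algebra.smul_def, map_intCast, ← Matrix.det_permute']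
    congr 1; ext r s
    simp [σ, hτ]
  rw [this]; exact der_le _ _

theorem der_eq {m : ℕ} {e e' : Fin m → ℕ × ℕ} {ν : YoungDiagram} (h : Lists e ν)
    (h' : Lists e' ν) : Der (Delta e) = Der (Delta e') := le_antisymm (der_le' h h') (der_le' h' h)

theorem tt_eq {m : ℕ} {e : Fin m → ℕ × ℕ} {ν : YoungDiagram} (h : Lists (fun s => (e s).swap) ν) :
    TT ν = Tq e := by
  rw [TT, cells_eq h, prod_image fun a _ b _ hab => h.1 hab, prod_mul_distrib, Tq, dx, dy,
    prod_pow_eq_pow_sum, prod_pow_eq_pow_sum, mul_comm]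
  rfl

theorem exists_corner {m : ℕ} {E : Fin (m + 1) → ℕ × ℕ} {μ ν : YoungDiagram} (hE : Lists E μ)
    (hν : ν.card = m) (hle : ν ≤ μ) : ∃ s : Cor fun u => (E u).swap,
      Lists (fun r => (rm (fun u => (E u).swap) s r).swap) ν := by
  have h1 : (μ.cells \ ν.cells).card = 1 := by
    rw [card_sdiff_of_subset (YoungDiagram.cells_subset_iff.2 hle)]
    have := card_eq hE
    rw [YoungDiagram.card] at this hν; omega
  obtain ⟨c, hc⟩ := card_eq_one.1 h1
  have h2 : ∀ d, d ∈ μ ∧ d ∉ ν ↔ d = c := fun d => by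
    rw [← mem_singleton, ← hc, mem_sdiff]; rfl
  obtain ⟨s, rfl⟩ := (hE.2 c).1 ((h2 c).2 rfl).1
  have h3 : ∀ v, v ≠ s → E v ∈ ν := fun v hv => by
    by_contra h
    exact hv (hE.1 ((h2 _).1 ⟨(hE.2 _).2 ⟨v, rfl⟩, h⟩))
  refine ⟨⟨s, fun v hv => ?_⟩, hE.1.comp (Fin.succAbove_right_injective (p := s)), fun d => ⟨fun hd => ?_, ?_⟩⟩
  · by_contra h
    exact ((h2 _).2 rfl).2 (ν.isLowerSet (Prod.swap_le_swap.1 hv) (h3 v h))
  · obtain ⟨v, rfl⟩ := (hE.2 d).1 (hle hd)
    obtain ⟨r, rfl⟩ := Fin.exists_succAbove_eq (show v ≠ s by rintro rfl; exact ((h2 _).2 rfl).2 hd)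
    exact ⟨r, rfl⟩
  · rintro ⟨r, rfl⟩
    exact h3 _ (Fin.succAbove_ne s r)

end AsmMAux

open AsmMAux in
theorem final_of (hL : S_Lin) (hJ : S_KFJ) : Final := by
  have hPhi := phiEx lamA
  have hTr := trc lamA
  have hFr := frob lamA hPhi hTr
  have hM := mac (t2 lamA (geo hL hJ) hPhi hTr eul) psumc hFr
  have hU := uniq (u0 psumc)
  refine ⟨fun m ν h => ?_, fun m μ hμ k hk ν hν hle e he H hH => ?_⟩
  · obtain ⟨e, he⟩ := exists_lists ν h
    exact ⟨_, hM m ν e he, fun H hH => hU m ν h _ _ hH (hM m ν e he)⟩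
  obtain ⟨E, hE⟩ := exists_lists μ hμ
  have hd : IsDiag fun u => (E u).swap := ⟨Prod.swap_injective.comp hE.1, fun i h hh => by
    obtain ⟨j, hj⟩ := (hE.2 h.swap).1 (μ.isLowerSet (Prod.swap_le_swap.2 hh) ((hE.2 _).2 ⟨i, rfl⟩))
    exact ⟨j, by simp [hj]⟩⟩
  choose s hs using fun i => exists_corner hE (card_eq (he i)) (hle i)
  have si : Function.Injective s := fun i j h => hν (YoungDiagram.ext (by
    rw [cells_eq (hs i), cells_eq (hs j), h]))
  have e1 : ∀ i, Der (Delta (e i)) = Der (Dl (rm (fun u => (E u).swap) (s i))) := fun i =>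
    der_eq (he i) (hs i)
  have e2 : ⨅ i, Der (Delta (e i)) = ⨅ t ∈ univ.image s, Der (Dl (rm (fun u => (E u).swap) t)) := by
    rw [iInf_finset_image]; simp [e1]
  have h0 := sf lamA (sfcAll hL) hPhi hTr m _ hd (univ.image s)
    (image_nonempty.2 ⟨⟨0, hk⟩, mem_univ _⟩)
  rw [hFr m (e ⟨0, hk⟩) _ (iInf_le (fun i => Der (Delta (e i))) _), e2]
  simp only [h0, sum_image fun a _ b _ h => si h]
  simp only [sum_div, sum_smul]
  rw [sum_comm]
  refine sum_congr rfl fun i _ => ?_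
  rw [hU m (ν i) (card_eq (he i)) _ _ (hH i) (hM m _ _ (he i)), hFr m (e i) _ le_rfl, smul_sum,
    ← image_erase si, prod_image fun a _ b _ h => si h]
  refine sum_congr rfl fun σ _ => ?_
  rw [smul_smul, mul_div_assoc, e1]
  simp only [tt_eq (hs _)]

end Pool.Agent.P.MP_c2aaf5_co
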