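import Mathlib

/-! Cochains on finite sets, annihilation and creation operators, Koszul differentials. -/

set_option linter.unusedSectionVars false

namespace Pool.Agent.P.MP_c2aaf5_co

open Finset

section
variable {σ : Type} [LinearOrder σ] {X : Type} [AddCommGroup X]

/-- sign of moving `s` past the elements of `I` below it -/
def sg (s : σ) (I : Finset σ) : ℤ := (-1) ^ (I.filter (· < s)).card

/-- annihilation operator -/
def an (s : σ) : (Finset σ → X) →+ (Finset σ → X) where
  toFun φ I := if s ∈ I then 0 else sg s I • φ (insert s I)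
  map_zero' := by funext I; simp
  map_add' φ ψ := by funext I; by_cases h : s ∈ I <;> simp [h]

/-- creation operator -/
def cr (s : σ) : (Finset σ → X) →+ (Finset σ → X) where
  toFun φ I := if s ∈ I then sg s I • φ (I.erase s) else 0
  map_zero' := by funext I; simp
  map_add' φ ψ := by funext I; by_cases h : s ∈ I <;> simp [h]

theorem an_apply (s : σ) (φ : Finset σ → X) (I : Finset σ) :
    an s φ I = if s ∈ I then 0 else sg s I • φ (insert s I) := rfl

theorem cr_apply (s : σ) (φ : Finset σ → X) (I : Finset σ) :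
    cr s φ I = if s ∈ I then sg s I • φ (I.erase s) else 0 := rfl

theorem sg_mul_self (s : σ) (I : Finset σ) : sg s I * sg s I = 1 := by
  unfold sg; rw [← mul_pow]; simp

theorem sg_eq_or (s : σ) (I : Finset σ) : sg s I = 1 ∨ sg s I = -1 := neg_one_pow_eq_or _ _

theorem sg_smul_smul (s : σ) (I : Finset σ) (v : X) : sg s I • sg s I • v = v := by
  rw [smul_smul, sg_mul_self, one_smul]

theorem sg_insert_self (s : σ) (I : Finset σ) : sg s (insert s I) = sg s I := by
  unfold sg; rw [filter_insert]; simp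

theorem sg_erase_self (s : σ) (I : Finset σ) : sg s (I.erase s) = sg s I := by
  by_cases h : s ∈ I
  · rw [← sg_insert_self, insert_erase h]
  · rw [erase_eq_of_notMem h]

theorem sg_insert {s t : σ} {I : Finset σ} (h : t ∉ I) :
    sg s (insert t I) = if t < s then -sg s I else sg s I := by
  unfold sg; rw [filter_insert]
  split_ifs with h1
  · rw [card_insert_of_notMem (by simp [h]), pow_succ]; ring
  · rfl

theorem sg_of_forall_lt {s : σ} {I : Finset σ} (h : ∀ t ∈ I, s < t) : sg s I = 1 := by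
  unfold sg
  rw [filter_false_of_mem (fun t ht => not_lt.2 (h t ht).le)]; simp

theorem sg_swap {s t : σ} {I : Finset σ} (hst : s ≠ t) (hs : s ∉ I) (ht : t ∉ I) :
    sg s I * sg t (insert s I) = -(sg t I * sg s (insert t I)) := by
  rw [sg_insert hs, sg_insert ht]
  rcases lt_or_gt_of_ne hst with h | h
  · simp [h, not_lt.2 h.le]; ring
  · simp [h, not_lt.2 h.le]; ring

theorem an_an_self (s : σ) (φ : Finset σ → X) : an s (an s φ) = 0 := by
  funext I; by_cases h : s ∈ I <;> simp [an_apply, h]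

theorem cr_cr_self (s : σ) (φ : Finset σ → X) : cr s (cr s φ) = 0 := by
  funext I; by_cases h : s ∈ I <;> simp [cr_apply, h]

theorem an_an (s t : σ) (φ : Finset σ → X) : an s (an t φ) = -an t (an s φ) := by
  by_cases hst : s = t
  · subst hst; simp [an_an_self]
  funext I
  by_cases hs : s ∈ I
  · simp [an_apply, hs]
  by_cases ht : t ∈ I
  · simp [an_apply, ht]
  have h1 : t ∉ insert s I := by simp [ht, Ne.symm hst]
  have h2 : s ∉ insert t I := by simp [hs, hst]
  simp only [an_apply, hs, ht, h1, h2, if_false, Pi.neg_apply, smul_smul]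
  rw [sg_swap hst hs ht, insert_comm, neg_smul]

theorem cr_cr (s t : σ) (φ : Finset σ → X) : cr s (cr t φ) = -cr t (cr s φ) := by
  by_cases hst : s = t
  · subst hst; simp [cr_cr_self]
  funext I
  by_cases hs : s ∈ I
  swap
  · simp [cr_apply, hs]
  by_cases ht : t ∈ I
  swap
  · simp [cr_apply, ht]
  obtain ⟨J, hJ, rfl⟩ : ∃ J, (s ∉ J ∧ t ∉ J) ∧ I = insert s (insert t J) :=
    ⟨(I.erase s).erase t, ⟨by simp, by simp⟩, by
      rw [insert_erase (by simp [ht, Ne.symm hst]), insert_erase hs]⟩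
  have h2 : s ∉ insert t J := by simp [hJ.1, hst]
  have h1 : t ∉ insert s J := by simp [hJ.2, Ne.symm hst]
  have e1 : (insert s (insert t J)).erase s = insert t J := erase_insert h2
  have e2 : (insert s (insert t J)).erase t = insert s J := by rw [insert_comm, erase_insert h1]
  simp only [cr_apply, hs, ht, if_true, Pi.neg_apply, e1, e2, mem_insert_self, smul_smul,
    erase_insert hJ.1, erase_insert hJ.2]
  rw [sg_insert_self, sg_insert_self t J, insert_comm s t J, sg_insert_self, sg_insert_self s J,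
    mul_comm, mul_comm (sg t (insert s J)), sg_swap hst hJ.1 hJ.2, neg_smul, neg_neg]

theorem an_cr_self (s : σ) (φ : Finset σ → X) : an s (cr s φ) + cr s (an s φ) = φ := by
  funext I
  by_cases h : s ∈ I
  · simp [an_apply, cr_apply, h, sg_erase_self, sg_smul_smul]
  · simp [an_apply, cr_apply, h, sg_insert_self, sg_smul_smul]

theorem an_cr {s t : σ} (hst : s ≠ t) (φ : Finset σ → X) : an s (cr t φ) = -cr t (an s φ) := by
  funext I
  by_cases hs : s ∈ I
  · simp [an_apply, cr_apply, hs, hst]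
  by_cases ht : t ∈ I
  swap
  · simp [an_apply, cr_apply, ht, Ne.symm hst]
  obtain ⟨J, hJ, rfl⟩ : ∃ J, t ∉ J ∧ I = insert t J := ⟨I.erase t, by simp, by rw [insert_erase ht]⟩
  have hsJ : s ∉ J := fun h => hs (mem_insert_of_mem h)
  have h1 : t ∉ insert s J := by simp [hJ, Ne.symm hst]
  have e2 : (insert s (insert t J)).erase t = insert s J := by rw [insert_comm, erase_insert h1]
  have h3 : t ∈ insert s (insert t J) := by simp
  simp only [an_apply, cr_apply, hs, ht, h3, hsJ, if_true, if_false, Pi.neg_apply, e2, smul_smul,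
    erase_insert hJ]
  rw [insert_comm s t J, sg_insert_self, sg_insert_self, ← neg_smul]
  congr 1
  have h := sg_swap hst hsJ hJ
  have a1 := sg_mul_self s J
  have a2 := sg_mul_self s (insert t J)
  linear_combination (sg s (insert t J) * sg s J) * h - (sg s (insert t J) * sg t (insert s J)) * a1
    - (sg t J * sg s J) * a2

theorem an_smul {M : Type} [Monoid M] [DistribMulAction M X] (s : σ) (c : M) (φ : Finset σ → X) :
    an s (c • φ) = c • an s φ := by
  funext I; by_cases h : s ∈ I <;> simp [an_apply, h, smul_comm c]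

theorem cr_smul {M : Type} [Monoid M] [DistribMulAction M X] (s : σ) (c : M) (φ : Finset σ → X) :
    cr s (c • φ) = c • cr s φ := by
  funext I; by_cases h : s ∈ I <;> simp [cr_apply, h, smul_comm c]

/-- all values in `A` -/
def In (A : AddSubgroup X) (φ : Finset σ → X) : Prop := ∀ I, φ I ∈ A

/-- values in `A`, supported on the subsets of `U` of size `p` -/
def Val (U : Finset σ) (p : ℕ) (A : AddSubgroup X) (φ : Finset σ → X) : Prop :=
  ∀ I, φ I ∈ A ∧ (¬(I ⊆ U ∧ I.card = p) → φ I = 0)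

variable {K : Type} [CommRing K] [Module K X]

/-- contraction with `ξ` (homological Koszul differential) -/
def dd (U : Finset σ) (ξ : σ → K) : (Finset σ → X) →+ (Finset σ → X) where
  toFun φ := ∑ s ∈ U, ξ s • an s φ
  map_zero' := by simp
  map_add' φ ψ := by simp [sum_add_distrib]

/-- wedge with `ξ` (cohomological Koszul differential) -/
def wd (U : Finset σ) (ξ : σ → K) : (Finset σ → X) →+ (Finset σ → X) where
  toFun φ := ∑ s ∈ U, ξ s • cr s φ
  map_zero' := by simp
  map_add' φ ψ := by simp [sum_add_distrib]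

theorem dd_def (U : Finset σ) (ξ : σ → K) (φ : Finset σ → X) :
    dd U ξ φ = ∑ s ∈ U, ξ s • an s φ := rfl

theorem wd_def (U : Finset σ) (ξ : σ → K) (φ : Finset σ → X) :
    wd U ξ φ = ∑ s ∈ U, ξ s • cr s φ := rfl

theorem dd_smul (U : Finset σ) (ξ : σ → K) (c : K) (φ : Finset σ → X) :
    dd U ξ (c • φ) = c • dd U ξ φ := by
  simp only [dd_def, an_smul, smul_sum, smul_comm c]

theorem wd_smul (U : Finset σ) (ξ : σ → K) (c : K) (φ : Finset σ → X) :
    wd U ξ (c • φ) = c • wd U ξ φ := by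
  simp only [wd_def, cr_smul, smul_sum, smul_comm c]

theorem an_dd (U : Finset σ) (ξ : σ → K) (s : σ) (φ : Finset σ → X) :
    an s (dd U ξ φ) = -dd U ξ (an s φ) := by
  simp only [dd_def, map_sum, an_smul, ← sum_neg_distrib]
  exact sum_congr rfl fun t _ => by rw [an_an, smul_neg]

theorem cr_wd (U : Finset σ) (ξ : σ → K) (s : σ) (φ : Finset σ → X) :
    cr s (wd U ξ φ) = -wd U ξ (cr s φ) := by
  simp only [wd_def, map_sum, cr_smul, ← sum_neg_distrib]
  exact sum_congr rfl fun t _ => by rw [cr_cr, smul_neg]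

theorem an_wd (U : Finset σ) (ξ : σ → K) (s : σ) (φ : Finset σ → X) :
    an s (wd U ξ φ) + wd U ξ (an s φ) = if s ∈ U then ξ s • φ else 0 := by
  simp only [wd_def, map_sum, an_smul, ← sum_add_distrib, ← smul_add]
  rw [← sum_ite_eq U s fun t => ξ t • φ]
  refine sum_congr rfl fun t _ => ?_
  split_ifs with h
  · subst h; rw [an_cr_self]
  · rw [an_cr h]; simp

theorem cr_dd (U : Finset σ) (ξ : σ → K) (s : σ) (φ : Finset σ → X) :
    cr s (dd U ξ φ) + dd U ξ (cr s φ) = if s ∈ U then ξ s • φ else 0 := by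
  simp only [dd_def, map_sum, cr_smul, ← sum_add_distrib, ← smul_add]
  rw [← sum_ite_eq U s fun t => ξ t • φ]
  refine sum_congr rfl fun t _ => ?_
  split_ifs with h
  · subst h; rw [add_comm, an_cr_self]
  · rw [an_cr (Ne.symm h)]; simp

theorem dd_dd (U : Finset σ) (ξ : σ → K) (φ : Finset σ → X) : dd U ξ (dd U ξ φ) = 0 := by
  induction U using Finset.induction_on generalizing φ with
  | empty => simp [dd_def]
  | insert a U ha ih =>
    have e : ∀ ψ : Finset σ → X, dd (insert a U) ξ ψ = ξ a • an a ψ + dd U ξ ψ := fun ψ => by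
      simp only [dd_def, sum_insert ha]
    rw [e, e, map_add, map_add, ih, an_smul, an_an_self, dd_smul, an_dd]; simp

theorem wd_wd (U : Finset σ) (ξ : σ → K) (φ : Finset σ → X) : wd U ξ (wd U ξ φ) = 0 := by
  induction U using Finset.induction_on generalizing φ with
  | empty => simp [wd_def]
  | insert a U ha ih =>
    have e : ∀ ψ : Finset σ → X, wd (insert a U) ξ ψ = ξ a • cr a ψ + wd U ξ ψ := fun ψ => by
      simp only [wd_def, sum_insert ha]
    rw [e, e, map_add, map_add, ih, cr_smul, cr_cr_self, wd_smul, cr_wd]; simp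

theorem dd_wd (U : Finset σ) (ξ η : σ → K) (φ : Finset σ → X) :
    dd U η (wd U ξ φ) + wd U ξ (dd U η φ) = (∑ s ∈ U, η s * ξ s) • φ := by
  rw [dd_def U η (wd U ξ φ), dd_def U η φ, map_sum, ← sum_add_distrib, sum_smul]
  refine sum_congr rfl fun s hs => ?_
  rw [wd_smul, ← smul_add, an_wd, if_pos hs, smul_smul]

/-- vanishing of one Koszul homology group of a subquotient -/
def Hv (U : Finset σ) (ξ : σ → K) (p : ℕ) (A0 A1 B1 B2 : AddSubgroup X) : Prop :=
  ∀ φ : Finset σ → X, Val U p A1 φ → In B2 (dd U ξ φ) →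
    ∃ ψ : Finset σ → X, Val U (p + 1) A0 ψ ∧ In B1 (φ - dd U ξ ψ)

/-- the graded subquotient `A / B` has Castelnuovo-Mumford regularity at most zero -/
def Reg0 (U : Finset σ) (ξ : σ → K) (A B : ℕ → AddSubgroup X) : Prop :=
  ∀ p j, Hv U ξ p (A j) (A (j + 1)) (B (j + 1)) (B (j + 2))

/-- the Koszul complex of `A / B` is exact in positive degrees -/
def KF (U : Finset σ) (ξ : σ → K) (A B : AddSubgroup X) : Prop := ∀ p, Hv U ξ (p + 1) A A B B

/-- a graded family is stable under the `ξ s` -/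
def Stab (U : Finset σ) (ξ : σ → K) (A : ℕ → AddSubgroup X) : Prop :=
  ∀ j, ∀ s ∈ U, ∀ v ∈ A j, ξ s • v ∈ A (j + 1)

/-- a subgroup is stable under the `ξ s` -/
def Stab0 (U : Finset σ) (ξ : σ → K) (A : AddSubgroup X) : Prop := ∀ s ∈ U, ∀ v ∈ A, ξ s • v ∈ A

theorem Val.in {U : Finset σ} {p : ℕ} {A : AddSubgroup X} {φ : Finset σ → X} (h : Val U p A φ) :
    In A φ := fun I => (h I).1

theorem In.an {A : AddSubgroup X} {φ : Finset σ → X} (h : In A φ) (s : σ) : In A (an s φ) := by
  intro I; rw [an_apply]; split_ifs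
  · exact A.zero_mem
  · exact A.zsmul_mem (h _) _

theorem In.cr {A : AddSubgroup X} {φ : Finset σ → X} (h : In A φ) (s : σ) : In A (cr s φ) := by
  intro I; rw [cr_apply]; split_ifs
  · exact A.zsmul_mem (h _) _
  · exact A.zero_mem

theorem In.dd {U : Finset σ} {ξ : σ → K} {A A' : AddSubgroup X} {φ : Finset σ → X} (h : In A φ)
    (hs : ∀ s ∈ U, ∀ v ∈ A, ξ s • v ∈ A') : In A' (dd U ξ φ) := by
  intro I; rw [dd_def, Finset.sum_apply]
  exact A'.sum_mem fun s h' => hs s h' _ (h.an s I)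

theorem In.wd {U : Finset σ} {ξ : σ → K} {A A' : AddSubgroup X} {φ : Finset σ → X} (h : In A φ)
    (hs : ∀ s ∈ U, ∀ v ∈ A, ξ s • v ∈ A') : In A' (wd U ξ φ) := by
  intro I; rw [wd_def, Finset.sum_apply]
  exact A'.sum_mem fun s h' => hs s h' _ (h.cr s I)

theorem Val.an {U : Finset σ} {p : ℕ} {A : AddSubgroup X} {φ : Finset σ → X}
    (h : Val U (p + 1) A φ) (s : σ) : Val U p A (an s φ) := by
  refine fun I => ⟨h.in.an s I, fun hI => ?_⟩
  rw [an_apply]; split_ifs with hs
  · rfl
  · rw [(h _).2, smul_zero]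
    rintro ⟨h1, h2⟩
    rw [card_insert_of_notMem hs] at h2
    exact hI ⟨(subset_insert s I).trans h1, by omega⟩

theorem Val.an_zero {U : Finset σ} {A : AddSubgroup X} {φ : Finset σ → X}
    (h : Val U 0 A φ) (s : σ) : Pool.Agent.P.MP_c2aaf5_co.an s φ = 0 := by
  funext I
  rw [an_apply]; split_ifs with hs
  · rfl
  · rw [(h _).2, smul_zero]; · rfl
    rintro ⟨_, h2⟩
    rw [card_insert_of_notMem hs] at h2; omega

theorem Val.cr {U : Finset σ} {p : ℕ} {A : AddSubgroup X} {φ : Finset σ → X}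
    (h : Val U p A φ) {s : σ} (hs : s ∈ U) : Val U (p + 1) A (cr s φ) := by
  refine fun I => ⟨h.in.cr s I, fun hI => ?_⟩
  rw [cr_apply]; split_ifs with hsI
  · rw [(h _).2, smul_zero]
    rintro ⟨h1, h2⟩
    refine hI ⟨fun t ht => ?_, by rw [← h2, card_erase_add_one hsI]⟩
    by_cases e : t = s
    · exact e ▸ hs
    · exact h1 (mem_erase.2 ⟨e, ht⟩)
  · rfl

theorem Val.dd {U : Finset σ} {ξ : σ → K} {p : ℕ} {A A' : AddSubgroup X} {φ : Finset σ → X}
    (h : Val U (p + 1) A φ) (hs : ∀ s ∈ U, ∀ v ∈ A, ξ s • v ∈ A') : Val U p A' (dd U ξ φ) := by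
  refine fun I => ⟨h.in.dd hs I, fun hI => ?_⟩
  rw [dd_def, Finset.sum_apply]
  exact sum_eq_zero fun s _ => by rw [Pi.smul_apply, ((h.an s) I).2 hI, smul_zero]

theorem Val.wd {U : Finset σ} {ξ : σ → K} {p : ℕ} {A A' : AddSubgroup X} {φ : Finset σ → X}
    (h : Val U p A φ) (hs : ∀ s ∈ U, ∀ v ∈ A, ξ s • v ∈ A') : Val U (p + 1) A' (wd U ξ φ) := by
  refine fun I => ⟨h.in.wd hs I, fun hI => ?_⟩
  rw [wd_def, Finset.sum_apply]
  exact sum_eq_zero fun s h' => by rw [Pi.smul_apply, ((h.cr h') I).2 hI, smul_zero]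

theorem Val.sub {U : Finset σ} {p : ℕ} {A : AddSubgroup X} {φ ψ : Finset σ → X}
    (h : Val U p A φ) (h' : Val U p A ψ) : Val U p A (φ - ψ) := fun I =>
  ⟨A.sub_mem (h I).1 (h' I).1, fun hI => by simp [(h I).2 hI, (h' I).2 hI]⟩

theorem Val.add {U : Finset σ} {p : ℕ} {A : AddSubgroup X} {φ ψ : Finset σ → X}
    (h : Val U p A φ) (h' : Val U p A ψ) : Val U p A (φ + ψ) := fun I =>
  ⟨A.add_mem (h I).1 (h' I).1, fun hI => by simp [(h I).2 hI, (h' I).2 hI]⟩

theorem Val.mono {U : Finset σ} {p : ℕ} {A A' : AddSubgroup X} {φ : Finset σ → X}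
    (h : Val U p A φ) (hA : A ≤ A') : Val U p A' φ := fun I => ⟨hA (h I).1, (h I).2⟩

theorem Val.of_in {U : Finset σ} {p : ℕ} {A A' : AddSubgroup X} {φ : Finset σ → X}
    (h : Val U p A φ) (h' : In A' φ) : Val U p A' φ := fun I => ⟨h' I, (h I).2⟩

theorem val_zero (U : Finset σ) (p : ℕ) (A : AddSubgroup X) : Val U p A (0 : Finset σ → X) :=
  fun _ => ⟨A.zero_mem, fun _ => rfl⟩

end

end Pool.Agent.P.MP_c2aaf5_co
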