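import Pool.Agent.P.MP_c2aaf5_co.Car

/-! Polygraph part: definitions and statements. -/

set_option linter.unusedSectionVars false

namespace Pool.Agent.P.MP_c2aaf5_co

open MvPolynomial Finset

noncomputable section

/-- ambient ring: one copy of `Y[x_p]` for every map `f : Λ → P` -/
abbrev Am (P Λ Y : Type) [CommRing Y] := (Λ → P) → MvPolynomial P Y

/-- labels `(T, f)` -/
abbrev Lab (P Λ : Type) := Finset P × (Λ → P)

section defs
variable {P Λ Y : Type} [Fintype P] [DecidableEq P] [Fintype Λ] [DecidableEq Λ] [CommRing Y]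

def av (Y : Type) [CommRing Y] (s : Λ) : Am P Λ Y := fun f => X (f s)

def bv (y : P → Y) (s : Λ) : Am P Λ Y := fun f => C (y (f s))

/-- `b_s - y_o` -/
def bt (y : P → Y) (s : Λ) (o : P) : Am P Λ Y := fun f => C (y (f s) - y o)

/-- the polygraph ring on the index set `L` -/
def RR (y : P → Y) (L : Finset Λ) : Subalgebra (MvPolynomial P Y) (Am P Λ Y) :=
  Algebra.adjoin _ (av Y '' (L : Set Λ) ∪ bv y '' (L : Set Λ))

/-- zero set of an exponent vector -/
def zs (e : P →₀ ℕ) : Finset P := univ.filter fun p => e p = 0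

/-- `v` vanishes on the labels of `S` -/
def Van (S : Set (Lab P Λ)) (v : Am P Λ Y) : Prop :=
  ∀ f e, (zs e, f) ∈ S → coeff e (v f) = 0

/-- products of differences `y r - y s`, `r ≠ s` in `N`, `{r,s} ≠ {p,q}` -/
def Mult (y : P → Y) (N : Finset P) (p q : P) : Submonoid Y :=
  Submonoid.closure
    {g | ∃ r ∈ N, ∃ s ∈ N, r ≠ s ∧ ¬(r = p ∧ s = q) ∧ ¬(r = q ∧ s = p) ∧ g = y r - y s}

/-- products of arbitrary differences -/
def MultA (y : P → Y) : Submonoid Y := Submonoid.closure {g | ∃ r s, r ≠ s ∧ g = y r - y s}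

/-- hypotheses on the base ring (true for `Y = k[y]`) -/
structure Base (y : P → Y) : Prop where
  inj : Function.Injective y
  amb : ∀ D ∈ MultA y, ∀ a : Y, (∀ p q, ∃ G ∈ Mult y univ p q, D ∣ G * a) → D ∣ a

/-- `v` lies in `M` on the labels of `S`, locally at every pair -/
def Loc (y : P → Y) (S : Set (Lab P Λ)) (M : Set (Am P Λ Y)) (v : Am P Λ Y) : Prop :=
  ∀ p q, ∃ G ∈ Mult y univ p q, ∃ u ∈ M, Van S ((C G : MvPolynomial P Y) • v - u)

/-- local membership implies membership -/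
def Good (y : P → Y) (S : Set (Lab P Λ)) (M : Set (Am P Λ Y)) : Prop :=
  ∀ v, Loc y S M v → ∃ u ∈ M, Van S (v - u)

/-- allowed maps -/
def All (N : Finset P) (L : Finset Λ) (f : Λ → P) : Prop := ∀ s ∈ L, f s ∈ N

def rho (N : Finset P) (L : Finset Λ) (rk : P → ℕ) (rl : Λ → ℕ) (r k : ℕ) (a : Lab P Λ) : ℕ :=
  (N.filter fun j => j ∈ a.1 ∧ rk j < r ∧ ∀ s ∈ L, rl s < k → a.2 s ≠ j).card

def Le (N : Finset P) (L : Finset Λ) (rk : P → ℕ) (rl : Λ → ℕ) (a b : Lab P Λ) : Prop :=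
  (∀ r k, rho N L rk rl r k a ≤ rho N L rk rl r k b) ∧ ∀ j ∈ a.1, j ∉ N → j ∈ b.1

/-- the family of label sets of level `(N, L, rk, rl)` -/
def Up (N : Finset P) (L : Finset Λ) (rk : P → ℕ) (rl : Λ → ℕ) (S : Set (Lab P Λ)) : Prop :=
  (∀ a ∈ S, All N L a.2) ∧ ∀ a ∈ S, ∀ b, All N L b.2 → Le N L rk rl a b → b ∈ S

/-- initial segment of `L` -/
def Ek (L : Finset Λ) (rl : Λ → ℕ) (k : ℕ) : Finset Λ := L.filter fun s => rl s < k

/-- `o` is the first point of `N` -/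
def First (N : Finset P) (rk : P → ℕ) (o : P) : Prop := o ∈ N ∧ ∀ j ∈ N, rk o ≤ rk j

def Yo (N : Finset P) (L : Finset Λ) (o : P) (E : Finset Λ) : Set (Lab P Λ) :=
  {a | All N L a.2 ∧ o ∈ a.1 ∧ ∀ s ∈ E, a.2 s ≠ o}

def Ts (N : Finset P) (o : P) (E : Finset Λ) (a : Lab P Λ) : Finset P :=
  N.filter fun j => j ∈ a.1 ∧ j ≠ o ∧ ∀ s ∈ E, a.2 s ≠ j

def Ge (N : Finset P) (L : Finset Λ) (o : P) (E : Finset Λ) (c : ℕ) : Set (Lab P Λ) :=
  {a | All N L a.2 ∧ c ≤ (Ts N o E a).card}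

def phi (y : P → Y) (N : Finset P) (o : P) (E : Finset Λ) (a : Lab P Λ) : Y :=
  ∏ j ∈ Ts N o E a, (y o - y j)

/-- labels with `f t = o` -/
def At (t : Λ) (o : P) : Set (Lab P Λ) := {a | a.2 t = o}

/-- labels with `f t ∈ T` -/
def Hit (t : Λ) : Set (Lab P Λ) := {a | a.2 t ∈ a.1}

def Ee (N : Finset P) (o : P) (t : Λ) (V : Set (Lab P Λ)) : Set (Lab P Λ) :=
  {a | a ∈ V ∧ a.2 t ∈ N ∧ a.2 t ∈ a.1 ∧ a.2 t ≠ o}

def Cm (N : Finset P) (m : ℕ) : Set (Lab P Λ) := {a | m ≤ (N.filter (· ∈ a.1)).card}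

/-- closed under enlarging `T` -/
def TUp (S : Set (Lab P Λ)) : Prop := ∀ T T' f, (T, f) ∈ S → T ⊆ T' → (T', f) ∈ S

/-- depends only on the values of `f` on `L` -/
def MeasS (L : Finset Λ) (S : Set (Lab P Λ)) : Prop :=
  ∀ T f f', (∀ s ∈ L, f s = f' s) → (T, f) ∈ S → (T, f') ∈ S

def Meas (L : Finset Λ) (v : Am P Λ Y) : Prop := ∀ f f', (∀ s ∈ L, f s = f' s) → v f = v f'

/-- elements of `RR L` vanishing on `S`, times `RR L'` : the ideal they generate -/
def IdV (y : P → Y) (L L' : Finset Λ) (S : Set (Lab P Λ)) : Submodule (MvPolynomial P Y) (Am P Λ Y) :=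
  Submodule.span _ {v | ∃ g ∈ RR y L, Van S g ∧ ∃ r ∈ RR y L', v = r * g}

/-! ### the local model at a pair `p, q` -/

def nn (y : P → Y) (p q : P) : Ideal (MvPolynomial P Y) := Ideal.span {X p - X q, C (y p - y q)}

def Dq (p q : P) (s : Λ) (v : Am P Λ Y) : Am P Λ Y :=
  fun f => v (Function.update f s p) - v (Function.update f s q)

theorem foldr_Dq_add (p q : P) (l : List Λ) (v w : Am P Λ Y) :
    l.foldr (Dq p q) (v + w) = l.foldr (Dq p q) v + l.foldr (Dq p q) w := by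
  induction l with
  | nil => rfl
  | cons s l ih => funext f; simp only [List.foldr_cons, ih, Dq, Pi.add_apply]; ring

theorem foldr_Dq_smul (p q : P) (l : List Λ) (c : MvPolynomial P Y) (v : Am P Λ Y) :
    l.foldr (Dq p q) (c • v) = c • l.foldr (Dq p q) v := by
  induction l with
  | nil => rfl
  | cons s l ih =>
    funext f; simp only [List.foldr_cons, ih, Dq, Pi.smul_apply, smul_eq_mul]; ring

/-- functions whose iterated differences lie in the powers of `nn` -/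
def Qk (y : P → Y) (p q : P) (L : Finset Λ) (k : ℕ) : Submodule (MvPolynomial P Y) (Am P Λ Y) where
  carrier := {v | Meas L v ∧ ∀ l : List Λ, l.Nodup → (∀ s ∈ l, s ∈ L) → ∀ f,
    l.foldr (Dq p q) v f ∈ nn y p q ^ (l.length + k)}
  add_mem' := by
    rintro v w ⟨h1, h2⟩ ⟨h3, h4⟩
    refine ⟨fun f f' h => by simp [h1 f f' h, h3 f f' h], fun l a b f => ?_⟩
    rw [foldr_Dq_add]; exact Ideal.add_mem _ (h2 l a b f) (h4 l a b f)
  zero_mem' := by
    refine ⟨fun _ _ _ => rfl, fun l _ _ f => ?_⟩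
    have := foldr_Dq_smul p q l (0 : MvPolynomial P Y) (0 : Am P Λ Y)
    rw [zero_smul, zero_smul] at this
    rw [this]; exact Ideal.zero_mem _
  smul_mem' := by
    rintro c v ⟨h1, h2⟩
    refine ⟨fun f f' h => by simp [h1 f f' h], fun l a b f => ?_⟩
    rw [foldr_Dq_smul]; exact Ideal.mul_mem_left _ _ (h2 l a b f)

/-- class of a point: `p` and `q` are identified -/
def cl (p q r : P) : P := if r = p then q else r

/-- canonical representative of the class of `f` -/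
def rep (p q : P) (L : Finset Λ) (f : Λ → P) : Λ → P := fun s => if s ∈ L then cl p q (f s) else q

/-- send the indices of `E` to `r` -/
def mv (E : Finset Λ) (r : P) (f : Λ → P) : Λ → P := fun s => if s ∈ E then r else f s

/-- keep the monomials whose exponent satisfies `c` -/
def keep (c : (P →₀ ℕ) → Prop) [DecidablePred c] (g : MvPolynomial P Y) : MvPolynomial P Y :=
  ∑ e ∈ g.support with c e, monomial e (coeff e g)

/-- keep the monomials whose zero set off `p, q` is `T'` -/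
def prj (p q : P) (T' : Finset P) : MvPolynomial P Y → MvPolynomial P Y :=
  keep fun e => ((zs e).erase p).erase q = T'

/-- keep the monomials that contain neither `x_p` nor `x_q` -/
def prz (p q : P) : MvPolynomial P Y → MvPolynomial P Y := keep fun e => e p = 0 ∧ e q = 0

/-- facts on the ideals `nn ^ a` -/
structure NApi (y : P → Y) (p q : P) : Prop where
  divx : ∀ (r : P) (a : ℕ) (g : MvPolynomial P Y), X r * g ∈ nn y p q ^ a → g ∈ nn y p q ^ a
  lxx : ∀ (a : ℕ) (g : MvPolynomial P Y), g ∈ nn y p q ^ a →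
    (∀ e : P →₀ ℕ, e p = 0 → e q = 0 → coeff e g = 0) →
    ∃ g1 ∈ nn y p q ^ a, ∃ g2 ∈ nn y p q ^ a,
      C (y p - y q) * g = (X p - X q) * g1 + X p * C (y p - y q) * g2
  prj_mem : ∀ (T' : Finset P) (a : ℕ) (g : MvPolynomial P Y), g ∈ nn y p q ^ a →
    prj p q T' g ∈ nn y p q ^ a
  prz_mem : ∀ (a : ℕ) (g : MvPolynomial P Y), g ∈ nn y p q ^ a → prz p q g ∈ nn y p q ^ a

/-- the interface of the local model -/
structure QApi (Λ : Type) [Fintype Λ] [DecidableEq Λ] (y : P → Y) (p q : P) : Prop where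
  sub : ∀ (L : Finset Λ) k v s r, v ∈ Qk y p q L k →
    (fun f => v (Function.update f s r)) ∈ Qk y p q (L.erase s) k
  dq : ∀ (L : Finset Λ) k v s, s ∈ L → v ∈ Qk y p q L k → Dq p q s v ∈ Qk y p q (L.erase s) (k + 1)
  asm : ∀ (L : Finset Λ) k v s, s ∈ L → Meas L v →
    (∀ r, (fun f => v (Function.update f s r)) ∈ Qk y p q (L.erase s) k) →
    Dq p q s v ∈ Qk y p q (L.erase s) (k + 1) → v ∈ Qk y p q L k
  mono : ∀ (L L' : Finset Λ) k k', L ⊆ L' → k' ≤ k → Qk y p q L k ≤ Qk y p q L' k'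
  mul : ∀ (L : Finset Λ) k k' v w, v ∈ Qk y p q L k → w ∈ Qk y p q L k' →
    v * w ∈ Qk y p q L (k + k')
  rr : ∀ (L : Finset Λ) v, v ∈ RR y L → v ∈ Qk y p q L 0
  cls : ∀ (L : Finset Λ) k (v : Am P Λ Y),
    (∀ f f', (∀ s ∈ L, cl p q (f s) = cl p q (f' s)) → v f = v f') →
    (∀ f, v f ∈ nn y p q ^ k) → v ∈ Qk y p q L k
  es : ∀ (L : Finset Λ) k v s r, s ∈ L → v ∈ Qk y p q (L.erase s) (k + 1) →
    (fun f => if f s = r then v f else 0) ∈ Qk y p q L k
  msub : ∀ (L E : Finset Λ) k v r, v ∈ Qk y p q L k → (fun f => v (mv E r f)) ∈ Qk y p q (L \ E) k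
  mdq : ∀ (L E : Finset Λ) k v, v ∈ Qk y p q L k →
    (fun f => v (mv E p f) - v (mv E q f)) ∈ Qk y p q (L \ E) (k + 1)
  split : ∀ (L : Finset Λ) k v, v ∈ Qk y p q L (k + 1) → ∃ v1 ∈ Qk y p q L k, ∃ v2 ∈ Qk y p q L k,
    v = (X p - X q : MvPolynomial P Y) • v1 + (C (y p - y q) : MvPolynomial P Y) • v2
  prj_mem : ∀ (L : Finset Λ) k v T', v ∈ Qk y p q L k → (fun f => prj p q T' (v f)) ∈ Qk y p q L k
  prz_mem : ∀ (L : Finset Λ) k v, v ∈ Qk y p q L k → (fun f => prz p q (v f)) ∈ Qk y p q L k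
  divx : ∀ (L : Finset Λ) k v (r : P), v ∈ Qk y p q L k →
    (∀ f (e : P →₀ ℕ), e r = 0 → coeff e (v f) = 0) →
    ∃ v' ∈ Qk y p q L k, v = (X r : MvPolynomial P Y) • v'
  lxx : ∀ (L : Finset Λ) k v, v ∈ Qk y p q L k →
    (∀ f (e : P →₀ ℕ), e p = 0 → e q = 0 → coeff e (v f) = 0) →
    ∃ v1 ∈ Qk y p q L k, ∃ v2 ∈ Qk y p q L k, (C (y p - y q) : MvPolynomial P Y) • v =
      (X p - X q : MvPolynomial P Y) • v1 + (X p * C (y p - y q) : MvPolynomial P Y) • v2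
  glue : ∀ (L : Finset Λ) k (g : (Λ → P) → Finset P → Am P Λ Y), (∀ f T', g f T' ∈ Qk y p q L k) →
    ∃ v ∈ Qk y p q L k, ∀ f e,
      coeff e (v f) = coeff e (g (rep p q L f) (((zs e).erase p).erase q) f)
  clear : ∀ (N : Finset P) (L : Finset Λ) v, p ∈ N → q ∈ N → v ∈ Qk y p q L 0 →
    ∃ G ∈ Mult y N p q, ∃ u ∈ RR y L, ∀ f, All N L f → C G * v f = u f

/-! ### local statements at the pair `p ≠ q` of `N` -/

def LD (Λ : Type) [Fintype Λ] [DecidableEq Λ] (y : P → Y) (N : Finset P) (p q : P) : Prop :=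
  ∀ (L : Finset Λ) (rk : P → ℕ) (rl : Λ → ℕ), Function.Injective rl → rk p < rk q →
    ∀ S S', Up N L rk rl S → Up N L rk rl S' → ∀ u ∈ RR y L, Van (S ∩ S') u →
    ∃ G ∈ Mult y N p q, ∃ u1 ∈ RR y L, Van S ((C G : MvPolynomial P Y) • u - u1) ∧ Van S' u1

def L1 (Λ : Type) [Fintype Λ] [DecidableEq Λ] (y : P → Y) (N : Finset P) (p q : P) : Prop :=
  ∀ (L E : Finset Λ) (t : Λ) (o : P) (c : ℕ), o ∈ N → o ≠ q → E ⊆ L → t ∉ L →
    ∀ v ∈ RR y (insert t L), Van (Yo N (insert t L) o (insert t E)) v →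
    Van (Yo N (insert t L) o E ∩ At t o ∩ Ge N (insert t L) o E (c + 1)) v →
    ∃ G ∈ Mult y N p q, ∃ g ∈ RR y L, Van (Ge N L o E (c + 1)) g ∧
      ∀ f e, (zs e, f) ∈ Yo N (insert t L) o E → f t = o → (Ts N o E (zs e, f)).card = c →
        G * coeff e (v f) = phi y N o E (zs e, f) * coeff e (g f)

def L2 (Λ : Type) [Fintype Λ] [DecidableEq Λ] (y : P → Y) (N : Finset P) (p q : P) : Prop :=
  ∀ (L E : Finset Λ) (o : P) (c : ℕ), o ∈ N → o ≠ q → E ⊆ L →
    ∀ g ∈ RR y L, Van (Ge N L o E (c + 1)) g →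
    ∃ G ∈ Mult y N p q, ∃ w ∈ RR y L, Van (Yo N L o E ∩ Ge N L o E (c + 1)) w ∧
      ∀ f e, (zs e, f) ∈ Yo N L o E → (Ts N o E (zs e, f)).card = c →
        coeff e (w f) = G * (phi y N o E (zs e, f) * coeff e (g f))

def L3 (Λ : Type) [Fintype Λ] [DecidableEq Λ] (y : P → Y) (N : Finset P) (p q : P) : Prop :=
  ∀ (L E : Finset Λ) (t : Λ) (o : P) (c : ℕ), o ∈ N → o ≠ q → E ⊆ L → t ∉ L →
    ∀ g ∈ RR y L, Van (Ge N L o E (c + 1)) g →
    ∀ w ∈ RR y L, Van (Yo N L o E ∩ Ge N L o E (c + 1)) w →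
    (∀ f e, (zs e, f) ∈ Yo N L o E → (Ts N o E (zs e, f)).card = c →
        coeff e (w f) = phi y N o E (zs e, f) * coeff e (g f)) →
    ∃ G ∈ Mult y N p q, ∃ d1 ∈ RR y (insert t L), ∃ d2 ∈ RR y (insert t L),
      Van (Yo N (insert t L) o (insert t E) ∩ Ge N (insert t L) o E c)
        ((C G : MvPolynomial P Y) • w - av Y t * d1 - bt y t o * d2)

def L4 (Λ : Type) [Fintype Λ] [DecidableEq Λ] (y : P → Y) (N : Finset P) (p q : P) : Prop :=
  ∀ (L : Finset Λ) (t : Λ) (o : P) (m : ℕ) (V : Set (Lab P Λ)), o ∈ N → o ≠ q → t ∉ L →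
    (∀ a ∈ V, All N L a.2 ∧ o ∈ a.1) → TUp V → MeasS L V →
    ∀ v ∈ RR y (insert t L), Van (Ee N o t V ∩ Cm N (m + 1)) v →
    ∃ G ∈ Mult y N p q, ∃ g : ℕ → Am P Λ Y, (∀ i, g i ∈ RR y L ∧ Van (V ∩ Cm N (m + 1)) (g i)) ∧
      Van (Ee N o t V ∩ Cm N m)
        ((C G : MvPolynomial P Y) • v - ∑ i ∈ range (m - 1), bv y t ^ i * g i)

def L5 (Λ : Type) [Fintype Λ] [DecidableEq Λ] (y : P → Y) (N : Finset P) (p q : P) : Prop :=
  ∀ (L E : Finset Λ) (t : Λ) (o : P) (c : ℕ), o ∈ N → o ≠ q → E ⊆ L → t ∈ L → t ∉ E →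
    ∀ d ∈ RR y L, Van (Yo N L o (insert t E) ∩ Ge N L o E c ∩ Hit t) d →
    ∃ G ∈ Mult y N p q, ∃ d' ∈ RR y L, Van (Yo N L o (insert t E) ∩ Ge N L o E c)
      ((C G : MvPolynomial P Y) • (bt y t o * d) - av Y t * d')

def L6 (Λ : Type) [Fintype Λ] [DecidableEq Λ] (y : P → Y) (N : Finset P) (p q : P) : Prop :=
  (∀ (L : Finset Λ) (t : Λ) (o : P), o ∈ N → o ≠ q → t ∈ L →
    ∀ d ∈ RR y L, Van (Yo N L o L ∩ Hit t) d →
    ∃ G ∈ Mult y N p q, ∃ d' ∈ RR y L,
      Van (Yo N L o L) ((C G : MvPolynomial P Y) • d - av Y t * d')) ∧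
  ∀ (L E : Finset Λ) (o : P), o ≠ q → E ⊆ L → ∀ u ∈ RR y L, Van (Yo N L o E) u →
    ∃ G ∈ Mult y N p q, ∃ r ∈ RR y L, ∀ f, All N L f → (∀ s ∈ E, f s ≠ o) →
      C G * u f = X o * r f

/-- all local statements -/
def LocAll (Λ : Type) [Fintype Λ] [DecidableEq Λ] (y : P → Y) : Prop :=
  ∀ (N : Finset P) (p q : P), p ≠ q → p ∈ N → q ∈ N →
    LD Λ y N p q ∧ L1 Λ y N p q ∧ L2 Λ y N p q ∧ L3 Λ y N p q ∧ L4 Λ y N p q ∧ L5 Λ y N p q ∧
      L6 Λ y N p q

/-! ### global statements -/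

/-- the polygraph theorem at level `(N, L)` -/
def PG (y : P → Y) (N : Finset P) (L : Finset Λ) : Prop :=
  ∀ (rk : P → ℕ) (rl : Λ → ℕ), Function.Injective rk → Function.Injective rl →
    ∀ S, Up N L rk rl S → Good y S (RR y L)

/-- the slices with at least `j` early indices are done -/
def Slice (y : P → Y) (N : Finset P) (L : Finset Λ) (o : P) (j : ℕ) : Prop :=
  ∀ (rk : P → ℕ) (rl : Λ → ℕ), Function.Injective rk → Function.Injective rl → First N rk o →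
    ∀ k, j ≤ (Ek L rl k).card → ∀ S, Up N L rk rl S → Good y (S ∩ Yo N L o (Ek L rl k)) (RR y L)

/-- structure of the strata `f t ∈ T` -/
def ES (y : P → Y) (N : Finset P) (L : Finset Λ) (o : P) (t : Λ) : Prop :=
  ∀ (rk : P → ℕ) (rl : Λ → ℕ), Function.Injective rk → Function.Injective rl → First N rk o →
    ∀ V W, Up N L rk rl V → Up N L rk rl W → (∀ a ∈ V, o ∈ a.1) →
    ∀ v, Loc y (Ee N o t V) (RR y (insert t L)) v → Van (Ee N o t V ∩ W) v →
    ∃ v' ∈ IdV y L (insert t L) W, Van (Ee N o t V) (v - v')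

/-- extension from the slice `insert t E` to the slice `E` -/
def XS (y : P → Y) (N : Finset P) (L : Finset Λ) (o : P) (E : Finset Λ) (t : Λ) : Prop :=
  ∀ c, ∀ u ∈ RR y L, Van (Yo N L o (insert t E) ∩ Ge N L o E c) u →
    ∃ u1 ∈ RR y L, Van (Yo N L o (insert t E)) u1 ∧ Van (Yo N L o E ∩ Ge N L o E c) (u - u1)

/-- construction of the elements supported on `f t = o` -/
def QS (y : P → Y) (N : Finset P) (L : Finset Λ) (o : P) (E : Finset Λ) (t : Λ) : Prop :=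
  ∀ c, ∀ g ∈ RR y L, Van (Ge N L o E (c + 1)) g →
    ∃ u ∈ RR y (insert t L), Van (Yo N (insert t L) o (insert t E)) u ∧
      Van (Yo N (insert t L) o E ∩ At t o ∩ Ge N (insert t L) o E (c + 1)) u ∧
      ∀ f e, (zs e, f) ∈ Yo N (insert t L) o E → f t = o → (Ts N o E (zs e, f)).card = c →
        coeff e (u f) = phi y N o E (zs e, f) * coeff e (g f)

/-- the top stratum of an element supported on `f t = o` -/
def GS (y : P → Y) (N : Finset P) (L : Finset Λ) (o : P) (rk : P → ℕ) (rl : Λ → ℕ) (k : ℕ)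
    (t : Λ) : Prop :=
  ∀ c S, Up N (insert t L) rk rl S →
    ∀ v, Loc y (S ∩ Yo N (insert t L) o (Ek L rl k)) (RR y (insert t L)) v →
    Van (S ∩ Yo N (insert t L) o (insert t (Ek L rl k))) v →
    Van (S ∩ Yo N (insert t L) o (Ek L rl k) ∩ At t o ∩ Ge N (insert t L) o (Ek L rl k) (c + 1)) v →
    ∃ g ∈ RR y L, Van (Ge N L o (Ek L rl k) (c + 1)) g ∧
      ∀ f e, (zs e, f) ∈ S ∩ Yo N (insert t L) o (Ek L rl k) → f t = o →
        (Ts N o (Ek L rl k) (zs e, f)).card = c →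
        coeff e (v f) = phi y N o (Ek L rl k) (zs e, f) * coeff e (g f)

/-- `t` is the next index after the initial segment `Ek L rl k` of `insert t L` -/
def Next (L : Finset Λ) (rl : Λ → ℕ) (k : ℕ) (t : Λ) : Prop :=
  t ∉ L ∧ k ≤ rl t ∧ ∀ s ∈ L, rl s < rl t → rl s < k

/-- the maps avoiding `o` on `E`, all `T` -/
def Zo (o : P) (E : Finset Λ) : Set (Lab P Λ) := {a | ∀ s ∈ E, a.2 s ≠ o}

/-- the elements vanishing on `S`, as a subgroup -/
def VanG (Y : Type) [CommRing Y] (S : Set (Lab P Λ)) : AddSubgroup (Am P Λ Y) where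
  carrier := {v | Van S v}
  add_mem' h h' f e a := by simp [h f e a, h' f e a]
  zero_mem' f e _ := by simp
  neg_mem' h f e a := by simp [h f e a]

/-- Koszul exactness in the variables `y` for the restriction of `RR L` to `S` -/
def KG [LinearOrder P] (y : P → Y) (S : Set (Lab P Λ)) (L : Finset Λ) : Prop :=
  KF univ (fun r => (C (y r) : MvPolynomial P Y))
    ((RR y L).toSubring.toAddSubgroup ⊔ VanG Y S) (VanG Y S)

end defs

/-! ### alternants -/

/-- `ℂ[y][x]` -/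
abbrev Pyx (n : ℕ) := MvPolynomial (Fin n) (MvPolynomial (Fin n) ℂ)

def xy {n : ℕ} (i : Fin n) (h : ℕ × ℕ) : Pyx n := X i ^ h.1 * C (X i ^ h.2)

/-- the ideal generated by the alternants in all points -/
def JJ (n : ℕ) : Ideal (Pyx n) :=
  Ideal.span (Set.range fun h : Fin n → ℕ × ℕ => (Matrix.of fun i j => xy i (h j)).det)

/-- the ideal generated by the alternants in the points other than `0` -/
def JJ' (m : ℕ) : Ideal (Pyx (m + 1)) :=
  Ideal.span (Set.range fun h : Fin m → ℕ × ℕ => (Matrix.of fun i j => xy (Fin.succ i) (h j)).det)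

/-- `I` times the polygraph ring on the whole index type -/
def TI {n : ℕ} (Λ : Type) [Fintype Λ] (I : Ideal (Pyx n)) :
    Submodule (Pyx n) ((Λ → Fin n) → Pyx n) :=
  Submodule.span _ {v | ∃ b ∈ I, ∃ h : Λ → ℕ × ℕ, v = fun f => b * ∏ s, xy (f s) (h s)}

/-- local membership implies membership, for functions on the maps avoiding `0` on `E` -/
def GoodI {m : ℕ} (I : Ideal (Pyx (m + 1))) : Prop :=
  ∀ (Λ : Type) [Fintype Λ] [DecidableEq Λ] (E : Finset Λ) (v : (Λ → Fin (m + 1)) → Pyx (m + 1)),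
    (∀ p q, ∃ G ∈ Mult (X : Fin (m + 1) → MvPolynomial (Fin (m + 1)) ℂ) univ p q, ∃ u ∈ TI Λ I,
      ∀ f, (∀ s ∈ E, f s ≠ 0) → C G * v f = u f) →
    ∃ u ∈ TI Λ I, ∀ f, (∀ s ∈ E, f s ≠ 0) → v f = u f

def KFI {n : ℕ} (I : Ideal (Pyx n)) : Prop :=
  ∀ (Λ : Type) [Fintype Λ] [DecidableEq Λ],
    KF univ (fun r : Fin n => (C (X r) : Pyx n)) (TI Λ I).toAddSubgroup ⊥

/-! ### package statements -/

def S_N : Prop := ∀ (P Y : Type) [Fintype P] [DecidableEq P] [CommRing Y] [IsDomain Y] (y : P → Y)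
  (p q : P), p ≠ q → y p ≠ y q → NApi y p q

def S_Q : Prop := ∀ (P Λ Y : Type) [Fintype P] [DecidableEq P] [Fintype Λ] [DecidableEq Λ]
  [CommRing Y] [IsDomain Y] (y : P → Y) (p q : P), p ≠ q → NApi y p q → QApi Λ y p q

/-- shape of the local packages -/
def LocPkg (F : ∀ {P Y : Type} [Fintype P] [DecidableEq P] [CommRing Y] (Λ : Type) [Fintype Λ]
    [DecidableEq Λ], (P → Y) → Finset P → P → P → Prop) : Prop :=
  ∀ (P Λ Y : Type) [Fintype P] [DecidableEq P] [Fintype Λ] [DecidableEq Λ] [CommRing Y] [IsDomain Y]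
    (y : P → Y) (N : Finset P) (p q : P), Function.Injective y → p ≠ q → p ∈ N → q ∈ N →
    QApi Λ y p q → F Λ y N p q

def S_LD : Prop := LocPkg LD
def S_L1 : Prop := LocPkg L1
def S_L2 : Prop := LocPkg L2
def S_L3 : Prop := LocPkg L3
def S_L4 : Prop := LocPkg L4
def S_L5 : Prop := LocPkg L5
def S_L6 : Prop := LocPkg L6

/-- shape of the global packages -/
def GlobPkg (F : ∀ {P Λ Y : Type} [Fintype P] [DecidableEq P] [Fintype Λ] [DecidableEq Λ]
    [CommRing Y], (P → Y) → Finset P → Finset Λ → Prop) : Prop :=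
  ∀ (P Λ Y : Type) [Fintype P] [DecidableEq P] [Fintype Λ] [DecidableEq Λ] [CommRing Y] [IsDomain Y]
    (y : P → Y) (N : Finset P) (L : Finset Λ), Base y → LocAll Λ y → 2 ≤ N.card → F y N L

def S_ES : Prop := GlobPkg fun y N L => PG y N L → ∀ o t, t ∉ L → ES y N L o t

def S_XS : Prop := GlobPkg fun y N L => ∀ o (rk : _ → ℕ) (rl : _ → ℕ) k t L0,
  Function.Injective rk → Function.Injective rl → First N rk o → L = insert t L0 → Next L0 rl k t →
  (∀ s ∈ L, PG y N (L.erase s)) → (∀ s ∈ L, ES y N (L.erase s) o s) →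
  Slice y N L o ((Ek L0 rl k).card + 1) → XS y N L o (Ek L0 rl k) t

def S_QS : Prop := GlobPkg fun y N L => ∀ o (rk : _ → ℕ) (rl : _ → ℕ) k t,
  Function.Injective rk → Function.Injective rl → First N rk o → Next L rl k t →
  PG y N L → ES y N L o t → Slice y N (insert t L) o ((Ek L rl k).card + 1) →
  XS y N (insert t L) o (Ek L rl k) t → QS y N L o (Ek L rl k) t

def S_GS : Prop := GlobPkg fun y N L => ∀ o (rk : _ → ℕ) (rl : _ → ℕ) k t,
  Function.Injective rk → Function.Injective rl → First N rk o → Next L rl k t →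
  PG y N L → GS y N L o rk rl k t

/-- step C : from the slice with no early index to everything -/
def S_C : Prop := GlobPkg fun y N L => (∀ o, Slice y N L o 0) → PG y N L

/-- the polygraph theorem together with the structure statements -/
def PGX {P Y : Type} [Fintype P] [DecidableEq P] [CommRing Y] (Λ : Type) [Fintype Λ] [DecidableEq Λ]
    (y : P → Y) : Prop :=
  (∀ (N : Finset P) (L : Finset Λ), PG y N L) ∧
  ∀ (N : Finset P) (L : Finset Λ) o (rk : P → ℕ) (rl : Λ → ℕ) k t, 2 ≤ N.card →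
    Function.Injective rk → Function.Injective rl → First N rk o → Next L rl k t →
    QS y N L o (Ek L rl k) t ∧ GS y N L o rk rl k t

/-- the polygraph theorem -/
def S_PGX : Prop := ∀ (P Λ Y : Type) [Fintype P] [DecidableEq P] [Nonempty P] [Fintype Λ]
  [DecidableEq Λ] [CommRing Y] [IsDomain Y] (y : P → Y), Base y → LocAll Λ y → PGX Λ y

/-- second pass, slice step -/
def S_KGB : Prop := ∀ (P Λ Y : Type) [Fintype P] [DecidableEq P] [LinearOrder P] [Fintype Λ]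
  [DecidableEq Λ] [CommRing Y] [IsDomain Y] (y : P → Y), Base y → LocAll Λ y → PGX Λ y →
  ∀ (N : Finset P) (L : Finset Λ) o (rk : P → ℕ) (rl : Λ → ℕ) k t, 2 ≤ N.card →
    Function.Injective rk → Function.Injective rl → First N rk o → Next L rl k t →
    (∀ (rk' : P → ℕ) S', Function.Injective rk' → Up N L rk' rl S' → KG y S' L) →
    ∀ S, Up N (insert t L) rk rl S →
    KG y (S ∩ Yo N (insert t L) o (insert t (Ek L rl k))) (insert t L) →
    KG y (S ∩ Yo N (insert t L) o (Ek L rl k)) (insert t L)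

/-- second pass: Koszul exactness in `y` -/
def S_KG : Prop := ∀ (P Λ Y : Type) [Fintype P] [DecidableEq P] [LinearOrder P] [Fintype Λ]
  [DecidableEq Λ] [CommRing Y] [IsDomain Y] (y : P → Y), Base y → LocAll Λ y → PGX Λ y →
  KF univ y (⊤ : AddSubgroup Y) ⊥ →
  ∀ (N : Finset P) (L : Finset Λ) (rk : P → ℕ) (rl : Λ → ℕ), Function.Injective rk →
    Function.Injective rl → ∀ S, Up N L rk rl S → KG y S L

def S_Base : Prop := ∀ n : ℕ, Base (X : Fin n → MvPolynomial (Fin n) ℂ) ∧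
  KF univ (X : Fin n → MvPolynomial (Fin n) ℂ) (⊤ : AddSubgroup (MvPolynomial (Fin n) ℂ)) ⊥

/-- the concrete polygraph theorem -/
def S_PGC : Prop := ∀ (m : ℕ) (Λ : Type) [Fintype Λ] [DecidableEq Λ],
  LocAll Λ (X : Fin (m + 1) → MvPolynomial (Fin (m + 1)) ℂ) ∧
  PGX Λ (X : Fin (m + 1) → MvPolynomial (Fin (m + 1)) ℂ)

def S_G0 : Prop := ∀ m, GoodI (⊤ : Ideal (Pyx (m + 1)))

def S_Blk : Prop := ∀ m (I : Ideal (Pyx (m + 1))), GoodI I → GoodI (I * JJ (m + 1)) ∧ GoodI (I * JJ' m)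

def S_BlkK : Prop := ∀ n (I : Ideal (Pyx n)), KFI I → KFI (I * JJ n)

def S_Lin : Prop := ∀ (m p j k : ℕ) (Ψ : (Fin (p + 1) → Fin (m + 1)) → Pyx (m + 1)),
  Ψ ∈ TI (Fin (p + 1)) (JJ' m ^ (j + 1) * JJ (m + 1) ^ k) → (∀ i, (∀ r, i r ≠ 0) → Ψ i = 0) →
  ∃ Φ ∈ TI (Fin p) (JJ' m ^ j * JJ (m + 1) ^ (k + 1)),
    ∀ i, (∀ r, i r ≠ 0) → Φ i = Ψ (Fin.cons 0 i)

def S_KFJ : Prop := ∀ m k : ℕ, KF univ (fun r : Fin (m + 1) => (C (X r) : Pyx (m + 1)))
  (JJ (m + 1) ^ k).toAddSubgroup ⊥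

end

end Pool.Agent.P.MP_c2aaf5_co
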