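import Pool.Agent.P.MP_c2aaf5_co.Defs
import Pool.Agent.P.MP_c2aaf5_co.DefK
import Pool.Agent.P.MP_c2aaf5_co.DefP

/-! Geometric part: definitions and statements. All rings and modules live in one field `K`. -/

set_option linter.unusedSectionVars false

namespace Pool.Agent.P.MP_c2aaf5_co

open MvPolynomial Finset

noncomputable section

section abstract
variable {K : Type} [Field K] [Algebra ℂ K]

/-- the `O`-submodule of `K` generated by `S` -/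
def Id (O : Subalgebra ℂ K) (S : Set K) : Submodule ℂ K :=
  Subalgebra.toSubmodule O * Submodule.span ℂ S

/-- a local subring with residue field `ℂ` and maximal ideal `M` -/
structure LocD (O : Subalgebra ℂ K) (M : Submodule ℂ K) : Prop where
  le : ∀ g ∈ M, g ∈ O
  mul : ∀ a ∈ O, ∀ g ∈ M, a * g ∈ M
  dec : ∀ g ∈ O, ∃ c : ℂ, g - algebraMap ℂ K c ∈ M
  one : (1 : K) ∉ M
  inv : ∀ g ∈ O, g ∉ M → g⁻¹ ∈ O

/-- every element of `O` is a quotient of elements of `Y` with a unit denominator -/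
def Den (Y O : Subalgebra ℂ K) (M : Submodule ℂ K) : Prop := ∀ v ∈ O, ∃ b ∈ Y, b ∉ M ∧ b * v ∈ Y

/-- a regular sequence in every order -/
def RegFam (O : Subalgebra ℂ K) {ι : Type} (z : ι → K) : Prop :=
  ∀ (I : Set ι) i, i ∉ I → ∀ g ∈ O, z i * g ∈ Id O (z '' I) → g ∈ Id O (z '' I)

variable {τ : Type} [Fintype τ]

def Vx (ξ : τ → K) : Submodule ℂ K := Submodule.span ℂ (Set.range ξ)

/-- the graded module with pieces `(ξ)^j P` -/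
def MM (ξ : τ → K) (P : Subalgebra ℂ K) (j : ℕ) : Submodule ℂ K :=
  Vx ξ ^ j * Subalgebra.toSubmodule P

/-- `g` is the value at `ξ` of a form of degree `N` which is a unit at the point `a` -/
def Un (mR : Submodule ℂ K) (ξ : τ → K) (a : τ → ℂ) (N : ℕ) (g : K) : Prop :=
  ∃ G : MvPolynomial τ ℂ, G.IsHomogeneous N ∧ eval a G ≠ 0 ∧ g - aeval ξ G ∈ mR * Vx ξ ^ N

/-- `(O, M)` is the local ring of the blow-up at the point `a` of the chart `s` -/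
structure Pt (R : Subalgebra ℂ K) (mR : Submodule ℂ K) (ξ : τ → K) (s : τ) (a : τ → ℂ)
    (O : Subalgebra ℂ K) (M : Submodule ℂ K) : Prop where
  loc : LocD O M
  one : a s = 1
  le : R ≤ O
  mle : mR ≤ M
  eta : ∀ t, ξ t / ξ s - algebraMap ℂ K (a t) ∈ M
  den : ∀ v ∈ O, ∃ N g, Un mR ξ a N g ∧ g * v ∈ Vx ξ ^ N * Subalgebra.toSubmodule R
  gen : M ≤ Id O ((mR : Set K) ∪ Set.range fun t => ξ t / ξ s - algebraMap ℂ K (a t))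

structure Core (ξ : τ → K) (R : Subalgebra ℂ K) (mR : Submodule ℂ K) (P : Subalgebra ℂ K) :
    Prop where
  loc : LocD R mR
  noeth : IsNoetherianRing R
  le : R ≤ P
  fin : ∃ P0 : Finset K, Subalgebra.toSubmodule P ≤ Id R P0
  ne : ∀ t, ξ t ≠ 0
  nonempty : Nonempty τ

/-- generators of the maximal ideal adapted to the relations among the `ξ` -/
structure GenD (ξ : τ → K) (R : Subalgebra ℂ K) (mR : Submodule ℂ K) {N : ℕ}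
    (φ : Option τ → τ → K) (z : Fin N → K) : Prop where
  mφ : ∀ w t, φ w t ∈ mR
  mz : ∀ i, z i ∈ mR
  rel : ∀ w, ∑ t, φ w t * ξ t = 0
  gen : mR ≤ Id R (Set.range (fun wt : Option τ × τ => φ wt.1 wt.2) ∪ Set.range z)

/-- the local parameters at the point `a` of the chart `s` -/
def fam {N : ℕ} (φ : Option τ → τ → K) (z : Fin N → K) (ξ : τ → K) (s : τ) (a : τ → ℂ) :
    (Option τ × {t // t ≠ s}) ⊕ Fin N ⊕ {t // t ≠ s} → K :=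
  Sum.elim (fun wt => φ wt.1 wt.2) (Sum.elim z fun t => ξ t / ξ s - algebraMap ℂ K (a t))

def FreeAt (O P : Subalgebra ℂ K) : Prop :=
  ∃ (N : ℕ) (f : Fin N → K), (∀ b, f b ∈ P) ∧ Subalgebra.toSubmodule P ≤ Id O (Set.range f) ∧
    ∀ κ : Fin N → K, (∀ b, κ b ∈ O) → ∑ b, κ b * f b = 0 → κ = 0

/-- dual bases at the point -/
def PerfAt (O E : Subalgebra ℂ K) (am : K →ₗ[ℂ] K) (c : K) : Prop :=
  ∃ (N : ℕ) (f g : Fin N → K) (Γ : Fin N → Fin N → K), (∀ b, f b ∈ E) ∧ (∀ b, g b ∈ E) ∧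
    (∀ b b', Γ b b' ∈ O) ∧ (∀ v : K, v = ∑ b, (∑ b', Γ b b' * (am (v * g b') / c)) * f b) ∧
    ∀ κ : Fin N → K, (∀ b, κ b ∈ O) → ∑ b, κ b * f b = 0 → κ = 0

/-- the system of forms on the fibre -/
structure Forms (ξ : τ → K) (R : Subalgebra ℂ K) (mR : Submodule ℂ K) (P : Subalgebra ℂ K)
    {W : Type} [CommRing W] [Algebra ℂ W] (ev : W →ₐ[ℂ] K) (am : K →ₗ[ℂ] K)
    (β : τ → W →ₗ[ℂ] ℂ) : Prop where
  mem : ∀ w, ev w ∈ P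
  surj : ∀ g ∈ P, ∃ w, g - ev w ∈ mR * Subalgebra.toSubmodule P
  linR : ∀ r ∈ R, ∀ g, am (r * g) = r * am g
  linξ : ∀ t g, am (ξ t * g) = ξ t * am g
  amP : ∀ g ∈ P, am g ∈ Vx ξ * Subalgebra.toSubmodule R
  val : ∀ w, am (ev w) - ∑ t, β t w • ξ t ∈ mR * Vx ξ

/-- the bilinear form of a linear functional -/
def bil {W : Type} [CommRing W] [Algebra ℂ W] (l : W →ₗ[ℂ] ℂ) : W →ₗ[ℂ] W →ₗ[ℂ] ℂ :=
  (LinearMap.mul ℂ W).compr₂ l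

/-- linear syzygies lift to exact relations -/
def Lifts [LinearOrder τ] (ξ : τ → K) (mR : Submodule ℂ K) (P : Subalgebra ℂ K) {W : Type}
    [CommRing W] [Algebra ℂ W] (ev : W →ₐ[ℂ] K) (β : τ → W →ₗ[ℂ] ℂ) : Prop :=
  ∀ p (φ : Finset τ → W), Val univ p ⊤ φ → Cyc (fun t => bil (β t)) φ →
    ∃ F : Finset τ → K, Val univ p (Subalgebra.toSubmodule P).toAddSubgroup F ∧
      dd univ ξ F = 0 ∧ ∀ I, F I - ev (φ I) ∈ mR * Subalgebra.toSubmodule P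

/-- the local data at the points of the fibre -/
def Pts [DecidableEq τ] (ξ : τ → K) (R : Subalgebra ℂ K) (mR : Submodule ℂ K) {N : ℕ}
    (φ : Option τ → τ → K) (z : Fin N → K) (E : Subalgebra ℂ K) (am : K →ₗ[ℂ] K) : Prop :=
  (∀ s a, a s = 1 → (∃ N, Un mR ξ a N 0) ∨
    ∃ O M, Pt R mR ξ s a O M ∧ PerfAt O E am (ξ s) ∧ RegFam O (fam φ z ξ s a)) ∧
  ∀ s, ¬∃ N, Un mR ξ (Pi.single s 1) N 0

def Sat (ξ : τ → K) (mR : Submodule ℂ K) (P : Subalgebra ℂ K) {W : Type} [CommRing W] [Algebra ℂ W]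
    (ev : W →ₐ[ℂ] K) (am : K →ₗ[ℂ] K) : Prop :=
  (∀ j, ∀ g ∈ MM ξ P (j + 1), (∀ w, am (g * ev w) ∈ mR * Vx ξ ^ (j + 2)) →
    g ∈ mR * MM ξ P (j + 1)) ∧
  (∀ l : τ → ℂ, ∑ t, l t • ξ t ∈ mR * Vx ξ → l = 0) ∧
  ∀ l : τ → τ → ℂ, ∑ s, ∑ t, l s t • (ξ s * ξ t) ∈ mR * Vx ξ ^ 2 → ∀ s t, l s t + l t s = 0

end abstract

def S_D1 : Prop := ∀ (K : Type) [Field K] [Algebra ℂ K] (Y O : Subalgebra ℂ K) (M : Submodule ℂ K)
  (ι ι' : Type) [Fintype ι] [Fintype ι'] (z : ι → K) (w : ι' → K), Y.FG → LocD O M → Y ≤ O →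
  Den Y O M → (∀ i, z i ∈ M) → M ≤ Id O (Set.range z) → AlgebraicIndependent ℂ w →
  (∀ j, IsIntegral Y (w j)) → Fintype.card ι ≤ Fintype.card ι' → RegFam O z

def S_Bdd : Prop := ∀ (K τ ι : Type) [Field K] [Algebra ℂ K] [Fintype τ] [Fintype ι] (ξ : τ → K)
  (R : Subalgebra ℂ K) (mR : Submodule ℂ K) (P : Subalgebra ℂ K) (Z B : ℕ → AddSubgroup (ι → K)),
  Core ξ R mR P → (∀ j, ∀ v ∈ Z j, ∀ i, v i ∈ MM ξ P j) →
  (∀ j, ∀ r ∈ R, ∀ v ∈ Z j, r • v ∈ Z j) → (∀ j, ∀ r ∈ R, ∀ v ∈ B j, r • v ∈ B j) →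
  (∀ j t, ∀ v ∈ Z j, ξ t • v ∈ Z (j + 1)) → (∀ j t, ∀ v ∈ B j, ξ t • v ∈ B (j + 1)) →
  (∀ a : τ → ℂ, (∃ s, a s = 1) → ∀ j, ∀ v ∈ Z j, ∃ N g, Un mR ξ a N g ∧ g • v ∈ B (j + N)) →
  ∃ e, ∀ j, e ≤ j → Z j ≤ B j

/-- either `a` is not a point of the blow-up, or its local ring exists -/
def S_PtEx : Prop := ∀ (K τ : Type) [Field K] [Algebra ℂ K] [Fintype τ] (ξ : τ → K)
  (R : Subalgebra ℂ K) (mR : Submodule ℂ K) (s : τ) (a : τ → ℂ), LocD R mR → ξ s ≠ 0 → a s = 1 →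
  (∃ N, Un mR ξ a N 0) ∨ ∃ O M, Pt R mR ξ s a O M

def S_PtReg : Prop := ∀ (K τ ι' : Type) [Field K] [Algebra ℂ K] [Fintype τ] [Fintype ι']
  (ξ : τ → K) (R0 R : Subalgebra ℂ K) (mR : Submodule ℂ K) (N : ℕ) (φ : Option τ → τ → K)
  (z : Fin N → K) (w : ι' → K) (s : τ) (a : τ → ℂ) (O : Subalgebra ℂ K) (M : Submodule ℂ K),
  LocD R mR → ξ s ≠ 0 → R0.FG → R0 ≤ R → Den R0 R mR → GenD ξ R mR φ z →
  AlgebraicIndependent ℂ w → (∀ j, IsIntegral R0 (w j)) →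
  N + Fintype.card τ * (Fintype.card τ + 1) ≤ Fintype.card ι' + 2 → Pt R mR ξ s a O M →
  RegFam O (fam φ z ξ s a)

/-- cutting the fibre out of the blow-up keeps regularity zero -/
def S_Cut : Prop := ∀ (K τ : Type) [Field K] [Algebra ℂ K] [Fintype τ] [LinearOrder τ] (ξ : τ → K)
  (R : Subalgebra ℂ K) (mR : Submodule ℂ K) (P : Subalgebra ℂ K) (N : ℕ) (φ : Option τ → τ → K)
  (z : Fin N → K), Core ξ R mR P → GenD ξ R mR φ z →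
  (∀ s a, a s = 1 → (∃ N, Un mR ξ a N 0) ∨
    ∃ O M, Pt R mR ξ s a O M ∧ FreeAt O P ∧ RegFam O (fam φ z ξ s a)) →
  Reg0 univ ξ (fun j => (MM ξ P j).toAddSubgroup) (fun _ => ⊥) →
  Reg0 univ ξ (fun j => (MM ξ P j).toAddSubgroup) (fun j => (mR * MM ξ P j).toAddSubgroup) ∧
  Reg0 univ ξ (fun j => (mR * MM ξ P j).toAddSubgroup) (fun _ => ⊥)

/-- the Gram matrix trick -/
def S_Perf : Prop := ∀ (K G : Type) [Field K] [Algebra ℂ K] [Fintype G] [DecidableEq G]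
  (ρ : G → K →ₐ[ℂ] K) (ε : G → ℂ) (g0 : G) (D0 D : K) (am : K →ₗ[ℂ] K) (O E : Subalgebra ℂ K)
  (M : Submodule ℂ K) (f g : G → K), LocD O M → (∀ v, ρ g0 v = v) →
  (∀ v, am v = D0 * ∑ σ, ε σ • ρ σ v) → D ≠ 0 → (∀ σ, ∀ r ∈ O, ρ σ r = r) → (∀ b, f b ∈ E) →
  (∀ b, g b ∈ E) → (∃ Γ : Matrix G G ℂ, Γ.det ≠ 0 ∧
    ∀ b b', am (f b * g b') / D - algebraMap ℂ K (Γ b b') ∈ M) → PerfAt O E am D

/-- saturation and the absence of linear and quadratic relations on the fibre -/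
def S_Sat : Prop := ∀ (K τ W : Type) [Field K] [Algebra ℂ K] [Fintype τ] [LinearOrder τ]
  [CommRing W] [Algebra ℂ W] (ξ : τ → K) (R : Subalgebra ℂ K) (mR : Submodule ℂ K)
  (P : Subalgebra ℂ K) (N : ℕ) (φ : Option τ → τ → K) (z : Fin N → K) (ev : W →ₐ[ℂ] K)
  (am : K →ₗ[ℂ] K) (β : τ → W →ₗ[ℂ] ℂ), Core ξ R mR P → GenD ξ R mR φ z → Forms ξ R mR P ev am β →
  Pts ξ R mR φ z ev.range am →
  Reg0 univ ξ (fun j => (MM ξ P j).toAddSubgroup) (fun j => (mR * MM ξ P j).toAddSubgroup) →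
  Sat ξ mR P ev am

/-- regularity of the fibre gives exactness at the coordinate points and the lifts -/
def S_Forms : Prop := ∀ (K τ W : Type) [Field K] [Algebra ℂ K] [Fintype τ] [LinearOrder τ]
  [CommRing W] [Algebra ℂ W] (ξ : τ → K) (R : Subalgebra ℂ K) (mR : Submodule ℂ K)
  (P : Subalgebra ℂ K) (N : ℕ) (φ : Option τ → τ → K) (z : Fin N → K) (ev : W →ₐ[ℂ] K)
  (am : K →ₗ[ℂ] K) (β : τ → W →ₗ[ℂ] ℂ), Core ξ R mR P → GenD ξ R mR φ z → Forms ξ R mR P ev am β →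
  Pts ξ R mR φ z ev.range am → Sat ξ mR P ev am →
  Reg0 univ ξ (fun j => (MM ξ P j).toAddSubgroup) (fun j => (mR * MM ξ P j).toAddSubgroup) →
  Reg0 univ ξ (fun j => (mR * MM ξ P j).toAddSubgroup) (fun _ => ⊥) →
  ExAt (fun t => bil (β t)) ∧ Lifts ξ mR P ev β

/-! ### diagrams and forms; a cell `h` stands for the monomial `x ^ h.1 * y ^ h.2` -/

section forms
variable {n m : ℕ}

def mono (h : Fin n → ℕ × ℕ) : (Fin n ⊕ Fin n) →₀ ℕ :=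
  Finsupp.equivFunOnFinite.symm (Sum.elim (fun i => (h i).1) fun i => (h i).2)

/-- coefficient of the alternant of `ν` in the alternation -/
def lam (ν : Fin n → ℕ × ℕ) : Pol n →ₗ[ℂ] ℂ :=
  ∑ σ : Equiv.Perm (Fin n), ((Equiv.Perm.sign σ : ℤ) : ℂ) • lcoeff ℂ (mono (ν ∘ σ))

def IsDiag (ν : Fin n → ℕ × ℕ) : Prop :=
  Function.Injective ν ∧ ∀ i, ∀ h ≤ ν i, ∃ j, ν j = h

/-- the `n!` statement -/
def NF (ν : Fin n → ℕ × ℕ) : Prop :=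
  ∃ f g : Equiv.Perm (Fin n) → Pol n, ∀ a b, lam ν (f a * g b) = if a = b then 1 else 0

/-- annihilator of the alternant of `ν` -/
def Kn (ν : Fin n → ℕ × ℕ) : Submodule ℂ (Pol n) := LinearMap.ker (bil (lam ν))

def xm (i : Fin n) (h : ℕ × ℕ) : Pol n := X (Sum.inl i) ^ h.1 * X (Sum.inr i) ^ h.2

def up (m : ℕ) : Pol m →ₐ[ℂ] Pol (m + 1) := rename (Sum.map Fin.succ Fin.succ)

def beta (μ : Fin (m + 1) → ℕ × ℕ) (u : Fin (m + 1)) : Pol m →ₗ[ℂ] ℂ :=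
  lam μ ∘ₗ LinearMap.mulLeft ℂ (xm 0 (μ u)) ∘ₗ (up m).toLinearMap

def IsCor (μ : Fin n → ℕ × ℕ) (u : Fin n) : Prop := ∀ v, μ u ≤ μ v → v = u

/-- the corners -/
abbrev Cor (μ : Fin n → ℕ × ℕ) := {u // IsCor μ u}

instance (μ : Fin n → ℕ × ℕ) : Fintype (Cor μ) := by classical exact Subtype.fintype _

/-- rows are listed in weakly increasing order -/
def Srt (μ : Fin n → ℕ × ℕ) : Prop := ∀ u v, u ≤ v → (μ u).2 ≤ (μ v).2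

/-- the diagram with the cell `u` removed -/
def rm (μ : Fin (m + 1) → ℕ × ℕ) (u : Fin (m + 1)) : Fin m → ℕ × ℕ := fun r => μ (u.succAbove r)

def dx (ν : Fin n → ℕ × ℕ) : ℕ := ∑ i, (ν i).1
def dy (ν : Fin n → ℕ × ℕ) : ℕ := ∑ i, (ν i).2

def mon2 (h : ℕ × ℕ) : Fin 2 →₀ ℕ := Finsupp.single 0 h.1 + Finsupp.single 1 h.2

/-- the universal pairing on the fibre -/
def gam (μ : Fin n → ℕ × ℕ) (z η : Finset (Cor μ) → MvPolynomial (Fin 2) ℂ) : ℂ :=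
  ∑ s : Cor μ, coeff (mon2 (μ s)) (∑ J, cr s z J * η J)

def Comb (μ : Fin n → ℕ × ℕ) (p : ℕ)
    (b b' : Fin (n * (Fintype.card (Cor μ) - 1).choose p) → Finset (Cor μ) →
      MvPolynomial (Fin 2) ℂ) : Prop :=
  (∀ a, Val univ p ⊤ (b a)) ∧ (∀ a, Val univ (p + 1) ⊤ (b' a)) ∧
    ∀ a a', gam μ (b a) (b' a') = if a = a' then 1 else 0

end forms

/-- elementary facts on `lam` -/
structure LamA : Prop where
  act : ∀ {n} (ν : Fin n → ℕ × ℕ) σ g, lam ν (act σ g) = ((Equiv.Perm.sign σ : ℤ) : ℂ) * lam ν g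
  perm : ∀ {n} (ν : Fin n → ℕ × ℕ) (σ : Equiv.Perm (Fin n)) g,
    lam (ν ∘ σ) g = ((Equiv.Perm.sign σ : ℤ) : ℂ) * lam ν g
  prod : ∀ {n} (ν h : Fin n → ℕ × ℕ), lam ν (∏ i, xm i (h i)) =
    (Matrix.of fun i j => if h i = ν j then (1 : ℂ) else 0).det
  beta : ∀ {m} (μ : Fin (m + 1) → ℕ × ℕ) u, Function.Injective μ → ∀ g,
    beta μ u g = (-1) ^ (u : ℕ) * lam (rm μ u) g
  deg : ∀ {n} (ν : Fin n → ℕ × ℕ) a b g, g ∈ Bi n a b → (a, b) ≠ (dx ν, dy ν) → lam ν g = 0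
  diag : ∀ {m} (μ : Fin (m + 1) → ℕ × ℕ) u, IsDiag μ → IsCor μ u → IsDiag (rm μ u)
  cor : ∀ {m} (μ : Fin (m + 1) → ℕ × ℕ), Function.Injective μ → ∀ v, ∃ u, IsCor μ u ∧ μ v ≤ μ u
  dxinj : ∀ {n} (μ : Fin n → ℕ × ℕ), Function.Injective fun s : Cor μ => (μ s).1
  fin : ∀ {m} (μ : Fin (m + 1) → ℕ × ℕ),
    FiniteDimensional ℂ (Pol m ⧸ Kall fun t : Cor μ => bil (Pool.Agent.P.MP_c2aaf5_co.beta μ t))
  euler : ∀ {m} (μ : Fin (m + 1) → ℕ × ℕ), ∃ h : Pol m →ₗ[ℂ] Pol m, ∀ u f g,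
    Pool.Agent.P.MP_c2aaf5_co.beta μ u (h f * g) + Pool.Agent.P.MP_c2aaf5_co.beta μ u (f * h g) =
      ((dx μ : ℂ) - (μ u).1) * Pool.Agent.P.MP_c2aaf5_co.beta μ u (f * g)

/-- rank facts on `lam` -/
structure LamB : Prop where
  rank : ∀ {n} (ν : Fin n → ℕ × ℕ) (N : ℕ) (F : Fin N → Pol n), n.factorial ≤ N →
    (∀ t : Fin N → ℂ, ∑ i, t i • F i ∈ Kn ν → t = 0) → NF ν
  rank' : ∀ {m} (μ : Fin (m + 1) → ℕ × ℕ), IsDiag μ → (∀ s : Cor μ, NF (rm μ s)) →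
    ∀ a : Cor μ → ℂ, a ≠ 0 → ∃ f g : Equiv.Perm (Fin m) → Pol m,
      (Matrix.of fun b b' => ∑ t : Cor μ,
        a t * beta μ t (f b * g b')).det ≠ 0
  rank'' : ∀ {n} (ν : Fin n → ℕ × ℕ) (ι : Type) [Fintype ι] (F : ι → Pol n), NF ν →
    (∀ w, ∃ c : ι → ℂ, w - ∑ i, c i • F i ∈ Kn ν) → n.factorial ≤ Fintype.card ι
  nfperm : ∀ {n} (ν : Fin n → ℕ × ℕ) (σ : Equiv.Perm (Fin n)), NF (ν ∘ σ) → NF ν
  srt : ∀ {n} (ν : Fin n → ℕ × ℕ), ∃ σ : Equiv.Perm (Fin n), Srt (ν ∘ σ)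

def S_Comb : Prop := ∀ (n : ℕ) (μ : Fin n → ℕ × ℕ), IsDiag μ → Srt μ → ∀ p, ∃ b b', Comb μ p b b'

/-! ### the chart of the Hilbert scheme -/

section chart
variable {K : Type} [Field K] [Algebra ℂ K] {n m : ℕ}

def ev (x y : Fin n → K) : Pol n →ₐ[ℂ] K := aeval (Sum.elim x y)

/-- generic points and the action of the symmetric group -/
structure Gen (x y : Fin n → K) (ρ : Equiv.Perm (Fin n) →* (K ≃ₐ[ℂ] K)) : Prop where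
  ind : AlgebraicIndependent ℂ (Sum.elim x y)
  rx : ∀ σ i, ρ σ (x i) = x (σ i)
  ry : ∀ σ i, ρ σ (y i) = y (σ i)

def pw (x y : Fin n → K) (i : Fin n) (h : ℕ × ℕ) : K := x i ^ h.1 * y i ^ h.2

def Em (x y : Fin n → K) (μ : Fin n → ℕ × ℕ) : Matrix (Fin n) (Fin n) K :=
  Matrix.of fun i u => pw x y i (μ u)

/-- coefficient of the cell `u` in the expansion of the monomial `h` -/
def cc (x y : Fin n → K) (μ : Fin n → ℕ × ℕ) (h : ℕ × ℕ) : Fin n → K :=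
  (Em x y μ)⁻¹.mulVec fun i => pw x y i h

/-- coefficients of the idempotent of the point `0` -/
def xi (x y : Fin (m + 1) → K) (μ : Fin (m + 1) → ℕ × ℕ) (u : Fin (m + 1)) : K := (Em x y μ)⁻¹ u 0

def xc (x y : Fin (m + 1) → K) (μ : Fin (m + 1) → ℕ × ℕ) (s : Cor μ) : K := xi x y μ s

/-- coordinate ring of the chart -/
def Hs (x y : Fin n → K) (μ : Fin n → ℕ × ℕ) : Subalgebra ℂ K :=
  Algebra.adjoin ℂ {g | ∃ v u, g = cc x y μ (μ v + (1, 0)) u ∨ g = cc x y μ (μ v + (0, 1)) u}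

/-- generators of the maximal ideal of the monomial ideal -/
def gm (x y : Fin n → K) (μ : Fin n → ℕ × ℕ) : Set K :=
  {g | ∃ h u, (∀ v, μ v ≠ h) ∧ g = cc x y μ h u}

def Os (x y : Fin n → K) (μ : Fin n → ℕ × ℕ) : Subalgebra ℂ K :=
  Algebra.adjoin ℂ ((Hs x y μ : Set K) ∪
    {g | ∃ b ∈ Hs x y μ, b ∉ Id (Hs x y μ) (gm x y μ) ∧ g = b⁻¹})

def mO (x y : Fin n → K) (μ : Fin n → ℕ × ℕ) : Submodule ℂ K := Id (Os x y μ) (gm x y μ)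

def R0 (x y : Fin (m + 1) → K) (μ : Fin (m + 1) → ℕ × ℕ) : Subalgebra ℂ K :=
  Hs x y μ ⊔ Algebra.adjoin ℂ {x 0, y 0}

def Rs (x y : Fin (m + 1) → K) (μ : Fin (m + 1) → ℕ × ℕ) : Subalgebra ℂ K :=
  Os x y μ ⊔ Algebra.adjoin ℂ {x 0, y 0}

def mR (x y : Fin (m + 1) → K) (μ : Fin (m + 1) → ℕ × ℕ) : Submodule ℂ K :=
  Id (Rs x y μ) (gm x y μ ∪ {x 0, y 0})

def P0 (x y : Fin n → K) (μ : Fin n → ℕ × ℕ) : Subalgebra ℂ K := Hs x y μ ⊔ (ev x y).range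

def Pp (x y : Fin n → K) (μ : Fin n → ℕ × ℕ) : Subalgebra ℂ K := Os x y μ ⊔ (ev x y).range

/-- alternation over all points, divided by the alternant of `μ` -/
def al (x y : Fin n → K) (ρ : Equiv.Perm (Fin n) →* (K ≃ₐ[ℂ] K)) (μ : Fin n → ℕ × ℕ) :
    K →ₗ[ℂ] K :=
  LinearMap.mulLeft ℂ (Em x y μ).det⁻¹ ∘ₗ
    ∑ σ : Equiv.Perm (Fin n), ((Equiv.Perm.sign σ : ℤ) : ℂ) • (ρ σ).toLinearMap

/-- a permutation of the points other than `0` -/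
def lift0 (σ : Equiv.Perm (Fin m)) : Equiv.Perm (Fin (m + 1)) := Equiv.Perm.decomposeFin.symm (0, σ)

/-- alternation over the points other than `0`, divided by the alternant of `μ` -/
def am (x y : Fin (m + 1) → K) (ρ : Equiv.Perm (Fin (m + 1)) →* (K ≃ₐ[ℂ] K))
    (μ : Fin (m + 1) → ℕ × ℕ) : K →ₗ[ℂ] K :=
  LinearMap.mulLeft ℂ (Em x y μ).det⁻¹ ∘ₗ
    ∑ σ : Equiv.Perm (Fin m), ((Equiv.Perm.sign σ : ℤ) : ℂ) • (ρ (lift0 σ)).toLinearMap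

/-- identities in the chart -/
structure Ch1 (x y : Fin (m + 1) → K) (ρ : Equiv.Perm (Fin (m + 1)) →* (K ≃ₐ[ℂ] K))
    (μ : Fin (m + 1) → ℕ × ℕ) : Prop where
  det : (Em x y μ).det ≠ 0
  exp : ∀ i h, ∑ u, cc x y μ h u * pw x y i (μ u) = pw x y i h
  uniq : ∀ κ : Fin (m + 1) → K, (∀ i, ∑ u, κ u * pw x y i (μ u) = 0) → κ = 0
  self : ∀ v u, cc x y μ (μ v) u = if v = u then 1 else 0
  recu : ∀ h e u, cc x y μ (h + e) u = ∑ v, cc x y μ h v * cc x y μ (μ v + e) u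
  mem : ∀ h u, cc x y μ h u ∈ Hs x y μ
  xexp : ∀ i, ∑ u, xi x y μ u * pw x y i (μ u) = if i = 0 then 1 else 0
  xmul : ∀ h u, pw x y 0 h * xi x y μ u = ∑ v, cc x y μ (μ v + h) u * xi x y μ v
  rev : ∀ σ g, ρ σ (ev x y g) = ev x y (act σ g)
  rdet : ∀ σ, ρ σ (Em x y μ).det = ((Equiv.Perm.sign σ : ℤ) : K) * (Em x y μ).det
  rO : ∀ σ, ∀ r ∈ Os x y μ, ρ σ r = r
  rP : ∀ σ, ∀ r ∈ Pp x y μ, ρ σ r ∈ Pp x y μ
  rR : ∀ σ, σ 0 = 0 → ∀ r ∈ Rs x y μ, ρ σ r = r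
  rxi : ∀ σ u, ρ σ (xi x y μ u) = (Em x y μ)⁻¹ u (σ 0)
  trace : ∀ h u, ∑ i, ρ (Equiv.swap 0 i) (pw x y 0 h * xi x y μ u) = cc x y μ h u
  alp : ∀ h : Fin (m + 1) → ℕ × ℕ,
    al x y ρ μ (∏ i, pw x y i (h i)) = (Matrix.of fun i u => cc x y μ (h i) u).det
  alH : ∀ g, al x y ρ μ (ev x y g) ∈ Hs x y μ ∧
    al x y ρ μ (ev x y g) - algebraMap ℂ K (lam μ g) ∈ Id (Hs x y μ) (gm x y μ)
  amx : ∀ g, am x y ρ μ (ev x y (up m g)) =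
    ∑ u, xi x y μ u * al x y ρ μ (pw x y 0 (μ u) * ev x y (up m g))
  cram : ∀ h u, ∃ h' : Fin (m + 1) → ℕ × ℕ,
    cc x y μ h u * (Em x y μ).det = (Matrix.of fun i j => pw x y i (h' j)).det
  cramx : ∀ u, xi x y μ u * (Em x y μ).det =
    (-1) ^ (u : ℕ) * (Matrix.of fun i j => pw x y (Fin.succ i) (rm μ u j)).det
  detH : ∀ h : Fin (m + 1) → ℕ × ℕ,
    (Matrix.of fun i j => pw x y i (h j)).det / (Em x y μ).det ∈ Hs x y μ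
  detx : ∀ h : Fin m → ℕ × ℕ, (Matrix.of fun i j => pw x y (Fin.succ i) (h j)).det / (Em x y μ).det ∈
    Id (Hs x y μ) (Set.range (xi x y μ))
  fin0 : Subalgebra.toSubmodule (P0 x y μ) ≤
    Id (Hs x y μ) (Set.range fun u : Fin (m + 1) → Fin (m + 1) => ∏ i, pw x y i (μ (u i)))
  int : ∀ j, IsIntegral (Hs x y μ) (Sum.elim x y j)

/-- a place centred at the monomial ideal with the point `0` at the corner `s` -/
def Place (x y : Fin (m + 1) → K) (μ : Fin (m + 1) → ℕ × ℕ) (s : Fin (m + 1)) : Prop :=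
  xi x y μ s ≠ 0 ∧ ∃ O M, LocD O M ∧ gm x y μ ⊆ (M : Set K) ∧ x 0 ∈ M ∧ y 0 ∈ M ∧
    ∀ u, u ≠ s → xi x y μ u / xi x y μ s ∈ M

/-- local algebra of the chart -/
structure Ch2a (x y : Fin (m + 1) → K) (μ : Fin (m + 1) → ℕ × ℕ) : Prop where
  locO : LocD (Os x y μ) (mO x y μ)
  core : Core (xc x y μ) (Rs x y μ) (mR x y μ) (Pp x y μ)
  fg : (R0 x y μ).FG
  denO : Den (Hs x y μ) (Os x y μ) (mO x y μ)
  denR : Den (R0 x y μ) (Rs x y μ) (mR x y μ)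
  denP : ∀ v ∈ Pp x y μ, ∃ b ∈ Hs x y μ, b ∉ mO x y μ ∧ b * v ∈ P0 x y μ
  mOR : mO x y μ ≤ mR x y μ
  surj : ∀ g ∈ Pp x y μ, ∃ w, g - ev x y w ∈ mO x y μ * Subalgebra.toSubmodule (Pp x y μ)
  pt : ∀ s : Cor μ, ¬∃ N, Un (mR x y μ) (xc x y μ) (Pi.single s 1) N 0

structure Ch2 (x y : Fin (m + 1) → K) (ρ : Equiv.Perm (Fin (m + 1)) →* (K ≃ₐ[ℂ] K))
    (μ : Fin (m + 1) → ℕ × ℕ) : Prop extends Ch2a x y μ where
  xiV : ∀ u, ¬IsCor μ u → xi x y μ u ∈ mR x y μ * Vx (xc x y μ)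
  sock : ∀ s, IsCor μ s → ∀ r ∈ mR x y μ,
    pw x y 0 (μ s) * r ∈ mO x y μ * Subalgebra.toSubmodule (Rs x y μ)
  alO : ∀ r ∈ Os x y μ, ∀ g, al x y ρ μ (r * g) = r * al x y ρ μ g
  alP : ∀ g ∈ Pp x y μ, al x y ρ μ g ∈ Os x y μ
  forms : Forms (xc x y μ) (Rs x y μ) (mR x y μ) (Pp x y μ) ((ev x y).comp (up m)) (am x y ρ μ)
    (fun t => beta μ t)

/-- pairing of a polynomial cochain with a cochain of `K` -/
def psi (x y : Fin (m + 1) → K) {μ : Fin (m + 1) → ℕ × ℕ}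
    (z : Finset (Cor μ) → MvPolynomial (Fin 2) ℂ) (F : Finset (Cor μ) → K) : K :=
  ∑ I, aeval ![x 0, y 0] (z I) * F I

end chart

/-- shape of the chart packages -/
def ChPkg (F : ∀ {K : Type} [Field K] [Algebra ℂ K] {m : ℕ}, (Fin (m + 1) → K) → (Fin (m + 1) → K) →
    (Equiv.Perm (Fin (m + 1)) →* (K ≃ₐ[ℂ] K)) → (Fin (m + 1) → ℕ × ℕ) → Prop) : Prop :=
  ∀ (K : Type) [Field K] [Algebra ℂ K] (m : ℕ) (x y : Fin (m + 1) → K)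
    (ρ : Equiv.Perm (Fin (m + 1)) →* (K ≃ₐ[ℂ] K)) (μ : Fin (m + 1) → ℕ × ℕ),
    Gen x y ρ → IsDiag μ → F x y ρ μ

def S_Ch1 : Prop := ChPkg Ch1

def S_Place : Prop := ChPkg fun x y ρ μ => Ch1 x y ρ μ → ∀ s, IsCor μ s → Place x y μ s

def S_Ch2a : Prop := ChPkg fun x y ρ μ => Ch1 x y ρ μ → (∀ s, IsCor μ s → Place x y μ s) → Ch2a x y μ

def S_Ch2 : Prop := ChPkg fun x y ρ μ => Ch1 x y ρ μ → Ch2a x y μ → Ch2 x y ρ μ

/-- the arrow argument, in an abstract quotient -/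
def S_Arrow : Prop := ∀ (m : ℕ) (μ : Fin (m + 1) → ℕ × ℕ) (M : Type) [AddCommGroup M]
  (c : ℕ × ℕ → ℕ × ℕ → M) (X Y : M), IsDiag μ → (∀ h g, (∀ v, μ v ≠ g) → c h g = 0) →
  (∀ h g, (∀ v, μ v ≠ h) → (∃ v, μ v = g) →
    c (h + (1, 0)) g = if g.1 = 0 then 0 else c h (g.1 - 1, g.2)) →
  (∀ h g, (∀ v, μ v ≠ h) → (∃ v, μ v = g) →
    c (h + (0, 1)) g = if g.2 = 0 then 0 else c h (g.1, g.2 - 1)) →
  ∃ (t : Option (Cor μ) → ℕ × ℕ) (N : ℕ) (z : Fin N → M),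
    (∀ w, (∀ v, μ v ≠ t w) ∧ ((t w).1 = 0 ∨ ∃ v, μ v + (1, 0) = t w) ∧
      ((t w).2 = 0 ∨ ∃ v, μ v + (0, 1) = t w)) ∧
    N + Fintype.card (Cor μ) * (Fintype.card (Cor μ) + 1) ≤ 2 * (m + 1) + 2 ∧
    (∀ i, z i = X ∨ z i = Y ∨ ∃ h g, (∀ v, μ v ≠ h) ∧ z i = c h g) ∧
    ∀ g, (g = X ∨ g = Y ∨ ∃ h h', (∀ v, μ v ≠ h) ∧ g = c h h') →
      g ∈ AddSubgroup.closure (Set.range z ∪ Set.range fun ws : Option (Cor μ) × Cor μ =>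
        (if (t ws.1).1 = 0 then 0 else c (μ ws.2 + (0, 1)) ((t ws.1).1 - 1, (t ws.1).2)) -
        (if (t ws.1).2 = 0 then 0 else c (μ ws.2 + (1, 0)) ((t ws.1).1, (t ws.1).2 - 1)) +
        (if μ ws.2 + (0, 1) = t ws.1 then X else 0) - (if μ ws.2 + (1, 0) = t ws.1 then Y else 0))

def S_GenD : Prop := ChPkg fun {K} _ _ {m} x y ρ μ => Ch1 x y ρ μ → Ch2 x y ρ μ →
  ∃ (N : ℕ) (φ : Option (Cor μ) → Cor μ → K) (z : Fin N → K),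
    N + Fintype.card (Cor μ) * (Fintype.card (Cor μ) + 1) ≤ 2 * (m + 1) + 2 ∧
    GenD (xc x y μ) (Rs x y μ) (mR x y μ) φ z

def S_RegM : Prop := ChPkg fun x y ρ μ => Ch1 x y ρ μ → Ch2 x y ρ μ →
  Reg0 univ (xc x y μ) (fun j => (MM (xc x y μ) (Pp x y μ) j).toAddSubgroup) (fun _ => ⊥)

def S_Pts : Prop := ChPkg fun {K} _ _ {m} x y ρ μ => Ch1 x y ρ μ → Ch2 x y ρ μ →
  (∀ s : Cor μ, NF (rm μ s)) → ∀ (N : ℕ) (φ : Option (Cor μ) → Cor μ → K) (z : Fin N → K),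
    N + Fintype.card (Cor μ) * (Fintype.card (Cor μ) + 1) ≤ 2 * (m + 1) + 2 →
    GenD (xc x y μ) (Rs x y μ) (mR x y μ) φ z →
    Pts (xc x y μ) (Rs x y μ) (mR x y μ) φ z ((ev x y).comp (up m)).range (am x y ρ μ)

/-- expansion in the basis of the universal module -/
def S_Exp : Prop := ChPkg fun {K} _ _ {_} x y ρ μ => Ch1 x y ρ μ → Ch2 x y ρ μ →
  ∀ p b b', Comb μ p b b' → ∀ F : Finset (Cor μ) → K,
    Val univ p (Subalgebra.toSubmodule (Pp x y μ)).toAddSubgroup F → dd univ (xc x y μ) F = 0 →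
    ∀ z, Val univ p ⊤ z → psi x y z F - ∑ a, gam μ z (b' a) • psi x y (b a) F ∈
      mO x y μ * Subalgebra.toSubmodule (Pp x y μ)

/-- the inductive step of the `n!` theorem -/
def S_NFs : Prop := ChPkg fun {_} _ _ {m} x y ρ μ => Ch1 x y ρ μ → Ch2 x y ρ μ → Srt μ →
  (∀ s : Cor μ, NF (rm μ s)) →
  Lifts (xc x y μ) (mR x y μ) (Pp x y μ) ((ev x y).comp (up m)) (fun t => beta μ t) →
  ∀ (N : ℕ) (p : Fin N → ℕ) (φ : Fin N → Finset (Cor μ) → Pol m),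
    Gens (fun t : Cor μ => bil (beta μ t)) p φ → NF μ

def S_GenEx : Prop := ∀ n : ℕ, ∃ (K : Type) (_ : Field K) (_ : Algebra ℂ K) (x y : Fin n → K)
  (ρ : Equiv.Perm (Fin n) →* (K ≃ₐ[ℂ] K)), Gen x y ρ

def S_NF : Prop := ∀ (n : ℕ) (ν : Fin n → ℕ × ℕ), IsDiag ν → NF ν

def S_SFc : Prop := ∀ (m : ℕ) (μ : Fin (m + 1) → ℕ × ℕ), IsDiag μ →
  SFc fun t : Cor μ => bil (beta μ t)

end

end Pool.Agent.P.MP_c2aaf5_co
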