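import Pool.Agent.P.MP_c2aaf5_co.DefG

/-! Characters and the identification with the modified Macdonald polynomials. -/

set_option linter.unusedSectionVars false

namespace Pool.Agent.P.MP_c2aaf5_co

open MvPolynomial Finset

noncomputable section

variable {n m : ℕ}

/-- the alternant of a list of exponents -/
def Dl (ν : Fin n → ℕ × ℕ) : Pol n := Delta fun s => (ν s).swap

/-- the apolar pairing -/
def apo (h g : Pol n) : ℂ := ∑ e ∈ h.support, (∏ i, ((e i).factorial : ℂ)) * coeff e h * coeff e g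

/-- the map `f ↦ f(∂) Δ`, normalised -/
structure PhiF (ν : Fin n → ℕ × ℕ) (Φ : Pol n →ₗ[ℂ] Pol n) : Prop where
  range : LinearMap.range Φ = Der (Dl ν)
  ker : LinearMap.ker Φ = Kn ν
  act : ∀ σ f, act σ (Φ f) = ((Equiv.Perm.sign σ : ℤ) : ℂ) • Φ (act σ f)
  deg : ∀ a b, ∀ f ∈ Bi n a b, a ≤ dx ν → b ≤ dy ν → Φ f ∈ Bi n (dx ν - a) (dy ν - b)
  deg0 : ∀ a b, ∀ f ∈ Bi n a b, ¬(a ≤ dx ν ∧ b ≤ dy ν) → Φ f = 0
  apo : ∀ f h, apo h (Φ f) = lam ν (f * h)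
  nondeg : ∀ g : Pol n, (∀ h, Pool.Agent.P.MP_c2aaf5_co.apo h g = 0) → g = 0

/-- trace on a piece of the quotient by the annihilator -/
def qtr (ν : Fin n → ℕ × ℕ) (a b : ℕ) (σ : Equiv.Perm (Fin n)) : ℂ :=
  tr (Bi n a b) σ - tr (Kn ν ⊓ Bi n a b) σ

/-- bigraded character -/
def chg (u v : QT) (V : Submodule ℂ (Pol n)) (σ : Equiv.Perm (Fin n)) : QT :=
  ∑ᶠ ab : ℕ × ℕ, u ^ ab.1 * v ^ ab.2 * algebraMap ℂ QT (tr (V ⊓ Bi n ab.1 ab.2) σ)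

/-- a graded stable subspace -/
def GrSt (U : Submodule ℂ (Pol n)) : Prop :=
  (∀ σ, ∀ g ∈ U, act σ g ∈ U) ∧ ∀ g ∈ U, ∀ ab : ℕ × ℕ, weightedHomogeneousComponent
    (Sum.elim (fun _ => (1, 0)) fun _ => ((0, 1) : ℕ × ℕ)) ab g ∈ U

/-- the colouring `c` violates dominance by the rows of `ν` -/
def Bad {N : ℕ} (ν : Fin n → ℕ × ℕ) (c : Fin n → Fin N) : Prop :=
  ∃ S : Finset (Fin N), (univ.filter fun u => (ν u).2 < S.card).card <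
    (univ.filter fun i => c i ∈ S).card

/-- sign equivariance under the stabiliser of `c` -/
def Eqv {N p : ℕ} (c : Fin n → Fin N) (Ψ : (Fin p → Fin n) → Pol n) : Prop :=
  ∀ σ : Equiv.Perm (Fin n), (∀ i, c (σ i) = c i) → ∀ i,
    Ψ (σ ∘ i) = ((Equiv.Perm.sign σ : ℤ) : ℂ) • act σ (Ψ i)

def yv (r : Fin n) : Pol n := X (Sum.inr r)

/-- exactness of the sign part of the Koszul complex of the fibre -/
def KX {N : ℕ} (ν : Fin n → ℕ × ℕ) (c : Fin n → Fin N) : Prop :=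
  (∀ Ψ : (Fin 0 → Fin n) → Pol n, Eqv c Ψ → ∃ Φ : (Fin 1 → Fin n) → Pol n, Alt Φ ∧ Eqv c Φ ∧
    ∀ i, Ψ i - td yv Φ i ∈ Kn ν) ∧
  ∀ (p : ℕ) (Ψ : (Fin (p + 1) → Fin n) → Pol n), Alt Ψ → Eqv c Ψ → (∀ i, td yv Ψ i ∈ Kn ν) →
    ∃ Φ : (Fin (p + 2) → Fin n) → Pol n, Alt Φ ∧ Eqv c Φ ∧ ∀ i, Ψ i - td yv Φ i ∈ Kn ν

/-- the sign representation occurs once -/
def Nrm (ν : Fin n → ℕ × ℕ) : Prop :=
  ∀ g : Pol n, (∀ σ, act σ g = ((Equiv.Perm.sign σ : ℤ) : ℂ) • g) → ∃ c : ℂ, g - c • Dl ν ∈ Kn ν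

def S_Phi : Prop := ∀ (n : ℕ) (ν : Fin n → ℕ × ℕ), Function.Injective ν → ∃ Φ, PhiF ν Φ

/-- traces on images of graded stable subspaces -/
def S_Tr : Prop := ∀ (n : ℕ) (ν : Fin n → ℕ × ℕ) (Φ : Pol n →ₗ[ℂ] Pol n), PhiF ν Φ →
  GrSt (Kn ν) ∧ ∀ U, GrSt U → GrSt (U.map Φ) ∧ ∀ a b σ, tr (U.map Φ ⊓ Bi n a b) σ =
    if a ≤ dx ν ∧ b ≤ dy ν then ((Equiv.Perm.sign σ : ℤ) : ℂ) *
      (tr (U ⊓ Bi n (dx ν - a) (dy ν - b)) σ - tr (U ⊓ Kn ν ⊓ Bi n (dx ν - a) (dy ν - b)) σ) else 0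

def Tq (ν : Fin n → ℕ × ℕ) : QT := qq ^ dx ν * tt ^ dy ν

def S_SF : Prop := ∀ (m : ℕ) (μ : Fin (m + 1) → ℕ × ℕ), IsDiag μ →
  ∀ S : Finset (Cor μ), S.Nonempty → ∀ σ, chg qq tt (⨅ s ∈ S, Der (Dl (rm μ s))) σ =
    ∑ i ∈ S, (∏ j ∈ S.erase i, Tq (rm μ j) / (Tq (rm μ j) - Tq (rm μ i))) *
      chg qq tt (Der (Dl (rm μ i))) σ

def S_Spe : Prop := ∀ (n N : ℕ) (ν : Fin n → ℕ × ℕ) (c : Fin n → Fin N), IsDiag ν → Bad ν c →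
  ∀ g : Pol n, (∀ σ : Equiv.Perm (Fin n), (∀ i, c (σ i) = c i) →
    act σ g = ((Equiv.Perm.sign σ : ℤ) : ℂ) • g) →
  ∃ h : Fin n → Pol n, g - ∑ r, yv r * h r ∈ Kn ν

/-- the fibre of the chart at the monomial ideal -/
def Fib {K : Type} [Field K] [Algebra ℂ K] (x y : Fin (m + 1) → K) (μ : Fin (m + 1) → ℕ × ℕ) : Prop :=
  (∀ g, g ∈ Kn μ ↔ ev x y g ∈ mO x y μ * Subalgebra.toSubmodule (Pp x y μ)) ∧
  FreeAt (Os x y μ) (Pp x y μ) ∧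
  KF univ y (Subalgebra.toSubmodule (Pp x y μ)).toAddSubgroup ⊥ ∧ Nrm μ

def S_Fib : Prop := ChPkg fun x y ρ μ => Ch1 x y ρ μ → Ch2 x y ρ μ → NF μ → Fib x y μ

def S_KXc : Prop := ChPkg fun {_} _ _ {m} x y ρ μ => Ch1 x y ρ μ → Ch2 x y ρ μ → Fib x y μ →
  ∀ (N : ℕ) (c : Fin (m + 1) → Fin N), Bad μ c → KX μ c

def S_Eul : Prop := ∀ (n N : ℕ) (ν : Fin n → ℕ × ℕ) (c : Fin n → Fin N), GrSt (Kn ν) →
  (∀ a b, dy ν < b → Bi n a b ≤ Kn ν) → KX ν c → ∀ a : ℕ,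
  ∑ σ : Equiv.Perm (Fin n) with ∀ i, c (σ i) = c i,
    Polynomial.C ((Equiv.Perm.sign σ : ℤ) : ℂ) *
      (σ.partition.parts.map fun k => (1 - Polynomial.X ^ k : Polynomial ℂ)).prod *
      ∑ b ∈ range (dy ν + 1), Polynomial.C (qtr ν a b σ) * Polynomial.X ^ b = 0

/-- what the geometry gives for every diagram -/
def S_Geo : Prop := ∀ (m : ℕ) (μ : Fin (m + 1) → ℕ × ℕ), IsDiag μ →
  Nrm μ ∧ ∀ (N : ℕ) (c : Fin (m + 1) → Fin N), Bad μ c → KX μ c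

def S_T2 : Prop := ∀ (n : ℕ) (ν : Fin n → ℕ × ℕ), IsDiag ν → ∀ u v : QT,
  ∑ σ, chg u v (Der (Dl ν)) σ = n.factorial ∧
  ∀ (N : ℕ) (c : Fin n → Fin N), Bad ν c → v ≠ 0 →
    ∑ σ : Equiv.Perm (Fin n) with ∀ i, c (σ i) = c i,
      (σ.partition.parts.map fun k => v ^ k - 1).prod * chg u v (Der (Dl ν)) σ = 0

/-- power sums of cycle type as a sum over invariant colourings -/
def S_Psum : Prop := ∀ (n N : ℕ) (F : Type) [CommRing F] (σ : Equiv.Perm (Fin n)),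
  psumPart (Fin N) F σ.partition =
    ∑ c : Fin n → Fin N with ∀ i, c (σ i) = c i, ∏ i, (X (c i) : MvPolynomial (Fin N) F)

def S_Mac : Prop := ∀ (m : ℕ) (ν : YoungDiagram) (e : Fin m → ℕ × ℕ), Lists e ν →
  IsMac m ν (grFrob (Der (Delta e)))

/-- the Frobenius characteristic through characters -/
def S_Frob : Prop := ∀ (m : ℕ) (e : Fin m → ℕ × ℕ) (V : Submodule ℂ (Pol m)), V ≤ Der (Delta e) →
  grFrob V = ∑ σ : Equiv.Perm (Fin m),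
    (chg qq tt V σ / m.factorial) • psumPart (Fin (m + 1)) QT σ.partition

def S_U0 : Prop := ∀ (m : ℕ) (ν : YoungDiagram), ν.card = m → ∀ b : m.Partition → ℂ,
  (∀ d, coeff d (∑ l : m.Partition, b l • psumPart (Fin (m + 1)) ℂ l) ≠ 0 →
    Dom d ν.rowLen ∧ ¬∀ i, d i = ν.rowLen i) →
  (∀ d, coeff d (∑ l : m.Partition,
    (b l * (-1) ^ l.parts.card) • psumPart (Fin (m + 1)) ℂ l) ≠ 0 → Dom d ν.colLen) → b = 0

def S_Uniq : Prop := ∀ (m : ℕ) (ν : YoungDiagram), ν.card = m → ∀ H H', IsMac m ν H → IsMac m ν H' →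
  H = H'

end

end Pool.Agent.P.MP_c2aaf5_co
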