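import Mathlib

/-! Definitions used by the final statement. -/

namespace Pool.Agent.P.MP_c2aaf5_co

open MvPolynomial Finset

noncomputable section

/-- `ℂ[x_1..x_m, y_1..y_m]`, with `x_r = X (inl r)` and `y_r = X (inr r)` -/
abbrev Pol (m : ℕ) := MvPolynomial (Fin m ⊕ Fin m) ℂ

/-- the field `ℂ(q,t)` -/
abbrev QT := FractionRing (MvPolynomial (Fin 2) ℂ)

def qq : QT := algebraMap (MvPolynomial (Fin 2) ℂ) QT (X 0)

def tt : QT := algebraMap (MvPolynomial (Fin 2) ℂ) QT (X 1)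

/-- `det [x_r^(j_s) y_r^(i_s)]` for a list of cells `e s = (i_s, j_s)` (row, column, from 0) -/
def Delta {m : ℕ} (e : Fin m → ℕ × ℕ) : Pol m :=
  Matrix.det (Matrix.of fun r s => X (Sum.inl r) ^ (e s).2 * X (Sum.inr r) ^ (e s).1)

/-- the span of all iterated derivatives of `D` -/
def Der {m : ℕ} (D : Pol m) : Submodule ℂ (Pol m) :=
  Submodule.span ℂ {g | ∃ l : List (Fin m ⊕ Fin m), g = l.foldr (fun v h => pderiv v h) D}

/-- `e` lists the cells of `ν`, each once -/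
def Lists {m : ℕ} (e : Fin m → ℕ × ℕ) (ν : YoungDiagram) : Prop :=
  Function.Injective e ∧ ∀ c, c ∈ ν ↔ ∃ s, e s = c

/-- polynomials of `x`-degree `a` and `y`-degree `b` -/
def Bi (m a b : ℕ) : Submodule ℂ (Pol m) :=
  weightedHomogeneousSubmodule ℂ (Sum.elim (fun _ => (1, 0)) fun _ => ((0, 1) : ℕ × ℕ)) (a, b)

/-- the diagonal action of a permutation -/
def act {m : ℕ} (σ : Equiv.Perm (Fin m)) : Pol m →ₐ[ℂ] Pol m := rename (Sum.map σ σ)

open Classical in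
/-- trace of `σ` on a stable subspace -/
def tr {m : ℕ} (U : Submodule ℂ (Pol m)) (σ : Equiv.Perm (Fin m)) : ℂ :=
  if h : ∀ g ∈ U, (act σ).toLinearMap g ∈ U then
    LinearMap.trace ℂ U ((act σ).toLinearMap.restrict h) else 0

/-- symmetric functions of degree `m` are written in `m + 1` variables -/
abbrev SF (m : ℕ) := MvPolynomial (Fin (m + 1)) QT

/-- Frobenius characteristic `(1/m!) ∑ χ(σ) p_(cycle type of σ)` -/
def Frob {m : ℕ} (U : Submodule ℂ (Pol m)) : SF m :=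
  ∑ σ : Equiv.Perm (Fin m),
    algebraMap ℂ QT (tr U σ / m.factorial) • psumPart (Fin (m + 1)) QT σ.partition

/-- bigraded Frobenius characteristic -/
def grFrob {m : ℕ} (V : Submodule ℂ (Pol m)) : SF m :=
  ∑ᶠ ab : ℕ × ℕ, (qq ^ ab.1 * tt ^ ab.2) • Frob (V ⊓ Bi m ab.1 ab.2)

/-- the plethysm `H[X(c-1)]` of `H = ∑ a_λ p_λ` : each `p_k` becomes `(c^k - 1) p_k` -/
def pleth {m : ℕ} (c : QT) (a : m.Partition → QT) : SF m :=
  ∑ l : m.Partition, (a l * (l.parts.map fun k => c ^ k - 1).prod) • psumPart (Fin (m + 1)) QT l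

/-- the exponent vector `d`, sorted, is dominated by the partition with parts `len 0, len 1, ..` -/
def Dom {N : ℕ} (d : Fin N →₀ ℕ) (len : ℕ → ℕ) : Prop :=
  ∀ S : Finset (Fin N), ∑ i ∈ S, d i ≤ ∑ j ∈ range S.card, len j

/-- the triangularity and normalisation conditions that define the modified Macdonald polynomial -/
def IsMac (m : ℕ) (ν : YoungDiagram) (H : SF m) : Prop :=
  ∃ a : m.Partition → QT, H = ∑ l : m.Partition, a l • psumPart (Fin (m + 1)) QT l ∧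
    (∀ d, coeff d (pleth qq a) ≠ 0 → Dom d ν.colLen) ∧
    (∀ d, coeff d (pleth tt a) ≠ 0 → Dom d ν.rowLen) ∧ coeff (Finsupp.single 0 m) H = 1

/-- `T_ν` -/
def TT (ν : YoungDiagram) : QT := ∏ c ∈ ν.cells, tt ^ c.1 * qq ^ c.2

/-- the final statement -/
def Final : Prop :=
  (∀ (m : ℕ) (ν : YoungDiagram), ν.card = m → ∃! H, IsMac m ν H) ∧
  ∀ (m : ℕ) (μ : YoungDiagram), μ.card = m + 1 → ∀ (k : ℕ), 1 ≤ k →
    ∀ (ν : Fin k → YoungDiagram), Function.Injective ν → (∀ i, ν i ≤ μ) →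
    ∀ (e : Fin k → Fin m → ℕ × ℕ), (∀ i, Lists (e i) (ν i)) →
    ∀ (H : Fin k → SF m), (∀ i, IsMac m (ν i) (H i)) →
    grFrob (⨅ i, Der (Delta (e i))) =
      ∑ i, (∏ j ∈ univ.erase i, TT (ν j) / (TT (ν j) - TT (ν i))) • H i

end

end Pool.Agent.P.MP_c2aaf5_co
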