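import Pool.Agent.P.MP_c2aaf5_co.DefG

/-! Elementary facts on `lam`, and the existence of generic points. -/

namespace Pool.Agent.P.MP_c2aaf5_co

open MvPolynomial Finset

noncomputable section

namespace GLamAAux

variable {n m : ℕ}

@[simp] lemma mono_inl (h : Fin n → ℕ × ℕ) (i : Fin n) : mono h (Sum.inl i) = (h i).1 := rfl

@[simp] lemma mono_inr (h : Fin n → ℕ × ℕ) (i : Fin n) : mono h (Sum.inr i) = (h i).2 := rfl

lemma mono_inj {h h' : Fin n → ℕ × ℕ} (e : mono h = mono h') : h = h' := by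
  funext i
  exact Prod.ext (by simpa using DFunLike.congr_fun e (Sum.inl i))
    (by simpa using DFunLike.congr_fun e (Sum.inr i))

lemma mono_surj (d : (Fin n ⊕ Fin n) →₀ ℕ) : ∃ h, mono h = d := by
  refine ⟨fun i => (d (Sum.inl i), d (Sum.inr i)), ?_⟩
  ext (i | i) <;> rfl

lemma prod_xm (h : Fin n → ℕ × ℕ) : ∏ i, xm i (h i) = monomial (mono h) (1 : ℂ) := by
  rw [monomial_eq, Finsupp.prod_fintype _ _ (by simp), Fintype.prod_sum_type]
  simp [xm, Finset.prod_mul_distrib]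

lemma lam_apply (ν : Fin n → ℕ × ℕ) (g : Pol n) :
    lam ν g = ∑ σ : Equiv.Perm (Fin n), ((Equiv.Perm.sign σ : ℤ) : ℂ) * coeff (mono (ν ∘ σ)) g := by
  simp [lam, LinearMap.sum_apply]

lemma sign_sq (σ : Equiv.Perm (Fin n)) :
    ((Equiv.Perm.sign σ : ℤ) : ℂ) * ((Equiv.Perm.sign σ : ℤ) : ℂ) = 1 := by
  rw [← Int.cast_mul, ← Units.val_mul, Int.units_mul_self]
  simp

lemma sign_mul' (σ τ : Equiv.Perm (Fin n)) : ((Equiv.Perm.sign (σ * τ) : ℤ) : ℂ) =
    ((Equiv.Perm.sign σ : ℤ) : ℂ) * ((Equiv.Perm.sign τ : ℤ) : ℂ) := by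
  simp

lemma coeff_act (σ : Equiv.Perm (Fin n)) (h : Fin n → ℕ × ℕ) (g : Pol n) :
    coeff (mono h) (act σ g) = coeff (mono (h ∘ σ)) g := by
  have inj : Function.Injective (Sum.map σ σ : Fin n ⊕ Fin n → Fin n ⊕ Fin n) :=
    σ.injective.sumMap σ.injective
  have e : mono h = Finsupp.mapDomain (Sum.map σ σ) (mono (h ∘ σ)) := by
    ext v
    obtain ⟨w, rfl⟩ := (σ.surjective.sumMap σ.surjective) v
    rw [Finsupp.mapDomain_apply inj]
    rcases w with i | i <;> rfl
  rw [e, act, coeff_rename_mapDomain _ inj]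

lemma lam_act (ν : Fin n → ℕ × ℕ) (σ : Equiv.Perm (Fin n)) (g : Pol n) :
    lam ν (act σ g) = ((Equiv.Perm.sign σ : ℤ) : ℂ) * lam ν g := by
  rw [lam_apply, lam_apply, Finset.mul_sum]
  refine Fintype.sum_equiv (Equiv.mulRight σ) _ _ fun τ => ?_
  rw [coeff_act, Equiv.coe_mulRight, sign_mul', ← mul_assoc, mul_left_comm, sign_sq, mul_one]
  rfl

lemma lam_perm (ν : Fin n → ℕ × ℕ) (σ : Equiv.Perm (Fin n)) (g : Pol n) :
    lam (ν ∘ σ) g = ((Equiv.Perm.sign σ : ℤ) : ℂ) * lam ν g := by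
  rw [lam_apply, lam_apply, Finset.mul_sum]
  refine Fintype.sum_equiv (Equiv.mulLeft σ) _ _ fun τ => ?_
  rw [Equiv.coe_mulLeft, sign_mul', ← mul_assoc, ← mul_assoc, sign_sq, one_mul]
  rfl

lemma lam_prod (ν h : Fin n → ℕ × ℕ) : lam ν (∏ i, xm i (h i)) =
    (Matrix.of fun i j => if h i = ν j then (1 : ℂ) else 0).det := by
  classical
  rw [← Matrix.det_transpose, Matrix.det_apply', lam_apply, prod_xm]
  refine Finset.sum_congr rfl fun σ _ => ?_
  congr 1
  rw [coeff_monomial]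
  simp only [Matrix.transpose_apply, Matrix.of_apply]
  rw [Finset.prod_ite_zero]
  simp only [Finset.mem_univ, true_imp_iff, Finset.prod_const_one]
  refine if_congr ⟨fun e i => ?_, fun e => ?_⟩ rfl rfl
  · exact congrFun (mono_inj e) i
  · congr 1
    exact funext e

lemma xm_up (c : ℕ × ℕ) (h : Fin m → ℕ × ℕ) :
    xm 0 c * up m (∏ i, xm i (h i)) = ∏ i, xm i ((Fin.cons c h : Fin (m + 1) → ℕ × ℕ) i) := by
  rw [Fin.prod_univ_succ, map_prod]
  simp [xm, up]

lemma beta_apply (μ : Fin (m + 1) → ℕ × ℕ) (u : Fin (m + 1)) (g : Pol m) :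
    beta μ u g = lam μ (xm 0 (μ u) * up m g) := rfl

/-- two linear maps that agree on the products `∏ xm i (h i)` are equal -/
lemma ext_prod {V : Type} [AddCommGroup V] [Module ℂ V] {A B : Pol n →ₗ[ℂ] V}
    (e : ∀ h : Fin n → ℕ × ℕ, A (∏ i, xm i (h i)) = B (∏ i, xm i (h i))) : A = B := by
  refine MvPolynomial.linearMap_ext fun d => LinearMap.ext_ring ?_
  obtain ⟨h, rfl⟩ := mono_surj d
  simpa [prod_xm] using e h

lemma beta_eq (μ : Fin (m + 1) → ℕ × ℕ) (u : Fin (m + 1)) (inj : Function.Injective μ) (g : Pol m) :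
    beta μ u g = (-1) ^ (u : ℕ) * lam (rm μ u) g := by
  have : beta μ u = ((-1 : ℂ) ^ (u : ℕ)) • lam (rm μ u) := by
    refine ext_prod fun h => ?_
    rw [beta_apply, xm_up, lam_prod, Matrix.det_succ_row_zero, Finset.sum_eq_single u,
      LinearMap.smul_apply, lam_prod]
    · simp only [Matrix.of_apply, Fin.cons_zero, if_true, mul_one, smul_eq_mul]
      rfl
    · intro v _ hv
      have : μ u ≠ μ v := fun e => hv (inj e).symm
      simp [this]
    · simp
  rw [this]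
  rfl

lemma dx_comp (ν : Fin n → ℕ × ℕ) (σ : Equiv.Perm (Fin n)) : dx (ν ∘ σ) = dx ν :=
  Equiv.sum_comp σ fun i => (ν i).1

lemma dy_comp (ν : Fin n → ℕ × ℕ) (σ : Equiv.Perm (Fin n)) : dy (ν ∘ σ) = dy ν :=
  Equiv.sum_comp σ fun i => (ν i).2

lemma weight_mono (h : Fin n → ℕ × ℕ) :
    Finsupp.weight (Sum.elim (fun _ => (1, 0)) fun _ => ((0, 1) : ℕ × ℕ)) (mono h) =
      (dx h, dy h) := by
  rw [Finsupp.weight_apply, Finsupp.sum_fintype _ _ (by simp), Fintype.sum_sum_type]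
  refine Prod.ext ?_ ?_ <;> simp [dx, dy, Prod.fst_sum, Prod.snd_sum]

lemma lam_deg (ν : Fin n → ℕ × ℕ) (a b : ℕ) (g : Pol n) (hg : g ∈ Bi n a b)
    (ne : (a, b) ≠ (dx ν, dy ν)) : lam ν g = 0 := by
  rw [lam_apply]
  refine Finset.sum_eq_zero fun σ _ => ?_
  have : coeff (mono (ν ∘ σ)) g = 0 := by
    by_contra hc
    have := (mem_weightedHomogeneousSubmodule _ _ _ _).1 hg hc
    rw [weight_mono, dx_comp, dy_comp] at this
    exact ne this.symm
  rw [this, mul_zero]

lemma lam_prod_ne (ν h : Fin n → ℕ × ℕ) (ne : lam ν (∏ i, xm i (h i)) ≠ 0) :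
    dx h = dx ν ∧ dy h = dy ν := by
  classical
  rw [lam_apply, prod_xm] at ne
  obtain ⟨σ, -, hσ⟩ := Finset.exists_ne_zero_of_sum_ne_zero ne
  have e : mono h = mono (ν ∘ σ) := by
    by_contra hc
    rw [coeff_monomial, if_neg hc, mul_zero] at hσ
    exact hσ rfl
  rw [mono_inj e, dx_comp, dy_comp]
  exact ⟨rfl, rfl⟩

lemma beta_prod_ne (μ : Fin (m + 1) → ℕ × ℕ) (u : Fin (m + 1)) (h : Fin m → ℕ × ℕ)
    (ne : beta μ u (∏ i, xm i (h i)) ≠ 0) :
    (μ u).1 + dx h = dx μ ∧ (μ u).2 + dy h = dy μ := by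
  rw [beta_apply, xm_up] at ne
  obtain ⟨h1, h2⟩ := lam_prod_ne _ _ ne
  rw [← h1, ← h2]
  simp [dx, dy, Fin.sum_univ_succ]

lemma diag_rm (μ : Fin (m + 1) → ℕ × ℕ) (u : Fin (m + 1)) (hd : IsDiag μ) (hc : IsCor μ u) :
    IsDiag (rm μ u) := by
  refine ⟨hd.1.comp Fin.succAbove_right_injective, fun i h hh => ?_⟩
  obtain ⟨j, hj⟩ := hd.2 _ h hh
  have : j ≠ u := by
    rintro rfl
    exact Fin.succAbove_ne j i (hc _ (hj ▸ hh))
  obtain ⟨r, rfl⟩ := Fin.exists_succAbove_eq this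
  exact ⟨r, hj⟩

lemma exists_cor (μ : Fin n → ℕ × ℕ) (inj : Function.Injective μ) (v : Fin n) :
    ∃ u, IsCor μ u ∧ μ v ≤ μ u := by
  classical
  obtain ⟨u, hu, hmax⟩ := Finset.exists_max_image (univ.filter fun u => μ v ≤ μ u)
    (fun u => (μ u).1 + (μ u).2) ⟨v, by simp⟩
  have hvu : μ v ≤ μ u := (Finset.mem_filter.1 hu).2
  refine ⟨u, fun w hw => ?_, hvu⟩
  have h1 := hmax w (Finset.mem_filter.2 ⟨Finset.mem_univ _, hvu.trans hw⟩)
  have h2 := hw.1
  have h3 := hw.2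
  exact inj (Prod.ext (by omega) (by omega))

lemma dx_inj (μ : Fin n → ℕ × ℕ) : Function.Injective fun s : Cor μ => (μ s).1 := by
  intro s t e
  have e' : (μ s).1 = (μ t).1 := e
  rcases le_total (μ s).2 (μ t).2 with h | h
  · exact Subtype.ext (s.2 t ⟨e'.le, h⟩).symm
  · exact Subtype.ext (t.2 s ⟨e'.ge, h⟩)

lemma prod_mul_prod (h h' : Fin n → ℕ × ℕ) :
    (∏ i, xm i (h i)) * ∏ i, xm i (h' i) = ∏ i, xm i ((h + h') i) := by
  rw [← Finset.prod_mul_distrib]
  refine Finset.prod_congr rfl fun i _ => ?_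
  simp only [xm, Pi.add_apply, Prod.fst_add, Prod.snd_add, pow_add]
  ring

lemma degree_mono (h : Fin n → ℕ × ℕ) : Finsupp.degree (mono h) = dx h + dy h := by
  rw [Finsupp.degree_eq_sum, Fintype.sum_sum_type]
  rfl

lemma prod_mem_Kall (μ : Fin (m + 1) → ℕ × ℕ) (h : Fin m → ℕ × ℕ)
    (big : dx μ + dy μ < dx h + dy h) :
    ∏ i, xm i (h i) ∈ Kall fun t : Cor μ => bil (beta μ t) := by
  refine (Submodule.mem_iInf _).2 fun t => LinearMap.mem_ker.2 (ext_prod fun h' => ?_)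
  change beta μ t ((∏ i, xm i (h i)) * ∏ i, xm i (h' i)) = 0
  by_contra ne
  rw [prod_mul_prod] at ne
  obtain ⟨h1, h2⟩ := beta_prod_ne _ _ _ ne
  have e1 : dx (h + h') = dx h + dx h' := by simp [dx, Finset.sum_add_distrib]
  have e2 : dy (h + h') = dy h + dy h' := by simp [dy, Finset.sum_add_distrib]
  omega

lemma fin_quot (μ : Fin (m + 1) → ℕ × ℕ) :
    FiniteDimensional ℂ (Pol m ⧸ Kall fun t : Cor μ => bil (beta μ t)) := by
  set N := Kall fun t : Cor μ => bil (beta μ t) with hN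
  have hf := (Finsupp.finite_of_degree_le (σ := Fin m ⊕ Fin m) (dx μ + dy μ)).image
    fun d => N.mkQ (monomial d (1 : ℂ))
  refine ⟨⟨hf.toFinset, ?_⟩⟩
  rw [Set.Finite.coe_toFinset, eq_top_iff]
  rintro v -
  obtain ⟨g, rfl⟩ := N.mkQ_surjective v
  induction g using MvPolynomial.induction_on' with
  | monomial d c =>
    have e : monomial d c = c • monomial d (1 : ℂ) := by simp [smul_monomial]
    rw [e, map_smul]
    refine Submodule.smul_mem _ _ ?_
    by_cases hd : Finsupp.degree d ≤ dx μ + dy μ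
    · exact Submodule.subset_span ⟨d, hd, rfl⟩
    · obtain ⟨h, rfl⟩ := mono_surj d
      rw [degree_mono] at hd
      have : N.mkQ (monomial (mono h) (1 : ℂ)) = 0 := by
        rw [← prod_xm]
        exact (Submodule.Quotient.mk_eq_zero N).2 (prod_mem_Kall μ h (by omega))
      rw [this]
      exact Submodule.zero_mem _
  | add p q hp hq =>
    rw [map_add]
    exact Submodule.add_mem _ hp hq

/-- the Euler operator in the first set of variables -/
def eu (m : ℕ) : Derivation ℂ (Pol m) (Pol m) :=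
  ∑ i : Fin m, (X (Sum.inl i) : Pol m) • pderiv (Sum.inl i)

lemma eu_prod (h : Fin m → ℕ × ℕ) :
    eu m (∏ i, xm i (h i)) = (dx h : ℂ) • ∏ i, xm i (h i) := by
  have sa : ∀ g, eu m g = ∑ i : Fin m, ((X (Sum.inl i) : Pol m) • pderiv (Sum.inl i)) g := by
    intro g
    have := map_sum (Derivation.coeFnAddMonoidHom (R := ℂ) (A := Pol m) (M := Pol m))
      (fun i : Fin m => (X (Sum.inl i) : Pol m) • pderiv (Sum.inl i)) univ
    have := congrFun this g
    rw [Finset.sum_apply] at this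
    exact this
  rw [prod_xm, sa]
  simp only [Derivation.smul_apply, smul_eq_mul, X_mul_pderiv_monomial, mono_inl]
  rw [← Finset.sum_smul, Nat.cast_smul_eq_nsmul]
  rfl

lemma euler (μ : Fin (m + 1) → ℕ × ℕ) : ∃ h : Pol m →ₗ[ℂ] Pol m, ∀ u f g,
    beta μ u (h f * g) + beta μ u (f * h g) = ((dx μ : ℂ) - (μ u).1) * beta μ u (f * g) := by
  refine ⟨(eu m).toLinearMap, fun u f g => ?_⟩
  have key : beta μ u ∘ₗ (eu m).toLinearMap = ((dx μ : ℂ) - (μ u).1) • beta μ u := by
    refine ext_prod fun h => ?_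
    change beta μ u (eu m (∏ i, xm i (h i))) = _ * beta μ u (∏ i, xm i (h i))
    rw [eu_prod, map_smul, smul_eq_mul]
    by_cases ne : beta μ u (∏ i, xm i (h i)) = 0
    · rw [ne, mul_zero, mul_zero]
    · rw [← (beta_prod_ne μ u h ne).1]
      push_cast
      ring
  have := LinearMap.congr_fun key (f * g)
  change beta μ u (eu m (f * g)) = _ * beta μ u (f * g) at this
  rw [← this, Derivation.leibniz, ← map_add]
  congr 1
  change eu m f * g + f * eu m g = _
  simp only [smul_eq_mul]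
  ring

/-- the diagonal action as a homomorphism -/
def actHom (n : ℕ) : Equiv.Perm (Fin n) →* (Pol n ≃ₐ[ℂ] Pol n) where
  toFun σ := renameEquiv ℂ (Equiv.sumCongr σ σ)
  map_one' := by
    refine AlgEquiv.coe_toAlgHom_injective (MvPolynomial.algHom_ext fun v => ?_)
    rcases v with i | i <;> simp
  map_mul' σ τ := by
    refine AlgEquiv.coe_toAlgHom_injective (MvPolynomial.algHom_ext fun v => ?_)
    rcases v with i | i <;> simp

end GLamAAux

open GLamAAux

theorem lamA : LamA where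
  act := lam_act
  perm := lam_perm
  prod := lam_prod
  beta := beta_eq
  deg := lam_deg
  diag := diag_rm
  cor := exists_cor
  dxinj := dx_inj
  fin := fin_quot
  euler := euler

theorem genEx : S_GenEx := by
  intro n
  refine ⟨FractionRing (Pol n), inferInstance, inferInstance,
    fun i => algebraMap (Pol n) _ (X (Sum.inl i)), fun i => algebraMap (Pol n) _ (X (Sum.inr i)),
    (IsFractionRing.fieldEquivOfAlgEquivHom ℂ (FractionRing (Pol n))).comp (actHom n), ?_, ?_, ?_⟩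
  · have := (MvPolynomial.algebraicIndependent_X (Fin n ⊕ Fin n) ℂ).map'
      (f := IsScalarTower.toAlgHom ℂ (Pol n) (FractionRing (Pol n)))
      (IsFractionRing.injective (Pol n) (FractionRing (Pol n)))
    have e : (IsScalarTower.toAlgHom ℂ (Pol n) (FractionRing (Pol n))) ∘ X =
        Sum.elim (fun i => algebraMap (Pol n) (FractionRing (Pol n)) (X (Sum.inl i)))
          fun i => algebraMap (Pol n) (FractionRing (Pol n)) (X (Sum.inr i)) := by
      funext v
      rcases v with i | i <;> rfl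
    rw [e] at this
    exact this
  · intro σ i
    simp [actHom]
  · intro σ i
    simp [actHom]

end

end Pool.Agent.P.MP_c2aaf5_co
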