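import Pool.Agent.P.MP_c2aaf5_co.DefG

/-! Package G13: the inductive step of the factorial theorem. -/

set_option linter.unusedSectionVars false

namespace Pool.Agent.P.MP_c2aaf5_co

open MvPolynomial Finset

noncomputable section

namespace GNFsAux

section comb
variable {τ : Type} [LinearOrder τ] [Fintype τ]

/-- the pairing, as a bilinear map -/
def gl (c : τ → ℕ × ℕ) : (Finset τ → MvPolynomial (Fin 2) ℂ) →ₗ[ℂ]
    (Finset τ → MvPolynomial (Fin 2) ℂ) →ₗ[ℂ] ℂ :=
  LinearMap.mk₂ ℂ (fun z η => ∑ s : τ, coeff (mon2 (c s)) (∑ J, cr s z J * η J))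
    (fun z z' η => by
      simp only [map_add, Pi.add_apply, add_mul, sum_add_distrib, coeff_add])
    (fun a z η => by
      simp only [cr_smul, Pi.smul_apply, smul_mul_assoc, ← smul_sum, coeff_smul])
    (fun z η η' => by
      simp only [Pi.add_apply, mul_add, sum_add_distrib, coeff_add])
    (fun a z η => by
      simp only [Pi.smul_apply, mul_smul_comm, ← smul_sum, coeff_smul])

theorem gl_apply (c : τ → ℕ × ℕ) (z η : Finset τ → MvPolynomial (Fin 2) ℂ) :
    gl c z η = ∑ s : τ, coeff (mon2 (c s)) (∑ J, cr s z J * η J) := rfl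

theorem gl_poly (c : τ → ℕ × ℕ) (q : MvPolynomial (Fin 2) ℂ)
    (z η : Finset τ → MvPolynomial (Fin 2) ℂ) :
    gl c (q • z) η = ∑ s : τ, coeff (mon2 (c s)) (q * ∑ J, cr s z J * η J) := by
  simp only [gl_apply, cr_smul, Pi.smul_apply, smul_eq_mul, mul_sum, mul_assoc]

theorem gl_swap (c : τ → ℕ × ℕ) (q : MvPolynomial (Fin 2) ℂ)
    (z η : Finset τ → MvPolynomial (Fin 2) ℂ) : gl c (q • z) η = gl c z (q • η) := by
  rw [gl_poly, gl_apply]
  simp only [Pi.smul_apply, smul_eq_mul, mul_sum, mul_left_comm]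

theorem mon2_zero (h : ℕ × ℕ) : mon2 h 0 = h.1 := by simp [mon2]

theorem mon2_one (h : ℕ × ℕ) : mon2 h 1 = h.2 := by simp [mon2]

theorem mon2_le {h h' : ℕ × ℕ} (H : mon2 h ≤ mon2 h') : h ≤ h' := by
  have h0 := H 0
  have h1 := H 1
  rw [mon2_zero, mon2_zero] at h0
  rw [mon2_one, mon2_one] at h1
  exact ⟨h0, h1⟩

theorem monomial_mon2 (h : ℕ × ℕ) :
    (monomial (mon2 h) (1 : ℂ) : MvPolynomial (Fin 2) ℂ) = X 0 ^ h.1 * X 1 ^ h.2 := by
  rw [X_pow_eq_monomial, X_pow_eq_monomial, monomial_mul, one_mul, mon2]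

theorem gl_big (c : τ → ℕ × ℕ) (v : Fin 2 →₀ ℕ) (hv : ∑ s, ((c s).1 + (c s).2) < v 0 + v 1)
    (z η : Finset τ → MvPolynomial (Fin 2) ℂ) : gl c (monomial v (1 : ℂ) • z) η = 0 := by
  rw [gl_poly]
  refine sum_eq_zero fun s _ => ?_
  rw [coeff_monomial_mul', if_neg]
  intro H
  have h0 := H 0
  have h1 := H 1
  rw [mon2_zero] at h0
  rw [mon2_one] at h1
  have := single_le_sum (f := fun s => (c s).1 + (c s).2) (fun _ _ => Nat.zero_le _) (mem_univ s)
  omega

theorem gl_delta (c : τ → ℕ × ℕ) (hc : ∀ s t, c s ≤ c t → t = s) (s : τ) (I : Finset τ)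
    (hI : ∀ t ∈ I, s < t) (η : Finset τ → MvPolynomial (Fin 2) ℂ) :
    gl c (monomial (mon2 (c s)) (1 : ℂ) • Pi.single I 1) η = coeff 0 (η (insert s I)) := by
  have hs : s ∉ I := fun h => lt_irrefl _ (hI s h)
  rw [gl_poly, sum_eq_single s]
  · rw [coeff_monomial_mul', if_pos le_rfl, one_mul, tsub_self, sum_eq_single (insert s I)]
    · rw [cr_apply, if_pos (mem_insert_self _ _), erase_insert hs, sg_insert_self,
        sg_of_forall_lt hI]
      simp
    · intro J _ hJ
      rw [cr_apply]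
      split_ifs with h
      · rw [Pi.single_eq_of_ne, smul_zero, zero_mul]
        intro e
        apply hJ
        rw [← e, insert_erase h]
      · simp
    · simp
  · intro t _ ht
    rw [coeff_monomial_mul', if_neg]
    exact fun H => ht (hc s t (mon2_le H))
  · simp

theorem sum_min (f : Finset τ → ℂ) (h0 : f ∅ = 0) :
    ∑ J, f J = ∑ s, ∑ I : Finset τ, if ∀ t ∈ I, s < t then f (insert s I) else 0 := by
  have e : ∀ s, (∑ I : Finset τ, if ∀ t ∈ I, s < t then f (insert s I) else 0) =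
      ∑ J : Finset τ, if s ∈ J ∧ ∀ t ∈ J, s ≤ t then f J else 0 := by
    intro s
    rw [← sum_filter, ← sum_filter]
    refine sum_nbij' (fun I => insert s I) (fun J => J.erase s) ?_ ?_ ?_ ?_ ?_
    · intro I hI
      simp only [mem_filter, mem_univ, true_and] at hI ⊢
      refine ⟨mem_insert_self _ _, fun t ht => ?_⟩
      rcases mem_insert.1 ht with rfl | ht
      · exact le_rfl
      · exact (hI t ht).le
    · intro J hJ
      simp only [mem_filter, mem_univ, true_and] at hJ ⊢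
      intro t ht
      exact lt_of_le_of_ne (hJ.2 t (mem_of_mem_erase ht)) (ne_of_mem_erase ht).symm
    · intro I hI
      simp only [mem_filter, mem_univ, true_and] at hI
      exact erase_insert fun h => lt_irrefl _ (hI s h)
    · intro J hJ
      simp only [mem_filter, mem_univ, true_and] at hJ
      exact insert_erase hJ.1
    · intro I _
      rfl
  simp only [e]
  rw [sum_comm]
  refine sum_congr rfl fun J _ => ?_
  rcases J.eq_empty_or_nonempty with rfl | hJ
  · simp [h0]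
  · rw [sum_eq_single (J.min' hJ), if_pos ⟨J.min'_mem hJ, fun t ht => J.min'_le t ht⟩]
    · intro s _ hs
      rw [if_neg]
      rintro ⟨h1, h2⟩
      exact hs (le_antisymm (h2 _ (J.min'_mem hJ)) (J.min'_le s h1))
    · simp

theorem val_single {p : ℕ} {J : Finset τ} (hJ : J.card = p) (q : MvPolynomial (Fin 2) ℂ) :
    Val univ p ⊤ (Pi.single J q : Finset τ → MvPolynomial (Fin 2) ℂ) := by
  refine fun I => ⟨trivial, fun hI => Pi.single_eq_of_ne ?_ _⟩
  rintro rfl
  exact hI ⟨subset_univ _, hJ⟩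

theorem val_smul {p : ℕ} {M : Type} [Monoid M] [DistribMulAction M (MvPolynomial (Fin 2) ℂ)]
    {z : Finset τ → MvPolynomial (Fin 2) ℂ} (hz : Val univ p ⊤ z) (q : M) :
    Val univ p ⊤ (q • z) := fun I => ⟨trivial, fun hI => by rw [Pi.smul_apply, (hz I).2 hI, smul_zero]⟩

theorem val_sum {p : ℕ} {ι : Type} [Fintype ι] {z : ι → Finset τ → MvPolynomial (Fin 2) ℂ}
    (hz : ∀ a, Val univ p ⊤ (z a)) : Val univ p ⊤ (∑ a, z a) := fun I =>
  ⟨trivial, fun hI => by rw [Finset.sum_apply]; exact sum_eq_zero fun a _ => (hz a I).2 hI⟩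

/-- a socle multiple only sees constant terms -/
theorem gl_const (c : τ → ℕ × ℕ) (p : ℕ) (z : Finset τ → MvPolynomial (Fin 2) ℂ)
    (hz : ∀ (j : Fin 2) η, Val univ p ⊤ η → gl c ((X j : MvPolynomial (Fin 2) ℂ) • z) η = 0)
    (η : Finset τ → MvPolynomial (Fin 2) ℂ) (hη : Val univ p ⊤ η) :
    gl c z η = ∑ J, if J.card = p then coeff 0 (η J) * gl c z (Pi.single J 1) else 0 := by
  have h1 : ∀ J : Finset τ, J.card = p → ∀ q : MvPolynomial (Fin 2) ℂ,
      gl c z (Pi.single J q) = coeff 0 q * gl c z (Pi.single J 1) := by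
    intro J hJ q
    induction q using MvPolynomial.induction_on with
    | C a =>
      have : (Pi.single J (C a) : Finset τ → MvPolynomial (Fin 2) ℂ) = a • Pi.single J 1 := by
        rw [← Pi.single_smul, C_eq_smul_one]
      rw [this, map_smul]; simp
    | add q q' hq hq' => rw [Pi.single_add, map_add, hq, hq', coeff_add, add_mul]
    | mul_X q j _ =>
      have : (Pi.single J (q * X j) : Finset τ → MvPolynomial (Fin 2) ℂ) =
          (X j : MvPolynomial (Fin 2) ℂ) • Pi.single J q := by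
        rw [← Pi.single_smul, smul_eq_mul, mul_comm]
      rw [this, ← gl_swap, hz j _ (val_single hJ q), ← constantCoeff_eq, map_mul]
      simp
  conv_lhs => rw [← univ_sum_single η, map_sum]
  refine sum_congr rfl fun J _ => ?_
  split_ifs with hJ
  · exact h1 J hJ _
  · rw [(hη J).2 fun h => hJ h.2]; simp

/-- existence of a socle multiple -/
theorem exists_socle (c : τ → ℕ × ℕ) {ι : Type} (p : ι → ℕ)
    (z : ι → Finset τ → MvPolynomial (Fin 2) ℂ)
    (hz : ∃ i η, Val univ (p i) ⊤ η ∧ gl c (z i) η ≠ 0) :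
    ∃ q : MvPolynomial (Fin 2) ℂ, (∃ i η, Val univ (p i) ⊤ η ∧ gl c (q • z i) η ≠ 0) ∧
      ∀ i (j : Fin 2) η, Val univ (p i) ⊤ η →
        gl c ((X j : MvPolynomial (Fin 2) ℂ) • q • z i) η = 0 := by
  by_contra hcon
  have key : ∀ k : ℕ, ∃ v : Fin 2 →₀ ℕ, v 0 + v 1 = k ∧
      ∃ i η, Val univ (p i) ⊤ η ∧ gl c (monomial v (1 : ℂ) • z i) η ≠ 0 := by
    intro k
    induction k with
    | zero =>
      refine ⟨0, rfl, ?_⟩
      simpa using hz
    | succ k ih =>
      obtain ⟨v, hv, H⟩ := ih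
      by_contra h2
      refine hcon ⟨monomial v 1, H, fun i j η hη => ?_⟩
      by_contra h3
      refine h2 ⟨Finsupp.single j 1 + v, ?_, i, η, hη, ?_⟩
      · fin_cases j <;> simp <;> omega
      · rw [smul_smul, X, monomial_mul, one_mul] at h3
        exact h3
  obtain ⟨v, hv, i, η, _, H⟩ := key (∑ s, ((c s).1 + (c s).2) + 1)
  exact H (gl_big c v (by omega) _ _)

theorem cyc_self {W : Type} [AddCommGroup W] [Module ℂ W] (β : τ → W →ₗ[ℂ] W →ₗ[ℂ] ℂ)
    (φ : Finset τ → W) (h : Cyc β φ) {s : τ} {I : Finset τ} (hs : s ∈ I) : β s (φ I) = 0 := by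
  have h1 := h s s (I.erase s)
  rw [← two_smul ℂ, smul_eq_zero_iff_right two_ne_zero, an_apply, if_neg (notMem_erase s I),
    insert_erase hs] at h1
  rcases sg_eq_or s (I.erase s) with e | e <;> rw [e] at h1 <;> simpa using h1

/-- generators supported away from one index span modulo the kernel of its form -/
theorem span_off {W : Type} [AddCommGroup W] [Module ℂ W] (β : τ → W →ₗ[ℂ] W →ₗ[ℂ] ℂ) {N : ℕ}
    (p : Fin N → ℕ) (φ : Fin N → Finset τ → W) (hG : Gens β p φ) (s : τ) :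
    ∃ (ι : Type) (_ : Fintype ι) (F : ι → W),
      Fintype.card ι = ∑ i, (Fintype.card τ - 1).choose (p i) ∧
      ∀ w, ∃ c : ι → ℂ, β s (w - ∑ a, c a • F a) = 0 := by
  refine ⟨Σ i : Fin N, powersetCard (p i) (univ.erase s), inferInstance, fun a => φ a.1 a.2, ?_,
    fun w => ?_⟩
  · simp only [Fintype.card_sigma, Fintype.card_coe, card_powersetCard,
      card_erase_of_mem (mem_univ s), card_univ]
  obtain ⟨c, hc⟩ := hG.2.1 w
  refine ⟨fun a => c a.1 a.2, ?_⟩
  have h1 : β s (w - ∑ i, ∑ I, c i I • φ i I) = 0 := (Submodule.mem_iInf _).1 hc s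
  rw [map_sub] at h1 ⊢
  rw [← h1, Fintype.sum_sigma, map_sum, map_sum]
  congr 1
  refine sum_congr rfl fun i _ => ?_
  rw [sum_coe_sort (powersetCard (p i) (univ.erase s)) fun I => c i I • φ i I, map_sum, map_sum]
  refine sum_subset (subset_univ _) fun I _ hI => ?_
  rw [map_smul]
  by_cases h : s ∈ I
  · rw [cyc_self β (φ i) (hG.1 i).2 h, smul_zero]
  · rw [((hG.1 i).1 I).2, map_zero, smul_zero]
    rintro ⟨_, h2⟩
    exact hI (mem_powersetCard.2 ⟨fun t ht => mem_erase.2 ⟨fun e => h (e ▸ ht), mem_univ _⟩, h2⟩)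

/-- the delta cochain -/
def dl (I : Finset τ) : Finset τ → MvPolynomial (Fin 2) ℂ := Pi.single I 1

theorem dl_self (I : Finset τ) : dl I I = 1 := Pi.single_eq_same _ _

theorem dl_ne {I J : Finset τ} (h : J ≠ I) : dl I J = 0 := Pi.single_eq_of_ne h _

theorem val_dl {p : ℕ} {I : Finset τ} (h : I.card = p) : Val univ p ⊤ (dl I) := val_single h 1

/-- the combinatorial core -/
theorem core (c : τ → ℕ × ℕ) (hc : ∀ s t, c s ≤ c t → t = s) {W : Type} [AddCommGroup W]
    [Module ℂ W] (β : τ → W →ₗ[ℂ] W →ₗ[ℂ] ℂ) {N : ℕ} (p : Fin N → ℕ) (φ : Fin N → Finset τ → W)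
    (hG : Gens β p φ) (z : Fin N → Finset τ → MvPolynomial (Fin 2) ℂ)
    (hY : ∀ w, ∃ Y : Fin N → Finset τ → MvPolynomial (Fin 2) ℂ,
      (∀ i, Val univ (p i + 1) ⊤ (Y i)) ∧
      (∀ q : MvPolynomial (Fin 2) ℂ, ∑ i, gl c (q • z i) (Y i) = 0) ∧
      ∀ i s I, I.card = p i → gl c (monomial (mon2 (c s)) (1 : ℂ) • dl I) (Y i) = β s (φ i I) w)
    (i : Fin N) (η : Finset τ → MvPolynomial (Fin 2) ℂ) (hη : Val univ (p i + 1) ⊤ η) :
    gl c (z i) η = 0 := by
  by_contra hne
  obtain ⟨q, ⟨i0, η0, hη0, hq0⟩, hq⟩ := exists_socle c (fun i => p i + 1) z ⟨i, η, hη, hne⟩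
  let ζ : Fin N → τ → Finset τ → ℂ := fun i s I =>
    if I.card = p i ∧ ∀ t ∈ I, s < t then gl c (q • z i) (Pi.single (insert s I) 1) else 0
  have hζ : ζ = 0 := by
    refine hG.2.2 ζ (fun i s I h => ?_) (LinearMap.ext fun w => ?_)
    · by_contra h'
      exact h (if_neg h')
    obtain ⟨Y, hYv, h0, hconst⟩ := hY w
    simp only [LinearMap.sum_apply, LinearMap.smul_apply, LinearMap.zero_apply]
    rw [← h0 q]
    refine sum_congr rfl fun i _ => ?_
    rw [gl_const c (p i + 1) _ (hq i) _ (hYv i), sum_min]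
    · refine sum_congr rfl fun s _ => sum_congr rfl fun I _ => ?_
      by_cases hs : ∀ t ∈ I, s < t
      · have hsI : s ∉ I := fun h => lt_irrefl _ (hs s h)
        rw [if_pos hs, card_insert_of_notMem hsI]
        by_cases hI : I.card = p i
        · simp only [ζ]
          rw [if_pos ⟨hI, hs⟩, if_pos (by rw [hI]), ← hconst i s I hI, dl, gl_delta c hc s I hs,
            smul_eq_mul, mul_comm]
        · simp only [ζ]
          rw [if_neg fun h => hI h.1, if_neg (by omega), zero_smul]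
      · simp only [ζ]
        rw [if_neg fun h => hs h.2, if_neg hs, zero_smul]
    · simp
  apply hq0
  rw [gl_const c (p i0 + 1) _ (hq i0) _ hη0]
  refine sum_eq_zero fun J _ => ?_
  split_ifs with hJ
  · have hne' : J.Nonempty := card_pos.1 (by omega)
    have h3 := congrFun (congrFun (congrFun hζ i0) (J.min' hne')) (J.erase (J.min' hne'))
    simp only [ζ, Pi.zero_apply] at h3
    rw [if_pos, insert_erase (J.min'_mem hne')] at h3
    · rw [h3, mul_zero]
    · refine ⟨by rw [card_erase_of_mem (J.min'_mem hne'), hJ]; rfl, fun t ht => ?_⟩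
      exact lt_of_le_of_ne (J.min'_le t (mem_of_mem_erase ht)) (ne_of_mem_erase ht).symm
  · rfl

end comb

/-- the count of generators -/
theorem count (hA : LamA) (hB : LamB) {m : ℕ} (μ : Fin (m + 1) → ℕ × ℕ) (hμ : IsDiag μ)
    (s : Cor μ) (hs : NF (rm μ s)) {N : ℕ} (p : Fin N → ℕ) (φ : Fin N → Finset (Cor μ) → Pol m)
    (hG : Gens (fun t : Cor μ => bil (beta μ t)) p φ) :
    m.factorial ≤ ∑ i, (Fintype.card (Cor μ) - 1).choose (p i) := by
  obtain ⟨ι, _, F, h1, h2⟩ := span_off _ p φ hG s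
  rw [← h1]
  refine hB.rank'' (rm μ s) ι F hs fun w => ?_
  obtain ⟨c, hc⟩ := h2 w
  refine ⟨c, LinearMap.mem_ker.2 (LinearMap.ext fun g => ?_)⟩
  have h3 := LinearMap.congr_fun hc g
  simp only [bil, LinearMap.compr₂_apply, LinearMap.mul_apply', LinearMap.zero_apply] at h3 ⊢
  rw [hA.beta μ s hμ.1] at h3
  exact (mul_eq_zero.1 h3).resolve_left (pow_ne_zero _ (neg_ne_zero.2 one_ne_zero))

section chart
variable {K : Type} [Field K] [Algebra ℂ K] {m : ℕ} {x y : Fin (m + 1) → K}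
  {ρ : Equiv.Perm (Fin (m + 1)) →* (K ≃ₐ[ℂ] K)} {μ : Fin (m + 1) → ℕ × ℕ}

theorem mul_mono {M M' P P' : Submodule ℂ K} (h : M ≤ M') (h' : P ≤ P') : M * P ≤ M' * P' :=
  mul_le_mul' h h'

theorem mul_mem_mul (M : Submodule ℂ K) (P : Subalgebra ℂ K) {g v : K} (hg : g ∈ P)
    (hv : v ∈ M * Subalgebra.toSubmodule P) : g * v ∈ M * Subalgebra.toSubmodule P := by
  refine Submodule.mul_induction_on hv (fun a ha b hb => ?_) fun a b ha hb => ?_
  · rw [mul_left_comm]
    exact Submodule.mul_mem_mul ha (P.mul_mem hg hb)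
  · rw [mul_add]; exact add_mem ha hb

theorem ev_mem (g : Pol (m + 1)) : ev x y g ∈ Pp x y μ :=
  (le_sup_right : (ev x y).range ≤ Pp x y μ) ⟨g, rfl⟩

theorem ev_xm (i : Fin (m + 1)) (h : ℕ × ℕ) : ev x y (xm i h) = pw x y i h := by
  simp [ev, xm, pw]

theorem ae_mem (q : MvPolynomial (Fin 2) ℂ) : aeval ![x 0, y 0] q ∈ Pp x y μ := by
  induction q using MvPolynomial.induction_on with
  | C a => rw [aeval_C]; exact Subalgebra.algebraMap_mem _ _
  | add q q' hq hq' => rw [map_add]; exact add_mem hq hq'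
  | mul_X q j hq =>
    rw [map_mul, aeval_X]
    refine mul_mem hq ?_
    fin_cases j
    · simpa [ev] using ev_mem (x := x) (y := y) (μ := μ) (X (Sum.inl 0))
    · simpa [ev] using ev_mem (x := x) (y := y) (μ := μ) (X (Sum.inr 0))

theorem psi_mem (z : Finset (Cor μ) → MvPolynomial (Fin 2) ℂ) {F : Finset (Cor μ) → K}
    (hF : ∀ I, F I ∈ Pp x y μ) : psi x y z F ∈ Pp x y μ :=
  sum_mem fun I _ => mul_mem (ae_mem _) (hF I)

theorem psi_poly (q : MvPolynomial (Fin 2) ℂ) (z : Finset (Cor μ) → MvPolynomial (Fin 2) ℂ)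
    (F : Finset (Cor μ) → K) : psi x y (q • z) F = aeval ![x 0, y 0] q * psi x y z F := by
  simp only [psi, Pi.smul_apply, smul_eq_mul, map_mul, mul_sum, mul_assoc]

theorem psi_sum {ι : Type} [Fintype ι] (t : ι → ℂ) (z : ι → Finset (Cor μ) → MvPolynomial (Fin 2) ℂ)
    (F : Finset (Cor μ) → K) : psi x y (∑ a, t a • z a) F = ∑ a, t a • psi x y (z a) F := by
  simp only [psi, Finset.sum_apply, Pi.smul_apply, map_sum, map_smul, sum_mul, smul_sum,
    smul_mul_assoc]
  exact sum_comm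

theorem psi_delta (h : ℕ × ℕ) (I : Finset (Cor μ)) (F : Finset (Cor μ) → K) :
    psi x y (monomial (mon2 h) (1 : ℂ) • dl I) F = pw x y 0 h * F I := by
  rw [psi_poly, monomial_mon2, psi, sum_eq_single I]
  · rw [dl_self]; simp [pw]
  · intro J _ hJ
    rw [dl_ne hJ]; simp
  · simp

/-- the functional induced by `lam` on the fibre -/
theorem exists_fun (h1 : Ch1 x y ρ μ) (h2 : Ch2 x y ρ μ) :
    ∃ L : K →ₗ[ℂ] ℂ, (∀ g, L (ev x y g) = lam μ g) ∧
      ∀ v ∈ mO x y μ * Subalgebra.toSubmodule (Pp x y μ), L v = 0 := by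
  obtain ⟨f, hf, hk⟩ := Submodule.exists_le_ker_of_notMem h2.locO.one
  refine ⟨(f 1)⁻¹ • f ∘ₗ al x y ρ μ, fun g => ?_, fun v hv => ?_⟩
  · have h3 : al x y ρ μ (ev x y g) - algebraMap ℂ K (lam μ g) ∈ mO x y μ := by
      refine mul_mono (fun a ha => ?_) le_rfl (h1.alH g).2
      exact Algebra.subset_adjoin (Or.inl ha)
    have h4 := hk h3
    rw [LinearMap.mem_ker, map_sub, sub_eq_zero, Algebra.algebraMap_eq_smul_one, map_smul] at h4
    simp only [LinearMap.smul_apply, LinearMap.comp_apply, h4, smul_eq_mul]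
    field_simp
  · refine Submodule.mul_induction_on hv (fun a ha b hb => ?_) fun a b ha hb => ?_
    · simp only [LinearMap.smul_apply, LinearMap.comp_apply]
      rw [h2.alO a (h2.locO.le a ha), mul_comm, hk (h2.locO.mul _ (h2.alP b hb) a ha), smul_zero]
    · rw [map_add, ha, hb, add_zero]

theorem sock_mul (h2 : Ch2 x y ρ μ) (s : Cor μ) {v : K}
    (hv : v ∈ mR x y μ * Subalgebra.toSubmodule (Pp x y μ)) :
    pw x y 0 (μ s) * v ∈ mO x y μ * Subalgebra.toSubmodule (Pp x y μ) := by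
  refine Submodule.mul_induction_on hv (fun a ha b hb => ?_) fun a b ha hb => ?_
  · rw [← mul_assoc, mul_comm _ b]
    have h3 : Rs x y μ ≤ Pp x y μ := h2.toCh2a.core.le
    have h4 : Subalgebra.toSubmodule (Rs x y μ) ≤ Subalgebra.toSubmodule (Pp x y μ) :=
      fun g hg => h3 hg
    have h5 : pw x y 0 (μ s) * a ∈ mO x y μ * Subalgebra.toSubmodule (Pp x y μ) :=
      mul_mono le_rfl h4 (h2.sock s s.2 a ha)
    exact mul_mem_mul _ _ hb h5
  · rw [mul_add]; exact add_mem ha hb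

end chart

end GNFsAux

open GNFsAux in
theorem nfs : LamA → LamB → S_Comb → S_Exp → S_NFs := by
  intro hA hB hC hE K _ _ m x y ρ μ hgen hμ h1 h2 hsrt hnf hL N p φ hG
  choose b b' hb using hC (m + 1) μ hμ hsrt
  choose F hF hd hFφ using fun i => hL (p i) (φ i) (hG.1 i).1 (hG.1 i).2
  have hFP : ∀ i I, F i I ∈ Pp x y μ := fun i I => (hF i I).1
  obtain ⟨L, hL1, hL2⟩ := exists_fun h1 h2
  have hLc : ∀ g ∈ Pp x y μ, ∀ u v : K, u - v ∈ mO x y μ * Subalgebra.toSubmodule (Pp x y μ) →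
      L (g * u) = L (g * v) := fun g hg u v huv => by
    rw [← sub_eq_zero, ← map_sub, ← mul_sub]
    exact hL2 _ (mul_mem_mul _ _ hg huv)
  let ι := Σ i : Fin N, Fin ((m + 1) * (Fintype.card (Cor μ) - 1).choose (p i))
  choose g hg using fun a : ι => h2.surj _ (psi_mem (b (p a.1) a.2) (hFP a.1))
  obtain ⟨s0⟩ := h2.core.nonempty
  have hcount := count hA hB μ hμ s0 (hnf s0) p φ hG
  let e := Fintype.equivFin ι
  refine hB.rank μ (Fintype.card ι) (fun k => g (e.symm k)) ?_ ?_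
  · simp only [ι, Fintype.card_sigma, Fintype.card_fin, ← mul_sum, Nat.factorial_succ]
    exact Nat.mul_le_mul_left _ hcount
  intro t0 ht0
  obtain ⟨t, rfl⟩ : ∃ t : ι → ℂ, t0 = fun k => t (e.symm k) := ⟨fun a => t0 (e a), by simp⟩
  rw [Equiv.sum_comp e.symm fun a => t a • g a] at ht0
  suffices h : t = 0 by subst h; rfl
  by_contra hne
  let c : Cor μ → ℕ × ℕ := fun s => μ s
  have hc : ∀ s t, c s ≤ c t → t = s := fun s t h => Subtype.ext (s.2 t h)
  have hgl : ∀ z η, gam μ z η = gl c z η := fun _ _ => rfl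
  let z : Fin N → Finset (Cor μ) → MvPolynomial (Fin 2) ℂ := fun i => ∑ a, t ⟨i, a⟩ • b (p i) a
  have hzv : ∀ i, Val univ (p i) ⊤ (z i) := fun i =>
    val_sum fun a => val_smul ((hb (p i)).1 a) _
  have hrad : ∀ G ∈ Pp x y μ, L (G * ∑ i, psi x y (z i) (F i)) = 0 := by
    intro G hGP
    obtain ⟨w, hw⟩ := h2.surj G hGP
    have e1 : ∑ i, psi x y (z i) (F i) = ∑ a : ι, t a • psi x y (b (p a.1) a.2) (F a.1) := by
      rw [Fintype.sum_sigma]
      exact sum_congr rfl fun i _ => psi_sum _ _ _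
    rw [hLc G hGP _ (ev x y (∑ a, t a • g a)), mul_comm, hLc _ (ev_mem _) _ _ hw, ← map_mul, hL1]
    · exact LinearMap.congr_fun (LinearMap.mem_ker.1 ht0) w
    · rw [e1, map_sum, ← sum_sub_distrib]
      refine Submodule.sum_mem _ fun a _ => ?_
      rw [map_smul, ← smul_sub]
      exact Submodule.smul_mem _ _ (hg a)
  obtain ⟨⟨i0, a0⟩, ha⟩ := Function.ne_iff.1 hne
  have hcore := core c hc _ p φ hG z (fun w => ?_) i0 _ ((hb (p i0)).2.1 a0)
  · simp only [z, map_sum, map_smul, LinearMap.sum_apply, LinearMap.smul_apply, ← hgl,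
      (hb (p i0)).2.2] at hcore
    exact ha (by simpa using hcore)
  let Y : Fin N → Finset (Cor μ) → MvPolynomial (Fin 2) ℂ := fun i =>
    ∑ a, L (ev x y (up m w) * psi x y (b (p i) a) (F i)) • b' (p i) a
  have hY : ∀ i z', Val univ (p i) ⊤ z' →
      L (ev x y (up m w) * psi x y z' (F i)) = gl c z' (Y i) := by
    intro i z' hz'
    rw [hLc _ (ev_mem _) _ _ (hE K m x y ρ μ hgen hμ h1 h2 (p i) _ _ (hb (p i)) (F i) (hF i)
      (hd i) z' hz')]
    simp only [Y, mul_sum, map_sum, mul_smul_comm, map_smul, hgl, smul_eq_mul]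
    exact sum_congr rfl fun a _ => mul_comm _ _
  refine ⟨Y, fun i => val_sum fun a => val_smul ((hb (p i)).2.1 a) _, fun q => ?_,
    fun i s I hI => ?_⟩
  · have h0 := hrad (ev x y (up m w) * aeval ![x 0, y 0] q) (mul_mem (ev_mem _) (ae_mem _))
    rw [mul_assoc, mul_sum, mul_sum, map_sum] at h0
    rw [← h0]
    refine sum_congr rfl fun i _ => ?_
    rw [← psi_poly, hY i _ (val_smul (hzv i) q)]
  · rw [← hY i _ (val_smul (val_dl hI) _), psi_delta,
      hLc _ (ev_mem _) _ (pw x y 0 (μ s) * ev x y (up m (φ i I)))]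
    · rw [← ev_xm, ← map_mul, ← map_mul, hL1]
      simp only [bil, beta, LinearMap.compr₂_apply, LinearMap.mul_apply', LinearMap.comp_apply,
        LinearMap.mulLeft_apply, AlgHom.toLinearMap_apply, map_mul]
      congr 1
      ring
    · rw [← mul_sub]
      exact sock_mul h2 s (hFφ i I)

end

end Pool.Agent.P.MP_c2aaf5_co
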