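import Pool.Agent.P.MP_c2aaf5_co.DefK

/-! The exterior module attached to a system of symmetric forms (reduced case). -/

set_option linter.unusedSectionVars false

namespace Pool.Agent.P.MP_c2aaf5_co

open Finset

namespace KLAAux

variable {τ : Type} [LinearOrder τ] [Fintype τ] {W : Type} [AddCommGroup W] [Module ℂ W]

theorem cyc_an {β : τ → W →ₗ[ℂ] W →ₗ[ℂ] ℂ} {φ : Finset τ → W} (h : Cyc β φ) (r : τ) :
    Cyc β (an r φ) := by
  intro s t I
  rw [an_an s r, an_an t r]
  simp only [Pi.neg_apply, map_neg, an_apply r]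
  split_ifs with hr
  · simp
  · rw [map_zsmul, map_zsmul, ← neg_add, ← smul_add, h, smul_zero, neg_zero]

/-- the space of syzygies -/
def NN (β : τ → W →ₗ[ℂ] W →ₗ[ℂ] ℂ) : Submodule ℂ (Finset τ → W) where
  carrier := {φ | Cyc β φ}
  add_mem' := by
    intro φ ψ h1 h2 s t I
    have a1 := h1 s t I
    have a2 := h2 s t I
    simp only [map_add, Pi.add_apply]
    rw [add_add_add_comm, a1, a2, add_zero]
  zero_mem' := by intro s t I; simp
  smul_mem' := by
    intro c φ h s t I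
    rw [an_smul, an_smul, Pi.smul_apply, Pi.smul_apply, map_smul, map_smul, ← smul_add, h,
      smul_zero]

/-- component of size `p` -/
def pr (p : ℕ) (φ : Finset τ → W) : Finset τ → W := fun I => if I.card = p then φ I else 0

theorem an_pr (s : τ) (p : ℕ) (φ : Finset τ → W) : an s (pr (p + 1) φ) = pr p (an s φ) := by
  funext I
  by_cases h : s ∈ I
  · simp [an_apply, pr, h]
  · by_cases h2 : I.card = p <;> simp [an_apply, pr, h, card_insert_of_notMem h, h2]

theorem val_pr (p : ℕ) (φ : Finset τ → W) : Val univ p ⊤ (pr p φ) := fun I =>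
  ⟨trivial, fun h => by
    have : I.card ≠ p := fun e => h ⟨subset_univ _, e⟩
    simp [pr, this]⟩

theorem cyc_pr {β : τ → W →ₗ[ℂ] W →ₗ[ℂ] ℂ} {φ : Finset τ → W} (h : Cyc β φ) (p : ℕ) :
    Cyc β (pr p φ) := by
  intro s t I
  cases p with
  | zero => rw [(val_pr 0 φ).an_zero, (val_pr 0 φ).an_zero]; simp
  | succ p =>
    rw [an_pr, an_pr]
    by_cases h2 : I.card = p
    · simpa [pr, h2] using h s t I
    · simp [pr, h2]

theorem sum_pr (φ : Finset τ → W) : ∑ p ∈ range (Fintype.card τ + 1), pr p φ = φ := by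
  funext I
  rw [Finset.sum_apply]
  simp only [pr]
  rw [sum_ite_eq, if_pos]
  exact mem_range.2 (Nat.lt_succ_of_le (card_le_univ I))

theorem an_empty (s : τ) (φ : Finset τ → W) : an s φ ∅ = φ {s} := by
  simp [an_apply, sg]

variable (β : τ → W →ₗ[ℂ] W →ₗ[ℂ] ℂ)

/-- annihilation on syzygies -/
def aN (s : τ) : NN β →ₗ[ℂ] NN β where
  toFun φ := ⟨an s φ.1, cyc_an φ.2 s⟩
  map_add' φ ψ := Subtype.ext (map_add (an s) φ.1 ψ.1)
  map_smul' c φ := Subtype.ext (an_smul s c φ.1)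

theorem aN_val (s : τ) (φ : NN β) : (aN β s φ).1 = an s φ.1 := rfl

/-- value at the empty set -/
def ev : NN β →ₗ[ℂ] W where
  toFun φ := φ.1 ∅
  map_add' _ _ := rfl
  map_smul' _ _ := rfl

theorem ev_val (φ : NN β) : ev β φ = φ.1 ∅ := rfl

theorem val_single (w : W) : Val univ 0 ⊤ (Pi.single ∅ w : Finset τ → W) := fun I =>
  ⟨trivial, fun h => by
    have : I ≠ ∅ := fun e => h ⟨subset_univ _, by simp [e]⟩
    simp [this]⟩

/-- cochains of size zero -/
def io : W →ₗ[ℂ] NN β where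
  toFun w := ⟨Pi.single ∅ w, fun s t I => by
    rw [(val_single w).an_zero, (val_single w).an_zero]; simp⟩
  map_add' v w := Subtype.ext (Pi.single_add _ _ _)
  map_smul' c w := Subtype.ext (Pi.single_smul _ _ _)

theorem ev_io (w : W) : ev β (io β w) = w := by simp [ev_val, io]

theorem aN_io (s : τ) (w : W) : aN β s (io β w) = 0 := Subtype.ext ((val_single w).an_zero s)

theorem cyc_ev (s t : τ) (φ : NN β) : β t (ev β (aN β s φ)) + β s (ev β (aN β t φ)) = 0 :=
  φ.2 s t ∅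

theorem cyc_self (s : τ) (φ : NN β) : β s (ev β (aN β s φ)) = 0 := by
  have h := cyc_ev β s s φ
  rw [← two_smul ℂ] at h
  exact (smul_eq_zero.1 h).resolve_left two_ne_zero

theorem aN_aN (s t : τ) (φ : NN β) : aN β s (aN β t φ) = -aN β t (aN β s φ) :=
  Subtype.ext (an_an s t φ.1)

/-- the connecting forms -/
def bN (s : τ) : NN β →ₗ[ℂ] Module.Dual ℂ (NN β) := (β s).compl₁₂ (ev β) (ev β)

theorem bN_apply (s : τ) (φ ψ : NN β) : bN β s φ ψ = β s (ev β φ) (ev β ψ) := rfl

/-- the exterior action -/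
def eV (s : τ) : (NN β × Module.Dual ℂ (NN β)) →ₗ[ℂ] (NN β × Module.Dual ℂ (NN β)) :=
  LinearMap.prod (aN β s ∘ₗ LinearMap.fst _ _ _)
    ((aN β s).dualMap ∘ₗ LinearMap.snd _ _ _ + bN β s ∘ₗ LinearMap.fst _ _ _)

theorem eV_fst (s : τ) (v : NN β × Module.Dual ℂ (NN β)) : (eV β s v).1 = aN β s v.1 := rfl

theorem eV_snd (s : τ) (v : NN β × Module.Dual ℂ (NN β)) (ψ : NN β) :
    (eV β s v).2 ψ = v.2 (aN β s ψ) + β s (ev β v.1) (ev β ψ) := rfl

theorem eV_eV (hs : ∀ s f g, β s f g = β s g f) (s t : τ) (v : NN β × Module.Dual ℂ (NN β)) :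
    eV β s (eV β t v) = -eV β t (eV β s v) := by
  refine Prod.ext (aN_aN β s t v.1) (LinearMap.ext fun ψ => ?_)
  have a1 := LinearMap.congr_fun (cyc_ev β s t ψ) (ev β v.1)
  have a2 := LinearMap.congr_fun (cyc_ev β s t v.1) (ev β ψ)
  simp only [LinearMap.add_apply, LinearMap.zero_apply] at a1 a2
  simp only [Prod.snd_neg, LinearMap.neg_apply, eV_snd, eV_fst]
  rw [aN_aN β t s ψ, map_neg, hs t (ev β v.1), hs s (ev β v.1)]
  linear_combination a1 + a2

variable (h : W →ₗ[ℂ] W) (d : τ → ℂ)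

/-- the weight operator on cochains -/
def hC : (Finset τ → W) →ₗ[ℂ] (Finset τ → W) where
  toFun φ I := h (φ I) + (∑ t ∈ I, d t) • φ I
  map_add' φ ψ := by funext I; simp only [Pi.add_apply, map_add, smul_add]; abel
  map_smul' c φ := by
    funext I; simp only [Pi.smul_apply, map_smul, smul_add, RingHom.id_apply, smul_comm c]

theorem hC_apply (φ : Finset τ → W) (I : Finset τ) :
    hC h d φ I = h (φ I) + (∑ t ∈ I, d t) • φ I := rfl

theorem an_hC (s : τ) (φ : Finset τ → W) :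
    an s (hC h d φ) = hC h d (an s φ) + d s • an s φ := by
  funext I
  by_cases hI : s ∈ I
  · simp [an_apply, hC_apply, hI]
  · simp only [an_apply, hC_apply, hI, if_false, Pi.add_apply, Pi.smul_apply, sum_insert hI,
      map_zsmul, smul_add, add_smul, smul_comm (sg s I)]
    abel

theorem cyc_hC (hh : ∀ s f g, β s (h f) g + β s f (h g) = d s * β s f g) {φ : Finset τ → W}
    (hφ : Cyc β φ) : Cyc β (hC h d φ) := by
  intro s t I
  ext g
  have a1 := LinearMap.congr_fun (hφ s t I) g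
  have a2 := LinearMap.congr_fun (hφ s t I) (h g)
  have a3 := hh t (an s φ I) g
  have a4 := hh s (an t φ I) g
  simp only [LinearMap.add_apply, LinearMap.zero_apply] at a1 a2
  simp only [an_hC, hC_apply, Pi.add_apply, Pi.smul_apply, map_add, map_smul, LinearMap.add_apply,
    LinearMap.smul_apply, smul_eq_mul, LinearMap.zero_apply]
  linear_combination a3 + a4 - a2 + (d s + d t + ∑ t ∈ I, d t) * a1

variable (hh : ∀ s f g, β s (h f) g + β s f (h g) = d s * β s f g)

/-- the weight operator on syzygies -/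
def hN : NN β →ₗ[ℂ] NN β := (hC h d).restrict fun _ hφ => cyc_hC β h d hh hφ

theorem aN_hN (s : τ) (φ : NN β) :
    aN β s (hN β h d hh φ) = hN β h d hh (aN β s φ) + d s • aN β s φ :=
  Subtype.ext (an_hC h d s φ.1)

theorem ev_hN (φ : NN β) : ev β (hN β h d hh φ) = h (ev β φ) := by
  change h (φ.1 ∅) + (∑ t ∈ (∅ : Finset τ), d t) • φ.1 ∅ = _
  simp [ev_val]

/-- the weight operator on the big module -/
def hV : (NN β × Module.Dual ℂ (NN β)) →ₗ[ℂ] (NN β × Module.Dual ℂ (NN β)) :=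
  LinearMap.prodMap (hN β h d hh) (-(hN β h d hh).dualMap)

theorem hV_eV (s : τ) (v : NN β × Module.Dual ℂ (NN β)) :
    hV β h d hh (eV β s v) = eV β s (hV β h d hh v) + (-d s) • eV β s v := by
  refine Prod.ext ?_ (LinearMap.ext fun ψ => ?_)
  · change hN β h d hh (aN β s v.1) = aN β s (hN β h d hh v.1) + (-d s) • aN β s v.1
    rw [aN_hN, add_assoc, ← add_smul, add_neg_cancel, zero_smul, add_zero]
  · change -((eV β s v).2 (hN β h d hh ψ)) = (-(v.2 (hN β h d hh (aN β s ψ))) +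
      β s (ev β (hN β h d hh v.1)) (ev β ψ)) + (-d s) * (eV β s v).2 ψ
    rw [eV_snd, eV_snd, aN_hN, ev_hN, ev_hN, map_add, map_smul, smul_eq_mul]
    linear_combination -hh s (ev β v.1) (ev β ψ)

/-- exactness hypotheses in the reduced case -/
def Ex : Prop :=
  (∀ s w, β s w = 0 → ∃ ψ, Val univ 1 ⊤ ψ ∧ Cyc β ψ ∧ ψ {s} = w) ∧
  ∀ s p (φ : Finset τ → W), Val univ (p + 1) ⊤ φ → Cyc β φ → an s φ = 0 →
    ∃ ψ, Cyc β ψ ∧ an s ψ = φ

theorem io_mem (hE : Ex β) (s : τ) (w : W) (hw : β s w = 0) :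
    io β w ∈ LinearMap.range (aN β s) := by
  obtain ⟨ψ, h1, h2, h3⟩ := hE.1 s w hw
  refine ⟨⟨ψ, h2⟩, Subtype.ext (funext fun I => ?_)⟩
  change an s ψ I = (Pi.single ∅ w : Finset τ → W) I
  by_cases hI : I = ∅
  · subst hI; rw [an_empty, h3]; simp
  · rw [((h1.an s) I).2 (fun e => hI (card_eq_zero.1 e.2))]; simp [hI]

theorem mem_range (hE : Ex β) (s : τ) (φ : NN β) (h1 : aN β s φ = 0) (h2 : β s (ev β φ) = 0) :
    φ ∈ LinearMap.range (aN β s) := by
  have e : φ = ∑ p ∈ range (Fintype.card τ + 1), (⟨pr p φ.1, cyc_pr φ.2 p⟩ : NN β) := by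
    apply Subtype.ext
    rw [AddSubmonoidClass.coe_finsetSum]
    exact (sum_pr φ.1).symm
  rw [e]
  refine Submodule.sum_mem _ fun p _ => ?_
  cases p with
  | zero =>
    have : (⟨pr 0 φ.1, cyc_pr φ.2 0⟩ : NN β) = io β (ev β φ) := by
      refine Subtype.ext (funext fun I => ?_)
      change pr 0 φ.1 I = (Pi.single ∅ (φ.1 ∅) : Finset τ → W) I
      by_cases hI : I = ∅
      · subst hI; simp [pr]
      · simp [pr, hI]
    rw [this]; exact io_mem β hE s _ h2
  | succ p =>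
    have h3 : an s φ.1 = 0 := congrArg Subtype.val h1
    obtain ⟨ψ, a1, a2⟩ := hE.2 s p (pr (p + 1) φ.1) (val_pr _ _) (cyc_pr φ.2 _)
      (by rw [an_pr, h3]; funext I; simp [pr])
    exact ⟨⟨ψ, a1⟩, Subtype.ext a2⟩

theorem range_form [FiniteDimensional ℂ W] (b : W →ₗ[ℂ] W →ₗ[ℂ] ℂ) (hb : ∀ f g, b f g = b g f)
    (l : Module.Dual ℂ W) (hl : ∀ w, b w = 0 → l w = 0) : ∃ w, b w = l := by
  have h1 : LinearMap.range b ≤ (LinearMap.ker b).dualAnnihilator := by
    rintro _ ⟨w, rfl⟩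
    rw [Submodule.mem_dualAnnihilator]
    intro v hv
    rw [hb, LinearMap.mem_ker.1 hv]; rfl
  have h2 := Subspace.finrank_add_finrank_dualAnnihilator_eq (LinearMap.ker b)
  have h3 := LinearMap.finrank_range_add_finrank_ker b
  have h4 := Submodule.eq_of_le_of_finrank_eq h1
    (Nat.add_right_cancel (h3.trans (h2.symm.trans (add_comm _ _))))
  have h5 : l ∈ LinearMap.range b := by
    rw [h4, Submodule.mem_dualAnnihilator]; exact hl
  exact h5

theorem form_zero (s : τ) (v : NN β × Module.Dual ℂ (NN β)) (hv : eV β s v = 0) :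
    β s (ev β v.1) = 0 := by
  ext g
  have := eV_snd β s v (io β g)
  rw [hv, aN_io, ev_io] at this
  simpa using this.symm

theorem eV_exact [FiniteDimensional ℂ W] (hs : ∀ s f g, β s f g = β s g f) (hE : Ex β) (s : τ)
    (v : NN β × Module.Dual ℂ (NN β)) (hv : eV β s v = 0) : ∃ w, eV β s w = v := by
  have h1 : aN β s v.1 = 0 := congrArg Prod.fst hv
  obtain ⟨ψ, hψ⟩ := mem_range β hE s v.1 h1 (form_zero β s v hv)
  set l := v.2 - bN β s ψ with hl
  have h2 : ∀ χ, l (aN β s χ) = 0 := by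
    intro χ
    have a1 := eV_snd β s v χ
    rw [hv, ← hψ, cyc_self] at a1
    rw [hl, LinearMap.sub_apply, bN_apply, hs, cyc_self]
    simpa using a1.symm
  obtain ⟨w0, hw0⟩ := range_form (β s) (hs s) (l ∘ₗ io β) (fun w hw => by
    obtain ⟨χ, hχ⟩ := io_mem β hE s w hw
    rw [LinearMap.comp_apply, ← hχ, h2])
  have h3 : l - bN β s (io β w0) ∈ (LinearMap.ker (aN β s)).dualAnnihilator := by
    rw [Submodule.mem_dualAnnihilator]
    intro χ hχ
    obtain ⟨ω, hω⟩ := mem_range β hE s (χ - io β (ev β χ))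
      (by rw [map_sub, LinearMap.mem_ker.1 hχ, aN_io, sub_zero])
      (by rw [map_sub, ev_io, sub_self, map_zero])
    have a1 := h2 ω
    rw [hω, map_sub] at a1
    rw [LinearMap.sub_apply, bN_apply, ev_io, hw0, LinearMap.comp_apply]
    exact a1
  rw [← LinearMap.range_dualMap_eq_dualAnnihilator_ker] at h3
  obtain ⟨m, hm⟩ := h3
  refine ⟨(ψ + io β w0, m), Prod.ext ?_ (LinearMap.ext fun χ => ?_)⟩
  · rw [eV_fst, map_add, aN_io, add_zero, hψ]
  · have a1 := LinearMap.congr_fun hm χ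
    rw [LinearMap.dualMap_apply, hl] at a1
    simp only [LinearMap.sub_apply, bN_apply] at a1
    rw [eV_snd, a1]
    simp only [map_add, LinearMap.add_apply]
    ring

end KLAAux

end Pool.Agent.P.MP_c2aaf5_co
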