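import Pool.Agent.P.MP_c2aaf5_co.DefK

/-! Package K1: elementary diagram chases in Koszul complexes. -/

namespace Pool.Agent.P.MP_c2aaf5_co

open Finset

namespace KLesAux

variable {σ : Type} [LinearOrder σ] {X : Type} [AddCommGroup X] {K : Type} [CommRing K] [Module K X]
  {U : Finset σ} {ξ : σ → K}

theorem hv_ext {p : ℕ} {A0 A1 A0' A1' A2' B1 B2 : AddSubgroup X} (h : Hv U ξ p A0 A1 A1' A2')
    (h' : Hv U ξ p A0' A1' B1 B2) (hB : B2 ≤ A2') (hA : A0' ≤ A0)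
    (hs : ∀ s ∈ U, ∀ v ∈ A0, ξ s • v ∈ A1) : Hv U ξ p A0 A1 B1 B2 := by
  intro φ hφ hd
  obtain ⟨ψ, h1, h2⟩ := h φ hφ fun I => hB (hd I)
  obtain ⟨χ, h3, h4⟩ := h' _ ((hφ.sub (h1.dd hs)).of_in h2) (by rwa [map_sub, dd_dd, sub_zero])
  exact ⟨ψ + χ, h1.add (h3.mono hA), by rwa [map_add, ← sub_sub]⟩

theorem val_single (A : AddSubgroup X) {I : Finset σ} (hI : I ⊆ U) {v : X} (hv : v ∈ A) :
    Val U I.card A (Pi.single I v) := by
  intro J
  by_cases h : J = I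
  · subst h
    exact ⟨by simpa using hv, fun h => absurd ⟨hI, rfl⟩ h⟩
  · rw [Pi.single_eq_of_ne h]
    exact ⟨A.zero_mem, fun _ => rfl⟩

theorem dd_comp {X' : Type} [AddCommGroup X'] [Module K X'] (f : X →ₗ[K] X') (φ : Finset σ → X)
    (I : Finset σ) : dd U ξ (fun J => f (φ J)) I = f (dd U ξ φ I) := by
  simp only [dd_def, Finset.sum_apply, map_sum, Pi.smul_apply, map_smul, an_apply]
  refine sum_congr rfl fun s _ => ?_
  split_ifs <;> simp

theorem val_lift {X' : Type} [AddCommGroup X'] {p : ℕ} {A : AddSubgroup X} {Γ : AddSubgroup X'}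
    (f : X' →+ X) (h : ∀ a ∈ A, ∃ g ∈ Γ, f g = a) {φ : Finset σ → X} (hφ : Val U p A φ) :
    ∃ Φ, Val U p Γ Φ ∧ ∀ I, f (Φ I) = φ I := by
  have : ∀ I, ∃ g, (g ∈ Γ ∧ (¬(I ⊆ U ∧ I.card = p) → g = 0)) ∧ f g = φ I := fun I => by
    by_cases hI : I ⊆ U ∧ I.card = p
    · obtain ⟨g, h1, h2⟩ := h _ (hφ I).1
      exact ⟨g, ⟨h1, fun h => absurd hI h⟩, h2⟩
    · exact ⟨0, ⟨Γ.zero_mem, fun _ => rfl⟩, by rw [map_zero, (hφ I).2 hI]⟩
  choose Φ h1 h2 using this
  exact ⟨Φ, h1, h2⟩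

theorem val_an {p : ℕ} {A : AddSubgroup X} {φ : Finset σ → X} {t : σ}
    (h : Val (insert t U) (p + 1) A φ) : Val U p A (an t φ) := by
  refine fun I => ⟨(h.an t I).1, fun hI => ?_⟩
  by_cases ht : t ∈ I
  · rw [an_apply, if_pos ht]
  · exact (h.an t I).2 fun h' => hI ⟨(subset_insert_iff_of_notMem ht).1 h'.1, h'.2⟩

theorem val_insert {p : ℕ} {A : AddSubgroup X} {φ : Finset σ → X} (h : Val U p A φ) (t : σ) :
    Val (insert t U) p A φ := fun I =>
  ⟨(h I).1, fun hI => (h I).2 fun h' => hI ⟨h'.1.trans (subset_insert _ _), h'.2⟩⟩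

theorem an_eq_zero {p : ℕ} {A : AddSubgroup X} {φ : Finset σ → X} (h : Val U p A φ) {t : σ}
    (ht : t ∉ U) : an t φ = 0 := by
  funext I
  rw [an_apply, (h _).2 fun h' => ht (h'.1 (mem_insert_self _ _))]
  simp

theorem dd_insert {t : σ} (ht : t ∉ U) (φ : Finset σ → X) :
    dd (insert t U) ξ φ = ξ t • an t φ + dd U ξ φ := by
  simp only [dd_def, sum_insert ht]

theorem dd_insert' {t : σ} (ht : t ∉ U) {φ : Finset σ → X} (h : an t φ = 0) :
    dd (insert t U) ξ φ = dd U ξ φ := by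
  rw [dd_insert ht, h, smul_zero, zero_add]

theorem dd_mem_Sm {A : AddSubgroup X} {φ : Finset σ → X} (h : In A φ) (I : Finset σ) :
    dd U ξ φ I ∈ Sm U ξ A :=
  h.dd (fun s hs v hv => (le_iSup₂ (f := fun s (_ : s ∈ U) => Sc (ξ s) A) s hs) ⟨v, hv, rfl⟩) I

theorem exists_of_mem_Sm {A : AddSubgroup X} {v : X} (hv : v ∈ Sm U ξ A) :
    ∃ γ, Val U 1 A γ ∧ dd U ξ γ ∅ = v := by
  let S : AddSubgroup X :=
    { carrier := {v | ∃ γ, Val U 1 A γ ∧ dd U ξ γ ∅ = v}
      zero_mem' := ⟨0, val_zero _ _ _, by rw [map_zero]; rfl⟩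
      add_mem' := by
        rintro _ _ ⟨γ, h, rfl⟩ ⟨γ', h', rfl⟩
        exact ⟨γ + γ', h.add h', by rw [map_add]; rfl⟩
      neg_mem' := by
        rintro _ ⟨γ, h, rfl⟩
        exact ⟨0 - γ, (val_zero _ _ _).sub h, by rw [zero_sub, map_neg]; rfl⟩ }
  refine (show Sm U ξ A ≤ S from iSup₂_le ?_) hv
  rintro s hs _ ⟨a, ha, rfl⟩
  have h := val_single A (empty_subset U) ha
  refine ⟨_, h.cr hs, ?_⟩
  have e := cr_dd U ξ s (Pi.single ∅ a : Finset σ → X)
  have e0 : dd U ξ (Pi.single ∅ a : Finset σ → X) = 0 := by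
    simp only [dd_def, h.an_zero, smul_zero, sum_const_zero]
  rw [e0, map_zero, zero_add, if_pos hs] at e
  rw [e]
  simp

end KLesAux

open KLesAux

theorem ext : S_Ext := fun _ _ _ _ _ _ _ _ _ _ _ _ hB hA hs h h' p j =>
  hv_ext (h p j) (h' p j) (hB _) (hA _) (hs j)

theorem kfext : S_KFext := fun _ _ _ _ _ _ _ _ _ _ _ _ hB hA hs h h' p =>
  hv_ext (h p) (h' p) hB hA hs

theorem tors : S_Tors := by
  rintro σ K X _ _ _ _ U ξ A Z B hZ hs h ⟨e, he⟩
  have step : ∀ j, Z (j + 2) ≤ B (j + 2) → Z (j + 1) ≤ B (j + 1) := by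
    intro j hj v hv
    have h1 := val_single _ (Subset.refl U) hv
    obtain ⟨ψ, h2, h3⟩ := h _ j _ (h1.mono (hZ _)) fun I => hj (h1.in.dd (hs _) I)
    have h4 : ψ = 0 := funext fun I => (h2 I).2 fun h' => by
      have := card_le_card h'.1
      omega
    simpa [h4] using h3 U
  have key : ∀ k j, e ≤ j + 1 + k → Z (j + 1) ≤ B (j + 1) := by
    intro k
    induction k with
    | zero => exact fun j hj => he _ hj
    | succ k ih => exact fun j hj => step j (ih (j + 1) (by omega))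
  exact fun j => key e j (by omega)

theorem kfker : S_KFker := by
  intro σ K X _ _ _ _ U ξ A A' B hB hA hs _ h h' p φ hφ hd
  obtain ⟨ψ, h1, h2⟩ := h p φ (hφ.mono hA) hd
  obtain ⟨χ, h3, h4⟩ := h' (p + 1) ψ h1 fun I => by
    have := A'.sub_mem (hφ I).1 (hB (h2 I))
    simpa using this
  exact ⟨_, (h1.sub (h3.dd hs)).of_in h4, by rwa [map_sub, dd_dd, sub_zero]⟩

theorem kfcor : S_KFcor := by
  intro σ K X _ _ _ _ U ξ X' _ _ A B A' B' Γ hs hΓ hA hA' h p φ' hφ hd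
  obtain ⟨Φ, h1, h2⟩ := val_lift (Γ := Γ) (AddMonoidHom.snd X X')
    (fun a ha => (hA' a ha).elim fun b hb => ⟨_, hb, rfl⟩) hφ
  obtain rfl : φ' = fun I => LinearMap.snd K X X' (Φ I) := (funext h2).symm
  obtain ⟨ψ, h3, h4⟩ := h p (fun I => LinearMap.fst K X X' (Φ I))
    (fun I => ⟨(hΓ _ (h1 I).1).1, fun hI => by simp only [(h1 I).2 hI, map_zero]⟩) fun I => by
      have := hd I
      rw [dd_comp] at this ⊢
      exact (hΓ _ (h1.in.dd hs I)).2.2.2 this
  obtain ⟨Ψ, h5, h6⟩ := val_lift (Γ := Γ) (AddMonoidHom.fst X X')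
    (fun a ha => (hA a ha).elim fun b hb => ⟨_, hb, rfl⟩) h3
  obtain rfl : ψ = fun I => LinearMap.fst K X X' (Ψ I) := (funext h6).symm
  refine ⟨fun I => LinearMap.snd K X X' (Ψ I),
    fun I => ⟨(hΓ _ (h5 I).1).2.1, fun hI => by simp only [(h5 I).2 hI, map_zero]⟩, fun I => ?_⟩
  have := h4 I
  rw [Pi.sub_apply, dd_comp] at this ⊢
  exact (hΓ _ (Γ.sub_mem (h1 I).1 (h5.in.dd hs I))).2.2.1 this

theorem kreg : S_KReg := by
  intro σ K X _ _ _ _ U ξ A B hB
  induction U using Finset.induction_on with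
  | empty =>
    intro _ _ _ p φ hφ _
    refine ⟨0, val_zero _ _ _, fun I => ?_⟩
    rw [map_zero, sub_zero, (hφ I).2]
    · exact B.zero_mem
    · rintro ⟨h1, h2⟩
      rw [subset_empty.1 h1] at h2
      simp at h2
  | insert t U ht ih =>
    intro hsA hsB hr p φ hφ hd
    have ht' := mem_insert_self t U
    have hsA' : Stab0 U ξ A := fun s hs => hsA s (mem_insert_of_mem hs)
    have IH := ih hsA' (fun s hs => hsB s (mem_insert_of_mem hs)) fun U' h s hs =>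
      hr U' (h.trans (subset_insert _ _)) s (mem_insert_of_mem hs)
    have hβ := val_an hφ
    obtain ⟨γ, g1, g2⟩ : ∃ γ, Val U (p + 1) A γ ∧ In B (an t φ - dd U ξ γ) := by
      cases p with
      | succ p =>
        refine IH p _ hβ fun I => ?_
        have := B.neg_mem (hd.an t I)
        rwa [an_dd, dd_insert' ht (an_an_self t φ), Pi.neg_apply, neg_neg] at this
      | zero =>
        have k1 : ξ t • an t φ ∅ ∈ B ⊔ Sm U ξ A := by
          have := (B ⊔ Sm U ξ A).sub_mem (AddSubgroup.mem_sup_left (hd ∅))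
            (AddSubgroup.mem_sup_right (dd_mem_Sm hφ.in ∅))
          simpa [dd_insert ht] using this
        obtain ⟨b, hb, v, hv, e⟩ := AddSubgroup.mem_sup.1
          (hr U (subset_insert _ _) t ht' ht _ (hβ ∅).1 k1)
        obtain ⟨γ, g1, g2⟩ := exists_of_mem_Sm hv
        refine ⟨γ, g1, fun I => ?_⟩
        by_cases hI : I = ∅
        · rw [hI, Pi.sub_apply, g2, ← e]
          simpa using hb
        · rw [((hβ.sub (g1.dd hsA')) I).2 fun h => hI (card_eq_zero.1 h.2)]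
          exact B.zero_mem
    have a0 := an_eq_zero g1 ht
    have a1 : an t (cr t γ) = γ := by simpa [a0] using an_cr_self t γ
    have v1 := (val_insert g1 t).cr ht'
    obtain ⟨φ', hφ'⟩ : ∃ φ', φ' = φ + dd (insert t U) ξ (cr t γ) := ⟨_, rfl⟩
    have v2 : Val (insert t U) (p + 1) A φ' := hφ' ▸ hφ.add (v1.dd hsA)
    have b1 : In B (an t φ') := by
      rwa [hφ', map_add, an_dd, a1, dd_insert' ht a0, ← sub_eq_add_neg]
    have e1 : an t (cr t φ') = φ' - cr t (an t φ') := eq_sub_of_add_eq (an_cr_self t φ')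
    obtain ⟨ω, w1, w2⟩ := IH p _ (val_an (v2.cr ht')) fun I => by
      rw [← dd_insert' ht (an_an_self t _), e1, map_sub]
      refine B.sub_mem ?_ ((b1.cr t).dd hsB I)
      rw [hφ', map_add, dd_dd, add_zero]
      exact hd I
    refine ⟨ω - cr t γ, (val_insert w1 t).sub v1, fun I => ?_⟩
    have e2 : φ - dd (insert t U) ξ (ω - cr t γ) =
        (an t (cr t φ') - dd U ξ ω) + cr t (an t φ') := by
      rw [e1, map_sub, dd_insert' ht (an_eq_zero w1 ht)]
      nth_rewrite 1 [hφ']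
      abel
    rw [e2]
    exact B.add_mem (w2 I) (b1.cr t I)

end Pool.Agent.P.MP_c2aaf5_co
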