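import Pool.Agent.P.MP_c2aaf5_co.DefP

/-! Basic lemmas for the polygraph part. -/

set_option linter.unusedSectionVars false

namespace Pool.Agent.P.MP_c2aaf5_co

open MvPolynomial Finset

noncomputable section

variable {P Λ Y : Type} [Fintype P] [DecidableEq P] [Fintype Λ] [DecidableEq Λ] [CommRing Y]
  {S S' : Set (Lab P Λ)} {v w : Am P Λ Y} {y : P → Y} {N : Finset P} {L : Finset Λ}
  {rk : P → ℕ} {rl : Λ → ℕ}

@[simp] theorem mem_zs {e : P →₀ ℕ} {p : P} : p ∈ zs e ↔ e p = 0 := by simp [zs]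

theorem zs_add_single (e : P →₀ ℕ) (p : P) : zs (e + Finsupp.single p 1) = (zs e).erase p := by
  ext j; by_cases h : j = p
  · subst h; simp
  · simp [h, Finsupp.single_apply, Ne.symm h]

theorem Van.mono (h : Van S v) (hs : S' ⊆ S) : Van S' v := fun f e a => h f e (hs a)

theorem van_zero (S : Set (Lab P Λ)) : Van S (0 : Am P Λ Y) := fun _ _ _ => by simp

theorem van_empty (v : Am P Λ Y) : Van ∅ v := fun _ _ a => a.elim

theorem Van.add (h : Van S v) (h' : Van S w) : Van S (v + w) := fun f e a => by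
  simp [h f e a, h' f e a]

theorem Van.neg (h : Van S v) : Van S (-v) := fun f e a => by simp [h f e a]

theorem Van.sub (h : Van S v) (h' : Van S w) : Van S (v - w) := fun f e a => by
  simp [h f e a, h' f e a]

theorem Van.sum {ι : Type} (s : Finset ι) {g : ι → Am P Λ Y} (h : ∀ i ∈ s, Van S (g i)) :
    Van S (∑ i ∈ s, g i) := fun f e a => by
  rw [Finset.sum_apply, coeff_sum]; exact sum_eq_zero fun i hi => h i hi f e a

theorem coeff_C_smul (c : Y) (v : Am P Λ Y) (f : Λ → P) (e : P →₀ ℕ) :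
    coeff e (((C c : MvPolynomial P Y) • v) f) = c * coeff e (v f) := by
  simp [coeff_C_mul]

theorem Van.smulC (h : Van S v) (c : Y) : Van S ((C c : MvPolynomial P Y) • v) := fun f e a => by
  rw [coeff_C_smul, h f e a, mul_zero]

theorem Van.of_smulC [IsDomain Y] {c : Y} (hc : c ≠ 0) (h : Van S ((C c : MvPolynomial P Y) • v)) :
    Van S v := fun f e a => by
  have := h f e a; rw [coeff_C_smul] at this; exact (mul_eq_zero.1 this).resolve_left hc

theorem van_sub_iff : Van S (v - w) ↔ ∀ f e, (zs e, f) ∈ S → coeff e (v f) = coeff e (w f) := by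
  simp [Van, sub_eq_zero]

theorem van_union : Van (S ∪ S') v ↔ Van S v ∧ Van S' v :=
  ⟨fun h => ⟨h.mono Set.subset_union_left, h.mono Set.subset_union_right⟩,
    fun h f e a => a.elim (h.1 f e) (h.2 f e)⟩

theorem Van.mul_left (hS : TUp S) (h : Van S v) (w : Am P Λ Y) : Van S (w * v) := fun f e a => by
  rw [Pi.mul_apply, coeff_mul]
  refine sum_eq_zero fun x hx => ?_
  rw [h f x.2 (hS _ _ _ a fun j hj => ?_), mul_zero]
  have := DFunLike.congr_fun (mem_antidiagonal.1 hx) j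
  simp only [mem_zs, Finsupp.add_apply] at hj this ⊢; omega

theorem Van.smul (hS : TUp S) (h : Van S v) (g : MvPolynomial P Y) : Van S (g • v) :=
  h.mul_left hS fun _ => g

/-- multiplication by the variable of the point `κ f` -/
def xk (Y : Type) [CommRing Y] (κ : (Λ → P) → P) : Am P Λ Y := fun f => X (κ f)

theorem av_eq_xk (t : Λ) : (av Y t : Am P Λ Y) = xk Y fun f => f t := rfl

theorem coeff_xk_mul (κ : (Λ → P) → P) (v : Am P Λ Y) (f : Λ → P) (e : P →₀ ℕ) :
    coeff (e + Finsupp.single (κ f) 1) ((xk Y κ * v) f) = coeff e (v f) := by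
  rw [Pi.mul_apply, xk, add_comm, coeff_X_mul]

theorem coeff_xk_mul_zero (κ : (Λ → P) → P) (v : Am P Λ Y) (f : Λ → P) (e : P →₀ ℕ)
    (h : e (κ f) = 0) : coeff e ((xk Y κ * v) f) = 0 := by
  rw [Pi.mul_apply, xk, coeff_X_mul']; simp [h]

theorem van_av_mul {t : Λ} (hS : S ⊆ Hit t) (v : Am P Λ Y) : Van S (av Y t * v) := fun f e a =>
  coeff_xk_mul_zero (fun f => f t) v f e (mem_zs.1 (hS a))

theorem coeff_bt_mul (t : Λ) (o : P) (v : Am P Λ Y) (f : Λ → P) (e : P →₀ ℕ) :
    coeff e ((bt y t o * v) f) = (y (f t) - y o) * coeff e (v f) := by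
  rw [Pi.mul_apply, bt, coeff_C_mul]

theorem coeff_bv_pow_mul (t : Λ) (i : ℕ) (v : Am P Λ Y) (f : Λ → P) (e : P →₀ ℕ) :
    coeff e ((bv y t ^ i * v) f) = y (f t) ^ i * coeff e (v f) := by
  rw [Pi.mul_apply, Pi.pow_apply, bv, ← map_pow, coeff_C_mul]

theorem exists_eq_add_single {e : P →₀ ℕ} {p : P} (h : e p ≠ 0) :
    ∃ e', e = e' + Finsupp.single p 1 :=
  ⟨e - Finsupp.single p 1, by
    rw [tsub_add_cancel_of_le]; exact Finsupp.single_le_iff.2 (Nat.one_le_iff_ne_zero.2 h)⟩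

/-! ### multipliers -/

theorem mult_le_multA (y : P → Y) (N : Finset P) (p q : P) : Mult y N p q ≤ MultA y :=
  Submonoid.closure_mono fun _ ⟨r, _, s, _, h, _, _, e⟩ => ⟨r, s, h, e⟩

theorem multA_ne_zero [IsDomain Y] (hy : Function.Injective y) {G : Y} (h : G ∈ MultA y) : G ≠ 0 := by
  induction h using Submonoid.closure_induction with
  | mem g h => obtain ⟨r, s, h, rfl⟩ := h; exact sub_ne_zero.2 fun e => h (hy e)
  | one => exact one_ne_zero
  | mul a b _ _ ha hb => exact mul_ne_zero ha hb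

theorem mult_ne_zero [IsDomain Y] (hy : Function.Injective y) {p q : P} {G : Y}
    (h : G ∈ Mult y N p q) : G ≠ 0 := multA_ne_zero hy (mult_le_multA y N p q h)

theorem sub_mem_multA (y : P → Y) {r s : P} (h : r ≠ s) : y r - y s ∈ MultA y :=
  Submonoid.subset_closure ⟨r, s, h, rfl⟩

theorem phi_mem_multA (y : P → Y) (N : Finset P) (o : P) (E : Finset Λ) (a : Lab P Λ) :
    phi y N o E a ∈ MultA y :=
  Submonoid.prod_mem _ fun _ hj => sub_mem_multA y (mem_filter.1 hj).2.2.1.symm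

/-- every pair is served by an ordered pair of `N` -/
theorem exists_pair (y : P → Y) (hN : 2 ≤ N.card) (hr : Function.Injective rk) (p q : P) :
    ∃ p' q', p' ≠ q' ∧ p' ∈ N ∧ q' ∈ N ∧ rk p' < rk q' ∧ Mult y N p' q' ≤ Mult y univ p q := by
  have key : ∀ a b, a ≠ b → a ∈ N → b ∈ N → Mult y N a b ≤ Mult y univ p q →
      ∃ p' q', p' ≠ q' ∧ p' ∈ N ∧ q' ∈ N ∧ rk p' < rk q' ∧ Mult y N p' q' ≤ Mult y univ p q := by
    intro a b hab ha hb h
    rcases lt_or_gt_of_ne (fun e => hab (hr e)) with h1 | h1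
    · exact ⟨a, b, hab, ha, hb, h1, h⟩
    · refine ⟨b, a, hab.symm, hb, ha, h1, le_trans ?_ h⟩
      exact Submonoid.closure_mono fun _ ⟨r, h1, s, h2, h3, h4, h5, e⟩ =>
        ⟨r, h1, s, h2, h3, h5, h4, e⟩
  by_cases h : p ≠ q ∧ p ∈ N ∧ q ∈ N
  · exact key p q h.1 h.2.1 h.2.2 (Submonoid.closure_mono fun _ ⟨r, _, s, _, h3, h4, h5, e⟩ =>
      ⟨r, mem_univ _, s, mem_univ _, h3, h4, h5, e⟩)
  · obtain ⟨a, ha, b, hb, hab⟩ := one_lt_card.1 hN
    refine key a b hab ha hb (Submonoid.closure_mono fun _ ⟨r, h1, s, h2, h3, _, _, e⟩ =>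
      ⟨r, mem_univ _, s, mem_univ _, h3, ?_, ?_, e⟩)
    · rintro ⟨rfl, rfl⟩; exact h ⟨h3, h1, h2⟩
    · rintro ⟨rfl, rfl⟩; exact h ⟨h3.symm, h2, h1⟩

theorem First.ne {o p q : P} (h : First N rk o) (hp : p ∈ N) (hpq : rk p < rk q) : o ≠ q := by
  rintro rfl; exact absurd (h.2 p hp) (not_le.2 hpq)

theorem exists_first (hN : N.Nonempty) (rk : P → ℕ) : ∃ o, First N rk o := by
  obtain ⟨o, h1, h2⟩ := exists_min_image N rk hN; exact ⟨o, h1, h2⟩

/-! ### the rings `RR` -/

theorem av_mem {s : Λ} (h : s ∈ L) : av Y s ∈ RR y L :=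
  Algebra.subset_adjoin (Or.inl ⟨s, h, rfl⟩)

theorem bv_mem {s : Λ} (h : s ∈ L) : bv y s ∈ RR y L :=
  Algebra.subset_adjoin (Or.inr ⟨s, h, rfl⟩)

theorem const_mem (g : MvPolynomial P Y) : (fun _ => g) ∈ RR y L := (RR y L).algebraMap_mem g

theorem bt_mem {s : Λ} (h : s ∈ L) (o : P) : bt y s o ∈ RR y L := by
  have : bt y s o = bv y s - fun _ => C (y o) := by funext f; simp [bt, bv]
  rw [this]; exact sub_mem (bv_mem h) (const_mem _)

theorem RR_mono {L' : Finset Λ} (h : L ⊆ L') : RR y L ≤ RR y L' :=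
  Algebra.adjoin_mono (Set.union_subset_union (Set.image_mono h) (Set.image_mono h))

theorem RR_induction {p : Am P Λ Y → Prop} (hv : v ∈ RR y L) (ha : ∀ s ∈ L, p (av Y s))
    (hb : ∀ s ∈ L, p (bv y s)) (hc : ∀ g, p fun _ => g) (hadd : ∀ a b, a ∈ RR y L → b ∈ RR y L →
      p a → p b → p (a + b)) (hmul : ∀ a b, a ∈ RR y L → b ∈ RR y L → p a → p b → p (a * b)) :
    p v := by
  induction hv using Algebra.adjoin_induction with
  | mem x hx => rcases hx with ⟨s, h, rfl⟩ | ⟨s, h, rfl⟩; exacts [ha s h, hb s h]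
  | algebraMap r => exact hc r
  | add a b h1 h2 h3 h4 => exact hadd a b h1 h2 h3 h4
  | mul a b h1 h2 h3 h4 => exact hmul a b h1 h2 h3 h4

theorem RR_meas (hv : v ∈ RR y L) : Meas L v := by
  refine RR_induction hv (fun s h f f' e => ?_) (fun s h f f' e => ?_) (fun _ _ _ _ => rfl)
    (fun a b _ _ h1 h2 f f' e => ?_) fun a b _ _ h1 h2 f f' e => ?_
  · simp [av, e s h]
  · simp [bv, e s h]
  · simp [h1 f f' e, h2 f f' e]
  · simp [h1 f f' e, h2 f f' e]

/-- substitution of the point `o` for the index `t` -/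
def sb (t : Λ) (o : P) (v : Am P Λ Y) : Am P Λ Y := fun f => v (Function.update f t o)

theorem sb_mem {t : Λ} (o : P) (hv : v ∈ RR y (insert t L)) : sb t o v ∈ RR y L := by
  have key : ∀ v ∈ RR y (insert t L), sb t o v ∈ RR y (L.erase t) := by
    intro v hv
    refine RR_induction (p := fun v => sb t o v ∈ RR y (L.erase t)) hv (fun s h => ?_)
      (fun s h => ?_) (fun g => const_mem g) (fun a b _ _ h1 h2 => add_mem h1 h2)
      fun a b _ _ h1 h2 => mul_mem h1 h2
    · by_cases e : s = t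
      · subst e
        have : sb s o (av Y s) = fun _ => X o := by funext f; simp [sb, av]
        rw [this]; exact const_mem _
      · have : sb t o (av Y s) = av Y s := by funext f; simp [sb, av, e]
        rw [this]; exact av_mem (mem_erase.2 ⟨e, (mem_insert.1 h).resolve_left e⟩)
    · by_cases e : s = t
      · subst e
        have : sb s o (bv y s) = fun _ => C (y o) := by funext f; simp [sb, bv]
        rw [this]; exact const_mem _
      · have : sb t o (bv y s) = bv y s := by funext f; simp [sb, bv, e]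
        rw [this]; exact bv_mem (mem_erase.2 ⟨e, (mem_insert.1 h).resolve_left e⟩)
  exact RR_mono (erase_subset _ _) (key v hv)

theorem sb_apply_of_eq {t : Λ} {o : P} (v : Am P Λ Y) {f : Λ → P} (h : f t = o) :
    sb t o v f = v f := by rw [sb, ← h, Function.update_eq_self]

/-- `v` is its substitution modulo `a_t - x_o` and `b_t - y_o` -/
theorem RR_decomp {t : Λ} (o : P) (hv : v ∈ RR y (insert t L)) :
    ∃ d1 ∈ RR y (insert t L), ∃ d2 ∈ RR y (insert t L),
      v = sb t o v + (av Y t - fun _ => X o) * d1 + bt y t o * d2 := by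
  have hs : ∀ v ∈ RR y (insert t L), sb t o v ∈ RR y (insert t L) := fun v hv =>
    RR_mono (subset_insert _ _) (sb_mem o hv)
  refine RR_induction (p := fun v => ∃ d1 ∈ RR y (insert t L), ∃ d2 ∈ RR y (insert t L),
      v = sb t o v + (av Y t - fun _ => X o) * d1 + bt y t o * d2) hv (fun s _ => ?_)
    (fun s _ => ?_) (fun g => ⟨0, zero_mem _, 0, zero_mem _, by funext f; simp [sb]⟩) ?_ ?_
  · by_cases e : s = t
    · subst e; exact ⟨1, one_mem _, 0, zero_mem _, by funext f; simp [sb, av]⟩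
    · exact ⟨0, zero_mem _, 0, zero_mem _, by funext f; simp [sb, av, e]⟩
  · by_cases e : s = t
    · subst e; exact ⟨0, zero_mem _, 1, one_mem _, by funext f; simp [sb, bv, bt]⟩
    · exact ⟨0, zero_mem _, 0, zero_mem _, by funext f; simp [sb, bv, e]⟩
  · rintro a b _ _ ⟨a1, h1, a2, h2, ea⟩ ⟨b1, h3, b2, h4, eb⟩
    refine ⟨a1 + b1, add_mem h1 h3, a2 + b2, add_mem h2 h4, ?_⟩
    have : sb t o (a + b) = sb t o a + sb t o b := rfl
    rw [this]; linear_combination ea + eb
  · rintro a b ha hb ⟨a1, h1, a2, h2, ea⟩ ⟨b1, h3, b2, h4, eb⟩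
    refine ⟨a1 * b + sb t o a * b1, add_mem (mul_mem h1 hb) (mul_mem (hs a ha) h3),
      a2 * b + sb t o a * b2, add_mem (mul_mem h2 hb) (mul_mem (hs a ha) h4), ?_⟩
    have : sb t o (a * b) = sb t o a * sb t o b := rfl
    rw [this]; linear_combination b * ea + sb t o a * eb

/-- an element of level `L` that vanishes where `f t = o` vanishes -/
theorem van_of_at {t : Λ} {o : P} (ht : t ∉ L) (hv : Meas L v) (hS : MeasS L S)
    (h : Van (S ∩ At t o) v) : Van S v := fun f e a => by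
  have hf : ∀ s ∈ L, f s = Function.update f t o s := fun s hs => by
    rw [Function.update_of_ne (fun e : s = t => ht (e ▸ hs))]
  rw [hv f _ hf]
  exact h _ e ⟨hS _ _ _ hf a, by simp [At]⟩

theorem exists_am (F : (Λ → P) → (P →₀ ℕ) → Y) (hF : ∀ f, (Function.support (F f)).Finite) :
    ∃ w : Am P Λ Y, ∀ f e, coeff e (w f) = F f e := by
  refine ⟨fun f => ∑ e ∈ (hF f).toFinset, monomial e (F f e), fun f e => ?_⟩
  simp only [coeff_sum, coeff_monomial, sum_ite_eq', Set.Finite.mem_toFinset, Function.mem_support]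
  split_ifs with h
  · rfl
  · exact (by simpa using h : F f e = 0).symm

theorem exists_am' (F : (Λ → P) → (P →₀ ℕ) → Y) (v : Am P Λ Y)
    (h : ∀ f e, coeff e (v f) = 0 → F f e = 0) : ∃ w : Am P Λ Y, ∀ f e, coeff e (w f) = F f e :=
  exists_am F fun f => (v f).support.finite_toSet.subset fun e he =>
    mem_coe.2 (mem_support_iff.2 fun h0 => he (h f e h0))

/-- restriction of `v` to the labels of `S` -/
theorem exists_restrict (S : Set (Lab P Λ)) (v : Am P Λ Y) :
    ∃ w : Am P Λ Y, Van S (v - w) ∧ Van Sᶜ w := by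
  classical
  obtain ⟨w, hw⟩ := exists_am' (fun f e => if (zs e, f) ∈ S then coeff e (v f) else 0) v
    fun f e h => by simp [h]
  exact ⟨w, van_sub_iff.2 fun f e a => by rw [hw, if_pos a], fun f e a => by rw [hw, if_neg a]⟩

/-- homogeneous component in the variables `x` -/
def hd (d : ℕ) (v : Am P Λ Y) : Am P Λ Y := fun f => homogeneousComponent d (v f)

theorem coeff_hd (d : ℕ) (v : Am P Λ Y) (f : Λ → P) (e : P →₀ ℕ) :
    coeff e (hd d v f) = if e.degree = d then coeff e (v f) else 0 := coeff_homogeneousComponent _ _ _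

theorem hd_mul (d : ℕ) (a b : Am P Λ Y) :
    hd d (a * b) = ∑ x ∈ antidiagonal d, hd x.1 a * hd x.2 b := by
  funext f; ext e
  rw [coeff_hd, Finset.sum_apply, coeff_sum]
  simp only [Pi.mul_apply, coeff_mul, coeff_hd]
  rw [sum_comm]
  split_ifs with h
  · refine sum_congr rfl fun z hz => ?_
    rw [sum_eq_single (z.1.degree, z.2.degree)]
    · simp
    · intro x _ hx
      by_cases h1 : z.1.degree = x.1
      · rw [if_neg (show ¬z.2.degree = x.2 from fun h2 => hx (Prod.ext h1.symm h2.symm)), mul_zero]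
      · rw [if_neg h1, zero_mul]
    · intro hx; exfalso; apply hx
      refine mem_antidiagonal.2 ?_
      rw [← map_add, mem_antidiagonal.1 hz, h]
  · symm
    refine sum_eq_zero fun z hz => sum_eq_zero fun x hx => ?_
    by_cases h1 : z.1.degree = x.1
    · rw [if_neg (show ¬z.2.degree = x.2 from fun h2 => h ?_), mul_zero]
      rw [← mem_antidiagonal.1 hz, map_add, h1, h2, mem_antidiagonal.1 hx]
    · rw [if_neg h1, zero_mul]

theorem hd_mem (hv : v ∈ RR y L) (d : ℕ) : hd d v ∈ RR y L := by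
  revert d
  refine RR_induction (p := fun v => ∀ d, hd d v ∈ RR y L) hv (fun s h d => ?_) (fun s h d => ?_)
    (fun g d => const_mem _) (fun a b _ _ h1 h2 d => ?_) fun a b _ _ h1 h2 d => ?_
  · have : hd d (av Y s : Am P Λ Y) = if d = 1 then av Y s else 0 := by
      funext f
      rw [hd, av, homogeneousComponent_of_mem (isHomogeneous_X Y (f s))]
      split_ifs <;> rfl
    rw [this]; split_ifs; exacts [av_mem h, zero_mem _]
  · have : hd d (bv y s : Am P Λ Y) = if d = 0 then bv y s else 0 := by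
      funext f
      rw [hd, bv, homogeneousComponent_of_mem (isHomogeneous_C P (y (f s)))]
      split_ifs <;> rfl
    rw [this]; split_ifs; exacts [bv_mem h, zero_mem _]
  · have : hd d (a + b) = hd d a + hd d b := by funext f; simp [hd]
    rw [this]; exact add_mem (h1 d) (h2 d)
  · rw [hd_mul]; exact sum_mem fun x _ => mul_mem (h1 _) (h2 _)

theorem exists_deg_bound (v : Am P Λ Y) : ∃ D, ∀ f (e : P →₀ ℕ), D ≤ e.degree → coeff e (v f) = 0 := by
  refine ⟨(univ.sup fun f => (v f).totalDegree) + 1, fun f e h => coeff_eq_zero_of_totalDegree_lt ?_⟩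
  have : (v f).totalDegree ≤ univ.sup fun f => (v f).totalDegree :=
    le_sup (f := fun f => (v f).totalDegree) (mem_univ f)
  exact lt_of_lt_of_le (Nat.lt_succ_of_le this) h

/-! ### label sets -/

theorem All.mono {L' : Finset Λ} {f : Λ → P} (h : All N L f) (hL : L' ⊆ L) : All N L' f :=
  fun s hs => h s (hL hs)

theorem rho_mono_T {T T' : Finset P} (h : T ⊆ T') (f : Λ → P) (r k : ℕ) :
    rho N L rk rl r k (T, f) ≤ rho N L rk rl r k (T', f) :=
  card_le_card (monotone_filter_right _ fun _ _ hj => ⟨h hj.1, hj.2⟩)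

theorem rho_congr {f f' : Λ → P} (h : ∀ s ∈ L, f s = f' s) (T : Finset P) (r k : ℕ) :
    rho N L rk rl r k (T, f) = rho N L rk rl r k (T, f') := by
  unfold rho; congr 1
  refine filter_congr fun j _ => and_congr_right fun _ => and_congr_right fun _ => ?_
  exact forall_congr' fun s => forall_congr' fun hs => by simp only [h s hs]

theorem Up.tup (h : Up N L rk rl S) : TUp S := fun T T' f a hT =>
  h.2 (T, f) a (T', f) (fun s hs => h.1 (T, f) a s hs) ⟨rho_mono_T hT f, fun _ hj _ => hT hj⟩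

theorem Up.meas (h : Up N L rk rl S) : MeasS L S := fun T f f' e a =>
  h.2 (T, f) a (T, f') (fun s hs => by
    have := h.1 (T, f) a s hs
    simp only at this ⊢; rwa [← e s hs]) ⟨fun r k => (rho_congr e T r k).le, fun _ hj _ => hj⟩

theorem Up.inter (h : Up N L rk rl S) (h' : Up N L rk rl S') : Up N L rk rl (S ∩ S') :=
  ⟨fun a ha => h.1 a ha.1, fun a ha b hb hl => ⟨h.2 a ha.1 b hb hl, h'.2 a ha.2 b hb hl⟩⟩

theorem Up.union (h : Up N L rk rl S) (h' : Up N L rk rl S') : Up N L rk rl (S ∪ S') :=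
  ⟨fun a ha => ha.elim (h.1 a) (h'.1 a), fun a ha b hb hl =>
    ha.elim (fun ha => Or.inl (h.2 a ha b hb hl)) fun ha => Or.inr (h'.2 a ha b hb hl)⟩

theorem up_empty : Up N L rk rl (∅ : Set (Lab P Λ)) := ⟨fun _ h => h.elim, fun _ h => h.elim⟩

theorem up_rho (r k c : ℕ) : Up N L rk rl {a | All N L a.2 ∧ c ≤ rho N L rk rl r k a} :=
  ⟨fun _ h => h.1, fun _ h _ hb hl => ⟨hb, h.2.trans (hl.1 r k)⟩⟩

theorem up_all : Up N L rk rl {a : Lab P Λ | All N L a.2} := ⟨fun _ h => h, fun _ _ _ hb _ => hb⟩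

theorem TUp.inter (h : TUp S) (h' : TUp S') : TUp (S ∩ S') := fun T T' f a hT =>
  ⟨h T T' f a.1 hT, h' T T' f a.2 hT⟩

theorem tup_Yo (o : P) (E : Finset Λ) : TUp (Yo N L o E) := fun _ _ _ a hT =>
  ⟨a.1, hT a.2.1, a.2.2⟩

theorem Ts_mono (o : P) (E : Finset Λ) {T T' : Finset P} (h : T ⊆ T') (f : Λ → P) :
    Ts N o E (T, f) ⊆ Ts N o E (T', f) := monotone_filter_right _ fun _ _ hj => ⟨h hj.1, hj.2⟩

theorem Ts_congr (o : P) {E : Finset Λ} (T : Finset P) {f f' : Λ → P} (h : ∀ s ∈ E, f s = f' s) :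
    Ts N o E (T, f) = Ts N o E (T, f') := by
  refine filter_congr fun j _ => and_congr_right fun _ => and_congr_right fun _ => ?_
  exact forall_congr' fun s => forall_congr' fun hs => by simp only [h s hs]

theorem tup_Ge (o : P) (E : Finset Λ) (c : ℕ) : TUp (Ge N L o E c) := fun _ _ f a hT =>
  ⟨a.1, a.2.trans (card_le_card (Ts_mono o E hT f))⟩

theorem tup_At (t : Λ) (o : P) : TUp (At t o : Set (Lab P Λ)) := fun _ _ _ a _ => a

theorem tup_Hit (t : Λ) : TUp (Hit t : Set (Lab P Λ)) := fun _ _ _ a hT => hT a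

theorem tup_Cm (m : ℕ) : TUp (Cm N m : Set (Lab P Λ)) := fun _ _ _ a hT =>
  le_trans a (card_le_card (monotone_filter_right _ fun _ _ hj => hT hj))

theorem TUp.ee (h : TUp S) (o : P) (t : Λ) : TUp (Ee N o t S) := fun T T' f a hT =>
  ⟨h T T' f a.1 hT, a.2.1, hT a.2.2.1, a.2.2.2⟩

theorem mem_Ek {k : ℕ} {s : Λ} : s ∈ Ek L rl k ↔ s ∈ L ∧ rl s < k := mem_filter

theorem Ek_subset (L : Finset Λ) (rl : Λ → ℕ) (k : ℕ) : Ek L rl k ⊆ L := filter_subset _ _

theorem Ek_zero : Ek L rl 0 = ∅ := by simp [Ek]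

theorem Ek_top (L : Finset Λ) (rl : Λ → ℕ) : Ek L rl (univ.sup rl + 1) = L :=
  filter_true_of_mem fun s _ => Nat.lt_succ_of_le (le_sup (mem_univ s))

theorem Next.Ek {k : ℕ} {t : Λ} (h : Next L rl k t) : Ek (insert t L) rl k = Ek L rl k := by
  unfold Pool.Agent.P.MP_c2aaf5_co.Ek; rw [filter_insert, if_neg (not_lt.2 h.2.1)]

theorem Next.Ek_succ' (hl : Function.Injective rl) {k : ℕ} {t : Λ} (h : Next L rl k t) :
    Pool.Agent.P.MP_c2aaf5_co.Ek (insert t L) rl (rl t + 1) =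
      insert t (Pool.Agent.P.MP_c2aaf5_co.Ek L rl k) := by
  ext s
  simp only [mem_Ek, mem_insert]
  constructor
  · rintro ⟨h1 | h1, h2⟩
    · exact Or.inl h1
    · refine Or.inr ⟨h1, h.2.2 s h1 (lt_of_le_of_ne (by omega) fun e => h.1 (hl e ▸ h1))⟩
  · rintro (rfl | ⟨h1, h2⟩)
    · exact ⟨Or.inl rfl, by omega⟩
    · exact ⟨Or.inr h1, by have := h.2.1; omega⟩

theorem up_Yo (hr : Function.Injective rk) {o : P} (ho : First N rk o) (k : ℕ) :
    Up N L rk rl (Yo N L o (Ek L rl k)) := by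
  have : Yo N L o (Ek L rl k) = {a | All N L a.2 ∧ 1 ≤ rho N L rk rl (rk o + 1) k a} := by
    ext a
    refine and_congr_right fun _ => ?_
    rw [rho, one_le_card]
    constructor
    · rintro ⟨h1, h2⟩
      exact ⟨o, mem_filter.2 ⟨ho.1, h1, by omega, fun s a b => h2 s (mem_Ek.2 ⟨a, b⟩)⟩⟩
    · rintro ⟨j, hj⟩
      obtain ⟨h1, h2, h3, h4⟩ := mem_filter.1 hj
      obtain rfl : j = o := hr (by have := ho.2 j h1; omega)
      exact ⟨h2, fun s hs => h4 s (mem_Ek.1 hs).1 (mem_Ek.1 hs).2⟩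
  rw [this]; exact up_rho _ _ _

theorem rho_top_eq {o : P} (ho : o ∈ N) {k : ℕ} {a : Lab P Λ} (h1 : o ∈ a.1)
    (h2 : ∀ s ∈ Ek L rl k, a.2 s ≠ o) :
    rho N L rk rl (univ.sup rk + 1) k a = (Ts N o (Ek L rl k) a).card + 1 := by
  rw [rho, ← card_insert_of_notMem (show o ∉ Ts N o (Ek L rl k) a by simp [Ts])]
  congr 1; ext j
  have hj : rk j < univ.sup rk + 1 := Nat.lt_succ_of_le (le_sup (mem_univ j))
  simp only [Ts, mem_filter, mem_insert, mem_Ek, hj, true_and, and_imp]
  by_cases e : j = o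
  · subst e
    simp only [true_or, iff_true]
    exact ⟨ho, h1, fun s a b => h2 s (mem_Ek.2 ⟨a, b⟩)⟩
  · simp [e]

theorem up_YoGe (hr : Function.Injective rk) {o : P} (ho : First N rk o) {k k' : ℕ} (hk : k ≤ k')
    (c : ℕ) : Up N L rk rl (Yo N L o (Ek L rl k') ∩ Ge N L o (Ek L rl k) c) := by
  have : Yo N L o (Ek L rl k') ∩ Ge N L o (Ek L rl k) c = Yo N L o (Ek L rl k') ∩
      {a | All N L a.2 ∧ c + 1 ≤ rho N L rk rl (univ.sup rk + 1) k a} := by
    ext a
    refine and_congr_right fun h => and_congr_right fun _ => ?_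
    rw [rho_top_eq ho.1 h.2.1 fun s hs => h.2.2 s
      (mem_Ek.2 ⟨(mem_Ek.1 hs).1, (mem_Ek.1 hs).2.trans_le hk⟩)]
    omega
  rw [this]; exact (up_Yo hr ho k').inter (up_rho _ _ _)

theorem Up.inter_Cm (h : Up N L rk rl S) (m : ℕ) : Up N L rk rl (S ∩ Cm N m) := by
  have : S ∩ Cm N m = S ∩ {a | All N L a.2 ∧ m ≤ rho N L rk rl (univ.sup rk + 1) 0 a} := by
    ext a
    refine and_congr_right fun ha => ?_
    have e : rho N L rk rl (univ.sup rk + 1) 0 a = (N.filter (· ∈ a.1)).card := by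
      unfold rho; congr 1
      exact filter_congr fun j _ => by simp [Nat.lt_succ_of_le (le_sup (f := rk) (mem_univ j))]
    simp only [Cm, Set.mem_setOf_eq, e, h.1 a ha, true_and]
  rw [this]; exact h.inter (up_rho _ _ _)

/-- move the point `o` to the end -/
def rot (rk : P → ℕ) (o : P) : P → ℕ := fun p => if p = o then univ.sup rk + 1 else rk p

theorem rot_inj (hr : Function.Injective rk) (o : P) : Function.Injective (rot rk o) := by
  intro a b h
  have h1 : rk a ≤ univ.sup rk := le_sup (mem_univ a)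
  have h2 : rk b ≤ univ.sup rk := le_sup (mem_univ b)
  unfold rot at h
  split_ifs at h with ha hb hb
  · rw [ha, hb]
  · omega
  · omega
  · exact hr h

theorem up_Ge_rot (o : P) (k c : ℕ) : Up N L (rot rk o) rl (Ge N L o (Ek L rl k) c) := by
  have : Ge N L o (Ek L rl k) c =
      {a | All N L a.2 ∧ c ≤ rho N L (rot rk o) rl (univ.sup rk + 1) k a} := by
    ext a
    refine and_congr_right fun _ => ?_
    have e : rho N L (rot rk o) rl (univ.sup rk + 1) k a = (Ts N o (Ek L rl k) a).card := by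
      unfold rho Ts; congr 1
      refine filter_congr fun j _ => and_congr_right fun _ => and_congr ?_ (by simp [mem_Ek])
      have h1 : rk j ≤ univ.sup rk := le_sup (mem_univ j)
      unfold rot; split_ifs with h
      · simp [h]
      · simp [h]; omega
    rw [e]
  rw [this]; exact up_rho _ _ _

/-- move the index `t` to the front -/
def frt (rl : Λ → ℕ) (t : Λ) : Λ → ℕ := fun s => if s = t then 0 else rl s + 1

theorem frt_inj (hl : Function.Injective rl) (t : Λ) : Function.Injective (frt rl t) := by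
  intro a b h
  unfold frt at h
  split_ifs at h with ha hb hb
  · rw [ha, hb]
  · exact hl (by omega)

theorem Ek_frt {t : Λ} (ht : t ∈ L) (k : ℕ) : Ek L (frt rl t) (k + 1) = insert t (Ek L rl k) := by
  ext s
  by_cases e : s = t
  · subst e; simp [mem_Ek, frt, ht]
  · simp [mem_Ek, frt, e]

/-! ### local to global tools -/

theorem Loc.of_mem {M : Set (Am P Λ Y)} {u : Am P Λ Y} (hu : u ∈ M) (h : Van S (v - u)) :
    Loc y S M v := fun _ _ => ⟨1, one_mem _, u, hu, by simpa using h⟩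

theorem Loc.mono {M : Set (Am P Λ Y)} (h : Loc y S M v) (hs : S' ⊆ S) : Loc y S' M v := fun p q => by
  obtain ⟨G, h1, u, h2, h3⟩ := h p q; exact ⟨G, h1, u, h2, h3.mono hs⟩

theorem Loc.sub (h : Loc y S (RR y L) v) {u : Am P Λ Y} (hu : u ∈ RR y L) :
    Loc y S (RR y L) (v - u) := fun p q => by
  obtain ⟨G, h1, w, h2, h3⟩ := h p q
  refine ⟨G, h1, w - (C G : MvPolynomial P Y) • u, sub_mem h2 (Subalgebra.smul_mem _ hu _), ?_⟩
  convert h3 using 1; rw [smul_sub]; abel

/-- the labels whose shift by `κ` lies in `V` -/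
def sh (κ : (Λ → P) → P) (V : Set (Lab P Λ)) : Set (Lab P Λ) := {a | (a.1.erase (κ a.2), a.2) ∈ V}

theorem van_xk_mul (κ : (Λ → P) → P) {V : Set (Lab P Λ)} (h : Van (sh κ V) v) :
    Van V (xk Y κ * v) := fun f e a => by
  by_cases h0 : e (κ f) = 0
  · exact coeff_xk_mul_zero κ v f e h0
  · obtain ⟨e', rfl⟩ := exists_eq_add_single h0
    rw [coeff_xk_mul]; exact h f e' (by rwa [zs_add_single] at a)

theorem van_of_xk_mul (κ : (Λ → P) → P) {V : Set (Lab P Λ)} (h : Van V (xk Y κ * v)) :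
    Van (sh κ V) v := fun f e a => by
  rw [← coeff_xk_mul κ]; exact h f _ (by rwa [zs_add_single])

theorem exists_div_xk (κ : (Λ → P) → P) {V : Set (Lab P Λ)}
    (h : Van (V ∩ {a | κ a.2 ∈ a.1}) v) : ∃ d : Am P Λ Y, Van V (v - xk Y κ * d) ∧
      ∀ f e, coeff e (d f) = coeff (e + Finsupp.single (κ f) 1) (v f) := by
  obtain ⟨d, hd⟩ := exists_am (fun f e => coeff (e + Finsupp.single (κ f) 1) (v f)) fun f =>
    Set.Finite.subset ((v f).support.finite_toSet.preimage
      (add_left_injective (Finsupp.single (κ f) 1)).injOn) fun e he => by simpa using he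
  refine ⟨d, van_sub_iff.2 fun f e a => ?_, hd⟩
  by_cases h0 : e (κ f) = 0
  · rw [coeff_xk_mul_zero κ d f e h0]; exact h f e ⟨a, mem_zs.2 h0⟩
  · obtain ⟨e', rfl⟩ := exists_eq_add_single h0
    rw [coeff_xk_mul, hd]

/-- division by a variable -/
theorem divX (κ : (Λ → P) → P) {V : Set (Lab P Λ)} {M : Set (Am P Λ Y)} (hG : Good y (sh κ V) M)
    (h : Van (V ∩ {a | κ a.2 ∈ a.1}) v) (hl : ∀ p q, ∃ G ∈ Mult y univ p q, ∃ d ∈ M,
      Van V ((C G : MvPolynomial P Y) • v - xk Y κ * d)) : ∃ d ∈ M, Van V (v - xk Y κ * d) := by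
  obtain ⟨d0, h0, -⟩ := exists_div_xk κ h
  obtain ⟨d, hd, h1⟩ := hG d0 fun p q => by
    obtain ⟨G, hG, d, hd, h2⟩ := hl p q
    refine ⟨G, hG, d, hd, van_of_xk_mul κ ?_⟩
    convert h2.sub (h0.smulC G) using 1
    rw [smul_sub, mul_sub, mul_smul_comm]; abel
  refine ⟨d, hd, ?_⟩
  convert h0.add (van_xk_mul κ h1) using 1
  rw [mul_sub]; abel

/-- division by a product of differences depending on the label -/
theorem divLab (hB : Base y) (ψ : Lab P Λ → Y) (U : Set (Lab P Λ)) (hψ : ∀ a ∈ U, ψ a ∈ MultA y)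
    (h : ∀ p q, ∃ G ∈ Mult y univ p q, ∃ g : Am P Λ Y, ∀ f e, (zs e, f) ∈ U →
      G * coeff e (v f) = ψ (zs e, f) * coeff e (g f)) :
    ∃ v' : Am P Λ Y, (∀ f e, (zs e, f) ∈ U → coeff e (v f) = ψ (zs e, f) * coeff e (v' f)) ∧
      Van Uᶜ v' := by
  classical
  have h1 : ∀ f e, ∃ c : Y, ((zs e, f) ∈ U → coeff e (v f) = ψ (zs e, f) * c) ∧
      ((zs e, f) ∉ U ∨ coeff e (v f) = 0 → c = 0) := by
    intro f e
    by_cases h0 : (zs e, f) ∉ U ∨ coeff e (v f) = 0
    · refine ⟨0, fun a => ?_, fun _ => rfl⟩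
      rw [mul_zero]; exact h0.resolve_left (not_not.2 a)
    · have a : (zs e, f) ∈ U := by tauto
      obtain ⟨c, hc⟩ := hB.amb _ (hψ _ a) (coeff e (v f)) fun p q => by
        obtain ⟨G, hG, g, hg⟩ := h p q; exact ⟨G, hG, _, hg f e a⟩
      exact ⟨c, fun _ => hc, fun h => absurd h h0⟩
  choose c hc using h1
  obtain ⟨w, hw⟩ := exists_am' c v fun f e h0 => (hc f e).2 (Or.inr h0)
  exact ⟨w, fun f e a => by rw [hw]; exact (hc f e).1 a,
    fun f e a => by rw [hw]; exact (hc f e).2 (Or.inl a)⟩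

/-- distributivity from `Good` for the union -/
theorem dist (hL : LocAll Λ y) (hN : 2 ≤ N.card) (hr : Function.Injective rk)
    (hl : Function.Injective rl) (hS : Up N L rk rl S) (hS' : Up N L rk rl S')
    (hG : Good y (S ∪ S') (RR y L)) {u : Am P Λ Y} (hu : u ∈ RR y L) (h : Van (S ∩ S') u) :
    ∃ u1 ∈ RR y L, Van S (u - u1) ∧ Van S' u1 := by
  obtain ⟨w, h1, h2⟩ := exists_restrict S u
  have h3 : Van S' w := fun f e a => by
    by_cases b : (zs e, f) ∈ S
    · rw [← van_sub_iff.1 h1 f e b]; exact h f e ⟨b, a⟩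
    · exact h2 f e b
  obtain ⟨u1, hu1, h4⟩ := hG w fun p q => by
    obtain ⟨p', q', a1, a2, a3, a4, a5⟩ := exists_pair y hN hr p q
    obtain ⟨G, hG, u1, b1, b2, b3⟩ := (hL N p' q' a1 a2 a3).1 L rk rl hl a4 S S' hS hS' u hu h
    refine ⟨G, a5 hG, u1, b1, van_union.2 ⟨?_, (h3.smulC G).sub b3⟩⟩
    convert b2.sub (h1.smulC G) using 1
    rw [smul_sub]; abel
  refine ⟨u1, hu1, ?_, ?_⟩
  · convert h1.add (van_union.1 h4).1 using 1; abel
  · convert h3.sub (van_union.1 h4).2 using 1; abel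

theorem IdV_le {L' : Finset Λ} (h : L ⊆ L') (hv : v ∈ IdV y L L' S) : v ∈ RR y L' := by
  induction hv using Submodule.span_induction with
  | mem x hx => obtain ⟨g, h1, -, r, h2, rfl⟩ := hx; exact mul_mem h2 (RR_mono h h1)
  | zero => exact zero_mem _
  | add a b _ _ h1 h2 => exact add_mem h1 h2
  | smul c a _ h1 => exact Subalgebra.smul_mem _ h1 _

theorem IdV_van {L' : Finset Λ} (hS : TUp S) (hv : v ∈ IdV y L L' S) : Van S v := by
  induction hv using Submodule.span_induction with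
  | mem x hx => obtain ⟨g, -, h1, r, -, rfl⟩ := hx; exact h1.mul_left hS r
  | zero => exact van_zero _
  | add a b _ _ h1 h2 => exact h1.add h2
  | smul c a _ h1 => exact h1.smul hS c

end

end Pool.Agent.P.MP_c2aaf5_co
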