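import Pool.Agent.P.MP_c2aaf5_co.PSet
import Pool.Agent.P.MP_c2aaf5_co.DefK

/-! Package B10: Koszul exactness passes from `I` to `I * JJ`. -/

set_option linter.unusedSectionVars false

namespace Pool.Agent.P.MP_c2aaf5_co

open MvPolynomial Finset

noncomputable section

namespace PBlkKAux

section retract
variable {σ : Type} [LinearOrder σ] {K : Type} [CommRing K] {X X' : Type} [AddCommGroup X]
  [Module K X] [AddCommGroup X'] [Module K X']

theorem dd_comp (U : Finset σ) (ξ : σ → K) (e : X →ₗ[K] X') (φ : Finset σ → X) (I : Finset σ) :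
    dd U ξ (fun J => e (φ J)) I = e (dd U ξ φ I) := by
  rw [dd_def, dd_def, Finset.sum_apply, Finset.sum_apply, map_sum]
  refine sum_congr rfl fun s _ => ?_
  rw [Pi.smul_apply, Pi.smul_apply, map_smul, an_apply, an_apply]
  split_ifs
  · simp
  · rw [map_zsmul]

theorem kf_retract {U : Finset σ} {ξ : σ → K} {A : AddSubgroup X} {A' : AddSubgroup X'}
    (e : X →ₗ[K] X') (r : X' →ₗ[K] X) (hre : ∀ v, r (e v) = v) (he : ∀ v ∈ A, e v ∈ A')
    (hr : ∀ v ∈ A', r v ∈ A) (h : KF U ξ A' ⊥) : KF U ξ A ⊥ := by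
  intro p φ hφ hd
  obtain ⟨ψ, hψ, hψ'⟩ := h p (fun J => e (φ J))
    (fun I => ⟨he _ (hφ I).1, fun hI => by simp [(hφ I).2 hI]⟩) (fun I => by
      rw [dd_comp, AddSubgroup.mem_bot.1 (hd I), map_zero]
      exact AddSubgroup.zero_mem _)
  refine ⟨fun J => r (ψ J), fun I => ⟨hr _ (hψ I).1, fun hI => by simp [(hψ I).2 hI]⟩, fun I => ?_⟩
  have h1 := AddSubgroup.mem_bot.1 (hψ' I)
  rw [Pi.sub_apply, sub_eq_zero] at h1
  rw [AddSubgroup.mem_bot, Pi.sub_apply, dd_comp, ← h1, hre, sub_self]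

end retract

variable {n : ℕ} {Λ : Type} [Fintype Λ] [DecidableEq Λ]

/-- the matrix of a self map -/
def pm (g : Fin n → Fin n) : Matrix (Fin n) (Fin n) (Pyx n) :=
  Matrix.of fun i j => if g i = j then 1 else 0

theorem det_pm (τ : Equiv.Perm (Fin n)) : (pm τ).det = ((Equiv.Perm.sign τ : ℤ) : Pyx n) := by
  rw [← Matrix.det_permutation]
  congr 1
  ext i j : 2
  simp [pm, PEquiv.toMatrix_apply, eq_comm]

theorem pm_mul (g : Fin n → Fin n) (h : Fin n → ℕ × ℕ) :
    (pm g).det * (Matrix.of fun i j => xy i (h j)).det =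
      ∑ τ : Equiv.Perm (Fin n), ((Equiv.Perm.sign τ : ℤ) : Pyx n) * ∏ i, xy (g i) (h (τ i)) := by
  rw [← Matrix.det_mul, ← Matrix.det_transpose, Matrix.det_apply']
  refine sum_congr rfl fun τ _ => ?_
  congr 1
  refine prod_congr rfl fun i _ => ?_
  simp [pm, Matrix.mul_apply]

/-- extension by the sign -/
def ext (Λ : Type) (n : ℕ) : ((Λ → Fin n) → Pyx n) →ₗ[Pyx n] ((Λ ⊕ Fin n → Fin n) → Pyx n) where
  toFun v F := (pm (F ∘ Sum.inr)).det * v (F ∘ Sum.inl)
  map_add' v w := by funext F; simp [mul_add]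
  map_smul' c v := by funext F; simp [mul_left_comm]

/-- alternation in the new indices -/
def alt (Λ : Type) (n : ℕ) : ((Λ ⊕ Fin n → Fin n) → Pyx n) →ₗ[Pyx n] ((Λ → Fin n) → Pyx n) where
  toFun w f := ∑ τ : Equiv.Perm (Fin n), ((Equiv.Perm.sign τ : ℤ) : Pyx n) * w (Sum.elim f τ)
  map_add' v w := by funext F; simp [mul_add, sum_add_distrib]
  map_smul' c v := by funext F; simp [mul_left_comm, mul_sum]

theorem alt_ext (v : (Λ → Fin n) → Pyx n) :
    alt Λ n (ext Λ n v) = ((n.factorial : ℕ) : Pyx n) • v := by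
  funext f
  change ∑ τ : Equiv.Perm (Fin n), _ * ((pm τ).det * v f) = _
  have : ∀ τ : Equiv.Perm (Fin n),
      ((Equiv.Perm.sign τ : ℤ) : Pyx n) * ((pm τ).det * v f) = v f := fun τ => by
    rw [det_pm, ← mul_assoc, ← Int.cast_mul, ← Units.val_mul, Int.units_mul_self]
    simp
  rw [sum_congr rfl fun τ _ => this τ]
  simp [Fintype.card_perm]

theorem alt_mem {I : Ideal (Pyx n)} {w : (Λ ⊕ Fin n → Fin n) → Pyx n}
    (hw : w ∈ TI (Λ ⊕ Fin n) I) : alt Λ n w ∈ TI Λ (I * JJ n) := by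
  refine (Submodule.span_le (p := (TI Λ (I * JJ n)).comap (alt Λ n))).2 ?_ hw
  rintro _ ⟨b, hb, h, rfl⟩
  refine Submodule.subset_span ⟨b * (Matrix.of fun i j => xy i (h (Sum.inr j))).det,
    Ideal.mul_mem_mul hb (Ideal.subset_span ⟨fun j => h (Sum.inr j), rfl⟩),
    fun s => h (Sum.inl s), ?_⟩
  funext f
  change ∑ τ : Equiv.Perm (Fin n), _ * (b * _) = _
  rw [Matrix.det_apply', mul_sum, sum_mul]
  refine sum_congr rfl fun τ _ => ?_
  rw [Fintype.prod_sum_type]
  simp only [Sum.elim_inl, Sum.elim_inr, Matrix.of_apply]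
  ring

theorem ext_mem {I : Ideal (Pyx n)} {v : (Λ → Fin n) → Pyx n} (hv : v ∈ TI Λ (I * JJ n)) :
    ext Λ n v ∈ TI (Λ ⊕ Fin n) I := by
  refine (Submodule.span_le (p := (TI (Λ ⊕ Fin n) I).comap (ext Λ n))).2 ?_ hv
  rintro _ ⟨c, hc, h, rfl⟩
  have e : ∀ c : Pyx n, (fun f : Λ → Fin n => c * ∏ s, xy (f s) (h s)) =
      c • fun f : Λ → Fin n => ∏ s, xy (f s) (h s) := fun c => rfl
  change ext Λ n _ ∈ TI (Λ ⊕ Fin n) I
  rw [e, map_smul]
  refine Submodule.mul_induction_on hc (fun b hb d hd => ?_) fun x y hx hy => ?_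
  · induction hd using Submodule.span_induction with
    | mem d hd =>
      obtain ⟨k, rfl⟩ := hd
      have e2 : (b * (Matrix.of fun i j => xy i (k j)).det) •
          ext Λ n (fun f : Λ → Fin n => ∏ s, xy (f s) (h s)) =
          ∑ τ : Equiv.Perm (Fin n), ((Equiv.Perm.sign τ : ℤ) : Pyx n) •
            fun F : Λ ⊕ Fin n → Fin n => b * ∏ s, xy (F s) (Sum.elim h (k ∘ τ) s) := by
        funext F
        rw [Finset.sum_apply]
        change _ * ((pm (F ∘ Sum.inr)).det * ∏ s, xy (F (Sum.inl s)) (h s)) = _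
        have := pm_mul (F ∘ Sum.inr) k
        simp only [Pi.smul_apply, smul_eq_mul, Fintype.prod_sum_type, Sum.elim_inl, Sum.elim_inr,
          Function.comp_apply] at this ⊢
        calc _ = b * (∏ s, xy (F (Sum.inl s)) (h s)) *
            ((pm (F ∘ Sum.inr)).det * (Matrix.of fun i j => xy i (k j)).det) := by ring
          _ = _ := by
            rw [this, mul_sum]
            exact sum_congr rfl fun τ _ => by ring
      rw [e2]
      exact Submodule.sum_mem _ fun τ _ => Submodule.smul_mem _ _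
        (Submodule.subset_span ⟨b, hb, _, rfl⟩)
    | zero => simp
    | add x y _ _ hx hy => rw [mul_add, add_smul]; exact Submodule.add_mem _ hx hy
    | smul a x _ hx =>
      rw [smul_eq_mul, mul_left_comm, mul_smul]
      exact Submodule.smul_mem _ _ hx
  · rw [add_smul]
    exact Submodule.add_mem _ hx hy

end PBlkKAux

open PBlkKAux in
theorem blkK : S_BlkK := by
  intro n I h Λ _ _
  have hn : ((n.factorial : ℕ) : ℂ) ≠ 0 := Nat.cast_ne_zero.2 n.factorial_ne_zero
  refine kf_retract (ext Λ n) (algebraMap ℂ (Pyx n) ((n.factorial : ℕ) : ℂ)⁻¹ • alt Λ n)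
    (fun v => ?_) (fun v hv => ext_mem hv) (fun w hw => ?_) (h (Λ ⊕ Fin n))
  · rw [LinearMap.smul_apply, alt_ext, smul_smul, ← map_natCast (algebraMap ℂ (Pyx n)), ← map_mul,
      inv_mul_cancel₀ hn, map_one, one_smul]
  · exact Submodule.smul_mem _ _ (alt_mem hw)

end

end Pool.Agent.P.MP_c2aaf5_co
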