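import Pool.Agent.P.MP_c2aaf5_co.PBase

/-! Label sets used by the global polygraph packages. -/

set_option linter.unusedSectionVars false

namespace Pool.Agent.P.MP_c2aaf5_co

open MvPolynomial Finset

noncomputable section

variable {P Λ Y : Type} [Fintype P] [DecidableEq P] [Fintype Λ] [DecidableEq Λ] [CommRing Y]
  {S S' : Set (Lab P Λ)} {v w : Am P Λ Y} {y : P → Y} {N : Finset P} {L : Finset Λ}
  {rk : P → ℕ} {rl : Λ → ℕ}

theorem rho_split {o : P} (ho : o ∈ N) (r k : ℕ) (a : Lab P Λ) :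
    rho N L rk rl r k a = rho (N.erase o) L rk rl r k a +
      if o ∈ a.1 ∧ rk o < r ∧ ∀ s ∈ L, rl s < k → a.2 s ≠ o then 1 else 0 := by
  unfold rho
  conv_lhs => rw [← insert_erase ho, filter_insert]
  split_ifs with h
  · rw [card_insert_of_notMem (by simp)]
  · rfl

theorem rho_rot (o : P) (r k : ℕ) (a : Lab P Λ) :
    rho N L (rot rk o) rl (min r (univ.sup rk + 1)) k a = rho (N.erase o) L rk rl r k a := by
  unfold rho; congr 1; ext j
  have h1 : rk j ≤ univ.sup rk := le_sup (mem_univ j)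
  simp only [mem_filter, mem_erase, rot]
  split_ifs with h
  · simp only [h, ne_eq, not_true, false_and, iff_false]; rintro ⟨-, -, h2, -⟩; omega
  · have : rk j < min r (univ.sup rk + 1) ↔ rk j < r := by omega
    simp only [this, ne_eq, h, not_false_iff, true_and]

theorem rho_erase (o : P) (r k : ℕ) (T : Finset P) (f : Λ → P) :
    rho N L rk rl r k (T.erase o, f) = rho (N.erase o) L rk rl r k (T, f) := by
  unfold rho; congr 1; ext j
  simp only [mem_filter, mem_erase]; tauto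

/-- the last slice is a set of the family of level `N.erase o` -/
theorem up_slice {o : P} (ho : o ∈ N) (hS : Up N L rk rl S) :
    Up (N.erase o) L rk rl (S ∩ Yo N L o L) := by
  refine ⟨fun a ha s hs => mem_erase.2 ⟨ha.2.2.2 s hs, ha.2.1 s hs⟩, fun a ha b hb hl => ?_⟩
  have h1 : All N L b.2 := fun s hs => mem_of_mem_erase (hb s hs)
  have h2 : o ∈ b.1 := hl.2 o ha.2.2.1 (notMem_erase _ _)
  have h3 : ∀ s ∈ L, b.2 s ≠ o := fun s hs => (mem_erase.1 (hb s hs)).1
  refine ⟨hS.2 a ha.1 b h1 ⟨fun r k => ?_, fun j hj hN => hl.2 j hj fun h => hN (mem_of_mem_erase h)⟩,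
    h1, h2, h3⟩
  rw [rho_split ho, rho_split ho r k b]
  refine add_le_add (hl.1 r k) ?_
  split_ifs with c1 c2 c2
  · rfl
  · exact absurd ⟨h2, c1.2.1, fun s hs _ => h3 s hs⟩ c2
  · omega
  · rfl

/-- the labels seen after division by `x_o` -/
theorem up_sh {o : P} (ho : o ∈ N) (hS : Up N L rk rl S) :
    Up N L (rot rk o) rl (sh (fun _ => o) S) := by
  refine ⟨fun a ha s hs => hS.1 (a.1.erase o, a.2) ha s hs, fun a ha b hb hl => ?_⟩
  refine hS.2 (a.1.erase o, a.2) ha (b.1.erase o, b.2) hb ⟨fun r k => ?_, fun j hj hN => ?_⟩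
  · rw [rho_erase, rho_erase, ← rho_rot, ← rho_rot]; exact hl.1 _ _
  · exact mem_erase.2 ⟨(mem_erase.1 hj).1, hl.2 j (mem_erase.1 hj).2 hN⟩

/-- the stratum of `S` with `f t = o` and exactly `c` free points -/
def Zc (N : Finset P) (L : Finset Λ) (o : P) (E : Finset Λ) (t : Λ) (c : ℕ) (S : Set (Lab P Λ)) :
    Set (Lab P Λ) :=
  {a | a ∈ S ∩ Yo N (insert t L) o E ∧ a.2 t = o ∧ (Ts N o E a).card = c}

theorem rho_erase_insert {o : P} {t : Λ} (r k : ℕ) {a : Lab P Λ} (h : a.2 t = o) :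
    rho (N.erase o) (insert t L) rk rl r k a = rho (N.erase o) L rk rl r k a := by
  unfold rho; congr 1
  refine filter_congr fun j hj => and_congr_right fun _ => and_congr_right fun _ => ?_
  simp only [forall_mem_insert, h, and_iff_right_iff_imp]
  exact fun _ _ => (mem_erase.1 hj).1.symm

theorem rho_rot_top {o : P} (ho : o ∈ N) (k : ℕ) (a : Lab P Λ) :
    rho N L (rot rk o) rl (univ.sup rk + 2) k a = (Ts N o (Ek L rl k) a).card +
      if o ∈ a.1 ∧ ∀ s ∈ Ek L rl k, a.2 s ≠ o then 1 else 0 := by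
  rw [rho_split ho]
  congr 1
  · unfold rho Ts; congr 1; ext j
    have h1 : rk j ≤ univ.sup rk := le_sup (mem_univ j)
    have h2 : rot rk o j < univ.sup rk + 2 := by unfold rot; split_ifs <;> omega
    simp only [mem_filter, mem_erase, h2, true_and, mem_Ek, and_imp]; tauto
  · have h2 : rot rk o o < univ.sup rk + 2 := by simp [rot]
    simp only [h2, true_and, mem_Ek, and_imp]

/-- a set of level `L` that consists of `Ge (c+1)` and the shadow of the stratum `Zc` -/
theorem exists_gs_set {o : P} {t : Λ} {k : ℕ} (ho : o ∈ N) (hn : Next L rl k t)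
    (hS : Up N (insert t L) rk rl S) (c : ℕ) :
    ∃ U, Up N L (rot rk o) rl U ∧ Ge N L o (Ek L rl k) (c + 1) ⊆ U ∧
      Zc N L o (Ek L rl k) t c S ⊆ U ∧ ∀ T f, (T, f) ∈ U → (T, f) ∈ Ge N L o (Ek L rl k) (c + 1) ∨
        (T, Function.update f t o) ∈ Zc N L o (Ek L rl k) t c S := by
  let S2 : Set (Lab P Λ) := {b | All N L b.2 ∧ ∃ a ∈ S, a.2 t = o ∧
    (∀ r k', rho (N.erase o) L rk rl r k' a ≤ rho (N.erase o) L rk rl r k' b) ∧
    ∀ j ∈ a.1, j ∉ N → j ∈ b.1}
  have h2 : Up N L (rot rk o) rl S2 := by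
    refine ⟨fun _ h => h.1, fun a ⟨_, a0, h0, h1, h3, h4⟩ b hb hl =>
      ⟨hb, a0, h0, h1, fun r k' => (h3 r k').trans ?_, fun j hj hN => hl.2 j (h4 j hj hN) hN⟩⟩
    rw [← rho_rot, ← rho_rot]; exact hl.1 _ _
  refine ⟨(S2 ∩ {a | All N L a.2 ∧ c + 1 ≤ rho N L (rot rk o) rl (univ.sup rk + 2) k a}) ∪
    Ge N L o (Ek L rl k) (c + 1), (h2.inter (up_rho _ _ _)).union (up_Ge_rot o k _),
    Set.subset_union_right, fun a ha => Or.inl ?_, fun T f h => ?_⟩
  · have h1 : All N L a.2 := ha.1.2.1.mono (subset_insert _ _)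
    refine ⟨⟨h1, a, ha.1.1, ha.2.1, fun _ _ => le_rfl, fun _ h _ => h⟩, h1, ?_⟩
    rw [rho_rot_top ho, if_pos ha.1.2.2, ha.2.2]
  by_cases hg : (T, f) ∈ Ge N L o (Ek L rl k) (c + 1)
  · exact Or.inl hg
  right
  obtain ⟨⟨h1, a, ha, hat, h3, h4⟩, -, h5⟩ := h.resolve_right hg
  have hf : ∀ s ∈ L, f s = Function.update f t o s := fun s hs => by
    rw [Function.update_of_ne (fun e : s = t => hn.1 (e ▸ hs))]
  have h6 : ¬c + 1 ≤ (Ts N o (Ek L rl k) (T, f)).card := fun h => hg ⟨h1, h⟩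
  rw [rho_rot_top ho] at h5
  split_ifs at h5 with h7
  swap
  · omega
  have h8 : All N (insert t L) (Function.update f t o) := fun s hs => by
    rcases mem_insert.1 hs with rfl | hs
    · simpa using ho
    · rw [← hf s hs]; exact h1 s hs
  have h9 : ∀ s ∈ Ek L rl k, Function.update f t o s ≠ o := fun s hs => by
    rw [← hf s (Ek_subset _ _ _ hs)]; exact h7.2 s hs
  refine ⟨⟨hS.2 a ha _ h8 ⟨fun r k' => ?_, h4⟩, h8, h7.1, h9⟩, by simp, ?_⟩
  · rw [rho_split ho, rho_split ho r k' (T, _), rho_erase_insert r k' hat,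
      rho_erase_insert (a := (T, Function.update f t o)) r k' (by simp), ← rho_congr hf]
    refine add_le_add (h3 r k') ?_
    split_ifs with c1 c2 c2
    · rfl
    · refine absurd ⟨h7.1, c1.2.1, fun s hs hk => ?_⟩ c2
      have ht : ¬rl t < k' := fun h => c1.2.2 t (mem_insert_self _ _) h hat
      rcases mem_insert.1 hs with rfl | hs
      · exact absurd hk ht
      · exact h9 s (mem_Ek.2 ⟨hs, hn.2.2 s hs (by omega)⟩)
    · omega
    · rfl
  · rw [← Ts_congr o T fun s hs => hf s (Ek_subset _ _ _ hs)]; omega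

theorem exists_next {k : ℕ} (h : Ek L rl k ≠ L) : ∃ t ∈ L, Next (L.erase t) rl k t := by
  have : (L.filter fun s => ¬rl s < k).Nonempty := by
    by_contra h0
    refine h (filter_true_of_mem fun s hs => ?_)
    by_contra h1
    exact h0 ⟨s, mem_filter.2 ⟨hs, h1⟩⟩
  obtain ⟨t, h1, h2⟩ := exists_min_image _ rl this
  refine ⟨t, (mem_filter.1 h1).1, notMem_erase _ _, not_lt.1 (mem_filter.1 h1).2, fun s hs h3 => ?_⟩
  by_contra h4
  exact absurd (h2 s (mem_filter.2 ⟨mem_of_mem_erase hs, h4⟩)) (not_le.2 h3)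

theorem Next.notMem_Ek {k : ℕ} {t : Λ} (h : Next L rl k t) :
    t ∉ Pool.Agent.P.MP_c2aaf5_co.Ek L rl k := fun h' => h.1 (Ek_subset _ _ _ h')

/-- distributivity inside a slice that is already done -/
theorem dist_slice (hL : LocAll Λ y) (hN : 2 ≤ N.card) (hr : Function.Injective rk)
    (hl : Function.Injective rl) {o : P} (ho : First N rk o) {j k : ℕ} (hsl : Slice y N L o j)
    (hk : j ≤ (Ek L rl k).card) (hS : Up N L rk rl S) (hS' : Up N L rk rl S')
    (h1 : S ⊆ Yo N L o (Ek L rl k)) (h2 : S' ⊆ Yo N L o (Ek L rl k)) {u : Am P Λ Y}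
    (hu : u ∈ RR y L) (h : Van (S ∩ S') u) : ∃ u1 ∈ RR y L, Van S (u - u1) ∧ Van S' u1 := by
  have := hsl rk rl hr hl ho k hk _ (hS.union hS')
  rw [Set.inter_eq_left.2 (Set.union_subset h1 h2)] at this
  exact dist hL hN hr hl hS hS' this hu h

theorem sh_Yo {t : Λ} {o : P} {E : Finset Λ} :
    sh (fun f => f t) (Yo N L o E) = Yo N L o (insert t E) := by
  ext a
  simp only [sh, Yo, Set.mem_ofPred_eq, mem_erase, forall_mem_insert]
  tauto

theorem sh_Ge {t : Λ} {o : P} {E : Finset Λ} {c : ℕ} :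
    sh (fun f => f t) (Ge N L o E c) = Ge N L o (insert t E) c := by
  ext a
  have : Ts N o E (a.1.erase (a.2 t), a.2) = Ts N o (insert t E) a := by
    ext j; simp only [Ts, mem_filter, mem_erase, forall_mem_insert]; tauto
  simp only [sh, Ge, Set.mem_ofPred_eq, this]

theorem sh_inter (κ : (Λ → P) → P) : sh κ (S ∩ S') = sh κ S ∩ sh κ S' := rfl

/-- truncation below degree `D` -/
def trc0 (D : ℕ) (v : Am P Λ Y) : Am P Λ Y := ∑ d ∈ range D, hd d v

theorem coeff_trc0 (D : ℕ) (v : Am P Λ Y) (f : Λ → P) (e : P →₀ ℕ) :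
    coeff e (trc0 D v f) = if e.degree < D then coeff e (v f) else 0 := by
  rw [trc0, Finset.sum_apply, coeff_sum]
  simp only [coeff_hd, sum_ite_eq, mem_range]

theorem trc0_mem (hv : v ∈ RR y L) (D : ℕ) : trc0 D v ∈ RR y L := sum_mem fun d _ => hd_mem hv d

/-- an element of `RR` vanishing where `x_o` vanishes is locally a multiple of `x_o` -/
theorem loc_div_xo (hL : LocAll Λ y) (hN : 2 ≤ N.card) (hr : Function.Injective rk)
    (hl : Function.Injective rl) {o : P} (ho : First N rk o) (hS : Up N L rk rl S) {u : Am P Λ Y}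
    (hu : u ∈ RR y L) (h : Van (S ∩ Yo N L o ∅) u) (p q : P) :
    ∃ G ∈ Mult y univ p q, ∃ d ∈ RR y L,
      Van S ((C G : MvPolynomial P Y) • u - xk Y (fun _ => o) * d) := by
  obtain ⟨p', q', a1, a2, a3, a4, a5⟩ := exists_pair y hN hr p q
  have hY : Up N L rk rl (Yo N L o ∅) := by simpa only [Ek_zero] using up_Yo (L := L) (rl := rl) hr ho 0
  obtain ⟨G, hG, u1, b1, b2, b3⟩ := (hL N p' q' a1 a2 a3).1 L rk rl hl a4 S _ hS hY u hu h
  obtain ⟨G', hG', r, c1, c2⟩ := (hL N p' q' a1 a2 a3).2.2.2.2.2.2.2 L ∅ o (ho.ne a2 a4)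
    (empty_subset _) u1 b1 b3
  refine ⟨G' * G, a5 (mul_mem hG' hG), r, c1, van_sub_iff.2 fun f e a => ?_⟩
  have e1 := van_sub_iff.1 b2 f e a
  rw [coeff_C_smul] at e1
  rw [coeff_C_smul, mul_assoc, e1, ← coeff_C_mul, c2 f (hS.1 _ a) (by simp)]
  rfl

end

end Pool.Agent.P.MP_c2aaf5_co
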